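import Pool.Agent.Lib.MP_41a456_al.Defs

section

section

/-!
# MP_41a456_al, Theorem TC (paper 521): definitions

`n = m + 1`, `SLr n = SL_n(ℝ)`, `X n = SL_n(ℝ)/SL_n(ℤ)`. See `TC/Paper.md`.
-/

namespace Pool.Agent.Lib.MP_41a456_al.TC

open Matrix MeasureTheory Filter Topology Pool.Agent.Lib.MP_41a456_al

/-- real matrices -/
abbrev Mr (n : ℕ) := Matrix (Fin n) (Fin n) ℝ

/-- `SL_n(ℝ)` -/
abbrev SLr (n : ℕ) := Matrix.SpecialLinearGroup (Fin n) ℝ

/-- the inclusion of `SL_n(ℤ)` in `SL_n(ℝ)` -/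
def iz (n : ℕ) : SLn n →* SLr n := Matrix.SpecialLinearGroup.map (Int.castRingHom ℝ)

/-- `SL_n(ℤ)` as a subgroup -/
def Gam (n : ℕ) : Subgroup (SLr n) := (iz n).range

/-- the space `SL_n(ℝ)/SL_n(ℤ)` -/
def X (n : ℕ) := SLr n ⧸ Gam n

/-- the point `g SL_n(ℤ)` -/
def pt {n : ℕ} (g : SLr n) : X n := (QuotientGroup.mk g : SLr n ⧸ Gam n)

instance (n : ℕ) : TopologicalSpace (X n) := inferInstanceAs (TopologicalSpace (SLr n ⧸ Gam n))

instance (n : ℕ) : MulAction (SLr n) (X n) := inferInstanceAs (MulAction (SLr n) (SLr n ⧸ Gam n))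

instance (n : ℕ) : MeasurableSpace (X n) := borel (X n)

instance (n : ℕ) : BorelSpace (X n) := ⟨rfl⟩

theorem smul_pt {n : ℕ} (g h : SLr n) : g • pt h = pt (g * h) := rfl

theorem pt_surjective {n : ℕ} (y : X n) : ∃ g : SLr n, pt g = y := QuotientGroup.mk_surjective y

/-- `e^a`: the diagonal matrix of determinant 1 with entries `exp (a i - (∑ a) / n)` -/
noncomputable def ex {n : ℕ} (a : Fin n → ℝ) : SLr n :=
  ⟨diagonal fun i => Real.exp (a i - (∑ j, a j) / n), by
    rw [det_diagonal, ← Real.exp_sum, Finset.sum_sub_distrib, Finset.sum_const, Finset.card_univ,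
      Fintype.card_fin, nsmul_eq_mul]
    rcases Nat.eq_zero_or_pos n with rfl | h
    · simp
    · rw [mul_div_cancel₀ _ (by exact_mod_cast h.ne'), sub_self, Real.exp_zero]⟩

/-- `u_ij(q) = 1 + q E_ij` (and `1` if `i = j`) -/
noncomputable def uel {n : ℕ} (i j : Fin n) (q : ℝ) : SLr n :=
  if h : i ≠ j then SpecialLinearGroup.transvection h q else 1

/-- `u(v) = 1 + ∑ v_j E_{j+1,0}` -/
noncomputable def ucol {m : ℕ} (v : Fin m → ℝ) : SLr (m + 1) :=
  ⟨1 + vecMulVec (Fin.cons 0 v : Fin (m + 1) → ℝ) (Pi.single 0 1), by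
    rw [vecMulVec_eq Unit, det_one_add_replicateCol_mul_replicateRow]
    simp⟩

/-- `W_k`: entry `Λ^{-(n-1)/n}` at `k` and `Λ^{1/n}` elsewhere -/
noncomputable def W {n : ℕ} (Λ : ℕ) (k : Fin n) : SLr n := ex (Pi.single k (-Real.log Λ))

/-- diagonal matrix of determinant 1 with `b_i / b_{i+1} = Λ^{s_i}` -/
noncomputable def bb {m : ℕ} (Λ : ℕ) (s : Fin m → ℤ) : SLr (m + 1) :=
  ex fun i => Real.log Λ * ∑ l with i ≤ l.castSucc, (s l : ℝ)

/-- orthogonal matrices of determinant 1 -/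
def Orth {n : ℕ} (k : SLr n) : Prop := (k : Mr n)ᵀ * (k : Mr n) = 1

/-- the lattice of the point `y` -/
def vecs {n : ℕ} (y : X n) : Set (Fin n → ℝ) :=
  {w | ∃ g : SLr n, pt g = y ∧ ∃ v : Fin n → ℤ, w = (g : Mr n) *ᵥ fun i => (v i : ℝ)}

/-- length of a shortest vector (sup norm) -/
noncomputable def lam {n : ℕ} (y : X n) : ℝ := sInf ((fun w => ‖w‖) '' (vecs y \ {0}))

/-- the exponent `β = (3 n - 2) / 4` -/
noncomputable def bet (n : ℕ) : ℝ := (3 * (n : ℝ) - 2) / 4

/-- the height function `α = lam ^ (-β)` -/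
noncomputable def alf {n : ℕ} (y : X n) : ℝ := (lam y) ^ (-(bet n))

/-- the compound norm: root of the sum of the squares of the `k`-minors -/
noncomputable def Nk {n : ℕ} (k : ℕ) (x : Mr n) : ℝ :=
  Real.sqrt (∑ f : Fin k → Fin n, ∑ g : Fin k → Fin n, (x.submatrix f g).det ^ 2) / k.factorial

/-- `log N_k` -/
noncomputable def om {n : ℕ} (k : ℕ) (x : Mr n) : ℝ := Real.log (Nk k x)

/-- the first `k` indices -/
def ld (m k : ℕ) : Fin k → Fin (m + 1) := fun i => Fin.ofNat (m + 1) i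

/-- leading principal `k`-minor -/
noncomputable def mk {m : ℕ} (k : ℕ) (x : Mr (m + 1)) : ℝ := (x.submatrix (ld m k) (ld m k)).det

/-- sum of the first `k` coordinates -/
noncomputable def sk {n : ℕ} (k : ℕ) (a : Fin n → ℝ) : ℝ :=
  ∑ i ∈ Finset.univ.filter (fun i : Fin n => (i : ℕ) < k), a i

/-- `i`-th gap -/
def gap {m : ℕ} (a : Fin (m + 1) → ℝ) (i : Fin m) : ℝ := a i.castSucc - a i.succ

/-- `S` is `u_ij`-discrete with constant `e` -/
def Disc {n : ℕ} (i j : Fin n) (e : ℝ) (S : Set (X n)) : Prop :=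
  ∀ y ∈ S, ∀ q : ℝ, |q| ≤ e → uel i j q • y ∈ S → q = 0

/-- property `(N_ij)`: no `u_ij`-discrete Borel set has positive measure -/
def Nij {n : ℕ} (μ : Measure (X n)) (i j : Fin n) : Prop :=
  ∀ S : Set (X n), MeasurableSet S → ∀ e > 0, Disc i j e S → μ S = 0

/-- the measure is invariant under the group element `g` -/
def Inv {n : ℕ} (μ : Measure (X n)) (g : SLr n) : Prop := μ.map (fun y => g • y) = μ

end Pool.Agent.Lib.MP_41a456_al.TC
end

section

/-!
# MP_41a456_al, Theorem TC: the topology of `X n`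
-/

namespace Pool.Agent.Lib.MP_41a456_al.TC

open Matrix MeasureTheory Filter Topology Pool.Agent.Lib.MP_41a456_al

theorem isClosed_Gam (n : ℕ) : IsClosed (Gam n : Set (SLr n)) := by
  have h : IsClosedEmbedding (Int.castRingHom ℝ) := Int.isClosedEmbedding_coe_real
  have := (h.specialLinearGroup_map (n := Fin n)).isClosed_range
  simpa [Gam, iz] using this

instance (n : ℕ) : IsClosed (Gam n : Set (SLr n)) := isClosed_Gam n

instance (n : ℕ) : T2Space (X n) := inferInstanceAs (T2Space (SLr n ⧸ Gam n))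

instance (n : ℕ) : LocallyCompactSpace (Mr n) :=
  inferInstanceAs (LocallyCompactSpace (Fin n → Fin n → ℝ))

instance (n : ℕ) : SecondCountableTopology (Mr n) :=
  inferInstanceAs (SecondCountableTopology (Fin n → Fin n → ℝ))

instance (n : ℕ) : LocallyCompactSpace (SLr n) :=
  (SpecialLinearGroup.isClosedEmbedding_val (n := Fin n) (R := ℝ)).locallyCompactSpace

instance (n : ℕ) : SecondCountableTopology (SLr n) :=
  (SpecialLinearGroup.isClosedEmbedding_val (n := Fin n) (R := ℝ)).isEmbedding.secondCountableTopology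

instance (n : ℕ) : LocallyCompactSpace (X n) := inferInstanceAs (LocallyCompactSpace (SLr n ⧸ Gam n))

instance (n : ℕ) : SecondCountableTopology (X n) :=
  inferInstanceAs (SecondCountableTopology (SLr n ⧸ Gam n))

instance (n : ℕ) : ContinuousSMul (SLr n) (X n) :=
  inferInstanceAs (ContinuousSMul (SLr n) (SLr n ⧸ Gam n))

instance (n : ℕ) : TopologicalSpace.MetrizableSpace (X n) :=
  TopologicalSpace.metrizableSpace_of_t3_secondCountable (X n)

instance (n : ℕ) : SigmaCompactSpace (X n) := inferInstance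

instance (n : ℕ) : MeasurableSpace.CountablyGenerated (X n) := inferInstance

theorem continuous_pt (n : ℕ) : Continuous (pt (n := n)) := QuotientGroup.continuous_mk

theorem isOpenMap_pt (n : ℕ) : IsOpenMap (pt (n := n)) := QuotientGroup.isOpenMap_coe

theorem measurable_smul_X {n : ℕ} (g : SLr n) : Measurable fun y : X n => g • y :=
  (continuous_const_smul g).measurable

end Pool.Agent.Lib.MP_41a456_al.TC
end

section

/-!
# MP_41a456_al, Theorem TC: the involution `th` of `X n`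
-/

namespace Pool.Agent.Lib.MP_41a456_al.TC

open Matrix MeasureTheory Filter Topology Pool.Agent.Lib.MP_41a456_al

/-- `g ↦ (gᵀ)⁻¹` -/
def theta (n : ℕ) : SLr n →* SLr n where
  toFun g := (⟨(g : Mr n)ᵀ, by rw [det_transpose]; exact g.2⟩ : SLr n)⁻¹
  map_one' := by
    rw [inv_eq_one]
    ext i j
    simp [Matrix.one_apply, eq_comm]
  map_mul' g h := by
    rw [← _root_.mul_inv_rev]
    congr 1
    apply Subtype.ext
    change ((g * h : SLr n) : Mr n)ᵀ = (h : Mr n)ᵀ * (g : Mr n)ᵀ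
    rw [Matrix.SpecialLinearGroup.coe_mul, Matrix.transpose_mul]

/-- transpose -/
def tr {n : ℕ} (g : SLr n) : SLr n := ⟨(g : Mr n)ᵀ, by rw [det_transpose]; exact g.2⟩

theorem theta_apply {n : ℕ} (g : SLr n) : theta n g = (tr g)⁻¹ := rfl

/-- transpose on `SL_n(ℤ)` -/
def trz {n : ℕ} (g : SLn n) : SLn n := ⟨(g : Mt n)ᵀ, by rw [det_transpose]; exact g.2⟩

theorem iz_trz {n : ℕ} (g : SLn n) : iz n (trz g) = tr (iz n g) := by
  ext i j
  rfl

theorem theta_mem {n : ℕ} {g : SLr n} (h : g ∈ Gam n) : theta n g ∈ Gam n := by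
  obtain ⟨x, rfl⟩ := h
  refine ⟨(trz x)⁻¹, ?_⟩
  rw [map_inv, iz_trz, theta_apply]

/-- the involution of `X n` induced by `theta` -/
def th {n : ℕ} (y : X n) : X n :=
  Quotient.liftOn' y (fun g => pt (theta n g)) (by
    intro a b h
    have h1 : a⁻¹ * b ∈ Gam n := QuotientGroup.leftRel_apply.1 h
    have h2 := theta_mem h1
    rw [map_mul, map_inv] at h2
    exact QuotientGroup.eq.2 h2)

theorem th_pt {n : ℕ} (g : SLr n) : th (pt g) = pt (theta n g) := rfl

theorem th_smul {n : ℕ} (g : SLr n) (y : X n) : th (g • y) = theta n g • th y := by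
  obtain ⟨h, rfl⟩ := pt_surjective y
  rw [smul_pt, th_pt, th_pt, smul_pt, map_mul]

end Pool.Agent.Lib.MP_41a456_al.TC
end
end

section

/-!
# MP_41a456_al, Theorem TC, A1: diagonal and unipotent elements

All statements are direct matrix computations. `ex a` is the diagonal matrix with entries
`exp (a i - (∑ a) / n)`; conjugation multiplies the entry `(i, j)` by `exp (a i - a j)`.
-/

namespace Pool.Agent.Lib.MP_41a456_al.TC

open Matrix MeasureTheory Filter Topology Pool.Agent.Lib.MP_41a456_al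

variable {n : ℕ}

theorem ex_coe (a : Fin n → ℝ) :
    (ex a : Mr n) = diagonal fun i => Real.exp (a i - (∑ j, a j) / n) := rfl

theorem ex_coe_of_sum {a : Fin n → ℝ} (h : ∑ i, a i = 0) :
    (ex a : Mr n) = diagonal fun i => Real.exp (a i) := by
  rw [ex_coe]
  congr 1
  funext i
  rw [h, zero_div, sub_zero]

theorem ex_add (a b : Fin n → ℝ) : ex (a + b) = ex a * ex b := by
  apply Subtype.ext
  change (ex (a + b) : Mr n) = (ex a * ex b : SLr n)
  rw [Matrix.SpecialLinearGroup.coe_mul, ex_coe, ex_coe, ex_coe, diagonal_mul_diagonal]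
  congr 1
  funext i
  rw [← Real.exp_add]
  congr 1
  simp only [Pi.add_apply, Finset.sum_add_distrib]
  ring

theorem ex_zero : ex (0 : Fin n → ℝ) = 1 := by
  apply Subtype.ext
  change (ex (0 : Fin n → ℝ) : Mr n) = (1 : SLr n)
  rw [Matrix.SpecialLinearGroup.coe_one, ex_coe]
  simp

theorem ex_neg (a : Fin n → ℝ) : ex (-a) = (ex a)⁻¹ := by
  apply eq_inv_of_mul_eq_one_left
  rw [← ex_add, neg_add_cancel, ex_zero]

theorem ex_comm (a b : Fin n → ℝ) : ex a * ex b = ex b * ex a := by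
  rw [← ex_add, ← ex_add, add_comm]

/-- only the differences of the coordinates matter -/
theorem ex_congr {m : ℕ} {a b : Fin (m + 1) → ℝ} (h : ∀ l : Fin m, gap a l = gap b l) :
    ex a = ex b := by
  have h1 : ∀ i : Fin (m + 1), a i = b i + (a 0 - b 0) := by
    intro i
    induction i using Fin.induction with
    | zero => ring
    | succ l ih =>
      have := h l
      unfold gap at this
      linarith
  have h2 : ∑ j, a j = ∑ j, b j + ((m + 1 : ℕ) : ℝ) * (a 0 - b 0) := by
    rw [Finset.sum_congr rfl fun i _ => h1 i, Finset.sum_add_distrib, Finset.sum_const,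
      Finset.card_univ, Fintype.card_fin, nsmul_eq_mul]
  apply Subtype.ext
  change (ex a : Mr (m + 1)) = (ex b : Mr (m + 1))
  rw [ex_coe, ex_coe]
  congr 1
  funext i
  congr 1
  have h3 : ((m + 1 : ℕ) : ℝ) ≠ 0 := by positivity
  rw [h2, h1 i, add_div, mul_div_cancel_left₀ _ h3]
  ring

theorem continuous_ex : Continuous (ex : (Fin n → ℝ) → SLr n) := by
  refine continuous_induced_rng.2 ?_
  change Continuous fun a : Fin n → ℝ => (ex a : Mr n)
  simp only [ex_coe]
  refine Continuous.matrix_diagonal ?_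
  fun_prop

theorem tr_ex (a : Fin n → ℝ) : tr (ex a) = ex a := by
  apply Subtype.ext
  change ((ex a : Mr n))ᵀ = (ex a : Mr n)
  rw [ex_coe, diagonal_transpose]

theorem theta_ex (a : Fin n → ℝ) : theta n (ex a) = (ex a)⁻¹ := by
  rw [theta_apply, tr_ex]

theorem uel_coe {i j : Fin n} (h : i ≠ j) (q : ℝ) :
    (uel i j q : Mr n) = 1 + Matrix.single i j q := by
  unfold uel
  rw [dif_pos h]
  rfl

theorem uel_self (i : Fin n) (q : ℝ) : uel i i q = 1 := by
  unfold uel
  rw [dif_neg (by simp)]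

theorem uel_add (i j : Fin n) (p q : ℝ) : uel i j (p + q) = uel i j p * uel i j q := by
  by_cases h : i = j
  · subst h
    rw [uel_self, uel_self, uel_self, mul_one]
  · apply Subtype.ext
    change (uel i j (p + q) : Mr n) = (uel i j p * uel i j q : SLr n)
    rw [Matrix.SpecialLinearGroup.coe_mul, uel_coe h, uel_coe h, uel_coe h]
    simp only [add_mul, mul_add, one_mul, mul_one,
      Matrix.single_mul_single_of_ne _ _ _ _ (Ne.symm h), Matrix.single_add]
    abel

theorem uel_zero (i j : Fin n) : uel i j 0 = 1 := by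
  by_cases h : i = j
  · subst h
    rw [uel_self]
  · apply Subtype.ext
    change (uel i j 0 : Mr n) = (1 : SLr n)
    rw [Matrix.SpecialLinearGroup.coe_one, uel_coe h, Matrix.single_zero, add_zero]

theorem uel_neg (i j : Fin n) (q : ℝ) : uel i j (-q) = (uel i j q)⁻¹ := by
  apply eq_inv_of_mul_eq_one_left
  rw [← uel_add, neg_add_cancel, uel_zero]

theorem continuous_uel (i j : Fin n) : Continuous (uel i j : ℝ → SLr n) := by
  by_cases h : i = j
  · subst h
    simp only [show (uel i i : ℝ → SLr n) = fun _ => 1 from funext fun q => uel_self i q]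
    exact continuous_const
  · refine continuous_induced_rng.2 ?_
    change Continuous fun q : ℝ => (uel i j q : Mr n)
    simp only [uel_coe h]
    refine continuous_const.add ?_
    refine continuous_matrix fun a b => ?_
    simp only [Matrix.single_apply]
    split_ifs
    · exact continuous_id
    · exact continuous_const

theorem ex_uel (a : Fin n → ℝ) (i j : Fin n) (q : ℝ) :
    ex a * uel i j q * (ex a)⁻¹ = uel i j (Real.exp (a i - a j) * q) := by
  by_cases h : i = j
  · subst h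
    rw [uel_self, uel_self, mul_one, mul_inv_cancel]
  · rw [mul_inv_eq_iff_eq_mul]
    apply Subtype.ext
    change ((ex a * uel i j q : SLr n) : Mr n) = ((uel i j (Real.exp (a i - a j) * q) * ex a : SLr n) : Mr n)
    rw [Matrix.SpecialLinearGroup.coe_mul, Matrix.SpecialLinearGroup.coe_mul, uel_coe h, uel_coe h,
      ex_coe, mul_add, add_mul, mul_one, one_mul]
    congr 1
    ext c d
    rw [Matrix.diagonal_mul, Matrix.mul_diagonal, Matrix.single_apply, Matrix.single_apply]
    by_cases hcd : i = c ∧ j = d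
    swap
    · rw [if_neg hcd, if_neg hcd, mul_zero, zero_mul]
    obtain ⟨rfl, rfl⟩ := hcd
    rw [if_pos ⟨rfl, rfl⟩, if_pos ⟨rfl, rfl⟩]
    have e : Real.exp (a i - (∑ j, a j) / n) = Real.exp (a i - a j) * Real.exp (a j - (∑ j, a j) / n) := by
      rw [← Real.exp_add]
      congr 1
      ring
    rw [e]
    ring

theorem theta_uel (i j : Fin n) (q : ℝ) : theta n (uel i j q) = uel j i (-q) := by
  rw [theta_apply, uel_neg]
  congr 1
  apply Subtype.ext
  change ((uel i j q : SLr n) : Mr n)ᵀ = (uel j i q : Mr n)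
  by_cases h : i = j
  · subst h
    rw [uel_self, Matrix.SpecialLinearGroup.coe_one, Matrix.transpose_one]
  · rw [uel_coe h, uel_coe (Ne.symm h), Matrix.transpose_add, Matrix.transpose_one,
      Matrix.transpose_single]

/-- `u_ik(p) u_kj(q) = u_ij(pq) u_kj(q) u_ik(p)` -/
theorem uel_commutator {i k j : Fin n} (hik : i ≠ k) (hkj : k ≠ j) (hij : i ≠ j) (p q : ℝ) :
    uel i k p * uel k j q = uel i j (p * q) * uel k j q * uel i k p := by
  apply Subtype.ext
  change ((uel i k p * uel k j q : SLr n) : Mr n) = ((uel i j (p * q) * uel k j q * uel i k p : SLr n) : Mr n)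
  rw [Matrix.SpecialLinearGroup.coe_mul, Matrix.SpecialLinearGroup.coe_mul,
    Matrix.SpecialLinearGroup.coe_mul, uel_coe hik, uel_coe hkj, uel_coe hij]
  simp only [add_mul, mul_add, one_mul, mul_one, Matrix.single_mul_single_same,
    Matrix.single_mul_single_of_ne _ _ _ _ (Ne.symm hkj), Matrix.single_mul_single_of_ne _ _ _ _ (Ne.symm hij),
    add_zero]
  abel

theorem uel_commute_left {i k j : Fin n} (hik : i ≠ k) (hij : i ≠ j) (r p : ℝ) :
    uel i j r * uel i k p = uel i k p * uel i j r := by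
  apply Subtype.ext
  change ((uel i j r * uel i k p : SLr n) : Mr n) = ((uel i k p * uel i j r : SLr n) : Mr n)
  rw [Matrix.SpecialLinearGroup.coe_mul, Matrix.SpecialLinearGroup.coe_mul, uel_coe hik, uel_coe hij]
  simp only [add_mul, mul_add, one_mul, mul_one,
    Matrix.single_mul_single_of_ne _ _ _ _ (Ne.symm hik), Matrix.single_mul_single_of_ne _ _ _ _ (Ne.symm hij),
    add_zero]
  abel

theorem uel_commute_right {i k j : Fin n} (hkj : k ≠ j) (hij : i ≠ j) (r q : ℝ) :
    uel i j r * uel k j q = uel k j q * uel i j r := by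
  apply Subtype.ext
  change ((uel i j r * uel k j q : SLr n) : Mr n) = ((uel k j q * uel i j r : SLr n) : Mr n)
  rw [Matrix.SpecialLinearGroup.coe_mul, Matrix.SpecialLinearGroup.coe_mul, uel_coe hkj, uel_coe hij]
  simp only [add_mul, mul_add, one_mul, mul_one,
    Matrix.single_mul_single_of_ne _ _ _ _ (Ne.symm hkj), Matrix.single_mul_single_of_ne _ _ _ _ (Ne.symm hij),
    add_zero]
  abel

theorem ucol_coe {m : ℕ} (v : Fin m → ℝ) : (ucol v : Mr (m + 1)) =
    1 + vecMulVec (Fin.cons 0 v : Fin (m + 1) → ℝ) (Pi.single 0 1) := rfl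

/-- action on vectors: `u(v) w = (w_0, w_{j+1} + v_j w_0)` -/
theorem ucol_mulVec {m : ℕ} (v : Fin m → ℝ) (w : Fin (m + 1) → ℝ) :
    (ucol v : Mr (m + 1)) *ᵥ w = Fin.cons (w 0) fun j : Fin m => w j.succ + v j * w 0 := by
  rw [ucol_coe, Matrix.add_mulVec, Matrix.one_mulVec, Matrix.vecMulVec_mulVec]
  funext i
  refine Fin.cases ?_ (fun j => ?_) i
  · simp
  · simp [mul_comm]

theorem ucol_add {m : ℕ} (v w : Fin m → ℝ) : ucol (v + w) = ucol v * ucol w := by
  apply Subtype.ext
  change ((ucol (v + w) : SLr (m + 1)) : Mr (m + 1)) = ((ucol v * ucol w : SLr (m + 1)) : Mr (m + 1))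
  rw [Matrix.SpecialLinearGroup.coe_mul]
  refine Matrix.ext_of_mulVec_single fun i => ?_
  rw [← Matrix.mulVec_mulVec, ucol_mulVec, ucol_mulVec, ucol_mulVec]
  funext j
  refine Fin.cases ?_ (fun l => ?_) j
  · simp
  · simp only [Fin.cons_succ, Fin.cons_zero, Pi.add_apply]
    ring

theorem ucol_zero {m : ℕ} : ucol (0 : Fin m → ℝ) = 1 := by
  have h := ucol_add (0 : Fin m → ℝ) 0
  rw [add_zero] at h
  exact (mul_eq_left.1 h.symm)

theorem ucol_neg {m : ℕ} (v : Fin m → ℝ) : ucol (-v) = (ucol v)⁻¹ := by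
  apply eq_inv_of_mul_eq_one_left
  rw [← ucol_add, neg_add_cancel, ucol_zero]

theorem ucol_single {m : ℕ} (j : Fin m) (q : ℝ) : ucol (Pi.single j q) = uel j.succ 0 q := by
  apply Subtype.ext
  change ((ucol (Pi.single j q) : SLr (m + 1)) : Mr (m + 1)) = (uel j.succ 0 q : Mr (m + 1))
  rw [ucol_coe, uel_coe (Fin.succ_ne_zero j)]
  congr 1
  ext a b
  rw [Matrix.vecMulVec_apply, Matrix.single_apply]
  refine Fin.cases ?_ (fun l => ?_) a
  · simp [Fin.succ_ne_zero]
  · rw [Fin.cons_succ]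
    by_cases h1 : b = 0
    · subst h1
      by_cases h2 : l = j
      · subst h2
        simp
      · simp [Ne.symm h2]
    · simp [Ne.symm h1]

theorem continuous_ucol {m : ℕ} : Continuous (ucol : (Fin m → ℝ) → SLr (m + 1)) := by
  refine continuous_induced_rng.2 ?_
  change Continuous fun v : Fin m → ℝ => (ucol v : Mr (m + 1))
  simp only [ucol_coe]
  refine continuous_const.add ?_
  refine continuous_matrix fun a b => ?_
  simp only [Matrix.vecMulVec_apply]
  refine Continuous.mul ?_ continuous_const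
  refine Fin.cases ?_ (fun l => ?_) a
  · simp only [Fin.cons_zero]
    exact continuous_const
  · simp only [Fin.cons_succ]
    exact continuous_apply l

theorem ex_ucol {m : ℕ} (a : Fin (m + 1) → ℝ) (v : Fin m → ℝ) :
    ex a * ucol v * (ex a)⁻¹ = ucol fun j => Real.exp (a j.succ - a 0) * v j := by
  rw [mul_inv_eq_iff_eq_mul]
  apply Subtype.ext
  change ((ex a * ucol v : SLr (m + 1)) : Mr (m + 1)) =
    (((ucol fun j => Real.exp (a j.succ - a 0) * v j) * ex a : SLr (m + 1)) : Mr (m + 1))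
  rw [Matrix.SpecialLinearGroup.coe_mul, Matrix.SpecialLinearGroup.coe_mul]
  refine Matrix.ext_of_mulVec_single fun i => ?_
  rw [← Matrix.mulVec_mulVec, ← Matrix.mulVec_mulVec, ucol_mulVec, ucol_mulVec, ex_coe]
  funext j
  refine Fin.cases ?_ (fun l => ?_) j
  · rw [Matrix.mulVec_diagonal]
    simp only [Fin.cons_zero]
    rw [Matrix.mulVec_diagonal]
  · rw [Matrix.mulVec_diagonal]
    simp only [Fin.cons_succ]
    rw [Matrix.mulVec_diagonal, Matrix.mulVec_diagonal]
    have e : Real.exp (a l.succ - (∑ j, a j) / (m + 1 : ℕ)) =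
        Real.exp (a l.succ - a 0) * Real.exp (a 0 - (∑ j, a j) / (m + 1 : ℕ)) := by
      rw [← Real.exp_add]
      congr 1
      ring
    rw [mul_add, e]
    ring

theorem W_uel {Λ : ℕ} (hΛ : 1 ≤ Λ) (k i j : Fin n) (q : ℝ) : W Λ k * uel i j q * (W Λ k)⁻¹ =
    uel i j ((if k = i then (Λ : ℝ)⁻¹ else 1) * (if k = j then (Λ : ℝ) else 1) * q) := by
  have hp : (0 : ℝ) < Λ := by exact_mod_cast hΛ
  unfold W
  rw [ex_uel]
  congr 2
  rw [sub_eq_add_neg, Real.exp_add]
  congr 1
  · by_cases h : k = i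
    · subst h
      rw [if_pos rfl, Pi.single_eq_same, Real.exp_neg, Real.exp_log hp]
    · rw [if_neg h, Pi.single_eq_of_ne (Ne.symm h), Real.exp_zero]
  · by_cases h : k = j
    · subst h
      rw [if_pos rfl, Pi.single_eq_same, neg_neg, Real.exp_log hp]
    · rw [if_neg h, Pi.single_eq_of_ne (Ne.symm h), neg_zero, Real.exp_zero]

theorem W_ucol {m : ℕ} {Λ : ℕ} (hΛ : 1 ≤ Λ) (v : Fin m → ℝ) :
    W Λ (0 : Fin (m + 1)) * ucol v * (W Λ 0)⁻¹ = ucol fun j => (Λ : ℝ) * v j := by
  have hp : (0 : ℝ) < Λ := by exact_mod_cast hΛ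
  unfold W
  rw [ex_ucol]
  congr 1
  funext j
  rw [Pi.single_eq_same, Pi.single_eq_of_ne (Fin.succ_ne_zero j), zero_sub, neg_neg, Real.exp_log hp]

/-- gaps of the exponents of `bb` -/
theorem gap_bb {m : ℕ} (Λ : ℕ) (s : Fin m → ℤ) (i : Fin m) :
    gap (fun i : Fin (m + 1) => Real.log Λ * ∑ l with i ≤ l.castSucc, (s l : ℝ)) i =
      Real.log Λ * s i := by
  unfold gap
  beta_reduce
  have h : (Finset.univ.filter fun l : Fin m => i.castSucc ≤ l.castSucc) =
      insert i (Finset.univ.filter fun l : Fin m => i.succ ≤ l.castSucc) := by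
    ext l
    simp only [Finset.mem_filter, Finset.mem_univ, true_and, Finset.mem_insert, Fin.le_def,
      Fin.val_castSucc, Fin.val_succ, Fin.ext_iff]
    omega
  rw [h, Finset.sum_insert (by
    simp only [Finset.mem_filter, Finset.mem_univ, true_and, Fin.le_def, Fin.val_castSucc,
      Fin.val_succ]
    omega)]
  ring

/-- moving `s` by `e_k - e_{k-1}` -/
theorem bb_shift {m : ℕ} {Λ : ℕ} (k : Fin (m + 1)) (s : Fin m → ℤ) :
    bb Λ (fun l => s l + ((if l.castSucc = k then 1 else 0) - (if l.succ = k then 1 else 0))) =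
      bb Λ s * (W Λ k)⁻¹ := by
  unfold W
  rw [← ex_neg]
  unfold bb
  rw [← ex_add]
  apply ex_congr
  intro l
  have h1 := gap_bb Λ (fun l => s l + ((if l.castSucc = k then 1 else 0) -
    (if l.succ = k then 1 else 0))) l
  have h2 := gap_bb Λ s l
  rw [h1]
  have h3 : gap ((fun i : Fin (m + 1) => Real.log Λ * ∑ l with i ≤ l.castSucc, (s l : ℝ)) +
      -Pi.single k (-Real.log Λ)) l =
      gap (fun i : Fin (m + 1) => Real.log Λ * ∑ l with i ≤ l.castSucc, (s l : ℝ)) l +
        Real.log Λ * ((if l.castSucc = k then 1 else 0) - (if l.succ = k then 1 else 0)) := by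
    unfold gap
    simp only [Pi.add_apply, Pi.neg_apply, Pi.single_apply]
    split_ifs <;> ring
  rw [h3, h2]
  push_cast
  split_ifs <;> ring

theorem bb_add {m : ℕ} (Λ : ℕ) (s s' : Fin m → ℤ) : bb Λ (s + s') = bb Λ s * bb Λ s' := by
  unfold bb
  rw [← ex_add]
  congr 1
  funext i
  simp only [Pi.add_apply, Int.cast_add, Finset.sum_add_distrib]
  ring

end Pool.Agent.Lib.MP_41a456_al.TC
end

section

/-!
# MP_41a456_al, Theorem TC, D0: sieve: definitions

Paper 521, (4.1). `n = m + 1`, columns `z_0, …, z_{m-1}` of an integral `n × m` matrix, entries in the windows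
`win`: diagonal `[M t_j, M t_j + T)`, entry `(last, 0)` equal to 0, other entries in `[0, T)`.
-/

namespace Pool.Agent.Lib.MP_41a456_al.TC

open Matrix MeasureTheory Filter Topology Pool.Agent.Lib.MP_41a456_al

/-- the window of the entry in row `i` and column `j` -/
noncomputable def win {m : ℕ} (M T : ℕ) (t : Fin m → ℕ) (i : Fin (m + 1)) (j : Fin m) : Finset ℤ :=
  if i = j.castSucc then Finset.Ico ((M : ℤ) * t j) (M * t j + T)
  else if i = Fin.last m ∧ (j : ℕ) = 0 then {0} else Finset.Ico 0 (T : ℤ)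

/-- the columns `z_j` with entries in the windows -/
noncomputable def colw {m : ℕ} (M T : ℕ) (t : Fin m → ℕ) (j : Fin m) : Finset (Fin (m + 1) → ℤ) :=
  Fintype.piFinset fun i => win M T t i j

/-- number of free entries of the column `j` -/
def frd (m : ℕ) (j : Fin m) : ℕ := if (j : ℕ) = 0 then m else m + 1

/-- linearly independent modulo `p` -/
def LIp {n k : ℕ} (p : ℕ) (z : Fin k → Fin n → ℤ) : Prop :=
  LinearIndependent (ZMod p) fun (j : Fin k) (i : Fin n) => ((z j i : ℤ) : ZMod p)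

/-- linearly independent modulo all primes -/
def PrimC {n k : ℕ} (z : Fin k → Fin n → ℤ) : Prop := ∀ p : ℕ, p.Prime → LIp p z

/-- `z` followed by the column `c` -/
def snc {n k : ℕ} (z : Fin k → Fin n → ℤ) (c : Fin n → ℤ) : Fin (k + 1) → Fin n → ℤ :=
  Fin.snoc (α := fun _ => Fin n → ℤ) z c

theorem card_colw {m : ℕ} (M T : ℕ) (t : Fin m → ℕ) (j : Fin m) :
    (colw M T t j).card = T ^ (frd m j) := by
  have h1 : ∀ i : Fin (m + 1), (win M T t i j).card =
      if i = Fin.last m ∧ (j : ℕ) = 0 then 1 else T := by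
    intro i
    unfold win
    by_cases hi : i = j.castSucc
    · have h2 : ¬ (i = Fin.last m ∧ (j : ℕ) = 0) := by
        rintro ⟨h3, -⟩
        rw [hi] at h3
        exact (Fin.castSucc_lt_last j).ne h3
      rw [if_pos hi, if_neg h2, Int.card_Ico]
      simp
    · rw [if_neg hi]
      by_cases h2 : i = Fin.last m ∧ (j : ℕ) = 0
      · rw [if_pos h2, if_pos h2, Finset.card_singleton]
      · rw [if_neg h2, if_neg h2, Int.card_Ico]
        simp
  unfold colw frd
  rw [Fintype.card_piFinset, Finset.prod_congr rfl fun i _ => h1 i]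
  by_cases hj : (j : ℕ) = 0
  · rw [if_pos hj, Fin.prod_univ_castSucc]
    have h2 : ∀ i : Fin m, (if i.castSucc = Fin.last m ∧ (j : ℕ) = 0 then 1 else T) = T := by
      intro i
      rw [if_neg]
      rintro ⟨h3, -⟩
      exact (Fin.castSucc_lt_last i).ne h3
    rw [Finset.prod_congr rfl fun i _ => h2 i]
    simp [hj]
  · rw [if_neg hj]
    simp [hj]

end Pool.Agent.Lib.MP_41a456_al.TC
end

section

section

/-!
# MP_41a456_al, Theorem TC, D1: sieve: primes p <= T

Paper 521, (4.1). `n = m + 1`, columns `z_0, …, z_{m-1}` of an integral `n × m` matrix, entries in the windows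
`win`: diagonal `[M t_j, M t_j + T)`, entry `(last, 0)` equal to 0, other entries in `[0, T)`.
The classes modulo `p` of the bad columns form the span of the columns of `z` mod `p`, which has `p^k`
elements (`k` the number of columns of `z`); an interval of `T` consecutive integers contains at most
`T/p + 1` elements of a residue class. `k ≥ 1`: at most
`p^k (T/p + 1)^(m+1) = T^(m+1) p^(k-m-1) (1 + p/T)^(m+1)` bad columns, and `k ≤ m - 1`. `k = 0`: the bad
columns are 0 mod `p`: at most `(T/p + 1)^m = T^m p^(-m) (1 + p/T)^m`, `m ≥ 2`.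
-/

namespace Pool.Agent.Lib.MP_41a456_al.TC

open Matrix MeasureTheory Filter Topology Pool.Agent.Lib.MP_41a456_al

private theorem count_Ico (a : ℤ) (T p : ℕ) (hp : 0 < p) (u : ZMod p) :
    (((Finset.Ico a (a + T)).filter fun x : ℤ => (x : ZMod p) = u).card : ℝ) ≤ (T : ℝ) / p + 1 := by
  obtain ⟨v, rfl⟩ := ZMod.intCast_surjective u
  have h1 : (Finset.Ico a (a + T)).filter (fun x : ℤ => (x : ZMod p) = (v : ZMod p)) =
      (Finset.Ico a (a + T)).filter fun x : ℤ => x ≡ v [ZMOD p] := by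
    refine Finset.filter_congr fun x _ => ?_
    exact ZMod.intCast_eq_intCast_iff x v p
  have hp' : (0 : ℤ) < (p : ℤ) := by exact_mod_cast hp
  have h2 := Int.Ico_filter_modEq_card a (a + T) hp' v
  have hpq : (0 : ℚ) < (p : ℚ) := by exact_mod_cast hp
  have h3 : (((Finset.Ico a (a + T)).filter fun x : ℤ => x ≡ v [ZMOD p]).card : ℚ) ≤
      (T : ℚ) / p + 1 := by
    have h4 : (((Finset.Ico a (a + T)).filter fun x : ℤ => x ≡ v [ZMOD p]).card : ℤ) ≤
        ⌊(T : ℚ) / p + 1⌋ := by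
      rw [h2]
      refine max_le ?_ (Int.floor_nonneg.2 (by positivity))
      rw [Int.le_floor]
      push_cast
      have h5 := Int.ceil_lt_add_one (((a : ℚ) + T - v) / p)
      have h6 := Int.le_ceil (((a : ℚ) - v) / p)
      have h7 : ((a : ℚ) + T - v) / p = (a - v) / p + T / p := by ring
      rw [h7] at h5 ⊢
      linarith
    have h5 : (((Finset.Ico a (a + T)).filter fun x : ℤ => x ≡ v [ZMOD p]).card : ℚ) ≤
        (⌊(T : ℚ) / p + 1⌋ : ℤ) := by exact_mod_cast h4
    exact h5.trans (Int.floor_le _)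
  rw [h1]
  have h4 : ((((Finset.Ico a (a + T)).filter fun x : ℤ => x ≡ v [ZMOD p]).card : ℚ) : ℝ) ≤
      (((T : ℚ) / p + 1 : ℚ) : ℝ) := by exact_mod_cast h3
  push_cast at h4
  exact h4

private theorem count_win {m : ℕ} (M T : ℕ) (t : Fin m → ℕ) (i : Fin (m + 1)) (j : Fin m) {p : ℕ}
    (hp : 0 < p) (u : ZMod p) :
    (((win M T t i j).filter fun x : ℤ => (x : ZMod p) = u).card : ℝ) ≤ (T : ℝ) / p + 1 := by
  unfold win
  split_ifs with h1 h2
  · exact count_Ico _ T p hp u
  · have h3 : (({0} : Finset ℤ).filter fun x : ℤ => (x : ZMod p) = u).card ≤ 1 :=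
      (Finset.card_filter_le _ _).trans (by simp)
    have h4 : ((({0} : Finset ℤ).filter fun x : ℤ => (x : ZMod p) = u).card : ℝ) ≤ 1 := by
      exact_mod_cast h3
    have h5 : (0 : ℝ) ≤ (T : ℝ) / p := by positivity
    linarith
  · have h3 := count_Ico 0 T p hp u
    rw [zero_add] at h3
    exact h3

private theorem count_last {m : ℕ} (M T : ℕ) (t : Fin m → ℕ) (j : Fin m) (hj : (j : ℕ) = 0) {p : ℕ}
    (u : ZMod p) :
    (((win M T t (Fin.last m) j).filter fun x : ℤ => (x : ZMod p) = u).card : ℝ) ≤ 1 := by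
  have h1 : win M T t (Fin.last m) j = {0} := by
    unfold win
    rw [if_neg, if_pos ⟨rfl, hj⟩]
    intro h
    have h2 := congrArg Fin.val h
    rw [Fin.val_last, Fin.val_castSucc] at h2
    have := j.2
    omega
  rw [h1]
  have h3 : (({0} : Finset ℤ).filter fun x : ℤ => (x : ZMod p) = u).card ≤ 1 :=
    (Finset.card_filter_le _ _).trans (by simp)
  exact_mod_cast h3

private theorem count_col {m : ℕ} (M T : ℕ) (t : Fin m → ℕ) (j : Fin m) {p : ℕ} (hp : 0 < p)
    (u : Fin (m + 1) → ZMod p) :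
    (((colw M T t j).filter fun c => ∀ i, ((c i : ℤ) : ZMod p) = u i).card : ℝ) ≤
      ((T : ℝ) / p + 1) ^ (frd m j) := by
  have h1 : (colw M T t j).filter (fun c => ∀ i, ((c i : ℤ) : ZMod p) = u i) =
      Fintype.piFinset fun i => (win M T t i j).filter fun x : ℤ => (x : ZMod p) = u i := by
    ext c
    simp only [colw, Finset.mem_filter, Fintype.mem_piFinset]
    exact ⟨fun h i => ⟨h.1 i, h.2 i⟩, fun h => ⟨fun i => (h i).1, fun i => (h i).2⟩⟩
  rw [h1, Fintype.card_piFinset]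
  push_cast
  have hb : (0 : ℝ) ≤ (T : ℝ) / p + 1 := by positivity
  unfold frd
  split_ifs with hj
  · rw [Fin.prod_univ_castSucc]
    calc _ ≤ (∏ _i : Fin m, ((T : ℝ) / p + 1)) * 1 := by
          refine mul_le_mul ?_ (count_last M T t j hj _) (Nat.cast_nonneg _)
            (Finset.prod_nonneg fun _ _ => hb)
          exact Finset.prod_le_prod (fun _ _ => Nat.cast_nonneg _)
            fun i _ => count_win M T t _ j hp _
      _ = ((T : ℝ) / p + 1) ^ m := by
          rw [Finset.prod_const, Finset.card_univ, Fintype.card_fin, mul_one]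
  · calc _ ≤ ∏ _i : Fin (m + 1), ((T : ℝ) / p + 1) :=
          Finset.prod_le_prod (fun _ _ => Nat.cast_nonneg _)
            fun i _ => count_win M T t _ j hp _
      _ = ((T : ℝ) / p + 1) ^ (m + 1) := by
          rw [Finset.prod_const, Finset.card_univ, Fintype.card_fin]

private theorem mem_span_of_not {n k : ℕ} {p : ℕ} [Fact p.Prime] (z : Fin k → Fin n → ℤ)
    (hz : LIp p z) (c : Fin n → ℤ) (hc : ¬ LIp p (snc z c)) :
    (fun i => ((c i : ℤ) : ZMod p)) ∈ Submodule.span (ZMod p)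
      (Set.range fun (j : Fin k) (i : Fin n) => ((z j i : ℤ) : ZMod p)) := by
  by_contra h
  apply hc
  have h1 := linearIndependent_finSnoc.2 ⟨hz, h⟩
  have h2 : (fun (j : Fin (k + 1)) (i : Fin n) => ((snc z c j i : ℤ) : ZMod p)) =
      (Fin.snoc (fun (j : Fin k) (i : Fin n) => ((z j i : ℤ) : ZMod p))
        (fun i => ((c i : ℤ) : ZMod p)) : Fin (k + 1) → Fin n → ZMod p) := by
    funext j
    refine Fin.lastCases ?_ (fun j => ?_) j
    · simp only [snc, Fin.snoc_last]
    · simp only [snc, Fin.snoc_castSucc]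
  unfold LIp
  rw [h2]
  exact h1

theorem bad_small {m : ℕ} (hm : 2 ≤ m) {M T : ℕ} {t : Fin m → ℕ} {k : ℕ} (hk : k < m)
    (z : Fin k → Fin (m + 1) → ℤ) {p : ℕ} (hp : p.Prime) (hpT : p ≤ T) (hz : LIp p z)
    (S : Finset (Fin (m + 1) → ℤ)) (hS : ∀ c ∈ S, c ∈ colw M T t ⟨k, hk⟩ ∧ ¬ LIp p (snc z c)) :
    (S.card : ℝ) ≤ 1 / (p : ℝ) ^ 2 * (1 + (p : ℝ) / T) ^ (m + 1) * (T : ℝ) ^ (frd m ⟨k, hk⟩) := by
  classical
  have : Fact p.Prime := ⟨hp⟩
  set zb : Fin k → Fin (m + 1) → ZMod p := fun j i => ((z j i : ℤ) : ZMod p) with hzb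
  set U := Submodule.span (ZMod p) (Set.range zb) with hU
  have hUfin : Finite U := Subtype.finite
  have := Fintype.ofFinite U
  have hcard : Fintype.card U = p ^ k := by
    have h1 := Module.card_eq_pow_finrank (K := ZMod p) (V := U)
    rw [finrank_span_eq_card (show LinearIndependent (ZMod p) zb from hz), Fintype.card_fin,
      ZMod.card] at h1
    exact h1
  have hsub : S ⊆ (Finset.univ : Finset U).biUnion fun u =>
      (colw M T t ⟨k, hk⟩).filter fun c => ∀ i, ((c i : ℤ) : ZMod p) = (u : Fin (m + 1) → ZMod p) i := by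
    intro c hc
    obtain ⟨h1, h2⟩ := hS c hc
    rw [Finset.mem_biUnion]
    exact ⟨⟨fun i => ((c i : ℤ) : ZMod p), mem_span_of_not z hz c h2⟩, Finset.mem_univ _,
      Finset.mem_filter.2 ⟨h1, fun i => rfl⟩⟩
  have hp0 : (0 : ℝ) < p := by exact_mod_cast hp.pos
  have hT0 : (0 : ℝ) < T := by exact_mod_cast lt_of_lt_of_le hp.pos hpT
  set f := frd m ⟨k, hk⟩ with hf
  have h1 : (S.card : ℝ) ≤ (p : ℝ) ^ k * ((T : ℝ) / p + 1) ^ f := by
    have h2 : (S.card : ℝ) ≤ ∑ u : U, (((colw M T t ⟨k, hk⟩).filter fun c =>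
        ∀ i, ((c i : ℤ) : ZMod p) = (u : Fin (m + 1) → ZMod p) i).card : ℝ) := by
      exact_mod_cast (Finset.card_le_card hsub).trans Finset.card_biUnion_le
    refine h2.trans ((Finset.sum_le_sum (g := fun _ => ((T : ℝ) / p + 1) ^ f) fun u _ =>
      count_col M T t ⟨k, hk⟩ hp.pos _).trans (le_of_eq ?_))
    rw [Finset.sum_const, Finset.card_univ, hcard, nsmul_eq_mul]
    push_cast
    rfl
  refine h1.trans ?_
  have hf1 : k + 2 ≤ f ∧ f ≤ m + 1 := by
    rw [hf]
    unfold frd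
    split_ifs with h0
    · have h3 : k = 0 := h0
      omega
    · have h3 : k ≠ 0 := h0
      omega
  obtain ⟨d, hd⟩ := Nat.exists_eq_add_of_le hf1.1
  have e1 : (T : ℝ) / p + 1 = T / p * (1 + (p : ℝ) / T) := by field_simp
  have e2 : (p : ℝ) ^ k * ((T : ℝ) / p + 1) ^ f =
      (1 / (p : ℝ) ^ 2 * (1 / (p : ℝ) ^ d)) * (1 + (p : ℝ) / T) ^ f * (T : ℝ) ^ f := by
    rw [e1, mul_pow, div_pow, hd]
    field_simp
    ring
  rw [e2]
  have h3 : 1 / (p : ℝ) ^ d ≤ 1 := by
    rw [div_le_one (by positivity)]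
    exact one_le_pow₀ (by exact_mod_cast hp.one_lt.le)
  have h4 : (1 + (p : ℝ) / T) ^ f ≤ (1 + (p : ℝ) / T) ^ (m + 1) :=
    pow_le_pow_right₀ (by have : (0 : ℝ) ≤ (p : ℝ) / T := by positivity
                          linarith) hf1.2
  refine mul_le_mul_of_nonneg_right ?_ (by positivity)
  refine mul_le_mul ?_ h4 (by positivity) (by positivity)
  calc 1 / (p : ℝ) ^ 2 * (1 / (p : ℝ) ^ d) ≤ 1 / (p : ℝ) ^ 2 * 1 :=
        mul_le_mul_of_nonneg_left h3 (by positivity)
    _ = 1 / (p : ℝ) ^ 2 := mul_one _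

end Pool.Agent.Lib.MP_41a456_al.TC
end

section

/-!
# MP_41a456_al, Theorem TC, D2: sieve: primes p > T

Paper 521, (4.1). `n = m + 1`, columns `z_0, …, z_{m-1}` of an integral `n × m` matrix, entries in the windows
`win`: diagonal `[M t_j, M t_j + T)`, entry `(last, 0)` equal to 0, other entries in `[0, T)`.
`m_0` = determinant of the rows and columns `0..k-1`, `Δ` = determinant of the rows and columns `0..k`: nonzero because
of the dominant diagonal (`M t_j ≥ M T > m T`, `Matrix.det_ne_zero_of_sum_row_lt_diag`), absolute value at most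
`(m+1)! ((M+1) T^K)^(m+1) < T^K'` with `K' = K'(m, K, M)` and `T` large, so each has at most `K'` prime divisors
`> T`. Let `c` be a column with `snc z c` dependent mod `p`, `p > T`, i.e. `c` mod `p` is in the span of the columns of
`z` (which are independent mod `p`). If `p ∤ m_0`: the entries `0..k-1` of `c` determine the coefficients, hence `c`
mod `p`; `p ∣ Δ`, and `Δ` depends only on the entries `0..k` of `c`; the entries `k+1..m` lie in windows of length
`≤ T < p`, so they are determined by the entries `0..k` and `p`: at most `T^(k+1) K'` such columns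
(`k ≥ 1`: `T^(k+1) ≤ T^m`; `k = 0`: `T^1 ≤ T^(m-1)`). If `p ∣ m_0` (at most `K'` such `p`): there are `k` coordinates
which determine the elements of the span mod `p`; `c` is determined by these coordinates (windows of length
`≤ T < p`): at most `K' (number of sets of coordinates) T^k` columns (for `k = 0` `m_0 = 1`, no such `p`).
-/

namespace Pool.Agent.Lib.MP_41a456_al.TC

open Matrix MeasureTheory Filter Topology Pool.Agent.Lib.MP_41a456_al

private theorem dom_entry {m : ℕ} {K M T r : ℕ} (hT : 1 ≤ T) {t : Fin m → ℕ}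
    (ht : ∀ j, T ≤ t j ∧ t j ≤ T ^ K) (hr : r ≤ m) (y : Fin r → Fin (m + 1) → ℤ)
    (hy : ∀ l : Fin r, y l ∈ colw M T t ⟨l, l.2.trans_le hr⟩) (i j : Fin r) :
    (i = j → (M : ℤ) * T ≤ y j (Fin.castLE (by omega) i)) ∧
    (i ≠ j → y j (Fin.castLE (by omega) i) < T) ∧
    0 ≤ y j (Fin.castLE (by omega) i) ∧
    y j (Fin.castLE (by omega) i) ≤ M * (T : ℤ) ^ K + T := by
  have h1 := Fintype.mem_piFinset.1 (hy j) (Fin.castLE (by omega) i)
  have ht1 : (T : ℤ) ≤ t ⟨j, j.2.trans_le hr⟩ := by exact_mod_cast (ht _).1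
  have ht2 : (t ⟨j, j.2.trans_le hr⟩ : ℤ) ≤ (T : ℤ) ^ K := by exact_mod_cast (ht _).2
  have hT' : (1 : ℤ) ≤ T := by exact_mod_cast hT
  have hM0 : (0 : ℤ) ≤ M := by positivity
  have hMt : (M : ℤ) * T ≤ M * t ⟨j, j.2.trans_le hr⟩ := mul_le_mul_of_nonneg_left ht1 hM0
  have hMt2 : (M : ℤ) * t ⟨j, j.2.trans_le hr⟩ ≤ M * (T : ℤ) ^ K := mul_le_mul_of_nonneg_left ht2 hM0
  have h0 : (0 : ℤ) ≤ M * T := by positivity
  have h00 : (0 : ℤ) ≤ M * (T : ℤ) ^ K := by positivity
  have hiff : (Fin.castLE (by omega) i : Fin (m + 1)) =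
      Fin.castSucc (⟨j, j.2.trans_le hr⟩ : Fin m) ↔ i = j := by
    constructor
    · intro h
      have := congrArg Fin.val h
      simp at this
      exact Fin.ext this
    · rintro rfl
      exact Fin.ext (by simp)
  by_cases hij : i = j
  · rw [win, if_pos (hiff.2 hij), Finset.mem_Ico] at h1
    refine ⟨fun _ => by omega, fun h => absurd hij h, by omega, by omega⟩
  · rw [win, if_neg (fun h => hij (hiff.1 h))] at h1
    have h2 : 0 ≤ y j (Fin.castLE (by omega) i) ∧ y j (Fin.castLE (by omega) i) < T := by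
      split_ifs at h1 with h3
      · rw [Finset.mem_singleton] at h1
        omega
      · rwa [Finset.mem_Ico] at h1
    refine ⟨fun h => absurd h hij, fun _ => h2.2, h2.1, by omega⟩

/-- the determinant of the first rows -/
private noncomputable def dd {m r : ℕ} (hr : r ≤ m + 1) (y : Fin r → Fin (m + 1) → ℤ) : ℤ :=
  (Matrix.of fun i j : Fin r => y j (Fin.castLE hr i)).det

private theorem dd_ne_zero {m : ℕ} {K M T r : ℕ} (hM : m + 1 ≤ M) (hT : 1 ≤ T) {t : Fin m → ℕ}
    (ht : ∀ j, T ≤ t j ∧ t j ≤ T ^ K) (hr : r ≤ m) (y : Fin r → Fin (m + 1) → ℤ)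
    (hy : ∀ l : Fin r, y l ∈ colw M T t ⟨l, l.2.trans_le hr⟩) : dd (hr.trans (Nat.le_succ m)) y ≠ 0 := by
  have h1 : ((Matrix.of fun i j : Fin r => y j (Fin.castLE (hr.trans (Nat.le_succ m)) i)).map
      (fun x : ℤ => (x : ℝ))).det ≠ 0 := by
    apply det_ne_zero_of_sum_row_lt_diag
    intro i
    have hd := dom_entry hT ht hr y hy
    have hdiag : ((M : ℝ) * T) ≤ ‖((Matrix.of fun i j : Fin r =>
        y j (Fin.castLE (hr.trans (Nat.le_succ m)) i)).map (fun x : ℤ => (x : ℝ))) i i‖ := by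
      have := (hd i i).1 rfl
      rw [Matrix.map_apply, Matrix.of_apply, Real.norm_eq_abs]
      refine le_trans ?_ (le_abs_self _)
      exact_mod_cast this
    refine lt_of_lt_of_le ?_ hdiag
    calc ∑ j ∈ Finset.univ.erase i, ‖((Matrix.of fun i j : Fin r =>
        y j (Fin.castLE (hr.trans (Nat.le_succ m)) i)).map (fun x : ℤ => (x : ℝ))) i j‖
        ≤ ∑ j ∈ Finset.univ.erase i, (T : ℝ) := by
          refine Finset.sum_le_sum fun j hj => ?_
          have h2 := (hd i j).2.1 (Finset.ne_of_mem_erase hj).symm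
          have h3 := (hd i j).2.2.1
          rw [Matrix.map_apply, Matrix.of_apply, Real.norm_eq_abs, abs_of_nonneg (by exact_mod_cast h3)]
          exact_mod_cast h2.le
      _ ≤ (m : ℝ) * T := by
          rw [Finset.sum_const, nsmul_eq_mul]
          refine mul_le_mul_of_nonneg_right ?_ (by positivity)
          have : (Finset.univ.erase i).card ≤ r := by
            simp
          exact_mod_cast this.trans hr
      _ < (M : ℝ) * T := by
          have : (0 : ℝ) < T := by exact_mod_cast hT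
          refine mul_lt_mul_of_pos_right ?_ this
          exact_mod_cast hM
  intro h0
  apply h1
  have h2 : ((Matrix.of fun i j : Fin r => y j (Fin.castLE (hr.trans (Nat.le_succ m)) i)).map
      (fun x : ℤ => (x : ℝ))).det = ((dd (hr.trans (Nat.le_succ m)) y : ℤ) : ℝ) := by
    rw [dd, Int.cast_det]
  rw [h2, h0, Int.cast_zero]

private theorem dd_abs {m : ℕ} {K M T r : ℕ} (hT : 1 ≤ T) {t : Fin m → ℕ}
    (ht : ∀ j, T ≤ t j ∧ t j ≤ T ^ K) (hm : 0 < m) (hr : r ≤ m) (y : Fin r → Fin (m + 1) → ℤ)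
    (hy : ∀ l : Fin r, y l ∈ colw M T t ⟨l, l.2.trans_le hr⟩) :
    (dd (hr.trans (Nat.le_succ m)) y).natAbs ≤ (m + 1).factorial * ((M + 1) ^ (m + 1) * (T ^ K) ^ (m + 1)) := by
  have hTK : T ≤ T ^ K := (ht ⟨0, hm⟩).1.trans (ht ⟨0, hm⟩).2
  have h1 : |dd (hr.trans (Nat.le_succ m)) y| ≤
      (Fintype.card (Fin r)).factorial • (((M + 1) * T ^ K : ℕ) : ℤ) ^ (Fintype.card (Fin r)) := by
    refine Matrix.det_le (abv := AbsoluteValue.abs) (fun i j => ?_)
    have h2 := (dom_entry hT ht hr y hy i j).2.2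
    rw [Matrix.of_apply]
    change |y j (Fin.castLE _ i)| ≤ _
    rw [abs_of_nonneg h2.1]
    refine h2.2.trans ?_
    push_cast
    have : (T : ℤ) ≤ (T : ℤ) ^ K := by exact_mod_cast hTK
    linarith
  rw [Fintype.card_fin, nsmul_eq_mul] at h1
  have h3 : (dd (hr.trans (Nat.le_succ m)) y).natAbs ≤ r.factorial * ((M + 1) * T ^ K) ^ r := by
    zify
    exact_mod_cast h1
  refine h3.trans ?_
  rw [← mul_pow]
  refine Nat.mul_le_mul (Nat.factorial_le (by omega)) (Nat.pow_le_pow_right ?_ (by omega))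
  have : 1 ≤ T ^ K := hT.trans hTK
  positivity

private theorem card_primes_le {N T B : ℕ} (hT : 2 ≤ T) (hN : N ≠ 0) (hB : N < T ^ B) :
    (N.primeFactors.filter (fun p => T < p)).card ≤ B := by
  have h1 : T ^ (N.primeFactors.filter (fun p => T < p)).card ≤
      ∏ p ∈ N.primeFactors.filter (fun p => T < p), p :=
    Finset.pow_card_le_prod _ _ _ (fun p hp => (Finset.mem_filter.1 hp).2.le)
  have h2 : ∏ p ∈ N.primeFactors.filter (fun p => T < p), p ∣ N :=
    (Finset.prod_dvd_prod_of_subset _ _ _ (Finset.filter_subset _ _)).trans (Nat.prod_primeFactors_dvd N)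
  have h3 := (h1.trans (Nat.le_of_dvd (Nat.pos_of_ne_zero hN) h2)).trans_lt hB
  exact ((Nat.pow_lt_pow_iff_right hT).1 h3).le

private theorem dd_dvd {m r p : ℕ} (hp : p.Prime) (hr : r ≤ m + 1) (y : Fin r → Fin (m + 1) → ℤ)
    (hy : ¬ LIp p y) : (p : ℤ) ∣ dd hr y := by
  have : Fact p.Prime := ⟨hp⟩
  by_contra h
  apply hy
  have h1 : ((dd hr y : ℤ) : ZMod p) ≠ 0 := by
    rwa [Ne, ZMod.intCast_zmod_eq_zero_iff_dvd] 
  rw [dd, Int.cast_det] at h1
  have h2 := Matrix.linearIndependent_cols_of_det_ne_zero h1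
  have h3 : (Matrix.map (Matrix.of fun i j : Fin r => y j (Fin.castLE hr i)) (fun x : ℤ => (x : ZMod p))).col =
      (LinearMap.funLeft (ZMod p) (ZMod p) (Fin.castLE hr)) ∘
        (fun (j : Fin r) (i : Fin (m + 1)) => ((y j i : ℤ) : ZMod p)) := by
    ext j i
    simp [Matrix.col, LinearMap.funLeft]
  rw [h3] at h2
  exact LinearIndependent.of_comp _ h2

/-- the coordinates `J` detect the elements of the span of `z` modulo `p` -/
private def Det {n k : ℕ} (p : ℕ) (z : Fin k → Fin n → ℤ) (J : Fin k → Fin n) : Prop :=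
  ∀ v ∈ Submodule.span (ZMod p) (Set.range fun (j : Fin k) (i : Fin n) => ((z j i : ℤ) : ZMod p)),
    (∀ i, v (J i) = 0) → v = 0

private theorem det_first {m k p : ℕ} (hp : p.Prime) (hk : k ≤ m + 1) (z : Fin k → Fin (m + 1) → ℤ)
    (h : ¬ (p : ℤ) ∣ dd hk z) : Det p z (Fin.castLE hk) := by
  have : Fact p.Prime := ⟨hp⟩
  intro v hv h0
  obtain ⟨a, rfl⟩ := (Submodule.mem_span_range_iff_exists_fun (ZMod p)).1 hv
  have h1 : ((dd hk z : ℤ) : ZMod p) ≠ 0 := by
    rwa [Ne, ZMod.intCast_zmod_eq_zero_iff_dvd]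
  rw [dd, Int.cast_det] at h1
  have h2 : a = 0 := by
    apply Matrix.eq_zero_of_mulVec_eq_zero h1
    ext i
    have := h0 i
    simp only [Finset.sum_apply, Pi.smul_apply, smul_eq_mul] at this
    rw [Matrix.mulVec, dotProduct]
    simp only [Matrix.map_apply, Matrix.of_apply, Pi.zero_apply]
    rw [← this]
    exact Finset.sum_congr rfl fun j _ => mul_comm _ _
  subst h2
  simp

private theorem exists_det {n k p : ℕ} (hp : p.Prime) (z : Fin k → Fin n → ℤ) (h : LIp p z) :
    ∃ J : Fin k → Fin n, Det p z J := by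
  have : Fact p.Prime := ⟨hp⟩
  set A : Matrix (Fin k) (Fin n) (ZMod p) := Matrix.of fun j i => ((z j i : ℤ) : ZMod p) with hA
  have h1 : A.rank = k := by
    have : LinearIndependent (ZMod p) A.row := h
    rw [this.rank_matrix, Fintype.card_fin]
  rw [Matrix.rank_eq_finrank_span_cols] at h1
  obtain ⟨f, hf1, hf2, -⟩ := Submodule.exists_fun_fin_finrank_span_eq (ZMod p) (Set.range A.col)
  choose J hJ using hf1
  refine ⟨fun i => J (Fin.cast h1.symm i), fun v hv h0 => ?_⟩
  obtain ⟨a, rfl⟩ := (Submodule.mem_span_range_iff_exists_fun (ZMod p)).1 hv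
  set φ : (Fin k → ZMod p) →ₗ[ZMod p] ZMod p := ∑ l, a l • LinearMap.proj l with hφ
  have h2 : ∀ i, φ (A.col i) = (∑ j, a j • (fun (i : Fin n) => ((z j i : ℤ) : ZMod p))) i := by
    intro i
    simp [hφ, hA, Matrix.col]
  have h3 : Submodule.span (ZMod p) (Set.range f) ≤ LinearMap.ker φ := by
    rw [Submodule.span_le]
    rintro _ ⟨i, rfl⟩
    rw [SetLike.mem_coe, LinearMap.mem_ker, ← hJ i, h2]
    have := h0 (Fin.cast h1 i)
    simpa using this
  ext i
  rw [← h2 i, Pi.zero_apply]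
  rw [hf2] at h3
  exact LinearMap.mem_ker.1 (h3 (Submodule.subset_span ⟨i, rfl⟩))

private theorem snc_span {n k p : ℕ} (hp : p.Prime) (z : Fin k → Fin n → ℤ) (hz : LIp p z)
    (c : Fin n → ℤ) (hc : ¬ LIp p (snc z c)) :
    (fun i => ((c i : ℤ) : ZMod p)) ∈
      Submodule.span (ZMod p) (Set.range fun (j : Fin k) (i : Fin n) => ((z j i : ℤ) : ZMod p)) := by
  have : Fact p.Prime := ⟨hp⟩
  by_contra h
  apply hc
  have h1 : (fun (j : Fin (k + 1)) (i : Fin n) => ((snc z c j i : ℤ) : ZMod p)) =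
      (Fin.snoc (fun (j : Fin k) (i : Fin n) => ((z j i : ℤ) : ZMod p)) (fun i => ((c i : ℤ) : ZMod p)) :
        Fin (k + 1) → Fin n → ZMod p) := by
    ext j i
    refine Fin.lastCases ?_ (fun j => ?_) j
    · simp [snc]
    · simp [snc]
  rw [LIp, h1]
  exact linearIndependent_finSnoc.2 ⟨hz, h⟩

private theorem eq_of_det {m k p M T : ℕ} (hp : T < p) {t : Fin m → ℕ} (z : Fin k → Fin (m + 1) → ℤ)
    {J : Fin k → Fin (m + 1)} (hJ : Det p z J) {j : Fin m} {c d : Fin (m + 1) → ℤ}
    (hc : c ∈ colw M T t j) (hd : d ∈ colw M T t j)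
    (hc' : (fun i => ((c i : ℤ) : ZMod p)) ∈
      Submodule.span (ZMod p) (Set.range fun (j : Fin k) (i : Fin (m + 1)) => ((z j i : ℤ) : ZMod p)))
    (hd' : (fun i => ((d i : ℤ) : ZMod p)) ∈
      Submodule.span (ZMod p) (Set.range fun (j : Fin k) (i : Fin (m + 1)) => ((z j i : ℤ) : ZMod p)))
    (h : ∀ i, c (J i) = d (J i)) : c = d := by
  have h1 := hJ _ (Submodule.sub_mem _ hc' hd') (fun i => by simp [h i])
  ext i
  have h2 : ((c i - d i : ℤ) : ZMod p) = 0 := by
    have := congrFun h1 i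
    simpa using this
  rw [ZMod.intCast_zmod_eq_zero_iff_dvd] at h2
  have h3 : |c i - d i| < p := by
    have h4 := Fintype.mem_piFinset.1 hc i
    have h5 := Fintype.mem_piFinset.1 hd i
    rw [win] at h4 h5
    split_ifs at h4 h5
    · rw [Finset.mem_Ico] at h4 h5
      rw [abs_lt]
      constructor <;> omega
    · rw [Finset.mem_singleton] at h4 h5
      rw [h4, h5]
      simp
      omega
    · rw [Finset.mem_Ico] at h4 h5
      rw [abs_lt]
      constructor <;> omega
  have := Int.eq_zero_of_abs_lt_dvd h2 h3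
  omega

private theorem card_win {m : ℕ} {M T : ℕ} (hT : 1 ≤ T) (t : Fin m → ℕ) (i : Fin (m + 1)) (j : Fin m) :
    (win M T t i j).card ≤ T := by
  rw [win]
  split_ifs
  · simp
  · simpa using hT
  · simp

private theorem card_pi {m r : ℕ} {M T : ℕ} (hT : 1 ≤ T) (t : Fin m → ℕ) (j : Fin m) (J : Fin r → Fin (m + 1)) :
    (Fintype.piFinset fun i : Fin r => win M T t (J i) j).card ≤ T ^ r := by
  rw [Fintype.card_piFinset]
  refine (Finset.prod_le_prod' (fun i _ => card_win hT t (J i) j)).trans ?_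
  simp

private theorem snc_colw {m : ℕ} {M T : ℕ} {t : Fin m → ℕ} {k : ℕ} (hk : k < m)
    (z : Fin k → Fin (m + 1) → ℤ) (hz : ∀ l : Fin k, z l ∈ colw M T t ⟨l, l.2.trans hk⟩)
    (c : Fin (m + 1) → ℤ) (hc : c ∈ colw M T t ⟨k, hk⟩) (l : Fin (k + 1)) :
    snc z c l ∈ colw M T t ⟨l, l.2.trans_le hk⟩ := by
  refine Fin.lastCases ?_ (fun l => ?_) l
  · simpa [snc] using hc
  · simpa [snc] using hz l

theorem bad_large {m : ℕ} (hm : 2 ≤ m) (K M : ℕ) (hM : m + 1 ≤ M) : ∃ C T0 : ℕ, ∀ T : ℕ, T0 ≤ T →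
    ∀ t : Fin m → ℕ, (∀ j, T ≤ t j ∧ t j ≤ T ^ K) → ∀ (k : ℕ) (hk : k < m)
    (z : Fin k → Fin (m + 1) → ℤ), (∀ l : Fin k, z l ∈ colw M T t ⟨l, l.2.trans hk⟩) → PrimC z →
    ∀ S : Finset (Fin (m + 1) → ℤ),
      (∀ c ∈ S, c ∈ colw M T t ⟨k, hk⟩ ∧ ∃ p : ℕ, p.Prime ∧ T < p ∧ ¬ LIp p (snc z c)) →
      S.card * T ≤ C * T ^ (frd m ⟨k, hk⟩) := by
  classical
  set B : ℕ := K * (m + 1) + 1 with hB
  set T0 : ℕ := (m + 1).factorial * (M + 1) ^ (m + 1) + 2 with hT0
  refine ⟨2 * B, T0, ?_⟩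
  intro T hT t ht k hk z hz hzP S hS
  have hT2 : 2 ≤ T := by omega
  have hT1 : 1 ≤ T := by omega
  -- bound of the determinants
  have hbd : ∀ (r : ℕ) (hr : r ≤ m) (y : Fin r → Fin (m + 1) → ℤ),
      (∀ l : Fin r, y l ∈ colw M T t ⟨l, l.2.trans_le hr⟩) →
      ((dd (hr.trans (Nat.le_succ m)) y).natAbs.primeFactors.filter (fun p => T < p)).card ≤ B := by
    intro r hr y hy
    refine card_primes_le hT2 (Int.natAbs_ne_zero.2 (dd_ne_zero hM hT1 ht hr y hy)) ?_
    refine (dd_abs hT1 ht (by omega) hr y hy).trans_lt ?_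
    have h1 : (m + 1).factorial * (M + 1) ^ (m + 1) < T := by omega
    have h2 : 0 < T ^ (K * (m + 1)) := by positivity
    calc (m + 1).factorial * ((M + 1) ^ (m + 1) * (T ^ K) ^ (m + 1))
        = ((m + 1).factorial * (M + 1) ^ (m + 1)) * T ^ (K * (m + 1)) := by rw [pow_mul]; ring
      _ < T * T ^ (K * (m + 1)) := Nat.mul_lt_mul_of_pos_right h1 h2
      _ = T ^ B := by rw [hB, pow_succ]; ring
  have hS1 : ∀ c ∈ S, c ∈ colw M T t ⟨k, hk⟩ := fun c hc => (hS c hc).1
  have hS2 : ∀ c, ∃ p : ℕ, c ∈ S → (p.Prime ∧ T < p ∧ ¬ LIp p (snc z c)) := by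
    intro c
    by_cases hc : c ∈ S
    · obtain ⟨p, hp⟩ := (hS c hc).2
      exact ⟨p, fun _ => hp⟩
    · exact ⟨0, fun h => absurd h hc⟩
  choose P hP using hS2
  set Sa := S.filter (fun c => ¬ ((P c : ℕ) : ℤ) ∣ dd (hk.le.trans (Nat.le_succ m)) z) with hSa
  set Sb := S.filter (fun c => ((P c : ℕ) : ℤ) ∣ dd (hk.le.trans (Nat.le_succ m)) z) with hSb
  -- first part
  have ha : Sa.card ≤ T ^ (k + 1) * B := by
    set Bx : Finset (Fin (k + 1) → ℤ) :=
      Fintype.piFinset fun i : Fin (k + 1) => win M T t (Fin.castLE (by omega) i) ⟨k, hk⟩ with hBx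
    -- extension of the first entries
    set ext : (Fin (k + 1) → ℤ) → (Fin (m + 1) → ℤ) := fun a i =>
      if h : (i : ℕ) < k + 1 then a ⟨i, h⟩ else 0 with hext
    set f : (Fin (m + 1) → ℤ) → (Σ _ : (Fin (k + 1) → ℤ), ℕ) :=
      fun c => ⟨fun i => c (Fin.castLE (by omega) i), P c⟩ with hf
    set G : Finset (Σ _ : (Fin (k + 1) → ℤ), ℕ) := Bx.sigma fun a =>
      if ((dd (by omega : k + 1 ≤ m + 1) (snc z (ext a))).natAbs.primeFactors.filter
          (fun p => T < p)).card ≤ B then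
        ((dd (by omega : k + 1 ≤ m + 1) (snc z (ext a))).natAbs.primeFactors.filter
          (fun p => T < p)) else ∅ with hG
    have hG1 : G.card ≤ T ^ (k + 1) * B := by
      rw [hG, Finset.card_sigma]
      refine (Finset.sum_le_card_nsmul _ _ B (fun a _ => ?_)).trans ?_
      · split_ifs with h
        · exact h
        · simp
      · rw [smul_eq_mul]
        exact Nat.mul_le_mul_right _ (card_pi hT1 t ⟨k, hk⟩ _)
    refine le_trans (Finset.card_le_card_of_injOn f ?_ ?_) hG1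
    · intro c hc
      have hc' := Finset.mem_filter.1 (Finset.mem_coe.1 hc)
      have hcS := hc'.1
      have hcc := hS1 c hcS
      obtain ⟨hp1, hp2, hp3⟩ := hP c hcS
      have hdd : dd (by omega : k + 1 ≤ m + 1) (snc z (ext (f c).1)) =
          dd (by omega : k + 1 ≤ m + 1) (snc z c) := by
        rw [dd, dd]
        congr 1
        ext i j
        simp only [Matrix.of_apply]
        refine Fin.lastCases ?_ (fun j => ?_) j
        · simp only [snc, hext, hf, Fin.snoc_last, Fin.val_castLE]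
          rw [dif_pos i.2]
        · simp [snc]
      have hb := hbd (k + 1) hk (snc z c) (snc_colw hk z hz c hcc)
      rw [Finset.mem_coe, hG, Finset.mem_sigma]
      refine ⟨?_, ?_⟩
      · rw [hBx, Fintype.mem_piFinset]
        intro i
        exact Fintype.mem_piFinset.1 hcc _
      · rw [hdd, if_pos hb, Finset.mem_filter, Nat.mem_primeFactors]
        refine ⟨⟨hp1, ?_, ?_⟩, hp2⟩
        · have := dd_dvd hp1 (by omega : k + 1 ≤ m + 1) _ hp3
          exact Int.natCast_dvd.1 this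
        · exact Int.natAbs_ne_zero.2 (dd_ne_zero hM hT1 ht hk _ (snc_colw hk z hz c hcc))
    · intro c hc d hd hcd
      have hc' := Finset.mem_filter.1 (Finset.mem_coe.1 hc)
      have hd' := Finset.mem_filter.1 (Finset.mem_coe.1 hd)
      obtain ⟨hp1, hp2, hp3⟩ := hP c hc'.1
      obtain ⟨hq1, hq2, hq3⟩ := hP d hd'.1
      have hPP : P c = P d := by
        have := congrArg Sigma.snd hcd
        simpa [hf] using this
      have hEE : ∀ i : Fin (k + 1), c (Fin.castLE (by omega) i) = d (Fin.castLE (by omega) i) := by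
        intro i
        have := congrArg Sigma.fst hcd
        exact congrFun this i
      have hJ := det_first hp1 (hk.le.trans (Nat.le_succ m)) z hc'.2
      rw [← hPP] at hq3
      refine eq_of_det hp2 z hJ (hS1 c hc'.1) (hS1 d hd'.1) (snc_span hp1 z (hzP _ hp1) c hp3)
        (snc_span hp1 z (hzP _ hp1) d hq3) (fun i => ?_)
      exact hEE (Fin.castSucc i)
  -- second part
  have hb : Sb.card ≤ B * T ^ k := by
    have hJx : ∀ p : ℕ, ∃ J : Fin k → Fin (m + 1), p.Prime → Det p z J := by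
      intro p
      by_cases hp : p.Prime
      · obtain ⟨J, hJ⟩ := exists_det hp z (hzP p hp)
        exact ⟨J, fun _ => hJ⟩
      · exact ⟨fun i => Fin.castLE (by omega) i, fun h => absurd h hp⟩
    choose J hJ using hJx
    set f : (Fin (m + 1) → ℤ) → (Σ _ : ℕ, (Fin k → ℤ)) := fun c => ⟨P c, fun i => c (J (P c) i)⟩ with hf
    set G : Finset (Σ _ : ℕ, (Fin k → ℤ)) :=
      ((dd (hk.le.trans (Nat.le_succ m)) z).natAbs.primeFactors.filter (fun p => T < p)).sigma fun p =>
        Fintype.piFinset fun i : Fin k => win M T t (J p i) ⟨k, hk⟩ with hG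
    have hG1 : G.card ≤ B * T ^ k := by
      rw [hG, Finset.card_sigma]
      refine (Finset.sum_le_card_nsmul _ _ (T ^ k) (fun p _ => card_pi hT1 t _ _)).trans ?_
      rw [smul_eq_mul]
      exact Nat.mul_le_mul_right _ (hbd k hk.le z hz)
    refine le_trans (Finset.card_le_card_of_injOn f ?_ ?_) hG1
    · intro c hc
      have hc' := Finset.mem_filter.1 (Finset.mem_coe.1 hc)
      obtain ⟨hp1, hp2, hp3⟩ := hP c hc'.1
      rw [Finset.mem_coe, hG, Finset.mem_sigma, Finset.mem_filter, Nat.mem_primeFactors,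
        Fintype.mem_piFinset]
      refine ⟨⟨⟨hp1, Int.natCast_dvd.1 hc'.2, ?_⟩, hp2⟩, fun i => ?_⟩
      · exact Int.natAbs_ne_zero.2 (dd_ne_zero hM hT1 ht hk.le _ hz)
      · exact Fintype.mem_piFinset.1 (hS1 c hc'.1) _
    · intro c hc d hd hcd
      have hc' := Finset.mem_filter.1 (Finset.mem_coe.1 hc)
      have hd' := Finset.mem_filter.1 (Finset.mem_coe.1 hd)
      obtain ⟨hp1, hp2, hp3⟩ := hP c hc'.1
      obtain ⟨hq1, hq2, hq3⟩ := hP d hd'.1
      have hPP : P c = P d := congrArg Sigma.fst hcd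
      have hEE : ∀ i : Fin k, c (J (P c) i) = d (J (P c) i) := by
        intro i
        have h1 : (⟨P c, fun i => c (J (P c) i)⟩ : Σ _ : ℕ, (Fin k → ℤ)) =
          ⟨P d, fun i => d (J (P d) i)⟩ := hcd
        rw [Sigma.mk.injEq] at h1
        have h2 := eq_of_heq h1.2
        have h3 := congrFun h2 i
        rw [h3, hPP]
      rw [← hPP] at hq3
      exact eq_of_det hp2 z (hJ _ hp1) (hS1 c hc'.1) (hS1 d hd'.1) (snc_span hp1 z (hzP _ hp1) c hp3)
        (snc_span hp1 z (hzP _ hp1) d hq3) hEE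
  have hcard : S.card = Sb.card + Sa.card := by
    rw [hSa, hSb]
    exact (Finset.card_filter_add_card_filter_not (s := S) _).symm
  have hk1 : T ^ k ≤ T ^ (k + 1) := Nat.pow_le_pow_right hT1 (by omega)
  have hle : S.card ≤ 2 * B * T ^ (k + 1) := by
    rw [hcard]
    have : B * T ^ k ≤ B * T ^ (k + 1) := Nat.mul_le_mul_left _ hk1
    nlinarith
  have hfr : T ^ (k + 1) * T ≤ T ^ (frd m ⟨k, hk⟩) := by
    rw [← pow_succ, frd]
    refine Nat.pow_le_pow_right hT1 ?_
    split_ifs with h0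
    · change k = 0 at h0
      omega
    · omega
  calc S.card * T ≤ 2 * B * T ^ (k + 1) * T := Nat.mul_le_mul_right _ hle
    _ = 2 * B * (T ^ (k + 1) * T) := by ring
    _ ≤ 2 * B * T ^ (frd m ⟨k, hk⟩) := Nat.mul_le_mul_left _ hfr

end Pool.Agent.Lib.MP_41a456_al.TC
end

section

/-!
# MP_41a456_al, Theorem TC, D1b: sieve: the sum over the primes

For `e ∈ (0, 1)`: the primes `p ≤ e T` contribute at most `(1 + e)^(m+1) ∑_p p^{-2} ≤ (1 + e)^(m+1) / 2`:
`1/4 + ∑_{odd l ≥ 3} 1/l² ≤ 1/4 + ∑ 1/((l-1)(l+1)) = 1/2`; the others at most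
`2^(m+1) ∑_{l > e T} 1/l² ≤ 2^(m+1) 2/(e T)`. Take `e` with `(1 + e)^(m+1) ≤ 1.1` and `T` large.
-/

namespace Pool.Agent.Lib.MP_41a456_al.TC

open Matrix MeasureTheory Filter Topology Pool.Agent.Lib.MP_41a456_al

private noncomputable def gpr (l : ℕ) : ℝ := if l.Prime then 1 / (l : ℝ) ^ 2 else 0

private theorem gpr_nonneg (l : ℕ) : 0 ≤ gpr l := by
  unfold gpr
  split_ifs <;> positivity

private theorem gpr_le (l : ℕ) : gpr l ≤ 1 / (l : ℝ) ^ 2 := by
  unfold gpr
  split_ifs
  · exact le_rfl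
  · positivity

private theorem sum_gpr (k : ℕ) :
    ∑ l ∈ Finset.range (2 * k + 3), gpr l ≤ 1 / 2 - 1 / (4 * ((k : ℝ) + 1)) := by
  induction k with
  | zero =>
    have h0 : gpr 0 = 0 := if_neg Nat.not_prime_zero
    have h1 : gpr 1 = 0 := if_neg Nat.not_prime_one
    have h2 : gpr 2 = 1 / 4 := by
      unfold gpr
      rw [if_pos Nat.prime_two]
      norm_num
    rw [show 2 * 0 + 3 = 3 from rfl, Finset.sum_range_succ, Finset.sum_range_succ,
      Finset.sum_range_one, h0, h1, h2]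
    norm_num
  | succ k ih =>
    have h1 : gpr (2 * k + 4) = 0 := by
      refine if_neg fun h => ?_
      have h2 : 2 ∣ 2 * k + 4 := ⟨k + 2, by ring⟩
      rcases (Nat.dvd_prime h).1 h2 with h3 | h3 <;> omega
    have h2 := gpr_le (2 * k + 3)
    rw [show 2 * (k + 1) + 3 = 2 * k + 3 + 1 + 1 by ring, Finset.sum_range_succ,
      Finset.sum_range_succ, show 2 * k + 3 + 1 = 2 * k + 4 by ring, h1, add_zero]
    have hk : (0 : ℝ) < (k : ℝ) + 1 := by positivity
    have hk2 : (0 : ℝ) < (k : ℝ) + 1 + 1 := by positivity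
    have h3 : 1 / (((2 * k + 3 : ℕ) : ℝ)) ^ 2 ≤
        1 / (4 * ((k : ℝ) + 1)) - 1 / (4 * ((k : ℝ) + 1 + 1)) := by
      have h4 : 1 / (4 * ((k : ℝ) + 1)) - 1 / (4 * ((k : ℝ) + 1 + 1)) =
          1 / (4 * ((k : ℝ) + 1) * ((k : ℝ) + 1 + 1)) := by
        field_simp
        ring
      rw [h4]
      refine one_div_le_one_div_of_le (by positivity) ?_
      push_cast
      nlinarith
    push_cast
    linarith

private theorem sum_gpr_le (N : ℕ) : ∑ l ∈ Finset.range N, gpr l ≤ 1 / 2 := by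
  have h1 : ∑ l ∈ Finset.range N, gpr l ≤ ∑ l ∈ Finset.range (2 * N + 3), gpr l :=
    Finset.sum_le_sum_of_subset_of_nonneg (Finset.range_mono (by omega))
      fun i _ _ => gpr_nonneg i
  have h2 := sum_gpr N
  have h3 : (0 : ℝ) ≤ 1 / (4 * ((N : ℝ) + 1)) := by positivity
  linarith

private theorem tsum_gpr_le : ∑' l, gpr l ≤ 1 / 2 :=
  Real.tsum_le_of_sum_range_le gpr_nonneg sum_gpr_le

private noncomputable def fpr (m T k : ℕ) : ℝ :=
  if k ∈ (Finset.range (T + 1)).filter Nat.Prime then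
    1 / (k : ℝ) ^ 2 * (1 + (k : ℝ) / T) ^ (m + 1) else 0

private theorem tsum_fpr (m T : ℕ) : ∑' k, fpr m T k =
    ∑ p ∈ (Finset.range (T + 1)).filter Nat.Prime,
      (1 / (p : ℝ) ^ 2 * (1 + (p : ℝ) / T) ^ (m + 1)) := by
  have h : ∀ b ∉ (Finset.range (T + 1)).filter Nat.Prime, fpr m T b = 0 := fun b hb => if_neg hb
  rw [tsum_eq_sum h]
  exact Finset.sum_congr rfl fun k hk => if_pos hk

private theorem tendsto_fpr (m k : ℕ) : Tendsto (fun T => fpr m T k) atTop (𝓝 (gpr k)) := by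
  by_cases hk : k.Prime
  · have h1 : gpr k = 1 / (k : ℝ) ^ 2 * (1 + 0) ^ (m + 1) := by
      rw [gpr, if_pos hk, add_zero, one_pow, mul_one]
    rw [h1]
    have h2 : Tendsto (fun T : ℕ => 1 / (k : ℝ) ^ 2 * (1 + (k : ℝ) / T) ^ (m + 1)) atTop
        (𝓝 (1 / (k : ℝ) ^ 2 * (1 + 0) ^ (m + 1))) :=
      (((tendsto_const_div_atTop_nhds_zero_nat (k : ℝ)).const_add 1).pow (m + 1)).const_mul _
    refine h2.congr' ?_
    filter_upwards [eventually_ge_atTop k] with T hT
    rw [fpr, if_pos]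
    rw [Finset.mem_filter, Finset.mem_range]
    exact ⟨by omega, hk⟩
  · have h1 : gpr k = 0 := if_neg hk
    rw [h1]
    refine tendsto_const_nhds.congr fun T => ?_
    rw [fpr, if_neg]
    rw [Finset.mem_filter]
    exact fun h => hk h.2

theorem sum_primes (m : ℕ) : ∃ T0 : ℕ, ∀ T : ℕ, T0 ≤ T →
    ∑ p ∈ (Finset.range (T + 1)).filter Nat.Prime,
      (1 / (p : ℝ) ^ 2 * (1 + (p : ℝ) / T) ^ (m + 1)) ≤ 6 / 10 := by
  have h1 : Summable fun k : ℕ => 2 ^ (m + 1) * (1 / (k : ℝ) ^ 2) :=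
    (Real.summable_one_div_nat_pow.2 (by norm_num)).mul_left _
  have h2 : ∀ᶠ T : ℕ in atTop, ∀ k, ‖fpr m T k‖ ≤ 2 ^ (m + 1) * (1 / (k : ℝ) ^ 2) := by
    filter_upwards [eventually_ge_atTop 1] with T hT k
    have hT' : (0 : ℝ) < T := by exact_mod_cast hT
    unfold fpr
    split_ifs with h
    · rw [Finset.mem_filter, Finset.mem_range] at h
      have hkT : (k : ℝ) ≤ T := by exact_mod_cast Nat.lt_succ_iff.1 h.1
      have h3 : (k : ℝ) / T ≤ 1 := (div_le_one hT').2 hkT
      have h4 : (0 : ℝ) ≤ (k : ℝ) / T := by positivity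
      rw [Real.norm_of_nonneg (by positivity), mul_comm]
      refine mul_le_mul_of_nonneg_right ?_ (by positivity)
      exact pow_le_pow_left₀ (by linarith) (by linarith) _
    · rw [norm_zero]
      positivity
  have h3 := tendsto_tsum_of_dominated_convergence h1 (tendsto_fpr m) h2
  have h4 : ∑' k, gpr k < 6 / 10 := lt_of_le_of_lt tsum_gpr_le (by norm_num)
  obtain ⟨T0, hT0⟩ := eventually_atTop.1 (h3.eventually_lt_const h4)
  refine ⟨T0, fun T hT => ?_⟩
  rw [← tsum_fpr]
  exact (hT0 T hT).le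

end Pool.Agent.Lib.MP_41a456_al.TC
end
end
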