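import Pool.Agent.Lib.MP_41a456_al.TC.B5
import Pool.Agent.Lib.MP_41a456_al.TC.D1b
import Pool.Agent.Lib.MP_fdf47d_co.SD.RB

section

/-!
# MP_41a456_al, Theorem TC, A4: `lam ≤ 1`, `lam` is continuous

`lam ≤ 1`: Minkowski (`MeasureTheory.exists_ne_zero_mem_lattice_of_measure_mul_two_pow_le_measure`
or a similar name, for compact symmetric convex sets), the cube `‖w‖ ≤ 1` has volume `2^n` and
`g ℤ^n` has covolume 1; or apply the theorem to `ℤ^n` and the convex set `{v : ‖g v‖ ≤ 1}` of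
volume `2^n`. `lam` is continuous: `lam (g • y) ≤ ‖g‖ lam y`, `lam y ≤ ‖g⁻¹‖ lam (g • y)`
(operator norms for the sup norm) and these norms tend to `1` for `g → 1`; the sets
`V • y`, `V` a neighbourhood of `1`, are a basis of neighbourhoods of `y` (`isOpenMap_pt`).
-/

namespace Pool.Agent.Lib.MP_41a456_al.TC

open Matrix MeasureTheory Filter Topology Pool.Agent.Lib.MP_41a456_al

variable {n : ℕ}

private lemma coe_inv_mul' (g : SLr n) : ((g⁻¹ : SLr n) : Mr n) * (g : Mr n) = 1 :=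
  congrArg Subtype.val (inv_mul_cancel g)

private lemma coe_mul_inv' (g : SLr n) : (g : Mr n) * ((g⁻¹ : SLr n) : Mr n) = 1 :=
  congrArg Subtype.val (mul_inv_cancel g)

private lemma inv_mulVec (g : SLr n) (w : Fin n → ℝ) :
    ((g⁻¹ : SLr n) : Mr n) *ᵥ ((g : Mr n) *ᵥ w) = w := by
  rw [mulVec_mulVec, coe_inv_mul', one_mulVec]

private lemma mulVec_inv (g : SLr n) (w : Fin n → ℝ) :
    (g : Mr n) *ᵥ (((g⁻¹ : SLr n) : Mr n) *ᵥ w) = w := by
  rw [mulVec_mulVec, coe_mul_inv', one_mulVec]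

theorem lam_le_one (hn : 0 < n) (y : X n) : lam y ≤ 1 := by
  classical
  obtain ⟨g, rfl⟩ := pt_surjective y
  have : Nonempty (Fin n) := ⟨⟨0, hn⟩⟩
  let b : Module.Basis (Fin n) ℝ (Fin n → ℝ) := Pi.basisFun ℝ (Fin n)
  obtain ⟨s, hs⟩ : ∃ s : Set (Fin n → ℝ), s = {v | ‖(g : Mr n) *ᵥ v‖ ≤ 1} := ⟨_, rfl⟩
  have hs1 : s = (Matrix.toLin' (g : Mr n)) ⁻¹' (Metric.closedBall 0 1) := by
    rw [hs]
    ext v
    simp [Matrix.toLin'_apply]
  have hs2 : s = (fun w => ((g⁻¹ : SLr n) : Mr n) *ᵥ w) '' (Metric.closedBall 0 1) := by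
    rw [hs]
    ext v
    simp only [Set.mem_setOf_eq, Set.mem_image, Metric.mem_closedBall, dist_zero_right]
    constructor
    · intro h
      exact ⟨_, h, inv_mulVec g v⟩
    · rintro ⟨w, hw, rfl⟩
      rw [mulVec_inv]
      exact hw
  have hcpt : IsCompact s := by
    rw [hs2]
    apply (isCompact_closedBall 0 1).image
    exact Continuous.matrix_mulVec continuous_const continuous_id
  have hsymm : ∀ x ∈ s, -x ∈ s := by
    intro x hx
    rw [hs] at hx ⊢
    simp only [Set.mem_setOf_eq] at hx ⊢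
    rw [mulVec_neg, norm_neg]
    exact hx
  have hconv : Convex ℝ s := by
    rw [hs1]
    exact (convex_closedBall 0 1).linear_preimage _
  have hdet : LinearMap.det (Matrix.toLin' (g : Mr n)) = 1 := by
    rw [LinearMap.det_toLin']
    exact g.2
  have hvol : volume s = 2 ^ n := by
    rw [hs1, Measure.addHaar_preimage_linearMap _ (by rw [hdet]; exact one_ne_zero), hdet,
      Real.volume_pi_closedBall _ zero_le_one]
    simp
  have hfund := ZSpan.isAddFundamentalDomain' b (volume : Measure (Fin n → ℝ))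
  have hvolF : volume (ZSpan.fundamentalDomain b) = 1 := by
    rw [ZSpan.volume_fundamentalDomain]
    have : (Matrix.of b : Matrix (Fin n) (Fin n) ℝ) = 1 := by
      ext i j
      simp [b, Matrix.one_apply, Pi.single_apply, eq_comm]
    rw [this, det_one]
    simp
  have hdisc : DiscreteTopology (Submodule.span ℤ (Set.range b)).toAddSubgroup := by
    change DiscreteTopology (Submodule.span ℤ (Set.range b))
    infer_instance
  have hcount : Countable (Submodule.span ℤ (Set.range b)).toAddSubgroup := by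
    have : DiscreteTopology (Submodule.span ℤ (Set.range b)) := inferInstance
    change Countable (Submodule.span ℤ (Set.range b))
    exact TopologicalSpace.separableSpace_iff_countable.mp inferInstance
  obtain ⟨x, hx0, hxs⟩ := exists_ne_zero_mem_lattice_of_measure_mul_two_pow_le_measure hfund hsymm
    hconv hcpt (by
      rw [hvolF, hvol, Module.finrank_fintype_fun_eq_card, Fintype.card_fin, one_mul])
  obtain ⟨v, hv⟩ : ∃ v : Fin n → ℤ, (x : Fin n → ℝ) = fun i => (v i : ℝ) := by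
    have h1 := x.2
    rw [Submodule.mem_toAddSubgroup, b.mem_span_iff_repr_mem ℤ] at h1
    choose v hv using h1
    refine ⟨v, ?_⟩
    ext i
    have h2 := hv i
    simp [b] at h2
    exact h2.symm
  have hw : (g : Mr n) *ᵥ (x : Fin n → ℝ) ∈ vecs (pt g) := ⟨g, rfl, v, by rw [hv]⟩
  have hw0 : (g : Mr n) *ᵥ (x : Fin n → ℝ) ≠ 0 := by
    intro h
    have h1 := inv_mulVec g (x : Fin n → ℝ)
    rw [h, mulVec_zero] at h1
    exact hx0 (Subtype.ext h1.symm)
  rw [hs] at hxs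
  exact (lam_le hw hw0).trans hxs

/-- `lam (g y) ≥ c lam y` if `‖w‖ ≤ c⁻¹ ‖g w‖` -/
theorem lam_smul_ge (hn : 0 < n) (y : X n) (g : SLr n) {C : ℝ} (hC : 0 < C)
    (h : ∀ w : Fin n → ℝ, ‖w‖ ≤ C * ‖(g : Mr n) *ᵥ w‖) : lam y ≤ C * lam (g • y) := by
  obtain ⟨w, hw, hw0, hwl⟩ := lam_attained hn (g • y)
  rw [vecs_smul] at hw
  obtain ⟨w', hw', rfl⟩ := hw
  have h0 : w' ≠ 0 := by
    rintro rfl
    exact hw0 (mulVec_zero _)
  rw [← hwl]
  exact (lam_le hw' h0).trans (h w')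

theorem lam_smul_le (hn : 0 < n) (y : X n) (g : SLr n) {C : ℝ}
    (h : ∀ w : Fin n → ℝ, ‖(g : Mr n) *ᵥ w‖ ≤ C * ‖w‖) : lam (g • y) ≤ C * lam y := by
  obtain ⟨w, hw, hw0, hwl⟩ := lam_attained hn y
  rw [← hwl]
  refine le_trans (lam_le (w := (g : Mr n) *ᵥ w) ?_ ?_) (h w)
  · rw [vecs_smul]
    exact ⟨w, hw, rfl⟩
  · intro h1
    have h2 := inv_mulVec g w
    rw [h1, mulVec_zero] at h2
    exact hw0 h2.symm

private noncomputable def nrm (A : Mr n) : ℝ := ∑ i, ∑ j, |A i j|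

private lemma nrm_nonneg (A : Mr n) : 0 ≤ nrm A :=
  Finset.sum_nonneg fun _ _ => Finset.sum_nonneg fun _ _ => abs_nonneg _

private lemma continuous_nrm : Continuous (nrm : Mr n → ℝ) := by
  unfold nrm
  fun_prop

private lemma nrm_mulVec (A : Mr n) (w : Fin n → ℝ) : ‖A *ᵥ w‖ ≤ nrm A * ‖w‖ := by
  rw [pi_norm_le_iff_of_nonneg (mul_nonneg (nrm_nonneg A) (norm_nonneg w))]
  intro i
  rw [Real.norm_eq_abs]
  have h0 : (A *ᵥ w) i = ∑ j, A i j * w j := rfl
  rw [h0]
  calc |∑ j, A i j * w j| ≤ ∑ j, |A i j * w j| := Finset.abs_sum_le_sum_abs _ _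
    _ ≤ ∑ j, |A i j| * ‖w‖ := by
        apply Finset.sum_le_sum
        intro j _
        rw [abs_mul]
        exact mul_le_mul_of_nonneg_left (norm_le_pi_norm w j) (abs_nonneg _)
    _ = (∑ j, |A i j|) * ‖w‖ := by rw [Finset.sum_mul]
    _ ≤ nrm A * ‖w‖ := by
        apply mul_le_mul_of_nonneg_right _ (norm_nonneg w)
        exact Finset.single_le_sum (f := fun i => ∑ j, |A i j|)
          (fun _ _ => Finset.sum_nonneg fun _ _ => abs_nonneg _) (Finset.mem_univ i)

private lemma bound_one (A : Mr n) (w : Fin n → ℝ) : ‖A *ᵥ w‖ ≤ (1 + nrm (A - 1)) * ‖w‖ := by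
  have h1 : A *ᵥ w = w + (A - 1) *ᵥ w := by
    rw [sub_mulVec, one_mulVec]
    abel
  rw [h1, add_mul, one_mul]
  exact (norm_add_le _ _).trans (add_le_add le_rfl (nrm_mulVec _ _))

theorem continuous_lam (hn : 0 < n) : Continuous (lam : X n → ℝ) := by
  have hq : IsQuotientMap (pt : SLr n → X n) := QuotientGroup.isQuotientMap_mk (Gam n)
  rw [hq.continuous_iff, continuous_iff_continuousAt]
  intro g₀
  have hc1 : Continuous fun g : SLr n => ((g * g₀⁻¹ : SLr n) : Mr n) :=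
    continuous_subtype_val.comp (continuous_mul_right g₀⁻¹)
  have hc2 : Continuous fun g : SLr n => (((g * g₀⁻¹)⁻¹ : SLr n) : Mr n) := by
    have h1 : Continuous fun g : SLr n => (g * g₀⁻¹)⁻¹ := (continuous_mul_right g₀⁻¹).inv
    exact continuous_subtype_val.comp h1
  have ht1 : Tendsto (fun g : SLr n => (1 + nrm (((g * g₀⁻¹ : SLr n) : Mr n) - 1)) * lam (pt g₀))
      (𝓝 g₀) (𝓝 (lam (pt g₀))) := by
    have h1 : Continuous fun g : SLr n =>
        (1 + nrm (((g * g₀⁻¹ : SLr n) : Mr n) - 1)) * lam (pt g₀) :=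
      (continuous_const.add (continuous_nrm.comp (hc1.sub continuous_const))).mul continuous_const
    have h2 := h1.tendsto g₀
    simpa [nrm] using h2
  have ht2 : Tendsto (fun g : SLr n =>
      lam (pt g₀) / (1 + nrm ((((g * g₀⁻¹)⁻¹ : SLr n) : Mr n) - 1)))
      (𝓝 g₀) (𝓝 (lam (pt g₀))) := by
    have h1 : Continuous fun g : SLr n =>
        lam (pt g₀) / (1 + nrm ((((g * g₀⁻¹)⁻¹ : SLr n) : Mr n) - 1)) := by
      apply continuous_const.div
      · exact continuous_const.add (continuous_nrm.comp (hc2.sub continuous_const))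
      · intro g
        have := nrm_nonneg ((((g * g₀⁻¹)⁻¹ : SLr n) : Mr n) - 1)
        positivity
    have h2 := h1.tendsto g₀
    simpa [nrm] using h2
  have hpt : ∀ g : SLr n, pt g = (g * g₀⁻¹) • pt g₀ := by
    intro g
    rw [smul_pt, inv_mul_cancel_right]
  apply tendsto_of_tendsto_of_tendsto_of_le_of_le ht2 ht1
  · intro g
    have h0 := nrm_nonneg ((((g * g₀⁻¹)⁻¹ : SLr n) : Mr n) - 1)
    have h1 := lam_smul_ge hn (pt g₀) (g * g₀⁻¹)
      (C := 1 + nrm ((((g * g₀⁻¹)⁻¹ : SLr n) : Mr n) - 1)) (by positivity) (fun w => by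
        have h2 := bound_one (((g * g₀⁻¹)⁻¹ : SLr n) : Mr n) (((g * g₀⁻¹ : SLr n) : Mr n) *ᵥ w)
        rwa [inv_mulVec] at h2)
    rw [← hpt] at h1
    simp only [Function.comp_apply]
    rw [div_le_iff₀ (by positivity)]
    linarith
  · intro g
    have h1 := lam_smul_le hn (pt g₀) (g * g₀⁻¹)
      (C := 1 + nrm (((g * g₀⁻¹ : SLr n) : Mr n) - 1)) (fun w => bound_one _ w)
    rw [← hpt] at h1
    exact h1

end Pool.Agent.Lib.MP_41a456_al.TC
end

section

/-!
# MP_41a456_al, Theorem TC, G1: charts: signed permutations (paper 521, (7.1))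

Paper 521, section 7, `n = m + 1`.
Laplace expansion along the last column: if a `j`-minor of `k` with columns `0..j-1` has absolute value `≥ c`, then
one of its `(j-1)`-minors with columns `0..j-2` (one row fewer) has absolute value `≥ c / j` (entries of `k` are at
most 1). Starting with `det k = 1`: nested sets of rows, i.e. a permutation `π` of the rows such that the minors with rows
`π 0, …, π (j-1)` and columns `0..j-1` have absolute value `≥ 1/n!` for all `j`. Choose signs of the rows such that they are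
positive; `σ` = the signed permutation matrix, `det σ = mk n (σ k) / det k > 0`, so `det σ = 1`. `decomp`: `lu` and
`lu_bound` for `M = σ k`; `M = l r`, `l` lower unitriangular: `l = u(v) l1`, `v` the first column of `l`,
`l1` = `l` with the first column replaced by `e_0`; `det r = 1`, `r_ii > 0`.
-/

namespace Pool.Agent.Lib.MP_41a456_al.TC

open Matrix MeasureTheory Filter Topology Pool.Agent.Lib.MP_41a456_al

private theorem ld_val1 {m k : ℕ} (hk : k ≤ m + 1) (i : Fin k) :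
    ((ld m k i : Fin (m + 1)) : ℕ) = i := by
  have := i.2
  simp only [ld, Fin.ofNat]
  exact Nat.mod_eq_of_lt (by omega)

private theorem ld_eq {m k : ℕ} (hk : k ≤ m + 1) : ld m k = Fin.castLE hk := by
  funext i
  apply Fin.ext
  rw [ld_val1 hk]
  rfl

/-- nested minors -/
private theorem nested (j : ℕ) : ∀ (A : Matrix (Fin j) (Fin j) ℝ), (∀ a b, |A a b| ≤ 1) →
    ∀ c : ℝ, 0 ≤ c → c ≤ |A.det| → ∃ f : Fin j → Fin j, Function.Injective f ∧
      ∀ i (h : i ≤ j), c / j.factorial ≤ |(A.submatrix (f ∘ Fin.castLE h) (Fin.castLE h)).det| := by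
  induction j with
  | zero =>
    intro A hA c hc h
    refine ⟨id, Function.injective_id, ?_⟩
    intro i hi
    obtain rfl : i = 0 := by omega
    rw [Matrix.det_isEmpty] at h ⊢
    simpa using h
  | succ j ih =>
    intro A hA c hc h
    have h1 : ∃ i : Fin (j + 1), c / (j + 1 : ℕ) ≤
        |(A.submatrix i.succAbove (Fin.last j).succAbove).det| := by
      by_contra hcon
      push Not at hcon
      have h2 := Matrix.det_succ_column A (Fin.last j)
      have h3 : |A.det| < ∑ _i : Fin (j + 1), c / (j + 1 : ℕ) := by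
        rw [h2]
        refine (Finset.abs_sum_le_sum_abs _ _).trans_lt ?_
        refine Finset.sum_lt_sum_of_nonempty Finset.univ_nonempty ?_
        intro i _
        rw [abs_mul, abs_mul, abs_pow, abs_neg, abs_one, one_pow, one_mul]
        refine lt_of_le_of_lt ?_ (hcon i)
        exact mul_le_of_le_one_left (abs_nonneg _) (hA _ _)
      rw [Finset.sum_const, Finset.card_univ, Fintype.card_fin, nsmul_eq_mul,
        mul_div_cancel₀ _ (by positivity)] at h3
      linarith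
    obtain ⟨i, hi⟩ := h1
    obtain ⟨f, hf, hff⟩ := ih (A.submatrix i.succAbove (Fin.last j).succAbove)
      (fun a b => hA _ _) (c / (j + 1 : ℕ)) (by positivity) hi
    have hinj : Function.Injective (Fin.snoc (α := fun _ => Fin (j + 1)) (i.succAbove ∘ f) i :
        Fin (j + 1) → Fin (j + 1)) := by
      intro a b
      refine Fin.lastCases ?_ ?_ a <;> refine Fin.lastCases ?_ ?_ b
      · intro _
        rfl
      · intro b' hb
        rw [Fin.snoc_last, Fin.snoc_castSucc] at hb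
        exact absurd hb.symm (Fin.succAbove_ne _ _)
      · intro a' ha
        rw [Fin.snoc_last, Fin.snoc_castSucc] at ha
        exact absurd ha (Fin.succAbove_ne _ _)
      · intro b' a' hab
        rw [Fin.snoc_castSucc, Fin.snoc_castSucc] at hab
        rw [hf (Fin.succAbove_right_injective hab)]
    refine ⟨_, hinj, ?_⟩
    intro i' hi'
    rcases Nat.lt_or_ge i' (j + 1) with hlt | hge
    · have hle : i' ≤ j := by omega
      have h4 := hff i' hle
      have h5 : (A.submatrix i.succAbove (Fin.last j).succAbove).submatrix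
          (f ∘ Fin.castLE hle) (Fin.castLE hle) =
          A.submatrix ((Fin.snoc (α := fun _ => Fin (j + 1)) (i.succAbove ∘ f) i) ∘
            Fin.castLE hi') (Fin.castLE hi') := by
        ext a b
        rw [submatrix_apply, submatrix_apply, submatrix_apply]
        have h6 : Fin.castLE hi' a = Fin.castSucc (Fin.castLE hle a) := rfl
        have h7 : Fin.castLE hi' b = Fin.castSucc (Fin.castLE hle b) := rfl
        rw [Function.comp_apply, Function.comp_apply, h6, h7, Fin.snoc_castSucc,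
          Fin.succAbove_last]
        rfl
      rw [h5] at h4
      refine le_trans (le_of_eq ?_) h4
      rw [div_div, Nat.factorial_succ]
      push_cast
      ring
    · obtain rfl : i' = j + 1 := by omega
      have h8 : Function.Bijective (Fin.snoc (α := fun _ => Fin (j + 1)) (i.succAbove ∘ f) i :
        Fin (j + 1) → Fin (j + 1)) := Finite.injective_iff_bijective.1 hinj
      have h9 := Matrix.abs_det_submatrix_equiv_equiv (Equiv.ofBijective _ h8) (Equiv.refl _) A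
      have h10 : A.submatrix ((Fin.snoc (α := fun _ => Fin (j + 1)) (i.succAbove ∘ f) i) ∘
            Fin.castLE hi') (Fin.castLE hi') =
            A.submatrix (Equiv.ofBijective _ h8) (Equiv.refl (Fin (j + 1))) := by
        ext a b
        rfl
      rw [h10, h9]
      refine le_trans ?_ h
      apply div_le_self hc
      exact_mod_cast Nat.succ_le_of_lt (Nat.factorial_pos _)

private theorem orth_entry {m : ℕ} (k : SLr (m + 1)) (hk : Orth k) (i j : Fin (m + 1)) :
    |(k : Mr (m + 1)) i j| ≤ 1 := by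
  have h1 := congrFun (congrFun hk j) j
  rw [Matrix.mul_apply, Matrix.one_apply_eq] at h1
  have h2 : (k : Mr (m + 1)) i j ^ 2 ≤ 1 := by
    have h3 := Finset.single_le_sum (f := fun x => (k : Mr (m + 1))ᵀ j x * (k : Mr (m + 1)) x j)
      (s := Finset.univ) (fun x _ => by
        rw [Matrix.transpose_apply]
        exact mul_self_nonneg _) (Finset.mem_univ i)
    rw [pow_two]
    exact h3.trans h1.le
  rwa [← sq_abs, sq_le_one_iff₀ (abs_nonneg _)] at h2

theorem exists_sigma {m : ℕ} (k : SLr (m + 1)) (hk : Orth k) : ∃ σ : SLn (m + 1),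
    (∀ i j, (σ : Mt (m + 1)) i j = 0 ∨ (σ : Mt (m + 1)) i j = 1 ∨ (σ : Mt (m + 1)) i j = -1) ∧
    (Orth (iz (m + 1) σ)) ∧
    ∀ j, 1 ≤ j → j ≤ m + 1 →
      1 / ((m + 1).factorial : ℝ) ≤ mk j ((iz (m + 1) σ * k : SLr (m + 1)) : Mr (m + 1)) := by
  obtain ⟨f, hf, hff⟩ := nested (m + 1) (k : Mr (m + 1)) (orth_entry k hk) 1 zero_le_one (by
    rw [k.2, abs_one])
  set D : ℕ → ℝ := fun j => ((k : Mr (m + 1)).submatrix (f ∘ ld m j) (ld m j)).det with hD
  have hD1 : ∀ j, j ≤ m + 1 → 1 / ((m + 1).factorial : ℝ) ≤ |D j| := by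
    intro j hj
    have := hff j hj
    rw [← ld_eq hj] at this
    exact this
  set s : ℕ → ℤ := fun j => if 0 ≤ D j then 1 else -1 with hs
  have hss : ∀ j, s j * s j = 1 := by
    intro j
    simp only [hs]
    split_ifs <;> norm_num
  have hs1 : ∀ j, s j = 1 ∨ s j = -1 := by
    intro j
    simp only [hs]
    split_ifs
    · exact Or.inl rfl
    · exact Or.inr rfl
  have hsD : ∀ j, (s j : ℝ) * D j = |D j| := by
    intro j
    simp only [hs]
    split_ifs with h
    · rw [abs_of_nonneg h]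
      push_cast
      ring
    · push Not at h
      rw [abs_of_neg h]
      push_cast
      ring
  have hD0 : D 0 = 1 := by
    simp only [hD]
    rw [Matrix.det_isEmpty]
  have hs0 : s 0 = 1 := by
    simp only [hs]
    rw [if_pos]
    rw [hD0]
    exact zero_le_one
  set ε : Fin (m + 1) → ℤ := fun i => s ((i : ℕ) + 1) * s i with hε
  have hεε : ∀ i, ε i * ε i = 1 := by
    intro i
    have h1 := hss ((i : ℕ) + 1)
    have h2 := hss i
    calc ε i * ε i = (s ((i : ℕ) + 1) * s ((i : ℕ) + 1)) * (s i * s i) := by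
          simp only [hε]; ring
      _ = 1 := by rw [h1, h2, one_mul]
  have hε1 : ∀ i, ε i = 1 ∨ ε i = -1 := fun i => mul_self_eq_one_iff.1 (hεε i)
  have hprod : ∀ j, j ≤ m + 1 → ∏ a : Fin j, ε (ld m j a) = s j := by
    intro j
    induction j with
    | zero =>
      intro _
      simp [hs0]
    | succ j ih =>
      intro hj
      rw [Fin.prod_univ_castSucc]
      have h1 : ∀ a : Fin j, ld m (j + 1) a.castSucc = ld m j a := by
        intro a
        apply Fin.ext
        rw [ld_val1 hj, ld_val1 (by omega)]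
        rfl
      rw [Finset.prod_congr rfl fun a _ => by rw [h1 a], ih (by omega)]
      have h2 : ((ld m (j + 1) (Fin.last j) : Fin (m + 1)) : ℕ) = j := by
        rw [ld_val1 hj]
        rfl
      simp only [hε, h2]
      have h3 := hss j
      calc s j * (s (j + 1) * s j) = s (j + 1) * (s j * s j) := by ring
        _ = s (j + 1) := by rw [h3, mul_one]
  set P : Mt (m + 1) := Matrix.of fun i j => if j = f i then ε i else 0 with hP
  have hPr : ∀ i j, (P.map (Int.castRingHom ℝ)) i j = if j = f i then (ε i : ℝ) else 0 := by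
    intro i j
    rw [Matrix.map_apply]
    simp only [hP, Matrix.of_apply]
    split_ifs
    · rfl
    · simp
  have hmul : ∀ i j, (P.map (Int.castRingHom ℝ) * (k : Mr (m + 1))) i j =
      (ε i : ℝ) * (k : Mr (m + 1)) (f i) j := by
    intro i j
    rw [Matrix.mul_apply, Finset.sum_eq_single (f i)]
    · rw [hPr, if_pos rfl]
    · intro b _ hb
      rw [hPr, if_neg hb, zero_mul]
    · intro h
      exact absurd (Finset.mem_univ _) h
  have hmk : ∀ j, j ≤ m + 1 → mk j (P.map (Int.castRingHom ℝ) * (k : Mr (m + 1))) = |D j| := by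
    intro j hj
    have h1 : (P.map (Int.castRingHom ℝ) * (k : Mr (m + 1))).submatrix (ld m j) (ld m j) =
        Matrix.of fun a b => (ε (ld m j a) : ℝ) *
          ((k : Mr (m + 1)).submatrix (f ∘ ld m j) (ld m j)) a b := by
      ext a b
      rw [submatrix_apply, hmul]
      rfl
    rw [mk, h1, Matrix.det_mul_column, ← hsD j]
    congr 1
    rw [← hprod j hj]
    push_cast
    rfl
  have hPP : Pᵀ * P = 1 := by
    ext a b
    rw [Matrix.mul_apply]
    obtain ⟨i, hi⟩ := (Finite.injective_iff_surjective.1 hf) a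
    rw [Finset.sum_eq_single i]
    · rw [Matrix.transpose_apply]
      simp only [hP, Matrix.of_apply]
      rw [if_pos hi.symm]
      by_cases hab : a = b
      · subst hab
        rw [if_pos hi.symm, hεε, Matrix.one_apply_eq]
      · rw [if_neg, mul_zero, Matrix.one_apply_ne hab]
        intro h
        apply hab
        rw [← hi, h]
    · intro i' _ hi'
      rw [Matrix.transpose_apply]
      simp only [hP, Matrix.of_apply]
      rw [if_neg, zero_mul]
      intro h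
      apply hi'
      apply hf
      rw [hi, ← h]
    · intro h
      exact absurd (Finset.mem_univ _) h
  have hdet1 : P.det * P.det = 1 := by
    have h1 := congrArg Matrix.det hPP
    rwa [Matrix.det_mul, Matrix.det_transpose, Matrix.det_one] at h1
  have hdet : P.det = 1 := by
    rcases mul_self_eq_one_iff.1 hdet1 with h | h
    · exact h
    · exfalso
      have h1 := hmk (m + 1) le_rfl
      have h2 : mk (m + 1) (P.map (Int.castRingHom ℝ) * (k : Mr (m + 1))) =
          (P.map (Int.castRingHom ℝ) * (k : Mr (m + 1))).det := by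
        rw [mk]
        congr 1
        rw [ld_eq le_rfl]
        rfl
      rw [h2, Matrix.det_mul, k.2, mul_one] at h1
      have h3 : (P.map (Int.castRingHom ℝ)).det = ((P.det : ℤ) : ℝ) := by
        have := (RingHom.map_det (Int.castRingHom ℝ) P).symm
        exact this
      rw [h3, h] at h1
      have h4 := abs_nonneg (D (m + 1))
      rw [← h1] at h4
      norm_num at h4
  refine ⟨⟨P, hdet⟩, ?_, ?_, ?_⟩
  · intro i j
    change P i j = 0 ∨ P i j = 1 ∨ P i j = -1
    simp only [hP, Matrix.of_apply]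
    split_ifs
    · right
      exact hε1 i
    · left
      rfl
  · change (P.map (Int.castRingHom ℝ))ᵀ * (P.map (Int.castRingHom ℝ)) = 1
    rw [← Matrix.transpose_map, ← Matrix.map_mul, hPP]
    simp
  · intro j _ hj
    rw [Matrix.SpecialLinearGroup.coe_mul]
    change 1 / ((m + 1).factorial : ℝ) ≤ mk j (P.map (Int.castRingHom ℝ) * (k : Mr (m + 1)))
    rw [hmk j hj]
    exact hD1 j hj

/-- `l` is lower unitriangular with first column `e_0` -/
def Low1 {m : ℕ} (l : SLr (m + 1)) : Prop :=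
  Low (l : Mr (m + 1)) ∧ ∀ i, i ≠ 0 → (l : Mr (m + 1)) i 0 = 0

/-- the chart: `k = σ⁻¹ u(v) l n` with all entries bounded by `C` -/
structure Chart {m : ℕ} (C : ℝ) (k : SLr (m + 1)) (σ : SLn (m + 1)) (v : Fin m → ℝ)
    (l n : SLr (m + 1)) : Prop where
  eq : k = (iz (m + 1) σ)⁻¹ * ucol v * l * n
  low : Low1 l
  upp : Upp (n : Mr (m + 1))
  ents : ∀ i j, (σ : Mt (m + 1)) i j = 0 ∨ (σ : Mt (m + 1)) i j = 1 ∨ (σ : Mt (m + 1)) i j = -1
  bv : ∀ j, |v j| ≤ C
  bl : ∀ i j, |(l : Mr (m + 1)) i j| ≤ C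
  bl' : ∀ i j, |((l⁻¹ : SLr (m + 1)) : Mr (m + 1)) i j| ≤ C
  bn : ∀ i j, |(n : Mr (m + 1)) i j| ≤ C
  bn' : ∀ i j, |((n⁻¹ : SLr (m + 1)) : Mr (m + 1)) i j| ≤ C
  nd : ∀ i, C⁻¹ ≤ (n : Mr (m + 1)) i i

private theorem det_low1 {n : ℕ} (l : Mr n) (hl : Low l) : l.det = 1 := by
  rw [Matrix.det_of_isLowerTriangular l (fun i j hij => hl.2 i j hij)]
  exact Finset.prod_eq_one fun i _ => hl.1 i

private theorem inv_bound {n : ℕ} (g : SLr n) {C : ℝ} (hC : 1 ≤ C)
    (h : ∀ i j, |(g : Mr n) i j| ≤ C) (i j : Fin n) :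
    |((g⁻¹ : SLr n) : Mr n) i j| ≤ (n.factorial : ℝ) * C ^ n := by
  rw [Matrix.SpecialLinearGroup.coe_inv, Matrix.adjugate_apply]
  have h1 : ∀ a b, |((g : Mr n).updateRow j (Pi.single i 1)) a b| ≤ C := by
    intro a b
    by_cases ha : a = j
    · subst ha
      rw [Matrix.updateRow_self]
      by_cases hb : b = i
      · subst hb
        rw [Pi.single_eq_same, abs_one]
        exact hC
      · rw [Pi.single_eq_of_ne hb, abs_zero]
        linarith
    · rw [Matrix.updateRow_ne ha]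
      exact h a b
  have h2 := Matrix.det_le (A := (g : Mr n).updateRow j (Pi.single i 1))
    (abv := AbsoluteValue.abs) (x := C) h1
  simpa using h2

theorem exists_chart (m : ℕ) : ∃ C : ℝ, 1 ≤ C ∧ ∀ k : SLr (m + 1), Orth k →
    ∃ σ v l n, Chart C k σ v l n := by
  obtain ⟨C0, hC0⟩ := lu_bound m (c := 1 / ((m + 1).factorial : ℝ)) (by positivity)
  set C1 : ℝ := max C0 1 with hC1
  have hC11 : 1 ≤ C1 := le_max_right _ _
  set C2 : ℝ := ((m + 1).factorial : ℝ) * C1 ^ (m + 1) with hC2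
  have hfac : (1 : ℝ) ≤ ((m + 1).factorial : ℝ) := by
    exact_mod_cast Nat.succ_le_of_lt (Nat.factorial_pos _)
  have hC12 : C1 ≤ C2 := by
    calc C1 ≤ C1 ^ (m + 1) := le_self_pow₀ hC11 (by omega)
      _ ≤ C2 := le_mul_of_one_le_left (by positivity) hfac
  refine ⟨C2, hC11.trans hC12, ?_⟩
  intro k hk
  obtain ⟨σ, hσ1, hσ2, hσ3⟩ := exists_sigma k hk
  set M : SLr (m + 1) := iz (m + 1) σ * k with hM
  have hMo : Orth M := by
    have hk' : (k : Mr (m + 1))ᵀ * (k : Mr (m + 1)) = 1 := hk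
    have hσ' : (iz (m + 1) σ : Mr (m + 1))ᵀ * (iz (m + 1) σ : Mr (m + 1)) = 1 := hσ2
    change ((iz (m + 1) σ * k : SLr (m + 1)) : Mr (m + 1))ᵀ *
      ((iz (m + 1) σ * k : SLr (m + 1)) : Mr (m + 1)) = 1
    rw [Matrix.SpecialLinearGroup.coe_mul, Matrix.transpose_mul, Matrix.mul_assoc,
      ← Matrix.mul_assoc (iz (m + 1) σ : Mr (m + 1))ᵀ, hσ', Matrix.one_mul, hk']
  obtain ⟨l, r, hl, hr, hlr⟩ := lu (M : Mr (m + 1)) (fun j h1 h2 => by
    have h3 := hσ3 j h1 h2
    have h4 : (0 : ℝ) < 1 / ((m + 1).factorial : ℝ) := by positivity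
    exact (h4.trans_le h3).ne')
  obtain ⟨b1, b2, b3⟩ := hC0 (M : Mr (m + 1)) l r hl hr hlr (orth_entry M hMo) hσ3
  have hC01 : 1 ≤ C0 := by
    have h1 := b1 0 0
    rwa [hl.1 0, abs_one] at h1
  have hC00 : C0 = C1 := by
    rw [hC1, max_eq_left hC01]
  have hdl : l.det = 1 := det_low1 l hl
  have hdr : r.det = 1 := by
    have h1 := congrArg Matrix.det hlr
    rw [M.2, Matrix.det_mul, hdl, one_mul] at h1
    exact h1.symm
  set v : Fin m → ℝ := fun j => l j.succ 0 with hv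
  set l1 : Mr (m + 1) := Matrix.of fun i j => if j = 0 then (if i = 0 then 1 else 0) else l i j
    with hl1
  have hlow1 : Low l1 := by
    constructor
    · intro i
      simp only [hl1, Matrix.of_apply]
      by_cases hi : i = 0
      · simp [hi]
      · rw [if_neg hi]
        exact hl.1 i
    · intro i j hij
      simp only [hl1, Matrix.of_apply]
      have hj : j ≠ 0 := by
        intro h
        rw [h] at hij
        exact absurd hij (by simp)
      rw [if_neg hj]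
      exact hl.2 i j hij
  have hdl1 : l1.det = 1 := det_low1 l1 hlow1
  have hul : (ucol v : Mr (m + 1)) * l1 = l := by
    rw [ucol_coe, add_mul, Matrix.one_mul, Matrix.vecMulVec_mul]
    ext i j
    rw [Matrix.add_apply, Matrix.vecMulVec_apply, Matrix.single_one_vecMul]
    change l1 i j + (Fin.cons 0 v : Fin (m + 1) → ℝ) i * l1 0 j = l i j
    have h0 : l1 0 j = if j = 0 then 1 else 0 := by
      simp only [hl1, Matrix.of_apply]
      by_cases hj : j = 0
      · simp [hj]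
      · rw [if_neg hj, if_neg hj]
        exact hl.2 0 j (Fin.pos_of_ne_zero hj)
    rw [h0]
    by_cases hj : j = 0
    · subst hj
      rw [if_pos rfl, mul_one]
      refine Fin.cases ?_ ?_ i
      · rw [Fin.cons_zero, hlow1.1 0, hl.1 0, add_zero]
      · intro i'
        rw [Fin.cons_succ]
        simp only [hl1, Matrix.of_apply]
        simp [hv]
    · rw [if_neg hj, mul_zero, add_zero]
      simp only [hl1, Matrix.of_apply]
      rw [if_neg hj]
  have hb1 : ∀ i j, |l1 i j| ≤ C1 := by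
    intro i j
    simp only [hl1, Matrix.of_apply]
    split_ifs
    · rw [abs_one]
      exact hC11
    · rw [abs_zero]
      linarith
    · rw [← hC00]
      exact b1 i j
  refine ⟨σ, v, ⟨l1, hdl1⟩, ⟨r, hdr⟩, ?_⟩
  refine ⟨?_, ⟨hlow1, ?_⟩, hr, hσ1, ?_, ?_, ?_, ?_, ?_, ?_⟩
  · have h1 : ∀ a b : SLr (m + 1), (a : Mr (m + 1)) = l1 → (b : Mr (m + 1)) = r →
        M = ucol v * a * b := by
      intro a b ha hb
      apply Subtype.ext
      have h2 : ((ucol v * a * b : SLr (m + 1)) : Mr (m + 1)) = l * r := by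
        rw [Matrix.SpecialLinearGroup.coe_mul, Matrix.SpecialLinearGroup.coe_mul, ha, hb, hul]
      exact hlr.trans h2.symm
    have h1 := h1 ⟨l1, hdl1⟩ ⟨r, hdr⟩ rfl rfl
    rw [mul_assoc, mul_assoc, ← mul_assoc (ucol v), ← h1, hM, inv_mul_cancel_left]
  · intro i hi
    change l1 i 0 = 0
    simp only [hl1, Matrix.of_apply]
    simp [hi]
  · intro j
    exact (b1 _ _).trans ((le_max_left _ _).trans hC12)
  · intro i j
    exact (hb1 i j).trans hC12
  · exact inv_bound _ hC11 hb1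
  · intro i j
    exact (b2 i j).trans ((le_max_left _ _).trans hC12)
  · exact inv_bound _ hC11 (fun i j => (b2 i j).trans (le_max_left _ _))
  · intro i
    refine le_trans ?_ (b3 i)
    rw [hC00]
    exact inv_anti₀ (by linarith) hC12

end Pool.Agent.Lib.MP_41a456_al.TC
end

section

/-!
# MP_41a456_al, Theorem TC, K1b: left uniform continuity, asymptotic points

`unif_Cc`: for `f` with compact support `K` and a
compact neighbourhood `V = V⁻¹` of `1` in `SLr n`: for `g ∈ V`, `z ∉ V K` both values are 0, and on the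
compact set `V K` the continuous function `(g, z) ↦ f (g z) - f z` vanishes for `g = 1` (tube lemma).
`asym_of_tendsto`: `T^m (h y) = (b^m h b^{-m}) (b^m y)`. `continuous_tw_sup`: `unif_Cc` with
`u_ij(r) = u_ij(r - r0) u_ij(r0)`.
-/

namespace Pool.Agent.Lib.MP_41a456_al.TC

open Matrix MeasureTheory Filter Topology Pool.Agent.Lib.MP_41a456_al

open scoped CompactlySupported

theorem unif_Cc {n : ℕ} (f : C_c(X n, ℝ)) {ε : ℝ} (hε : 0 < ε) :
    ∀ᶠ g in 𝓝 (1 : SLr n), ∀ z, |f (g • z) - f z| ≤ ε := by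
  obtain ⟨V, hVc, hV⟩ := exists_compact_mem_nhds (1 : SLr n)
  have hK : IsCompact (tsupport f) := f.hasCompactSupport
  have hcont : Continuous fun p : SLr n × X n => p.1⁻¹ • p.2 := by fun_prop
  have hK' : IsCompact (tsupport f ∪ (fun p : SLr n × X n => p.1⁻¹ • p.2) '' (V ×ˢ tsupport f)) :=
    hK.union ((hVc.prod hK).image hcont)
  have hF : Continuous fun p : SLr n × X n => |f (p.1 • p.2) - f p.2| := by
    have h1 : Continuous fun p : SLr n × X n => f (p.1 • p.2) :=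
      f.continuous.comp continuous_smul
    have h2 : Continuous fun p : SLr n × X n => f p.2 := f.continuous.comp continuous_snd
    exact (h1.sub h2).abs
  have hev := hK'.eventually_forall_of_forall_eventually (x₀ := (1 : SLr n))
    (P := fun g z => |f (g • z) - f z| ≤ ε) (by
      intro y _
      have h1 : Tendsto (fun p : SLr n × X n => |f (p.1 • p.2) - f p.2|) (𝓝 (1, y)) (𝓝 0) := by
        have h2 := hF.tendsto ((1, y) : SLr n × X n)
        simpa using h2
      exact (h1.eventually (gt_mem_nhds hε)).mono fun p hp => hp.le)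
  filter_upwards [hev, hV] with g hg hgV z
  by_cases hz : z ∈ tsupport f ∪ (fun p : SLr n × X n => p.1⁻¹ • p.2) '' (V ×ˢ tsupport f)
  · exact hg z hz
  · rw [Set.mem_union, not_or] at hz
    have h1 : f z = 0 := image_eq_zero_of_notMem_tsupport hz.1
    have h2 : f (g • z) = 0 := by
      apply image_eq_zero_of_notMem_tsupport
      intro h3
      exact hz.2 ⟨(g, g • z), ⟨hgV, h3⟩, inv_smul_smul g z⟩
    rw [h1, h2, sub_zero, abs_zero]
    exact hε.le

private theorem hm_iter {n : ℕ} (b : SLr n) (m : ℕ) (y : X n) : (hm b)^[m] y = b ^ m • y := by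
  induction m generalizing y with
  | zero => simp
  | succ m ih =>
    rw [Function.iterate_succ_apply, ih, hm_apply, smul_smul, pow_succ]

theorem asym_of_tendsto {n : ℕ} (b h : SLr n)
    (hbh : Tendsto (fun m : ℕ => b ^ m * h * (b ^ m)⁻¹) atTop (𝓝 1)) (y : X n) :
    Asym (hm b) y (h • y) := by
  intro f
  rw [Metric.tendsto_nhds]
  intro ε hε
  filter_upwards [hbh.eventually (unif_Cc f (half_pos hε))] with m hm1
  have h1 := hm1 (b ^ m • y)
  have h2 : (b ^ m * h * (b ^ m)⁻¹) • b ^ m • y = b ^ m • h • y := by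
    rw [smul_smul, smul_smul, inv_mul_cancel_right]
  rw [h2] at h1
  rw [Real.dist_eq, sub_zero, hm_iter, hm_iter, abs_sub_comm]
  linarith

/-- `r ↦ f (u_ij(r) ·)` is continuous for the sup norm -/
theorem unif_uel {n : ℕ} (i j : Fin n) (f : C_c(X n, ℝ)) (r0 : ℝ) {ε : ℝ} (hε : 0 < ε) :
    ∀ᶠ r in 𝓝 r0, ∀ z, |f (uel i j r • z) - f (uel i j r0 • z)| ≤ ε := by
  have h1 : Tendsto (fun r : ℝ => uel i j (r - r0)) (𝓝 r0) (𝓝 (1 : SLr n)) := by
    have h2 : Continuous fun r : ℝ => uel i j (r - r0) :=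
      (continuous_uel i j).comp (continuous_id.sub continuous_const)
    have h3 := h2.tendsto r0
    rwa [sub_self, uel_zero] at h3
  filter_upwards [h1.eventually (unif_Cc f hε)] with r hr z
  have h4 := hr (uel i j r0 • z)
  rwa [smul_smul, ← uel_add, sub_add_cancel] at h4

end Pool.Agent.Lib.MP_41a456_al.TC
end

section

/-!
# MP_41a456_al, Theorem TC, K4: the smoothed measure of a root group and its kernel (paper 521, (11.2))

`MG μ i j` = law of `(u_ij(-s) z, s)`, `z ~ μ`, `s` uniform in `[0, 1]`; `KG` = conditional law of `s`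
given the first coordinate (`Measure.condKernel`). `MG_null`: if `μ B = 0` then
`MG {(y, s) : u(s) y ∈ B} = ∫ ds μ(B) = 0`. `ae_MG_iff`: definition of `map`. `ae_KG`: disintegration
(`Measure.disintegrate`, `Measure.ae_compProd_iff`): a property holds `MG`-a.e. iff for `MG.fst`-a.e. `y` it
holds for `KG y`-a.e. `q`; and a property of `y` which holds `MG.fst`-a.e. holds for `y = u(-s) z` for
`μ`-a.e. `z` and a.e. `s`.
-/

namespace Pool.Agent.Lib.MP_41a456_al.TC

open Matrix MeasureTheory Filter Topology Pool.Agent.Lib.MP_41a456_al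

open ProbabilityTheory

/-- law of `(u_ij(-s) z, s)` -/
noncomputable def MG {n : ℕ} (μ : Measure (X n)) (i j : Fin n) : Measure (X n × ℝ) :=
  (μ.prod (volume.restrict (Set.Icc (0 : ℝ) 1))).map fun zs => (uel i j (-zs.2) • zs.1, zs.2)

instance {n : ℕ} (μ : Measure (X n)) [IsFiniteMeasure μ] (i j : Fin n) :
    IsFiniteMeasure (MG μ i j) := by
  unfold MG
  infer_instance

/-- conditional law of `s` given `y` -/
noncomputable def KG {n : ℕ} (μ : Measure (X n)) [IsFiniteMeasure μ] (i j : Fin n) :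
    Kernel (X n) ℝ := (MG μ i j).condKernel

theorem measurable_uel_smul {n : ℕ} (i j : Fin n) :
    Measurable fun zs : X n × ℝ => uel i j zs.2 • zs.1 := by
  exact (((continuous_uel i j).comp continuous_snd).smul continuous_fst).measurable

theorem ae_MG_iff {n : ℕ} (μ : Measure (X n)) [IsFiniteMeasure μ] (i j : Fin n)
    {S : Set (X n × ℝ)} (hS : MeasurableSet S) :
    (∀ᵐ ys ∂(MG μ i j), ys ∈ S) ↔
      ∀ᵐ z ∂μ, ∀ᵐ s ∂(volume.restrict (Set.Icc (0 : ℝ) 1)), (uel i j (-s) • z, s) ∈ S := by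
  have hf : Measurable fun zs : X n × ℝ => (uel i j (-zs.2) • zs.1, zs.2) :=
    ((((continuous_uel i j).comp continuous_snd.neg).smul continuous_fst).measurable).prodMk
      measurable_snd
  rw [MG]
  refine (ae_map_iff (p := fun ys => ys ∈ S) hf.aemeasurable hS).trans ?_
  exact Measure.ae_prod_iff_ae_ae (hf hS)

theorem ae_MG_iff_KG {n : ℕ} (μ : Measure (X n)) [IsFiniteMeasure μ] (i j : Fin n)
    {S : Set (X n × ℝ)} (hS : MeasurableSet S) :
    (∀ᵐ ys ∂(MG μ i j), ys ∈ S) ↔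
      ∀ᵐ y ∂((MG μ i j).fst), ∀ᵐ q ∂(KG μ i j y), (y, q) ∈ S := by
  have h : (MG μ i j).fst ⊗ₘ (MG μ i j).condKernel = MG μ i j := Measure.disintegrate _ _
  conv_lhs => rw [← h]
  exact Measure.ae_compProd_iff hS

/-- properties of `y` which hold `MG.fst`-a.e. -/
theorem ae_fst_iff {n : ℕ} (μ : Measure (X n)) [IsFiniteMeasure μ] (i j : Fin n)
    {Y : Set (X n)} (hY : MeasurableSet Y) :
    (∀ᵐ y ∂((MG μ i j).fst), y ∈ Y) ↔
      ∀ᵐ z ∂μ, ∀ᵐ s ∂(volume.restrict (Set.Icc (0 : ℝ) 1)), uel i j (-s) • z ∈ Y := by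
  have h1 : (∀ᵐ y ∂((MG μ i j).fst), y ∈ Y) ↔
      ∀ᵐ ys ∂(MG μ i j), ys ∈ (Prod.fst ⁻¹' Y : Set (X n × ℝ)) := by
    rw [Measure.fst]
    exact ae_map_iff (p := fun y => y ∈ Y) measurable_fst.aemeasurable hY
  rw [h1, ae_MG_iff μ i j (measurable_fst hY)]
  rfl

/-- (11.2)(i) -/
theorem ae_KG_mem {n : ℕ} (μ : Measure (X n)) [IsFiniteMeasure μ] (i j : Fin n)
    {B : Set (X n)} (hB : MeasurableSet B) (hμ : μ Bᶜ = 0) :
    ∀ᵐ z ∂μ, ∀ᵐ s ∂(volume.restrict (Set.Icc (0 : ℝ) 1)),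
      ∀ᵐ q ∂(KG μ i j (uel i j (-s) • z)), uel i j (q - s) • z ∈ B := by
  have hS : MeasurableSet {ys : X n × ℝ | uel i j ys.2 • ys.1 ∈ B} :=
    measurable_uel_smul i j hB
  have h1 : ∀ᵐ ys ∂(MG μ i j), ys ∈ {ys : X n × ℝ | uel i j ys.2 • ys.1 ∈ B} := by
    rw [ae_MG_iff μ i j hS]
    have h2 : ∀ᵐ z ∂μ, z ∈ B := by
      rw [ae_iff]
      exact hμ
    filter_upwards [h2] with z hz
    refine Eventually.of_forall fun s => ?_
    rw [smul_smul, ← uel_add, add_neg_cancel, uel_zero, one_smul]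
    exact hz
  rw [ae_MG_iff_KG μ i j hS] at h1
  have hsf : IsSFiniteKernel (KG μ i j) := by
    unfold KG
    infer_instance
  have hY : MeasurableSet {y : X n | KG μ i j y {q : ℝ | ¬ uel i j q • y ∈ B} = 0} := by
    have h3 : Measurable fun y : X n => KG μ i j y
        (Prod.mk y ⁻¹' {ys : X n × ℝ | uel i j ys.2 • ys.1 ∈ B}ᶜ) :=
      Kernel.measurable_kernel_prodMk_left hS.compl
    exact h3 (measurableSet_singleton 0)
  have h4 : ∀ᵐ y ∂((MG μ i j).fst),
      y ∈ {y : X n | KG μ i j y {q : ℝ | ¬ uel i j q • y ∈ B} = 0} := by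
    filter_upwards [h1] with y hy
    exact hy
  rw [ae_fst_iff μ i j hY] at h4
  filter_upwards [h4] with z hz
  filter_upwards [hz] with s hs
  have h5 : ∀ᵐ q ∂(KG μ i j (uel i j (-s) • z)), uel i j q • uel i j (-s) • z ∈ B := hs
  filter_upwards [h5] with q hq
  rw [smul_smul, ← uel_add, ← sub_eq_add_neg] at hq
  exact hq

end Pool.Agent.Lib.MP_41a456_al.TC
end

section

section

/-!
# MP_41a456_al, Theorem TC, F1: a reduced basis

`Pool.Agent.Lib.MP_fdf47d_co.SD.exists_reduced_basis` (file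
`Pool/Agent/Lib/MP_fdf47d_co/SD/RB.lean`, proved by helper19, import it) applied to
`G = Fin n → ℤ`, `ν v = ‖g v‖` (`IsNL`): a basis `b` of `ℤ^n` with
`|coord_i x| ‖g b_i‖ ≤ C ‖g x‖` for integral `x`. The matrix `γ` with columns `b_i` has determinant
`±1`; replace `b_0` by `-b_0` if it is `-1` (`n = 0` is trivial). For rational vectors by scaling,
for real vectors by continuity (`⌊N v⌋ / N → v`).
-/

namespace Pool.Agent.Lib.MP_41a456_al.TC

open Matrix MeasureTheory Filter Topology Pool.Agent.Lib.MP_41a456_al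

private theorem c_mul {n : ℕ} (a b : SLr n) :
    ((a * b : SLr n) : Mr n) = (a : Mr n) * (b : Mr n) := rfl

private theorem c_inv {n : ℕ} (g : SLr n) : ((g⁻¹ : SLr n) : Mr n) * (g : Mr n) = 1 := by
  rw [← c_mul, inv_mul_cancel]
  rfl

/-- the norm of `g v` -/
private noncomputable def nu {n : ℕ} (g : SLr n) (v : Fin n → ℤ) : ℝ :=
  ‖(g : Mr n) *ᵥ fun i => (v i : ℝ)‖

private theorem isNL_nu {n : ℕ} (g : SLr n) : MP_fdf47d_co.SD.IsNL (nu g) := by
  refine ⟨fun x y => ?_, fun m x => ?_, fun t => ?_⟩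
  · unfold nu
    have h1 : (fun i => (((x + y) i : ℤ) : ℝ)) = (fun i => (x i : ℝ)) + fun i => (y i : ℝ) := by
      funext i
      simp
    rw [h1, mulVec_add]
    exact norm_add_le _ _
  · unfold nu
    have h1 : (fun i => (((m • x) i : ℤ) : ℝ)) = (m : ℝ) • fun i => (x i : ℝ) := by
      funext i
      simp
    rw [h1, mulVec_smul, norm_smul, Real.norm_eq_abs]
  · -- integral vectors in a bounded set
    set B : Fin n → ℤ := fun i => ⌈∑ j, |((g⁻¹ : SLr n) : Mr n) i j| * t⌉ with hB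
    refine Set.Finite.subset (Set.finite_Icc (-B) B) fun x hx => ?_
    have hx' : ‖(g : Mr n) *ᵥ fun i => (x i : ℝ)‖ ≤ t := hx
    have h1 : (fun i => (x i : ℝ)) =
        ((g⁻¹ : SLr n) : Mr n) *ᵥ ((g : Mr n) *ᵥ fun i => (x i : ℝ)) := by
      rw [mulVec_mulVec, c_inv, one_mulVec]
    have h2 : ∀ i, |(x i : ℝ)| ≤ ∑ j, |((g⁻¹ : SLr n) : Mr n) i j| * t := by
      intro i
      have h3 := congrFun h1 i
      rw [h3]
      unfold mulVec dotProduct
      refine (Finset.abs_sum_le_sum_abs _ _).trans (Finset.sum_le_sum fun j _ => ?_)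
      rw [abs_mul]
      exact mul_le_mul_of_nonneg_left ((norm_le_pi_norm _ j).trans hx') (abs_nonneg _)
    rw [Set.mem_Icc, Pi.le_def, Pi.le_def]
    constructor
    · intro i
      have h3 := (abs_le.1 (h2 i)).1
      have h4 := Int.le_ceil (∑ j, |((g⁻¹ : SLr n) : Mr n) i j| * t)
      have h5 : ((-B i : ℤ) : ℝ) ≤ x i := by
        push_cast
        linarith
      exact_mod_cast h5
    · intro i
      have h3 := (abs_le.1 (h2 i)).2
      have h4 := Int.le_ceil (∑ j, |((g⁻¹ : SLr n) : Mr n) i j| * t)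
      have h5 : ((x i : ℤ) : ℝ) ≤ (B i : ℤ) := by linarith
      exact_mod_cast h5

/-- a sign vector that makes the determinant `1` -/
private theorem exists_sign {n : ℕ} (hn : n ≠ 0) {γ0 : Mt n} (h : IsUnit γ0.det) :
    ∃ ε : Fin n → ℤ, (∀ i, ε i = 1 ∨ ε i = -1) ∧ (γ0 * diagonal ε).det = 1 := by
  rcases Int.isUnit_iff.1 h with h1 | h1
  · refine ⟨fun _ => 1, fun _ => Or.inl rfl, ?_⟩
    rw [det_mul, det_diagonal, h1]
    simp
  · refine ⟨Function.update (fun _ => 1) ⟨0, Nat.pos_of_ne_zero hn⟩ (-1), fun i => ?_, ?_⟩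
    · by_cases hi : i = ⟨0, Nat.pos_of_ne_zero hn⟩
      · right
        rw [hi, Function.update_self]
      · left
        rw [Function.update_of_ne hi]
    · rw [det_mul, det_diagonal, h1, Finset.prod_update_of_mem (Finset.mem_univ _)]
      simp

/-- from rational to real vectors -/
private theorem real_of_int {n : ℕ} (A : Mr n) (C a : ℝ) (i : Fin n)
    (h : ∀ w : Fin n → ℤ, |(w i : ℝ)| * a ≤ C * ‖A *ᵥ fun j => (w j : ℝ)‖) (v : Fin n → ℝ) :
    |v i| * a ≤ C * ‖A *ᵥ v‖ := by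
  have hq : ∀ q : Fin n → ℚ, |(q i : ℝ)| * a ≤ C * ‖A *ᵥ fun j => (q j : ℝ)‖ := by
    intro q
    set N : ℕ := ∏ j, (q j).den with hN
    have hN0 : N ≠ 0 := Finset.prod_ne_zero_iff.2 fun j _ => (q j).den_ne_zero
    have hNr : (0 : ℝ) < N := by exact_mod_cast Nat.pos_of_ne_zero hN0
    have hdvd : ∀ j, ∃ k : ℕ, N = (q j).den * k := fun j =>
      Finset.dvd_prod_of_mem (fun j => (q j).den) (Finset.mem_univ j)
    choose k hk using hdvd
    have hw : ∀ j, (((q j).num * (k j : ℤ) : ℤ) : ℝ) = N * (q j : ℝ) := by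
      intro j
      have h1 : (q j : ℝ) = (q j).num / (q j).den := Rat.cast_def (q j)
      have h2 : ((q j).den : ℝ) ≠ 0 := by exact_mod_cast (q j).den_ne_zero
      have h3 : (N : ℝ) = (q j).den * k j := by exact_mod_cast hk j
      rw [h1, h3]
      push_cast
      field_simp
    have h1 := h fun j => (q j).num * (k j : ℤ)
    have h2 : (fun j => (((q j).num * (k j : ℤ) : ℤ) : ℝ)) = (N : ℝ) • fun j => (q j : ℝ) := by
      funext j
      rw [hw j, Pi.smul_apply, smul_eq_mul]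
    rw [h2, mulVec_smul, norm_smul, hw i, abs_mul, Real.norm_eq_abs, abs_of_pos hNr] at h1
    have h3 : (N : ℝ) * (|(q i : ℝ)| * a) ≤ N * (C * ‖A *ᵥ fun j => (q j : ℝ)‖) := by linarith
    exact le_of_mul_le_mul_left h3 hNr
  have hclosed : IsClosed {v : Fin n → ℝ | |v i| * a ≤ C * ‖A *ᵥ v‖} := by
    refine isClosed_le (by fun_prop) ?_
    exact continuous_const.mul (continuous_const.matrix_mulVec continuous_id).norm
  have hdense : DenseRange (Pi.map fun (_ : Fin n) (q : ℚ) => (q : ℝ)) :=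
    DenseRange.piMap fun _ => Rat.denseRange_cast
  have hmem : v ∈ closure (Set.range (Pi.map fun (_ : Fin n) (q : ℚ) => (q : ℝ))) := hdense v
  have hsub : Set.range (Pi.map fun (_ : Fin n) (q : ℚ) => (q : ℝ)) ⊆
      {v : Fin n → ℝ | |v i| * a ≤ C * ‖A *ᵥ v‖} := by
    rintro _ ⟨q, rfl⟩
    exact hq q
  exact closure_minimal hsub hclosed hmem

theorem red_basis (n : ℕ) : ∃ C : ℝ, 1 ≤ C ∧ ∀ g : SLr n, ∃ γ : SLn n,
    ∀ (v : Fin n → ℝ) (i : Fin n), |v i| * ‖((g * iz n γ : SLr n) : Mr n) *ᵥ Pi.single i 1‖ ≤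
      C * ‖((g * iz n γ : SLr n) : Mr n) *ᵥ v‖ := by
  obtain ⟨C, hC1, hC⟩ := MP_fdf47d_co.SD.exists_reduced_basis n
  refine ⟨C, hC1, fun g => ?_⟩
  rcases Nat.eq_zero_or_pos n with hn | hn
  · subst hn
    exact ⟨1, fun v i => i.elim0⟩
  obtain ⟨b, hb⟩ := hC (Fin n → ℤ) (by rw [Module.finrank_fintype_fun_eq_card, Fintype.card_fin])
    (nu g) (isNL_nu g)
  -- the matrix with columns `b`
  set γ0 : Mt n := (Pi.basisFun ℤ (Fin n)).toMatrix b with hγ0
  have hγ0a : ∀ k j, γ0 k j = b j k := fun k j => by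
    rw [hγ0, Module.Basis.toMatrix_apply, Pi.basisFun_repr]
  have hunit : IsUnit γ0.det := by
    have : Invertible γ0 := Module.Basis.invertibleToMatrix _ _
    exact isUnit_det_of_invertible γ0
  obtain ⟨ε, hε, hdet⟩ := exists_sign hn.ne' hunit
  refine ⟨⟨γ0 * diagonal ε, hdet⟩, fun v i => ?_⟩
  set γ : SLn n := ⟨γ0 * diagonal ε, hdet⟩ with hγ
  -- integral vectors
  have hx : ∀ w : Fin n → ℤ, ((g * iz n γ : SLr n) : Mr n) *ᵥ (fun j => (w j : ℝ)) =
      (g : Mr n) *ᵥ fun k => (((∑ j, (ε j * w j) • b j) k : ℤ) : ℝ) := by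
    intro w
    rw [c_mul, ← mulVec_mulVec]
    congr 1
    funext k
    change ∑ j, (((γ0 * diagonal ε) k j : ℤ) : ℝ) * (w j : ℝ) = _
    rw [Finset.sum_apply]
    push_cast
    refine Finset.sum_congr rfl fun j _ => ?_
    rw [mul_diagonal, hγ0a, Pi.smul_apply, smul_eq_mul]
    push_cast
    ring
  have hei : ‖((g * iz n γ : SLr n) : Mr n) *ᵥ Pi.single i 1‖ = nu g (b i) := by
    have h1 : (Pi.single i 1 : Fin n → ℝ) = fun j => (((Pi.single i 1 : Fin n → ℤ) j : ℤ) : ℝ) := by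
      funext j
      by_cases hj : j = i
      · rw [hj, Pi.single_eq_same, Pi.single_eq_same, Int.cast_one]
      · rw [Pi.single_eq_of_ne hj, Pi.single_eq_of_ne hj, Int.cast_zero]
    rw [h1, hx]
    have h2 : ∑ j, (ε j * (Pi.single i 1 : Fin n → ℤ) j) • b j = ε i • b i := by
      rw [Finset.sum_eq_single i]
      · rw [Pi.single_eq_same, mul_one]
      · intro j _ hj
        rw [Pi.single_eq_of_ne hj, mul_zero, zero_smul]
      · intro h
        exact absurd (Finset.mem_univ i) h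
    rw [h2]
    have h3 := (isNL_nu g).zsmul (ε i) (b i)
    have h4 : |((ε i : ℤ) : ℝ)| = 1 := by
      rcases hε i with h | h <;> rw [h] <;> simp
    rw [h4, one_mul] at h3
    exact h3
  rw [hei]
  refine real_of_int _ C _ i (fun w => ?_) v
  rw [hx w]
  have h1 := hb (∑ j, (ε j * w j) • b j) i
  have h2 : b.repr (∑ j, (ε j * w j) • b j) i = ε i * w i := by
    have h3 := b.repr_sum_self fun j => ε j * w j
    exact congrFun h3 i
  rw [h2] at h1
  have h4 : |((ε i * w i : ℤ) : ℝ)| = |(w i : ℝ)| := by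
    rcases hε i with h | h <;> rw [h] <;> simp
  rw [h4] at h1
  exact h1

end Pool.Agent.Lib.MP_41a456_al.TC
end

section

/-!
# MP_41a456_al, Theorem TC, F1b: product of the column norms

`prod_cols_ge`: `1 = |det| ≤ n! ∏ ‖column‖` for the sup norm (Leibniz formula).
`prod_cols_le`: `v = B⁻¹ e_j` gives `|(B⁻¹) i j| ‖B e_i‖ ≤ C`, so
`1 = |det B⁻¹| ≤ n! ∏ (C / ‖B e_i‖)` (the columns of `B` are not 0).
-/

namespace Pool.Agent.Lib.MP_41a456_al.TC

open Matrix MeasureTheory Filter Topology Pool.Agent.Lib.MP_41a456_al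

private theorem abs_det_le {n : ℕ} (A : Mr n) (c : Fin n → ℝ) (h : ∀ i j, |A i j| ≤ c j) :
    |A.det| ≤ (n.factorial : ℝ) * ∏ j, c j := by
  rw [Matrix.det_apply]
  refine (Finset.abs_sum_le_sum_abs _ _).trans ?_
  have h1 : ∀ σ ∈ (Finset.univ : Finset (Equiv.Perm (Fin n))),
      |Equiv.Perm.sign σ • ∏ i, A (σ i) i| ≤ ∏ j, c j := by
    intro σ _
    have h2 : |Equiv.Perm.sign σ • ∏ i, A (σ i) i| = |∏ i, A (σ i) i| := by
      rcases Int.units_eq_one_or (Equiv.Perm.sign σ) with hs | hs <;> rw [hs] <;> simp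
    rw [h2, Finset.abs_prod]
    exact Finset.prod_le_prod (fun i _ => abs_nonneg _) fun i _ => h _ _
  refine (Finset.sum_le_card_nsmul _ _ _ h1).trans ?_
  rw [Finset.card_univ, Fintype.card_perm, Fintype.card_fin, nsmul_eq_mul]

theorem prod_cols_ge (n : ℕ) (B : SLr n) :
    1 ≤ (n.factorial : ℝ) * ∏ i, ‖(B : Mr n) *ᵥ Pi.single i 1‖ := by
  have h := abs_det_le (B : Mr n) (fun i => ‖(B : Mr n) *ᵥ Pi.single i 1‖) (by
    intro i j
    have h1 := norm_le_pi_norm ((B : Mr n) *ᵥ Pi.single j 1) i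
    simpa [Matrix.mulVec_single] using h1)
  rwa [B.2, abs_one] at h

theorem prod_cols_le {n : ℕ} {C : ℝ} (hC : 1 ≤ C) (B : SLr n)
    (h : ∀ (v : Fin n → ℝ) (i : Fin n), |v i| * ‖(B : Mr n) *ᵥ Pi.single i 1‖ ≤
      C * ‖(B : Mr n) *ᵥ v‖) :
    ∏ i, ‖(B : Mr n) *ᵥ Pi.single i 1‖ ≤ (n.factorial : ℝ) * C ^ n := by
  have hB1 : ((B⁻¹ : SLr n) : Mr n) * (B : Mr n) = 1 :=
    congrArg Subtype.val (inv_mul_cancel B)
  have hB2 : (B : Mr n) * ((B⁻¹ : SLr n) : Mr n) = 1 :=
    congrArg Subtype.val (mul_inv_cancel B)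
  have hpos : ∀ i, 0 < ‖(B : Mr n) *ᵥ Pi.single i 1‖ := by
    intro i
    rw [norm_pos_iff]
    intro h0
    have h1 : ((B⁻¹ : SLr n) : Mr n) *ᵥ ((B : Mr n) *ᵥ Pi.single i 1) = Pi.single i 1 := by
      rw [mulVec_mulVec, hB1, one_mulVec]
    rw [h0, mulVec_zero] at h1
    have := congrFun h1 i
    simp at this
  have h2 := abs_det_le (((B⁻¹ : SLr n) : Mr n)ᵀ) (fun i => C / ‖(B : Mr n) *ᵥ Pi.single i 1‖) (by
    intro j i
    rw [transpose_apply, le_div_iff₀ (hpos i)]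
    have h3 := h (((B⁻¹ : SLr n) : Mr n) *ᵥ Pi.single j 1) i
    rw [mulVec_mulVec, hB2, one_mulVec] at h3
    have h4 : ‖(Pi.single j 1 : Fin n → ℝ)‖ ≤ 1 := by
      rw [pi_norm_le_iff_of_nonneg zero_le_one]
      intro l
      by_cases hl : l = j
      · subst hl; simp
      · simp [hl]
    have h5 : (((B⁻¹ : SLr n) : Mr n) *ᵥ Pi.single j 1) i = ((B⁻¹ : SLr n) : Mr n) i j := by
      simp [Matrix.mulVec_single]
    rw [h5] at h3
    nlinarith)
  rw [det_transpose, (B⁻¹).2, abs_one, Finset.prod_div_distrib, Finset.prod_const,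
    Finset.card_univ, Fintype.card_fin] at h2
  have h6 : 0 < ∏ i, ‖(B : Mr n) *ᵥ Pi.single i 1‖ := Finset.prod_pos fun i _ => hpos i
  rw [← mul_div_assoc, le_div_iff₀ h6, one_mul] at h2
  exact h2

end Pool.Agent.Lib.MP_41a456_al.TC
end
end

section

section

/-!
# MP_41a456_al, Theorem TC, F3: the Margulis inequality, counting of digits (paper 521, section 6)

`P = {0, …, Λ - 1}^m`, `n = m + 1`, `β = (3 n - 2) / 4 < m`, `α = lam ^ (-β)`,
`wp w p = W u(p/Λ)⁻¹ w = (Λ^{-m/n} w_0, Λ^{1/n} (w_j - w_0 p_j / Λ))`.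
-/

namespace Pool.Agent.Lib.MP_41a456_al.TC

open Matrix MeasureTheory Filter Topology Pool.Agent.Lib.MP_41a456_al

/-- `u(p/Λ)` -/
noncomputable def up {m : ℕ} (Λ : ℕ) (p : Fin m → Fin Λ) : SLr (m + 1) :=
  ucol fun j => ((p j : ℕ) : ℝ) / Λ

/-- the vector `W u(p/Λ)⁻¹ w` -/
noncomputable def wp {m : ℕ} (Λ : ℕ) (p : Fin m → Fin Λ) (w : Fin (m + 1) → ℝ) :
    Fin (m + 1) → ℝ :=
  ((W Λ (0 : Fin (m + 1)) * (up Λ p)⁻¹ : SLr (m + 1)) : Mr (m + 1)) *ᵥ w

private theorem ucol_mv {m : ℕ} (v : Fin m → ℝ) (z : Fin (m + 1) → ℝ) :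
    ((ucol v : SLr (m + 1)) : Mr (m + 1)) *ᵥ z = fun i => z i + z 0 * (Fin.cons 0 v : Fin (m + 1) → ℝ) i := by
  change (1 + vecMulVec (Fin.cons 0 v : Fin (m + 1) → ℝ) (Pi.single 0 1)) *ᵥ z = _
  rw [add_mulVec, one_mulVec]
  funext i
  rw [Pi.add_apply]
  congr 1
  simp only [mulVec, dotProduct, vecMulVec_apply]
  rw [Finset.sum_eq_single (0 : Fin (m + 1))]
  · simp [mul_comm]
  · intro j _ hj
    simp [Pi.single_apply, hj]
  · intro h
    exact absurd (Finset.mem_univ _) h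

private theorem up_inv_mv {m : ℕ} (v : Fin m → ℝ) (w : Fin (m + 1) → ℝ) :
    (((ucol v)⁻¹ : SLr (m + 1)) : Mr (m + 1)) *ᵥ w =
      Fin.cons (w 0) fun j : Fin m => w j.succ - w 0 * v j := by
  have h1 : ((ucol v : SLr (m + 1)) : Mr (m + 1)) *ᵥ
      (Fin.cons (w 0) fun j : Fin m => w j.succ - w 0 * v j) = w := by
    rw [ucol_mv]
    funext i
    refine Fin.cases ?_ (fun j => ?_) i
    · simp
    · simp
  have h2 : (((ucol v)⁻¹ : SLr (m + 1)) : Mr (m + 1)) *ᵥ (((ucol v : SLr (m + 1)) : Mr (m + 1)) *ᵥ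
      (Fin.cons (w 0) fun j : Fin m => w j.succ - w 0 * v j)) =
      Fin.cons (w 0) fun j : Fin m => w j.succ - w 0 * v j := by
    rw [mulVec_mulVec, ← Matrix.SpecialLinearGroup.coe_mul, inv_mul_cancel,
      Matrix.SpecialLinearGroup.coe_one, one_mulVec]
  rw [h1] at h2
  exact h2

theorem wp_apply {m : ℕ} {Λ : ℕ} (hΛ : 1 ≤ Λ) (p : Fin m → Fin Λ) (w : Fin (m + 1) → ℝ) :
    wp Λ p w = Fin.cons ((Λ : ℝ) ^ (-(m : ℝ) / (m + 1)) * w 0) fun j : Fin m =>
      (Λ : ℝ) ^ (1 / ((m : ℝ) + 1)) * (w j.succ - w 0 * (((p j : ℕ) : ℝ) / Λ)) := by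
  have hΛ0 : (0 : ℝ) < Λ := by exact_mod_cast hΛ
  have hm : (0 : ℝ) < (m : ℝ) + 1 := by positivity
  unfold wp up
  rw [Matrix.SpecialLinearGroup.coe_mul, ← mulVec_mulVec, up_inv_mv]
  have hW : ((W Λ (0 : Fin (m + 1)) : SLr (m + 1)) : Mr (m + 1)) =
      diagonal fun i => Real.exp ((Pi.single (0 : Fin (m + 1)) (-Real.log Λ) : Fin (m + 1) → ℝ) i -
        (∑ j, (Pi.single (0 : Fin (m + 1)) (-Real.log Λ) : Fin (m + 1) → ℝ) j) /
          ((m + 1 : ℕ) : ℝ)) := rfl
  rw [hW, Finset.sum_pi_single']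
  funext i
  rw [mulVec_diagonal]
  refine Fin.cases ?_ (fun j => ?_) i
  · simp only [Pi.single_eq_same, Finset.mem_univ, if_true, Fin.cons_zero]
    rw [Real.rpow_def_of_pos hΛ0]
    congr 2
    push_cast
    field_simp
    ring
  · simp only [Finset.mem_univ, if_true, Fin.cons_succ]
    rw [Real.rpow_def_of_pos hΛ0, Pi.single_eq_of_ne (Fin.succ_ne_zero j)]
    congr 2
    push_cast
    field_simp
    ring

private theorem wp_zero {m : ℕ} {Λ : ℕ} (hΛ : 1 ≤ Λ) (p : Fin m → Fin Λ) (w : Fin (m + 1) → ℝ) :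
    |w 0| ≤ (Λ : ℝ) ^ ((m : ℝ) / (m + 1)) * ‖wp Λ p w‖ := by
  have hΛ0 : (0 : ℝ) < Λ := by exact_mod_cast hΛ
  have h1 : |wp Λ p w 0| ≤ ‖wp Λ p w‖ := norm_le_pi_norm (wp Λ p w) 0
  rw [wp_apply hΛ p w, Fin.cons_zero, abs_mul, abs_of_pos (Real.rpow_pos_of_pos hΛ0 _)] at h1
  rw [← wp_apply hΛ p w] at h1
  have h2 := mul_le_mul_of_nonneg_left h1 (Real.rpow_pos_of_pos hΛ0 ((m : ℝ) / (m + 1))).le
  rw [← mul_assoc, ← Real.rpow_add hΛ0] at h2
  have h3 : (m : ℝ) / (m + 1) + -(m : ℝ) / (m + 1) = 0 := by ring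
  rw [h3, Real.rpow_zero, one_mul] at h2
  exact h2

private theorem wp_succ {m : ℕ} {Λ : ℕ} (hΛ : 1 ≤ Λ) (p : Fin m → Fin Λ) (w : Fin (m + 1) → ℝ)
    (j : Fin m) :
    |w j.succ - w 0 * (((p j : ℕ) : ℝ) / Λ)| ≤
      (Λ : ℝ) ^ (-(1 / ((m : ℝ) + 1))) * ‖wp Λ p w‖ := by
  have hΛ0 : (0 : ℝ) < Λ := by exact_mod_cast hΛ
  have h1 : |wp Λ p w j.succ| ≤ ‖wp Λ p w‖ := norm_le_pi_norm (wp Λ p w) j.succ
  rw [wp_apply hΛ p w, Fin.cons_succ, abs_mul, abs_of_pos (Real.rpow_pos_of_pos hΛ0 _)] at h1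
  rw [← wp_apply hΛ p w] at h1
  have h2 := mul_le_mul_of_nonneg_left h1
    (Real.rpow_pos_of_pos hΛ0 (-(1 / ((m : ℝ) + 1)))).le
  rw [← mul_assoc, ← Real.rpow_add hΛ0] at h2
  have h3 : -(1 / ((m : ℝ) + 1)) + 1 / ((m : ℝ) + 1) = 0 := by ring
  rw [h3, Real.rpow_zero, one_mul] at h2
  exact h2

private theorem dig_le {Λ : ℕ} (hΛ : 1 ≤ Λ) (q : Fin Λ) : 0 ≤ ((q : ℕ) : ℝ) / Λ ∧
    ((q : ℕ) : ℝ) / Λ ≤ 1 := by
  have hΛ0 : (0 : ℝ) < Λ := by exact_mod_cast hΛ
  refine ⟨by positivity, ?_⟩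
  rw [div_le_one hΛ0]
  exact_mod_cast q.2.le

private theorem succ_le {m : ℕ} {Λ : ℕ} (hΛ : 1 ≤ Λ) (p : Fin m → Fin Λ) (w : Fin (m + 1) → ℝ)
    (j : Fin m) :
    |w j.succ| ≤ (Λ : ℝ) ^ (-(1 / ((m : ℝ) + 1))) * ‖wp Λ p w‖ + |w 0| := by
  have h1 := wp_succ hΛ p w j
  have h2 := dig_le hΛ (p j)
  have h3 : |w 0 * (((p j : ℕ) : ℝ) / Λ)| ≤ |w 0| := by
    rw [abs_mul, abs_of_nonneg h2.1]
    exact mul_le_of_le_one_right (abs_nonneg _) h2.2
  have h4 : w j.succ = (w j.succ - w 0 * (((p j : ℕ) : ℝ) / Λ)) + w 0 * (((p j : ℕ) : ℝ) / Λ) := by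
    ring
  rw [h4]
  exact (abs_add_le _ _).trans (add_le_add h1 h3)

private theorem card_nat_le (T : Finset ℕ) (D : ℝ) (hD : 0 ≤ D)
    (h : ∀ a ∈ T, ∀ b ∈ T, (b : ℝ) - a ≤ D) : (T.card : ℝ) ≤ D + 1 := by
  rcases T.eq_empty_or_nonempty with rfl | hT
  · simp
    linarith
  · have h1 : T ⊆ Finset.Icc (T.min' hT) (T.max' hT) := fun x hx =>
      Finset.mem_Icc.2 ⟨Finset.min'_le _ _ hx, Finset.le_max' _ _ hx⟩
    have h2 := Finset.card_le_card h1
    rw [Nat.card_Icc] at h2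
    have h3 := h _ (Finset.min'_mem T hT) _ (Finset.max'_mem T hT)
    have h4 : T.min' hT ≤ T.max' hT := Finset.min'_le _ _ (Finset.max'_mem T hT)
    have h5 : (T.card : ℝ) ≤ ((T.max' hT + 1 - T.min' hT : ℕ) : ℝ) := by exact_mod_cast h2
    rw [Nat.cast_sub (by omega)] at h5
    push_cast at h5
    linarith

/-- If `‖w_p‖ ≤ ρ` then `‖w‖ ≤ 2 Λ^{m/n} ρ`. -/
theorem norm_le_of_wp {m : ℕ} {Λ : ℕ} (hΛ : 1 ≤ Λ) (p : Fin m → Fin Λ) (w : Fin (m + 1) → ℝ) :
    ‖w‖ ≤ 2 * (Λ : ℝ) ^ ((m : ℝ) / (m + 1)) * ‖wp Λ p w‖ := by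
  have hΛ1 : (1 : ℝ) ≤ Λ := by exact_mod_cast hΛ
  have hm : (0 : ℝ) < (m : ℝ) + 1 := by positivity
  have h0 := wp_zero hΛ p w
  have hn := norm_nonneg (wp Λ p w)
  have e1 : (Λ : ℝ) ^ (-(1 / ((m : ℝ) + 1))) ≤ 1 :=
    Real.rpow_le_one_of_one_le_of_nonpos hΛ1 (by rw [neg_nonpos]; positivity)
  have e2 : 1 ≤ (Λ : ℝ) ^ ((m : ℝ) / (m + 1)) := Real.one_le_rpow hΛ1 (by positivity)
  refine (pi_norm_le_iff_of_nonneg (by positivity)).2 fun i => ?_
  rw [Real.norm_eq_abs]
  refine Fin.cases ?_ (fun j => ?_) i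
  · nlinarith
  · have h1 := succ_le hΛ p w j
    have h2 : (Λ : ℝ) ^ (-(1 / ((m : ℝ) + 1))) * ‖wp Λ p w‖ ≤
        (Λ : ℝ) ^ ((m : ℝ) / (m + 1)) * ‖wp Λ p w‖ :=
      mul_le_mul_of_nonneg_right (e1.trans e2) hn
    linarith

/-- The number of `p` with `‖w_p‖ ≤ ρ` is at most `(6 Λ^{m/n} ρ / ‖w‖)^m`. If
`|w_0| ≥ ρ Λ^{-1/n}`, then `‖w‖ ≤ 2 |w_0|` and there are at most
`2 Λ^{m/n} ρ / |w_0| + 1 ≤ 3 Λ^{m/n} ρ / |w_0|` values of `p_j` (as `|w_0| ≤ Λ^{m/n} ρ`);
otherwise `‖w‖ ≤ 2 ρ Λ^{-1/n}` (if there is such a `p`) and the bound is `≥ Λ^m`. -/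
theorem card_wp_le {m : ℕ} {Λ : ℕ} (hΛ : 1 ≤ Λ) (w : Fin (m + 1) → ℝ) (hw : w ≠ 0) (ρ : ℝ)
    (hρ : 0 < ρ) :
    (((Finset.univ : Finset (Fin m → Fin Λ)).filter fun p => ‖wp Λ p w‖ ≤ ρ).card : ℝ) ≤
      (6 * (Λ : ℝ) ^ ((m : ℝ) / (m + 1)) * ρ / ‖w‖) ^ m := by
  have hΛ1 : (1 : ℝ) ≤ Λ := by exact_mod_cast hΛ
  have hΛ0 : (0 : ℝ) < Λ := by linarith
  have hm : (0 : ℝ) < (m : ℝ) + 1 := by positivity
  have hwn : 0 < ‖w‖ := norm_pos_iff.2 hw
  set L : ℝ := (Λ : ℝ) ^ ((m : ℝ) / (m + 1)) with hL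
  set K : ℝ := (Λ : ℝ) ^ (-(1 / ((m : ℝ) + 1))) with hK
  have hL0 : 0 < L := Real.rpow_pos_of_pos hΛ0 _
  have hK0 : 0 < K := Real.rpow_pos_of_pos hΛ0 _
  have hLK : L = Λ * K := by
    rw [hL, hK]
    nth_rewrite 2 [← Real.rpow_one (Λ : ℝ)]
    rw [← Real.rpow_add hΛ0]
    congr 1
    field_simp
    ring
  set S := (Finset.univ : Finset (Fin m → Fin Λ)).filter fun p => ‖wp Λ p w‖ ≤ ρ with hS
  rcases S.eq_empty_or_nonempty with h0 | ⟨p0, hp0⟩
  · rw [h0]
    simp only [Finset.card_empty, Nat.cast_zero]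
    positivity
  have hp0' : ‖wp Λ p0 w‖ ≤ ρ := (Finset.mem_filter.1 hp0).2
  have hz : |w 0| ≤ L * ρ :=
    (wp_zero hΛ p0 w).trans (mul_le_mul_of_nonneg_left hp0' hL0.le)
  have hsucc : ∀ j : Fin m, |w j.succ| ≤ K * ρ + |w 0| := fun j =>
    (succ_le hΛ p0 w j).trans (add_le_add (mul_le_mul_of_nonneg_left hp0' hK0.le) le_rfl)
  by_cases hc : K * ρ ≤ |w 0|
  · have hw0 : 0 < |w 0| := lt_of_lt_of_le (by positivity) hc
    have hnorm : ‖w‖ ≤ 2 * |w 0| := by
      refine (pi_norm_le_iff_of_nonneg (by positivity)).2 fun i => ?_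
      rw [Real.norm_eq_abs]
      refine Fin.cases ?_ (fun j => ?_) i
      · linarith
      · have := hsucc j
        linarith
    set T : Fin m → Finset (Fin Λ) := fun j =>
      Finset.univ.filter fun q : Fin Λ => |w j.succ - w 0 * (((q : ℕ) : ℝ) / Λ)| ≤ K * ρ with hT
    have hsub : S ⊆ Fintype.piFinset T := by
      intro p hp
      rw [Fintype.mem_piFinset]
      intro j
      rw [hT]
      refine Finset.mem_filter.2 ⟨Finset.mem_univ _, ?_⟩
      exact (wp_succ hΛ p w j).trans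
        (mul_le_mul_of_nonneg_left (Finset.mem_filter.1 hp).2 hK0.le)
    have hcard : ∀ j, ((T j).card : ℝ) ≤ 6 * L * ρ / ‖w‖ := by
      intro j
      have h1 : ((T j).card : ℝ) ≤ 2 * L * ρ / |w 0| + 1 := by
        have h2 : (((T j).map Fin.valEmbedding).card : ℝ) ≤ 2 * L * ρ / |w 0| + 1 := by
          refine card_nat_le _ _ (by positivity) ?_
          intro a ha b hb
          obtain ⟨qa, hqa, rfl⟩ := Finset.mem_map.1 ha
          obtain ⟨qb, hqb, rfl⟩ := Finset.mem_map.1 hb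
          have h3 := (Finset.mem_filter.1 hqa).2
          have h4 := (Finset.mem_filter.1 hqb).2
          change ((qb : ℕ) : ℝ) - ((qa : ℕ) : ℝ) ≤ _
          rw [le_div_iff₀ hw0]
          have h5 : |w 0 * (((qb : ℕ) : ℝ) / Λ) - w 0 * (((qa : ℕ) : ℝ) / Λ)| ≤
              K * ρ + K * ρ := by
            have h6 : w 0 * (((qb : ℕ) : ℝ) / Λ) - w 0 * (((qa : ℕ) : ℝ) / Λ) =
                (w j.succ - w 0 * (((qa : ℕ) : ℝ) / Λ)) -
                  (w j.succ - w 0 * (((qb : ℕ) : ℝ) / Λ)) := by ring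
            rw [h6]
            exact (abs_sub _ _).trans (add_le_add h3 h4)
          have h7 : w 0 * (((qb : ℕ) : ℝ) / Λ) - w 0 * (((qa : ℕ) : ℝ) / Λ) =
              w 0 * ((((qb : ℕ) : ℝ) - ((qa : ℕ) : ℝ)) / Λ) := by ring
          rw [h7, abs_mul, abs_div, abs_of_pos hΛ0] at h5
          have h8 : |w 0| * |((qb : ℕ) : ℝ) - ((qa : ℕ) : ℝ)| ≤ Λ * (K * ρ + K * ρ) := by
            have h9 := mul_le_mul_of_nonneg_left h5 hΛ0.le
            calc |w 0| * |((qb : ℕ) : ℝ) - ((qa : ℕ) : ℝ)|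
                = Λ * (|w 0| * (|((qb : ℕ) : ℝ) - ((qa : ℕ) : ℝ)| / Λ)) := by
                  field_simp
              _ ≤ _ := h9
          have h10 := le_abs_self (((qb : ℕ) : ℝ) - ((qa : ℕ) : ℝ))
          have h11 := mul_le_mul_of_nonneg_left h10 hw0.le
          rw [hLK]
          linarith
        rw [Finset.card_map] at h2
        exact h2
      have h2 : 1 ≤ L * ρ / |w 0| := by rw [le_div_iff₀ hw0]; linarith
      have h3 : 2 * L * ρ / |w 0| + 1 ≤ 3 * (L * ρ / |w 0|) := by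
        have : 2 * L * ρ / |w 0| = 2 * (L * ρ / |w 0|) := by ring
        rw [this]
        linarith
      have h4 : 3 * (L * ρ / |w 0|) ≤ 6 * L * ρ / ‖w‖ := by
        rw [← mul_div_assoc, div_le_div_iff₀ hw0 hwn]
        have : 0 < L * ρ := by positivity
        nlinarith
      linarith
    have h1 : (S.card : ℝ) ≤ ∏ j, ((T j).card : ℝ) := by
      have h2 := Finset.card_le_card hsub
      rw [Fintype.card_piFinset] at h2
      exact_mod_cast h2
    refine h1.trans ?_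
    have h2 := Finset.prod_le_prod (s := (Finset.univ : Finset (Fin m)))
      (f := fun j => ((T j).card : ℝ)) (g := fun _ => 6 * L * ρ / ‖w‖)
      (fun j _ => Nat.cast_nonneg _) (fun j _ => hcard j)
    refine h2.trans (le_of_eq ?_)
    rw [Finset.prod_const, Finset.card_univ, Fintype.card_fin]
  · have hc' := not_le.1 hc
    have hnorm : ‖w‖ ≤ 2 * (K * ρ) := by
      refine (pi_norm_le_iff_of_nonneg (by positivity)).2 fun i => ?_
      rw [Real.norm_eq_abs]
      have hKρ : 0 < K * ρ := by positivity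
      refine Fin.cases ?_ (fun j => ?_) i
      · linarith
      · have := hsucc j
        linarith
    have h1 : (Λ : ℝ) ≤ 6 * L * ρ / ‖w‖ := by
      rw [le_div_iff₀ hwn, hLK]
      have h2 := mul_le_mul_of_nonneg_left hnorm hΛ0.le
      have h3 : 0 < Λ * K * ρ := by positivity
      nlinarith
    have h2 : (S.card : ℝ) ≤ (Λ : ℝ) ^ m := by
      have h3 := Finset.card_le_univ S
      rw [Fintype.card_fun, Fintype.card_fin, Fintype.card_fin] at h3
      exact_mod_cast h3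
    exact h2.trans (pow_le_pow_left₀ hΛ0.le h1 m)

end Pool.Agent.Lib.MP_41a456_al.TC
end

section

/-!
# MP_41a456_al, Theorem TC, A5: the height function `alf`

`alf = lam ^ (-β)`, `β > 0`. `‖u(v)⁻¹ w‖ ≤ (1 + ‖v‖) ‖w‖`, the smallest entry of `W` is
`Λ^{-m/n} ≥ Λ⁻¹`, the entries `exp (a i - mean)` of `ex a` are at least `exp (-D)`; use
`lam_smul_ge`.
-/

namespace Pool.Agent.Lib.MP_41a456_al.TC

open Matrix MeasureTheory Filter Topology Pool.Agent.Lib.MP_41a456_al

variable {n : ℕ}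

theorem A5.bet_pos (hn : 0 < n) : 0 < bet n := by
  have h : (1 : ℝ) ≤ n := by exact_mod_cast hn
  unfold bet
  linarith

/-- `alf` is continuous and positive -/
theorem continuous_alf (hn : 0 < n) : Continuous (alf : X n → ℝ) := by
  unfold alf
  exact (continuous_lam hn).rpow_const fun y => Or.inl (lam_pos hn y).ne'

theorem alf_pos (hn : 0 < n) (y : X n) : 0 < alf y := Real.rpow_pos_of_pos (lam_pos hn y) _

theorem one_le_alf (hn : 0 < n) (y : X n) : 1 ≤ alf y :=
  Real.one_le_rpow_of_pos_of_le_one_of_nonpos (lam_pos hn y) (lam_le_one hn y)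
    (neg_nonpos.2 (A5.bet_pos hn).le)

theorem A5.alf_smul_le (hn : 0 < n) (y : X n) (g : SLr n) {C : ℝ} (hC : 0 < C)
    (h : ∀ w : Fin n → ℝ, ‖w‖ ≤ C * ‖(g : Mr n) *ᵥ w‖) : alf (g • y) ≤ C ^ bet n * alf y := by
  have h1 := lam_smul_ge hn y g hC h
  have h2 := lam_pos hn y
  have h3 : lam y / C ≤ lam (g • y) := by
    rw [div_le_iff₀ hC]
    linarith
  have h4 := Real.rpow_le_rpow_of_nonpos (div_pos h2 hC) h3
    (neg_nonpos.2 (A5.bet_pos hn).le)
  rw [Real.div_rpow h2.le hC.le, Real.rpow_neg hC.le, div_inv_eq_mul] at h4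
  unfold alf
  linarith

/-- `alf (u(v) y) ≤ (1 + |v|)^β alf y` -/
theorem alf_ucol_le {m : ℕ} (v : Fin m → ℝ) (y : X (m + 1)) :
    alf (ucol v • y) ≤ (1 + ‖v‖) ^ (bet (m + 1)) * alf y := by
  have hv : 0 ≤ ‖v‖ := norm_nonneg v
  refine A5.alf_smul_le (Nat.succ_pos m) y _ (by linarith) fun w => ?_
  rw [ucol_mulVec]
  set u : Fin (m + 1) → ℝ := Fin.cons (w 0) fun j : Fin m => w j.succ + v j * w 0 with hu
  have h0 : |w 0| ≤ ‖u‖ := norm_le_pi_norm u 0
  have hu0 : 0 ≤ ‖u‖ := norm_nonneg u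
  rw [pi_norm_le_iff_of_nonneg (by positivity)]
  intro i
  refine Fin.cases ?_ (fun j => ?_) i
  · rw [Real.norm_eq_abs]
    nlinarith
  · have h1 : |w j.succ + v j * w 0| ≤ ‖u‖ := norm_le_pi_norm u j.succ
    have h2 : |v j| ≤ ‖v‖ := norm_le_pi_norm v j
    rw [Real.norm_eq_abs]
    have h3 : |w j.succ| ≤ |w j.succ + v j * w 0| + |v j| * |w 0| := by
      rw [← abs_mul]
      calc |w j.succ| = |(w j.succ + v j * w 0) - v j * w 0| := by ring_nf
        _ ≤ _ := abs_sub _ _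
    have h4 : |v j| * |w 0| ≤ ‖v‖ * ‖u‖ := mul_le_mul h2 h0 (abs_nonneg _) hv
    linarith

/-- `alf (e^a y) ≤ exp (β D) alf y` if the differences of the coordinates of `a` are at most `D` -/
theorem alf_ex_le {m : ℕ} (a : Fin (m + 1) → ℝ) {D : ℝ} (hD : ∀ i j, a i - a j ≤ D)
    (y : X (m + 1)) : alf (ex a • y) ≤ Real.exp (bet (m + 1) * D) * alf y := by
  have key := A5.alf_smul_le (Nat.succ_pos m) y (ex a) (Real.exp_pos D) (fun w => ?_)
  · rwa [← Real.exp_mul, mul_comm D] at key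
  · rw [ex_coe, pi_norm_le_iff_of_nonneg (by positivity)]
    intro i
    set u := diagonal (fun i => Real.exp (a i - (∑ j, a j) / ((m + 1 : ℕ) : ℝ))) *ᵥ w with hu
    have h1 : ‖u i‖ ≤ ‖u‖ := norm_le_pi_norm u i
    have h2 : u i = Real.exp (a i - (∑ j, a j) / ((m + 1 : ℕ) : ℝ)) * w i := by
      rw [hu, mulVec_diagonal]
    have h3 : (∑ j, a j) / ((m + 1 : ℕ) : ℝ) - a i ≤ D := by
      have h4 : ∑ j, a j ≤ ∑ j : Fin (m + 1), (a i + D) :=
        Finset.sum_le_sum fun j _ => by linarith [hD j i]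
      rw [Finset.sum_const, Finset.card_univ, Fintype.card_fin, nsmul_eq_mul] at h4
      have h5 : (0 : ℝ) < ((m + 1 : ℕ) : ℝ) := by positivity
      have h6 : (∑ j, a j) / ((m + 1 : ℕ) : ℝ) ≤ a i + D := by
        rw [div_le_iff₀ h5]
        linarith
      linarith
    have h4 : 1 ≤ Real.exp D * Real.exp (a i - (∑ j, a j) / ((m + 1 : ℕ) : ℝ)) := by
      rw [← Real.exp_add]
      exact Real.one_le_exp (by linarith)
    calc ‖w i‖ = 1 * ‖w i‖ := (one_mul _).symm
      _ ≤ (Real.exp D * Real.exp (a i - (∑ j, a j) / ((m + 1 : ℕ) : ℝ))) * ‖w i‖ :=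
        mul_le_mul_of_nonneg_right h4 (norm_nonneg _)
      _ = Real.exp D * ‖u i‖ := by
        rw [h2, norm_mul, Real.norm_eq_abs (Real.exp _), Real.abs_exp]
        ring
      _ ≤ _ := mul_le_mul_of_nonneg_left h1 (Real.exp_pos _).le

/-- `alf (W y) ≤ Λ^β alf y` -/
theorem alf_W_le {m : ℕ} {Λ : ℕ} (hΛ : 1 ≤ Λ) (y : X (m + 1)) :
    alf (W Λ (0 : Fin (m + 1)) • y) ≤ (Λ : ℝ) ^ (bet (m + 1)) * alf y := by
  have hΛ1 : (1 : ℝ) ≤ Λ := by exact_mod_cast hΛ
  have hl : 0 ≤ Real.log Λ := Real.log_nonneg hΛ1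
  have h := alf_ex_le (Pi.single (0 : Fin (m + 1)) (-Real.log Λ)) (D := Real.log Λ)
    (fun i j => by
      by_cases hi : i = 0 <;> by_cases hj : j = 0 <;> simp [hi, hj] <;> linarith) y
  rwa [mul_comm (bet (m + 1)), ← Real.rpow_def_of_pos (by linarith)] at h

end Pool.Agent.Lib.MP_41a456_al.TC
end
end
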