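import Pool.Agent.Lib.MP_41a456_al.TC.D1b

section

/-!
# MP_41a456_al, Theorem TC, A3: the lattice `vecs y` and the length `lam y` of a shortest vector

`vecs (pt g) = g ℤ^n`. The set `g ℤ^n` is discrete (`‖v‖ ≤ C(g⁻¹) ‖g v‖` and integral vectors in a
ball are finite in number), so `lam` is attained.
-/

namespace Pool.Agent.Lib.MP_41a456_al.TC

open Matrix MeasureTheory Filter Topology Pool.Agent.Lib.MP_41a456_al

variable {n : ℕ}

private theorem mul_mv (g h : SLr n) (w : Fin n → ℝ) :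
    ((g * h : SLr n) : Mr n) *ᵥ w = (g : Mr n) *ᵥ ((h : Mr n) *ᵥ w) := by
  have h1 : ((g * h : SLr n) : Mr n) = (g : Mr n) * (h : Mr n) :=
    Matrix.SpecialLinearGroup.coe_mul g h
  rw [h1, mulVec_mulVec]

private theorem one_mv (w : Fin n → ℝ) : ((1 : SLr n) : Mr n) *ᵥ w = w := by
  have h1 : ((1 : SLr n) : Mr n) = 1 := Matrix.SpecialLinearGroup.coe_one
  rw [h1, one_mulVec]

private theorem inv_mv (g : SLr n) (w : Fin n → ℝ) :
    ((g⁻¹ : SLr n) : Mr n) *ᵥ ((g : Mr n) *ᵥ w) = w := by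
  rw [← mul_mv, inv_mul_cancel, one_mv]

private theorem iz_mv (x : SLn n) (v : Fin n → ℤ) :
    ((iz n x : SLr n) : Mr n) *ᵥ (fun i => (v i : ℝ)) =
      fun i => (((x : Matrix (Fin n) (Fin n) ℤ) *ᵥ v) i : ℝ) := by
  funext i
  simp [iz, mulVec, dotProduct, SpecialLinearGroup.map]

theorem vecs_pt (g : SLr n) :
    vecs (pt g) = {w | ∃ v : Fin n → ℤ, w = (g : Mr n) *ᵥ fun i => (v i : ℝ)} := by
  ext w
  constructor
  · rintro ⟨g', hg, v, rfl⟩
    have h1 : g⁻¹ * g' ∈ Gam n := QuotientGroup.eq.1 hg.symm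
    obtain ⟨x, hx⟩ := h1
    have h2 : g' = g * iz n x := by rw [hx, mul_inv_cancel_left]
    refine ⟨(x : Matrix (Fin n) (Fin n) ℤ) *ᵥ v, ?_⟩
    rw [h2, mul_mv, iz_mv]
  · rintro ⟨v, rfl⟩
    exact ⟨g, rfl, v, rfl⟩

theorem vecs_smul (h : SLr n) (y : X n) :
    vecs (h • y) = (fun w => (h : Mr n) *ᵥ w) '' vecs y := by
  obtain ⟨g, rfl⟩ := pt_surjective y
  rw [smul_pt, vecs_pt, vecs_pt]
  ext w
  constructor
  · rintro ⟨v, rfl⟩
    exact ⟨_, ⟨v, rfl⟩, (mul_mv _ _ _).symm⟩
  · rintro ⟨_, ⟨v, rfl⟩, rfl⟩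
    exact ⟨v, (mul_mv _ _ _).symm⟩

theorem zero_mem_vecs (y : X n) : (0 : Fin n → ℝ) ∈ vecs y := by
  obtain ⟨g, rfl⟩ := pt_surjective y
  rw [vecs_pt]
  refine ⟨0, ?_⟩
  have : (fun i : Fin n => (((0 : Fin n → ℤ) i : ℤ) : ℝ)) = 0 := by
    funext i
    simp
  rw [this, mulVec_zero]

theorem finite_vecs (y : X n) (ρ : ℝ) : {w | w ∈ vecs y ∧ ‖w‖ ≤ ρ}.Finite := by
  obtain ⟨g, rfl⟩ := pt_surjective y
  set C : ℝ := ∑ i, ∑ j, |((g⁻¹ : SLr n) : Mr n) i j| with hC
  have hC0 : 0 ≤ C := Finset.sum_nonneg fun i _ => Finset.sum_nonneg fun j _ => abs_nonneg _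
  set R : ℤ := ⌈C * ρ⌉ with hR
  have hfin : (Set.Icc (fun _ : Fin n => -R) (fun _ => R)).Finite := Set.finite_Icc _ _
  refine (hfin.image fun v : Fin n → ℤ => (g : Mr n) *ᵥ fun i => (v i : ℝ)).subset ?_
  rintro w ⟨hw, hr⟩
  rw [vecs_pt] at hw
  obtain ⟨v, rfl⟩ := hw
  refine ⟨v, ?_, rfl⟩
  have hρ : 0 ≤ ρ := (norm_nonneg _).trans hr
  have key : ∀ i, |(v i : ℝ)| ≤ C * ρ := by
    intro i
    have h1 := congrFun (inv_mv g fun i => (v i : ℝ)) i
    rw [← h1]
    change |∑ j, ((g⁻¹ : SLr n) : Mr n) i j * ((g : Mr n) *ᵥ fun i => (v i : ℝ)) j| ≤ C * ρ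
    calc |∑ j, ((g⁻¹ : SLr n) : Mr n) i j * ((g : Mr n) *ᵥ fun i => (v i : ℝ)) j|
        ≤ ∑ j, |((g⁻¹ : SLr n) : Mr n) i j * ((g : Mr n) *ᵥ fun i => (v i : ℝ)) j| :=
          Finset.abs_sum_le_sum_abs _ _
      _ ≤ ∑ j, |((g⁻¹ : SLr n) : Mr n) i j| * ρ := by
          refine Finset.sum_le_sum fun j _ => ?_
          rw [abs_mul]
          refine mul_le_mul_of_nonneg_left ?_ (abs_nonneg _)
          exact (norm_le_pi_norm ((g : Mr n) *ᵥ fun i => (v i : ℝ)) j).trans hr
      _ = (∑ j, |((g⁻¹ : SLr n) : Mr n) i j|) * ρ := by rw [Finset.sum_mul]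
      _ ≤ C * ρ := by
          refine mul_le_mul_of_nonneg_right ?_ hρ
          exact Finset.single_le_sum (f := fun i => ∑ j, |((g⁻¹ : SLr n) : Mr n) i j|)
            (fun i _ => Finset.sum_nonneg fun j _ => abs_nonneg _) (Finset.mem_univ i)
  have key2 : ∀ i, |v i| ≤ R := by
    intro i
    have h2 : ((|v i| : ℤ) : ℝ) ≤ (R : ℝ) := by
      push_cast
      exact (key i).trans (Int.le_ceil _)
    exact_mod_cast h2
  exact ⟨fun i => (abs_le.1 (key2 i)).1, fun i => (abs_le.1 (key2 i)).2⟩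

private theorem exists_ne_zero (hn : 0 < n) (y : X n) : ∃ w ∈ vecs y, w ≠ 0 := by
  obtain ⟨g, rfl⟩ := pt_surjective y
  refine ⟨(g : Mr n) *ᵥ fun i => (((Pi.single ⟨0, hn⟩ 1 : Fin n → ℤ) i : ℤ) : ℝ), ?_, ?_⟩
  · rw [vecs_pt]
    exact ⟨_, rfl⟩
  · intro h0
    have h1 := inv_mv g fun i => (((Pi.single ⟨0, hn⟩ 1 : Fin n → ℤ) i : ℤ) : ℝ)
    rw [h0, mulVec_zero] at h1
    have h2 := congrFun h1 ⟨0, hn⟩
    simp at h2

private theorem lam_le_aux {y : X n} {w : Fin n → ℝ} (hw : w ∈ vecs y) (h0 : w ≠ 0) :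
    lam y ≤ ‖w‖ := by
  unfold lam
  refine csInf_le ⟨0, ?_⟩ ⟨w, ⟨hw, h0⟩, rfl⟩
  rintro _ ⟨w', _, rfl⟩
  exact norm_nonneg _

theorem lam_attained (hn : 0 < n) (y : X n) : ∃ w ∈ vecs y, w ≠ 0 ∧ ‖w‖ = lam y := by
  obtain ⟨w0, hw0, h00⟩ := exists_ne_zero hn y
  have hfin : ({w | w ∈ vecs y ∧ ‖w‖ ≤ ‖w0‖} \ {0}).Finite := (finite_vecs y ‖w0‖).subset
    Set.sdiff_subset
  obtain ⟨w, ⟨⟨hw, hw1⟩, hw2⟩, hmin⟩ := Set.exists_min_image _ (fun w : Fin n → ℝ => ‖w‖) hfin
    ⟨w0, ⟨hw0, le_rfl⟩, h00⟩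
  refine ⟨w, hw, hw2, le_antisymm ?_ (lam_le_aux hw hw2)⟩
  refine le_csInf ⟨‖w0‖, w0, ⟨hw0, h00⟩, rfl⟩ ?_
  rintro _ ⟨w', ⟨hw', h0'⟩, rfl⟩
  by_cases hc : ‖w'‖ ≤ ‖w0‖
  · exact hmin w' ⟨⟨hw', hc⟩, h0'⟩
  · exact hw1.trans (le_of_not_ge hc)

theorem lam_pos (hn : 0 < n) (y : X n) : 0 < lam y := by
  obtain ⟨w, _, h0, h⟩ := lam_attained hn y
  rw [← h]
  exact norm_pos_iff.2 h0

theorem lam_le {y : X n} {w : Fin n → ℝ} (hw : w ∈ vecs y) (h0 : w ≠ 0) : lam y ≤ ‖w‖ := by
  exact lam_le_aux hw h0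

end Pool.Agent.Lib.MP_41a456_al.TC
end

section

/-!
# MP_41a456_al, Theorem TC, B1: compound norms (paper 521, (2.1))

`D_k(x) (f, g) = det (x.submatrix f g)` for all functions `f, g : Fin k → Fin n`.
Cauchy Binet: `D_k(x y) = (1 / k!) D_k(x) D_k(y)`, i.e.
`∑ h, det (x.submatrix f h) * det (y.submatrix h g) = k! * det ((x y).submatrix f g)`:
expand the second determinant, `∑ h, det (x.submatrix f h) * ∏ i, y (h i) (g (σ i))` is
the determinant of `(x y).submatrix f (g ∘ σ)` (multilinearity in the columns). So with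
`N_k(x) = ‖D_k(x)‖_2 / k!` Cauchy Schwarz gives `N_k(x y) ≤ N_k(x) N_k(y)`, and for orthogonal `o`
`(k!)^2 N_k(o x)^2 = tr (D(o x)ᵀ D(o x)) = (k!)^{-2} tr (D(x)ᵀ D(o)ᵀ D(o) D(x))`,
`D(oᵀ) D(o) = k! D(1)`, `D(1) D(x) = k! D(x)`.
`abs_mk_le`: the pairs `(f, g) = (ld ∘ σ, ld ∘ τ)` are `(k!)^2` pairs with `det^2 = mk^2`.
`one_le_Nk`: some `k`-minor of an invertible integral matrix is not 0, it is a nonzero integer, and
all the pairs `(f ∘ σ, g ∘ τ)` give the same square.
-/

namespace Pool.Agent.Lib.MP_41a456_al.TC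

open Matrix MeasureTheory Filter Topology Pool.Agent.Lib.MP_41a456_al

/-- all `k`-minors -/
noncomputable def Dk {n : ℕ} (k : ℕ) (x : Mr n) : Matrix (Fin k → Fin n) (Fin k → Fin n) ℝ :=
  fun f g => (x.submatrix f g).det

private theorem det_mul_expand {n : ℕ} (k : ℕ) (A : Matrix (Fin k) (Fin n) ℝ)
    (B : Matrix (Fin n) (Fin k) ℝ) :
    (A * B).det = ∑ h : Fin k → Fin n, (A.submatrix id h).det * ∏ i, B (h i) i := by
  rw [Matrix.det_apply']
  simp only [Matrix.mul_apply]
  have h1 : ∀ σ : Equiv.Perm (Fin k), (∏ i, ∑ j, A (σ i) j * B j i)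
      = ∑ p : Fin k → Fin n, ∏ i, (A (σ i) (p i) * B (p i) i) := by
    intro σ
    rw [Finset.prod_univ_sum, Fintype.piFinset_univ]
  simp only [h1, Finset.mul_sum]
  rw [Finset.sum_comm]
  refine Finset.sum_congr rfl fun p _ => ?_
  rw [Matrix.det_apply', Finset.sum_mul]
  refine Finset.sum_congr rfl fun σ _ => ?_
  rw [Finset.prod_mul_distrib, mul_assoc]
  rfl

private theorem det_submatrix_perm {n : ℕ} (k : ℕ) (A : Matrix (Fin k) (Fin n) ℝ)
    (h : Fin k → Fin n) (σ : Equiv.Perm (Fin k)) :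
    (A.submatrix id (h ∘ σ)).det = (Equiv.Perm.sign σ : ℤ) * (A.submatrix id h).det := by
  rw [← Matrix.det_permute' σ (A.submatrix id h)]
  rfl

theorem cauchy_binet {n : ℕ} (k : ℕ) (x y : Mr n) :
    Dk k x * Dk k y = (k.factorial : ℝ) • Dk k (x * y) := by
  ext f g
  rw [Matrix.mul_apply, Matrix.smul_apply, smul_eq_mul]
  change ∑ h : Fin k → Fin n, (x.submatrix f h).det * (y.submatrix h g).det
    = (k.factorial : ℝ) * ((x * y).submatrix f g).det
  have e1 : (x * y).submatrix f g = x.submatrix f id * y.submatrix id g := by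
    rw [Matrix.submatrix_mul _ _ f id g Function.bijective_id]
  have e2 : ∀ σ : Equiv.Perm (Fin k),
      ∑ h : Fin k → Fin n, (x.submatrix f h).det *
        ((Equiv.Perm.sign σ : ℤ) * ∏ i, y (h (σ i)) (g i)) = ((x * y).submatrix f g).det := by
    intro σ
    rw [e1, det_mul_expand]
    have hE := Equiv.sum_comp (Equiv.arrowCongr σ.symm (Equiv.refl (Fin n)))
      (fun h : Fin k → Fin n => ((x.submatrix f id).submatrix id h).det *
        ∏ i, (y.submatrix id g) (h i) i)
    rw [← hE]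
    refine Finset.sum_congr rfl fun h _ => ?_
    have e3 : (Equiv.arrowCongr σ.symm (Equiv.refl (Fin n))) h = h ∘ σ := by
      funext i
      simp [Equiv.arrowCongr]
    rw [e3, det_submatrix_perm]
    have e4 : (x.submatrix f id).submatrix id h = x.submatrix f h := by
      ext i j
      rfl
    rw [e4]
    simp only [Matrix.submatrix_apply, Function.comp_apply, id]
    ring
  have e5 : ∀ h : Fin k → Fin n, (x.submatrix f h).det * (y.submatrix h g).det
      = ∑ σ : Equiv.Perm (Fin k), (x.submatrix f h).det *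
        ((Equiv.Perm.sign σ : ℤ) * ∏ i, y (h (σ i)) (g i)) := by
    intro h
    rw [Matrix.det_apply' (y.submatrix h g), Finset.mul_sum]
    rfl
  simp only [e5]
  rw [Finset.sum_comm]
  simp only [e2]
  rw [Finset.sum_const, Finset.card_univ, Fintype.card_perm, Fintype.card_fin, nsmul_eq_mul]

/-- the sum of the squares of the minors -/
private noncomputable def ssq {n : ℕ} (k : ℕ) (x : Mr n) : ℝ :=
  ∑ f : Fin k → Fin n, ∑ g : Fin k → Fin n, (x.submatrix f g).det ^ 2

private theorem ssq_nonneg {n : ℕ} (k : ℕ) (x : Mr n) : 0 ≤ ssq k x :=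
  Finset.sum_nonneg fun _ _ => Finset.sum_nonneg fun _ _ => sq_nonneg _

private theorem Nk_eq {n : ℕ} (k : ℕ) (x : Mr n) : Nk k x = Real.sqrt (ssq k x) / k.factorial := rfl

private theorem fac_pos (k : ℕ) : (0 : ℝ) < k.factorial := by
  exact_mod_cast Nat.factorial_pos k

private theorem ssq_eq {n : ℕ} (k : ℕ) (x : Mr n) :
    ssq k x = (k.factorial : ℝ) * ∑ g : Fin k → Fin n, ((xᵀ * x).submatrix g g).det := by
  rw [ssq, Finset.sum_comm, Finset.mul_sum]
  refine Finset.sum_congr rfl fun g _ => ?_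
  have h := congrFun (congrFun (cauchy_binet k xᵀ x) g) g
  rw [Matrix.mul_apply, Matrix.smul_apply, smul_eq_mul] at h
  change ∑ h : Fin k → Fin n, (xᵀ.submatrix g h).det * (x.submatrix h g).det
    = (k.factorial : ℝ) * ((xᵀ * x).submatrix g g).det at h
  rw [← h]
  refine Finset.sum_congr rfl fun f _ => ?_
  have e : xᵀ.submatrix g f = (x.submatrix f g)ᵀ := rfl
  rw [e, Matrix.det_transpose, sq]

private theorem ssq_mul {n : ℕ} (k : ℕ) (x y : Mr n) :
    (k.factorial : ℝ) ^ 2 * ssq k (x * y) ≤ ssq k x * ssq k y := by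
  have h : ∀ f g : Fin k → Fin n,
      ((k.factorial : ℝ) * ((x * y).submatrix f g).det) ^ 2 ≤
        (∑ h : Fin k → Fin n, (x.submatrix f h).det ^ 2) *
          (∑ h : Fin k → Fin n, (y.submatrix h g).det ^ 2) := by
    intro f g
    have h1 := congrFun (congrFun (cauchy_binet k x y) f) g
    rw [Matrix.mul_apply, Matrix.smul_apply, smul_eq_mul] at h1
    change ∑ h : Fin k → Fin n, (x.submatrix f h).det * (y.submatrix h g).det
      = (k.factorial : ℝ) * ((x * y).submatrix f g).det at h1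
    rw [← h1]
    exact Finset.sum_mul_sq_le_sq_mul_sq _ _ _
  have e1 : (k.factorial : ℝ) ^ 2 * ssq k (x * y)
      = ∑ f : Fin k → Fin n, ∑ g : Fin k → Fin n,
        ((k.factorial : ℝ) * ((x * y).submatrix f g).det) ^ 2 := by
    rw [ssq, Finset.mul_sum]
    refine Finset.sum_congr rfl fun f _ => ?_
    rw [Finset.mul_sum]
    refine Finset.sum_congr rfl fun g _ => ?_
    ring
  rw [e1]
  calc _ ≤ ∑ f : Fin k → Fin n, ∑ g : Fin k → Fin n,
        (∑ h : Fin k → Fin n, (x.submatrix f h).det ^ 2) *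
          (∑ h : Fin k → Fin n, (y.submatrix h g).det ^ 2) :=
        Finset.sum_le_sum fun f _ => Finset.sum_le_sum fun g _ => h f g
    _ = ssq k x * ssq k y := by
        rw [ssq, ssq, Finset.sum_comm (f := fun f g => (y.submatrix f g).det ^ 2),
          Finset.sum_mul_sum]

theorem Nk_nonneg {n : ℕ} (k : ℕ) (x : Mr n) : 0 ≤ Nk k x :=
  div_nonneg (Real.sqrt_nonneg _) (fac_pos k).le

theorem Nk_mul {n : ℕ} (k : ℕ) (x y : Mr n) : Nk k (x * y) ≤ Nk k x * Nk k y := by
  rw [Nk_eq, Nk_eq, Nk_eq]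
  have hk := fac_pos k
  have h1 := Real.sqrt_le_sqrt (ssq_mul k x y)
  rw [Real.sqrt_mul (by positivity), Real.sqrt_sq hk.le, Real.sqrt_mul (ssq_nonneg k x)] at h1
  rw [div_mul_div_comm, div_le_div_iff₀ hk (by positivity)]
  calc Real.sqrt (ssq k (x * y)) * ((k.factorial : ℝ) * k.factorial)
      = (k.factorial * Real.sqrt (ssq k (x * y))) * k.factorial := by ring
    _ ≤ (Real.sqrt (ssq k x) * Real.sqrt (ssq k y)) * k.factorial :=
        mul_le_mul_of_nonneg_right h1 hk.le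

theorem Nk_orth_left {n : ℕ} (k : ℕ) {o : Mr n} (ho : oᵀ * o = 1) (x : Mr n) :
    Nk k (o * x) = Nk k x := by
  have e : (o * x)ᵀ * (o * x) = xᵀ * x := by
    rw [Matrix.transpose_mul, Matrix.mul_assoc, ← Matrix.mul_assoc oᵀ o x, ho, Matrix.one_mul]
  rw [Nk_eq, Nk_eq, ssq_eq, ssq_eq, e]

theorem Nk_transpose {n : ℕ} (k : ℕ) (x : Mr n) : Nk k xᵀ = Nk k x := by
  have e : ssq k xᵀ = ssq k x := by
    rw [ssq, ssq, Finset.sum_comm]
    refine Finset.sum_congr rfl fun f _ => Finset.sum_congr rfl fun g _ => ?_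
    have e : xᵀ.submatrix g f = (x.submatrix f g)ᵀ := rfl
    rw [e, Matrix.det_transpose]
  rw [Nk_eq, Nk_eq, e]

theorem Nk_orth_right {n : ℕ} (k : ℕ) {o : Mr n} (ho : oᵀ * o = 1) (x : Mr n) :
    Nk k (x * o) = Nk k x := by
  have ho' : (oᵀ)ᵀ * oᵀ = 1 := by
    rw [Matrix.transpose_transpose]
    exact mul_eq_one_comm.1 ho
  rw [← Nk_transpose, Matrix.transpose_mul, Nk_orth_left k ho', Nk_transpose]

/-- if some minor has absolute value `≥ c` for an injective pair then `c ≤ Nk` -/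
private theorem le_Nk {n : ℕ} (k : ℕ) (x : Mr n) {f g : Fin k → Fin n}
    (hf : Function.Injective f) (hg : Function.Injective g) :
    |(x.submatrix f g).det| ≤ Nk k x := by
  classical
  rw [Nk_eq, le_div_iff₀ (fac_pos k)]
  apply Real.le_sqrt_of_sq_le
  have h1 : ∀ σ τ : Equiv.Perm (Fin k),
      (x.submatrix (f ∘ σ) (g ∘ τ)).det ^ 2 = (x.submatrix f g).det ^ 2 := by
    intro σ τ
    have e1 : (x.submatrix (f ∘ σ) (g ∘ τ)).det
        = (Equiv.Perm.sign τ : ℤ) * (x.submatrix (f ∘ σ) g).det := by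
      rw [← Matrix.det_permute' τ (x.submatrix (f ∘ σ) g)]
      rfl
    have e2 : (x.submatrix (f ∘ σ) g).det
        = (Equiv.Perm.sign σ : ℤ) * (x.submatrix f g).det := by
      rw [← Matrix.det_permute σ (x.submatrix f g)]
      rfl
    have s1 : (((Equiv.Perm.sign τ : ℤˣ) : ℤ) : ℝ) ^ 2 = 1 := by
      rcases Int.units_eq_one_or (Equiv.Perm.sign τ) with h | h <;> simp [h]
    have s2 : (((Equiv.Perm.sign σ : ℤˣ) : ℤ) : ℝ) ^ 2 = 1 := by
      rcases Int.units_eq_one_or (Equiv.Perm.sign σ) with h | h <;> simp [h]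
    rw [e1, e2, mul_pow, mul_pow, s1, s2, one_mul, one_mul]
  have inj : ∀ {f : Fin k → Fin n}, Function.Injective f →
      Function.Injective (fun σ : Equiv.Perm (Fin k) => f ∘ σ) := by
    intro f hf σ τ h
    ext i
    have := congrFun h i
    exact congrArg Fin.val (hf this)
  have h2 : ∑ σ : Equiv.Perm (Fin k), ∑ τ : Equiv.Perm (Fin k),
      (x.submatrix (f ∘ σ) (g ∘ τ)).det ^ 2 ≤ ssq k x := by
    rw [ssq]
    have a1 : ∀ u : Fin k → Fin n, ∑ τ : Equiv.Perm (Fin k), (x.submatrix u (g ∘ τ)).det ^ 2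
        ≤ ∑ v : Fin k → Fin n, (x.submatrix u v).det ^ 2 := by
      intro u
      rw [← Finset.sum_image (f := fun v : Fin k → Fin n => (x.submatrix u v).det ^ 2)
        (g := fun τ : Equiv.Perm (Fin k) => g ∘ τ) (fun a _ b _ h => inj hg h)]
      exact Finset.sum_le_sum_of_subset_of_nonneg (Finset.subset_univ _)
        fun _ _ _ => sq_nonneg _
    calc _ ≤ ∑ σ : Equiv.Perm (Fin k), ∑ v : Fin k → Fin n,
          (x.submatrix (f ∘ σ) v).det ^ 2 := Finset.sum_le_sum fun σ _ => a1 _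
      _ ≤ _ := by
        rw [← Finset.sum_image (f := fun u : Fin k → Fin n =>
            ∑ v : Fin k → Fin n, (x.submatrix u v).det ^ 2)
          (g := fun τ : Equiv.Perm (Fin k) => f ∘ τ) (fun a _ b _ h => inj hf h)]
        exact Finset.sum_le_sum_of_subset_of_nonneg (Finset.subset_univ _)
          fun _ _ _ => Finset.sum_nonneg fun _ _ => sq_nonneg _
  have h3 : ∑ σ : Equiv.Perm (Fin k), ∑ τ : Equiv.Perm (Fin k),
      (x.submatrix (f ∘ σ) (g ∘ τ)).det ^ 2 = (k.factorial : ℝ) ^ 2 * (x.submatrix f g).det ^ 2 := by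
    simp only [h1, Finset.sum_const, Finset.card_univ, Fintype.card_perm, Fintype.card_fin,
      nsmul_eq_mul]
    ring
  rw [h3] at h2
  calc (|(x.submatrix f g).det| * (k.factorial : ℝ)) ^ 2
      = (k.factorial : ℝ) ^ 2 * (x.submatrix f g).det ^ 2 := by
        rw [mul_pow, sq_abs]; ring
    _ ≤ _ := h2

theorem abs_mk_le {m : ℕ} {k : ℕ} (hk : k ≤ m + 1) (x : Mr (m + 1)) : |mk k x| ≤ Nk k x := by
  have hinj : Function.Injective (ld m k) := by
    intro i j h
    have h1 := congrArg Fin.val h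
    simp only [ld, Fin.ofNat] at h1
    rw [Nat.mod_eq_of_lt (lt_of_lt_of_le i.2 hk), Nat.mod_eq_of_lt (lt_of_lt_of_le j.2 hk)] at h1
    exact Fin.ext h1
  exact le_Nk k x hinj hinj

theorem one_le_Nk {n : ℕ} {k : ℕ} (hk : k ≤ n) (x : SLn n) : 1 ≤ Nk k (iz n x : Mr n) := by
  set X : Mr n := (iz n x : Mr n) with hX
  set Y : Mr n := (iz n x⁻¹ : Mr n) with hY
  have hXY : X * Y = 1 := by
    rw [hX, hY, ← Matrix.SpecialLinearGroup.coe_mul, ← map_mul, mul_inv_cancel, map_one]
    rfl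
  set c : Fin k → Fin n := Fin.castLE hk with hc
  have hcinj : Function.Injective c := Fin.castLE_injective hk
  have h1 := congrFun (congrFun (cauchy_binet k X Y) c) c
  rw [hXY, Matrix.mul_apply, Matrix.smul_apply, smul_eq_mul] at h1
  have h2 : Dk k (1 : Mr n) c c = 1 := by
    have : (1 : Mr n).submatrix c c = 1 := Matrix.submatrix_one c hcinj
    rw [Dk, this, Matrix.det_one]
  rw [h2, mul_one] at h1
  have h3 : ∃ h : Fin k → Fin n, Dk k X c h ≠ 0 := by
    by_contra hcon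
    push Not at hcon
    have : ∑ h, Dk k X c h * Dk k Y h c = 0 := Finset.sum_eq_zero fun h _ => by rw [hcon h, zero_mul]
    rw [this] at h1
    exact absurd h1 (fac_pos k).ne
  obtain ⟨h, hh⟩ := h3
  have hinj : Function.Injective h := by
    intro i j hij
    by_contra hne
    apply hh
    exact Matrix.det_zero_of_column_eq hne fun r => by
      simp only [Matrix.submatrix_apply, hij]
  refine le_trans ?_ (le_Nk k X hcinj hinj)
  have hint : (X.submatrix c h).det
      = ((((x : Mt n).submatrix c h).det : ℤ) : ℝ) := by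
    exact (RingHom.map_det (Int.castRingHom ℝ) ((x : Mt n).submatrix c h)).symm
  change (X.submatrix c h).det ≠ 0 at hh
  rw [hint] at hh ⊢
  have hz : ((x : Mt n).submatrix c h).det ≠ 0 := by
    intro h0
    rw [h0] at hh
    simp at hh
  exact_mod_cast Int.one_le_abs hz

/-- the minors of a matrix with entries `≤ C` are at most `k! C^k`, and there are at most
`(n^k)^2` of them -/
theorem Nk_le_of_entries {n : ℕ} (k : ℕ) (x : Mr n) {C : ℝ} (h : ∀ i j, |x i j| ≤ C) :
    Nk k x ≤ (n : ℝ) ^ k * C ^ k := by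
  rw [Nk_eq, div_le_iff₀ (fac_pos k)]
  rcases Nat.eq_zero_or_pos k with hk0 | hkpos
  · subst hk0
    simp [ssq]
  rcases Nat.eq_zero_or_pos n with hn0 | hnpos
  · subst hn0
    have : IsEmpty (Fin k → Fin 0) := ⟨fun f => (f ⟨0, hkpos⟩).elim0⟩
    have e : ssq k x = 0 := by
      rw [ssq, Finset.univ_eq_empty, Finset.sum_empty]
    rw [e, Real.sqrt_zero]
    simp [hkpos.ne']
  have hC : 0 ≤ C := (abs_nonneg _).trans (h ⟨0, hnpos⟩ ⟨0, hnpos⟩)
  have hdet : ∀ f g : Fin k → Fin n, |(x.submatrix f g).det| ≤ k.factorial * C ^ k := by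
    intro f g
    rw [Matrix.det_apply']
    calc |∑ σ : Equiv.Perm (Fin k), ((Equiv.Perm.sign σ : ℤ) : ℝ) * ∏ i, x.submatrix f g (σ i) i|
        ≤ ∑ σ : Equiv.Perm (Fin k), |((Equiv.Perm.sign σ : ℤ) : ℝ) *
            ∏ i, x.submatrix f g (σ i) i| := Finset.abs_sum_le_sum_abs _ _
      _ ≤ ∑ σ : Equiv.Perm (Fin k), C ^ k := by
          refine Finset.sum_le_sum fun σ _ => ?_
          have s1 : |(((Equiv.Perm.sign σ : ℤˣ) : ℤ) : ℝ)| = 1 := by
            rcases Int.units_eq_one_or (Equiv.Perm.sign σ) with h | h <;> simp [h]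
          rw [abs_mul, s1, one_mul, Finset.abs_prod]
          calc ∏ i, |x.submatrix f g (σ i) i| ≤ ∏ _i : Fin k, C :=
                Finset.prod_le_prod (fun i _ => abs_nonneg _) fun i _ => h _ _
            _ = C ^ k := by rw [Finset.prod_const, Finset.card_univ, Fintype.card_fin]
      _ = k.factorial * C ^ k := by
          rw [Finset.sum_const, Finset.card_univ, Fintype.card_perm, Fintype.card_fin,
            nsmul_eq_mul]
  have hfac := fac_pos k
  have hb : 0 ≤ (n : ℝ) ^ k * C ^ k * k.factorial := by positivity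
  apply Real.sqrt_le_iff.2 ⟨hb, ?_⟩
  calc ssq k x ≤ ∑ _f : Fin k → Fin n, ∑ _g : Fin k → Fin n, ((k.factorial : ℝ) * C ^ k) ^ 2 := by
        refine Finset.sum_le_sum fun f _ => Finset.sum_le_sum fun g _ => ?_
        rw [← sq_abs]
        exact pow_le_pow_left₀ (abs_nonneg _) (hdet f g) 2
    _ = ((n : ℝ) ^ k * C ^ k * k.factorial) ^ 2 := by
        rw [Finset.sum_const, Finset.sum_const, Finset.card_univ, Fintype.card_fun,
          Fintype.card_fin, Fintype.card_fin, nsmul_eq_mul, nsmul_eq_mul]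
        push_cast
        ring

theorem continuous_Nk {n : ℕ} (k : ℕ) : Continuous (Nk k : Mr n → ℝ) := by
  unfold Nk
  refine Continuous.div_const ?_ _
  refine Real.continuous_sqrt.comp ?_
  refine continuous_finset_sum _ fun f _ => continuous_finset_sum _ fun g _ => ?_
  refine Continuous.pow ?_ 2
  exact (continuous_id.matrix_submatrix f g).matrix_det

theorem continuous_mk {m : ℕ} (k : ℕ) : Continuous (mk k : Mr (m + 1) → ℝ) := by
  unfold mk
  exact (continuous_id.matrix_submatrix _ _).matrix_det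

end Pool.Agent.Lib.MP_41a456_al.TC
end

section

/-!
# MP_41a456_al, Theorem TC, K0: ergodic part: definitions

`fav T N f y`: average of `f` over the first `N` points of the orbit of `y`; `Asym T y y'`: the orbits of
`y`, `y'` are asymptotic for all compactly supported continuous functions; `tw g f = f (g • ·)`.
-/

namespace Pool.Agent.Lib.MP_41a456_al.TC

open Matrix MeasureTheory Filter Topology Pool.Agent.Lib.MP_41a456_al

open scoped CompactlySupported

/-- average over the first `N` points of the orbit -/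
noncomputable def fav {Z : Type*} (T : Z → Z) (N : ℕ) (f : Z → ℝ) (y : Z) : ℝ :=
  (∑ m ∈ Finset.range N, f (T^[m] y)) / N

/-- forward asymptotic points -/
def Asym {Z : Type*} [TopologicalSpace Z] (T : Z → Z) (y y' : Z) : Prop :=
  ∀ f : C_c(Z, ℝ), Tendsto (fun m : ℕ => f (T^[m] y) - f (T^[m] y')) atTop (𝓝 0)

/-- `y ↦ g • y` as a homeomorphism of `X n` -/
def hm {n : ℕ} (g : SLr n) : X n ≃ₜ X n := Homeomorph.smul g

theorem hm_apply {n : ℕ} (g : SLr n) (y : X n) : hm g y = g • y := rfl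

theorem hm_symm {n : ℕ} (g : SLr n) : (hm g).symm = hm g⁻¹ := by
  ext y
  rfl

/-- `f (g • ·)` -/
noncomputable def tw {n : ℕ} (g : SLr n) (f : C_c(X n, ℝ)) : C_c(X n, ℝ) where
  toFun y := f (g • y)
  continuous_toFun := f.continuous.comp (continuous_const_smul g)
  hasCompactSupport' := f.hasCompactSupport.comp_homeomorph (hm g)

theorem tw_apply {n : ℕ} (g : SLr n) (f : C_c(X n, ℝ)) (y : X n) : tw g f y = f (g • y) := rfl

theorem tw_tw {n : ℕ} (g h : SLr n) (f : C_c(X n, ℝ)) : tw h (tw g f) = tw (g * h) f := by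
  ext y
  simp only [tw_apply, mul_smul]

end Pool.Agent.Lib.MP_41a456_al.TC
end

section

/-!
# MP_41a456_al, Theorem TC, B5: LU decomposition (paper 521, (2.5))

`mk_mul`: `l` lower unitriangular, `r` upper triangular: the upper left `k` block of `l Y r` is
the product of the upper left blocks. `lu`: induction on the size, or: the columns of `l` are
determined step by step (Gauss elimination without row exchange); `r_kk = mk (k+1) M / mk k M`.
`lu_bound`: `l_ij` (`i > j`) is the quotient of the minor of `M` with rows `0..j-1, i` and columns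
`0..j` by `mk (j+1) M` (expand `M = l r`: this minor is `l_ij r_00 … r_jj`), so it is at most
`(m+1)! / c` in absolute value; `r = l⁻¹ M` or `r_ij = ` minor of `M` with rows `0..i` and
columns `0..i-1, j` divided by `mk i M`.
-/

namespace Pool.Agent.Lib.MP_41a456_al.TC

open Matrix MeasureTheory Filter Topology Pool.Agent.Lib.MP_41a456_al

/-- lower unitriangular -/
def Low {n : ℕ} (l : Mr n) : Prop := (∀ i, l i i = 1) ∧ ∀ i j, i < j → l i j = 0

/-- upper triangular -/
def Upp {n : ℕ} (r : Mr n) : Prop := ∀ i j, j < i → r i j = 0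

private theorem ld_val {m k : ℕ} (hk : k ≤ m + 1) (i : Fin k) :
    ((ld m k i : Fin (m + 1)) : ℕ) = i := by
  have := i.2
  simp only [ld, Fin.ofNat]
  exact Nat.mod_eq_of_lt (by omega)

private theorem sub_mul_right {m k p : ℕ} (hk : k ≤ m + 1) (x r : Mr (m + 1))
    (hr : Upp r) (f : Fin p → Fin (m + 1)) :
    (x * r).submatrix f (ld m k) =
      x.submatrix f (ld m k) * r.submatrix (ld m k) (ld m k) := by
  ext a b
  simp only [submatrix_apply, Matrix.mul_apply]
  symm
  apply Finset.sum_of_injOn (ld m k)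
  · intro s _ t _ h
    have := congrArg Fin.val h
    rw [ld_val hk, ld_val hk] at this
    exact Fin.ext this
  · intro s _
    simp
  · intro t _ ht
    rw [hr t (ld m k b), mul_zero]
    rw [Fin.lt_def, ld_val hk]
    by_contra hcon
    push Not at hcon
    refine ht ⟨⟨t, by have := b.2; omega⟩, by simp, ?_⟩
    apply Fin.ext
    rw [ld_val hk]
  · intro s _
    rfl

private theorem sub_mul_left {m k p : ℕ} (hk : k ≤ m + 1) (l y : Mr (m + 1))
    (hl : ∀ i j, i < j → l i j = 0) (g : Fin p → Fin (m + 1)) :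
    (l * y).submatrix (ld m k) g =
      l.submatrix (ld m k) (ld m k) * y.submatrix (ld m k) g := by
  have h := sub_mul_right hk yᵀ lᵀ (fun i j hij => hl j i hij) g
  have h2 := congrArg Matrix.transpose h
  rw [← Matrix.transpose_mul, Matrix.transpose_mul] at h2
  simpa using h2

private theorem det_low {m k : ℕ} (hk : k + 1 ≤ m + 1) (l : Mr (m + 1))
    (hl : ∀ i j, i < j → l i j = 0) (i : Fin (m + 1)) :
    (l.submatrix (Fin.snoc (α := fun _ => Fin (m + 1)) (ld m k) i) (ld m (k + 1))).det =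
      (∏ a : Fin k, l (ld m k a) (ld m k a)) * l i (ld m (k + 1) (Fin.last k)) := by
  rw [Matrix.det_of_isLowerTriangular, Fin.prod_univ_castSucc]
  · simp only [submatrix_apply, Fin.snoc_last, Fin.snoc_castSucc]
    congr 1
  · intro a b hab
    have hab' : a < b := hab
    refine Fin.lastCases (motive := fun a => a < b → (l.submatrix
      (Fin.snoc (α := fun _ => Fin (m + 1)) (ld m k) i) (ld m (k + 1))) a b = 0) ?_ ?_ a hab'
    · intro h
      exact absurd (Fin.le_last b) (not_le.mpr h)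
    · intro a' h
      rw [submatrix_apply, Fin.snoc_castSucc]
      apply hl
      rw [Fin.lt_def, ld_val hk, ld_val (by omega)]
      exact h

private theorem mk_upp {m k : ℕ} (hk : k ≤ m + 1) (r : Mr (m + 1)) (hr : Upp r) :
    mk k r = ∏ a : Fin k, r (ld m k a) (ld m k a) := by
  rw [mk, Matrix.det_of_isUpperTriangular]
  · rfl
  · intro a b hab
    rw [submatrix_apply]
    apply hr
    rw [Fin.lt_def, ld_val hk, ld_val hk]
    exact hab

private theorem mk_low {m k : ℕ} (hk : k ≤ m + 1) (l : Mr (m + 1)) (hl : Low l) :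
    mk k l = 1 := by
  rw [mk, Matrix.det_of_isLowerTriangular]
  · apply Finset.prod_eq_one
    intro a _
    exact hl.1 _
  · intro a b hab
    rw [submatrix_apply]
    apply hl.2
    rw [Fin.lt_def, ld_val hk, ld_val hk]
    exact hab

theorem mk_low_mul {m : ℕ} (k : ℕ) {l : Mr (m + 1)} (hl : Low l) (Y : Mr (m + 1))
    (hk : k ≤ m + 1) : mk k (l * Y) = mk k Y := by
  have h := mk_low hk l hl
  rw [mk] at h ⊢
  rw [sub_mul_left hk l Y hl.2, Matrix.det_mul, h, one_mul]
  rfl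

theorem mk_mul_upp {m : ℕ} (k : ℕ) {r : Mr (m + 1)} (hr : Upp r) (Y : Mr (m + 1))
    (hk : k ≤ m + 1) : mk k (Y * r) = mk k Y * mk k r := by
  rw [mk, sub_mul_right hk Y r hr, Matrix.det_mul]
  rfl

/-- the row of the inverse of `l` -/
private theorem exists_row {m : ℕ} (M : Mr (m + 1))
    (h : ∀ k, 1 ≤ k → k ≤ m + 1 → mk k M ≠ 0) (i : Fin (m + 1)) :
    ∃ v : Fin (m + 1) → ℝ, v i = 1 ∧ (∀ j, i < j → v j = 0) ∧
      ∀ t, t < i → ∑ j, v j * M j t = 0 := by
  have hi : (i : ℕ) ≤ m + 1 := i.2.le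
  rcases Nat.eq_zero_or_pos (i : ℕ) with h0 | h0
  · refine ⟨Pi.single i 1, by simp, ?_, ?_⟩
    · intro j hj
      rw [Pi.single_eq_of_ne hj.ne']
    · intro t ht
      rw [Fin.lt_def] at ht
      omega
  set A : Matrix (Fin i) (Fin i) ℝ := M.submatrix (ld m i) (ld m i) with hA
  have hdet : IsUnit A.det := by
    rw [isUnit_iff_ne_zero]
    exact h i h0 hi
  set w : Fin i → ℝ := fun s => - M i (ld m i s) with hw
  set x : Fin i → ℝ := w ᵥ* A⁻¹ with hx
  have hxA : x ᵥ* A = w := by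
    rw [hx, Matrix.vecMul_vecMul, Matrix.nonsing_inv_mul A hdet, Matrix.vecMul_one]
  refine ⟨fun j => if hj : (j : ℕ) < i then x ⟨j, hj⟩ else if j = i then 1 else 0, ?_, ?_, ?_⟩
  · simp
  · intro j hj
    rw [Fin.lt_def] at hj
    have h1 : ¬ (j : ℕ) < i := by omega
    have h2 : j ≠ i := by
      intro h2
      rw [h2] at hj
      omega
    simp [h1, h2]
  · intro t ht
    have ht' := ht
    rw [Fin.lt_def] at ht
    have h1 := congrFun hxA ⟨t, ht⟩
    have h2 : ld m i ⟨t, ht⟩ = t := by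
      apply Fin.ext
      rw [ld_val hi]
    simp only [Matrix.vecMul, dotProduct, hA, submatrix_apply, hw, h2] at h1
    have h3 : ∑ s : Fin i, x s * M (ld m i s) t =
        ∑ j : Fin (m + 1), if hj : (j : ℕ) < i then x ⟨j, hj⟩ * M j t else 0 := by
      apply Finset.sum_of_injOn (ld m i)
      · intro s _ t _ h
        have := congrArg Fin.val h
        rw [ld_val hi, ld_val hi] at this
        exact Fin.ext this
      · intro s _
        simp
      · intro j _ hj
        rw [dif_neg]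
        intro hcon
        refine hj ⟨⟨j, hcon⟩, by simp, ?_⟩
        apply Fin.ext
        rw [ld_val hi]
      · intro s _
        have h4 : ((ld m i s : Fin (m + 1)) : ℕ) < i := by
          rw [ld_val hi]
          exact s.2
        rw [dif_pos h4]
        congr 2
        apply Fin.ext
        rw [ld_val hi]
    have h5 : ∀ j : Fin (m + 1), (if hj : (j : ℕ) < i then x ⟨j, hj⟩ else
        if j = i then 1 else 0) * M j t =
        (if hj : (j : ℕ) < i then x ⟨j, hj⟩ * M j t else 0) + (if j = i then M i t else 0) := by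
      intro j
      by_cases hj : (j : ℕ) < i
      · have h6 : j ≠ i := by
          intro h6
          rw [h6] at hj
          omega
        simp [hj, h6]
      · by_cases h6 : j = i
        · subst h6
          simp
        · simp [hj, h6]
    rw [Finset.sum_congr rfl fun j _ => h5 j, Finset.sum_add_distrib, ← h3, h1]
    simp

theorem lu {m : ℕ} (M : Mr (m + 1)) (h : ∀ k, 1 ≤ k → k ≤ m + 1 → mk k M ≠ 0) :
    ∃ l r : Mr (m + 1), Low l ∧ Upp r ∧ M = l * r := by
  choose v hv1 hv2 hv3 using exists_row M h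
  set H : Mr (m + 1) := Matrix.of v with hH
  have hlow : H.BlockTriangular OrderDual.toDual := by
    intro i j hij
    exact hv2 i j hij
  have hdet : H.det = 1 := by
    rw [Matrix.det_of_isLowerTriangular H hlow]
    apply Finset.prod_eq_one
    intro i _
    exact hv1 i
  have hu : IsUnit H.det := by rw [hdet]; exact isUnit_one
  have hmul : H⁻¹ * H = 1 := Matrix.nonsing_inv_mul H hu
  let _ : Invertible H := Matrix.invertibleOfIsUnitDet H hu
  have hinv : (H⁻¹).BlockTriangular OrderDual.toDual :=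
    Matrix.blockTriangular_inv_of_blockTriangular hlow
  refine ⟨H⁻¹, H * M, ⟨?_, ?_⟩, ?_, ?_⟩
  · intro i
    have h1 := congrFun (congrFun hmul i) i
    rw [Matrix.mul_apply, Finset.sum_eq_single i, Matrix.one_apply_eq] at h1
    · have h2 : H i i = 1 := hv1 i
      rw [h2, mul_one] at h1
      exact h1
    · intro j _ hj
      rcases lt_or_gt_of_ne hj with h2 | h2
      · have h3 : H j i = 0 := hv2 j i h2
        rw [h3, mul_zero]
      · have h3 : H⁻¹ i j = 0 := hinv h2
        rw [h3, zero_mul]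
    · intro h2
      exact absurd (Finset.mem_univ i) h2
  · intro i j hij
    exact hinv hij
  · intro i j hij
    rw [Matrix.mul_apply]
    exact hv3 i j hij
  · rw [← Matrix.mul_assoc, hmul, Matrix.one_mul]

private theorem det_bd {k : ℕ} (A : Matrix (Fin k) (Fin k) ℝ) (h : ∀ i j, |A i j| ≤ 1) :
    |A.det| ≤ k.factorial := by
  have := Matrix.det_le (A := A) (abv := AbsoluteValue.abs) (x := 1) h
  simpa using this

private theorem prod_castSucc {m k : ℕ} (r : Mr (m + 1)) :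
    ∏ a : Fin (k + 1), r (ld m (k + 1) a) (ld m (k + 1) a) =
      (∏ a : Fin k, r (ld m k a) (ld m k a)) *
        r (ld m (k + 1) (Fin.last k)) (ld m (k + 1) (Fin.last k)) := by
  rw [Fin.prod_univ_castSucc]
  congr 1

theorem lu_bound (m : ℕ) {c : ℝ} (hc : 0 < c) : ∃ C : ℝ, ∀ (M l r : Mr (m + 1)),
    Low l → Upp r → M = l * r → (∀ i j, |M i j| ≤ 1) → (∀ k, 1 ≤ k → k ≤ m + 1 → c ≤ mk k M) →
    (∀ i j, |l i j| ≤ C) ∧ (∀ i j, |r i j| ≤ C) ∧ (∀ i, C⁻¹ ≤ r i i) := by
  set F : ℝ := ((m + 1).factorial : ℝ) with hF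
  have hF1 : 1 ≤ F := by
    rw [hF]
    exact_mod_cast Nat.succ_le_of_lt (Nat.factorial_pos _)
  have hFle : ∀ k, k ≤ m + 1 → ((k.factorial : ℕ) : ℝ) ≤ F := by
    intro k hk
    rw [hF]
    exact_mod_cast Nat.factorial_le hk
  have hFc : 0 < F / c := by positivity
  refine ⟨F / c + F, ?_⟩
  intro M l r hl hr hM hb hcc
  have hmkr : ∀ k, k ≤ m + 1 → mk k M = ∏ a : Fin k, r (ld m k a) (ld m k a) := by
    intro k hk
    rw [hM, mk_low_mul k hl r hk, mk_upp hk r hr]
  have hlast : ∀ j : Fin (m + 1), ld m ((j : ℕ) + 1) (Fin.last j) = j := by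
    intro j
    apply Fin.ext
    rw [ld_val (by have := j.2; omega)]
    simp
  have hmk1 : ∀ k, k ≤ m + 1 → |mk k M| ≤ F := by
    intro k hk
    exact (det_bd _ fun i j => hb _ _).trans (hFle k hk)
  have hmkpos : ∀ k, k ≤ m + 1 → 0 < mk k M := by
    intro k hk
    rcases Nat.eq_zero_or_pos k with h0 | h0
    · subst h0
      rw [mk, Matrix.det_isEmpty]
      exact one_pos
    · exact hc.trans_le (hcc k h0 hk)
  have hL : ∀ i j : Fin (m + 1), (M.submatrix
      (Fin.snoc (α := fun _ => Fin (m + 1)) (ld m j) i) (ld m ((j : ℕ) + 1))).det =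
        l i j * mk ((j : ℕ) + 1) M := by
    intro i j
    have hj : (j : ℕ) + 1 ≤ m + 1 := by have := j.2; omega
    rw [hmkr _ hj]
    conv_lhs => rw [hM]
    rw [sub_mul_right hj l r hr, Matrix.det_mul, det_low hj l hl.2 i, hlast j]
    have h1 : ∏ a : Fin (j : ℕ), l (ld m j a) (ld m j a) = 1 :=
      Finset.prod_eq_one fun a _ => hl.1 _
    rw [h1, one_mul]
    congr 1
    exact mk_upp hj r hr
  have hR : ∀ i j : Fin (m + 1), (M.submatrix (ld m ((i : ℕ) + 1))
      (Fin.snoc (α := fun _ => Fin (m + 1)) (ld m i) j)).det = mk i M * r i j := by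
    intro i j
    have hi : (i : ℕ) + 1 ≤ m + 1 := by have := i.2; omega
    have hi' : (i : ℕ) ≤ m + 1 := by omega
    rw [hmkr _ hi']
    conv_lhs => rw [hM]
    rw [sub_mul_left hi l r hl.2, Matrix.det_mul]
    have h1 : (l.submatrix (ld m ((i : ℕ) + 1)) (ld m ((i : ℕ) + 1))).det = 1 := mk_low hi l hl
    rw [h1, one_mul, ← Matrix.det_transpose, Matrix.transpose_submatrix,
      det_low hi rᵀ (fun a b hab => hr b a hab) j, hlast i]
    rfl
  have hCl : F / c ≤ F / c + F := by linarith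
  refine ⟨?_, ?_, ?_⟩
  · intro i j
    have hj : (j : ℕ) + 1 ≤ m + 1 := by have := j.2; omega
    have h1 := hcc _ (by omega) hj
    have h2 : |l i j| * mk ((j : ℕ) + 1) M ≤ F := by
      have h3 := (det_bd (M.submatrix
        (Fin.snoc (α := fun _ => Fin (m + 1)) (ld m j) i) (ld m ((j : ℕ) + 1)))
        fun i j => hb _ _).trans (hFle _ hj)
      rw [hL i j, abs_mul, abs_of_pos (hmkpos _ hj)] at h3
      exact h3
    refine le_trans ?_ hCl
    rw [le_div_iff₀ hc]
    exact (mul_le_mul_of_nonneg_left h1 (abs_nonneg _)).trans h2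
  · intro i j
    have hi : (i : ℕ) + 1 ≤ m + 1 := by have := i.2; omega
    have hi' : (i : ℕ) ≤ m + 1 := by omega
    have h2 : mk i M * |r i j| ≤ F := by
      have h3 := (det_bd (M.submatrix (ld m ((i : ℕ) + 1))
        (Fin.snoc (α := fun _ => Fin (m + 1)) (ld m i) j)) fun i j => hb _ _).trans (hFle _ hi)
      rw [hR i j, abs_mul, abs_of_pos (hmkpos _ hi')] at h3
      exact h3
    rcases Nat.eq_zero_or_pos (i : ℕ) with h0 | h0
    · have h4 : mk (i : ℕ) M = 1 := by
        rw [h0, mk, Matrix.det_isEmpty]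
      rw [h4, one_mul] at h2
      linarith
    · have h1 := hcc _ h0 hi'
      refine le_trans ?_ hCl
      rw [le_div_iff₀ hc, mul_comm]
      exact (mul_le_mul_of_nonneg_right h1 (abs_nonneg _)).trans h2
  · intro i
    have hi : (i : ℕ) + 1 ≤ m + 1 := by have := i.2; omega
    have hi' : (i : ℕ) ≤ m + 1 := by omega
    have h1 : mk ((i : ℕ) + 1) M = mk i M * r i i := by
      rw [hmkr _ hi, hmkr _ hi', prod_castSucc, hlast i]
    have h2 := hcc _ (by omega) hi
    have h3 := hmkpos _ hi'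
    have h4 : mk i M ≤ F := (le_abs_self _).trans (hmk1 _ hi')
    have h5 : c / F ≤ r i i := by
      have h6 : 0 < r i i := by
        by_contra hcon
        push Not at hcon
        have := mul_nonpos_of_nonneg_of_nonpos h3.le hcon
        linarith
      rw [div_le_iff₀ (by linarith)]
      calc c ≤ mk i M * r i i := by rw [← h1]; exact h2
        _ ≤ F * r i i := mul_le_mul_of_nonneg_right h4 h6.le
        _ = r i i * F := mul_comm _ _
    refine le_trans ?_ h5
    rw [inv_le_comm₀ (by positivity) (by positivity), inv_div]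
    exact hCl

end Pool.Agent.Lib.MP_41a456_al.TC
end
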