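import Pool.Agent.Lib.MP_41a456_al.TC.B5
import Pool.Agent.Lib.MP_41a456_al.TC.D1b

section

/-!
# MP_41a456_al, Theorem TC, B3: compound norms of `e^a` (paper 521, (2.3))

`N_k (o e^a o') = N_k (e^a)`, and `det ((e^a).submatrix f g) ^ 2` is `exp (2 ∑ a (f i))` if `f` is
injective and `g` is a rearrangement of `f`, and 0 otherwise: `N_k(e^a)^2 = ∑_I exp (2 ∑_{i ∈ I} a i)`
over the subsets `I` with `k` elements. For antitone `a` every term is at most `exp (2 sk k a)`, with
equality for the first `k` indices; there are `n.choose k ≤ 4^n` terms.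
-/

namespace Pool.Agent.Lib.MP_41a456_al.TC

open Matrix MeasureTheory Filter Topology Pool.Agent.Lib.MP_41a456_al

private theorem ld_inj {m k : ℕ} (hk : k ≤ m + 1) : Function.Injective (ld m k) := by
  intro i j h
  have h1 : ((ld m k i : Fin (m + 1)) : ℕ) = (ld m k j : Fin (m + 1)) := by rw [h]
  simp only [ld, Fin.val_ofNat] at h1
  rw [Nat.mod_eq_of_lt (lt_of_lt_of_le i.2 hk), Nat.mod_eq_of_lt (lt_of_lt_of_le j.2 hk)] at h1
  exact Fin.ext h1

private theorem sum_ld {m k : ℕ} (hk : k ≤ m + 1) (a : Fin (m + 1) → ℝ) :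
    ∑ i : Fin k, a (ld m k i) = sk k a := by
  unfold sk
  refine Finset.sum_bij (fun i _ => ld m k i) ?_ ?_ ?_ ?_
  · intro i _
    rw [Finset.mem_filter]
    refine ⟨Finset.mem_univ _, ?_⟩
    simp only [ld, Fin.val_ofNat]
    rw [Nat.mod_eq_of_lt (lt_of_lt_of_le i.2 hk)]
    exact i.2
  · intro i _ j _ h
    exact ld_inj hk h
  · intro j hj
    rw [Finset.mem_filter] at hj
    refine ⟨⟨j, hj.2⟩, Finset.mem_univ _, ?_⟩
    apply Fin.ext
    simp only [ld, Fin.val_ofNat]
    exact Nat.mod_eq_of_lt j.2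
  · intro i _
    rfl

private theorem sum_le_sk {n k : ℕ} {a : Fin n → ℝ} (ha : Antitone a) {f : Fin k → Fin n}
    (hf : Function.Injective f) : ∑ i, a (f i) ≤ sk k a := by
  classical
  rcases Nat.eq_zero_or_pos k with rfl | hk0
  · simp [sk]
  have hkn : k ≤ n := by simpa using Fintype.card_le_of_injective f hf
  have hc : k - 1 < n := by omega
  set c : ℝ := a ⟨k - 1, hc⟩ with hcdef
  set T : Finset (Fin n) := Finset.univ.filter (fun i : Fin n => (i : ℕ) < k) with hT
  set S : Finset (Fin n) := Finset.univ.image f with hS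
  have hsum : ∑ i, a (f i) = ∑ j ∈ S, a j := by
    rw [hS, Finset.sum_image (fun x _ y _ h => hf h)]
  have hScard : S.card = k := by
    rw [hS, Finset.card_image_of_injective _ hf, Finset.card_univ, Fintype.card_fin]
  have hTcard : T.card = k := by
    have h1 : (∑ i : Fin k, (1 : ℝ)) = ∑ _j ∈ T, (1 : ℝ) := by
      refine Finset.sum_bij (fun i _ => Fin.castLE hkn i) ?_ ?_ ?_ ?_
      · intro i _
        rw [hT, Finset.mem_filter]
        exact ⟨Finset.mem_univ _, i.2⟩
      · intro i _ j _ h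
        exact Fin.castLE_injective hkn h
      · intro j hj
        rw [hT, Finset.mem_filter] at hj
        exact ⟨⟨j, hj.2⟩, Finset.mem_univ _, rfl⟩
      · intro i _
        rfl
    simp only [Finset.sum_const, Finset.card_univ, Fintype.card_fin, nsmul_eq_mul, mul_one] at h1
    exact_mod_cast h1.symm
  have hge : ∀ i ∈ T, 0 ≤ a i - c := by
    intro i hi
    rw [hT, Finset.mem_filter] at hi
    have : i ≤ ⟨k - 1, hc⟩ := by
      rw [Fin.le_def]
      change (i : ℕ) ≤ k - 1
      have := hi.2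
      omega
    have := ha this
    linarith
  have hle : ∀ i ∈ S \ T, a i - c ≤ 0 := by
    intro i hi
    rw [Finset.mem_sdiff, hT, Finset.mem_filter] at hi
    have h2 : ¬ (i : ℕ) < k := fun h => hi.2 ⟨Finset.mem_univ _, h⟩
    have : (⟨k - 1, hc⟩ : Fin n) ≤ i := by
      rw [Fin.le_def]
      change k - 1 ≤ (i : ℕ)
      omega
    have := ha this
    linarith
  have h3 : ∑ i ∈ S, (a i - c) ≤ ∑ i ∈ T, (a i - c) := by
    rw [← Finset.sum_inter_add_sum_sdiff S T]
    have h4 : ∑ i ∈ S \ T, (a i - c) ≤ 0 := Finset.sum_nonpos hle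
    have h5 : ∑ i ∈ S ∩ T, (a i - c) ≤ ∑ i ∈ T, (a i - c) :=
      Finset.sum_le_sum_of_subset_of_nonneg Finset.inter_subset_right
        (fun i hi _ => hge i hi)
    linarith
  rw [Finset.sum_sub_distrib, Finset.sum_sub_distrib, Finset.sum_const, Finset.sum_const, hScard,
    hTcard] at h3
  rw [hsum]
  have : sk k a = ∑ i ∈ T, a i := rfl
  rw [this]
  linarith

private theorem det_diag_sub {n k : ℕ} (d : Fin n → ℝ) {f : Fin k → Fin n}
    (hf : Function.Injective f) :
    ((diagonal d).submatrix f f).det = ∏ i, d (f i) := by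
  rw [Matrix.submatrix_diagonal _ _ hf, det_diagonal]
  rfl

private theorem det_sub_zero {n k : ℕ} (x : Mr n) {f : Fin k → Fin n}
    (hf : ¬ Function.Injective f) (g : Fin k → Fin n) :
    (x.submatrix f g).det = 0 := by
  rw [Function.not_injective_iff] at hf
  obtain ⟨i, j, hij, hne⟩ := hf
  refine Matrix.det_zero_of_row_eq hne ?_
  ext l
  simp [Matrix.submatrix_apply, hij]

theorem Nk_ex_ge {m : ℕ} {k : ℕ} (hk : k ≤ m + 1) {a : Fin (m + 1) → ℝ} (hs : ∑ i, a i = 0) :
    Real.exp (sk k a) ≤ Nk k (ex a : Mr (m + 1)) := by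
  refine le_trans ?_ (abs_mk_le hk (ex a : Mr (m + 1)))
  rw [ex_coe_of_sum hs]
  unfold mk
  rw [det_diag_sub _ (ld_inj hk), ← Real.exp_sum, sum_ld hk]
  exact le_abs_self _

private theorem sum_sq_diag {n k : ℕ} (d : Fin n → ℝ) :
    ∑ f : Fin k → Fin n, ∑ g : Fin k → Fin n, ((diagonal d).submatrix f g).det ^ 2 =
      k.factorial * ∑ f : Fin k → Fin n, ((diagonal fun i => d i * d i).submatrix f f).det := by
  rw [Finset.mul_sum]
  refine Finset.sum_congr rfl fun f _ => ?_
  have h := congrFun (congrFun (cauchy_binet k (diagonal d) (diagonal d)) f) f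
  rw [diagonal_mul_diagonal, Matrix.mul_apply, Matrix.smul_apply, smul_eq_mul] at h
  change _ = (k.factorial : ℝ) * ((diagonal fun i => d i * d i).submatrix f f).det at h
  rw [← h]
  refine Finset.sum_congr rfl fun g _ => ?_
  unfold Dk
  have h2 : ((diagonal d).submatrix g f).det = ((diagonal d).submatrix f g).det := by
    rw [← det_transpose, transpose_submatrix, diagonal_transpose]
  rw [h2, sq]

theorem Nk_ex_le {m : ℕ} {k : ℕ} {a : Fin (m + 1) → ℝ} (ha : Antitone a)
    (hs : ∑ i, a i = 0) :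
    Nk k (ex a : Mr (m + 1)) ≤ 2 ^ (m + 1) * Real.exp (sk k a) := by
  classical
  rw [ex_coe_of_sum hs]
  unfold Nk
  have hf0 : (0 : ℝ) < k.factorial := by exact_mod_cast k.factorial_pos
  rw [div_le_iff₀ hf0]
  refine Real.sqrt_le_iff.2 ⟨by positivity, ?_⟩
  rw [sum_sq_diag]
  have hterm : ∀ f : Fin k → Fin (m + 1),
      ((diagonal fun i => Real.exp (a i) * Real.exp (a i)).submatrix f f).det ≤
        if Function.Injective f then Real.exp (sk k a) ^ 2 else 0 := by
    intro f
    split_ifs with hf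
    · rw [det_diag_sub _ hf, Finset.prod_mul_distrib, ← Real.exp_sum, sq]
      have := Real.exp_le_exp.2 (sum_le_sk ha hf)
      exact mul_le_mul this this (Real.exp_pos _).le (Real.exp_pos _).le
    · rw [det_sub_zero _ hf]
  have hsum := Finset.sum_le_sum (fun f (_ : f ∈ (Finset.univ : Finset (Fin k → Fin (m + 1)))) =>
    hterm f)
  rw [← Finset.sum_filter, Finset.sum_const, nsmul_eq_mul] at hsum
  have hcard : ((Finset.univ : Finset (Fin k → Fin (m + 1))).filter
      (fun f => Function.Injective f)).card = k.factorial * (m + 1).choose k := by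
    rw [← Nat.descFactorial_eq_factorial_mul_choose]
    have h1 := Fintype.card_embedding_eq (α := Fin k) (β := Fin (m + 1))
    rw [Fintype.card_fin, Fintype.card_fin] at h1
    rw [← h1, ← Fintype.card_subtype]
    exact Fintype.card_congr (Equiv.subtypeInjectiveEquivEmbedding _ _)
  rw [hcard] at hsum
  have hch : (((m + 1).choose k : ℕ) : ℝ) ≤ 4 ^ (m + 1) := by
    have h1 : (m + 1).choose k ≤ 2 ^ (m + 1) := Nat.choose_le_two_pow _ _
    have h2 : 2 ^ (m + 1) ≤ 4 ^ (m + 1) := Nat.pow_le_pow_left (by norm_num) _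
    exact_mod_cast h1.trans h2
  have h4 : (4 : ℝ) ^ (m + 1) = (2 ^ (m + 1)) ^ 2 := by
    rw [← pow_mul, mul_comm, pow_mul]
    norm_num
  calc (k.factorial : ℝ) * ∑ f : Fin k → Fin (m + 1),
        ((diagonal fun i => Real.exp (a i) * Real.exp (a i)).submatrix f f).det
      ≤ (k.factorial : ℝ) * (((k.factorial * (m + 1).choose k : ℕ) : ℝ) *
          Real.exp (sk k a) ^ 2) := mul_le_mul_of_nonneg_left hsum hf0.le
    _ = (k.factorial : ℝ) ^ 2 * (((m + 1).choose k : ℕ) : ℝ) * Real.exp (sk k a) ^ 2 := by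
        push_cast
        ring
    _ ≤ (k.factorial : ℝ) ^ 2 * 4 ^ (m + 1) * Real.exp (sk k a) ^ 2 := by
        gcongr
    _ = (2 ^ (m + 1) * Real.exp (sk k a) * (k.factorial : ℝ)) ^ 2 := by
        rw [h4]
        ring

/-- paper (2.3) -/
theorem om_svd {m : ℕ} {k : ℕ} (hk : k ≤ m + 1) {a : Fin (m + 1) → ℝ} (ha : Antitone a)
    (hs : ∑ i, a i = 0) {o o' : SLr (m + 1)} (ho : Orth o) (ho' : Orth o') :
    sk k a ≤ om k ((o * ex a * o' : SLr (m + 1)) : Mr (m + 1)) ∧
      om k ((o * ex a * o' : SLr (m + 1)) : Mr (m + 1)) ≤ sk k a + (m + 1) * Real.log 2 := by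
  have h1 : Nk k ((o * ex a * o' : SLr (m + 1)) : Mr (m + 1)) = Nk k (ex a : Mr (m + 1)) := by
    have h0 : ((o * ex a * o' : SLr (m + 1)) : Mr (m + 1)) =
        (o : Mr (m + 1)) * (ex a : Mr (m + 1)) * (o' : Mr (m + 1)) := rfl
    exact (congrArg (Nk k) h0).trans ((Nk_orth_right k ho' _).trans (Nk_orth_left k ho _))
  unfold om
  rw [h1]
  have h2 := Nk_ex_ge hk hs
  have h3 := Nk_ex_le (k := k) ha hs
  have h4 : 0 < Nk k (ex a : Mr (m + 1)) := lt_of_lt_of_le (Real.exp_pos _) h2
  constructor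
  · rw [Real.le_log_iff_exp_le h4]
    exact h2
  · have h5 := Real.log_le_log h4 h3
    rw [Real.log_mul (by positivity) (Real.exp_pos _).ne', Real.log_exp, Real.log_pow] at h5
    push_cast at h5
    linarith

end Pool.Agent.Lib.MP_41a456_al.TC
end

section

section

/-!
# MP_41a456_al, Theorem TC, B2: singular value decomposition (paper 521, (2.2))

Spectral theorem for the positive definite symmetric matrix `gᵀ g` (determinant 1): an
orthonormal basis `f_i` of eigenvectors, eigenvalues `exp (2 a_i)`, decreasing order; the vectors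
`exp (-a_i) g f_i` are orthonormal. So `g = k D k'`, `k, k'` orthogonal, `D` the diagonal matrix
with the entries `exp (a_i)`, `det D = 1`, hence `det k = det k' = ±1`; if they are `-1`, multiply the first
column of `k` and the first row of `k'` by `-1`.
-/

namespace Pool.Agent.Lib.MP_41a456_al.TC

open Matrix MeasureTheory Filter Topology Pool.Agent.Lib.MP_41a456_al

private theorem svd_spec (m : ℕ) (g : Mr (m + 1)) (hg : g.det = 1) :
    ∃ (V : Mr (m + 1)) (b : Fin (m + 1) → ℝ), Antitone b ∧ Vᵀ * V = 1 ∧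
      gᵀ * g = V * diagonal (fun i => Real.exp (2 * b i)) * Vᵀ := by
  have hinj : Function.Injective g.mulVec := by
    rw [Matrix.mulVec_injective_iff_isUnit, Matrix.isUnit_iff_isUnit_det, hg]
    exact isUnit_one
  have hP : (gᴴ * g).PosDef := Matrix.PosDef.conjTranspose_mul_self g hinj
  have hA := hP.isHermitian
  set U : Mr (m + 1) := (hA.eigenvectorUnitary : Mr (m + 1)) with hU
  have hUU : Uᵀ * U = 1 := by
    have h := Unitary.coe_star_mul_self hA.eigenvectorUnitary
    rw [star_eq_conjTranspose, conjTranspose_eq_transpose_of_trivial] at h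
    exact h
  have hs : gᵀ * g = U * diagonal hA.eigenvalues * Uᵀ := by
    have h := hA.spectral_theorem
    rw [Unitary.conjStarAlgAut_apply, star_eq_conjTranspose] at h
    have e1 : gᵀ = gᴴ := (conjTranspose_eq_transpose_of_trivial g).symm
    have e2 : Uᵀ = Uᴴ := (conjTranspose_eq_transpose_of_trivial U).symm
    rw [e1, e2]
    exact h
  set σ := Tuple.sort (fun i => -(Real.log (hA.eigenvalues i) / 2)) with hσ
  have hmono := Tuple.monotone_sort (fun i => -(Real.log (hA.eigenvalues i) / 2))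
  refine ⟨U.submatrix id σ, fun i => Real.log (hA.eigenvalues (σ i)) / 2, ?_, ?_, ?_⟩
  · intro i j hij
    have h := hmono hij
    simp only [Function.comp_apply] at h
    rw [← hσ] at h
    exact neg_le_neg_iff.1 h
  · rw [transpose_submatrix, ← submatrix_mul _ _ _ id _ Function.bijective_id, hUU]
    exact submatrix_one_equiv σ
  · have hd : diagonal (fun i => Real.exp (2 * (Real.log (hA.eigenvalues (σ i)) / 2))) =
        (diagonal hA.eigenvalues).submatrix σ σ := by
      rw [submatrix_diagonal_equiv]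
      congr 1
      funext i
      rw [mul_div_cancel₀ _ (two_ne_zero), Real.exp_log (hP.eigenvalues_pos _)]
      rfl
    rw [hd, transpose_submatrix, ← submatrix_mul _ _ _ σ _ σ.bijective,
      ← submatrix_mul _ _ _ σ _ σ.bijective, ← hs]
    exact (submatrix_id_id _).symm

theorem svd (m : ℕ) (g : SLr (m + 1)) : ∃ (k : SLr (m + 1)) (a : Fin (m + 1) → ℝ)
    (k' : SLr (m + 1)), Orth k ∧ Orth k' ∧ Antitone a ∧ ∑ i, a i = 0 ∧ g = k * ex a * k' := by
  obtain ⟨V, b, hb, hV, hs⟩ := svd_spec m (g : Mr (m + 1)) g.2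
  set G : Mr (m + 1) := (g : Mr (m + 1)) with hG
  have hGdet : G.det = 1 := g.2
  have hV' : V * Vᵀ = 1 := mul_eq_one_comm.1 hV
  set D : Mr (m + 1) := diagonal fun i => Real.exp (b i) with hD
  set D' : Mr (m + 1) := diagonal fun i => Real.exp (-b i) with hD'
  have hDD' : D' * D = 1 := by
    rw [hD, hD', diagonal_mul_diagonal, ← diagonal_one]
    congr 1
    funext i
    rw [← Real.exp_add, neg_add_cancel, Real.exp_zero]
  have hDD : D' * diagonal (fun i => Real.exp (2 * b i)) * D' = 1 := by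
    rw [hD', diagonal_mul_diagonal, diagonal_mul_diagonal, ← diagonal_one]
    congr 1
    funext i
    rw [← Real.exp_add, ← Real.exp_add]
    have : -b i + 2 * b i + -b i = 0 := by ring
    rw [this, Real.exp_zero]
  set K : Mr (m + 1) := G * V * D' with hK
  have hKK : Kᵀ * K = 1 := by
    have e1 : Kᵀ = D' * Vᵀ * Gᵀ := by
      rw [hK, transpose_mul, transpose_mul, hD', diagonal_transpose, Matrix.mul_assoc]
    rw [e1, hK]
    calc D' * Vᵀ * Gᵀ * (G * V * D') = D' * Vᵀ * (Gᵀ * G) * V * D' := by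
          simp only [Matrix.mul_assoc]
      _ = D' * ((Vᵀ * V) * diagonal (fun i => Real.exp (2 * b i)) * (Vᵀ * V)) * D' := by
          rw [hs]
          simp only [Matrix.mul_assoc]
      _ = 1 := by rw [hV, Matrix.one_mul, Matrix.mul_one, hDD]
  have hGK : G = K * D * Vᵀ := by
    rw [hK, Matrix.mul_assoc (G * V) D' D, hDD', Matrix.mul_one, Matrix.mul_assoc, hV', Matrix.mul_one]
  -- determinants
  have hK2 : K.det * K.det = 1 := by
    have h := congrArg Matrix.det hKK
    rwa [det_mul, det_transpose, det_one] at h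
  have hV2 : V.det * V.det = 1 := by
    have h := congrArg Matrix.det hV
    rwa [det_mul, det_transpose, det_one] at h
  have hDdet : D.det = Real.exp (∑ i, b i) := by
    rw [hD, det_diagonal, Real.exp_sum]
  have hdet : K.det * Real.exp (∑ i, b i) * V.det = 1 := by
    rw [← hDdet, ← det_transpose V, ← det_mul, ← det_mul, ← hGK, hGdet]
  have hE : Real.exp (∑ i, b i) = 1 := by
    have hpos := Real.exp_pos (∑ i, b i)
    have h1 : Real.exp (∑ i, b i) * Real.exp (∑ i, b i) = 1 := by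
      have h2 : (K.det * Real.exp (∑ i, b i) * V.det) * (K.det * Real.exp (∑ i, b i) * V.det) = 1 := by
        rw [hdet, mul_one]
      calc Real.exp (∑ i, b i) * Real.exp (∑ i, b i)
          = (K.det * K.det) * (Real.exp (∑ i, b i) * Real.exp (∑ i, b i)) * (V.det * V.det) := by
            rw [hK2, hV2]
            ring
        _ = 1 := by
            rw [← h2]
            ring
    nlinarith
  have hsum : ∑ i, b i = 0 := by
    have h := congrArg Real.log hE
    rwa [Real.log_exp, Real.log_one] at h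
  have hKV : K.det * V.det = 1 := by
    rw [hE, mul_one] at hdet
    exact hdet
  set J : Mr (m + 1) := diagonal (Function.update (fun _ => (1 : ℝ)) 0 K.det) with hJ
  have hJJ : J * J = 1 := by
    rw [hJ, diagonal_mul_diagonal, ← diagonal_one]
    congr 1
    funext i
    by_cases hi : i = 0
    · subst hi
      rw [Function.update_self, hK2]
    · rw [Function.update_of_ne hi, mul_one]
  have hJt : Jᵀ = J := by rw [hJ, diagonal_transpose]
  have hJdet : J.det = K.det := by
    rw [hJ, det_diagonal, Finset.prod_update_of_mem (Finset.mem_univ _)]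
    simp
  have hJD : J * D * J = D := by
    have h1 : J * D = D * J := by
      rw [hJ, hD, diagonal_mul_diagonal, diagonal_mul_diagonal]
      congr 1
      funext i
      rw [mul_comm]
    rw [h1, Matrix.mul_assoc, hJJ, Matrix.mul_one]
  refine ⟨⟨K * J, by rw [det_mul, hJdet, hK2]⟩, b, ⟨J * Vᵀ, by rw [det_mul, hJdet, det_transpose, hKV]⟩,
    ?_, ?_, hb, hsum, ?_⟩
  · show (K * J)ᵀ * (K * J) = 1
    rw [transpose_mul, hJt, Matrix.mul_assoc, ← Matrix.mul_assoc Kᵀ, hKK, Matrix.one_mul, hJJ]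
  · show (J * Vᵀ)ᵀ * (J * Vᵀ) = 1
    rw [transpose_mul, transpose_transpose, hJt, Matrix.mul_assoc, ← Matrix.mul_assoc J, hJJ,
      Matrix.one_mul, hV']
  · apply Subtype.ext
    show G = (K * J) * (ex b : Mr (m + 1)) * (J * Vᵀ)
    rw [ex_coe_of_sum hsum, ← hD, Matrix.mul_assoc K J D, ← Matrix.mul_assoc (K * (J * D)),
      Matrix.mul_assoc K (J * D) J, hJD]
    exact hGK

end Pool.Agent.Lib.MP_41a456_al.TC
end

section

/-!
# MP_41a456_al, Theorem TC, D4: completion of a primitive matrix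

The cofactors `c_i` (with `det [z, y] = ∑ y_i c_i`) have no common prime divisor (`z` has rank `m` mod `p`, so
some maximal minor is not 0 mod `p`), so `gcd = 1` and Bezout gives `y` with `det [z, y] = 1`. Orthogonal
decomposition: `y = ∑ θ_j z_j + ν` with `ν = c / |c|²` (`c` is orthogonal to the columns, `y · c = 1`, and the
columns together with `c` span), `|ν_i| ≤ |c_i| / |c|² ≤ 1` since `c` is integral and not 0. Subtract
`∑ round(θ_j) z_j` from `y`.
-/

namespace Pool.Agent.Lib.MP_41a456_al.TC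

open Matrix MeasureTheory Filter Topology Pool.Agent.Lib.MP_41a456_al

/-- the matrix with columns `z_0, …, z_{m-1}, v` -/
private def d4G {R : Type*} {m : ℕ} (z : Fin m → Fin (m + 1) → R) (v : Fin (m + 1) → R) :
    Matrix (Fin (m + 1)) (Fin (m + 1)) R :=
  Matrix.of fun i => Fin.snoc (α := fun _ => R) (fun j => z j i) (v i)

/-- the cofactors of the last column -/
private def d4c {R : Type*} [CommRing R] {m : ℕ} (z : Fin m → Fin (m + 1) → R) (i : Fin (m + 1)) : R :=
  (-1) ^ ((i : ℕ) + m) * (Matrix.of fun (a b : Fin m) => z b (i.succAbove a)).det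

private theorem d4G_cast {R : Type*} {m : ℕ} (z : Fin m → Fin (m + 1) → R) (v : Fin (m + 1) → R)
    (i : Fin (m + 1)) (j : Fin m) : d4G z v i j.castSucc = z j i := by
  simp [d4G]

private theorem d4G_last {R : Type*} {m : ℕ} (z : Fin m → Fin (m + 1) → R) (v : Fin (m + 1) → R)
    (i : Fin (m + 1)) : d4G z v i (Fin.last m) = v i := by
  simp [d4G]

private theorem d4_det {R : Type*} [CommRing R] {m : ℕ} (z : Fin m → Fin (m + 1) → R)
    (v : Fin (m + 1) → R) : (d4G z v).det = ∑ i, v i * d4c z i := by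
  rw [Matrix.det_succ_column _ (Fin.last m)]
  refine Finset.sum_congr rfl fun i _ => ?_
  rw [d4G_last]
  have h1 : (d4G z v).submatrix i.succAbove (Fin.last m).succAbove =
      Matrix.of fun (a b : Fin m) => z b (i.succAbove a) := by
    ext a b
    rw [submatrix_apply, Fin.succAbove_last, d4G_cast]
    rfl
  rw [h1, d4c, Fin.val_last]
  ring

private theorem d4c_map {R S : Type*} [CommRing R] [CommRing S] (f : R →+* S) {m : ℕ}
    (z : Fin m → Fin (m + 1) → R) (i : Fin (m + 1)) :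
    d4c (fun j i => f (z j i)) i = f (d4c z i) := by
  unfold d4c
  rw [map_mul, map_pow, map_neg, map_one, RingHom.map_det]
  rfl

private theorem d4_col {R : Type*} [CommRing R] {m : ℕ} (z : Fin m → Fin (m + 1) → R) (j : Fin m) :
    ∑ i, z j i * d4c z i = 0 := by
  rw [← d4_det z (z j)]
  refine Matrix.det_zero_of_column_eq (i := j.castSucc) (j := Fin.last m)
    (Fin.castSucc_lt_last j).ne fun i => ?_
  rw [d4G_cast, d4G_last]

private theorem d4_notdvd {m : ℕ} (z : Fin m → Fin (m + 1) → ℤ) (hz : PrimC z) (p : ℕ)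
    (hp : p.Prime) : ∃ i, ¬ (p : ℤ) ∣ d4c z i := by
  haveI : Fact p.Prime := ⟨hp⟩
  by_contra hcon
  push Not at hcon
  set zp : Fin m → Fin (m + 1) → ZMod p := fun j i => ((z j i : ℤ) : ZMod p) with hzp
  have hli : LinearIndependent (ZMod p) zp := hz p hp
  have hc0 : ∀ i, d4c zp i = 0 := by
    intro i
    have h1 := d4c_map (Int.castRingHom (ZMod p)) z i
    have h2 : d4c zp i = ((d4c z i : ℤ) : ZMod p) := h1
    rw [h2]
    exact (ZMod.intCast_zmod_eq_zero_iff_dvd _ p).2 (hcon i)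
  -- a vector outside the span
  obtain ⟨y, hy⟩ : ∃ y : Fin (m + 1) → ZMod p, y ∉ Submodule.span (ZMod p) (Set.range zp) := by
    by_contra h
    push Not at h
    have h1 : Submodule.span (ZMod p) (Set.range zp) = ⊤ := by
      rw [eq_top_iff]
      exact fun y _ => h y
    have h2 := finrank_span_eq_card hli
    rw [h1, finrank_top, Module.finrank_fin_fun, Fintype.card_fin] at h2
    omega
  have hli2 : LinearIndependent (ZMod p) (Fin.snoc (α := fun _ => Fin (m + 1) → ZMod p) zp y) :=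
    linearIndependent_finSnoc.2 ⟨hli, hy⟩
  have h3 : (d4G zp y).det = 0 := by
    rw [d4_det]
    exact Finset.sum_eq_zero fun i _ => by rw [hc0, mul_zero]
  have h4 : (fun i => (d4G zp y)ᵀ i) = Fin.snoc (α := fun _ => Fin (m + 1) → ZMod p) zp y := by
    funext j
    refine Fin.lastCases ?_ (fun j => ?_) j
    · funext i
      rw [transpose_apply, d4G_last, Fin.snoc_last]
    · funext i
      rw [transpose_apply, d4G_cast, Fin.snoc_castSucc]
  have h5 : LinearIndependent (ZMod p) (d4G zp y)ᵀ.row := by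
    have : (d4G zp y)ᵀ.row = fun i => (d4G zp y)ᵀ i := rfl
    rw [this, h4]
    exact hli2
  rw [Matrix.linearIndependent_rows_iff_isUnit, Matrix.isUnit_iff_isUnit_det, det_transpose, h3] at h5
  exact not_isUnit_zero h5

private theorem d4_bezout {m : ℕ} (z : Fin m → Fin (m + 1) → ℤ) (hz : PrimC z) :
    ∃ y : Fin (m + 1) → ℤ, ∑ i, y i * d4c z i = 1 := by
  have h1 : (1 : ℤ) ∈ Ideal.span (Set.range (d4c z)) := by
    obtain ⟨g, hg⟩ := (IsPrincipalIdealRing.principal (Ideal.span (Set.range (d4c z)))).principal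
    have hg' : Ideal.span (Set.range (d4c z)) = Ideal.span {g} := hg
    have hdvd : ∀ i, g ∣ d4c z i := by
      intro i
      have h2 : d4c z i ∈ Ideal.span (Set.range (d4c z)) := Ideal.subset_span ⟨i, rfl⟩
      rw [hg', Ideal.mem_span_singleton] at h2
      exact h2
    by_cases hu : g.natAbs = 1
    · rw [hg', Ideal.mem_span_singleton]
      exact (Int.natAbs_dvd.1 (by rw [hu]; simp))
    · obtain ⟨p, hp, hpg⟩ := Nat.exists_prime_and_dvd hu
      obtain ⟨i, hi⟩ := d4_notdvd z hz p hp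
      exact absurd ((Int.natCast_dvd.2 hpg).trans (hdvd i)) hi
  obtain ⟨y, hy⟩ := (Ideal.mem_span_range_iff_exists_fun).1 h1
  exact ⟨y, hy⟩

theorem complete_red {m : ℕ} (z : Fin m → Fin (m + 1) → ℤ) (hz : PrimC z) :
    ∃ g : SLn (m + 1), (∀ (i : Fin (m + 1)) (j : Fin m), (g : Mt (m + 1)) i j.castSucc = z j i) ∧
      ∃ (θ : Fin m → ℝ) (ν : Fin (m + 1) → ℝ), (∀ j, |θ j| ≤ 1 / 2) ∧ (∀ i, |ν i| ≤ 1) ∧
        ∀ i, (((g : Mt (m + 1)) i (Fin.last m) : ℤ) : ℝ) = ∑ j, θ j * (z j i : ℝ) + ν i := by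
  obtain ⟨y, hy⟩ := d4_bezout z hz
  set c : Fin (m + 1) → ℝ := fun i => ((d4c z i : ℤ) : ℝ) with hc
  set zr : Fin m → Fin (m + 1) → ℝ := fun j i => (z j i : ℝ) with hzr
  have hcr : ∀ i, d4c zr i = c i := fun i => d4c_map (Int.castRingHom ℝ) z i
  have hyr : ∑ i, (y i : ℝ) * c i = 1 := by
    have h1 := congrArg (fun t : ℤ => (t : ℝ)) hy
    simpa [hc] using h1
  set N : ℝ := ∑ i, c i * c i with hN
  have hNi : ∀ i, c i * c i ≤ N := fun i =>
    Finset.single_le_sum (f := fun i => c i * c i) (fun i _ => mul_self_nonneg _) (Finset.mem_univ i)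
  obtain ⟨i₀, hi₀⟩ : ∃ i, d4c z i ≠ 0 := by
    by_contra h
    push Not at h
    have h1 : ∑ i, y i * d4c z i = 0 := Finset.sum_eq_zero fun i _ => by rw [h i, mul_zero]
    rw [h1] at hy
    exact zero_ne_one hy
  have habs : ∀ i, d4c z i ≠ 0 → 1 ≤ |c i| := by
    intro i hi
    have h1 : (1 : ℤ) ≤ |d4c z i| := Int.one_le_abs hi
    have h2 : ((1 : ℤ) : ℝ) ≤ ((|d4c z i| : ℤ) : ℝ) := by exact_mod_cast h1
    simpa [hc] using h2
  have hN1 : 1 ≤ N := by
    have h1 := habs i₀ hi₀
    have h2 := hNi i₀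
    have h3 : c i₀ * c i₀ = |c i₀| * |c i₀| := (abs_mul_abs_self _).symm
    nlinarith
  set ν : Fin (m + 1) → ℝ := fun i => c i / N with hν
  set v : Fin (m + 1) → ℝ := fun i => (y i : ℝ) - ν i with hv
  have hvc : ∑ i, v i * c i = 0 := by
    have h1 : ∑ i, v i * c i = ∑ i, (y i : ℝ) * c i - (∑ i, c i * c i) / N := by
      rw [Finset.sum_div, ← Finset.sum_sub_distrib]
      refine Finset.sum_congr rfl fun i _ => ?_
      simp only [hv, hν]
      ring
    rw [h1, hyr, ← hN, div_self (by linarith), sub_self]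
  set A : Matrix (Fin (m + 1)) (Fin (m + 1)) ℝ := d4G zr (fun i => (y i : ℝ)) with hA
  have hAdet : A.det = 1 := by
    rw [hA, d4_det]
    simpa only [hcr] using hyr
  have hcram := Matrix.mulVec_cramer A v
  rw [hAdet, one_smul] at hcram
  have hlast : A.cramer v (Fin.last m) = 0 := by
    rw [cramer_apply]
    have h1 : A.updateCol (Fin.last m) v = d4G zr v := by
      ext i j
      refine Fin.lastCases ?_ (fun j => ?_) j
      · rw [updateCol_self, d4G_last]
      · rw [updateCol_ne (Fin.castSucc_lt_last j).ne, hA, d4G_cast, d4G_cast]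
    rw [h1, d4_det]
    simpa only [hcr] using hvc
  set θ : Fin m → ℝ := fun j => A.cramer v j.castSucc with hθ
  have hdec : ∀ i, (y i : ℝ) = ∑ j, θ j * (z j i : ℝ) + ν i := by
    intro i
    have h1 := congrFun hcram i
    rw [mulVec, dotProduct, Fin.sum_univ_castSucc, hlast, mul_zero, add_zero] at h1
    have h2 : ∑ j, θ j * (z j i : ℝ) = v i := by
      rw [← h1]
      refine Finset.sum_congr rfl fun j _ => ?_
      rw [hA, d4G_cast, mul_comm]
    rw [h2]
    simp only [hv]
    ring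
  set y' : Fin (m + 1) → ℤ := fun i => y i - ∑ j, round (θ j) * z j i with hy'
  have hdet' : (d4G z y').det = 1 := by
    rw [d4_det]
    have h1 : ∑ i, y' i * d4c z i = ∑ i, y i * d4c z i -
        ∑ j, round (θ j) * ∑ i, z j i * d4c z i := by
      simp only [hy', sub_mul, Finset.sum_sub_distrib, Finset.mul_sum, Finset.sum_mul]
      rw [Finset.sum_comm]
      congr 1
      refine Finset.sum_congr rfl fun j _ => Finset.sum_congr rfl fun i _ => by ring
    rw [h1, hy]
    simp only [d4_col, mul_zero, Finset.sum_const_zero, sub_zero]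
  refine ⟨⟨d4G z y', hdet'⟩, fun i j => d4G_cast z y' i j, fun j => θ j - round (θ j), ν,
    fun j => abs_sub_round (θ j), fun i => ?_, fun i => ?_⟩
  · have hNpos : 0 < N := by linarith
    rw [hν]
    simp only
    rw [abs_div, abs_of_pos hNpos, div_le_one hNpos]
    by_cases hi : d4c z i = 0
    · have : c i = 0 := by simp [hc, hi]
      rw [this, abs_zero]
      exact hNpos.le
    · have h1 := habs i hi
      have h2 := hNi i
      have h3 : c i * c i = |c i| * |c i| := (abs_mul_abs_self _).symm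
      nlinarith
  · change ((d4G z y' i (Fin.last m) : ℤ) : ℝ) = _
    rw [d4G_last]
    have h1 := hdec i
    simp only [hy', sub_mul, Finset.sum_sub_distrib]
    push_cast
    rw [h1]
    ring

end Pool.Agent.Lib.MP_41a456_al.TC
end

section

/-!
# MP_41a456_al, Theorem TC, D3: sieve: one more column, all columns

Paper 521, (4.1). `n = m + 1`, columns `z_0, …, z_{m-1}` of an integral `n × m` matrix, entries in the windows
`win`: diagonal `[M t_j, M t_j + T)`, entry `(last, 0)` equal to 0, other entries in `[0, T)`.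
`col_step`: `bad_small` summed over the primes `p ≤ T` (`sum_primes`) and `bad_large`: at most
`0.6 T^frd + C T^(frd-1) ≤ (3/4) T^frd` columns are bad. `prim_count`: induction over the number of columns
(`Fin.snocEquiv`, `Fin.consEquiv` or an induction with `Fintype.piFinset`).
-/

namespace Pool.Agent.Lib.MP_41a456_al.TC

open Matrix MeasureTheory Filter Topology Pool.Agent.Lib.MP_41a456_al

theorem col_step {m : ℕ} (hm : 2 ≤ m) (K M : ℕ) (hM : m + 1 ≤ M) : ∃ T0 : ℕ, ∀ T : ℕ, T0 ≤ T →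
    ∀ t : Fin m → ℕ, (∀ j, T ≤ t j ∧ t j ≤ T ^ K) → ∀ (k : ℕ) (hk : k < m)
    (z : Fin k → Fin (m + 1) → ℤ), (∀ l : Fin k, z l ∈ colw M T t ⟨l, l.2.trans hk⟩) → PrimC z →
    ∃ S : Finset (Fin (m + 1) → ℤ), (∀ c ∈ S, c ∈ colw M T t ⟨k, hk⟩ ∧ PrimC (snc z c)) ∧
      T ^ (frd m ⟨k, hk⟩) ≤ 4 * S.card := by
  classical
  obtain ⟨T1, hT1⟩ := sum_primes m
  obtain ⟨C, T2, hT2⟩ := bad_large hm K M hM
  refine ⟨max (max T1 T2) (10 * C + 1), ?_⟩
  intro T hT t ht k hk z hz hP
  have hTa : T1 ≤ T := le_trans (le_trans (le_max_left _ _) (le_max_left _ _)) hT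
  have hTb : T2 ≤ T := le_trans (le_trans (le_max_right _ _) (le_max_left _ _)) hT
  have hTc : 10 * C + 1 ≤ T := le_trans (le_max_right _ _) hT
  set W := colw M T t ⟨k, hk⟩ with hW
  set f := frd m ⟨k, hk⟩ with hf
  have hWc : W.card = T ^ f := card_colw M T t ⟨k, hk⟩
  let Pr : Finset ℕ := (Finset.range (T + 1)).filter Nat.Prime
  let Bp : ℕ → Finset (Fin (m + 1) → ℤ) := fun p => W.filter (fun c => ¬ LIp p (snc z c))
  let BL : Finset (Fin (m + 1) → ℤ) :=
    W.filter (fun c => ∃ p : ℕ, p.Prime ∧ T < p ∧ ¬ LIp p (snc z c))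
  let S : Finset (Fin (m + 1) → ℤ) := W.filter (fun c => PrimC (snc z c))
  refine ⟨S, fun c hc => ⟨(Finset.mem_filter.1 hc).1, (Finset.mem_filter.1 hc).2⟩, ?_⟩
  -- the bad columns
  have hsub : W.filter (fun c => ¬ PrimC (snc z c)) ⊆ Pr.biUnion Bp ∪ BL := by
    intro c hc
    obtain ⟨hcW, hcP⟩ := Finset.mem_filter.1 hc
    unfold PrimC at hcP
    push Not at hcP
    obtain ⟨p, hp, hpL⟩ := hcP
    rw [Finset.mem_union]
    rcases Nat.lt_or_ge T p with h | h
    · right
      exact Finset.mem_filter.2 ⟨hcW, p, hp, h, hpL⟩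
    · left
      refine Finset.mem_biUnion.2 ⟨p, ?_, Finset.mem_filter.2 ⟨hcW, hpL⟩⟩
      exact Finset.mem_filter.2 ⟨Finset.mem_range.2 (Nat.lt_succ_of_le h), hp⟩
  have hcard : (W.filter (fun c => ¬ PrimC (snc z c))).card ≤ (∑ p ∈ Pr, (Bp p).card) + BL.card := by
    refine le_trans (Finset.card_le_card hsub) (le_trans (Finset.card_union_le _ _) ?_)
    exact Nat.add_le_add_right Finset.card_biUnion_le _
  have hsplit : S.card + (W.filter (fun c => ¬ PrimC (snc z c))).card = W.card :=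
    Finset.card_filter_add_card_filter_not _
  have hsm : ((∑ p ∈ Pr, (Bp p).card : ℕ) : ℝ) ≤ 6 / 10 * (T : ℝ) ^ f := by
    rw [Nat.cast_sum]
    have h1 : ∀ p ∈ Pr, (((Bp p).card : ℕ) : ℝ) ≤
        (1 / (p : ℝ) ^ 2 * (1 + (p : ℝ) / T) ^ (m + 1)) * (T : ℝ) ^ f := by
      intro p hp
      obtain ⟨hpr, hpp⟩ := Finset.mem_filter.1 hp
      refine bad_small (M := M) (T := T) (t := t) hm hk z hpp
        (Nat.lt_succ_iff.1 (Finset.mem_range.1 hpr)) (hP p hpp) (Bp p) ?_
      intro c hc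
      exact ⟨(Finset.mem_filter.1 hc).1, (Finset.mem_filter.1 hc).2⟩
    refine le_trans (Finset.sum_le_sum h1) ?_
    rw [← Finset.sum_mul]
    exact mul_le_mul_of_nonneg_right (hT1 T hTa) (by positivity)
  have hla : BL.card * T ≤ C * T ^ f := by
    refine hT2 T hTb t ht k hk z hz hP BL ?_
    intro c hc
    exact ⟨(Finset.mem_filter.1 hc).1, (Finset.mem_filter.1 hc).2⟩
  have hla' : 10 * (BL.card : ℝ) ≤ (T : ℝ) ^ f := by
    have hTpos : (0 : ℝ) < T := by
      have : 0 < T := by omega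
      exact_mod_cast this
    have h1 : (BL.card : ℝ) * T ≤ C * (T : ℝ) ^ f := by exact_mod_cast hla
    have h2 : (10 : ℝ) * C ≤ T := by
      have : 10 * C ≤ T := by omega
      exact_mod_cast this
    have h3 : (0 : ℝ) ≤ (T : ℝ) ^ f := by positivity
    have h4 : 10 * (BL.card : ℝ) * T ≤ (T : ℝ) ^ f * T := by nlinarith
    exact le_of_mul_le_mul_right h4 hTpos
  have h5 : (S.card : ℝ) + ((W.filter (fun c => ¬ PrimC (snc z c))).card : ℝ) = (T : ℝ) ^ f := by
    have : ((S.card + (W.filter (fun c => ¬ PrimC (snc z c))).card : ℕ) : ℝ) = ((T ^ f : ℕ) : ℝ) := by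
      rw [hsplit, hWc]
    push_cast at this
    exact this
  have h6 : ((W.filter (fun c => ¬ PrimC (snc z c))).card : ℝ) ≤
      ((∑ p ∈ Pr, (Bp p).card : ℕ) : ℝ) + BL.card := by exact_mod_cast hcard
  have h7 : (T : ℝ) ^ f ≤ 4 * (S.card : ℝ) := by
    have h3 : (0 : ℝ) ≤ (T : ℝ) ^ f := by positivity
    linarith
  exact_mod_cast h7

/-- the exponents add up -/
private theorem frd_sum (m : ℕ) (k : ℕ) :
    (∑ i ∈ Finset.range (k + 1), (if i = 0 then m else m + 1)) + 1 = (k + 1) * (m + 1) := by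
  induction k with
  | zero => simp
  | succ k ih =>
    rw [Finset.sum_range_succ, if_neg (Nat.succ_ne_zero k), add_right_comm, ih]
    ring

theorem prim_count {m : ℕ} (hm : 2 ≤ m) (K M : ℕ) (hM : m + 1 ≤ M) : ∃ T0 : ℕ, ∀ T : ℕ, T0 ≤ T →
    ∀ t : Fin m → ℕ, (∀ j, T ≤ t j ∧ t j ≤ T ^ K) →
    ∃ S : Finset (Fin m → Fin (m + 1) → ℤ), (∀ z ∈ S, (∀ j, z j ∈ colw M T t j) ∧ PrimC z) ∧
      T ^ (m * (m + 1) - 1) ≤ 4 ^ m * S.card := by
  classical
  obtain ⟨T0, hT0⟩ := col_step hm K M hM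
  refine ⟨T0, fun T hT t ht => ?_⟩
  have key : ∀ (k : ℕ) (hk : k ≤ m), ∃ S : Finset (Fin k → Fin (m + 1) → ℤ),
      (∀ z ∈ S, (∀ l : Fin k, z l ∈ colw M T t ⟨l, lt_of_lt_of_le l.2 hk⟩) ∧ PrimC z) ∧
      T ^ (∑ i ∈ Finset.range k, (if i = 0 then m else m + 1)) ≤ 4 ^ k * S.card := by
    intro k
    induction k with
    | zero =>
      intro hk
      refine ⟨{fun l => Fin.elim0 l}, ?_, by simp⟩
      intro z _
      refine ⟨fun l => Fin.elim0 l, ?_⟩
      intro p _
      exact linearIndependent_empty_type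
    | succ k ih =>
      intro hk
      have hk' : k < m := hk
      obtain ⟨S, hS1, hS2⟩ := ih (le_of_lt hk')
      have hstep : ∀ z : Fin k → Fin (m + 1) → ℤ, ∃ S' : Finset (Fin (m + 1) → ℤ),
          z ∈ S → (∀ c ∈ S', c ∈ colw M T t ⟨k, hk'⟩ ∧ PrimC (snc z c)) ∧
            T ^ (frd m ⟨k, hk'⟩) ≤ 4 * S'.card := by
        intro z
        by_cases hz : z ∈ S
        · obtain ⟨S', h1, h2⟩ := hT0 T hT t ht k hk' z (hS1 z hz).1 (hS1 z hz).2
          exact ⟨S', fun _ => ⟨h1, h2⟩⟩
        · exact ⟨∅, fun h => absurd h hz⟩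
      choose F hF using hstep
      let Φ : (Σ _ : Fin k → Fin (m + 1) → ℤ, Fin (m + 1) → ℤ) → (Fin (k + 1) → Fin (m + 1) → ℤ) :=
        fun x => snc x.1 x.2
      have hinj : Function.Injective Φ := by
        rintro ⟨z, c⟩ ⟨z', c'⟩ h
        have h1 : snc z c = snc z' c' := h
        have h2 : z = z' := by
          funext l
          have h3 := congrFun h1 l.castSucc
          simpa [snc] using h3
        have h4 : c = c' := by
          have h3 := congrFun h1 (Fin.last k)
          simpa [snc] using h3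
        rw [h2, h4]
      refine ⟨(S.sigma F).image Φ, ?_, ?_⟩
      · intro y hy
        obtain ⟨⟨z, c⟩, hzc, rfl⟩ := Finset.mem_image.1 hy
        obtain ⟨hz, hc⟩ := Finset.mem_sigma.1 hzc
        have h1 := (hF z hz).1 c hc
        refine ⟨?_, h1.2⟩
        intro l
        refine Fin.lastCases ?_ (fun l' => ?_) l
        · have h2 : Φ ⟨z, c⟩ (Fin.last k) = c := by simp [Φ, snc]
          rw [h2]
          exact h1.1
        · have h2 : Φ ⟨z, c⟩ l'.castSucc = z l' := by simp [Φ, snc]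
          rw [h2]
          exact (hS1 z hz).1 l'
      · rw [Finset.card_image_of_injective _ hinj, Finset.card_sigma, Finset.sum_range_succ, pow_add]
        have hfr : frd m ⟨k, hk'⟩ = if k = 0 then m else m + 1 := rfl
        rw [← hfr]
        have h1 : S.card * T ^ (frd m ⟨k, hk'⟩) ≤ ∑ z ∈ S, 4 * (F z).card := by
          rw [← smul_eq_mul, ← Finset.sum_const]
          exact Finset.sum_le_sum (fun z hz => (hF z hz).2)
        rw [← Finset.mul_sum] at h1
        calc T ^ (∑ i ∈ Finset.range k, (if i = 0 then m else m + 1)) * T ^ (frd m ⟨k, hk'⟩)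
            ≤ (4 ^ k * S.card) * T ^ (frd m ⟨k, hk'⟩) := Nat.mul_le_mul_right _ hS2
          _ = 4 ^ k * (S.card * T ^ (frd m ⟨k, hk'⟩)) := by ring
          _ ≤ 4 ^ k * (4 * ∑ z ∈ S, (F z).card) := Nat.mul_le_mul_left _ h1
          _ = 4 ^ (k + 1) * ∑ z ∈ S, (F z).card := by ring
  obtain ⟨S, hS1, hS2⟩ := key m le_rfl
  refine ⟨S, fun z hz => ⟨fun j => (hS1 z hz).1 j, (hS1 z hz).2⟩, ?_⟩
  have he : (∑ i ∈ Finset.range m, (if i = 0 then m else m + 1)) = m * (m + 1) - 1 := by
    obtain ⟨k, rfl⟩ : ∃ k, m = k + 1 := ⟨m - 1, by omega⟩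
    have := frd_sum (k + 1) k
    omega
  rw [he] at hS2
  exact hS2

end Pool.Agent.Lib.MP_41a456_al.TC
end

section

/-!
# MP_41a456_al, Theorem TC, D5: compound norms of the completed matrices

`t` monotone, `g` as in `complete_red` with columns in the windows, `1 ≤ k ≤ m`. Lower bound: the minor with
rows and columns `m-k..m-1`: divide row (or column) `j` by `M t_j`: `1 + E` with `|E_ij| ≤ 1/M` for all
entries (`T ≤ t_j`), so for `M ≥ M0(m)` the determinant is at least `1/2`; so it is at least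
`(M^k / 2) ∏ t_j ≥ (1/2) ∏_{j ≥ m-k} t_j`. (For `M = M0` fixed, e.g. `det (1 + E) ≥ 1 - m! m^m / M`, continuity is
enough: choose `M0` by continuity of `det` at `1`.) Upper bound: every entry of the column `j < m` is at most
`(M + 1) t_j`; a `k`-minor with columns in `{0..m-1}` is at most `k! ∏ (M+1) t_j` over its columns; with the last column:
expand `∑ θ_j z_j + ν` (multilinearity): the terms with `j` among the other columns vanish. Always at most
`C ∏_{j ≥ m-k} t_j` (`t_j ≥ 1`, monotone).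
-/

namespace Pool.Agent.Lib.MP_41a456_al.TC

open Matrix MeasureTheory Filter Topology Pool.Agent.Lib.MP_41a456_al

private theorem d5_prod {m k : ℕ} (hk1 : 1 ≤ k) (hk : k ≤ m) (u : Fin m → ℝ) (hu : ∀ j, 1 ≤ u j)
    (hm : Monotone u) (S : Finset (Fin m)) (hS : S.card ≤ k) :
    ∏ j ∈ S, u j ≤ ∏ j ∈ Finset.univ.filter (fun j : Fin m => m ≤ (j : ℕ) + k), u j := by
  classical
  set F := Finset.univ.filter (fun j : Fin m => m ≤ (j : ℕ) + k) with hF
  have hcard : F.card = k := by
    have h1 : F = Finset.univ.image (fun b : Fin k => (⟨m - k + b, by omega⟩ : Fin m)) := by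
      ext j
      simp only [hF, Finset.mem_filter, Finset.mem_univ, true_and, Finset.mem_image]
      constructor
      · intro h
        exact ⟨⟨(j : ℕ) - (m - k), by omega⟩, Fin.ext (by simp; omega)⟩
      · rintro ⟨b, rfl⟩
        simp
        omega
    rw [h1, Finset.card_image_of_injective]
    · simp
    · intro a b hab
      have := congrArg Fin.val hab
      simp at this
      exact Fin.ext this
  have hu0 : ∀ j, 0 ≤ u j := fun j => zero_le_one.trans (hu j)
  set c : ℝ := u ⟨m - k, by omega⟩ with hc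
  have h1 : ∏ j ∈ S, u j = (∏ j ∈ S \ F, u j) * ∏ j ∈ S ∩ F, u j := by
    rw [mul_comm, Finset.prod_inter_mul_prod_sdiff]
  have h2 : ∏ j ∈ F, u j = (∏ j ∈ F \ S, u j) * ∏ j ∈ F ∩ S, u j := by
    rw [mul_comm, Finset.prod_inter_mul_prod_sdiff]
  rw [h1, h2, Finset.inter_comm F S]
  refine mul_le_mul_of_nonneg_right ?_ (Finset.prod_nonneg fun j _ => hu0 j)
  have h3 : ∏ j ∈ S \ F, u j ≤ c ^ (S \ F).card := by
    rw [← Finset.prod_const]
    refine Finset.prod_le_prod (fun j _ => hu0 j) fun j hj => ?_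
    refine hm (Fin.le_def.2 ?_)
    have h4 : j ∉ F := (Finset.mem_sdiff.1 hj).2
    simp only [hF, Finset.mem_filter, Finset.mem_univ, true_and, not_le] at h4
    show (j : ℕ) ≤ m - k
    omega
  have h4 : c ^ (F \ S).card ≤ ∏ j ∈ F \ S, u j := by
    rw [← Finset.prod_const]
    refine Finset.prod_le_prod (fun j _ => hu0 _) fun j hj => ?_
    refine hm (Fin.le_def.2 ?_)
    have h4 : j ∈ F := (Finset.mem_sdiff.1 hj).1
    simp only [hF, Finset.mem_filter, Finset.mem_univ, true_and] at h4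
    show m - k ≤ (j : ℕ)
    omega
  have h5 : (S \ F).card ≤ (F \ S).card := by
    have h6 := Finset.card_sdiff_add_card_inter S F
    have h7 := Finset.card_sdiff_add_card_inter F S
    rw [Finset.inter_comm F S] at h7
    omega
  exact h3.trans ((pow_le_pow_right₀ (hu _) h5).trans h4)

private theorem d5_det {k : ℕ} (A : Matrix (Fin k) (Fin k) ℝ) (x : Fin k → ℝ)
    (h : ∀ i j, |A i j| ≤ x j) : |A.det| ≤ k.factorial * ∏ j, x j := by
  rw [Matrix.det_apply]
  refine (Finset.abs_sum_le_sum_abs _ _).trans ?_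
  have h1 : ∀ σ ∈ (Finset.univ : Finset (Equiv.Perm (Fin k))),
      |(Equiv.Perm.sign σ : ℤˣ) • ∏ i, A (σ i) i| ≤ ∏ j, x j := by
    intro σ _
    have h2 : |(Equiv.Perm.sign σ : ℤˣ) • ∏ i, A (σ i) i| = |∏ i, A (σ i) i| := by
      rcases Int.units_eq_one_or (Equiv.Perm.sign σ) with h3 | h3 <;> rw [h3] <;> simp
    rw [h2, Finset.abs_prod]
    exact Finset.prod_le_prod (fun _ _ => abs_nonneg _) fun i _ => h _ _
  refine (Finset.sum_le_sum h1).trans (le_of_eq ?_)
  rw [Finset.sum_const, Finset.card_univ, Fintype.card_perm, Fintype.card_fin, nsmul_eq_mul]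

private theorem d5_cont (k : ℕ) : ∃ N : ℕ, 1 ≤ N ∧ ∀ M : ℕ, N ≤ M →
    ∀ E : Matrix (Fin k) (Fin k) ℝ, (∀ i j, |E i j| ≤ 1 / (M : ℝ)) → 1 / 2 ≤ (1 + E).det := by
  have hcont : Continuous fun E : Fin k → Fin k → ℝ => (1 + Matrix.of E).det := by
    refine Continuous.matrix_det (continuous_const.add ?_)
    exact continuous_id
  have h1 := Metric.continuous_iff.1 hcont 0 (1 / 2) (by norm_num)
  obtain ⟨δ, hδ, h2⟩ := h1
  obtain ⟨N, hN⟩ := exists_nat_gt (1 / δ)
  refine ⟨N + 1, by omega, fun M hM E hE => ?_⟩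
  have hM1 : (N : ℝ) + 1 ≤ (M : ℝ) := by exact_mod_cast hM
  have hN0 : 0 < (N : ℝ) := lt_trans (by positivity) hN
  have hM0 : 0 < (M : ℝ) := by linarith
  have h3 : 1 / (M : ℝ) < δ := by
    rw [div_lt_iff₀ hM0]
    rw [div_lt_iff₀ hδ] at hN
    nlinarith
  have h4 : dist (fun i j => E i j) (0 : Fin k → Fin k → ℝ) < δ := by
    rw [dist_pi_lt_iff hδ]
    intro i
    rw [dist_pi_lt_iff hδ]
    intro j
    rw [Real.dist_eq]
    simpa using lt_of_le_of_lt (hE i j) h3
  have h5 := h2 (fun i j => E i j) h4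
  rw [Real.dist_eq] at h5
  have h6 : (1 + Matrix.of (0 : Fin k → Fin k → ℝ)).det = 1 := by
    have : (1 + Matrix.of (0 : Fin k → Fin k → ℝ)) = (1 : Matrix (Fin k) (Fin k) ℝ) := by
      ext i j
      simp
    rw [this, det_one]
  rw [h6] at h5
  have h7 : (1 + Matrix.of fun i j => E i j) = 1 + E := by
    ext i j
    simp
  rw [h7] at h5
  have h8 := (abs_lt.1 h5).1
  linarith

theorem Nk_window (m : ℕ) : ∃ M0 : ℕ, ∀ M : ℕ, M0 ≤ M → ∃ C : ℝ, 1 ≤ C ∧
    ∀ (T : ℕ) (t : Fin m → ℕ), 1 ≤ T → (∀ j, T ≤ t j) → Monotone t →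
    ∀ (z : Fin m → Fin (m + 1) → ℤ), (∀ j, z j ∈ colw M T t j) →
    ∀ (g : SLn (m + 1)) (θ : Fin m → ℝ) (ν : Fin (m + 1) → ℝ),
      (∀ (i : Fin (m + 1)) (j : Fin m), (g : Mt (m + 1)) i j.castSucc = z j i) →
      (∀ j, |θ j| ≤ 1 / 2) → (∀ i, |ν i| ≤ 1) →
      (∀ i, (((g : Mt (m + 1)) i (Fin.last m) : ℤ) : ℝ) = ∑ j, θ j * (z j i : ℝ) + ν i) →
      ∀ k : ℕ, 1 ≤ k → k ≤ m →
        C⁻¹ * ∏ j ∈ Finset.univ.filter (fun j : Fin m => m ≤ (j : ℕ) + k), (t j : ℝ) ≤
          Nk k (iz (m + 1) g : Mr (m + 1)) ∧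
        Nk k (iz (m + 1) g : Mr (m + 1)) ≤
          C * ∏ j ∈ Finset.univ.filter (fun j : Fin m => m ≤ (j : ℕ) + k), (t j : ℝ) := by
  classical
  choose N hN1 hN using d5_cont
  refine ⟨1 + ∑ k ∈ Finset.range (m + 1), N k, fun M hM => ?_⟩
  have hMk : ∀ k, k ≤ m → N k ≤ M := by
    intro k hk
    have h1 : N k ≤ ∑ k ∈ Finset.range (m + 1), N k :=
      Finset.single_le_sum (f := N) (fun _ _ => Nat.zero_le _) (Finset.mem_range.2 (by omega))
    omega
  have hM1 : 1 ≤ M := by omega
  have hMr : (1 : ℝ) ≤ M := by exact_mod_cast hM1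
  set C1 : ℝ := ((m : ℝ) + 1) * ((m.factorial : ℝ) * ((M : ℝ) + 1) ^ m) with hC1
  have hC1pos : 0 < C1 := by positivity
  set C : ℝ := 2 * (m.factorial : ℝ) + ((m : ℝ) + 1) ^ m * C1 with hC
  have hfac1 : (1 : ℝ) ≤ (m.factorial : ℝ) := by exact_mod_cast Nat.factorial_pos m
  have hCpos : 0 < C := by positivity
  refine ⟨C, by rw [hC]; nlinarith [show 0 ≤ ((m : ℝ) + 1) ^ m * C1 by positivity], ?_⟩
  intro T t hT hTt hmono z hz g θ ν hg hθ hν hgl k hk1 hk
  -- entries
  have htr : ∀ j, (1 : ℝ) ≤ (t j : ℝ) := fun j => by exact_mod_cast hT.trans (hTt j)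
  have hTr : ∀ j, (T : ℝ) ≤ (t j : ℝ) := fun j => by exact_mod_cast hTt j
  have hdiag : ∀ j : Fin m, (M : ℝ) * t j ≤ (z j j.castSucc : ℝ) ∧
      (z j j.castSucc : ℝ) ≤ (M : ℝ) * t j + T := by
    intro j
    have h1 := Fintype.mem_piFinset.1 (hz j) j.castSucc
    unfold win at h1
    rw [if_pos rfl, Finset.mem_Ico] at h1
    constructor
    · exact_mod_cast h1.1
    · exact_mod_cast h1.2.le
  have hoff : ∀ (j : Fin m) (i : Fin (m + 1)), i ≠ j.castSucc → 0 ≤ (z j i : ℝ) ∧
      (z j i : ℝ) ≤ T := by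
    intro j i hij
    have h1 := Fintype.mem_piFinset.1 (hz j) i
    unfold win at h1
    rw [if_neg hij] at h1
    split_ifs at h1 with h2
    · rw [Finset.mem_singleton] at h1
      rw [h1]
      constructor
      · simp
      · simp
    · rw [Finset.mem_Ico] at h1
      constructor
      · exact_mod_cast h1.1
      · exact_mod_cast h1.2.le
  have hent : ∀ (j : Fin m) (i : Fin (m + 1)), |(z j i : ℝ)| ≤ ((M : ℝ) + 1) * t j := by
    intro j i
    have h0 := hTr j
    have h00 := htr j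
    by_cases hij : i = j.castSucc
    · rw [hij]
      obtain ⟨h1, h2⟩ := hdiag j
      rw [abs_of_nonneg (le_trans (by positivity) h1)]
      nlinarith
    · obtain ⟨h1, h2⟩ := hoff j i hij
      rw [abs_of_nonneg h1]
      nlinarith
  set G : Mr (m + 1) := (iz (m + 1) g : Mr (m + 1)) with hG
  have hGc : ∀ (i : Fin (m + 1)) (j : Fin m), G i j.castSucc = (z j i : ℝ) := by
    intro i j
    have h1 : G i j.castSucc = (((g : Mt (m + 1)) i j.castSucc : ℤ) : ℝ) := rfl
    rw [h1, hg]
  have hGl : ∀ i, G i (Fin.last m) = ∑ j, θ j * (z j i : ℝ) + ν i := fun i => hgl i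
  set P : ℝ := ∏ j ∈ Finset.univ.filter (fun j : Fin m => m ≤ (j : ℕ) + k), (t j : ℝ) with hP
  have hmonor : Monotone fun j => (t j : ℝ) := fun a b hab => by
    show (t a : ℝ) ≤ (t b : ℝ)
    exact_mod_cast hmono hab
  have hP1 : 1 ≤ P := by
    have h1 := d5_prod hk1 hk (fun j => (t j : ℝ)) htr hmonor ∅ (by simp)
    simpa using h1
  have hP0 : 0 < P := by linarith
  have hfk : (k.factorial : ℝ) ≤ m.factorial := by exact_mod_cast Nat.factorial_le hk
  have hfkpos : (0 : ℝ) < k.factorial := by exact_mod_cast Nat.factorial_pos k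
  constructor
  · -- lower bound
    let e : Fin k → Fin m := fun b => ⟨m - k + b, by omega⟩
    have he : Function.Injective e := by
      intro a b hab
      have := congrArg Fin.val hab
      simp only [e] at this
      exact Fin.ext (by omega)
    have hPe : P = ∏ b : Fin k, (t (e b) : ℝ) := by
      have h1 : Finset.univ.filter (fun j : Fin m => m ≤ (j : ℕ) + k) = Finset.univ.image e := by
        ext j
        simp only [Finset.mem_filter, Finset.mem_univ, true_and, Finset.mem_image]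
        constructor
        · intro h
          exact ⟨⟨(j : ℕ) - (m - k), by omega⟩, Fin.ext (by simp [e]; omega)⟩
        · rintro ⟨b, rfl⟩
          simp [e]
          omega
      rw [hP, h1, Finset.prod_image fun a _ b _ hab => he hab]
    let d : Fin k → ℝ := fun b => (M : ℝ) * t (e b)
    have hd0 : ∀ b, 0 < d b := fun b => by
      have := htr (e b)
      simp only [d]
      positivity
    let f0 : Fin k → Fin (m + 1) := fun b => (e b).castSucc
    let E : Matrix (Fin k) (Fin k) ℝ := fun a b => G (f0 a) (f0 b) / d b - (1 : Matrix (Fin k) (Fin k) ℝ) a b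
    have hE : ∀ a b, |E a b| ≤ 1 / (M : ℝ) := by
      intro a b
      have h0 := hTr (e b)
      have h00 := htr (e b)
      have hMpos : (0 : ℝ) < M := by linarith
      have hTM : (T : ℝ) / ((M : ℝ) * t (e b)) ≤ 1 / M := by
        rw [div_le_div_iff₀ (hd0 b) hMpos]
        nlinarith
      by_cases hab : a = b
      · rw [hab]
        have h1 : E b b = (z (e b) (e b).castSucc : ℝ) / ((M : ℝ) * t (e b)) - 1 := by
          simp only [E, f0, d, hGc, Matrix.one_apply_eq]
        obtain ⟨h2, h3⟩ := hdiag (e b)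
        have h4 : E b b = ((z (e b) (e b).castSucc : ℝ) - (M : ℝ) * t (e b)) / ((M : ℝ) * t (e b)) := by
          rw [h1, sub_div, div_self (hd0 b).ne']
        rw [h4, abs_of_nonneg (div_nonneg (by linarith) (hd0 b).le)]
        refine le_trans ?_ hTM
        exact div_le_div_of_nonneg_right (by linarith) (hd0 b).le
      · have h1 : E a b = (z (e b) (e a).castSucc : ℝ) / ((M : ℝ) * t (e b)) := by
          simp only [E, f0, d, hGc, Matrix.one_apply_ne hab, sub_zero]
        obtain ⟨h2, h3⟩ := hoff (e b) (e a).castSucc (fun h => hab (he (Fin.castSucc_injective _ h)))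
        rw [h1, abs_of_nonneg (div_nonneg h2 (hd0 b).le)]
        exact (div_le_div_of_nonneg_right h3 (hd0 b).le).trans hTM
    have hdetE := hN k M (hMk k hk) E hE
    have hsub : G.submatrix f0 f0 = (1 + E) * Matrix.diagonal d := by
      ext a b
      rw [Matrix.mul_diagonal]
      simp only [submatrix_apply, Matrix.add_apply, E]
      have := (hd0 b).ne'
      field_simp
      ring
    have hdet : 1 / 2 * P ≤ (G.submatrix f0 f0).det := by
      rw [hsub, det_mul, det_diagonal, hPe]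
      have h1 : ∏ b : Fin k, (t (e b) : ℝ) ≤ ∏ b, d b := by
        refine Finset.prod_le_prod (fun _ _ => Nat.cast_nonneg _) fun b _ => ?_
        have := htr (e b)
        simp only [d]
        nlinarith
      have h2 : (0 : ℝ) ≤ ∏ b : Fin k, (t (e b) : ℝ) := Finset.prod_nonneg fun _ _ => Nat.cast_nonneg _
      exact mul_le_mul hdetE h1 h2 (by linarith)
    have hNk : (G.submatrix f0 f0).det / k.factorial ≤ Nk k G := by
      unfold Nk
      refine div_le_div_of_nonneg_right ?_ hfkpos.le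
      refine Real.le_sqrt_of_sq_le ?_
      have h1 : (G.submatrix f0 f0).det ^ 2 ≤ ∑ g : Fin k → Fin (m + 1), (G.submatrix f0 g).det ^ 2 :=
        Finset.single_le_sum (f := fun g : Fin k → Fin (m + 1) => (G.submatrix f0 g).det ^ 2)
          (fun _ _ => sq_nonneg _) (Finset.mem_univ f0)
      refine h1.trans ?_
      exact Finset.single_le_sum
        (f := fun f : Fin k → Fin (m + 1) => ∑ g : Fin k → Fin (m + 1), (G.submatrix f g).det ^ 2)
        (fun _ _ => Finset.sum_nonneg fun _ _ => sq_nonneg _) (Finset.mem_univ f0)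
    refine le_trans ?_ hNk
    have h1 : C⁻¹ ≤ 1 / (2 * (k.factorial : ℝ)) := by
      rw [inv_eq_one_div]
      refine one_div_le_one_div_of_le (by positivity) ?_
      rw [hC]
      have : 0 ≤ ((m : ℝ) + 1) ^ m * C1 := by positivity
      linarith
    calc C⁻¹ * P ≤ 1 / (2 * (k.factorial : ℝ)) * P := mul_le_mul_of_nonneg_right h1 hP0.le
      _ = 1 / 2 * P / k.factorial := by field_simp
      _ ≤ _ := div_le_div_of_nonneg_right hdet hfkpos.le
  · -- upper bound
    set B : ℝ := (k.factorial : ℝ) * (((M : ℝ) + 1) ^ k * P) with hB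
    have hB0 : 0 ≤ B := by positivity
    have hu : ∀ (S : Finset (Fin k)) (q : Fin k → Fin m), Set.InjOn q S →
        ∏ b ∈ S, (((M : ℝ) + 1) * t (q b)) ≤ ((M : ℝ) + 1) ^ k * P := by
      intro S q hq
      have hSk : S.card ≤ k := by
        have := Finset.card_le_univ S
        simpa using this
      rw [Finset.prod_mul_distrib, Finset.prod_const]
      have h1 : ∏ b ∈ S, (t (q b) : ℝ) = ∏ j ∈ S.image q, (t j : ℝ) := by
        rw [Finset.prod_image hq]
      rw [h1]
      have h2 := d5_prod hk1 hk (fun j => (t j : ℝ)) htr hmonor (S.image q)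
        (Finset.card_image_le.trans hSk)
      refine mul_le_mul (pow_le_pow_right₀ (by linarith) hSk) h2
        (Finset.prod_nonneg fun _ _ => Nat.cast_nonneg _) (by positivity)
    -- minors with columns among the z
    have hL1 : ∀ (f : Fin k → Fin (m + 1)) (q : Fin k → Fin m),
        |(Matrix.of fun i b => (z (q b) (f i) : ℝ)).det| ≤ B := by
      intro f q
      by_cases hq : Function.Injective q
      · refine (d5_det _ (fun b => ((M : ℝ) + 1) * t (q b)) fun i b => ?_).trans ?_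
        · exact hent _ _
        · exact mul_le_mul_of_nonneg_left (hu Finset.univ q hq.injOn) hfkpos.le
      · obtain ⟨a, b, hab, hne⟩ : ∃ a b, q a = q b ∧ a ≠ b := by
          simpa [Function.Injective] using hq
        rw [Matrix.det_zero_of_column_eq hne fun i => by simp [hab], abs_zero]
        exact hB0
    have hall : ∀ (f g' : Fin k → Fin (m + 1)), |(G.submatrix f g').det| ≤ ((m : ℝ) + 1) * B := by
      intro f g'
      have hBm : B ≤ ((m : ℝ) + 1) * B := by
        have : 0 ≤ (m : ℝ) * B := by positivity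
        linarith
      by_cases hinj : Function.Injective g'
      swap
      · obtain ⟨a, b, hab, hne⟩ : ∃ a b, g' a = g' b ∧ a ≠ b := by
          simpa [Function.Injective] using hinj
        rw [Matrix.det_zero_of_column_eq hne fun i => by simp [hab], abs_zero]
        positivity
      by_cases hlast : ∃ b0, g' b0 = Fin.last m
      swap
      · push Not at hlast
        have hq : ∀ b, ∃ j : Fin m, g' b = j.castSucc := fun b =>
          ⟨(g' b).castPred (hlast b), by simp⟩
        choose q hq using hq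
        have h1 : G.submatrix f g' = Matrix.of fun i b => (z (q b) (f i) : ℝ) := by
          ext i b
          rw [submatrix_apply, hq, hGc]
          rfl
        rw [h1]
        exact (hL1 f q).trans hBm
      obtain ⟨b0, hb0⟩ := hlast
      have hne : ∀ b, b ≠ b0 → g' b ≠ Fin.last m := fun b hb h => hb (hinj (h.trans hb0.symm))
      have hm0 : 0 < m := by omega
      have hq : ∀ b, ∃ j : Fin m, b ≠ b0 → g' b = j.castSucc := by
        intro b
        by_cases hb : b = b0
        · exact ⟨⟨0, hm0⟩, fun h => absurd hb h⟩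
        · exact ⟨(g' b).castPred (hne b hb), fun _ => by simp⟩
      choose q hq using hq
      set A := G.submatrix f g' with hA
      have hAcol : A = A.updateCol b0 (∑ j, θ j • (fun i => (z j (f i) : ℝ)) + fun i => ν (f i)) := by
        ext i b
        by_cases hb : b = b0
        · rw [hb, updateCol_self, hA, submatrix_apply, hb0, hGl]
          simp [Finset.sum_apply]
        · rw [updateCol_ne hb]
      have hdet : A.det = ∑ j, θ j * (A.updateCol b0 fun i => (z j (f i) : ℝ)).det +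
          (A.updateCol b0 fun i => ν (f i)).det := by
        have h1 : A.det = A.cramer (∑ j, θ j • (fun i => (z j (f i) : ℝ)) + fun i => ν (f i)) b0 := by
          rw [cramer_apply, ← hAcol]
        rw [h1, map_add, map_sum]
        simp only [map_smul, Pi.add_apply, Finset.sum_apply, Pi.smul_apply, smul_eq_mul,
          cramer_apply]
      have h2 : ∀ j, |(A.updateCol b0 fun i => (z j (f i) : ℝ)).det| ≤ B := by
        intro j
        have h3 : (A.updateCol b0 fun i => (z j (f i) : ℝ)) =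
            Matrix.of fun i b => (z (Function.update q b0 j b) (f i) : ℝ) := by
          ext i b
          by_cases hb : b = b0
          · rw [hb, updateCol_self]
            simp
          · rw [updateCol_ne hb, hA, submatrix_apply, hq b hb, hGc]
            simp [Function.update_of_ne hb]
        rw [h3]
        exact hL1 f _
      have h3 : |(A.updateCol b0 fun i => ν (f i)).det| ≤ B := by
        refine (d5_det _ (fun b => if b = b0 then 1 else ((M : ℝ) + 1) * t (q b))
          fun i b => ?_).trans ?_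
        · by_cases hb : b = b0
          · rw [hb, updateCol_self, if_pos rfl]
            exact hν _
          · rw [updateCol_ne hb, if_neg hb, hA, submatrix_apply, hq b hb, hGc]
            exact hent _ _
        · refine mul_le_mul_of_nonneg_left ?_ hfkpos.le
          rw [← Finset.mul_prod_erase Finset.univ _ (Finset.mem_univ b0), if_pos rfl, one_mul]
          have h4 : ∏ x ∈ Finset.univ.erase b0, (if x = b0 then 1 else ((M : ℝ) + 1) * t (q x)) =
              ∏ x ∈ Finset.univ.erase b0, (((M : ℝ) + 1) * t (q x)) :=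
            Finset.prod_congr rfl fun x hx => by rw [if_neg (Finset.ne_of_mem_erase hx)]
          rw [h4]
          refine hu _ q ?_
          intro a ha b hb hab
          have ha' : a ≠ b0 := Finset.ne_of_mem_erase (Finset.mem_coe.1 ha)
          have hb' : b ≠ b0 := Finset.ne_of_mem_erase (Finset.mem_coe.1 hb)
          apply hinj
          rw [hq a ha', hq b hb', hab]
      rw [hdet]
      calc |∑ j, θ j * (A.updateCol b0 fun i => (z j (f i) : ℝ)).det +
            (A.updateCol b0 fun i => ν (f i)).det|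
          ≤ |∑ j, θ j * (A.updateCol b0 fun i => (z j (f i) : ℝ)).det| +
            |(A.updateCol b0 fun i => ν (f i)).det| := abs_add_le _ _
        _ ≤ (∑ _j : Fin m, B) + B := by
            refine add_le_add ((Finset.abs_sum_le_sum_abs _ _).trans
              (Finset.sum_le_sum fun j _ => ?_)) h3
            rw [abs_mul]
            have h5 := hθ j
            have h6 := h2 j
            have h7 := abs_nonneg (θ j)
            have h8 := abs_nonneg (A.updateCol b0 fun i => (z j (f i) : ℝ)).det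
            nlinarith
        _ = ((m : ℝ) + 1) * B := by
            rw [Finset.sum_const, Finset.card_univ, Fintype.card_fin, nsmul_eq_mul]
            ring
    have hsum : ∑ f : Fin k → Fin (m + 1), ∑ g' : Fin k → Fin (m + 1), (G.submatrix f g').det ^ 2 ≤
        (((m : ℝ) + 1) ^ k * (((m : ℝ) + 1) * B)) ^ 2 := by
      have h1 : ∀ f g' : Fin k → Fin (m + 1), (G.submatrix f g').det ^ 2 ≤ (((m : ℝ) + 1) * B) ^ 2 := by
        intro f g'
        rw [← sq_abs]
        exact pow_le_pow_left₀ (abs_nonneg _) (hall f g') 2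
      refine (Finset.sum_le_sum fun f _ => Finset.sum_le_sum fun g' _ => h1 f g').trans (le_of_eq ?_)
      simp only [Finset.sum_const, Finset.card_univ, Fintype.card_fun, Fintype.card_fin,
        nsmul_eq_mul]
      push_cast
      ring
    have hNk : Nk k G ≤ ((m : ℝ) + 1) ^ k * (((m : ℝ) + 1) * B) / k.factorial := by
      unfold Nk
      refine div_le_div_of_nonneg_right ?_ hfkpos.le
      exact Real.sqrt_le_iff.2 ⟨by positivity, hsum⟩
    refine hNk.trans ?_
    have h1 : ((m : ℝ) + 1) ^ k * (((m : ℝ) + 1) * B) / k.factorial =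
        ((m : ℝ) + 1) ^ k * (((m : ℝ) + 1) * ((M : ℝ) + 1) ^ k) * P := by
      rw [hB]
      field_simp
    rw [h1]
    refine mul_le_mul_of_nonneg_right ?_ hP0.le
    have h2 : ((m : ℝ) + 1) ^ k ≤ ((m : ℝ) + 1) ^ m :=
      pow_le_pow_right₀ (by have : (0 : ℝ) ≤ m := Nat.cast_nonneg m
                            linarith) hk
    have h3 : ((M : ℝ) + 1) ^ k ≤ (m.factorial : ℝ) * ((M : ℝ) + 1) ^ m := by
      have h4 : ((M : ℝ) + 1) ^ k ≤ ((M : ℝ) + 1) ^ m := pow_le_pow_right₀ (by linarith) hk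
      have h5 : (0 : ℝ) ≤ ((M : ℝ) + 1) ^ m := by positivity
      nlinarith
    calc ((m : ℝ) + 1) ^ k * (((m : ℝ) + 1) * ((M : ℝ) + 1) ^ k) ≤ ((m : ℝ) + 1) ^ m * C1 := by
          rw [hC1]
          exact mul_le_mul h2 (mul_le_mul_of_nonneg_left h3 (by positivity)) (by positivity)
            (by positivity)
      _ ≤ C := by
          rw [hC]
          have : (0 : ℝ) ≤ 2 * (m.factorial : ℝ) := by positivity
          linarith

end Pool.Agent.Lib.MP_41a456_al.TC
end

section

/-!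
# MP_41a456_al, Theorem TC, D6: compound norms of the inverse

`g = o e^a o'` (`svd`); `g⁻¹ = o'ᵀ e^{-a} oᵀ` and with the permutation matrix `σ` which reverses the order
`e^{-a} = σ e^{b} σ⁻¹`, `b_i = -a_{m-i}` antitone (make `σ` of determinant 1 by changing the sign of one row).
`sk k b = -∑_{last k} a = sk (n-k) a`. Apply `om_svd` twice.
-/

namespace Pool.Agent.Lib.MP_41a456_al.TC

open Matrix MeasureTheory Filter Topology Pool.Agent.Lib.MP_41a456_al

/-- compound norms are invariant under a simultaneous permutation of rows and columns -/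
theorem D6.Nk_reindex {n : ℕ} (k : ℕ) (x : Mr n) (e : Fin n ≃ Fin n) :
    Nk k (x.submatrix e e) = Nk k x := by
  unfold Nk
  congr 2
  have h1 : ∀ F : (Fin k → Fin n) → ℝ, ∑ f : Fin k → Fin n, F (fun i => e (f i)) = ∑ f, F f :=
    fun F => Equiv.sum_comp (Equiv.arrowCongr (Equiv.refl (Fin k)) e) F
  rw [← h1 fun f => ∑ g : Fin k → Fin n, (x.submatrix f g).det ^ 2]
  refine Finset.sum_congr rfl fun f _ => ?_
  rw [← h1 fun g => (x.submatrix (fun i => e (f i)) g).det ^ 2]
  rfl

theorem D6.coe_mul {n : ℕ} (x y : SLr n) :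
    ((x * y : SLr n) : Mr n) = (x : Mr n) * (y : Mr n) := Matrix.SpecialLinearGroup.coe_mul x y

theorem D6.coe_one {n : ℕ} : ((1 : SLr n) : Mr n) = 1 := Matrix.SpecialLinearGroup.coe_one

theorem D6.inv_coe {n : ℕ} {o : SLr n} (h : Orth o) :
    ((o⁻¹ : SLr n) : Mr n) = (o : Mr n)ᵀ := by
  have h1 : ((o⁻¹ : SLr n) : Mr n) * (o : Mr n) = 1 := by
    rw [← D6.coe_mul, inv_mul_cancel, D6.coe_one]
  have h2 : (o : Mr n) * (o : Mr n)ᵀ = 1 := mul_eq_one_comm.1 h
  calc ((o⁻¹ : SLr n) : Mr n) = ((o⁻¹ : SLr n) : Mr n) * ((o : Mr n) * (o : Mr n)ᵀ) := by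
        rw [h2, mul_one]
    _ = _ := by rw [← mul_assoc, h1, one_mul]

theorem D6.orth_inv {n : ℕ} {o : SLr n} (h : Orth o) :
    ((o⁻¹ : SLr n) : Mr n)ᵀ * ((o⁻¹ : SLr n) : Mr n) = 1 := by
  rw [D6.inv_coe h, transpose_transpose]
  exact mul_eq_one_comm.1 h

theorem D6.sk_rev {m : ℕ} {k : ℕ} (hk : k ≤ m + 1) {a : Fin (m + 1) → ℝ} (hs : ∑ i, a i = 0) :
    sk k (fun i => -a (Fin.rev i)) = sk (m + 1 - k) a := by
  have h1 : sk k (fun i => -a (Fin.rev i)) =
      -∑ i ∈ Finset.univ.filter (fun i : Fin (m + 1) => ¬ (i : ℕ) < m + 1 - k), a i := by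
    unfold sk
    rw [Finset.sum_filter, Finset.sum_filter, ← Finset.sum_neg_distrib,
      ← Equiv.sum_comp Fin.revPerm]
    refine Finset.sum_congr rfl fun i _ => ?_
    simp only [Fin.revPerm_apply, Fin.rev_rev, Fin.val_rev]
    have hi := i.2
    by_cases h : (i : ℕ) < m + 1 - k
    · rw [if_neg (by omega), if_neg (by omega), neg_zero]
    · rw [if_pos (by omega), if_pos h]
  have h2 := Finset.sum_filter_add_sum_filter_not Finset.univ
    (fun i : Fin (m + 1) => (i : ℕ) < m + 1 - k) a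
  rw [hs] at h2
  rw [h1]
  unfold sk
  linarith

theorem om_inv {m : ℕ} {k : ℕ} (hk : k ≤ m + 1) (g : SLr (m + 1)) :
    |om k ((g⁻¹ : SLr (m + 1)) : Mr (m + 1)) - om (m + 1 - k) (g : Mr (m + 1))| ≤
      (m + 1) * Real.log 2 := by
  obtain ⟨o, a, o', ho, ho', ha, hs, rfl⟩ := svd m g
  set b : Fin (m + 1) → ℝ := fun i => -a (Fin.rev i) with hb
  have hbanti : Antitone b := by
    intro i j hij
    simp only [hb]
    exact neg_le_neg (ha (Fin.rev_le_rev.2 hij))
  have hbs : ∑ i, b i = 0 := by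
    rw [hb, Finset.sum_neg_distrib, neg_eq_zero]
    rw [← hs]
    exact Equiv.sum_comp Fin.revPerm a
  have has : ∑ i, (-a) i = 0 := by
    simp only [Pi.neg_apply, Finset.sum_neg_distrib, hs, neg_zero]
  have h1 : ((ex (-a) : SLr (m + 1)) : Mr (m + 1)) =
      ((ex b : SLr (m + 1)) : Mr (m + 1)).submatrix Fin.revPerm Fin.revPerm := by
    rw [ex_coe_of_sum has, ex_coe_of_sum hbs]
    ext i j
    simp only [submatrix_apply, diagonal_apply, Fin.revPerm_apply, hb, Fin.rev_rev, Pi.neg_apply]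
    by_cases hij : i = j
    · rw [if_pos hij, if_pos (by rw [hij])]
    · rw [if_neg hij, if_neg fun h => hij (Fin.rev_injective h)]
  have h2 : Nk k (((o * ex a * o')⁻¹ : SLr (m + 1)) : Mr (m + 1)) =
      Nk k ((ex b : SLr (m + 1)) : Mr (m + 1)) := by
    have e1 : (o * ex a * o')⁻¹ = o'⁻¹ * (ex (-a) * o⁻¹) := by
      rw [ex_neg, _root_.mul_inv_rev, _root_.mul_inv_rev]
    rw [e1, D6.coe_mul, Nk_orth_left k (D6.orth_inv ho'),
      D6.coe_mul, Nk_orth_right k (D6.orth_inv ho), h1, D6.Nk_reindex]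
  have h3 := om_svd (k := m + 1 - k) (by omega) ha hs ho ho'
  have h4 : Orth (1 : SLr (m + 1)) := by
    unfold Orth
    rw [D6.coe_one, transpose_one, one_mul]
  have h5 := om_svd hk hbanti hbs h4 h4
  rw [one_mul, mul_one] at h5
  have h6 : om k (((o * ex a * o')⁻¹ : SLr (m + 1)) : Mr (m + 1)) =
      om k ((ex b : SLr (m + 1)) : Mr (m + 1)) := by
    unfold om
    rw [h2]
  have h7 : sk k b = sk (m + 1 - k) a := D6.sk_rev hk hs
  rw [h6, abs_le]
  rw [h7] at h5
  constructor <;> linarith [h3.1, h3.2, h5.1, h5.2]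

end Pool.Agent.Lib.MP_41a456_al.TC
end

section

/-!
# MP_41a456_al, Theorem TC, D7: the lower bound (paper 521, (4.1))

`omst η i = ∑_{l ≥ i} (1 + l η)` (`om*_{i+1}`), `ast η = (omst η 0, -1, -(1+η), …, -(1+(m-1)η))`.
`T = ⌊e^R⌋`, `t_l = ⌊e^{(1+lη)R}⌋`, `K = m + 1` (`t_l ≤ T^K` for large `R`), `M` from `Nk_window` with
`M ≥ m + 1`. For every `z` of `prim_count` let `x = g⁻¹`, `g` from `complete_red`. `(x⁻¹) last 0 = z_0 last = 0`,
`(x⁻¹) 0 0 = z_0 0 ≥ M t_0 > 0`; different `z` give different `x`. `om (i+1) x = om (m - i) g + O(1)`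
(`om_inv`) `= ∑_{j ≥ i} log t_j + O(1)` (`Nk_window` with `k = m - i`) `= R omst η i + O(1)`.
`T^(m(m+1)-1) ≥ 2^{-m(m+1)} e^{(m(m+1)-1) R}`.
-/

namespace Pool.Agent.Lib.MP_41a456_al.TC

open Matrix MeasureTheory Filter Topology Pool.Agent.Lib.MP_41a456_al

/-- `om*_{i+1}` -/
noncomputable def omst {m : ℕ} (η : ℝ) (i : Fin m) : ℝ :=
  ∑ l ∈ Finset.univ.filter (fun l : Fin m => i ≤ l), (1 + (l : ℕ) * η)

private theorem D7_floor {y : ℝ} (hy : Real.log 2 ≤ y) :
    Real.exp y / 2 ≤ (⌊Real.exp y⌋₊ : ℝ) ∧ 1 ≤ ⌊Real.exp y⌋₊ ∧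
      |Real.log (⌊Real.exp y⌋₊ : ℝ) - y| ≤ Real.log 2 := by
  have h2 : 2 ≤ Real.exp y := by
    rw [← Real.exp_log (by norm_num : (0 : ℝ) < 2)]
    exact Real.exp_le_exp.2 hy
  have h1 := Nat.lt_floor_add_one (Real.exp y)
  have h3 : Real.exp y / 2 ≤ (⌊Real.exp y⌋₊ : ℝ) := by linarith
  have h4 : (⌊Real.exp y⌋₊ : ℝ) ≤ Real.exp y := Nat.floor_le (Real.exp_pos y).le
  have h5 : 0 < Real.exp y := Real.exp_pos y
  have h6 : 0 < (⌊Real.exp y⌋₊ : ℝ) := by linarith
  refine ⟨h3, by exact_mod_cast h6, ?_⟩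
  rw [abs_le]
  constructor
  · have := Real.log_le_log (by positivity) h3
    rw [Real.log_div h5.ne' (by norm_num), Real.log_exp] at this
    linarith
  · have := Real.log_le_log h6 h4
    rw [Real.log_exp] at this
    have h7 : 0 ≤ Real.log 2 := Real.log_nonneg (by norm_num)
    linarith

/-- the norms of one completed matrix -/
private theorem D7_om {m : ℕ} {η R : ℝ} (hη : 0 < η) (hR : Real.log 2 ≤ R) {C1 : ℝ}
    (hC1 : 1 ≤ C1) {t : Fin m → ℕ} (ht : ∀ j : Fin m, t j = ⌊Real.exp ((1 + (j : ℕ) * η) * R)⌋₊)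
    (g : SLn (m + 1))
    (hg : ∀ k : ℕ, 1 ≤ k → k ≤ m →
        C1⁻¹ * ∏ j ∈ Finset.univ.filter (fun j : Fin m => m ≤ (j : ℕ) + k), (t j : ℝ) ≤
          Nk k (iz (m + 1) g : Mr (m + 1)) ∧
        Nk k (iz (m + 1) g : Mr (m + 1)) ≤
          C1 * ∏ j ∈ Finset.univ.filter (fun j : Fin m => m ≤ (j : ℕ) + k), (t j : ℝ))
    (i : Fin m) :
    |om ((i : ℕ) + 1) (iz (m + 1) g⁻¹ : Mr (m + 1)) - R * omst η i| ≤
      (m + 1) * Real.log 2 + Real.log C1 + m * Real.log 2 := by
  have hR0 : 0 ≤ R := le_trans (Real.log_nonneg (by norm_num)) hR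
  have hlog2 : 0 ≤ Real.log 2 := Real.log_nonneg (by norm_num)
  have hfl : ∀ j : Fin m, 1 ≤ t j ∧ |Real.log (t j : ℝ) - (1 + (j : ℕ) * η) * R| ≤ Real.log 2 := by
    intro j
    have h1 : Real.log 2 ≤ (1 + (j : ℕ) * η) * R := by
      have h2 : (0 : ℝ) ≤ (j : ℕ) * η := by positivity
      nlinarith
    obtain ⟨_, h3, h4⟩ := D7_floor h1
    rw [ht j]
    exact ⟨h3, h4⟩
  have hi := i.2
  -- inverse
  have h1 := om_inv (m := m) (k := (i : ℕ) + 1) (by omega) (iz (m + 1) g)
  have e1 : m + 1 - ((i : ℕ) + 1) = m - i := by omega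
  rw [e1] at h1
  have e2 : (iz (m + 1) g)⁻¹ = iz (m + 1) g⁻¹ := (map_inv _ _).symm
  rw [e2] at h1
  -- window
  obtain ⟨h2, h3⟩ := hg (m - i) (by omega) (by omega)
  have e3 : (Finset.univ.filter fun j : Fin m => m ≤ (j : ℕ) + (m - i)) =
      Finset.univ.filter fun l : Fin m => i ≤ l := by
    ext l
    simp only [Finset.mem_filter, Finset.mem_univ, true_and, Fin.le_def]
    omega
  rw [e3] at h2 h3
  have htpos : ∀ j : Fin m, (0 : ℝ) < t j := fun j => by exact_mod_cast (hfl j).1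
  have hP : 0 < ∏ j ∈ Finset.univ.filter (fun l : Fin m => i ≤ l), (t j : ℝ) :=
    Finset.prod_pos fun j _ => htpos j
  have hC10 : 0 < C1 := by linarith
  have hN : 0 < Nk (m - i) (iz (m + 1) g : Mr (m + 1)) :=
    lt_of_lt_of_le (mul_pos (inv_pos.2 hC10) hP) h2
  have h4 : |om (m - i) (iz (m + 1) g : Mr (m + 1)) -
      Real.log (∏ j ∈ Finset.univ.filter (fun l : Fin m => i ≤ l), (t j : ℝ))| ≤ Real.log C1 := by
    unfold om
    rw [abs_le]
    constructor
    · have := Real.log_le_log (mul_pos (inv_pos.2 hC10) hP) h2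
      rw [Real.log_mul (inv_pos.2 hC10).ne' hP.ne', Real.log_inv] at this
      linarith
    · have := Real.log_le_log hN h3
      rw [Real.log_mul hC10.ne' hP.ne'] at this
      linarith
  have h5 : |Real.log (∏ j ∈ Finset.univ.filter (fun l : Fin m => i ≤ l), (t j : ℝ)) -
      R * omst η i| ≤ m * Real.log 2 := by
    rw [Real.log_prod (fun j _ => (htpos j).ne')]
    unfold omst
    rw [Finset.mul_sum, ← Finset.sum_sub_distrib]
    refine (Finset.abs_sum_le_sum_abs _ _).trans ?_
    have h6 : ∀ j ∈ Finset.univ.filter (fun l : Fin m => i ≤ l),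
        |Real.log (t j : ℝ) - R * (1 + (j : ℕ) * η)| ≤ Real.log 2 := by
      intro j _
      rw [mul_comm R]
      exact (hfl j).2
    refine (Finset.sum_le_sum h6).trans ?_
    rw [Finset.sum_const, nsmul_eq_mul]
    refine mul_le_mul_of_nonneg_right ?_ hlog2
    have h7 : (Finset.univ.filter fun l : Fin m => i ≤ l).card ≤ m :=
      (Finset.card_filter_le _ _).trans (by simp)
    exact_mod_cast h7
  rw [abs_le] at h1 h4 h5 ⊢
  constructor
  · linarith [h1.1, h4.1, h5.1]
  · linarith [h1.2, h4.2, h5.2]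

theorem lower_count {m : ℕ} (hm : 2 ≤ m) {η : ℝ} (hη : 0 < η) (hη1 : η ≤ 1) :
    ∃ c C R0 : ℝ, 0 < c ∧ ∀ R : ℝ, R0 ≤ R → ∃ D : Finset (SLn (m + 1)),
      c * Real.exp ((m * (m + 1) - 1) * R) ≤ D.card ∧
      ∀ x ∈ D, ((x⁻¹ : SLn (m + 1)) : Mt (m + 1)) (Fin.last m) 0 = 0 ∧
        0 < ((x⁻¹ : SLn (m + 1)) : Mt (m + 1)) 0 0 ∧
        ∀ i : Fin m, |om ((i : ℕ) + 1) (iz (m + 1) x : Mr (m + 1)) - R * omst η i| ≤ C := by
  classical
  obtain ⟨M0, hM0⟩ := Nk_window m
  obtain ⟨C1, hC1, hwin⟩ := hM0 (max M0 (m + 1)) (le_max_left _ _)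
  have hMm : m + 1 ≤ max M0 (m + 1) := le_max_right _ _
  generalize max M0 (m + 1) = M at hwin hMm
  obtain ⟨T0, hT0⟩ := prim_count hm (m + 1) M hMm
  have hlog2 : 0 < Real.log 2 := Real.log_pos (by norm_num)
  refine ⟨1 / (2 ^ (m * (m + 1) - 1) * 4 ^ m),
    (m + 1) * Real.log 2 + Real.log C1 + m * Real.log 2,
    max ((m + 1) * Real.log 2) (Real.log (T0 + 1)), by positivity, ?_⟩
  intro R hR
  have hR1 : (m + 1) * Real.log 2 ≤ R := (le_max_left _ _).trans hR
  have hR2 : Real.log (T0 + 1) ≤ R := (le_max_right _ _).trans hR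
  have hm0 : (0 : ℝ) ≤ m := Nat.cast_nonneg m
  have hRlog : Real.log 2 ≤ R := by nlinarith
  have hR0 : 0 ≤ R := by linarith
  -- the numbers
  obtain ⟨hTl, hT1, _⟩ := D7_floor hRlog
  have hTT0 : T0 ≤ ⌊Real.exp R⌋₊ := by
    rw [Nat.le_floor_iff (Real.exp_pos R).le]
    have h1 : (0 : ℝ) < T0 + 1 := by positivity
    have h2 := Real.exp_le_exp.2 hR2
    rw [Real.exp_log h1] at h2
    linarith
  have hTe : (⌊Real.exp R⌋₊ : ℝ) ≤ Real.exp R := Nat.floor_le (Real.exp_pos R).le
  obtain ⟨t, ht⟩ : ∃ t : Fin m → ℕ, ∀ j : Fin m,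
      t j = ⌊Real.exp ((1 + (j : ℕ) * η) * R)⌋₊ := ⟨_, fun j => rfl⟩
  have htT : ∀ j, ⌊Real.exp R⌋₊ ≤ t j := by
    intro j
    rw [ht j]
    apply Nat.floor_le_floor
    apply Real.exp_le_exp.2
    have h1 : (0 : ℝ) ≤ (j : ℕ) * η := by positivity
    nlinarith
  have htK : ∀ j, t j ≤ ⌊Real.exp R⌋₊ ^ (m + 1) := by
    intro j
    have hj : ((j : ℕ) : ℝ) + 1 ≤ m := by exact_mod_cast j.2
    have h1 : (t j : ℝ) ≤ Real.exp (m * R) := by
      rw [ht j]
      refine (Nat.floor_le (Real.exp_pos _).le).trans ?_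
      apply Real.exp_le_exp.2
      refine mul_le_mul_of_nonneg_right ?_ hR0
      have h2 : ((j : ℕ) : ℝ) * η ≤ (j : ℕ) := by
        have h3 : (0 : ℝ) ≤ (j : ℕ) := Nat.cast_nonneg _
        nlinarith
      linarith
    have h2 : Real.exp (m * R) ≤ (Real.exp R / 2) ^ (m + 1) := by
      rw [div_pow, le_div_iff₀ (by positivity), ← Real.exp_nat_mul]
      have h3 : (2 : ℝ) ^ (m + 1) = Real.exp ((m + 1) * Real.log 2) := by
        rw [mul_comm, Real.exp_mul, Real.exp_log (by norm_num)]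
        exact_mod_cast (Real.rpow_natCast (2 : ℝ) (m + 1)).symm
      rw [h3, ← Real.exp_add]
      apply Real.exp_le_exp.2
      push_cast
      nlinarith
    have h4 : (Real.exp R / 2) ^ (m + 1) ≤ (⌊Real.exp R⌋₊ : ℝ) ^ (m + 1) :=
      pow_le_pow_left₀ (by positivity) hTl _
    exact_mod_cast (h1.trans h2).trans h4
  have htmono : Monotone t := by
    intro j l hjl
    rw [ht j, ht l]
    apply Nat.floor_le_floor
    apply Real.exp_le_exp.2
    refine mul_le_mul_of_nonneg_right ?_ hR0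
    have h1 : ((j : ℕ) : ℝ) ≤ (l : ℕ) := by exact_mod_cast hjl
    nlinarith
  generalize hT : ⌊Real.exp R⌋₊ = T at hTl hT1 hTT0 hTe htT htK
  obtain ⟨S, hS, hScard⟩ := hT0 T hTT0 t fun j => ⟨htT j, htK j⟩
  -- the completed matrices
  have hex : ∀ z : Fin m → Fin (m + 1) → ℤ, ∃ g : SLn (m + 1), z ∈ S →
      (∀ (i : Fin (m + 1)) (j : Fin m), (g : Mt (m + 1)) i j.castSucc = z j i) ∧
      ∀ k : ℕ, 1 ≤ k → k ≤ m →
        C1⁻¹ * ∏ j ∈ Finset.univ.filter (fun j : Fin m => m ≤ (j : ℕ) + k), (t j : ℝ) ≤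
          Nk k (iz (m + 1) g : Mr (m + 1)) ∧
        Nk k (iz (m + 1) g : Mr (m + 1)) ≤
          C1 * ∏ j ∈ Finset.univ.filter (fun j : Fin m => m ≤ (j : ℕ) + k), (t j : ℝ) := by
    intro z
    by_cases hz : z ∈ S
    · obtain ⟨g, hg1, θ, ν, hθ, hν, hg2⟩ := complete_red z (hS z hz).2
      exact ⟨g, fun _ => ⟨hg1, hwin T t hT1 htT htmono z (hS z hz).1 g θ ν hg1 hθ hν hg2⟩⟩
    · exact ⟨1, fun h => absurd h hz⟩
  choose g hg using hex
  have hinj : Set.InjOn (fun z => (g z)⁻¹) (S : Set (Fin m → Fin (m + 1) → ℤ)) := by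
    intro z hz z' hz' h
    have h1 : g z = g z' := inv_injective h
    funext j i
    rw [← (hg z hz).1 i j, ← (hg z' hz').1 i j, h1]
  refine ⟨S.image fun z => (g z)⁻¹, ?_, ?_⟩
  · rw [Finset.card_image_of_injOn hinj]
    have h1 : ((T : ℝ)) ^ (m * (m + 1) - 1) ≤ 4 ^ m * S.card := by exact_mod_cast hScard
    have h2 : (Real.exp R / 2) ^ (m * (m + 1) - 1) ≤ (T : ℝ) ^ (m * (m + 1) - 1) :=
      pow_le_pow_left₀ (by positivity) hTl _
    have h3 : Real.exp ((m * (m + 1) - 1) * R) = Real.exp R ^ (m * (m + 1) - 1) := by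
      rw [← Real.exp_nat_mul, Nat.cast_sub (by nlinarith)]
      push_cast
      rfl
    have h4 : (0 : ℝ) < 2 ^ (m * (m + 1) - 1) := by positivity
    have h5 : (0 : ℝ) < 4 ^ m := by positivity
    rw [h3, one_div, inv_mul_le_iff₀ (by positivity)]
    rw [div_pow, div_le_iff₀ h4] at h2
    calc Real.exp R ^ (m * (m + 1) - 1) ≤ (T : ℝ) ^ (m * (m + 1) - 1) * 2 ^ (m * (m + 1) - 1) := h2
      _ ≤ (4 ^ m * S.card) * 2 ^ (m * (m + 1) - 1) := mul_le_mul_of_nonneg_right h1 h4.le
      _ = _ := by ring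
  · intro x hx
    obtain ⟨z, hz, rfl⟩ := Finset.mem_image.1 hx
    obtain ⟨hg1, hg2⟩ := hg z hz
    have hcol := (hS z hz).1
    have hm1 : 0 < m := by omega
    have h0 : (0 : Fin (m + 1)) = (⟨0, hm1⟩ : Fin m).castSucc := rfl
    have hmem : ∀ i : Fin (m + 1), z ⟨0, hm1⟩ i ∈ win M T t i ⟨0, hm1⟩ := by
      intro i
      have := hcol ⟨0, hm1⟩
      unfold colw at this
      exact Fintype.mem_piFinset.1 this i
    refine ⟨?_, ?_, ?_⟩
    · rw [inv_inv, h0, hg1]
      have h1 := hmem (Fin.last m)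
      unfold win at h1
      rw [if_neg (Fin.castSucc_lt_last _).ne', if_pos ⟨rfl, rfl⟩, Finset.mem_singleton] at h1
      exact h1
    · rw [inv_inv]
      have h1 := hmem 0
      unfold win at h1
      rw [if_pos h0, Finset.mem_Ico] at h1
      have h2 : (g z : Mt (m + 1)) 0 0 = z ⟨0, hm1⟩ 0 := hg1 0 ⟨0, hm1⟩
      rw [h2]
      have h3 : 1 ≤ t ⟨0, hm1⟩ := hT1.trans (htT _)
      have h4 : (1 : ℤ) ≤ (t ⟨0, hm1⟩ : ℤ) := by exact_mod_cast h3
      have h5 : (1 : ℤ) ≤ (M : ℤ) := by exact_mod_cast (by omega : 1 ≤ M)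
      have h6 : (1 : ℤ) ≤ (M : ℤ) * t ⟨0, hm1⟩ := by nlinarith
      linarith [h1.1]
    · intro i
      exact D7_om hη hRlog hC1 ht (g z) hg2 i

end Pool.Agent.Lib.MP_41a456_al.TC
end
end
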