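import Pool.Agent.Lib.MP_41a456_al.TC.B5

/-!
# MP_41a456_al, Theorem TC, D8: entries of a quotient, counting integral matrices

`inv_mul_bound`: `x⁻¹ x' = k'⁻¹ (e^{-a} (k⁻¹ k1) e^{a1}) k1'`, the entries of orthogonal matrices are at most 1.
`card_entries_le`: the entries of the `(m+1) × (m+1)` matrix are integers in `[-B, B]`.
-/

namespace Pool.Agent.Lib.MP_41a456_al.TC

open Matrix MeasureTheory Filter Topology Pool.Agent.Lib.MP_41a456_al

private theorem orth_entry {n : ℕ} {k : SLr n} (h : Orth k) (i j : Fin n) :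
    |(k : Mr n) i j| ≤ 1 := by
  have h1 : ((k : Mr n)ᵀ * (k : Mr n)) j j = 1 := by rw [h, Matrix.one_apply_eq]
  rw [Matrix.mul_apply] at h1
  simp only [Matrix.transpose_apply] at h1
  have h2 : (k : Mr n) i j * (k : Mr n) i j ≤ ∑ p, (k : Mr n) p j * (k : Mr n) p j :=
    Finset.single_le_sum (f := fun p => (k : Mr n) p j * (k : Mr n) p j)
      (fun p _ => mul_self_nonneg _) (Finset.mem_univ i)
  rw [abs_le_one_iff_mul_self_le_one]
  exact h2.trans h1.le

private theorem orth_inv {n : ℕ} {k : SLr n} (h : Orth k) :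
    ((k⁻¹ : SLr n) : Mr n) = (k : Mr n)ᵀ := by
  have h1 : (k : Mr n) * ((k⁻¹ : SLr n) : Mr n) = 1 := by
    rw [← Matrix.SpecialLinearGroup.coe_mul, mul_inv_cancel, Matrix.SpecialLinearGroup.coe_one]
  calc ((k⁻¹ : SLr n) : Mr n) = ((k : Mr n)ᵀ * (k : Mr n)) * ((k⁻¹ : SLr n) : Mr n) := by
        rw [h, Matrix.one_mul]
    _ = (k : Mr n)ᵀ := by rw [Matrix.mul_assoc, h1, Matrix.mul_one]

theorem inv_mul_bound {n : ℕ} {k k' k1 k1' : SLr n} (h : Orth k) (h' : Orth k') (h1 : Orth k1)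
    (h1' : Orth k1') {a a1 : Fin n → ℝ} (ha : ∑ i, a i = 0) (ha1 : ∑ i, a1 i = 0) {B : ℝ}
    (hB : ∀ p q, Real.exp (a1 q - a p) * |((k⁻¹ * k1 : SLr n) : Mr n) p q| ≤ B) (i j : Fin n) :
    |(((k * ex a * k')⁻¹ * (k1 * ex a1 * k1') : SLr n) : Mr n) i j| ≤ (n : ℝ) ^ 2 * B := by
  have e1 : (k * ex a * k')⁻¹ * (k1 * ex a1 * k1') =
      k'⁻¹ * (ex (-a) * (k⁻¹ * k1) * ex a1) * k1' := by
    rw [ex_neg]; group
  have hna : ∑ i, (-a) i = 0 := by
    simp only [Pi.neg_apply, Finset.sum_neg_distrib, ha, neg_zero]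
  have hD : ∀ p q, |((ex (-a) * (k⁻¹ * k1) * ex a1 : SLr n) : Mr n) p q| ≤ B := by
    intro p q
    have e2 : ((ex (-a) * (k⁻¹ * k1) * ex a1 : SLr n) : Mr n) p q =
        Real.exp (a1 q - a p) * ((k⁻¹ * k1 : SLr n) : Mr n) p q := by
      rw [Matrix.SpecialLinearGroup.coe_mul, Matrix.SpecialLinearGroup.coe_mul,
        ex_coe_of_sum hna, ex_coe_of_sum ha1, mul_diagonal, diagonal_mul, sub_eq_add_neg,
        Real.exp_add, Pi.neg_apply]
      ring
    rw [e2, abs_mul, abs_of_pos (Real.exp_pos _)]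
    exact hB p q
  rw [e1, Matrix.SpecialLinearGroup.coe_mul, Matrix.SpecialLinearGroup.coe_mul, Matrix.mul_apply]
  calc |∑ q, (((k'⁻¹ : SLr n) : Mr n) * ((ex (-a) * (k⁻¹ * k1) * ex a1 : SLr n) : Mr n)) i q *
          (k1' : Mr n) q j|
      ≤ ∑ q, |(((k'⁻¹ : SLr n) : Mr n) * ((ex (-a) * (k⁻¹ * k1) * ex a1 : SLr n) : Mr n)) i q *
          (k1' : Mr n) q j| := Finset.abs_sum_le_sum_abs _ _
    _ ≤ ∑ _q : Fin n, (n : ℝ) * B := by
        refine Finset.sum_le_sum fun q _ => ?_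
        rw [abs_mul]
        have hb1 : |(((k'⁻¹ : SLr n) : Mr n) *
            ((ex (-a) * (k⁻¹ * k1) * ex a1 : SLr n) : Mr n)) i q| ≤ (n : ℝ) * B := by
          rw [Matrix.mul_apply]
          calc |∑ p, ((k'⁻¹ : SLr n) : Mr n) i p *
                  ((ex (-a) * (k⁻¹ * k1) * ex a1 : SLr n) : Mr n) p q|
              ≤ ∑ p, |((k'⁻¹ : SLr n) : Mr n) i p *
                  ((ex (-a) * (k⁻¹ * k1) * ex a1 : SLr n) : Mr n) p q| :=
                Finset.abs_sum_le_sum_abs _ _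
            _ ≤ ∑ _p : Fin n, B := by
                refine Finset.sum_le_sum fun p _ => ?_
                rw [abs_mul]
                have hx : |((k'⁻¹ : SLr n) : Mr n) i p| ≤ 1 := by
                  rw [orth_inv h', Matrix.transpose_apply]
                  exact orth_entry h' p i
                have hy := hD p q
                calc _ ≤ 1 * |((ex (-a) * (k⁻¹ * k1) * ex a1 : SLr n) : Mr n) p q| :=
                      mul_le_mul_of_nonneg_right hx (abs_nonneg _)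
                  _ ≤ B := by rw [one_mul]; exact hy
            _ = (n : ℝ) * B := by
                rw [Finset.sum_const, Finset.card_univ, Fintype.card_fin, nsmul_eq_mul]
        have hz := orth_entry h1' q j
        calc _ ≤ |(((k'⁻¹ : SLr n) : Mr n) *
            ((ex (-a) * (k⁻¹ * k1) * ex a1 : SLr n) : Mr n)) i q| * 1 :=
              mul_le_mul_of_nonneg_left hz (abs_nonneg _)
          _ ≤ (n : ℝ) * B := by rw [mul_one]; exact hb1
    _ = (n : ℝ) ^ 2 * B := by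
        rw [Finset.sum_const, Finset.card_univ, Fintype.card_fin, nsmul_eq_mul]; ring

/-- the box of integral matrices -/
private noncomputable def bxm (n N : ℕ) : Finset (Fin n → Fin n → ℤ) :=
  Fintype.piFinset fun _ => Fintype.piFinset fun _ => Finset.Icc (-(N : ℤ)) N

private theorem mem_bxm {n : ℕ} {B : ℝ} {x : SLn n}
    (h : ∀ i j, |(((x : Mt n) i j : ℤ) : ℝ)| ≤ B) :
    (fun i j => (x : Mt n) i j) ∈ bxm n ⌊B⌋₊ := by
  unfold bxm
  rw [Fintype.mem_piFinset]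
  intro i
  rw [Fintype.mem_piFinset]
  intro j
  have h1 := h i j
  have h2 : ((|(x : Mt n) i j| : ℤ) : ℝ) ≤ B := by rw [Int.cast_abs]; exact h1
  have h3 : |(x : Mt n) i j| ≤ (⌊B⌋₊ : ℤ) := by
    have h4 : |(x : Mt n) i j| = (((x : Mt n) i j).natAbs : ℤ) := (Int.natCast_natAbs _).symm
    have h5 : ((x : Mt n) i j).natAbs ≤ ⌊B⌋₊ := by
      apply Nat.le_floor
      have h6 : ((((x : Mt n) i j).natAbs : ℕ) : ℝ) = ((|(x : Mt n) i j| : ℤ) : ℝ) := by
        rw [h4]; rfl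
      rw [h6]; exact h2
    rw [h4]
    exact_mod_cast h5
  rw [Finset.mem_Icc]
  exact abs_le.mp h3

theorem card_entries_le {n : ℕ} (S : Finset (SLn n)) {B : ℝ} (hB : 1 ≤ B)
    (h : ∀ x ∈ S, ∀ i j, |(((x : Mt n) i j : ℤ) : ℝ)| ≤ B) :
    (S.card : ℝ) ≤ (3 * B) ^ (n ^ 2) := by
  have h1 : S.card ≤ (bxm n ⌊B⌋₊).card := by
    refine Finset.card_le_card_of_injOn (fun x => fun i j => (x : Mt n) i j)
      (fun x hx => mem_bxm (h x hx)) ?_
    intro x _ y _ hxy
    apply Subtype.ext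
    ext i j
    exact congrFun (congrFun hxy i) j
  have h2 : (bxm n ⌊B⌋₊).card = (2 * ⌊B⌋₊ + 1) ^ (n ^ 2) := by
    unfold bxm
    rw [Fintype.card_piFinset]
    simp only [Fintype.card_piFinset, Finset.prod_const, Finset.card_univ, Fintype.card_fin,
      Int.card_Icc]
    rw [← pow_mul, ← sq]
    congr 1
    omega
  have h3 : ((2 * ⌊B⌋₊ + 1 : ℕ) : ℝ) ≤ 3 * B := by
    have := Nat.floor_le (by linarith : (0 : ℝ) ≤ B)
    push_cast
    linarith
  calc (S.card : ℝ) ≤ ((bxm n ⌊B⌋₊).card : ℝ) := by exact_mod_cast h1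
    _ = ((2 * ⌊B⌋₊ + 1 : ℕ) : ℝ) ^ (n ^ 2) := by rw [h2]; push_cast; ring
    _ ≤ (3 * B) ^ (n ^ 2) := pow_le_pow_left₀ (by positivity) h3 _

/-- finitely many elements of `SL_n(ℤ)` with bounded `N_1` -/
theorem finite_Nk_le {n : ℕ} (C : ℝ) : {x : SLn n | Nk 1 (iz n x : Mr n) ≤ C}.Finite := by
  have hinj : Function.Injective (fun (x : SLn n) => fun (i j : Fin n) => (x : Mt n) i j) := by
    intro x y hxy
    apply Subtype.ext
    ext i j
    exact congrFun (congrFun hxy i) j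
  refine Set.Finite.subset ((bxm n ⌊C⌋₊).finite_toSet.preimage hinj.injOn) fun x hx => ?_
  refine mem_bxm fun i j => ?_
  have hx' : Nk 1 (iz n x : Mr n) ≤ C := hx
  refine le_trans ?_ hx'
  unfold Nk
  rw [Nat.factorial_one, Nat.cast_one, div_one]
  refine Real.le_sqrt_of_sq_le ?_
  rw [sq_abs]
  have e1 : ((((x : Mt n) i j : ℤ) : ℝ)) ^ 2 =
      ((iz n x : Mr n).submatrix (fun _ : Fin 1 => i) (fun _ : Fin 1 => j)).det ^ 2 := by
    rw [Matrix.det_fin_one]
    rfl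
  rw [e1]
  calc ((iz n x : Mr n).submatrix (fun _ : Fin 1 => i) (fun _ : Fin 1 => j)).det ^ 2
      ≤ ∑ g : Fin 1 → Fin n, ((iz n x : Mr n).submatrix (fun _ : Fin 1 => i) g).det ^ 2 :=
        Finset.single_le_sum
          (f := fun g : Fin 1 → Fin n => ((iz n x : Mr n).submatrix (fun _ : Fin 1 => i) g).det ^ 2)
          (fun g _ => sq_nonneg _) (Finset.mem_univ _)
    _ ≤ ∑ f : Fin 1 → Fin n, ∑ g : Fin 1 → Fin n, ((iz n x : Mr n).submatrix f g).det ^ 2 :=
        Finset.single_le_sum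
          (f := fun f : Fin 1 → Fin n => ∑ g : Fin 1 → Fin n, ((iz n x : Mr n).submatrix f g).det ^ 2)
          (fun f _ => Finset.sum_nonneg fun g _ => sq_nonneg _) (Finset.mem_univ _)

end Pool.Agent.Lib.MP_41a456_al.TC
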