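import Pool.Agent.Lib.MP_41a456_al.TC.D8
import Pool.Agent.Lib.MP_41a456_al.TC.D7

/-!
# MP_41a456_al, Theorem TC, D9: the upper bound (paper 521, (4.2))

`x = k e^a k'` (`svd`), `|sk (i+1) a - om (i+1) x| ≤ (m+1) log 2` (`om_svd`), so `|a_i - s a*_i| ≤ 2 Δ + C` with
`a*_0 = omst η 0`, `a*_{j+1} = -(1 + j η)`. `v = k e_0` is a unit vector; choose `i` with
`|v_i| ≥ n^{-1/2}` and the cube of side `ρ = e^{-(m+1) s}` which contains `(v_l / v_i)_l` (all coordinates
are in `[-n^{1/2}, n^{1/2}]`): at most `C ρ^{-m}` classes `= C e^{m (m+1) s}`. `x, x'` in one class: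
`(k⁻¹ k_{x'})_{j0}` `(j ≥ 1)` is the scalar product of `k e_j ⊥ v` and `v' = k_{x'} e_0`, so it is
`v'_i ⟨k e_j, v'/v'_i - v/v_i⟩`, at most `n ρ`. Entries `exp (a1 q - a p) |(k⁻¹ k1) p q|`:
`(j, 0)`: `exp (a'_0 - a_j) n ρ ≤ exp (C (η s + Δ + 1))` because
`a*_0 - a*_j ≤ m + 1 + C η`; `(p, q)` with `q ≥ 1` or `p = q = 0`: `exp (a'_q - a_p) ≤ exp (C (η s + Δ + 1))`. So by
`inv_mul_bound` and `card_entries_le` (for the set of the `x⁻¹ x'`, `x` fixed) the class has at most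
`exp (C (η s + Δ + 1))` elements. `C` does not depend on `η`.
-/

namespace Pool.Agent.Lib.MP_41a456_al.TC

open Matrix MeasureTheory Filter Topology Pool.Agent.Lib.MP_41a456_al

private theorem d9_orth_inv {n : ℕ} {k : SLr n} (h : Orth k) (k1 : SLr n) (p q : Fin n) :
    ((k⁻¹ * k1 : SLr n) : Mr n) p q = ∑ l, (k : Mr n) l p * (k1 : Mr n) l q := by
  have h1 : ((k⁻¹ : SLr n) : Mr n) = (k : Mr n)ᵀ := by
    have h2 : ((k⁻¹ : SLr n) : Mr n) * (k : Mr n) = 1 := by
      have h4 := congrArg (fun z : SLr n => (z : Mr n)) (inv_mul_cancel k)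
      exact (Matrix.SpecialLinearGroup.coe_mul k⁻¹ k).symm.trans (h4.trans Matrix.SpecialLinearGroup.coe_one)
    have h3 : (k : Mr n) * (k : Mr n)ᵀ = 1 := mul_eq_one_comm.1 h
    calc ((k⁻¹ : SLr n) : Mr n) = ((k⁻¹ : SLr n) : Mr n) * ((k : Mr n) * (k : Mr n)ᵀ) := by
          rw [h3, mul_one]
      _ = (k : Mr n)ᵀ := by rw [← mul_assoc, h2, one_mul]
  have h5 : ((k⁻¹ * k1 : SLr n) : Mr n) = ((k⁻¹ : SLr n) : Mr n) * (k1 : Mr n) :=
    Matrix.SpecialLinearGroup.coe_mul k⁻¹ k1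
  have h6 := congrFun (congrFun h5 p) q
  rw [h1, Matrix.mul_apply] at h6
  exact h6

private theorem d9_orth_sum {n : ℕ} {k : SLr n} (h : Orth k) (p q : Fin n) :
    ∑ l, (k : Mr n) l p * (k : Mr n) l q = if p = q then 1 else 0 := by
  have h1 := congrFun (congrFun h p) q
  rw [Matrix.mul_apply, Matrix.one_apply] at h1
  exact h1

private theorem d9_orth_sq {n : ℕ} {k : SLr n} (h : Orth k) (p : Fin n) :
    ∑ l, ((k : Mr n) l p) ^ 2 = 1 := by
  have h1 := d9_orth_sum h p p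
  rw [if_pos rfl] at h1
  simpa only [sq] using h1

private theorem d9_orth_le {n : ℕ} {k : SLr n} (h : Orth k) (l p : Fin n) :
    |(k : Mr n) l p| ≤ 1 := by
  have h1 : ((k : Mr n) l p) ^ 2 ≤ 1 :=
    (Finset.single_le_sum (f := fun l => ((k : Mr n) l p) ^ 2) (fun i _ => sq_nonneg _)
      (Finset.mem_univ l)).trans_eq (d9_orth_sq h p)
  exact (sq_le_one_iff_abs_le_one _).1 h1

private theorem d9_orth_mul_le {n : ℕ} {k k1 : SLr n} (h : Orth k) (h1 : Orth k1) (p q : Fin n) :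
    |((k⁻¹ * k1 : SLr n) : Mr n) p q| ≤ 1 := by
  rw [d9_orth_inv h]
  have h2 := Finset.sum_mul_sq_le_sq_mul_sq Finset.univ (fun l => (k : Mr n) l p)
    (fun l => (k1 : Mr n) l q)
  rw [d9_orth_sq h p, d9_orth_sq h1 q, mul_one] at h2
  exact (sq_le_one_iff_abs_le_one _).1 h2

private theorem d9_sk_bound {m : ℕ} (d : Fin (m + 1) → ℝ) {D : ℝ} (hD : 0 ≤ D)
    (h0 : ∑ p, d p = 0) (h : ∀ i : Fin m, |sk ((i : ℕ) + 1) d| ≤ D) (k : ℕ) (hk : k ≤ m + 1) :
    |sk k d| ≤ D := by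
  rcases k with _ | k
  · simp [sk, hD]
  · by_cases hkm : k < m
    · exact h ⟨k, hkm⟩
    · have h2 : k = m := by omega
      subst h2
      have h1 : sk (k + 1) d = ∑ p, d p := by
        unfold sk
        rw [Finset.filter_true_of_mem]
        intro i _
        exact i.2
      rw [h1, h0, abs_zero]
      exact hD

private theorem d9_sk_succ {m : ℕ} (d : Fin (m + 1) → ℝ) (p : Fin (m + 1)) :
    sk ((p : ℕ) + 1) d = sk (p : ℕ) d + d p := by
  unfold sk
  have h : Finset.univ.filter (fun i : Fin (m + 1) => (i : ℕ) < (p : ℕ) + 1) =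
      insert p (Finset.univ.filter (fun i : Fin (m + 1) => (i : ℕ) < (p : ℕ))) := by
    ext i
    simp only [Finset.mem_filter, Finset.mem_univ, true_and, Finset.mem_insert, Fin.ext_iff]
    omega
  rw [h, Finset.sum_insert (by simp), add_comm]

private theorem d9_coord {m : ℕ} (d : Fin (m + 1) → ℝ) {D : ℝ} (hD : 0 ≤ D)
    (h0 : ∑ p, d p = 0) (h : ∀ i : Fin m, |sk ((i : ℕ) + 1) d| ≤ D) (p : Fin (m + 1)) :
    |d p| ≤ 2 * D := by
  have h1 := d9_sk_bound d hD h0 h ((p : ℕ) + 1) (by omega)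
  have h2 := d9_sk_bound d hD h0 h (p : ℕ) (by omega)
  have h3 := d9_sk_succ d p
  rw [abs_le] at *
  constructor <;> linarith [h1.1, h1.2, h2.1, h2.2]

/-- the vector `a*` -/
private noncomputable def ast {m : ℕ} (η : ℝ) : Fin (m + 1) → ℝ :=
  Fin.cons (∑ l : Fin m, (1 + (l : ℕ) * η)) fun l : Fin m => -(1 + (l : ℕ) * η)

private theorem d9_ast_sum {m : ℕ} (η : ℝ) : ∑ p, ast (m := m) η p = 0 := by
  rw [Fin.sum_univ_succ]
  simp only [ast, Fin.cons_zero, Fin.cons_succ, Finset.sum_neg_distrib]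
  ring

private theorem d9_sk_ast {m : ℕ} (η : ℝ) (i : Fin m) :
    sk ((i : ℕ) + 1) (ast (m := m) η) = omst η i := by
  unfold sk omst
  rw [Finset.sum_filter, Finset.sum_filter, Fin.sum_univ_succ]
  simp only [ast, Fin.cons_zero, Fin.cons_succ]
  rw [if_pos (by simp), ← Finset.sum_add_distrib]
  refine Finset.sum_congr rfl fun l _ => ?_
  have h1 : ((l.succ : Fin (m + 1)) : ℕ) < (i : ℕ) + 1 ↔ ¬ (i ≤ l) := by
    rw [Fin.val_succ, Fin.le_def]
    omega
  by_cases h2 : i ≤ l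
  · rw [if_neg (by rw [h1]; exact not_not.2 h2), if_pos h2, add_zero]
  · rw [if_pos (h1.2 h2), if_neg h2]
    ring

private theorem d9_ast_succ_le {m : ℕ} {η : ℝ} (hη : 0 < η) (j : Fin m) :
    ast (m := m) η j.succ ≤ -1 := by
  simp only [ast, Fin.cons_succ]
  have : 0 ≤ ((j : ℕ) : ℝ) * η := by positivity
  linarith

private theorem d9_ast_ge {m : ℕ} {η : ℝ} (hη : 0 < η) (p : Fin (m + 1)) :
    -(1 + m * η) ≤ ast (m := m) η p := by
  refine Fin.cases ?_ (fun j => ?_) p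
  · simp only [ast, Fin.cons_zero]
    have h1 : 0 ≤ ∑ l : Fin m, (1 + ((l : ℕ) : ℝ) * η) := Finset.sum_nonneg fun l _ => by positivity
    have h2 : 0 ≤ (m : ℝ) * η := by positivity
    linarith
  · simp only [ast, Fin.cons_succ]
    have h1 : ((j : ℕ) : ℝ) ≤ m := by exact_mod_cast j.2.le
    have h2 : ((j : ℕ) : ℝ) * η ≤ m * η := mul_le_mul_of_nonneg_right h1 hη.le
    linarith

private theorem d9_ast_zero_le {m : ℕ} {η : ℝ} (hη : 0 < η) :
    ast (m := m) η 0 ≤ m + m ^ 2 * η := by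
  simp only [ast, Fin.cons_zero]
  have h1 : ∑ l : Fin m, (1 + ((l : ℕ) : ℝ) * η) ≤ ∑ _l : Fin m, (1 + (m : ℝ) * η) := by
    refine Finset.sum_le_sum fun l _ => ?_
    have h1 : ((l : ℕ) : ℝ) ≤ m := by exact_mod_cast l.2.le
    have h2 : ((l : ℕ) : ℝ) * η ≤ m * η := mul_le_mul_of_nonneg_right h1 hη.le
    linarith
  rw [Finset.sum_const, Finset.card_univ, Fintype.card_fin, nsmul_eq_mul] at h1
  have h2 : (m : ℝ) * (1 + (m : ℝ) * η) = m + m ^ 2 * η := by ring
  linarith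

private theorem d9_ast_zero_nonneg {m : ℕ} {η : ℝ} (hη : 0 < η) :
    0 ≤ ast (m := m) η 0 := by
  simp only [ast, Fin.cons_zero]
  exact Finset.sum_nonneg fun l _ => by positivity

/-- coordinates of the exponent of an element of `S` -/
private theorem d9_a_bound {m : ℕ} {η s Δ : ℝ} (hΔ : 0 ≤ Δ) (g : SLr (m + 1))
    (h : ∀ i : Fin m, |om ((i : ℕ) + 1) (g : Mr (m + 1)) - s * omst η i| ≤ Δ)
    {k k' : SLr (m + 1)} {a : Fin (m + 1) → ℝ} (hk : Orth k) (hk' : Orth k') (ha : Antitone a)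
    (hs : ∑ i, a i = 0) (hg : g = k * ex a * k') (p : Fin (m + 1)) :
    |a p - s * ast η p| ≤ 2 * (Δ + (m + 1) * Real.log 2) := by
  have hlog : 0 ≤ Real.log 2 := Real.log_nonneg (by norm_num)
  have hD : 0 ≤ Δ + (m + 1) * Real.log 2 := by positivity
  refine d9_coord (fun p => a p - s * ast η p) hD ?_ ?_ p
  · rw [Finset.sum_sub_distrib, ← Finset.mul_sum, d9_ast_sum, hs]
    ring
  · intro i
    have h1 := om_svd (k := (i : ℕ) + 1) (by omega) ha hs hk hk'
    rw [← hg] at h1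
    have h2 := h i
    have h3 : sk ((i : ℕ) + 1) (fun p => a p - s * ast η p) =
        sk ((i : ℕ) + 1) a - s * omst η i := by
      rw [← d9_sk_ast]
      unfold sk
      rw [Finset.sum_sub_distrib, ← Finset.mul_sum]
    rw [h3]
    rw [abs_le] at *
    constructor <;> linarith [h1.1, h1.2, h2.1, h2.2]

/-- the entries of `e^{-a} (k⁻¹ k1) e^{a1}` -/
private theorem d9_entries {m : ℕ} {η s D : ℝ} (hη : 0 < η) (hs : 0 ≤ s)
    {k k1 : SLr (m + 1)} (hk : Orth k) (hk1 : Orth k1) {a a1 : Fin (m + 1) → ℝ}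
    (ha : ∀ p, |a p - s * ast η p| ≤ 2 * D) (ha1 : ∀ p, |a1 p - s * ast η p| ≤ 2 * D)
    (i : Fin (m + 1)) (hi1 : (k1 : Mr (m + 1)) i 0 ≠ 0)
    (hw : ∀ l, |(k1 : Mr (m + 1)) l 0 / (k1 : Mr (m + 1)) i 0 -
      (k : Mr (m + 1)) l 0 / (k : Mr (m + 1)) i 0| ≤ Real.exp (-((m + 1) * s)))
    (p q : Fin (m + 1)) :
    Real.exp (a1 q - a p) * |((k⁻¹ * k1 : SLr (m + 1)) : Mr (m + 1)) p q| ≤
      (m + 1) * Real.exp ((m ^ 2 + m) * (η * s) + 4 * D) := by
  have hηs : 0 ≤ η * s := by positivity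
  have hmr : (0 : ℝ) ≤ m := Nat.cast_nonneg m
  have h1 := ha p
  have h2 := ha1 q
  rw [abs_le] at h1 h2
  have hD : 0 ≤ D := by linarith [h1.1, h1.2]
  have hentry := d9_orth_mul_le hk hk1 p q
  -- generic finishing step
  have fin : a1 q - a p ≤ (m ^ 2 + m) * (η * s) + 4 * D →
      Real.exp (a1 q - a p) * |((k⁻¹ * k1 : SLr (m + 1)) : Mr (m + 1)) p q| ≤
      (m + 1) * Real.exp ((m ^ 2 + m) * (η * s) + 4 * D) := by
    intro h3
    have h4 := Real.exp_le_exp.2 h3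
    have h5 : Real.exp (a1 q - a p) * |((k⁻¹ * k1 : SLr (m + 1)) : Mr (m + 1)) p q| ≤
        Real.exp (a1 q - a p) * 1 := mul_le_mul_of_nonneg_left hentry (Real.exp_nonneg _)
    have h6 : 0 ≤ (m : ℝ) * Real.exp ((m ^ 2 + m) * (η * s) + 4 * D) := by positivity
    linarith
  by_cases hq : q = 0
  · by_cases hp : p = 0
    · subst hq
      subst hp
      apply fin
      have h3 : 0 ≤ ((m : ℝ) ^ 2 + m) * (η * s) := by positivity
      linarith [h1.1, h2.2]
    · -- the interesting case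
      subst hq
      have hpq := d9_orth_inv hk k1 p 0
      have hperp : ∑ l, (k : Mr (m + 1)) l p * (k : Mr (m + 1)) l 0 = 0 := by
        rw [d9_orth_sum hk, if_neg hp]
      have hperp2 : ∑ l, (k : Mr (m + 1)) l p *
          ((k : Mr (m + 1)) l 0 / (k : Mr (m + 1)) i 0) = 0 := by
        have h3 : ∀ l, (k : Mr (m + 1)) l p * ((k : Mr (m + 1)) l 0 / (k : Mr (m + 1)) i 0) =
            (k : Mr (m + 1)) l p * (k : Mr (m + 1)) l 0 / (k : Mr (m + 1)) i 0 := fun l => by ring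
        rw [Finset.sum_congr rfl fun l _ => h3 l, ← Finset.sum_div, hperp, zero_div]
      have hval : ((k⁻¹ * k1 : SLr (m + 1)) : Mr (m + 1)) p 0 = (k1 : Mr (m + 1)) i 0 *
          ∑ l, (k : Mr (m + 1)) l p * ((k1 : Mr (m + 1)) l 0 / (k1 : Mr (m + 1)) i 0 -
            (k : Mr (m + 1)) l 0 / (k : Mr (m + 1)) i 0) := by
        have h4 : ∑ l, (k : Mr (m + 1)) l p * ((k1 : Mr (m + 1)) l 0 / (k1 : Mr (m + 1)) i 0 -
            (k : Mr (m + 1)) l 0 / (k : Mr (m + 1)) i 0) =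
            ∑ l, (k : Mr (m + 1)) l p * ((k1 : Mr (m + 1)) l 0 / (k1 : Mr (m + 1)) i 0) := by
          simp only [mul_sub, Finset.sum_sub_distrib]
          rw [hperp2, sub_zero]
        rw [h4, hpq, Finset.mul_sum]
        refine Finset.sum_congr rfl fun l _ => ?_
        field_simp
      have hbound : |((k⁻¹ * k1 : SLr (m + 1)) : Mr (m + 1)) p 0| ≤
          (m + 1) * Real.exp (-((m + 1) * s)) := by
        rw [hval, abs_mul]
        have h5 : |∑ l, (k : Mr (m + 1)) l p * ((k1 : Mr (m + 1)) l 0 / (k1 : Mr (m + 1)) i 0 -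
            (k : Mr (m + 1)) l 0 / (k : Mr (m + 1)) i 0)| ≤
            ∑ _l : Fin (m + 1), Real.exp (-((m + 1) * s)) := by
          refine (Finset.abs_sum_le_sum_abs _ _).trans (Finset.sum_le_sum fun l _ => ?_)
          rw [abs_mul]
          calc _ ≤ 1 * Real.exp (-((m + 1) * s)) :=
                mul_le_mul (d9_orth_le hk l p) (hw l) (abs_nonneg _) zero_le_one
            _ = _ := one_mul _
        rw [Finset.sum_const, Finset.card_univ, Fintype.card_fin, nsmul_eq_mul] at h5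
        push_cast at h5
        calc _ ≤ 1 * ((m + 1) * Real.exp (-((m + 1) * s))) :=
              mul_le_mul (d9_orth_le hk1 i 0) h5 (abs_nonneg _) zero_le_one
          _ = _ := one_mul _
      have h3 : a1 0 - a p ≤ (m + 1) * s + ((m ^ 2 + m) * (η * s) + 4 * D) := by
        have h4 := d9_ast_zero_le (m := m) hη
        have h5 := d9_ast_ge (m := m) hη p
        have h6 : s * ast η (0 : Fin (m + 1)) ≤ s * (m + m ^ 2 * η) :=
          mul_le_mul_of_nonneg_left h4 hs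
        have h7 : s * (-(1 + m * η)) ≤ s * ast η p := mul_le_mul_of_nonneg_left h5 hs
        have h8 : s * (m + m ^ 2 * η) - s * (-(1 + m * η)) =
            (m + 1) * s + (m ^ 2 + m) * (η * s) := by ring
        linarith [h1.1, h2.2]
      calc Real.exp (a1 0 - a p) * |((k⁻¹ * k1 : SLr (m + 1)) : Mr (m + 1)) p 0|
          ≤ Real.exp ((m + 1) * s + ((m ^ 2 + m) * (η * s) + 4 * D)) *
            ((m + 1) * Real.exp (-((m + 1) * s))) :=
            mul_le_mul (Real.exp_le_exp.2 h3) hbound (abs_nonneg _) (Real.exp_nonneg _)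
        _ = (m + 1) * (Real.exp ((m + 1) * s) * Real.exp (-((m + 1) * s))) *
            Real.exp ((m ^ 2 + m) * (η * s) + 4 * D) := by
            rw [Real.exp_add]
            ring
        _ = (m + 1) * Real.exp ((m ^ 2 + m) * (η * s) + 4 * D) := by
            rw [← Real.exp_add, add_neg_cancel, Real.exp_zero, mul_one]
  · apply fin
    obtain ⟨j, rfl⟩ := Fin.exists_succ_eq.2 hq
    have h4 := d9_ast_succ_le (m := m) hη j
    have h5 := d9_ast_ge (m := m) hη p
    have h6 : s * ast η j.succ ≤ s * (-1) := mul_le_mul_of_nonneg_left h4 hs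
    have h7 : s * (-(1 + m * η)) ≤ s * ast η p := mul_le_mul_of_nonneg_left h5 hs
    have h8 : s * (-1) - s * (-(1 + m * η)) = m * (η * s) := by ring
    have h9 : 0 ≤ (m : ℝ) ^ 2 * (η * s) := by positivity
    have h10 : ((m : ℝ) ^ 2 + m) * (η * s) = m ^ 2 * (η * s) + m * (η * s) := by ring
    linarith [h1.1, h2.2]

/-- number of the classes -/
private theorem d9_prod {m : ℕ} (i : Fin (m + 1)) (c : ℕ) :
    (∏ l : Fin (m + 1), if l = i then 1 else c) = c ^ m := by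
  rw [← Finset.mul_prod_erase Finset.univ _ (Finset.mem_univ i), if_pos rfl, one_mul]
  have h : ∀ l ∈ Finset.univ.erase i, (if l = i then 1 else c) = c := by
    intro l hl
    rw [if_neg (Finset.ne_of_mem_erase hl)]
  rw [Finset.prod_congr rfl h, Finset.prod_const, Finset.card_erase_of_mem (Finset.mem_univ i),
    Finset.card_univ, Fintype.card_fin, Nat.add_sub_cancel]

theorem upper_count {m : ℕ} (hm : 2 ≤ m) : ∃ C : ℝ, 0 < C ∧ ∀ η : ℝ, 0 < η → η ≤ 1 →
    ∀ s Δ : ℝ, 0 ≤ s → 0 ≤ Δ → ∀ S : Finset (SLn (m + 1)),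
      (∀ x ∈ S, ∀ i : Fin m, |om ((i : ℕ) + 1) (iz (m + 1) x : Mr (m + 1)) - s * omst η i| ≤ Δ) →
      (S.card : ℝ) ≤ Real.exp (m * (m + 1) * s + C * (η * s + Δ + 1)) := by
  classical
  have hlog2 : 0 ≤ Real.log 2 := Real.log_nonneg (by norm_num)
  set K0 : ℝ := (m + 1) * 5 ^ m * (3 * (m + 1) ^ 3) ^ ((m + 1) ^ 2) with hK0
  have hmr : (0 : ℝ) ≤ m := Nat.cast_nonneg m
  have hm1 : (1 : ℝ) ≤ m + 1 := by linarith
  have hK0_1 : 1 ≤ K0 := by
    have h1 : (1 : ℝ) ≤ 5 ^ m := one_le_pow₀ (by norm_num)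
    have h2 : (1 : ℝ) ≤ 3 * (m + 1) ^ 3 := by
      have : (1 : ℝ) ≤ (m + 1) ^ 3 := one_le_pow₀ hm1
      linarith
    have h3 : (1 : ℝ) ≤ (3 * (m + 1) ^ 3) ^ ((m + 1) ^ 2) := one_le_pow₀ h2
    exact one_le_mul_of_one_le_of_one_le (one_le_mul_of_one_le_of_one_le hm1 h1) h3
  set c1 : ℝ := (m + 1) ^ 2 * (m ^ 2 + m) with hc1
  set c2 : ℝ := 4 * (m + 1) ^ 2 with hc2
  set c3 : ℝ := 4 * (m + 1) ^ 2 * ((m + 1) * Real.log 2) with hc3
  set c4 : ℝ := Real.log K0 with hc4
  have hc1' : 0 ≤ c1 := by positivity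
  have hc2' : 0 < c2 := by positivity
  have hc3' : 0 ≤ c3 := by positivity
  have hc4' : 0 ≤ c4 := Real.log_nonneg hK0_1
  refine ⟨c1 + c2 + c3 + c4, by linarith, ?_⟩
  intro η hη hη1 s Δ hs hΔ S hS
  have hηs : 0 ≤ η * s := by positivity
  set D : ℝ := Δ + (m + 1) * Real.log 2 with hD
  have hDn : 0 ≤ D := by positivity
  set ρ : ℝ := Real.exp (-((m + 1) * s)) with hρ
  set E : ℝ := Real.exp ((m + 1) * s) with hE
  have hρ0 : 0 < ρ := Real.exp_pos _
  have hE1 : 1 ≤ E := Real.one_le_exp (by positivity)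
  have hEρ : 1 / ρ = E := by
    rw [hρ, hE, Real.exp_neg, one_div, inv_inv]
  -- the decompositions
  choose k a k' hk hk' hanti hsum hx using fun x : SLn (m + 1) => svd m (iz (m + 1) x)
  have hmax : ∀ x : SLn (m + 1), ∃ i : Fin (m + 1),
      ∀ l, |(k x : Mr (m + 1)) l 0| ≤ |(k x : Mr (m + 1)) i 0| := fun x =>
    Finite.exists_max fun l => |(k x : Mr (m + 1)) l 0|
  choose ix hix using hmax
  have hne : ∀ x, (k x : Mr (m + 1)) (ix x) 0 ≠ 0 := by
    intro x h0
    have h1 := d9_orth_sq (hk x) 0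
    have h2 : ∀ l, (k x : Mr (m + 1)) l 0 = 0 := by
      intro l
      have h3 := hix x l
      rw [h0, abs_zero] at h3
      exact abs_eq_zero.1 (le_antisymm h3 (abs_nonneg _))
    simp only [h2] at h1
    simp at h1
  set w : SLn (m + 1) → Fin (m + 1) → ℝ := fun x l =>
    (k x : Mr (m + 1)) l 0 / (k x : Mr (m + 1)) (ix x) 0 with hw
  have hw1 : ∀ x l, |w x l| ≤ 1 := by
    intro x l
    rw [hw]
    simp only
    rw [abs_div, div_le_one (abs_pos.2 (hne x))]
    exact hix x l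
  have hwi : ∀ x, w x (ix x) = 1 := fun x => div_self (hne x)
  set N : ℤ := ⌈1 / ρ⌉ with hN
  have hN0 : 0 ≤ N := Int.ceil_nonneg (by positivity)
  have hNle : (N : ℝ) ≤ E + 1 := by
    rw [hN, ← hEρ]
    exact (Int.ceil_lt_add_one _).le
  have hNge : E ≤ (N : ℝ) := by
    rw [hN, ← hEρ]
    exact Int.le_ceil _
  let cl : SLn (m + 1) → (Σ _ : Fin (m + 1), (Fin (m + 1) → ℤ)) := fun x =>
    ⟨ix x, fun l => ⌊w x l / ρ⌋⟩
  let Fz : Fin (m + 1) → Fin (m + 1) → Finset ℤ := fun i l =>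
    if l = i then {⌊1 / ρ⌋} else Finset.Icc (-N) N
  let T : Finset (Σ _ : Fin (m + 1), (Fin (m + 1) → ℤ)) :=
    Finset.univ.sigma fun i => Fintype.piFinset (Fz i)
  have hmaps : Set.MapsTo cl (S : Set (SLn (m + 1))) (T : Set _) := by
    intro x _
    simp only [T, cl, Finset.coe_sigma, Set.mem_sigma_iff, Finset.coe_univ, Set.mem_univ,
      true_and, Finset.mem_coe, Fintype.mem_piFinset, Fz]
    intro l
    by_cases hl : l = ix x
    · rw [if_pos hl, hl, hwi x]
      exact Finset.mem_singleton_self _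
    · rw [if_neg hl, Finset.mem_Icc]
      have h1 := hw1 x l
      rw [abs_le] at h1
      have h2 : w x l / ρ ≤ E := by
        rw [← hEρ]
        exact div_le_div_of_nonneg_right h1.2 hρ0.le
      have h3 : -E ≤ w x l / ρ := by
        rw [← hEρ, ← neg_div]
        exact div_le_div_of_nonneg_right h1.1 hρ0.le
      constructor
      · rw [Int.le_floor]
        push_cast
        linarith
      · have h4 : (⌊w x l / ρ⌋ : ℝ) ≤ w x l / ρ := Int.floor_le _
        have h5 : (⌊w x l / ρ⌋ : ℝ) ≤ (N : ℝ) := by linarith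
        exact_mod_cast h5
  have hTcard : (T.card : ℝ) ≤ (m + 1) * (5 * E) ^ m := by
    have h1 : T.card = (m + 1) * ((2 * N + 1).toNat) ^ m := by
      simp only [T, Finset.card_sigma, Fintype.card_piFinset]
      have h2 : ∀ i : Fin (m + 1), (∏ l, (Fz i l).card) = ((2 * N + 1).toNat) ^ m := by
        intro i
        rw [← d9_prod i ((2 * N + 1).toNat)]
        refine Finset.prod_congr rfl fun l _ => ?_
        simp only [Fz]
        by_cases hl : l = i
        · rw [if_pos hl, if_pos hl, Finset.card_singleton]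
        · rw [if_neg hl, if_neg hl, Int.card_Icc]
          congr 1
          ring
      rw [Finset.sum_congr rfl fun i _ => h2 i, Finset.sum_const, Finset.card_univ,
        Fintype.card_fin, smul_eq_mul]
    rw [h1]
    push_cast
    have h3 : (((2 * N + 1).toNat : ℕ) : ℝ) = 2 * N + 1 := by
      have h4 : (((2 * N + 1).toNat : ℕ) : ℤ) = 2 * N + 1 := Int.toNat_of_nonneg (by omega)
      exact_mod_cast congrArg (fun z : ℤ => (z : ℝ)) h4
    rw [h3]
    refine mul_le_mul_of_nonneg_left ?_ (by linarith)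
    have hN0' : (0 : ℝ) ≤ N := by exact_mod_cast hN0
    exact pow_le_pow_left₀ (by linarith) (by linarith) m
  -- the size of one class
  set Y : ℝ := (m ^ 2 + m) * (η * s) + 4 * D with hY
  have hYn : 0 ≤ Y := by positivity
  have hclass : ∀ b ∈ T, ((S.filter fun x => cl x = b).card : ℝ) ≤
      (3 * ((m + 1) ^ 2 * ((m + 1) * Real.exp Y))) ^ ((m + 1) ^ 2) := by
    intro b _
    have hB1 : (1 : ℝ) ≤ (m + 1) ^ 2 * ((m + 1) * Real.exp Y) := by
      have h1 : (1 : ℝ) ≤ (m + 1) ^ 2 := one_le_pow₀ hm1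
      have h2 : (1 : ℝ) ≤ Real.exp Y := Real.one_le_exp hYn
      exact one_le_mul_of_one_le_of_one_le h1 (one_le_mul_of_one_le_of_one_le hm1 h2)
    rcases (S.filter fun x => cl x = b).eq_empty_or_nonempty with he | ⟨x0, hx0⟩
    · rw [he, Finset.card_empty, Nat.cast_zero]
      positivity
    · have hinj : ((S.filter fun x => cl x = b).image fun x => x0⁻¹ * x).card =
          (S.filter fun x => cl x = b).card :=
        Finset.card_image_of_injective _ (mul_right_injective _)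
      rw [← hinj]
      have := card_entries_le ((S.filter fun x => cl x = b).image fun x => x0⁻¹ * x) hB1 (by
        intro y hy i j
        obtain ⟨x1, hx1, rfl⟩ := Finset.mem_image.1 hy
        rw [Finset.mem_filter] at hx0 hx1
        have hcl : cl x1 = cl x0 := hx1.2.trans hx0.2.symm
        have hi : ix x1 = ix x0 := congrArg Sigma.fst hcl
        have hfl : ∀ l, ⌊w x1 l / ρ⌋ = ⌊w x0 l / ρ⌋ := by
          intro l
          have h1 : (fun l => ⌊w x1 l / ρ⌋) = fun l => ⌊w x0 l / ρ⌋ := by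
            have h2 := hcl
            simp only [cl] at h2
            exact eq_of_heq (Sigma.mk.inj_iff.1 h2).2
          exact congrFun h1 l
        have ha0 := d9_a_bound (η := η) (s := s) hΔ (iz (m + 1) x0) (hS x0 hx0.1) (hk x0) (hk' x0)
          (hanti x0) (hsum x0) (hx x0)
        have ha1 := d9_a_bound (η := η) (s := s) hΔ (iz (m + 1) x1) (hS x1 hx1.1) (hk x1) (hk' x1)
          (hanti x1) (hsum x1) (hx x1)
        have hwdiff : ∀ l, |(k x1 : Mr (m + 1)) l 0 / (k x1 : Mr (m + 1)) (ix x0) 0 -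
            (k x0 : Mr (m + 1)) l 0 / (k x0 : Mr (m + 1)) (ix x0) 0| ≤
            Real.exp (-((m + 1) * s)) := by
          intro l
          have h1 := Int.abs_sub_lt_one_of_floor_eq_floor (hfl l)
          have h2 : w x1 l / ρ - w x0 l / ρ = (w x1 l - w x0 l) / ρ := by ring
          rw [h2, abs_div, abs_of_pos hρ0, div_lt_one hρ0] at h1
          have h3 : w x1 l = (k x1 : Mr (m + 1)) l 0 / (k x1 : Mr (m + 1)) (ix x0) 0 := by
            rw [← hi]
          have h4 : w x0 l = (k x0 : Mr (m + 1)) l 0 / (k x0 : Mr (m + 1)) (ix x0) 0 := rfl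
          rw [← h3, ← h4]
          exact h1.le
        have hent := d9_entries hη hs (hk x0) (hk x1) ha0 ha1 (ix x0)
          (by rw [← hi]; exact hne x1) hwdiff
        have hfin := inv_mul_bound (hk x0) (hk' x0) (hk x1) (hk' x1) (hsum x0) (hsum x1) hent i j
        rw [← hx x0, ← hx x1, ← map_inv, ← map_mul] at hfin
        have hcast : ((iz (m + 1) (x0⁻¹ * x1) : SLr (m + 1)) : Mr (m + 1)) i j =
            ((((x0⁻¹ * x1 : SLn (m + 1)) : Mt (m + 1)) i j : ℤ) : ℝ) := rfl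
        rw [hcast] at hfin
        push_cast at hfin
        exact hfin)
      exact this
  -- counting
  have hcount : (S.card : ℝ) ≤ T.card * (3 * ((m + 1) ^ 2 * ((m + 1) * Real.exp Y))) ^ ((m + 1) ^ 2) := by
    rw [Finset.card_eq_sum_card_fiberwise hmaps]
    push_cast
    refine (Finset.sum_le_sum hclass).trans ?_
    rw [Finset.sum_const, nsmul_eq_mul]
  have h1 : (3 * ((m + 1) ^ 2 * ((m + 1) * Real.exp Y))) ^ ((m + 1) ^ 2) =
      (3 * ((m : ℝ) + 1) ^ 3) ^ ((m + 1) ^ 2) * Real.exp Y ^ ((m + 1) ^ 2) := by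
    rw [← mul_pow]
    congr 1
    ring
  have h2 : (T.card : ℝ) * (3 * ((m + 1) ^ 2 * ((m + 1) * Real.exp Y))) ^ ((m + 1) ^ 2) ≤
      ((m + 1) * (5 * E) ^ m) * ((3 * ((m : ℝ) + 1) ^ 3) ^ ((m + 1) ^ 2) *
        Real.exp Y ^ ((m + 1) ^ 2)) := by
    rw [h1]
    exact mul_le_mul_of_nonneg_right hTcard (by positivity)
  have h3 : ((m + 1) * (5 * E) ^ m) * ((3 * ((m : ℝ) + 1) ^ 3) ^ ((m + 1) ^ 2) *
        Real.exp Y ^ ((m + 1) ^ 2)) = K0 * (E ^ m * Real.exp Y ^ ((m + 1) ^ 2)) := by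
    rw [hK0, mul_pow]
    ring
  have h4 : E ^ m = Real.exp (m * ((m + 1) * s)) := by
    rw [hE, ← Real.exp_nat_mul]
  have h5 : Real.exp Y ^ ((m + 1) ^ 2) = Real.exp ((m + 1) ^ 2 * Y) := by
    rw [← Real.exp_nat_mul]
    push_cast
    rfl
  have h6 : K0 = Real.exp c4 := by
    rw [hc4, Real.exp_log (by linarith)]
  refine hcount.trans (h2.trans ?_)
  rw [h3, h4, h5, h6, ← Real.exp_add, ← Real.exp_add]
  apply Real.exp_le_exp.2
  have h7 : ((m : ℝ) + 1) ^ 2 * Y = c1 * (η * s) + c2 * Δ + c3 := by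
    rw [hY, hD, hc1, hc2, hc3]
    ring
  rw [h7]
  have h8 : 0 ≤ (c2 + c3 + c4) * (η * s) := by positivity
  have h9 : 0 ≤ (c1 + c3 + c4) * Δ := by positivity
  have h10 : (c1 + c2 + c3 + c4) * (η * s + Δ + 1) = c1 * (η * s) + c2 * Δ + c3 + c4 +
      (c2 + c3 + c4) * (η * s) + (c1 + c3 + c4) * Δ + (c1 + c2) := by ring
  have h11 : (m : ℝ) * ((m + 1) * s) = m * (m + 1) * s := by ring
  rw [h10, h11]
  linarith

end Pool.Agent.Lib.MP_41a456_al.TC
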