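import Pool.Agent.Lib.MP_41a456_al.TC.A5
import Pool.Agent.Lib.MP_41a456_al.TC.D7

section

/-!
# MP_41a456_al, Theorem TC, H0: forward inequality: definitions

Paper 521, section 8, `n = m + 1`, coordinates of `v ∈ ℝ^m`. Cubes of level `l`: `Λ^{-l} (q + [0,1)^m)`,
`q` integral, `qf Λ l v` = the cube of level `l` which contains `v`. `stt Λ y l q = u(q)⁻¹ W^l y` the state of the
cube `q` of level `l` (base point `y`), `st Λ y l v` = state of the cube containing `v`,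
`zz Λ y l v = W^l u(v)⁻¹ y`.
-/

namespace Pool.Agent.Lib.MP_41a456_al.TC

open Matrix MeasureTheory Filter Topology Pool.Agent.Lib.MP_41a456_al

/-- the cube of level `l` which contains `v` -/
noncomputable def qf {m : ℕ} (Λ l : ℕ) (v : Fin m → ℝ) : Fin m → ℤ := fun j => ⌊(Λ : ℝ) ^ l * v j⌋

/-- the state of the cube `q` of level `l` -/
noncomputable def stt {m : ℕ} (Λ : ℕ) (y : X (m + 1)) (l : ℕ) (q : Fin m → ℤ) : X (m + 1) :=
  ((ucol fun j => (q j : ℝ))⁻¹ * (W Λ 0) ^ l) • y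

/-- the state of the cube of level `l` which contains `v` -/
noncomputable def st {m : ℕ} (Λ : ℕ) (y : X (m + 1)) (l : ℕ) (v : Fin m → ℝ) : X (m + 1) :=
  stt Λ y l (qf Λ l v)

/-- `W^l u(v)⁻¹ y` -/
noncomputable def zz {m : ℕ} (Λ : ℕ) (y : X (m + 1)) (l : ℕ) (v : Fin m → ℝ) : X (m + 1) :=
  ((W Λ 0) ^ l * (ucol v)⁻¹) • y

/-- `z` has the type `S` for the window `L` and the tolerance `d` -/
def Ty {m : ℕ} (Λ L : ℕ) (d : ℝ) (S : Set (X (m + 1))) (z : X (m + 1)) : Prop :=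
  ∀ F : Finset ℕ, (∀ l ∈ F, l < L ∧ ((W Λ (0 : Fin (m + 1))) ^ l) • z ∉ S) → (F.card : ℝ) ≤ d * L

/-- condition `(*_j)` -/
def Star {m : ℕ} (Λ : ℕ) (eps : ℝ) (j : Fin m) (S : Set (X (m + 1))) : Prop :=
  ∀ z ∈ S, ∀ p : Fin m → ℝ, (∀ i, i ≠ j → |p i| ≤ eps) → |p j| ≤ Λ →
    (ucol p)⁻¹ • z ∈ S → |p j| < 1 / Λ

/-- the gain of one step -/
noncomputable def gG {m : ℕ} (Λ : ℕ) (M : ℝ) (y1 y2 : X (m + 1)) : ℝ :=
  Real.log (max (alf y2) M / max (alf y1) M) +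
    if M * Real.sqrt Λ ≤ alf y1 then 1 / 2 * Real.log Λ else 0

/-- the gain of the first `l` steps -/
noncomputable def FG {m : ℕ} (Λ : ℕ) (M : ℝ) (y : X (m + 1)) (l : ℕ) (v : Fin m → ℝ) : ℝ :=
  ∑ i ∈ Finset.range l, gG Λ M (st Λ y i v) (st Λ y (i + 1) v)

/-- `z` has some type -/
def TE {m : ℕ} (Λ L : ℕ) (d : ℝ) (S : Fin m → Set (X (m + 1))) (z : X (m + 1)) : Prop :=
  ∃ j, Ty Λ L d (S j) z

open Classical in
/-- the bonus at level `l` -/
noncomputable def HH {m : ℕ} (Λ L : ℕ) (d : ℝ) (S : Fin m → Set (X (m + 1))) (y : X (m + 1)) (l : ℕ)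
    (v : Fin m → ℝ) : ℝ :=
  if ∃ v' : Fin m → ℝ, qf Λ (l + L) v' = qf Λ (l + L) v ∧ TE Λ L d S (zz Λ y l v') then
    9 / 10 * L * Real.log Λ else 0

/-- the cubes of level `l` in `[-B, B)^m` -/
noncomputable def Box {m : ℕ} (Λ B l : ℕ) : Finset (Fin m → ℤ) :=
  Fintype.piFinset fun _ => Finset.Ico (-((B : ℤ) * (Λ : ℤ) ^ l)) ((B : ℤ) * (Λ : ℤ) ^ l)

/-- the corner of the cube `q` of level `l` -/
noncomputable def crn {m : ℕ} (Λ l : ℕ) (q : Fin m → ℤ) : Fin m → ℝ := fun j => (q j : ℝ) / (Λ : ℝ) ^ l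

end Pool.Agent.Lib.MP_41a456_al.TC
end

section

/-!
# MP_41a456_al, Theorem TC, E0: production: definitions

Paper 521, section 5, `n = m + 1`. `omv x` = vector of the `om (i+1) x`, `sg` = first coordinate divided by
`om*_1`, `QB η M` the bilinear form of
`QQ(o) = sg(o)² + M² ∑_{i ≥ 1} (o_i - sg(o) om*_{i+1})²`.
-/

namespace Pool.Agent.Lib.MP_41a456_al.TC

open Matrix MeasureTheory Filter Topology Pool.Agent.Lib.MP_41a456_al

/-- `a*` -/
noncomputable def ast {m : ℕ} (η : ℝ) : Fin (m + 1) → ℝ :=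
  Fin.cons (∑ l : Fin m, (1 + (l : ℕ) * η)) fun l : Fin m => -(1 + (l : ℕ) * η)

/-- the compound norms of `x ∈ SL_n(ℤ)` -/
noncomputable def omv {m : ℕ} (x : SLn (m + 1)) : Fin m → ℝ :=
  fun i => om ((i : ℕ) + 1) (iz (m + 1) x : Mr (m + 1))

/-- `om_1 / om*_1` -/
noncomputable def sg {m : ℕ} (η : ℝ) (o : Fin m → ℝ) : ℝ :=
  ∑ i ∈ Finset.univ.filter (fun i : Fin m => (i : ℕ) = 0), o i / omst η i

/-- the bilinear form -/
noncomputable def QB {m : ℕ} (η M : ℝ) (o o' : Fin m → ℝ) : ℝ :=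
  sg η o * sg η o' + M ^ 2 * ∑ i, (o i - sg η o * omst η i) * (o' i - sg η o' * omst η i)

/-- the quadratic form -/
noncomputable def QQ {m : ℕ} (η M : ℝ) (o : Fin m → ℝ) : ℝ := QB η M o o

/-- the exponent `κ` -/
noncomputable def kap (m : ℕ) : ℝ := 2 / (m * (m + 1))

/-- the data of theorem TC -/
structure Trap (m : ℕ) (η C R0 : ℝ) (t : ℕ → ℝ) (a : ℕ → Fin (m + 1) → ℝ)
    (E : ℕ → Finset (SLn (m + 1))) (k k' : SLn (m + 1) → SLr (m + 1))
    (av : SLn (m + 1) → Fin (m + 1) → ℝ) (O : Set (X (m + 1))) : Prop where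
  ht : Tendsto t atTop atTop
  asum : ∀ r, ∑ i, a r i = 0
  a0 : ∀ r, |a r 0 - m * t r| ≤ C * η * t r
  ai : ∀ r (i : Fin m), |a r i.succ + t r| ≤ C * η * t r
  agap : ∀ r (i : Fin m), η / 2 * t r ≤ gap (a r) i
  hk : ∀ x, Orth (k x)
  hk' : ∀ x, Orth (k' x)
  avsum : ∀ x, ∑ i, av x i = 0
  avanti : ∀ x, Antitone (av x)
  fac : ∀ x, iz (m + 1) x = k x * ex (av x) * k' x
  near : ∀ r, ∀ x ∈ E r, ∀ i, |av x i - a r i| ≤ 1
  card : ∀ r, Real.exp ((m * (m + 1) - 1 - η) * t r) ≤ (E r).card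
  Oopen : IsOpen O
  Onon : O.Nonempty
  trap : ∀ r, ∀ x ∈ E r, ∀ b : Fin (m + 1) → ℝ, ∑ i, b i = 0 → (∀ i, R0 ≤ gap b i) →
    (∀ i, R0 ≤ gap (av x - b) i) → ((ex b)⁻¹ * (k x)⁻¹) • (pt 1 : X (m + 1)) ∉ O

private theorem e0_omst_pos {m : ℕ} {η : ℝ} (hη : 0 ≤ η) (i : Fin m) : 0 < omst η i := by
  unfold omst
  refine Finset.sum_pos (fun l _ => ?_) ⟨i, by simp⟩
  have : (0 : ℝ) ≤ ((l : ℕ) : ℝ) * η := mul_nonneg (Nat.cast_nonneg _) hη
  linarith

theorem sg_zero_eq {m : ℕ} (η : ℝ) (hη : 0 ≤ η) (o : Fin m → ℝ) (i : Fin m) (hi : (i : ℕ) = 0) :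
    o i - sg η o * omst η i = 0 := by
  have h1 : Finset.univ.filter (fun j : Fin m => (j : ℕ) = 0) = {i} := by
    ext j
    simp only [Finset.mem_filter, Finset.mem_univ, true_and, Finset.mem_singleton]
    constructor
    · intro h
      exact Fin.ext (h.trans hi.symm)
    · rintro rfl
      exact hi
  unfold sg
  rw [h1, Finset.sum_singleton, div_mul_cancel₀ _ (e0_omst_pos hη i).ne', sub_self]

theorem sg_add {m : ℕ} (η : ℝ) (o o' : Fin m → ℝ) : sg η (o + o') = sg η o + sg η o' := by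
  unfold sg
  rw [← Finset.sum_add_distrib]
  refine Finset.sum_congr rfl fun i _ => ?_
  rw [Pi.add_apply, add_div]

theorem sg_smul {m : ℕ} (η c : ℝ) (o : Fin m → ℝ) : sg η (c • o) = c * sg η o := by
  unfold sg
  rw [Finset.mul_sum]
  refine Finset.sum_congr rfl fun i _ => ?_
  rw [Pi.smul_apply, smul_eq_mul, mul_div_assoc]

theorem QB_add_left {m : ℕ} (η M : ℝ) (o o' u : Fin m → ℝ) :
    QB η M (o + o') u = QB η M o u + QB η M o' u := by
  have h : ∑ i, ((o + o') i - sg η (o + o') * omst η i) * (u i - sg η u * omst η i) =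
      ∑ i, (o i - sg η o * omst η i) * (u i - sg η u * omst η i) +
        ∑ i, (o' i - sg η o' * omst η i) * (u i - sg η u * omst η i) := by
    rw [← Finset.sum_add_distrib]
    refine Finset.sum_congr rfl fun i _ => ?_
    rw [sg_add, Pi.add_apply]
    ring
  unfold QB
  rw [h, sg_add]
  ring

theorem QB_smul_left {m : ℕ} (η M c : ℝ) (o u : Fin m → ℝ) :
    QB η M (c • o) u = c * QB η M o u := by
  have h : ∑ i, ((c • o) i - sg η (c • o) * omst η i) * (u i - sg η u * omst η i) =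
      c * ∑ i, (o i - sg η o * omst η i) * (u i - sg η u * omst η i) := by
    rw [Finset.mul_sum]
    refine Finset.sum_congr rfl fun i _ => ?_
    rw [sg_smul, Pi.smul_apply, smul_eq_mul]
    ring
  unfold QB
  rw [h, sg_smul]
  ring

theorem QB_comm {m : ℕ} (η M : ℝ) (o o' : Fin m → ℝ) : QB η M o o' = QB η M o' o := by
  unfold QB
  rw [mul_comm (sg η o)]
  congr 2
  refine Finset.sum_congr rfl fun i _ => ?_
  rw [mul_comm]

/-- `QQ (o + δ) = QQ o + 2 QB o δ + QQ δ` -/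
theorem QQ_add {m : ℕ} (η M : ℝ) (o δ : Fin m → ℝ) :
    QQ η M (o + δ) = QQ η M o + 2 * QB η M o δ + QQ η M δ := by
  unfold QQ
  rw [QB_add_left, QB_comm η M o (o + δ), QB_comm η M δ (o + δ), QB_add_left, QB_add_left,
    QB_comm η M δ o]
  ring

theorem QQ_nonneg {m : ℕ} (η M : ℝ) (o : Fin m → ℝ) : 0 ≤ QQ η M o := by
  unfold QQ QB
  refine add_nonneg (mul_self_nonneg _) (mul_nonneg (sq_nonneg _) ?_)
  exact Finset.sum_nonneg fun i _ => mul_self_nonneg _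

theorem sg_sq_le {m : ℕ} (η M : ℝ) (o : Fin m → ℝ) : (sg η o) ^ 2 ≤ QQ η M o := by
  unfold QQ QB
  rw [sq]
  refine le_add_of_nonneg_right (mul_nonneg (sq_nonneg _) ?_)
  exact Finset.sum_nonneg fun i _ => mul_self_nonneg _

theorem dev_le {m : ℕ} {η M : ℝ} (hM : 0 < M) (o : Fin m → ℝ) {r : ℝ} (hr : 0 ≤ r)
    (h : QQ η M o ≤ r ^ 2) (i : Fin m) : |o i - sg η o * omst η i| ≤ r / M := by
  have h1 : M ^ 2 * (o i - sg η o * omst η i) ^ 2 ≤ QQ η M o := by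
    unfold QQ QB
    have h2 : (o i - sg η o * omst η i) ^ 2 ≤
        ∑ i, (o i - sg η o * omst η i) * (o i - sg η o * omst η i) := by
      rw [sq]
      exact Finset.single_le_sum (f := fun i => (o i - sg η o * omst η i) *
        (o i - sg η o * omst η i)) (fun j _ => mul_self_nonneg _) (Finset.mem_univ i)
    have h3 := mul_le_mul_of_nonneg_left h2 (sq_nonneg M)
    linarith [mul_self_nonneg (sg η o)]
  rw [le_div_iff₀ hM]
  have h4 : (|o i - sg η o * omst η i| * M) ^ 2 ≤ r ^ 2 := by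
    rw [mul_pow, sq_abs, mul_comm]
    exact h1.trans h
  exact le_of_sq_le_sq h4 hr

/-- positive definite -/
theorem QQ_pos {m : ℕ} {η M : ℝ} (hη : 0 ≤ η) (hM : 0 < M) {o : Fin m → ℝ} (ho : o ≠ 0) :
    0 < QQ η M o := by
  rcases (QQ_nonneg η M o).lt_or_eq with h | h
  · exact h
  · exfalso
    apply ho
    have h1 : (sg η o) ^ 2 ≤ 0 := by
      rw [h]
      exact sg_sq_le η M o
    have h2 : sg η o = 0 := by nlinarith [sq_nonneg (sg η o)]
    funext i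
    have h3 := dev_le hM o (r := 0) le_rfl (by rw [← h]; norm_num) i
    rw [h2, zero_mul, sub_zero, zero_div] at h3
    exact abs_nonpos_iff.1 h3

theorem continuous_QB {m : ℕ} (η M : ℝ) :
    Continuous fun p : (Fin m → ℝ) × (Fin m → ℝ) => QB η M p.1 p.2 := by
  have h : Continuous fun o : Fin m → ℝ => sg η o := by
    unfold sg
    fun_prop
  have h1 : Continuous fun p : (Fin m → ℝ) × (Fin m → ℝ) => sg η p.1 := h.comp continuous_fst
  have h2 : Continuous fun p : (Fin m → ℝ) × (Fin m → ℝ) => sg η p.2 := h.comp continuous_snd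
  unfold QB
  fun_prop

end Pool.Agent.Lib.MP_41a456_al.TC
end
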