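import Pool.Agent.Lib.MP_41a456_al.TC.E0

/-!
# MP_41a456_al, Theorem TC, E1: production: greedy basis (paper 521, (1.2))

Strong induction on `f x` over the finite set `F`: every `v x`, `x ∈ F`, is in the span of the `v y`, `y` in the
filtered set `Irr`: if `x ∉ Irr` then `v x` is in the span of the `v y` with `f y < f x`. So
`D.card ≤ finrank (span (v '' Irr)) ≤ Irr.card`.
-/

namespace Pool.Agent.Lib.MP_41a456_al.TC

open Matrix MeasureTheory Filter Topology Pool.Agent.Lib.MP_41a456_al

open Classical in
theorem greedy {K V ι : Type*} [Field K] [AddCommGroup V] [Module K V] (F : Finset ι) (v : ι → V)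
    (f : ι → ℝ) (D : Finset ι) (hD : D ⊆ F) (hind : LinearIndependent K fun x : D => v x) :
    D.card ≤
      (F.filter fun x => v x ∉ Submodule.span K (v '' {y | y ∈ F ∧ f y < f x})).card := by
  obtain ⟨I, hI⟩ : ∃ I : Finset ι,
      I = F.filter fun x => v x ∉ Submodule.span K (v '' {y | y ∈ F ∧ f y < f x}) := ⟨_, rfl⟩
  rw [← hI]
  have key : ∀ N : ℕ, ∀ x ∈ F, (F.filter fun y => f y < f x).card = N →
      v x ∈ Submodule.span K (v '' (I : Set ι)) := by
    intro N
    induction N using Nat.strong_induction_on with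
    | _ N ih =>
      intro x hx hN
      by_cases h : v x ∈ Submodule.span K (v '' {y | y ∈ F ∧ f y < f x})
      · refine (Submodule.span_le.2 ?_) h
        rintro _ ⟨y, ⟨hyF, hy⟩, rfl⟩
        refine ih _ ?_ y hyF rfl
        rw [← hN]
        refine Finset.card_lt_card ⟨fun z hz => ?_, fun hsub => ?_⟩
        · rw [Finset.mem_filter] at hz ⊢
          exact ⟨hz.1, hz.2.trans hy⟩
        · have h1 := hsub (Finset.mem_filter.2 ⟨hyF, hy⟩)
          exact lt_irrefl _ (Finset.mem_filter.1 h1).2
      · refine Submodule.subset_span ⟨x, ?_, rfl⟩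
        rw [hI]
        exact Finset.mem_coe.2 (Finset.mem_filter.2 ⟨hx, h⟩)
  have h1 : Module.finrank K (Submodule.span K (Set.range fun x : D => v x)) = D.card := by
    rw [finrank_span_eq_card hind, Fintype.card_coe]
  have h2 : v '' (I : Set ι) = ((I.image v : Finset V) : Set V) := by rw [Finset.coe_image]
  have h3 : Submodule.span K (Set.range fun x : D => v x) ≤
      Submodule.span K ((I.image v : Finset V) : Set V) := by
    rw [Submodule.span_le]
    rintro _ ⟨x, rfl⟩
    rw [← h2]
    exact key _ x (hD x.2) rfl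
  rw [← h1]
  exact (Submodule.finrank_mono h3).trans
    ((finrank_span_finset_le_card (I.image v)).trans Finset.card_image_le)

end Pool.Agent.Lib.MP_41a456_al.TC
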