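import Pool.Agent.Lib.MP_41a456_al.TC.E0
import Pool.Agent.Lib.MP_41a456_al.TC.D9
import Pool.Agent.Lib.MP_41a456_al.TC.D8

/-!
# MP_41a456_al, Theorem TC, E4: production: the ball of radius r and its thin part (paper 521, section 5)

Paper 521, section 5, `n = m + 1`. `omv x` = vector of the `om (i+1) x`, `sg` = first coordinate divided by
`om*_1`, `QB η M` the bilinear form of
`QQ(o) = sg(o)² + M² ∑_{i ≥ 1} (o_i - sg(o) om*_{i+1})²`.
`finite_ball`: `sg ≤ r` gives `om_1 ≤ r om*_1`, `finite_Nk_le`. `thin_count`: `x` with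
`QQ (omv x) ≤ r²`, `sg ≤ (1 - κ) r`: `|om_{i+1} - sg om*_{i+1}| ≤ r / M` (`dev_le`), `sg ≥ 0` (`one_le_Nk`).
Divide by `⌊sg⌋ = s`: `|om_{i+1} - s om*_{i+1}| ≤ r/M + C`; `upper_count` for each of the at most `r + 1` values of
`s`: total `≤ (r+1) exp (m(m+1)(1-κ) r + C (η r + r/M + C))` and `m(m+1)(1-κ) = m(m+1) - 2`. With `M = C'/η`, `C' ≥ 1`
and `η ≤ η1` the exponent is `≤ (m(m+1) - 7/4) r + C`, `r` large.
-/

namespace Pool.Agent.Lib.MP_41a456_al.TC

open Matrix MeasureTheory Filter Topology Pool.Agent.Lib.MP_41a456_al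

private theorem e4_sg {m : ℕ} (hm : 0 < m) (η : ℝ) (o : Fin m → ℝ) :
    sg η o = o ⟨0, hm⟩ / omst η ⟨0, hm⟩ := by
  unfold sg
  have h1 : (Finset.univ.filter fun i : Fin m => (i : ℕ) = 0) = {⟨0, hm⟩} := by
    ext i
    simp only [Finset.mem_filter, Finset.mem_univ, true_and, Finset.mem_singleton]
    constructor
    · intro h
      exact Fin.ext h
    · rintro rfl
      rfl
  rw [h1, Finset.sum_singleton]

private theorem e4_omst_nonneg {m : ℕ} {η : ℝ} (hη : 0 < η) (i : Fin m) : 0 ≤ omst η i := by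
  unfold omst
  exact Finset.sum_nonneg fun l _ => by positivity

private theorem e4_omst_pos {m : ℕ} (hm : 0 < m) {η : ℝ} (hη : 0 < η) : 0 < omst η (⟨0, hm⟩ : Fin m) := by
  unfold omst
  refine Finset.sum_pos (fun l _ => by positivity) ⟨⟨0, hm⟩, ?_⟩
  simp

private theorem e4_omst_le {m : ℕ} {η : ℝ} (hη : 0 < η) (hη1 : η ≤ 1) (i : Fin m) :
    omst η i ≤ m * (m + 1) := by
  unfold omst
  calc ∑ l ∈ Finset.univ.filter (fun l : Fin m => i ≤ l), (1 + (l : ℕ) * η)
      ≤ ∑ l ∈ Finset.univ.filter (fun l : Fin m => i ≤ l), ((m : ℝ) + 1) := by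
        refine Finset.sum_le_sum fun l _ => ?_
        have h1 : ((l : ℕ) : ℝ) ≤ m := by exact_mod_cast l.2.le
        have h2 : (0 : ℝ) ≤ (l : ℕ) := Nat.cast_nonneg _
        nlinarith
    _ ≤ m * (m + 1) := by
        rw [Finset.sum_const, nsmul_eq_mul]
        refine mul_le_mul_of_nonneg_right ?_ (by positivity)
        have h7 : (Finset.univ.filter fun l : Fin m => i ≤ l).card ≤ m :=
          (Finset.card_filter_le _ _).trans (by simp)
        exact_mod_cast h7

theorem finite_ball {m : ℕ} (hm : 2 ≤ m) {η M : ℝ} (hη : 0 < η) (hM : 0 < M) (r : ℝ) :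
    {x : SLn (m + 1) | QQ η M (omv x) ≤ r ^ 2}.Finite := by
  have hm0 : 0 < m := by omega
  refine (finite_Nk_le (n := m + 1) (Real.exp (|r| * omst η (⟨0, hm0⟩ : Fin m)))).subset ?_
  intro x hx
  have hx' : QQ η M (omv x) ≤ r ^ 2 := hx
  change Nk 1 (iz (m + 1) x : Mr (m + 1)) ≤ _
  have h1 := (sg_sq_le η M (omv x)).trans hx'
  have h2 : |sg η (omv x)| ≤ |r| := sq_le_sq.1 h1
  rw [e4_sg hm0] at h2
  have hpos := e4_omst_pos hm0 hη
  have h3 : omv x ⟨0, hm0⟩ ≤ |r| * omst η (⟨0, hm0⟩ : Fin m) := by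
    have h4 := (le_abs_self _).trans h2
    rwa [div_le_iff₀ hpos] at h4
  have h5 : 1 ≤ Nk 1 (iz (m + 1) x : Mr (m + 1)) := one_le_Nk (by omega) x
  have h6 : omv x ⟨0, hm0⟩ = Real.log (Nk 1 (iz (m + 1) x : Mr (m + 1))) := rfl
  rw [h6] at h3
  have h7 := Real.exp_le_exp.2 h3
  rwa [Real.exp_log (by linarith)] at h7

theorem thin_count {m : ℕ} (hm : 2 ≤ m) : ∃ η1 : ℝ, 0 < η1 ∧ ∀ η : ℝ, 0 < η → η ≤ η1 →
    ∀ C' : ℝ, 1 ≤ C' → ∃ r0 : ℝ, ∀ r : ℝ, r0 ≤ r → ∀ S : Finset (SLn (m + 1)),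
      (∀ x ∈ S, QQ η (C' / η) (omv x) ≤ r ^ 2 ∧ sg η (omv x) ≤ (1 - kap m) * r) →
      (S.card : ℝ) ≤ Real.exp ((m * (m + 1) - 3 / 2) * r) := by
  classical
  obtain ⟨C, hC, hup⟩ := upper_count hm
  have hm0 : 0 < m := by omega
  have hmr : (2 : ℝ) ≤ m := by exact_mod_cast hm
  refine ⟨min 1 (1 / (16 * C)), lt_min one_pos (by positivity), ?_⟩
  intro η hη hηle C' hC'
  have hη1 : η ≤ 1 := hηle.trans (min_le_left _ _)
  have hηC : 16 * C * η ≤ 1 := by
    have h1 : η ≤ 1 / (16 * C) := hηle.trans (min_le_right _ _)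
    rw [le_div_iff₀ (by positivity)] at h1
    linarith
  set C2 : ℝ := C * (m * (m + 1) + 1) with hC2
  have hC2n : 0 ≤ C2 := by positivity
  refine ⟨4 * (Real.log 8 + C2), ?_⟩
  intro r hr S hS
  have hlog8 : 0 ≤ Real.log 8 := Real.log_nonneg (by norm_num)
  have hr0 : 0 ≤ r := le_trans (by positivity) hr
  have hMpos : 0 < C' / η := by positivity
  -- data of the points
  have hsg0 : ∀ x : SLn (m + 1), 0 ≤ sg η (omv x) := by
    intro x
    rw [e4_sg hm0]
    refine div_nonneg ?_ (e4_omst_pos hm0 hη).le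
    exact Real.log_nonneg (one_le_Nk (by omega) x)
  have hkap : (m : ℝ) * (m + 1) * (1 - kap m) = m * (m + 1) - 2 := by
    unfold kap
    have h1 : (m : ℝ) * (m + 1) ≠ 0 := by positivity
    field_simp
  set N : ℕ := ⌊r⌋₊ with hN
  have hmaps : ∀ x ∈ S, ⌊sg η (omv x)⌋₊ ∈ Finset.range (N + 1) := by
    intro x hx
    rw [Finset.mem_range, Nat.lt_succ_iff, hN]
    apply Nat.floor_le_floor
    refine ((hS x hx).2).trans ?_
    have hk : 0 ≤ kap m := by unfold kap; positivity
    nlinarith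
  have hfib : ∀ s ∈ Finset.range (N + 1),
      ((S.filter fun x => ⌊sg η (omv x)⌋₊ = s).card : ℝ) ≤
        Real.exp ((m * (m + 1) - 2) * r + r / 8 + C2) := by
    intro s _
    rcases (S.filter fun x => ⌊sg η (omv x)⌋₊ = s).eq_empty_or_nonempty with he | ⟨x0, hx0⟩
    · rw [he, Finset.card_empty, Nat.cast_zero]
      exact (Real.exp_pos _).le
    · rw [Finset.mem_filter] at hx0
      have hsr : (s : ℝ) ≤ (1 - kap m) * r := by
        rw [← hx0.2]
        exact (Nat.floor_le (hsg0 x0)).trans (hS x0 hx0.1).2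
      have hΔ : 0 ≤ η * r + m * (m + 1) := by positivity
      have h1 := hup η hη hη1 s (η * r + m * (m + 1)) (Nat.cast_nonneg s) hΔ
        (S.filter fun x => ⌊sg η (omv x)⌋₊ = s) (by
          intro x hx i
          rw [Finset.mem_filter] at hx
          have h2 := dev_le hMpos (omv x) hr0 (hS x hx.1).1 i
          have h3 : r / (C' / η) ≤ η * r := by
            rw [div_div_eq_mul_div, div_le_iff₀ (by linarith)]
            nlinarith [mul_nonneg hη.le hr0]
          have h4 := Nat.floor_le (hsg0 x)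
          have h5 := Nat.lt_floor_add_one (sg η (omv x))
          rw [hx.2] at h4 h5
          have h6 := e4_omst_nonneg hη i
          have h7 := e4_omst_le hη hη1 i
          have h8 : omv x i = om ((i : ℕ) + 1) (iz (m + 1) x : Mr (m + 1)) := rfl
          rw [← h8]
          have h9 : |(sg η (omv x) - s) * omst η i| ≤ m * (m + 1) := by
            rw [abs_mul, abs_of_nonneg h6, abs_of_nonneg (by linarith)]
            nlinarith
          have h10 : omv x i - s * omst η i =
              (omv x i - sg η (omv x) * omst η i) + (sg η (omv x) - s) * omst η i := by ring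
          rw [h10]
          exact (abs_add_le _ _).trans (add_le_add (h2.trans h3) h9))
      refine h1.trans (Real.exp_le_exp.2 ?_)
      have hs0 : (0 : ℝ) ≤ s := Nat.cast_nonneg s
      have hk : 0 ≤ kap m := by unfold kap; positivity
      have hsr' : (s : ℝ) ≤ r := by nlinarith
      have h2 : (m : ℝ) * (m + 1) * s ≤ (m * (m + 1) - 2) * r := by
        rw [← hkap, mul_assoc ((m : ℝ) * (m + 1))]
        exact mul_le_mul_of_nonneg_left hsr (by positivity)
      have h3 : C * (η * s + (η * r + m * (m + 1)) + 1) ≤ r / 8 + C2 := by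
        have h4 : C * (η * s) ≤ C * (η * r) :=
          mul_le_mul_of_nonneg_left (mul_le_mul_of_nonneg_left hsr' hη.le) hC.le
        have h5 : C * (η * r) ≤ r / 16 := by
          have : 16 * C * η * r ≤ 1 * r := mul_le_mul_of_nonneg_right hηC hr0
          linarith
        rw [hC2]
        nlinarith
      linarith
  have hcount : (S.card : ℝ) ≤ (N + 1) * Real.exp ((m * (m + 1) - 2) * r + r / 8 + C2) := by
    rw [Finset.card_eq_sum_card_fiberwise hmaps]
    push_cast
    refine (Finset.sum_le_sum hfib).trans ?_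
    rw [Finset.sum_const, Finset.card_range, nsmul_eq_mul]
    push_cast
    exact le_refl _
  refine hcount.trans ?_
  have hN1 : (N : ℝ) + 1 ≤ Real.exp (r / 8 + Real.log 8) := by
    have h1 : (N : ℝ) ≤ r := Nat.floor_le hr0
    have h2 := Real.add_one_le_exp (r / 8)
    rw [Real.exp_add, Real.exp_log (by norm_num)]
    linarith
  calc ((N : ℝ) + 1) * Real.exp ((m * (m + 1) - 2) * r + r / 8 + C2)
      ≤ Real.exp (r / 8 + Real.log 8) * Real.exp ((m * (m + 1) - 2) * r + r / 8 + C2) :=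
        mul_le_mul_of_nonneg_right hN1 (Real.exp_pos _).le
    _ = Real.exp (r / 8 + Real.log 8 + ((m * (m + 1) - 2) * r + r / 8 + C2)) := by
        rw [← Real.exp_add]
    _ ≤ _ := by
        apply Real.exp_le_exp.2
        linarith

end Pool.Agent.Lib.MP_41a456_al.TC
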