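import Pool.Agent.Lib.MP_41a456_al.TC.E0
import Pool.Agent.Lib.MP_41a456_al.TC.D7

/-!
# MP_41a456_al, Theorem TC, E5: production: shape of the elements far out (paper 521, (5.1))

Paper 521, section 5, `n = m + 1`. `omv x` = vector of the `om (i+1) x`, `sg` = first coordinate divided by
`om*_1`, `QB η M` the bilinear form of
`QQ(o) = sg(o)² + M² ∑_{i ≥ 1} (o_i - sg(o) om*_{i+1})²`.
`a` antitone, sum 0, `iz x = k e^a k'`. `|sk (i+1) a - om_{i+1} x| ≤ (m+1) log 2` (`om_svd`), `a_j = sk (j+1) a - sk j a`,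
`ast_j = om*_{j+1} - om*_j` (`om*_{m+1} = 0 = sk (m+1) a`). With `σ = sg (omv x) ∈ [(1-κ) r, r]`:
`|a_j - σ ast_j| ≤ 2 r/M + C`, and `t = σ` works: `M = C'/η`, `1 - κ ≥ 2/3`, `C' = 24`, then `r` large
(depending on `η`).
-/

namespace Pool.Agent.Lib.MP_41a456_al.TC

open Matrix MeasureTheory Filter Topology Pool.Agent.Lib.MP_41a456_al

private theorem E5_sk_succ {m : ℕ} (a : Fin (m + 1) → ℝ) (j : Fin (m + 1)) :
    sk ((j : ℕ) + 1) a = sk (j : ℕ) a + a j := by
  classical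
  unfold sk
  have h : (Finset.univ.filter fun i : Fin (m + 1) => (i : ℕ) < (j : ℕ) + 1) =
      insert j (Finset.univ.filter fun i : Fin (m + 1) => (i : ℕ) < (j : ℕ)) := by
    ext i
    simp only [Finset.mem_filter, Finset.mem_univ, true_and, Finset.mem_insert, Fin.ext_iff]
    omega
  rw [h, Finset.sum_insert (by simp)]
  ring

private noncomputable def E5_g (m : ℕ) (η : ℝ) (k : ℕ) : ℝ :=
  ∑ l ∈ Finset.univ.filter (fun l : Fin m => k ≤ (l : ℕ)), (1 + (l : ℕ) * η)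

private theorem E5_g_omst {m : ℕ} (η : ℝ) (i : Fin m) : omst η i = E5_g m η i := by
  unfold omst E5_g
  have h : (Finset.univ.filter fun l : Fin m => i ≤ l) =
      Finset.univ.filter fun l : Fin m => (i : ℕ) ≤ (l : ℕ) := by
    ext l
    simp only [Finset.mem_filter, Finset.mem_univ, true_and, Fin.le_def]
  rw [h]

private theorem E5_g_top (m : ℕ) (η : ℝ) : E5_g m η m = 0 := by
  unfold E5_g
  refine Finset.sum_eq_zero fun l hl => ?_
  have h1 := (Finset.mem_filter.1 hl).2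
  have h2 := l.2
  omega

private theorem E5_g_succ {m : ℕ} (η : ℝ) {k : ℕ} (hk : k < m) :
    E5_g m η k = E5_g m η (k + 1) + (1 + k * η) := by
  classical
  unfold E5_g
  have h : (Finset.univ.filter fun l : Fin m => k ≤ (l : ℕ)) =
      insert (⟨k, hk⟩ : Fin m) (Finset.univ.filter fun l : Fin m => k + 1 ≤ (l : ℕ)) := by
    ext l
    simp only [Finset.mem_filter, Finset.mem_univ, true_and, Finset.mem_insert, Fin.ext_iff]
    omega
  rw [h, Finset.sum_insert (by simp)]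
  ring

private theorem E5_g_zero {m : ℕ} {η : ℝ} (hη : 0 ≤ η) :
    (m : ℝ) ≤ E5_g m η 0 ∧ E5_g m η 0 ≤ m + m ^ 2 * η := by
  have h : E5_g m η 0 = ∑ l : Fin m, (1 + (l : ℕ) * η) := by
    unfold E5_g
    simp
  rw [h, Finset.sum_add_distrib]
  simp only [Finset.sum_const, Finset.card_univ, Fintype.card_fin, nsmul_eq_mul, mul_one]
  constructor
  · have : 0 ≤ ∑ l : Fin m, ((l : ℕ) : ℝ) * η := Finset.sum_nonneg fun l _ => by positivity
    linarith
  · have h1 : ∑ l : Fin m, ((l : ℕ) : ℝ) * η ≤ ∑ _l : Fin m, (m : ℝ) * η := by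
      refine Finset.sum_le_sum fun l _ => ?_
      have h2 : ((l : ℕ) : ℝ) ≤ m := by exact_mod_cast l.2.le
      exact mul_le_mul_of_nonneg_right h2 hη
    rw [Finset.sum_const, Finset.card_univ, Fintype.card_fin, nsmul_eq_mul] at h1
    have h3 : (m : ℝ) * ((m : ℝ) * η) = m ^ 2 * η := by ring
    linarith

theorem shape {m : ℕ} (hm : 2 ≤ m) : ∃ C C' : ℝ, 1 ≤ C ∧ 1 ≤ C' ∧ ∀ η : ℝ, 0 < η → η ≤ 1 →
    ∃ r0 : ℝ, ∀ r : ℝ, r0 ≤ r → ∀ (x : SLn (m + 1)) (k k' : SLr (m + 1)) (a : Fin (m + 1) → ℝ),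
      Orth k → Orth k' → Antitone a → ∑ i, a i = 0 → iz (m + 1) x = k * ex a * k' →
      QQ η (C' / η) (omv x) ≤ r ^ 2 → (1 - kap m) * r < sg η (omv x) →
      ∃ t : ℝ, |a 0 - m * t| ≤ C * η * t ∧ (∀ i : Fin m, |a i.succ + t| ≤ C * η * t) ∧
        (∀ i : Fin m, η / 2 * t ≤ gap a i) ∧ r / 2 ≤ t ∧
        t ≤ r + η * r / (8 * m * (m + 1)) := by
  have hm2 : (2 : ℝ) ≤ m := by exact_mod_cast hm
  refine ⟨(m : ℝ) ^ 2 + 1, 24, by nlinarith, by norm_num, ?_⟩
  intro η hη hη1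
  obtain ⟨L, hL⟩ : ∃ L : ℝ, L = (m + 1) * Real.log 2 := ⟨_, rfl⟩
  have hL0 : 0 ≤ L := by
    rw [hL]
    exact mul_nonneg (by positivity) (Real.log_nonneg (by norm_num))
  refine ⟨max 1 (24 * L / η), ?_⟩
  intro r hr x k k' a hk hk' ha hs hx hQ hsg
  have hr1 : 1 ≤ r := (le_max_left _ _).trans hr
  have hr2 : 24 * L / η ≤ r := (le_max_right _ _).trans hr
  have hr0 : 0 < r := by linarith
  have hLr : 24 * L ≤ η * r := by
    rw [div_le_iff₀ hη] at hr2
    linarith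
  obtain ⟨σ, hσ⟩ : ∃ σ : ℝ, σ = sg η (omv x) := ⟨_, rfl⟩
  -- bounds for σ
  have hkap : kap m ≤ 1 / 3 := by
    unfold kap
    rw [div_le_div_iff₀ (by positivity) (by norm_num)]
    nlinarith
  have hσ1 : 2 / 3 * r < σ := by
    rw [hσ]
    refine lt_of_le_of_lt ?_ hsg
    exact mul_le_mul_of_nonneg_right (by linarith) hr0.le
  have hσ0 : 0 < σ := by linarith
  have hσr : σ ≤ r := by
    have h1 := (sg_sq_le η (24 / η) (omv x)).trans hQ
    rw [← hσ] at h1
    exact (pow_le_pow_iff_left₀ hσ0.le hr0.le (by norm_num)).1 h1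
  -- the error
  obtain ⟨e, he⟩ : ∃ e : ℝ, e = r / (24 / η) + L := ⟨_, rfl⟩
  have he0 : 0 ≤ e := by
    rw [he]
    positivity
  have he1 : e ≤ η * σ / 8 := by
    have h1 : r / (24 / η) = η * r / 24 := by
      field_simp
    rw [he, h1]
    have h2 : η * (2 / 3 * r) ≤ η * σ := mul_le_mul_of_nonneg_left hσ1.le hη.le
    linarith
  -- the partial sums
  have hS : ∀ i : ℕ, i ≤ m → |sk (i + 1) a - σ * E5_g m η i| ≤ e := by
    intro i hi
    rcases Nat.lt_or_ge i m with h | h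
    · have h1 := om_svd (m := m) (k := i + 1) (by omega) ha hs hk hk'
      rw [← hx] at h1
      have h2 := dev_le (η := η) (M := 24 / η) (by positivity) (omv x) hr0.le hQ ⟨i, h⟩
      rw [← hσ, E5_g_omst] at h2
      have h3 : omv x ⟨i, h⟩ = om (i + 1) (iz (m + 1) x : Mr (m + 1)) := rfl
      rw [h3] at h2
      rw [← hL] at h1
      rw [abs_le] at h2 ⊢
      have h4 : ((⟨i, h⟩ : Fin m) : ℕ) = i := rfl
      rw [h4] at h2
      constructor
      · linarith [h1.1, h1.2, h2.1, h2.2]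
      · linarith [h1.1, h1.2, h2.1, h2.2]
    · have h1 : i = m := le_antisymm hi h
      subst h1
      rw [E5_g_top, mul_zero, sub_zero]
      have h2 : sk (i + 1) a = 0 := by
        unfold sk
        rw [Finset.filter_true_of_mem, hs]
        intro j _
        exact j.2
      rw [h2, abs_zero]
      exact he0
  have ha0 : |a 0 - σ * E5_g m η 0| ≤ e := by
    have h1 := hS 0 (Nat.zero_le _)
    have h2 := E5_sk_succ a 0
    have h3 : sk 0 a = 0 := by
      unfold sk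
      simp
    have h4 : ((0 : Fin (m + 1)) : ℕ) = 0 := rfl
    rw [h4, h3, zero_add, zero_add] at h2
    rw [zero_add, h2] at h1
    exact h1
  have has : ∀ i : Fin m, |a i.succ + σ * (1 + (i : ℕ) * η)| ≤ 2 * e := by
    intro i
    have h1 := hS i i.2.le
    have h2 := hS (i + 1) i.2
    have h3 := E5_sk_succ a i.succ
    rw [Fin.val_succ] at h3
    have h4 := E5_g_succ (m := m) η i.2
    rw [h4] at h1
    rw [abs_le] at h1 h2 ⊢
    constructor
    · linarith [h1.1, h1.2, h2.1, h2.2]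
    · linarith [h1.1, h1.2, h2.1, h2.2]
  obtain ⟨hg1, hg2⟩ := E5_g_zero (m := m) hη.le
  have hησ : 0 ≤ η * σ := by positivity
  have hg1' : σ * m ≤ σ * E5_g m η 0 := mul_le_mul_of_nonneg_left hg1 hσ0.le
  have hg2' : σ * E5_g m η 0 ≤ σ * m + m ^ 2 * (η * σ) := by
    have := mul_le_mul_of_nonneg_left hg2 hσ0.le
    linarith
  refine ⟨σ, ?_, ?_, ?_, by linarith, ?_⟩
  · rw [abs_le] at ha0 ⊢
    have h1 : ((m : ℝ) ^ 2 + 1) * η * σ = m ^ 2 * (η * σ) + η * σ := by ring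
    rw [h1]
    have h2 : 0 ≤ (m : ℝ) ^ 2 * (η * σ) := by positivity
    constructor
    · linarith [ha0.1, ha0.2]
    · linarith [ha0.1, ha0.2]
  · intro i
    have h1 := has i
    rw [abs_le] at h1 ⊢
    have h2 : ((m : ℝ) ^ 2 + 1) * η * σ = m ^ 2 * (η * σ) + η * σ := by ring
    rw [h2]
    have h3 : ((i : ℕ) : ℝ) ≤ (m : ℝ) ^ 2 := by
      have h4 : ((i : ℕ) : ℝ) ≤ m := by exact_mod_cast i.2.le
      nlinarith
    have h5 : ((i : ℕ) : ℝ) * (η * σ) ≤ m ^ 2 * (η * σ) := mul_le_mul_of_nonneg_right h3 hησ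
    have h6 : 0 ≤ ((i : ℕ) : ℝ) * (η * σ) := by positivity
    have h7 : σ * (1 + ((i : ℕ) : ℝ) * η) = σ + ((i : ℕ) : ℝ) * (η * σ) := by ring
    rw [h7] at h1
    constructor
    · linarith [h1.1, h1.2]
    · linarith [h1.1, h1.2]
  · intro i
    unfold gap
    have h1 := (abs_le.1 (has i)).2
    have h7 : σ * (1 + ((i : ℕ) : ℝ) * η) = σ + ((i : ℕ) : ℝ) * (η * σ) := by ring
    rw [h7] at h1
    rcases Nat.eq_zero_or_pos (i : ℕ) with h | h
    · have h2 : i.castSucc = 0 := by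
        ext
        simp [h]
      rw [h2]
      have h3 := (abs_le.1 ha0).1
      have h4 : 0 ≤ ((i : ℕ) : ℝ) * (η * σ) := by positivity
      have h5 : 2 * σ ≤ σ * m := by nlinarith
      have h6 : η * σ ≤ σ := by nlinarith
      linarith
    · obtain ⟨j, hj⟩ : ∃ j : Fin m, (j : ℕ) + 1 = i := ⟨⟨(i : ℕ) - 1, by omega⟩, by
        change (i : ℕ) - 1 + 1 = i
        omega⟩
      have h2 : i.castSucc = j.succ := by
        ext
        simp [hj]
      rw [h2]
      have h3 := (abs_le.1 (has j)).1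
      have h8 : σ * (1 + ((j : ℕ) : ℝ) * η) = σ + ((j : ℕ) : ℝ) * (η * σ) := by ring
      rw [h8] at h3
      have h9 : ((i : ℕ) : ℝ) = (j : ℕ) + 1 := by exact_mod_cast hj.symm
      rw [h9] at h1
      linarith
  · have : 0 ≤ η * r / (8 * m * (m + 1)) := by positivity
    linarith

end Pool.Agent.Lib.MP_41a456_al.TC
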