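import Pool.Agent.Lib.MP_41a456_al.TC.E1
import Pool.Agent.Lib.MP_41a456_al.TC.E4
import Pool.Agent.Lib.MP_41a456_al.TC.E5
import Pool.Agent.Lib.MP_41a456_al.TC.D7

/-!
# MP_41a456_al, Theorem TC, E6: production: many irreducible elements of the same shape (paper 521, (5.2))

Paper 521, section 5, `n = m + 1`. `omv x` = vector of the `om (i+1) x`, `sg` = first coordinate divided by
`om*_1`, `QB η M` the bilinear form of
`QQ(o) = sg(o)² + M² ∑_{i ≥ 1} (o_i - sg(o) om*_{i+1})²`.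
`v x` arbitrary vectors such that the sets `D` of `lower_count` are independent. For large `r` (`F` = the ball
`QQ ≤ r²`): `lower_count` with `R = r - c`: `|om_{i+1} - R om*_{i+1}| ≤ C` gives `|sg - R| ≤ C`,
`QQ ≤ (R + C)² + M² m C² ≤ r²` for large `r`. So (`greedy`) `|Irr| ≥ c e^{(m(m+1)-1) r}`; subtract `thin_count`.
For the others `shape` holds; `|a_i| ≤ C r` for all of them; divide into at most `(C r + 2)^(m+1)` cubes of side
`1/2` for the vector `av x`; `E` = the irreducible elements in the best cube, `a := av x0` for one `x0` in it and `t` the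
number of `shape` for `x0`. `|E| ≥ (c/2) e^{(m(m+1)-1) r} / (C r + 2)^(m+1) ≥ exp ((m(m+1) - 1 - η) t)` because
`(m(m+1) - 1) t ≤ (m(m+1) - 1) r + η r / 8` and `η t ≥ η r / 2`.
-/

namespace Pool.Agent.Lib.MP_41a456_al.TC

open Matrix MeasureTheory Filter Topology Pool.Agent.Lib.MP_41a456_al

private theorem E6_large {c η : ℝ} (hc : 0 < c) (hη : 0 < η) (A : ℝ) (n : ℕ) :
    ∃ r1 : ℝ, ∀ r : ℝ, r1 ≤ r → (A * r) ^ n ≤ c * Real.exp (η * r) := by
  have h := tendsto_exp_mul_div_rpow_atTop (n : ℝ) η hη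
  obtain ⟨r1, h1⟩ := Filter.eventually_atTop.1
    ((h.eventually_ge_atTop (|A| ^ n / c)).and (eventually_ge_atTop (1 : ℝ)))
  refine ⟨r1, fun r hr => ?_⟩
  obtain ⟨h2, h3⟩ := h1 r hr
  have hr0 : 0 < r := by linarith
  rw [Real.rpow_natCast, div_le_div_iff₀ hc (by positivity)] at h2
  calc (A * r) ^ n ≤ |(A * r) ^ n| := le_abs_self _
    _ = |A| ^ n * r ^ n := by rw [abs_pow, abs_mul, abs_of_pos hr0, mul_pow]
    _ ≤ Real.exp (η * r) * c := h2
    _ = c * Real.exp (η * r) := mul_comm _ _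

private theorem E6_sg {m : ℕ} (hm : 0 < m) (η : ℝ) (o : Fin m → ℝ) :
    sg η o = o ⟨0, hm⟩ / omst η ⟨0, hm⟩ := by
  unfold sg
  have h : (Finset.univ.filter fun i : Fin m => (i : ℕ) = 0) = {⟨0, hm⟩} := by
    ext i
    simp [Fin.ext_iff]
  rw [h, Finset.sum_singleton]

private theorem E6_one_le {m : ℕ} {η : ℝ} (hη : 0 ≤ η) (i : Fin m) : 1 ≤ omst η i := by
  unfold omst
  have h : ∀ l ∈ Finset.univ.filter (fun l : Fin m => i ≤ l), (0 : ℝ) ≤ 1 + (l : ℕ) * η :=
    fun l _ => by positivity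
  have h1 := Finset.single_le_sum h (Finset.mem_filter.2 ⟨Finset.mem_univ i, le_refl i⟩)
  have h2 : (0 : ℝ) ≤ (i : ℕ) * η := by positivity
  linarith

private theorem E6_le {m : ℕ} (hm : 0 < m) {η : ℝ} (hη : 0 ≤ η) (i : Fin m) :
    omst η i ≤ omst η ⟨0, hm⟩ := by
  unfold omst
  refine Finset.sum_le_sum_of_subset_of_nonneg ?_ ?_
  · intro l _
    simp [Fin.le_def]
  · intro l _ _
    positivity

private theorem E6_QQ {m : ℕ} (hm : 0 < m) {η M R C r : ℝ} (hη : 0 ≤ η) (hC : 0 ≤ C) (hR : 0 ≤ R)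
    (o : Fin m → ℝ) (ho : ∀ i, |o i - R * omst η i| ≤ C) (hr : r = R + C + 1)
    (hr2 : 2 * M ^ 2 * m * C ^ 2 + 1 ≤ r) : QQ η M o ≤ r ^ 2 := by
  have h0 := E6_one_le hη (⟨0, hm⟩ : Fin m)
  have h0p : 0 < omst η (⟨0, hm⟩ : Fin m) := by linarith
  have hs : |sg η o - R| * omst η (⟨0, hm⟩ : Fin m) ≤ C := by
    have e : (sg η o - R) * omst η (⟨0, hm⟩ : Fin m) =
        o ⟨0, hm⟩ - R * omst η (⟨0, hm⟩ : Fin m) := by
      rw [E6_sg hm]
      field_simp
    have h1 := ho (⟨0, hm⟩ : Fin m)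
    rw [← e, abs_mul, abs_of_pos h0p] at h1
    exact h1
  have hs0 : |sg η o - R| ≤ C := by
    have := abs_nonneg (sg η o - R)
    nlinarith
  have hd : ∀ i, |o i - sg η o * omst η i| ≤ 2 * C := by
    intro i
    have h1 := E6_le hm hη i
    have h2 := E6_one_le hη i
    have e : o i - sg η o * omst η i = (o i - R * omst η i) - (sg η o - R) * omst η i := by ring
    rw [e]
    refine (abs_sub _ _).trans ?_
    rw [abs_mul, abs_of_pos (by linarith : 0 < omst η i)]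
    have h3 : |sg η o - R| * omst η i ≤ |sg η o - R| * omst η (⟨0, hm⟩ : Fin m) :=
      mul_le_mul_of_nonneg_left h1 (abs_nonneg _)
    linarith [ho i]
  unfold QQ QB
  have hsum : ∑ i, (o i - sg η o * omst η i) * (o i - sg η o * omst η i) ≤ m * (4 * C ^ 2) := by
    have h1 : ∀ i ∈ (Finset.univ : Finset (Fin m)),
        (o i - sg η o * omst η i) * (o i - sg η o * omst η i) ≤ 4 * C ^ 2 := by
      intro i _
      have h2 := hd i
      have h3 : (o i - sg η o * omst η i) * (o i - sg η o * omst η i) =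
          |o i - sg η o * omst η i| ^ 2 := by rw [sq_abs]; ring
      rw [h3]
      have := abs_nonneg (o i - sg η o * omst η i)
      nlinarith
    refine (Finset.sum_le_sum h1).trans ?_
    rw [Finset.sum_const, Finset.card_univ, Fintype.card_fin, nsmul_eq_mul]
  have hss : sg η o * sg η o ≤ (R + C) ^ 2 := by
    have h1 := abs_le.1 hs0
    have h2 : |sg η o| ≤ R + C := by
      rw [abs_le]
      constructor <;> linarith [h1.1, h1.2]
    have h3 : sg η o * sg η o = |sg η o| ^ 2 := by rw [sq_abs]; ring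
    rw [h3]
    have := abs_nonneg (sg η o)
    nlinarith
  have hM : M ^ 2 * ∑ i, (o i - sg η o * omst η i) * (o i - sg η o * omst η i) ≤
      M ^ 2 * (m * (4 * C ^ 2)) := mul_le_mul_of_nonneg_left hsum (sq_nonneg M)
  have e1 : R + C = r - 1 := by linarith
  rw [e1] at hss
  nlinarith

theorem many_irr {m : ℕ} (hm : 2 ≤ m) : ∃ C C' η1 : ℝ, 1 ≤ C ∧ 1 ≤ C' ∧ 0 < η1 ∧
    ∀ η : ℝ, 0 < η → η ≤ η1 → ∃ r0 : ℝ, ∀ r : ℝ, r0 ≤ r →
    ∀ {K V : Type} [Field K] [AddCommGroup V] [Module K V] (v : SLn (m + 1) → V),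
      (∀ D : Finset (SLn (m + 1)), (∀ x ∈ D,
        ((x⁻¹ : SLn (m + 1)) : Mt (m + 1)) (Fin.last m) 0 = 0 ∧
        0 < ((x⁻¹ : SLn (m + 1)) : Mt (m + 1)) 0 0) → LinearIndependent K fun x : D => v x) →
    ∀ (k k' : SLn (m + 1) → SLr (m + 1)) (av : SLn (m + 1) → Fin (m + 1) → ℝ),
      (∀ x, Orth (k x)) → (∀ x, Orth (k' x)) → (∀ x, Antitone (av x)) → (∀ x, ∑ i, av x i = 0) →
      (∀ x, iz (m + 1) x = k x * ex (av x) * k' x) →
    ∃ (t : ℝ) (a : Fin (m + 1) → ℝ) (E : Finset (SLn (m + 1))),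
      r / 2 ≤ t ∧ ∑ i, a i = 0 ∧ |a 0 - m * t| ≤ C * η * t ∧
      (∀ i : Fin m, |a i.succ + t| ≤ C * η * t) ∧ (∀ i : Fin m, η / 2 * t ≤ gap a i) ∧
      Real.exp ((m * (m + 1) - 1 - η) * t) ≤ E.card ∧ (∀ x ∈ E, ∀ i, |av x i - a i| ≤ 1) ∧
      ∀ x ∈ E, QQ η (C' / η) (omv x) ≤ r ^ 2 ∧ v x ∉ Submodule.span K
        (v '' {y | QQ η (C' / η) (omv y) < QQ η (C' / η) (omv x)}) := by
  classical
  obtain ⟨C, C', hC, hC', hshape⟩ := shape hm
  obtain ⟨η1, hη1, hthin⟩ := thin_count hm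
  refine ⟨C, C', min η1 1, hC, hC', lt_min hη1 one_pos, ?_⟩
  intro η hη hηle
  have hη1a : η ≤ η1 := hηle.trans (min_le_left _ _)
  have hη1b : η ≤ 1 := hηle.trans (min_le_right _ _)
  obtain ⟨r1, hr1⟩ := hshape η hη hη1b
  obtain ⟨r2, hr2⟩ := hthin η hη hη1a C' hC'
  obtain ⟨c, C0, R0, hc, hlow⟩ := lower_count hm hη hη1b
  have hm2 : (2 : ℝ) ≤ m := by exact_mod_cast hm
  have hm0 : 0 < m := by omega
  have hMpos : 0 < C' / η := div_pos (by linarith) hη
  obtain ⟨C1, hC1⟩ : ∃ C1 : ℝ, C1 = max C0 0 := ⟨_, rfl⟩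
  have hC10 : 0 ≤ C1 := hC1 ▸ le_max_right _ _
  have hC11 : C0 ≤ C1 := hC1 ▸ le_max_left _ _
  obtain ⟨p, hp⟩ : ∃ p : ℝ, p = m * (m + 1) - 1 := ⟨_, rfl⟩
  have hp5 : 5 ≤ p := by rw [hp]; nlinarith
  obtain ⟨c', hc'⟩ : ∃ c' : ℝ, c' = c * Real.exp (-(p * (C1 + 1))) := ⟨_, rfl⟩
  have hc'0 : 0 < c' := by rw [hc']; positivity
  obtain ⟨A, hA⟩ : ∃ A : ℝ, A = 8 * (m + C) + 3 := ⟨_, rfl⟩
  obtain ⟨r3, hr3⟩ := E6_large (c := c' / 2) (η := 3 / 8 * η) (by positivity) (by positivity) A (m + 1)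
  obtain ⟨r4, hr4⟩ := E6_large (c := c' / 2) (η := 1 / 2) (by positivity) (by norm_num) 1 0
  refine ⟨max (max (max r1 r2) (max r3 r4))
    (max (max 1 (R0 + C1 + 1)) (max (C1 + 1) (2 * (C' / η) ^ 2 * m * C1 ^ 2 + 1))), ?_⟩
  intro r hr K V _ _ _ v hD k k' av hk hk' hanti hsum hfac
  simp only [max_le_iff] at hr
  obtain ⟨⟨⟨g1, g2⟩, g3, g4⟩, ⟨g5, g6⟩, g7, g8⟩ := hr
  have hr0 : 0 < r := by linarith
  -- the ball
  have hfin := finite_ball hm (η := η) (M := C' / η) hη hMpos r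
  obtain ⟨F, hF⟩ : ∃ F : Finset (SLn (m + 1)), ∀ x, x ∈ F ↔ QQ η (C' / η) (omv x) ≤ r ^ 2 :=
    ⟨hfin.toFinset, fun x => by rw [Set.Finite.mem_toFinset]; rfl⟩
  -- the independent elements
  obtain ⟨D, hDc, hDx⟩ := hlow (r - C1 - 1) (by linarith)
  have hDF : D ⊆ F := by
    intro x hx
    rw [hF]
    obtain ⟨_, _, h3⟩ := hDx x hx
    exact E6_QQ hm0 hη.le hC10 (R := r - C1 - 1) (by linarith) (omv x)
      (fun i => (h3 i).trans hC11) (by ring) g8
  have hgr := greedy F v (fun x => QQ η (C' / η) (omv x)) D hDF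
    (hD D fun x hx => ⟨(hDx x hx).1, (hDx x hx).2.1⟩)
  obtain ⟨I, hI⟩ : ∃ I : Finset (SLn (m + 1)), I = F.filter fun x => v x ∉ Submodule.span K
      (v '' {y | y ∈ F ∧ QQ η (C' / η) (omv y) < QQ η (C' / η) (omv x)}) := ⟨_, rfl⟩
  have hgr' : D.card ≤ I.card := by
    rw [hI]
    convert hgr
  have hImem : ∀ x ∈ I, QQ η (C' / η) (omv x) ≤ r ^ 2 ∧ v x ∉ Submodule.span K
        (v '' {y | QQ η (C' / η) (omv y) < QQ η (C' / η) (omv x)}) := by
    intro x hx
    rw [hI, Finset.mem_filter] at hx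
    have hx1 := (hF x).1 hx.1
    refine ⟨hx1, ?_⟩
    have e : {y | QQ η (C' / η) (omv y) < QQ η (C' / η) (omv x)} =
        {y | y ∈ F ∧ QQ η (C' / η) (omv y) < QQ η (C' / η) (omv x)} := by
      ext y
      change _ ↔ _ ∧ _
      exact ⟨fun h => ⟨(hF y).2 (h.le.trans hx1), h⟩, fun h => h.2⟩
    rw [e]
    exact hx.2
  -- thin and thick
  have hthinc := hr2 r g2 (I.filter fun x => sg η (omv x) ≤ (1 - kap m) * r)
    (fun x hx => ⟨(hImem x (Finset.mem_filter.1 hx).1).1, (Finset.mem_filter.1 hx).2⟩)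
  obtain ⟨J, hJ⟩ : ∃ J : Finset (SLn (m + 1)),
      J = I.filter fun x => ¬ sg η (omv x) ≤ (1 - kap m) * r := ⟨_, rfl⟩
  have hIJ : (I.card : ℝ) =
      (I.filter fun x => sg η (omv x) ≤ (1 - kap m) * r).card + J.card := by
    rw [hJ]
    exact_mod_cast (Finset.card_filter_add_card_filter_not (s := I)
      (fun x => sg η (omv x) ≤ (1 - kap m) * r)).symm
  have hJcard : c' / 2 * Real.exp (p * r) ≤ J.card := by
    have e1 : c * Real.exp (p * (r - C1 - 1)) = c' * Real.exp (p * r) := by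
      rw [hc', mul_assoc, ← Real.exp_add]
      congr 2
      ring
    have e2 : Real.exp ((m * (m + 1) - 3 / 2) * r) ≤ c' / 2 * Real.exp (p * r) := by
      have h1 := hr4 r g4
      rw [pow_zero] at h1
      have h2 : Real.exp (p * r) = Real.exp ((m * (m + 1) - 3 / 2) * r) * Real.exp (1 / 2 * r) := by
        rw [← Real.exp_add, hp]
        congr 1
        ring
      rw [h2]
      have h3 := Real.exp_pos ((m * (m + 1) - 3 / 2) * r)
      nlinarith
    have h1 : (D.card : ℝ) ≤ I.card := by exact_mod_cast hgr'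
    rw [← hp, e1] at hDc
    linarith
  have hJmem : ∀ x ∈ J, ∃ t : ℝ, |av x 0 - m * t| ≤ C * η * t ∧
      (∀ i : Fin m, |av x i.succ + t| ≤ C * η * t) ∧
        (∀ i : Fin m, η / 2 * t ≤ gap (av x) i) ∧ r / 2 ≤ t ∧
        t ≤ r + η * r / (8 * m * (m + 1)) := by
    intro x hx
    rw [hJ, Finset.mem_filter, not_le] at hx
    exact hr1 r g1 x (k x) (k' x) (av x) (hk x) (hk' x) (hanti x) (hsum x) (hfac x)
      (hImem x hx.1).1 hx.2
  -- the boxes
  obtain ⟨N, hN⟩ : ∃ N : ℕ, N = ⌈2 * (2 * (m + C) * r)⌉₊ := ⟨_, rfl⟩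
  have hN1 : 2 * (2 * (m + C) * r) ≤ N := hN ▸ Nat.le_ceil _
  have hN2 : (N : ℝ) ≤ 2 * (2 * (m + C) * r) + 1 := by
    rw [hN]
    exact (Nat.ceil_lt_add_one (by positivity)).le
  have hbd : ∀ x ∈ J, ∀ i, |av x i| ≤ 2 * (m + C) * r := by
    intro x hx i
    obtain ⟨t, h1, h2, _, h4, h5⟩ := hJmem x hx
    have ht0 : 0 ≤ t := by linarith
    have h6 : η * r / (8 * m * (m + 1)) ≤ r := by
      rw [div_le_iff₀ (by positivity)]
      have h13 : (1 : ℝ) ≤ 8 * m * (m + 1) := by nlinarith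
      calc η * r ≤ 1 * r := mul_le_mul_of_nonneg_right hη1b hr0.le
        _ = r * 1 := by ring
        _ ≤ r * (8 * m * (m + 1)) := mul_le_mul_of_nonneg_left h13 hr0.le
    have h7 : t ≤ 2 * r := by linarith
    have h8 : C * η * t ≤ C * t := by
      refine mul_le_mul_of_nonneg_right ?_ ht0
      calc C * η ≤ C * 1 := mul_le_mul_of_nonneg_left hη1b (by linarith)
        _ = C := mul_one C
    have h9 : (m + C) * t ≤ 2 * (m + C) * r := by
      have h12 := mul_le_mul_of_nonneg_left h7 (by linarith : (0 : ℝ) ≤ m + C)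
      linarith
    have h11 : t ≤ m * t := le_mul_of_one_le_left ht0 (by linarith)
    rw [add_mul] at h9
    refine Fin.cases ?_ (fun j => ?_) i
    · rw [abs_le] at h1 ⊢
      constructor <;> linarith [h1.1, h1.2]
    · have h10 := h2 j
      rw [abs_le] at h10 ⊢
      constructor <;> linarith [h10.1, h10.2]
  obtain ⟨B, hB⟩ : ∃ B : Finset (Fin (m + 1) → ℤ),
      B = Fintype.piFinset fun _ => Finset.Icc (-(N : ℤ)) N := ⟨_, rfl⟩
  have hBcard : (B.card : ℝ) ≤ (A * r) ^ (m + 1) := by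
    have e1 : B.card = (2 * N + 1) ^ (m + 1) := by
      rw [hB, Fintype.card_piFinset, Finset.prod_const, Finset.card_univ, Fintype.card_fin,
        Int.card_Icc]
      congr 1
      omega
    rw [e1]
    push_cast
    refine pow_le_pow_left₀ (by positivity) ?_ _
    rw [hA, add_mul]
    linarith
  have hBpos : B.Nonempty := by
    refine ⟨fun _ => 0, ?_⟩
    rw [hB, Fintype.mem_piFinset]
    intro i
    rw [Finset.mem_Icc]
    omega
  have hBpos' : (0 : ℝ) < B.card := by exact_mod_cast hBpos.card_pos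
  have hmaps : ∀ x ∈ J, (fun i => ⌊2 * av x i⌋) ∈ B := by
    intro x hx
    rw [hB, Fintype.mem_piFinset]
    intro i
    have h1 := hbd x hx i
    rw [abs_le] at h1
    rw [Finset.mem_Icc]
    constructor
    · rw [Int.le_floor]
      push_cast
      linarith [h1.1]
    · have h2 : (⌊2 * av x i⌋ : ℝ) ≤ 2 * av x i := Int.floor_le _
      have h3 : (⌊2 * av x i⌋ : ℝ) ≤ (N : ℤ) := by
        push_cast
        linarith [h1.2]
      exact_mod_cast h3
  obtain ⟨y, _, hy⟩ := Finset.exists_le_card_fiber_of_nsmul_le_card_of_maps_to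
    (b := (J.card : ℝ) / B.card) hmaps hBpos (by
      rw [nsmul_eq_mul, mul_div_cancel₀ _ hBpos'.ne'])
  obtain ⟨E, hE⟩ : ∃ E : Finset (SLn (m + 1)),
      E = J.filter fun x => (fun i => ⌊2 * av x i⌋) = y := ⟨_, rfl⟩
  have hyE : (J.card : ℝ) / B.card ≤ E.card := by
    rw [hE]
    exact hy
  have hJpos : (0 : ℝ) < J.card := lt_of_lt_of_le (by positivity) hJcard
  have hEpos : 0 < E.card := by
    have : (0 : ℝ) < E.card := lt_of_lt_of_le (div_pos hJpos hBpos') hyE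
    exact_mod_cast this
  obtain ⟨x0, hx0⟩ := Finset.card_pos.1 hEpos
  have hEmem : ∀ x ∈ E, x ∈ J ∧ (fun i => ⌊2 * av x i⌋) = y := by
    intro x hx
    rw [hE, Finset.mem_filter] at hx
    exact hx
  obtain ⟨hx0J, hx0y⟩ := hEmem x0 hx0
  obtain ⟨t, h1, h2, h3, h4, h5⟩ := hJmem x0 hx0J
  refine ⟨t, av x0, E, h4, hsum x0, h1, h2, h3, ?_, ?_, ?_⟩
  · -- cardinality
    refine le_trans ?_ hyE
    rw [le_div_iff₀ hBpos']
    have ht0 : 0 ≤ t := by linarith
    have e1 : (m * (m + 1) - 1 - η) * t ≤ p * r - 3 / 8 * η * r := by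
      rw [← hp]
      have h6 : p * t ≤ p * (r + η * r / (8 * m * (m + 1))) :=
        mul_le_mul_of_nonneg_left h5 (by linarith)
      have h7 : p * (η * r / (8 * m * (m + 1))) ≤ η * r / 8 := by
        have hmm : (0 : ℝ) < m * (m + 1) := by positivity
        have e2 : p * (η * r / (8 * m * (m + 1))) = (p / (m * (m + 1))) * (η * r / 8) := by
          field_simp
        rw [e2]
        have h8 : p / (m * (m + 1)) ≤ 1 := by
          rw [div_le_one hmm, hp]
          linarith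
        have h9 : 0 ≤ η * r / 8 := by positivity
        exact mul_le_of_le_one_left h9 h8
      have h10 : η * (r / 2) ≤ η * t := mul_le_mul_of_nonneg_left h4 hη.le
      rw [mul_add] at h6
      rw [sub_mul]
      linarith
    calc Real.exp ((m * (m + 1) - 1 - η) * t) * B.card
        ≤ Real.exp (p * r - 3 / 8 * η * r) * (c' / 2 * Real.exp (3 / 8 * η * r)) := by
          refine mul_le_mul (Real.exp_le_exp.2 e1) (hBcard.trans (hr3 r g3)) hBpos'.le
            (Real.exp_pos _).le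
      _ = c' / 2 * Real.exp (p * r) := by
          rw [mul_left_comm, ← Real.exp_add]
          congr 2
          ring
      _ ≤ J.card := hJcard
  · intro x hx i
    obtain ⟨_, hxy⟩ := hEmem x hx
    have h6 : ⌊2 * av x i⌋ = ⌊2 * av x0 i⌋ := by
      have := congrFun (hxy.trans hx0y.symm) i
      exact this
    have h7 := Int.abs_sub_lt_one_of_floor_eq_floor h6
    have h8 : |2 * av x i - 2 * av x0 i| = 2 * |av x i - av x0 i| := by
      rw [← mul_sub, abs_mul, abs_of_pos (by norm_num : (0 : ℝ) < 2)]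
    rw [h8] at h7
    have := abs_nonneg (av x i - av x0 i)
    linarith
  · intro x hx
    obtain ⟨hxJ, _⟩ := hEmem x hx
    rw [hJ, Finset.mem_filter] at hxJ
    exact hImem x hxJ.1

end Pool.Agent.Lib.MP_41a456_al.TC
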