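import Mathlib
import Pool.Agent.Lib.MP_41a456_al.TC.B5
import Pool.Agent.Lib.MP_41a456_al.TC.A5

section

section

/-!
# MP_41a456_al, Theorem TC, C1: the polynomial of paper 521, (3.1)

`k = i + 1`, `1 ≤ k ≤ m = n - 1`. `g` is not scalar, so there is `w` with `w`, `g w` linearly
independent. Choose linearly independent row vectors `ξ_0, …, ξ_{k-2}` which vanish at `w` and `g w`
(`k - 1 ≤ n - 2`) and row vectors `ξ, ξ'` with `ξ w = ξ' (g w) = 1`, `ξ (g w) = ξ' w = 0`. Choose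
`u_1, …, u_{k-1}` with `D = det (ξ_a u_b) ≠ 0` and `D' = det (ξ_a (g u_b)) ≠ 0` (both are nonzero
polynomials in the `u_b`; e.g. `u = u' + t u''` with `det (ξ_a u'_b) ≠ 0` and
`det (ξ_a (g u''_b)) ≠ 0`: two nonzero polynomials in `t`). Let `L` have the rows
`ξ_0, …, ξ_{k-2}, ξ, ξ'` (then 0) and `R` the columns `u_1, …, u_{k-1}, w` (then 0). Then
`mk k (L R) = D`, `mk' (L R) = 0`, `mk k (L g R) = 0`, `mk' (L g R) = D'`. (Alternatively conjugate
first such that `w = e_0`, `g w = e_1`.)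
-/

namespace Pool.Agent.Lib.MP_41a456_al.TC

open Matrix MeasureTheory Filter Topology Pool.Agent.Lib.MP_41a456_al

/-- the minor with rows `0, …, k-2, k` and columns `0, …, k-1`, `k = i + 1` -/
noncomputable def mk' {m : ℕ} (i : Fin m) (Y : Mr (m + 1)) : ℝ :=
  (Y.submatrix (fun j : Fin ((i : ℕ) + 1) => if (j : ℕ) = i then i.succ else ld m ((i : ℕ) + 1) j)
    (ld m ((i : ℕ) + 1))).det

open Polynomial in
private theorem exists_t {k : ℕ} (A B : Matrix (Fin k) (Fin k) ℝ) :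
    ∃ t : ℝ, (1 + t • A).det ≠ 0 ∧ (B + t • 1).det ≠ 0 := by
  classical
  set p : ℝ[X] := (-A).charpolyRev with hp
  set q : ℝ[X] := (-B).charpoly with hq
  have hp0 : p ≠ 0 := by
    intro h
    have := Matrix.eval_charpolyRev (M := -A)
    rw [← hp, h, Polynomial.eval_zero] at this
    exact zero_ne_one this
  have hq0 : q ≠ 0 := (Matrix.charpoly_monic _).ne_zero
  by_contra hcon
  push Not at hcon
  have h0 : p * q = 0 := by
    apply Polynomial.funext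
    intro t
    rw [Polynomial.eval_mul, Polynomial.eval_zero]
    have e1 : p.eval t = (1 + t • A).det := by
      rw [hp, Matrix.charpolyRev, ← Polynomial.coe_evalRingHom, RingHom.map_det]
      congr 1
      ext i j
      simp [Matrix.one_apply, apply_ite]
      ring
    have e2 : q.eval t = (B + t • 1).det := by
      rw [hq, Matrix.charpoly, ← Polynomial.coe_evalRingHom, RingHom.map_det]
      congr 1
      ext i j
      by_cases h : i = j
      · subst h; simp; ring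
      · simp [h]
    rw [e1, e2]
    by_cases h : (1 + t • A).det = 0
    · rw [h, zero_mul]
    · rw [hcon t h, mul_zero]
  exact (mul_ne_zero hp0 hq0) h0

private theorem det_last {i : ℕ} (M : Matrix (Fin (i + 1)) (Fin (i + 1)) ℝ)
    (h : ∀ r : Fin i, M r.castSucc (Fin.last i) = 0) :
    M.det = M (Fin.last i) (Fin.last i) * (M.submatrix Fin.castSucc Fin.castSucc).det := by
  rw [Matrix.det_succ_column M (Fin.last i), Finset.sum_eq_single (Fin.last i)]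
  · simp [← two_mul]
  · intro b _ hb
    obtain ⟨r, rfl⟩ := Fin.exists_castSucc_eq.2 hb
    rw [h r]; ring
  · intro h'; exact absurd (Finset.mem_univ _) h'

private theorem ext_family {V : Type*} [AddCommGroup V] [Module ℝ V] [FiniteDimensional ℝ V] {N : ℕ}
    (hN : Module.finrank ℝ V = N) (w w' : V) (h : LinearIndependent ℝ ![w, w']) :
    ∀ j, 2 ≤ j → j ≤ N → ∃ v : Fin j → V, LinearIndependent ℝ v ∧
      (∀ a : Fin j, (a : ℕ) = 0 → v a = w) ∧ (∀ a : Fin j, (a : ℕ) = 1 → v a = w') := by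
  intro j hj
  induction j, hj using Nat.le_induction with
  | base =>
    intro _
    refine ⟨![w, w'], h, ?_, ?_⟩
    · intro a ha
      obtain rfl : a = 0 := Fin.ext ha
      rfl
    · intro a ha
      obtain rfl : a = 1 := Fin.ext ha
      rfl
  | succ j hj ih =>
    intro hj'
    obtain ⟨v, hv, h0, h1⟩ := ih (by omega)
    obtain ⟨x, hx⟩ := exists_linearIndependent_snoc_of_lt_finrank hv (by omega)
    refine ⟨_, hx, ?_, ?_⟩
    · intro a ha
      have : a = (⟨a, by omega⟩ : Fin j).castSucc := rfl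
      rw [this, Fin.snoc_castSucc]
      exact h0 _ ha
    · intro a ha
      have : a = (⟨a, by omega⟩ : Fin j).castSucc := rfl
      rw [this, Fin.snoc_castSucc]
      exact h1 _ ha

/-- the conjugated situation: `G e_0 = e_1` -/
private theorem frame_aux {m : ℕ} (i : Fin m) (G : Mr (m + 1)) (hG : G.det ≠ 0)
    (h01 : ∀ x : Fin (m + 1), G x 0 = if (x : ℕ) = 1 then 1 else 0) :
    ∃ L R : Mr (m + 1), mk ((i : ℕ) + 1) (L * G * R) * mk' i (L * R) ≠
      mk' i (L * G * R) * mk ((i : ℕ) + 1) (L * R) := by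
  classical
  have him := i.2
  -- the selection of rows
  let s2 : Fin (i : ℕ) → Fin (m + 1) := fun a => ⟨(a : ℕ) + 2, by have := a.2; omega⟩
  let P : Matrix (Fin (i : ℕ)) (Fin (m + 1)) ℝ := (1 : Mr (m + 1)).submatrix s2 id
  have hs2 : Function.Injective s2 := by
    intro a b hab
    have := congrArg Fin.val hab
    simp only [s2] at this
    exact Fin.ext (by omega)
  have hPP : P * Pᵀ = 1 := by
    ext a b
    simp only [P, Matrix.mul_apply, Matrix.submatrix_apply, Matrix.transpose_apply, id,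
      Matrix.one_apply]
    simp [hs2.eq_iff, eq_comm]
  have hPY : ∀ (N : ℕ) (Y : Matrix (Fin (m + 1)) (Fin N) ℝ), P * Y = Y.submatrix s2 id := by
    intro N Y
    ext a b
    simp [P, Matrix.mul_apply, Matrix.one_apply]
  obtain ⟨t, ht1, ht2⟩ := exists_t (P * G⁻¹ * Pᵀ) (P * G * Pᵀ)
  let U : Matrix (Fin (m + 1)) (Fin (i : ℕ)) ℝ := Pᵀ + t • (G⁻¹ * Pᵀ)
  have hD : (U.submatrix s2 id).det ≠ 0 := by
    rw [← hPY]
    have : P * U = 1 + t • (P * G⁻¹ * Pᵀ) := by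
      simp only [U, Matrix.mul_add, Matrix.mul_smul, hPP, Matrix.mul_assoc]
    rw [this]; exact ht1
  have hGG : G * G⁻¹ = 1 := Matrix.mul_nonsing_inv _ (isUnit_iff_ne_zero.2 hG)
  have hD' : ((G * U).submatrix s2 id).det ≠ 0 := by
    rw [← hPY]
    have : P * (G * U) = P * G * Pᵀ + t • 1 := by
      simp only [U, Matrix.mul_add, Matrix.mul_smul]
      rw [← Matrix.mul_assoc G, hGG, Matrix.one_mul, hPP, Matrix.mul_assoc]
    rw [this]; exact ht2
  -- rows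
  let c : Fin (m + 1) → Fin (m + 1) := fun a =>
    if h : (a : ℕ) < i then s2 ⟨a, h⟩ else if (a : ℕ) = i then 0 else ⟨1, by omega⟩
  let L : Mr (m + 1) := (1 : Mr (m + 1)).submatrix c id
  let R : Mr (m + 1) := Matrix.of fun x b =>
    if h : (b : ℕ) < i then U x ⟨b, h⟩ else if (x : ℕ) = 0 then 1 else 0
  have hL : ∀ Y : Mr (m + 1), L * Y = Y.submatrix c id := by
    intro Y
    ext a b
    simp [L, Matrix.mul_apply, Matrix.one_apply]
  have hR0 : ∀ (x b : Fin (m + 1)), (b : ℕ) = i → R x b = if (x : ℕ) = 0 then 1 else 0 := by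
    intro x b hb
    simp [R, hb]
  have hR1 : ∀ (x b : Fin (m + 1)) (h : (b : ℕ) < i), R x b = U x ⟨b, h⟩ := by
    intro x b hb
    simp [R, hb]
  have hGR0 : ∀ (x b : Fin (m + 1)), (b : ℕ) = i → (G * R) x b = if (x : ℕ) = 1 then 1 else 0 := by
    intro x b hb
    rw [Matrix.mul_apply, Finset.sum_eq_single 0, hR0 _ _ hb, h01]
    · simp
    · intro y _ hy
      rw [hR0 _ _ hb, if_neg, mul_zero]
      intro h; exact hy (Fin.ext h)
    · intro h; exact absurd (Finset.mem_univ _) h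
  have hGR1 : ∀ (x b : Fin (m + 1)) (h : (b : ℕ) < i), (G * R) x b = (G * U) x ⟨b, h⟩ := by
    intro x b hb
    rw [Matrix.mul_apply, Matrix.mul_apply]
    exact Finset.sum_congr rfl fun y _ => by rw [hR1 _ _ hb]
  have hld : ∀ j : Fin ((i : ℕ) + 1), ((ld m ((i : ℕ) + 1) j : Fin (m + 1)) : ℕ) = j := by
    intro j
    have := j.2
    simp only [ld, Fin.ofNat]
    exact Nat.mod_eq_of_lt (by omega)
  have hc1 : ∀ j : Fin (i : ℕ), c (ld m ((i : ℕ) + 1) j.castSucc) = s2 j := by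
    intro j
    have hj := hld j.castSucc
    have h2 := j.2
    have h3 : ((ld m ((i : ℕ) + 1) j.castSucc : Fin (m + 1)) : ℕ) < i := by rw [hj]; exact h2
    simp only [c, dif_pos h3]
    congr 1
    exact Fin.ext hj
  have hc2 : c (ld m ((i : ℕ) + 1) (Fin.last _)) = 0 := by
    have hj := hld (Fin.last _)
    rw [Fin.val_last] at hj
    simp [c, hj]
  have hc3 : c i.succ = ⟨1, by omega⟩ := by
    simp [c]
  have hs0 : ∀ j, ((s2 j : Fin (m + 1)) : ℕ) ≠ 0 := fun j => by simp [s2]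
  have hs1 : ∀ j, ((s2 j : Fin (m + 1)) : ℕ) ≠ 1 := fun j => by simp [s2]
  have hlast : ((ld m ((i : ℕ) + 1) (Fin.last _) : Fin (m + 1)) : ℕ) = i := hld _
  have hcs : ∀ j : Fin (i : ℕ), ((ld m ((i : ℕ) + 1) j.castSucc : Fin (m + 1)) : ℕ) < i := by
    intro j; rw [hld]; exact j.2
  have hidx : ∀ (j : Fin (i : ℕ)) (h), (⟨((ld m ((i : ℕ) + 1) j.castSucc : Fin (m + 1)) : ℕ), h⟩ :
      Fin (i : ℕ)) = j := by
    intro j h; exact Fin.ext (hld _)
  have key1 : mk ((i : ℕ) + 1) (L * R) = (U.submatrix s2 id).det := by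
    rw [mk, hL, det_last]
    · simp only [Matrix.submatrix_apply, id, hc2, hR0 _ _ hlast]
      rw [if_pos (by rfl), one_mul]
      congr 1
      ext a b
      simp only [Matrix.submatrix_apply, id, hc1, hR1 _ _ (hcs b), hidx]
    · intro r
      simp only [Matrix.submatrix_apply, id, hc1, hR0 _ _ hlast]
      rw [if_neg (hs0 r)]
  have key2 : mk ((i : ℕ) + 1) (L * G * R) = 0 := by
    rw [mk, Matrix.mul_assoc, hL, det_last]
    · simp only [Matrix.submatrix_apply, id, hc2, hGR0 _ _ hlast]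
      rw [if_neg (by simp), zero_mul]
    · intro r
      simp only [Matrix.submatrix_apply, id, hc1, hGR0 _ _ hlast]
      rw [if_neg (hs1 r)]
  have hne : ∀ r : Fin (i : ℕ), ((r.castSucc : Fin ((i : ℕ) + 1)) : ℕ) ≠ i := by
    intro r; rw [Fin.val_castSucc]; exact r.2.ne
  have key3 : mk' i (L * R) = 0 := by
    rw [mk', hL, det_last]
    · simp only [Matrix.submatrix_apply, id, Fin.val_last, if_true, hc3, hR0 _ _ hlast]
      rw [if_neg (by simp), zero_mul]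
    · intro r
      simp only [Matrix.submatrix_apply, id, if_neg (hne r), hc1, hR0 _ _ hlast]
      rw [if_neg (hs0 r)]
  have key4 : mk' i (L * G * R) = ((G * U).submatrix s2 id).det := by
    rw [mk', Matrix.mul_assoc, hL, det_last]
    · simp only [Matrix.submatrix_apply, id, Fin.val_last, if_true, hc3, hGR0 _ _ hlast, one_mul]
      congr 1
      ext a b
      simp only [Matrix.submatrix_apply, id, if_neg (hne a), hc1, hGR1 _ _ (hcs b), hidx]
    · intro r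
      simp only [Matrix.submatrix_apply, id, if_neg (hne r), hc1, hGR0 _ _ hlast]
      rw [if_neg (hs1 r)]
  refine ⟨L, R, ?_⟩
  rw [key1, key2, key3, key4, zero_mul]
  exact (mul_ne_zero hD' hD).symm

theorem frame_poly {m : ℕ} (i : Fin m) (g : SLr (m + 1)) (hg : ∀ c : ℝ, (g : Mr (m + 1)) ≠ c • 1) :
    ∃ L R : Mr (m + 1), mk ((i : ℕ) + 1) (L * (g : Mr (m + 1)) * R) * mk' i (L * R) ≠
      mk' i (L * (g : Mr (m + 1)) * R) * mk ((i : ℕ) + 1) (L * R) := by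
  classical
  have him := i.2
  -- a vector which is not an eigenvector
  obtain ⟨w, hw⟩ : ∃ w : Fin (m + 1) → ℝ, LinearIndependent ℝ ![w, (g : Mr (m + 1)) *ᵥ w] := by
    by_contra hcon
    push Not at hcon
    obtain ⟨a, ha⟩ := LinearMap.exists_eq_smul_id_of_forall_notLinearIndependent
      (f := Matrix.toLin' (g : Mr (m + 1))) (by
        intro v
        rw [Matrix.toLin'_apply]
        exact hcon v)
    apply hg a
    apply Matrix.toLin'.injective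
    rw [ha, map_smul, Matrix.toLin'_one]
    rfl
  obtain ⟨v, hv, hv0, hv1⟩ := ext_family (N := m + 1) (by simp) w _ hw (m + 1) (by omega) le_rfl
  -- the matrix with columns v
  let A : Mr (m + 1) := Matrix.of fun x b => v b x
  have hA : IsUnit A := by
    rw [← Matrix.linearIndependent_cols_iff_isUnit]
    exact hv
  have hAd : A.det ≠ 0 := ((Matrix.isUnit_iff_isUnit_det _).1 hA).ne_zero
  have hAA : A⁻¹ * A = 1 := Matrix.nonsing_inv_mul _ (isUnit_iff_ne_zero.2 hAd)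
  have hAA' : A * A⁻¹ = 1 := Matrix.mul_nonsing_inv _ (isUnit_iff_ne_zero.2 hAd)
  let G : Mr (m + 1) := A⁻¹ * (g : Mr (m + 1)) * A
  have hG : G.det ≠ 0 := by
    simp only [G, Matrix.det_mul]
    refine mul_ne_zero (mul_ne_zero ?_ ?_) hAd
    · rw [Matrix.det_nonsing_inv]
      simpa using hAd
    · rw [g.2]; exact one_ne_zero
  have hcol : ∀ b, A *ᵥ Pi.single b 1 = v b := by
    intro b
    rw [Matrix.mulVec_single_one]
    rfl
  have h01 : ∀ x : Fin (m + 1), G x 0 = if (x : ℕ) = 1 then 1 else 0 := by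
    intro x
    have h1 : G *ᵥ Pi.single 0 1 = Pi.single (⟨1, by omega⟩ : Fin (m + 1)) 1 := by
      simp only [G]
      rw [← Matrix.mulVec_mulVec, hcol, ← Matrix.mulVec_mulVec, hv0 0 rfl,
        ← hv1 ⟨1, by omega⟩ rfl, ← hcol, Matrix.mulVec_mulVec, hAA, Matrix.one_mulVec]
    have h2 := congrFun h1 x
    rw [Matrix.mulVec_single_one] at h2
    rw [show G x 0 = G.col 0 x from rfl, h2, Pi.single_apply]
    simp [Fin.ext_iff]
  obtain ⟨L, R, h⟩ := frame_aux i G hG h01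
  refine ⟨L * A⁻¹, A * R, ?_⟩
  have e1 : L * A⁻¹ * (g : Mr (m + 1)) * (A * R) = L * G * R := by
    simp only [G, Matrix.mul_assoc]
  have e2 : L * A⁻¹ * (A * R) = L * R := by
    rw [Matrix.mul_assoc, ← Matrix.mul_assoc A⁻¹, hAA, Matrix.one_mul]
  rw [e1, e2]
  exact h

end Pool.Agent.Lib.MP_41a456_al.TC
end

section

/-!
# MP_41a456_al, Theorem TC, C2: generic frames

A product of nonzero polynomials in the entries of `(L, R)` over `ℝ` is nonzero, so it has a point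
where it does not vanish (`MvPolynomial.funext`, `IsDomain`). The polynomials:
`det L`, `det R`, `mk k (L s R)` for `s ∈ S`, `1 ≤ k ≤ m + 1` (nonzero: `L = 1`, `R = s⁻¹`), and for
`s ≠ s'` in `S` and the fixed `i` the polynomial of `frame_poly` for `g = s s'⁻¹` with `R` replaced by `s' R`
(nonzero by `frame_poly`, `g` is not scalar as `g ≠ ±1` is integral of determinant 1: a scalar `c` is an
integer with `c^n = 1`). `s' R` runs over all matrices.
-/

namespace Pool.Agent.Lib.MP_41a456_al.TC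

open Matrix MeasureTheory Filter Topology Pool.Agent.Lib.MP_41a456_al

/-- the variables: the entries of `L` and of `R` -/
private abbrev Vr (n : ℕ) := (Fin n × Fin n) ⊕ (Fin n × Fin n)

/-- generic `L` -/
private noncomputable def gL (n : ℕ) : Matrix (Fin n) (Fin n) (MvPolynomial (Vr n) ℝ) :=
  Matrix.of fun i j => MvPolynomial.X (Sum.inl (i, j))

/-- generic `R` -/
private noncomputable def gR (n : ℕ) : Matrix (Fin n) (Fin n) (MvPolynomial (Vr n) ℝ) :=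
  Matrix.of fun i j => MvPolynomial.X (Sum.inr (i, j))

/-- the point `(L, R)` -/
private def pv {n : ℕ} (L R : Mr n) : Vr n → ℝ := Sum.elim (fun p => L p.1 p.2) (fun p => R p.1 p.2)

/-- generic `L A R` -/
private noncomputable def gM {n : ℕ} (A : Mr n) : Matrix (Fin n) (Fin n) (MvPolynomial (Vr n) ℝ) :=
  gL n * A.map (MvPolynomial.C (σ := Vr n)) * gR n

private theorem eval_gL {n : ℕ} (L R : Mr n) :
    (MvPolynomial.eval (pv L R)).mapMatrix (gL n) = L := by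
  ext i j
  simp [gL, pv]

private theorem eval_gR {n : ℕ} (L R : Mr n) :
    (MvPolynomial.eval (pv L R)).mapMatrix (gR n) = R := by
  ext i j
  simp [gR, pv]

private theorem eval_gM {n : ℕ} (A L R : Mr n) :
    (MvPolynomial.eval (pv L R)).mapMatrix (gM A) = L * A * R := by
  unfold gM
  rw [map_mul, map_mul, eval_gL, eval_gR]
  congr 2
  ext i j
  simp

private theorem eval_minor {n k : ℕ} (A L R : Mr n) (f g : Fin k → Fin n) :
    MvPolynomial.eval (pv L R) ((gM A).submatrix f g).det = ((L * A * R).submatrix f g).det := by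
  rw [RingHom.map_det, ← eval_gM A L R]
  rfl

private theorem pv_surj {n : ℕ} (v : Vr n → ℝ) : ∃ L R : Mr n, v = pv L R := by
  refine ⟨Matrix.of fun i j => v (Sum.inl (i, j)), Matrix.of fun i j => v (Sum.inr (i, j)), ?_⟩
  funext x
  rcases x with ⟨i, j⟩ | ⟨i, j⟩ <;> rfl

/-- a scalar integral matrix of determinant one is plus or minus one -/
private theorem not_scalar {m : ℕ} (t : SLn (m + 1)) (h1 : t ≠ 1) (h2 : (t : Mt (m + 1)) ≠ -1) (c : ℝ) :
    (iz (m + 1) t : Mr (m + 1)) ≠ c • 1 := by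
  intro h
  have hent : ∀ i j, ((t : Mt (m + 1)) i j : ℝ) = c * (1 : Mr (m + 1)) i j := by
    intro i j
    have h3 : (iz (m + 1) t : Mr (m + 1)) i j = (c • (1 : Mr (m + 1))) i j := by rw [h]
    have h4 : (iz (m + 1) t : Mr (m + 1)) i j = ((t : Mt (m + 1)) i j : ℝ) := rfl
    rw [h4] at h3
    rw [h3]
    simp
  have hz : (((t : Mt (m + 1)) 0 0 : ℤ) : ℝ) = c := by
    rw [hent 0 0]
    simp
  have ht : (t : Mt (m + 1)) = ((t : Mt (m + 1)) 0 0) • (1 : Mt (m + 1)) := by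
    ext i j
    have h3 := hent i j
    rw [← hz] at h3
    have h5 : (((t : Mt (m + 1)) i j : ℤ) : ℝ) =
        ((((t : Mt (m + 1)) 0 0) • (1 : Mt (m + 1))) i j : ℤ) := by
      rw [h3]
      by_cases hij : i = j
      · subst hij; simp
      · simp [Matrix.one_apply_ne hij]
    exact_mod_cast h5
  have hdet : ((t : Mt (m + 1)) 0 0) ^ (m + 1) = 1 := by
    have h6 := t.2
    rw [ht, Matrix.det_smul, Matrix.det_one, mul_one, Fintype.card_fin] at h6
    exact h6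
  have hu : IsUnit ((t : Mt (m + 1)) 0 0) := IsUnit.of_pow_eq_one hdet (Nat.succ_ne_zero m)
  rcases Int.isUnit_iff.1 hu with h7 | h7
  · apply h1
    apply Subtype.ext
    rw [h7, one_smul] at ht
    exact ht
  · apply h2
    rw [h7] at ht
    rw [ht]
    simp

theorem generic_frame {m : ℕ} (i : Fin m) (S : Finset (SLn (m + 1)))
    (hS : ∀ s ∈ S, ∀ s' ∈ S, s ≠ s' → (s : Mt (m + 1)) ≠ -(s' : Mt (m + 1))) :
    ∃ L R : Mr (m + 1), L.det ≠ 0 ∧ R.det ≠ 0 ∧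
      (∀ s ∈ S, ∀ k, 1 ≤ k → k ≤ m + 1 → mk k (L * (iz (m + 1) s : Mr (m + 1)) * R) ≠ 0) ∧
      ∀ s ∈ S, ∀ s' ∈ S, s ≠ s' →
        mk' i (L * (iz (m + 1) s : Mr (m + 1)) * R) / mk ((i : ℕ) + 1) (L * (iz (m + 1) s : Mr (m + 1)) * R) ≠
        mk' i (L * (iz (m + 1) s' : Mr (m + 1)) * R) / mk ((i : ℕ) + 1) (L * (iz (m + 1) s' : Mr (m + 1)) * R) := by
  classical
  -- the row map of `mk'`
  let ro : Fin ((i : ℕ) + 1) → Fin (m + 1) :=
    fun j => if (j : ℕ) = i then i.succ else ld m ((i : ℕ) + 1) j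
  let co : Fin ((i : ℕ) + 1) → Fin (m + 1) := ld m ((i : ℕ) + 1)
  let A : SLn (m + 1) → Mr (m + 1) := fun s => (iz (m + 1) s : Mr (m + 1))
  -- the polynomials
  let p1 : SLn (m + 1) → ℕ → MvPolynomial (Vr (m + 1)) ℝ := fun s k =>
    ((gM (A s)).submatrix (ld m k) (ld m k)).det
  let q : SLn (m + 1) → MvPolynomial (Vr (m + 1)) ℝ := fun s => ((gM (A s)).submatrix ro co).det
  let p2 : SLn (m + 1) → SLn (m + 1) → MvPolynomial (Vr (m + 1)) ℝ := fun s s' =>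
    q s * p1 s' ((i : ℕ) + 1) - q s' * p1 s ((i : ℕ) + 1)
  have e1 : ∀ s k L R, MvPolynomial.eval (pv L R) (p1 s k) = mk k (L * A s * R) := fun s k L R =>
    eval_minor (A s) L R (ld m k) (ld m k)
  have eq' : ∀ s L R, MvPolynomial.eval (pv L R) (q s) = mk' i (L * A s * R) := fun s L R =>
    eval_minor (A s) L R ro co
  have e2 : ∀ s s' L R, MvPolynomial.eval (pv L R) (p2 s s') =
      mk' i (L * A s * R) * mk ((i : ℕ) + 1) (L * A s' * R) -
      mk' i (L * A s' * R) * mk ((i : ℕ) + 1) (L * A s * R) := by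
    intro s s' L R
    change MvPolynomial.eval (pv L R) (q s * p1 s' ((i : ℕ) + 1) - q s' * p1 s ((i : ℕ) + 1)) = _
    rw [map_sub, map_mul, map_mul, eq', eq', e1, e1]
  -- nonvanishing
  have hdL : (gL (m + 1)).det ≠ 0 := by
    intro h0
    have h1 := congrArg (MvPolynomial.eval (pv (1 : Mr (m + 1)) 1)) h0
    rw [RingHom.map_det, eval_gL, Matrix.det_one, map_zero] at h1
    exact one_ne_zero h1
  have hdR : (gR (m + 1)).det ≠ 0 := by
    intro h0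
    have h1 := congrArg (MvPolynomial.eval (pv (1 : Mr (m + 1)) 1)) h0
    rw [RingHom.map_det, eval_gR, Matrix.det_one, map_zero] at h1
    exact one_ne_zero h1
  have hp1 : ∀ s k, k ≤ m + 1 → p1 s k ≠ 0 := by
    intro s k hk h0
    have h1 := congrArg (MvPolynomial.eval (pv (1 : Mr (m + 1)) ((iz (m + 1) s)⁻¹ : SLr (m + 1)))) h0
    rw [e1, map_zero, one_mul] at h1
    have h2 : A s * (((iz (m + 1) s)⁻¹ : SLr (m + 1)) : Mr (m + 1)) = 1 := by
      change ((iz (m + 1) s : SLr (m + 1)) : Mr (m + 1)) * (((iz (m + 1) s)⁻¹ : SLr (m + 1)) : Mr (m + 1)) = 1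
      rw [← Matrix.SpecialLinearGroup.coe_mul, mul_inv_cancel, Matrix.SpecialLinearGroup.coe_one]
    rw [h2] at h1
    have h3 : Function.Injective (ld m k) := by
      intro a b hab
      have h4 := congrArg Fin.val hab
      simp only [ld, Fin.val_ofNat] at h4
      rw [Nat.mod_eq_of_lt (lt_of_lt_of_le a.2 hk), Nat.mod_eq_of_lt (lt_of_lt_of_le b.2 hk)] at h4
      exact Fin.ext h4
    unfold mk at h1
    rw [Matrix.submatrix_one _ h3, Matrix.det_one] at h1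
    exact one_ne_zero h1
  have hp2 : ∀ s ∈ S, ∀ s' ∈ S, s ≠ s' → p2 s s' ≠ 0 := by
    intro s hs s' hs' hne h0
    have hsc : ∀ c : ℝ, (iz (m + 1) (s * s'⁻¹) : Mr (m + 1)) ≠ c • 1 := by
      intro c
      apply not_scalar
      · intro h
        exact hne (mul_inv_eq_one.1 h)
      · intro h
        apply hS s hs s' hs' hne
        have h5 : (s : Mt (m + 1)) = ((s * s'⁻¹ : SLn (m + 1)) : Mt (m + 1)) * (s' : Mt (m + 1)) := by
          rw [← Matrix.SpecialLinearGroup.coe_mul, inv_mul_cancel_right]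
        rw [h5, h, neg_mul, one_mul]
    obtain ⟨L, R, hLR⟩ := frame_poly i (iz (m + 1) (s * s'⁻¹)) hsc
    apply hLR
    have h1 := congrArg (MvPolynomial.eval (pv L
      ((((iz (m + 1) s')⁻¹ : SLr (m + 1)) : Mr (m + 1)) * R))) h0
    rw [e2, map_zero] at h1
    have h2 : L * A s * ((((iz (m + 1) s')⁻¹ : SLr (m + 1)) : Mr (m + 1)) * R) =
        L * (iz (m + 1) (s * s'⁻¹) : Mr (m + 1)) * R := by
      rw [map_mul, map_inv, Matrix.SpecialLinearGroup.coe_mul]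
      simp only [A, Matrix.mul_assoc]
    have h3 : L * A s' * ((((iz (m + 1) s')⁻¹ : SLr (m + 1)) : Mr (m + 1)) * R) = L * R := by
      have h4 : A s' * (((iz (m + 1) s')⁻¹ : SLr (m + 1)) : Mr (m + 1)) = 1 := by
        change ((iz (m + 1) s' : SLr (m + 1)) : Mr (m + 1)) *
          (((iz (m + 1) s')⁻¹ : SLr (m + 1)) : Mr (m + 1)) = 1
        rw [← Matrix.SpecialLinearGroup.coe_mul, mul_inv_cancel, Matrix.SpecialLinearGroup.coe_one]
      rw [Matrix.mul_assoc, ← Matrix.mul_assoc (A s'), h4, Matrix.one_mul]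
    rw [h2, h3] at h1
    linarith
  -- the product
  let P : MvPolynomial (Vr (m + 1)) ℝ := (gL (m + 1)).det * (gR (m + 1)).det *
    (∏ s ∈ S, ∏ k ∈ Finset.Icc 1 (m + 1), p1 s k) *
    (∏ s ∈ S, ∏ s' ∈ S.erase s, p2 s s')
  have hP : P ≠ 0 := by
    refine mul_ne_zero (mul_ne_zero (mul_ne_zero hdL hdR) ?_) ?_
    · refine Finset.prod_ne_zero_iff.2 (fun s hs => Finset.prod_ne_zero_iff.2 (fun k hk => ?_))
      exact hp1 s k (Finset.mem_Icc.1 hk).2
    · refine Finset.prod_ne_zero_iff.2 (fun s hs => Finset.prod_ne_zero_iff.2 (fun s' hs' => ?_))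
      exact hp2 s hs s' (Finset.mem_of_mem_erase hs') (Finset.ne_of_mem_erase hs').symm
  obtain ⟨v, hv⟩ : ∃ v, MvPolynomial.eval v P ≠ 0 := by
    by_contra hcon
    push Not at hcon
    apply hP
    apply MvPolynomial.funext
    intro v
    rw [hcon v, map_zero]
  obtain ⟨L, R, rfl⟩ := pv_surj v
  rw [map_mul, map_mul, map_mul, map_prod, map_prod] at hv
  have hv4 := right_ne_zero_of_mul hv
  have hv3 := right_ne_zero_of_mul (left_ne_zero_of_mul hv)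
  have hv2 := right_ne_zero_of_mul (left_ne_zero_of_mul (left_ne_zero_of_mul hv))
  have hv1 := left_ne_zero_of_mul (left_ne_zero_of_mul (left_ne_zero_of_mul hv))
  rw [RingHom.map_det, eval_gL] at hv1
  rw [RingHom.map_det, eval_gR] at hv2
  have hk : ∀ s ∈ S, ∀ k, 1 ≤ k → k ≤ m + 1 → mk k (L * (iz (m + 1) s : Mr (m + 1)) * R) ≠ 0 := by
    intro s hs k hk1 hk2
    have h1 := Finset.prod_ne_zero_iff.1 hv3 s hs
    rw [map_prod] at h1
    have h2 := Finset.prod_ne_zero_iff.1 h1 k (Finset.mem_Icc.2 ⟨hk1, hk2⟩)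
    rw [e1] at h2
    exact h2
  refine ⟨L, R, hv1, hv2, hk, ?_⟩
  intro s hs s' hs' hne heq
  have h1 := Finset.prod_ne_zero_iff.1 hv4 s hs
  rw [map_prod] at h1
  have h2 := Finset.prod_ne_zero_iff.1 h1 s' (Finset.mem_erase.2 ⟨hne.symm, hs'⟩)
  rw [e2] at h2
  apply h2
  have hi : (i : ℕ) + 1 ≤ m + 1 := by omega
  have hk1 := hk s hs ((i : ℕ) + 1) (by omega) hi
  have hk2 := hk s' hs' ((i : ℕ) + 1) (by omega) hi
  rw [div_eq_div_iff hk1 hk2] at heq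
  exact sub_eq_zero.2 heq

end Pool.Agent.Lib.MP_41a456_al.TC
end

section

/-!
# MP_41a456_al, Theorem TC, C3: good frames (paper 521, (3.2))

Let `c i ≠ 0`. Take `L, R` from `generic_frame i S`, `ρ_s = mk' / mk`. Let `L(ε)` be `L` with row `i`
replaced by row `i` + `ε` row `i+1`. This changes only `mk (i+1)`:
`mk (i+1) (L(ε) s R) = mk (i+1) (L s R) (1 + ε ρ_s)`.
`Ψ_s(ε) = ∑ c_j log |mk (j+1) (L(ε) s R)| = Ψ_s(0) + c_i log |1 + ε ρ_s|`. Among the `s ∈ S` with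
maximal `Ψ_s(0)` take the one with maximal `c_i ρ_s`: for small `ε > 0` it is the unique maximum
`s0`, and `1 + ε ρ_s ≠ 0`. Replace `L` by `L(ε)` (same determinant). `lu`: `L s0 R = l r`,
`h = l⁻¹ L`, `h⁻¹ = s0 R r⁻¹`, so `mk k (h T h⁻¹) = mk k (L T s0 R) / mk k r`,
`mk k r = mk k (L s0 R)` (`mk_low_mul`, `mk_mul_upp`). For `T = s s0⁻¹`:
`mk k (h s s0⁻¹ h⁻¹) = mk k (L s R) / mk k (L s0 R)`. Scale `h` to determinant `±1`; if it is `-1`,
multiply the first row by `-1` (conjugation by `diag(-1,1,…,1)` does not change `mk k`).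
-/

namespace Pool.Agent.Lib.MP_41a456_al.TC

open Matrix MeasureTheory Filter Topology Pool.Agent.Lib.MP_41a456_al

private theorem c3_ld_val {m k : ℕ} (hk : k ≤ m + 1) (r : Fin k) : ((ld m k r : Fin (m + 1)) : ℕ) = r := by
  have h1 := r.2
  have h2 : (r : ℕ) % (m + 1) = r := Nat.mod_eq_of_lt (by omega)
  simpa [ld, Fin.ofNat] using h2

private theorem c3_mk_ne {m : ℕ} (i : Fin m) (ε : ℝ) (Y : Mr (m + 1)) (k : ℕ) (hk : k ≤ m + 1)
    (hne : k ≠ (i : ℕ) + 1) : mk k (transvection i.castSucc i.succ ε * Y) = mk k Y := by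
  rcases Nat.lt_or_ge (i : ℕ) k with h | h
  · have hk2 : (i : ℕ) + 1 < k := by omega
    set a : Fin k := ⟨i, by omega⟩ with ha
    set b : Fin k := ⟨(i : ℕ) + 1, hk2⟩ with hb
    have hab : a ≠ b := by
      intro h'
      have := congrArg Fin.val h'
      simp [ha, hb] at this
    have hla : ld m k a = i.castSucc := Fin.ext (by rw [c3_ld_val hk]; simp [ha])
    have hlb : ld m k b = i.succ := Fin.ext (by rw [c3_ld_val hk]; simp [hb])
    have h1 : (transvection i.castSucc i.succ ε * Y).submatrix (ld m k) (ld m k) =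
        updateRow (Y.submatrix (ld m k) (ld m k)) a
          ((Y.submatrix (ld m k) (ld m k)) a + ε • (Y.submatrix (ld m k) (ld m k)) b) := by
      ext r c
      by_cases hr : r = a
      · subst hr
        rw [updateRow_self, submatrix_apply, hla, transvection_mul_apply_same]
        simp [hla, hlb]
      · have hr' : ld m k r ≠ i.castSucc := by
          rw [← hla]
          intro h'
          apply hr
          have h2 := congrArg Fin.val h'
          rw [c3_ld_val hk, c3_ld_val hk] at h2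
          exact Fin.ext h2
        rw [updateRow_ne hr, submatrix_apply, transvection_mul_apply_of_ne _ _ _ _ hr', submatrix_apply]
    unfold mk
    rw [h1, det_updateRow_add_smul_self _ hab]
  · unfold mk
    congr 1
    ext r c
    have hr' : ld m k r ≠ i.castSucc := by
      intro h'
      have h2 := congrArg Fin.val h'
      rw [c3_ld_val hk, Fin.val_castSucc] at h2
      have := r.2
      omega
    rw [submatrix_apply, transvection_mul_apply_of_ne _ _ _ _ hr', submatrix_apply]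

private theorem c3_mk_eq {m : ℕ} (i : Fin m) (ε : ℝ) (Y : Mr (m + 1)) :
    mk ((i : ℕ) + 1) (transvection i.castSucc i.succ ε * Y) =
      mk ((i : ℕ) + 1) Y + ε * mk' i Y := by
  have hk : (i : ℕ) + 1 ≤ m + 1 := by have := i.2; omega
  set k := (i : ℕ) + 1 with hkd
  set a : Fin k := ⟨i, by omega⟩ with ha
  have hla : ld m k a = i.castSucc := Fin.ext (by rw [c3_ld_val hk]; simp [ha])
  have h1 : (transvection i.castSucc i.succ ε * Y).submatrix (ld m k) (ld m k) =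
      updateRow (Y.submatrix (ld m k) (ld m k)) a
        ((Y.submatrix (ld m k) (ld m k)) a + ε • fun c => Y i.succ (ld m k c)) := by
    ext r c
    by_cases hr : r = a
    · subst hr
      rw [updateRow_self, submatrix_apply, hla, transvection_mul_apply_same]
      simp [hla]
    · have hr' : ld m k r ≠ i.castSucc := by
        rw [← hla]
        intro h'
        apply hr
        have h2 := congrArg Fin.val h'
        rw [c3_ld_val hk, c3_ld_val hk] at h2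
        exact Fin.ext h2
      rw [updateRow_ne hr, submatrix_apply, transvection_mul_apply_of_ne _ _ _ _ hr', submatrix_apply]
  have h2 : mk' i Y = (updateRow (Y.submatrix (ld m k) (ld m k)) a
      (fun c => Y i.succ (ld m k c))).det := by
    unfold mk'
    congr 1
    ext r c
    by_cases hr : r = a
    · subst hr
      rw [updateRow_self, submatrix_apply, if_pos (by simp [ha])]
    · have hr2 : (r : ℕ) ≠ i := by
        intro h'
        exact hr (Fin.ext (by simp [ha, h']))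
      rw [updateRow_ne hr, submatrix_apply, if_neg hr2, submatrix_apply]
  unfold mk
  rw [h1, det_updateRow_add, det_updateRow_smul, updateRow_eq_self, h2]

private theorem c3_diag {m : ℕ} (k : ℕ) (d : Fin (m + 1) → ℝ) (hd : ∀ i, |d i| = 1) (Y : Mr (m + 1)) :
    |mk k (diagonal d * Y)| = |mk k Y| := by
  have h1 : (diagonal d * Y).submatrix (ld m k) (ld m k) =
      diagonal (fun r => d (ld m k r)) * Y.submatrix (ld m k) (ld m k) := by
    ext r c
    simp [diagonal_mul]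
  unfold mk
  rw [h1, det_mul, det_diagonal, abs_mul, Finset.abs_prod]
  simp [hd]

/-- the perturbed frame -/
private theorem c3_frame {m : ℕ} (S : Finset (SLn (m + 1))) (hne : S.Nonempty)
    (hS : ∀ s ∈ S, ∀ s' ∈ S, s ≠ s' → (s : Mt (m + 1)) ≠ -(s' : Mt (m + 1)))
    (c : Fin m → ℝ) (hc : c ≠ 0) :
    ∃ s0 ∈ S, ∃ L R : Mr (m + 1), 0 < L.det ∧ R.det ≠ 0 ∧
      (∀ s ∈ S, ∀ k, 1 ≤ k → k ≤ m + 1 → mk k (L * (iz (m + 1) s : Mr (m + 1)) * R) ≠ 0) ∧
      ∀ s ∈ S, s ≠ s0 →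
        ∑ i : Fin m, c i * Real.log |mk ((i : ℕ) + 1) (L * (iz (m + 1) s : Mr (m + 1)) * R)| <
        ∑ i : Fin m, c i * Real.log |mk ((i : ℕ) + 1) (L * (iz (m + 1) s0 : Mr (m + 1)) * R)| := by
  classical
  obtain ⟨i0, hi0⟩ : ∃ i, c i ≠ 0 := by
    by_contra h
    push Not at h
    exact hc (funext h)
  obtain ⟨L, R, hL, hR, hmk, hrho⟩ := generic_frame i0 S hS
  set M : SLn (m + 1) → Mr (m + 1) := fun s => L * (iz (m + 1) s : Mr (m + 1)) * R with hM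
  set ρ : SLn (m + 1) → ℝ := fun s => mk' i0 (M s) / mk ((i0 : ℕ) + 1) (M s) with hρ
  set Ψ : SLn (m + 1) → ℝ := fun s => ∑ i : Fin m, c i * Real.log |mk ((i : ℕ) + 1) (M s)| with hΨ
  have hi0m : (i0 : ℕ) + 1 ≤ m + 1 := by have := i0.2; omega
  obtain ⟨s0, hs0, hmax⟩ := S.exists_max_image
    (fun s => (toLex (Ψ s, c i0 * ρ s) : Lex (ℝ × ℝ))) hne
  have hcmp : ∀ s ∈ S, s ≠ s0 → Ψ s < Ψ s0 ∨ (Ψ s = Ψ s0 ∧ c i0 * ρ s < c i0 * ρ s0) := by
    intro s hs hss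
    have h1 := hmax s hs
    rw [Prod.Lex.toLex_le_toLex] at h1
    rcases h1 with h1 | ⟨h1, h2⟩
    · exact Or.inl h1
    · refine Or.inr ⟨h1, lt_of_le_of_ne h2 ?_⟩
      intro h3
      exact hrho s hs s0 hs0 hss (mul_left_cancel₀ hi0 h3)
  -- the perturbation
  have hpos : ∀ᶠ ε : ℝ in 𝓝[>] 0, ∀ s ∈ S, 0 < 1 + ε * ρ s := by
    rw [Filter.eventually_all_finset]
    intro s _
    have h1 : ContinuousAt (fun ε : ℝ => 1 + ε * ρ s) 0 := by fun_prop
    have h2 : ∀ᶠ ε : ℝ in 𝓝 0, 0 < 1 + ε * ρ s :=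
      h1.eventually (lt_mem_nhds (by simp))
    exact h2.filter_mono nhdsWithin_le_nhds
  have hcont : ∀ᶠ ε : ℝ in 𝓝[>] 0, ∀ s ∈ S, Ψ s < Ψ s0 →
      Ψ s + c i0 * Real.log (1 + ε * ρ s) < Ψ s0 + c i0 * Real.log (1 + ε * ρ s0) := by
    rw [Filter.eventually_all_finset]
    intro s _
    by_cases hlt : Ψ s < Ψ s0
    · have h1 : ∀ t : ℝ, ContinuousAt (fun ε : ℝ => Real.log (1 + ε * t)) 0 := by
        intro t
        apply ContinuousAt.log
        · fun_prop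
        · simp
      have h2 : ContinuousAt (fun ε : ℝ => Ψ s0 + c i0 * Real.log (1 + ε * ρ s0) -
          (Ψ s + c i0 * Real.log (1 + ε * ρ s))) 0 :=
        (continuousAt_const.add (continuousAt_const.mul (h1 _))).sub
          (continuousAt_const.add (continuousAt_const.mul (h1 _)))
      have h3 : ∀ᶠ ε : ℝ in 𝓝 0, 0 < Ψ s0 + c i0 * Real.log (1 + ε * ρ s0) -
          (Ψ s + c i0 * Real.log (1 + ε * ρ s)) :=
        h2.eventually (lt_mem_nhds (by simp; exact hlt))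
      filter_upwards [h3.filter_mono nhdsWithin_le_nhds] with ε hε _
      linarith
    · exact Filter.Eventually.of_forall fun ε h => absurd h hlt
  obtain ⟨ε, ⟨hε1, hε2⟩, hε0⟩ := ((hpos.and hcont).and self_mem_nhdsWithin).exists
  have hε0' : (0 : ℝ) < ε := hε0
  set T : Mr (m + 1) := transvection i0.castSucc i0.succ ε with hT
  have hci : i0.castSucc ≠ i0.succ := (Fin.castSucc_lt_succ (i := i0)).ne
  have hdT : T.det = 1 := det_transvection_of_ne _ _ hci ε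
  have hTM : ∀ s ∈ S, ∀ k, 1 ≤ k → k ≤ m + 1 → mk k (T * M s) ≠ 0 := by
    intro s hs k hk1 hk2
    by_cases hk : k = (i0 : ℕ) + 1
    · subst hk
      rw [hT, c3_mk_eq]
      have h1 := hmk s hs _ hk1 hk2
      have h2 : mk ((i0 : ℕ) + 1) (M s) + ε * mk' i0 (M s) =
          mk ((i0 : ℕ) + 1) (M s) * (1 + ε * ρ s) := by
        have h3 : mk ((i0 : ℕ) + 1) (M s) ≠ 0 := h1
        simp only [hρ]
        field_simp
      rw [h2]
      exact mul_ne_zero h1 (hε1 s hs).ne'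
    · rw [hT, c3_mk_ne _ _ _ _ hk2 hk]
      exact hmk s hs k hk1 hk2
  have hTΨ : ∀ s ∈ S, ∑ i : Fin m, c i * Real.log |mk ((i : ℕ) + 1) (T * M s)| =
      Ψ s + c i0 * Real.log (1 + ε * ρ s) := by
    intro s hs
    have h1 : ∀ i : Fin m, c i * Real.log |mk ((i : ℕ) + 1) (T * M s)| =
        c i * Real.log |mk ((i : ℕ) + 1) (M s)| +
          if i = i0 then c i0 * Real.log (1 + ε * ρ s) else 0 := by
      intro i
      by_cases hi : i = i0
      · subst hi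
        rw [if_pos rfl, hT, c3_mk_eq]
        have h3 : mk ((i : ℕ) + 1) (M s) ≠ 0 := hmk s hs _ (by omega) hi0m
        have h2 : mk ((i : ℕ) + 1) (M s) + ε * mk' i (M s) =
            mk ((i : ℕ) + 1) (M s) * (1 + ε * ρ s) := by
          simp only [hρ]
          field_simp
        rw [h2, abs_mul, Real.log_mul (abs_ne_zero.2 h3) (abs_ne_zero.2 (hε1 s hs).ne'),
          abs_of_pos (hε1 s hs)]
        ring
      · rw [if_neg hi, add_zero, hT, c3_mk_ne]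
        · have := i.2; omega
        · intro h
          exact hi (Fin.ext (by omega))
    rw [Finset.sum_congr rfl fun i _ => h1 i, Finset.sum_add_distrib]
    simp [hΨ]
  have hlt : ∀ s ∈ S, s ≠ s0 → ∑ i : Fin m, c i * Real.log |mk ((i : ℕ) + 1) (T * M s)| <
      ∑ i : Fin m, c i * Real.log |mk ((i : ℕ) + 1) (T * M s0)| := by
    intro s hs hss
    rw [hTΨ s hs, hTΨ s0 hs0]
    rcases hcmp s hs hss with h | ⟨h1, h2⟩
    · exact hε2 s hs h
    · rw [h1]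
      have h3 : c i0 * Real.log (1 + ε * ρ s) < c i0 * Real.log (1 + ε * ρ s0) := by
        rcases lt_or_gt_of_ne hi0 with hneg | hpos'
        · have h4 : ρ s0 < ρ s := by
            by_contra h5
            push Not at h5
            have := mul_le_mul_of_nonpos_left h5 hneg.le
            linarith
          apply mul_lt_mul_of_neg_left _ hneg
          apply Real.log_lt_log (hε1 s0 hs0)
          nlinarith
        · have h4 : ρ s < ρ s0 := by
            by_contra h5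
            push Not at h5
            have := mul_le_mul_of_nonneg_left h5 hpos'.le
            linarith
          apply mul_lt_mul_of_pos_left _ hpos'
          apply Real.log_lt_log (hε1 s hs)
          nlinarith
      linarith
  -- make the determinant positive
  have hTL : (T * L).det ≠ 0 := by rw [det_mul, hdT, one_mul]; exact hL
  obtain ⟨d, hd, hdpos⟩ : ∃ d : Fin (m + 1) → ℝ, (∀ i, |d i| = 1) ∧
      0 < (diagonal d * (T * L)).det := by
    rcases lt_or_gt_of_ne hTL with h | h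
    · refine ⟨fun i => if i = 0 then -1 else 1, fun i => by
        rcases eq_or_ne i 0 with hi | hi <;> simp [hi], ?_⟩
      rw [det_mul, det_diagonal, Finset.prod_ite_eq' Finset.univ (0 : Fin (m + 1)) fun _ => (-1 : ℝ)]
      simp only [Finset.mem_univ, if_true]
      linarith
    · refine ⟨fun _ => 1, fun i => by simp, ?_⟩
      rw [diagonal_one, one_mul]
      exact h
  have hassoc : ∀ s, diagonal d * (T * L) * (iz (m + 1) s : Mr (m + 1)) * R =
      diagonal d * (T * M s) := by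
    intro s
    simp only [hM, Matrix.mul_assoc]
  refine ⟨s0, hs0, diagonal d * (T * L), R, hdpos, hR, ?_, ?_⟩
  · intro s hs k hk1 hk2 h0
    rw [hassoc] at h0
    have h1 := c3_diag k d hd (T * M s)
    rw [h0, abs_zero] at h1
    exact hTM s hs k hk1 hk2 (abs_eq_zero.1 h1.symm)
  · intro s hs hss
    simp only [hassoc, c3_diag _ d hd]
    exact hlt s hs hss

private theorem c3_det_low {m : ℕ} {l : Mr (m + 1)} (hl : Low l) : l.det = 1 := by
  rw [det_of_lowerTriangular l (fun i j hij => hl.2 i j hij)]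
  exact Finset.prod_eq_one fun i _ => hl.1 i

theorem good_frame {m : ℕ} (S : Finset (SLn (m + 1))) (hne : S.Nonempty)
    (hS : ∀ s ∈ S, ∀ s' ∈ S, s ≠ s' → (s : Mt (m + 1)) ≠ -(s' : Mt (m + 1)))
    (c : Fin m → ℝ) (hc : c ≠ 0) :
    ∃ s0 ∈ S, ∃ h : SLr (m + 1),
      (∀ s ∈ S, ∀ i : Fin m,
        mk ((i : ℕ) + 1) ((h * iz (m + 1) s * (iz (m + 1) s0)⁻¹ * h⁻¹ : SLr (m + 1)) : Mr (m + 1)) ≠ 0) ∧
      ∀ s ∈ S, s ≠ s0 → ∑ i : Fin m, c i * Real.log |mk ((i : ℕ) + 1)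
        ((h * iz (m + 1) s * (iz (m + 1) s0)⁻¹ * h⁻¹ : SLr (m + 1)) : Mr (m + 1))| < 0 := by
  obtain ⟨s0, hs0, L, R, hL, hR, hmk, hlt⟩ := c3_frame S hne hS c hc
  obtain ⟨l, r, hl, hr, hlr⟩ := lu (L * (iz (m + 1) s0 : Mr (m + 1)) * R) (hmk s0 hs0)
  have hdl := c3_det_low hl
  have hlinv : l⁻¹ * l = 1 := nonsing_inv_mul l (by rw [hdl]; exact isUnit_one)
  have hlinv' : l * l⁻¹ = 1 := mul_nonsing_inv l (by rw [hdl]; exact isUnit_one)
  set γ : ℝ := (L.det) ^ (-(1 : ℝ) / ((m : ℝ) + 1)) with hγ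
  have hγ0 : 0 < γ := Real.rpow_pos_of_pos hL _
  have hdet : (γ • (l⁻¹ * L)).det = 1 := by
    rw [det_smul, det_mul, det_nonsing_inv, hdl, Ring.inverse_one, one_mul, Fintype.card_fin, hγ,
      ← Real.rpow_natCast, ← Real.rpow_mul hL.le]
    have h1 : -(1 : ℝ) / ((m : ℝ) + 1) * ((m + 1 : ℕ) : ℝ) = -1 := by
      push_cast
      field_simp
    rw [h1, Real.rpow_neg_one, inv_mul_cancel₀ hL.ne']
  set h : SLr (m + 1) := ⟨γ • (l⁻¹ * L), hdet⟩ with hh
  have hhc : (h : Mr (m + 1)) = γ • (l⁻¹ * L) := rfl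
  have key : ∀ s, l * (((h * iz (m + 1) s * (iz (m + 1) s0)⁻¹ * h⁻¹ : SLr (m + 1)) : Mr (m + 1)) * r) =
      L * (iz (m + 1) s : Mr (m + 1)) * R := by
    intro s
    set Y : SLr (m + 1) := h * iz (m + 1) s * (iz (m + 1) s0)⁻¹ * h⁻¹ with hY
    have h1 : Y * h * iz (m + 1) s0 = h * iz (m + 1) s := by
      rw [hY]
      group
    have h2 : (Y : Mr (m + 1)) * (γ • (l⁻¹ * L)) * (iz (m + 1) s0 : Mr (m + 1)) =
        (γ • (l⁻¹ * L)) * (iz (m + 1) s : Mr (m + 1)) := by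
      have h3 := congrArg (fun g : SLr (m + 1) => (g : Mr (m + 1))) h1
      rw [← hhc]
      change ((Y * h * iz (m + 1) s0 : SLr (m + 1)) : Mr (m + 1)) =
        ((h * iz (m + 1) s : SLr (m + 1)) : Mr (m + 1))
      exact h3
    have h4 : (Y : Mr (m + 1)) * (l⁻¹ * L) * (iz (m + 1) s0 : Mr (m + 1)) =
        (l⁻¹ * L) * (iz (m + 1) s : Mr (m + 1)) := by
      rw [Matrix.mul_smul, Matrix.smul_mul, Matrix.smul_mul] at h2
      exact smul_right_injective _ hγ0.ne' h2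
    have h5 : (Y : Mr (m + 1)) * r = l⁻¹ * (L * (iz (m + 1) s : Mr (m + 1)) * R) := by
      calc (Y : Mr (m + 1)) * r = (Y : Mr (m + 1)) * (l⁻¹ * (l * r)) := by
            rw [← Matrix.mul_assoc l⁻¹, hlinv, Matrix.one_mul]
        _ = (Y : Mr (m + 1)) * (l⁻¹ * L) * (iz (m + 1) s0 : Mr (m + 1)) * R := by
            rw [← hlr]
            simp only [Matrix.mul_assoc]
        _ = (l⁻¹ * L) * (iz (m + 1) s : Mr (m + 1)) * R := by rw [h4]
        _ = l⁻¹ * (L * (iz (m + 1) s : Mr (m + 1)) * R) := by simp only [Matrix.mul_assoc]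
    rw [h5, ← Matrix.mul_assoc, hlinv', Matrix.one_mul]
  have hmkr : ∀ k, k ≤ m + 1 → mk k (L * (iz (m + 1) s0 : Mr (m + 1)) * R) = mk k r := by
    intro k hk
    rw [hlr, mk_low_mul k hl r hk]
  have hmkY : ∀ s, ∀ k, k ≤ m + 1 → mk k (L * (iz (m + 1) s : Mr (m + 1)) * R) =
      mk k ((h * iz (m + 1) s * (iz (m + 1) s0)⁻¹ * h⁻¹ : SLr (m + 1)) : Mr (m + 1)) * mk k r := by
    intro s k hk
    rw [← key s, mk_low_mul k hl _ hk, mk_mul_upp k hr _ hk]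
  refine ⟨s0, hs0, h, ?_, ?_⟩
  · intro s hs i h0
    have hi : (i : ℕ) + 1 ≤ m + 1 := by have := i.2; omega
    apply hmk s hs ((i : ℕ) + 1) (by omega) hi
    rw [hmkY s _ hi, h0, zero_mul]
  · intro s hs hss
    have h1 := hlt s hs hss
    have h2 : ∀ i : Fin m, c i * Real.log |mk ((i : ℕ) + 1)
        ((h * iz (m + 1) s * (iz (m + 1) s0)⁻¹ * h⁻¹ : SLr (m + 1)) : Mr (m + 1))| =
        c i * Real.log |mk ((i : ℕ) + 1) (L * (iz (m + 1) s : Mr (m + 1)) * R)| -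
        c i * Real.log |mk ((i : ℕ) + 1) (L * (iz (m + 1) s0 : Mr (m + 1)) * R)| := by
      intro i
      have hi : (i : ℕ) + 1 ≤ m + 1 := by have := i.2; omega
      have hs1 := hmk s hs ((i : ℕ) + 1) (by omega) hi
      have hs2 := hmk s0 hs0 ((i : ℕ) + 1) (by omega) hi
      have hs1' := hs1
      rw [hmkY s _ hi] at hs1'
      rw [hmkY s _ hi, abs_mul, Real.log_mul (abs_ne_zero.2 (left_ne_zero_of_mul hs1'))
        (abs_ne_zero.2 (right_ne_zero_of_mul hs1')), hmkr _ hi]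
      ring
    rw [Finset.sum_congr rfl fun i _ => h2 i, Finset.sum_sub_distrib]
    linarith

end Pool.Agent.Lib.MP_41a456_al.TC
end
end

section

section

/-!
# MP_41a456_al, Theorem TC, F2: two dyadic sums

`sum_rpow_neg_le`: `S` a finite set, `f > 0` on `S`, `f ≤ R` on `S`, `#{s : f s ≤ ρ} ≤ A ρ^m` for
`0 < ρ ≤ R`, `β < m`; then `∑ f^{-β} ≤ C A R^{m - β}`, `C = C(m, β)`: sum over the sets
`{R 2^{-i-1} < f ≤ R 2^{-i}}`, each contributes at most `(R 2^{-i-1})^{-β} A (R 2^{-i})^m`; or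
induction.

`sum_pow_neg_le`: `l ≤ f ≤ R` on `S` and `#{s : f s ≤ ρ} ≤ A (ρ/l)^(m) + B ρ^(m+1)` for `l ≤ ρ ≤ 2 R`;
then `∑ (R / f)^m ≤ C (A (R / l)^m (1 + log (R / l)) + B R^(m+1))`, `C = C(m)`: sum over the sets
`{l 2^i ≤ f < l 2^(i+1)}`, `0 ≤ i ≤ log_2 (R / l)`: each contributes at most
`(R / (l 2^i))^m (A (2^(i+1))^m + B (l 2^(i+1))^(m+1))`.
-/

namespace Pool.Agent.Lib.MP_41a456_al.TC

private theorem F2_block (m : ℕ) (β : ℝ) (hβ0 : 0 < β) {ι : Type} (S : Finset ι) (f : ι → ℝ)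
    (A R : ℝ) (hR : 0 < R)
    (hc : ∀ ρ : ℝ, 0 < ρ → ρ ≤ R → ((S.filter fun s => f s ≤ ρ).card : ℝ) ≤ A * ρ ^ m)
    (N : ℕ) :
    ∑ s ∈ S with (R / 2 ^ (N + 1) < f s ∧ f s ≤ R / 2 ^ N), (f s) ^ (-β) ≤
      A * R ^ ((m : ℝ) - β) * 2 ^ β * ((2 : ℝ) ^ (β - m)) ^ N := by
  have h2N : (0 : ℝ) < 2 ^ N := by positivity
  have h2N1 : (0 : ℝ) < 2 ^ (N + 1) := by positivity
  have hρ : 0 < R / 2 ^ N := by positivity
  have hρ1 : 0 < R / 2 ^ (N + 1) := by positivity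
  have hρR : R / 2 ^ N ≤ R := div_le_self hR.le (one_le_pow₀ (by norm_num))
  have h1 : ∑ s ∈ S with (R / 2 ^ (N + 1) < f s ∧ f s ≤ R / 2 ^ N), (f s) ^ (-β) ≤
      ∑ s ∈ S with (R / 2 ^ (N + 1) < f s ∧ f s ≤ R / 2 ^ N), (R / 2 ^ (N + 1)) ^ (-β) := by
    refine Finset.sum_le_sum fun s hs => ?_
    have hs' := (Finset.mem_filter.1 hs).2
    exact Real.rpow_le_rpow_of_nonpos hρ1 hs'.1.le (by linarith)
  rw [Finset.sum_const, nsmul_eq_mul] at h1
  have h2 : ((S.filter fun s => R / 2 ^ (N + 1) < f s ∧ f s ≤ R / 2 ^ N).card : ℝ) ≤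
      A * (R / 2 ^ N) ^ m := by
    refine le_trans ?_ (hc _ hρ hρR)
    have hsub : (S.filter fun s => R / 2 ^ (N + 1) < f s ∧ f s ≤ R / 2 ^ N) ⊆
        (S.filter fun s => f s ≤ R / 2 ^ N) := by
      intro s hs
      rw [Finset.mem_filter] at hs ⊢
      exact ⟨hs.1, hs.2.2⟩
    exact_mod_cast Finset.card_le_card hsub
  have h3 : (0 : ℝ) ≤ (R / 2 ^ (N + 1)) ^ (-β) := Real.rpow_nonneg hρ1.le _
  refine h1.trans ((mul_le_mul_of_nonneg_right h2 h3).trans (le_of_eq ?_))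
  have e1 : (R / 2 ^ (N + 1)) ^ (-β) = R ^ (-β) * (2 ^ β * ((2 : ℝ) ^ β) ^ N) := by
    rw [Real.div_rpow hR.le h2N1.le, Real.rpow_neg h2N1.le, div_inv_eq_mul]
    congr 1
    rw [← Real.rpow_natCast (2 : ℝ) (N + 1), ← Real.rpow_natCast ((2 : ℝ) ^ β) N,
      ← Real.rpow_mul (by norm_num), ← Real.rpow_mul (by norm_num),
      ← Real.rpow_add (by norm_num)]
    congr 1
    push_cast
    ring
  have e2 : (R / 2 ^ N) ^ m = R ^ (m : ℝ) * ((2 : ℝ) ^ (-(m : ℝ))) ^ N := by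
    rw [div_pow, ← Real.rpow_natCast R m, Real.rpow_neg (by norm_num), Real.rpow_natCast (2 : ℝ) m,
      inv_pow, ← pow_mul, ← pow_mul, mul_comm N m, div_eq_mul_inv]
  have e3 : R ^ ((m : ℝ) - β) = R ^ (m : ℝ) * R ^ (-β) := by
    rw [sub_eq_add_neg, Real.rpow_add hR]
  have e4 : ((2 : ℝ) ^ (β - m)) ^ N = ((2 : ℝ) ^ β) ^ N * ((2 : ℝ) ^ (-(m : ℝ))) ^ N := by
    rw [← mul_pow, ← Real.rpow_add (by norm_num), sub_eq_add_neg]
  rw [e1, e2, e3, e4]
  ring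

private theorem F2_partial (m : ℕ) (β : ℝ) (hβ0 : 0 < β) {ι : Type} (S : Finset ι) (f : ι → ℝ)
    (A R : ℝ) (hR : 0 < R) (hf : ∀ s ∈ S, 0 < f s ∧ f s ≤ R)
    (hc : ∀ ρ : ℝ, 0 < ρ → ρ ≤ R → ((S.filter fun s => f s ≤ ρ).card : ℝ) ≤ A * ρ ^ m)
    (N : ℕ) :
    ∑ s ∈ S with (R / 2 ^ N < f s), (f s) ^ (-β) ≤
      A * R ^ ((m : ℝ) - β) * 2 ^ β * ∑ i ∈ Finset.range N, ((2 : ℝ) ^ (β - m)) ^ i := by
  classical
  induction N with
  | zero =>
    have h0 : (S.filter fun s => R / 2 ^ 0 < f s) = ∅ := by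
      rw [Finset.filter_eq_empty_iff]
      intro s hs
      have := (hf s hs).2
      simpa using this
    rw [h0]
    simp
  | succ N ih =>
    have h1 : (S.filter fun s => R / 2 ^ (N + 1) < f s) =
        (S.filter fun s => R / 2 ^ N < f s) ∪
          (S.filter fun s => R / 2 ^ (N + 1) < f s ∧ f s ≤ R / 2 ^ N) := by
      ext s
      simp only [Finset.mem_filter, Finset.mem_union]
      constructor
      · rintro ⟨h1, h2⟩
        rcases lt_or_ge (R / 2 ^ N) (f s) with h3 | h3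
        · exact Or.inl ⟨h1, h3⟩
        · exact Or.inr ⟨h1, h2, h3⟩
      · rintro (⟨h1, h2⟩ | ⟨h1, h2, _⟩)
        · refine ⟨h1, lt_of_le_of_lt ?_ h2⟩
          apply div_le_div_of_nonneg_left hR.le (by positivity)
          exact pow_le_pow_right₀ (by norm_num) (Nat.le_succ N)
        · exact ⟨h1, h2⟩
    have h2 : Disjoint (S.filter fun s => R / 2 ^ N < f s)
        (S.filter fun s => R / 2 ^ (N + 1) < f s ∧ f s ≤ R / 2 ^ N) := by
      rw [Finset.disjoint_left]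
      intro s hs hs'
      have a1 := (Finset.mem_filter.1 hs).2
      have a2 := (Finset.mem_filter.1 hs').2.2
      linarith
    rw [h1, Finset.sum_union h2, Finset.sum_range_succ, mul_add]
    exact add_le_add ih (F2_block m β hβ0 S f A R hR hc N)

theorem sum_rpow_neg_le (m : ℕ) (β : ℝ) (hβ0 : 0 < β) (hβ : β < m) : ∃ C : ℝ, 0 < C ∧
    ∀ {ι : Type} (S : Finset ι) (f : ι → ℝ) (A R : ℝ), 0 ≤ A → 0 < R →
      (∀ s ∈ S, 0 < f s ∧ f s ≤ R) →
      (∀ ρ : ℝ, 0 < ρ → ρ ≤ R → ((S.filter fun s => f s ≤ ρ).card : ℝ) ≤ A * ρ ^ m) →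
      ∑ s ∈ S, (f s) ^ (-β) ≤ C * A * R ^ ((m : ℝ) - β) := by
  have hq0 : (0 : ℝ) < (2 : ℝ) ^ (β - m) := Real.rpow_pos_of_pos (by norm_num) _
  have hq1 : (2 : ℝ) ^ (β - m) < 1 := Real.rpow_lt_one_of_one_lt_of_neg (by norm_num) (by linarith)
  have h2β : (0 : ℝ) < 2 ^ β := Real.rpow_pos_of_pos (by norm_num) _
  refine ⟨2 ^ β / (1 - (2 : ℝ) ^ (β - m)), div_pos h2β (by linarith), ?_⟩
  intro ι S f A R hA hR hf hc
  classical
  -- a level below all values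
  have hN : ∃ N : ℕ, ∀ s ∈ S, R / 2 ^ N < f s := by
    have h1 : ∀ s : ι, ∃ N : ℕ, s ∈ S → ∀ M : ℕ, N ≤ M → R / 2 ^ M < f s := by
      intro s
      by_cases hs : s ∈ S
      · have hfs := (hf s hs).1
        obtain ⟨N, hN⟩ := pow_unbounded_of_one_lt (R / f s) (by norm_num : (1 : ℝ) < 2)
        refine ⟨N, fun _ M hM => ?_⟩
        have h2M : (0 : ℝ) < 2 ^ M := by positivity
        rw [div_lt_iff₀ h2M]
        have h3 : R / f s < 2 ^ M := lt_of_lt_of_le hN (pow_le_pow_right₀ (by norm_num) hM)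
        rw [div_lt_iff₀ hfs] at h3
        linarith
      · exact ⟨0, fun h => absurd h hs⟩
    choose g hg using h1
    exact ⟨S.sup g, fun s hs => hg s hs _ (Finset.le_sup hs)⟩
  obtain ⟨N, hN⟩ := hN
  have h1 := F2_partial m β hβ0 S f A R hR hf hc N
  rw [Finset.filter_true_of_mem hN] at h1
  have h2 : ∑ i ∈ Finset.range N, ((2 : ℝ) ^ (β - m)) ^ i ≤ 1 / (1 - (2 : ℝ) ^ (β - m)) := by
    rw [le_div_iff₀ (by linarith), geom_sum_mul_neg]
    have := pow_pos hq0 N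
    linarith
  have h3 : 0 ≤ A * R ^ ((m : ℝ) - β) * 2 ^ β :=
    mul_nonneg (mul_nonneg hA (Real.rpow_nonneg hR.le _)) h2β.le
  refine h1.trans ((mul_le_mul_of_nonneg_left h2 h3).trans (le_of_eq ?_))
  ring

private theorem F2_block2 (m : ℕ) {ι : Type} (S : Finset ι) (f : ι → ℝ)
    (A B l R : ℝ) (hl : 0 < l) (hlR : l ≤ R)
    (hc : ∀ ρ : ℝ, l ≤ ρ → ρ ≤ 2 * R →
        ((S.filter fun s => f s ≤ ρ).card : ℝ) ≤ A * (ρ / l) ^ m + B * ρ ^ (m + 1))
    (N : ℕ) (hN : l * 2 ^ N ≤ R) :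
    ∑ s ∈ S with (l * 2 ^ N ≤ f s ∧ f s < l * 2 ^ (N + 1)), (R / f s) ^ m ≤
      A * (R / l) ^ m * 2 ^ m + B * R ^ m * l * 2 ^ (m + 1) * 2 ^ N := by
  have hR : 0 < R := lt_of_lt_of_le hl hlR
  have h2N : (0 : ℝ) < 2 ^ N := by positivity
  have h1N : (1 : ℝ) ≤ 2 ^ N := one_le_pow₀ (by norm_num)
  have hlN : 0 < l * 2 ^ N := by positivity
  have h1 : ∑ s ∈ S with (l * 2 ^ N ≤ f s ∧ f s < l * 2 ^ (N + 1)), (R / f s) ^ m ≤
      ∑ s ∈ S with (l * 2 ^ N ≤ f s ∧ f s < l * 2 ^ (N + 1)), (R / (l * 2 ^ N)) ^ m := by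
    refine Finset.sum_le_sum fun s hs => ?_
    have hs' := (Finset.mem_filter.1 hs).2
    have h0 : 0 < f s := lt_of_lt_of_le hlN hs'.1
    exact pow_le_pow_left₀ (by positivity) (div_le_div_of_nonneg_left hR.le hlN hs'.1) m
  rw [Finset.sum_const, nsmul_eq_mul] at h1
  have h2 : ((S.filter fun s => l * 2 ^ N ≤ f s ∧ f s < l * 2 ^ (N + 1)).card : ℝ) ≤
      A * (l * 2 ^ (N + 1) / l) ^ m + B * (l * 2 ^ (N + 1)) ^ (m + 1) := by
    refine le_trans ?_ (hc (l * 2 ^ (N + 1)) ?_ ?_)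
    · have hsub : (S.filter fun s => l * 2 ^ N ≤ f s ∧ f s < l * 2 ^ (N + 1)) ⊆
          (S.filter fun s => f s ≤ l * 2 ^ (N + 1)) := by
        intro s hs
        rw [Finset.mem_filter] at hs ⊢
        exact ⟨hs.1, hs.2.2.le⟩
      exact_mod_cast Finset.card_le_card hsub
    · have h3 : (1 : ℝ) ≤ 2 ^ (N + 1) := one_le_pow₀ (by norm_num)
      nlinarith
    · rw [pow_succ]
      linarith
  have h3 : (0 : ℝ) ≤ (R / (l * 2 ^ N)) ^ m := by positivity
  refine h1.trans ((mul_le_mul_of_nonneg_right h2 h3).trans (le_of_eq ?_))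
  have hl0 : l ≠ 0 := hl.ne'
  have h20 : (2 : ℝ) ^ N ≠ 0 := h2N.ne'
  have e1 : l * 2 ^ (N + 1) / l = 2 * 2 ^ N := by
    field_simp
    ring
  have e2 : (R / (l * 2 ^ N)) ^ m * (2 * 2 ^ N) ^ m = (R / l) ^ m * 2 ^ m := by
    rw [← mul_pow, ← mul_pow]
    congr 1
    field_simp
  have e3 : (l * 2 ^ (N + 1)) ^ (m + 1) * (R / (l * 2 ^ N)) ^ m =
      R ^ m * l * 2 ^ (m + 1) * 2 ^ N := by
    have e4 : (l * 2 ^ (N + 1)) ^ (m + 1) = (l * 2 ^ N) ^ m * (l * 2 ^ N) * 2 ^ (m + 1) := by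
      rw [← pow_succ, ← mul_pow, pow_succ (2 : ℝ) N, mul_assoc]
    rw [e4, div_pow]
    have h4 : (l * 2 ^ N) ^ m ≠ 0 := by positivity
    field_simp
  rw [e1, add_mul, mul_assoc A, mul_comm ((2 * 2 ^ N : ℝ) ^ m), e2, mul_assoc B, e3]
  ring

private theorem F2_partial2 (m : ℕ) {ι : Type} (S : Finset ι) (f : ι → ℝ)
    (A B l R : ℝ) (hl : 0 < l) (hlR : l ≤ R)
    (hf : ∀ s ∈ S, l ≤ f s ∧ f s ≤ R)
    (hc : ∀ ρ : ℝ, l ≤ ρ → ρ ≤ 2 * R →
        ((S.filter fun s => f s ≤ ρ).card : ℝ) ≤ A * (ρ / l) ^ m + B * ρ ^ (m + 1))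
    (K : ℕ) (hK : l * 2 ^ K ≤ R) (N : ℕ) (hN : N ≤ K + 1) :
    ∑ s ∈ S with (f s < l * 2 ^ N), (R / f s) ^ m ≤
      N * (A * (R / l) ^ m * 2 ^ m) + B * R ^ m * l * 2 ^ (m + 1) * (2 ^ N - 1) := by
  classical
  induction N with
  | zero =>
    have h0 : (S.filter fun s => f s < l * 2 ^ 0) = ∅ := by
      rw [Finset.filter_eq_empty_iff]
      intro s hs
      have := (hf s hs).1
      simpa using this
    rw [h0]
    simp
  | succ N ih =>
    have ih' := ih (by omega)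
    have hNK : l * 2 ^ N ≤ R :=
      (mul_le_mul_of_nonneg_left (pow_le_pow_right₀ (by norm_num) (by omega)) hl.le).trans hK
    have h1 : (S.filter fun s => f s < l * 2 ^ (N + 1)) =
        (S.filter fun s => f s < l * 2 ^ N) ∪
          (S.filter fun s => l * 2 ^ N ≤ f s ∧ f s < l * 2 ^ (N + 1)) := by
      ext s
      simp only [Finset.mem_filter, Finset.mem_union]
      constructor
      · rintro ⟨h1, h2⟩
        rcases lt_or_ge (f s) (l * 2 ^ N) with h3 | h3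
        · exact Or.inl ⟨h1, h3⟩
        · exact Or.inr ⟨h1, h3, h2⟩
      · rintro (⟨h1, h2⟩ | ⟨h1, _, h2⟩)
        · refine ⟨h1, lt_of_lt_of_le h2 ?_⟩
          exact mul_le_mul_of_nonneg_left (pow_le_pow_right₀ (by norm_num) (Nat.le_succ N)) hl.le
        · exact ⟨h1, h2⟩
    have h2 : Disjoint (S.filter fun s => f s < l * 2 ^ N)
        (S.filter fun s => l * 2 ^ N ≤ f s ∧ f s < l * 2 ^ (N + 1)) := by
      rw [Finset.disjoint_left]
      intro s hs hs'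
      have a1 := (Finset.mem_filter.1 hs).2
      have a2 := (Finset.mem_filter.1 hs').2.1
      linarith
    rw [h1, Finset.sum_union h2]
    refine (add_le_add ih' (F2_block2 m S f A B l R hl hlR hc N hNK)).trans (le_of_eq ?_)
    push_cast
    ring

theorem sum_pow_neg_le (m : ℕ) : ∃ C : ℝ, 0 < C ∧
    ∀ {ι : Type} (S : Finset ι) (f : ι → ℝ) (A B l R : ℝ), 0 ≤ A → 0 ≤ B → 0 < l → l ≤ R →
      (∀ s ∈ S, l ≤ f s ∧ f s ≤ R) →
      (∀ ρ : ℝ, l ≤ ρ → ρ ≤ 2 * R →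
        ((S.filter fun s => f s ≤ ρ).card : ℝ) ≤ A * (ρ / l) ^ m + B * ρ ^ (m + 1)) →
      ∑ s ∈ S, (R / f s) ^ m ≤
        C * (A * (R / l) ^ m * (1 + Real.log (R / l)) + B * R ^ (m + 1)) := by
  refine ⟨2 ^ (m + 2), by positivity, ?_⟩
  intro ι S f A B l R hA hB hl hlR hf hc
  classical
  have hR : 0 < R := lt_of_lt_of_le hl hlR
  obtain ⟨K, hK1, hK2⟩ := exists_nat_pow_near ((one_le_div hl).2 hlR) (by norm_num : (1 : ℝ) < 2)
  have hK : l * 2 ^ K ≤ R := by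
    rw [le_div_iff₀ hl] at hK1
    linarith
  have hK' : R < l * 2 ^ (K + 1) := by
    rw [div_lt_iff₀ hl] at hK2
    linarith
  have h1 := F2_partial2 m S f A B l R hl hlR hf hc K hK (K + 1) le_rfl
  have hall : ∀ s ∈ S, f s < l * 2 ^ (K + 1) := fun s hs => lt_of_le_of_lt (hf s hs).2 hK'
  rw [Finset.filter_true_of_mem hall] at h1
  have hlog : (K : ℝ) * Real.log 2 ≤ Real.log (R / l) := by
    rw [← Real.log_pow]
    exact Real.log_le_log (by positivity) hK1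
  have hlog2 : (1 / 2 : ℝ) ≤ Real.log 2 := by
    have := Real.log_two_gt_d9
    linarith
  have hK0 : (0 : ℝ) ≤ K := Nat.cast_nonneg K
  have h2 : ((K + 1 : ℕ) : ℝ) ≤ 2 * (1 + Real.log (R / l)) := by
    push_cast
    nlinarith
  have h3 : 0 ≤ A * (R / l) ^ m * 2 ^ m := by positivity
  have h4 : 0 ≤ B * R ^ m * 2 ^ (m + 1) := by positivity
  have h5 : l * ((2 : ℝ) ^ (K + 1) - 1) ≤ 2 * R := by
    rw [pow_succ]
    linarith
  have h6 := mul_le_mul_of_nonneg_right h2 h3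
  have h7 := mul_le_mul_of_nonneg_left h5 h4
  have h8 : 0 ≤ A * (R / l) ^ m * (1 + Real.log (R / l)) * 2 ^ m := by
    have : 0 ≤ Real.log (R / l) := Real.log_nonneg ((one_le_div hl).2 hlR)
    positivity
  calc ∑ s ∈ S, (R / f s) ^ m ≤ _ := h1
    _ = ((K + 1 : ℕ) : ℝ) * (A * (R / l) ^ m * 2 ^ m) +
        B * R ^ m * 2 ^ (m + 1) * (l * (2 ^ (K + 1) - 1)) := by ring
    _ ≤ 2 * (1 + Real.log (R / l)) * (A * (R / l) ^ m * 2 ^ m) +
        B * R ^ m * 2 ^ (m + 1) * (2 * R) := add_le_add h6 h7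
    _ ≤ _ := by
        rw [pow_succ (2 : ℝ) (m + 1), pow_succ (2 : ℝ) m, pow_succ R m]
        nlinarith

end Pool.Agent.Lib.MP_41a456_al.TC
end

section

/-!
# MP_41a456_al, Theorem TC, F4: the Margulis inequality, the sum for one vector (paper 521, section 6)

`P = {0, …, Λ - 1}^m`, `n = m + 1`, `β = (3 n - 2) / 4 < m`, `α = lam ^ (-β)`,
`wp w p = W u(p/Λ)⁻¹ w = (Λ^{-m/n} w_0, Λ^{1/n} (w_j - w_0 p_j / Λ))`.
-/

namespace Pool.Agent.Lib.MP_41a456_al.TC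

open Matrix MeasureTheory Filter Topology Pool.Agent.Lib.MP_41a456_al

private theorem F4_pos {m : ℕ} {Λ : ℕ} (hΛ : 1 ≤ Λ) (p : Fin m → Fin Λ) (w : Fin (m + 1) → ℝ)
    (hw : w ≠ 0) : 0 < ‖wp Λ p w‖ := by
  have h1 := norm_le_of_wp hΛ p w
  have h2 : 0 < ‖w‖ := norm_pos_iff.2 hw
  rcases (norm_nonneg (wp Λ p w)).eq_or_lt with h | h
  · rw [← h, mul_zero] at h1
    linarith
  · exact h

/-- `∑_{p : ‖w_p‖ ≤ ρ} ‖w_p‖^{-β} ≤ C ρ^{-β} (Λ^{m/n} ρ / ‖w‖)^m` (`sum_rpow_neg_le`). -/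
theorem sum_wp_le {m : ℕ} (hm : 2 ≤ m) : ∃ C : ℝ, 0 < C ∧ ∀ (Λ : ℕ), 1 ≤ Λ →
    ∀ (w : Fin (m + 1) → ℝ), w ≠ 0 → ∀ ρ : ℝ, 0 < ρ →
    ∑ p ∈ (Finset.univ : Finset (Fin m → Fin Λ)).filter fun p => ‖wp Λ p w‖ ≤ ρ,
      ‖wp Λ p w‖ ^ (-(bet (m + 1))) ≤
      C * ρ ^ (-(bet (m + 1))) * ((Λ : ℝ) ^ ((m : ℝ) / (m + 1)) * ρ / ‖w‖) ^ m := by
  have hm' : (2 : ℝ) ≤ m := by exact_mod_cast hm
  have hb0 : 0 < bet (m + 1) := A5.bet_pos (Nat.succ_pos m)
  have hb1 : bet (m + 1) < m := by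
    unfold bet
    push_cast
    linarith
  obtain ⟨C, hC, h⟩ := sum_rpow_neg_le m (bet (m + 1)) hb0 hb1
  refine ⟨C * 6 ^ m, by positivity, fun Λ hΛ w hw ρ hρ => ?_⟩
  have hwn : 0 < ‖w‖ := norm_pos_iff.2 hw
  have hΛ0 : (0 : ℝ) < Λ := by exact_mod_cast hΛ
  have hL : 0 < (Λ : ℝ) ^ ((m : ℝ) / (m + 1)) := Real.rpow_pos_of_pos hΛ0 _
  have h1 := h ((Finset.univ : Finset (Fin m → Fin Λ)).filter fun p => ‖wp Λ p w‖ ≤ ρ)
    (fun p => ‖wp Λ p w‖) ((6 * (Λ : ℝ) ^ ((m : ℝ) / (m + 1)) / ‖w‖) ^ m) ρ (by positivity) hρ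
    (fun p hp => ⟨F4_pos hΛ p w hw, (Finset.mem_filter.1 hp).2⟩) (fun ρ' hρ' _ => by
      have h2 := card_wp_le hΛ w hw ρ' hρ'
      have h3 : ((((Finset.univ : Finset (Fin m → Fin Λ)).filter fun p => ‖wp Λ p w‖ ≤ ρ).filter
          fun p => ‖wp Λ p w‖ ≤ ρ').card : ℝ) ≤
          (((Finset.univ : Finset (Fin m → Fin Λ)).filter fun p => ‖wp Λ p w‖ ≤ ρ').card : ℝ) := by
        exact_mod_cast Finset.card_le_card (Finset.filter_subset_filter _ (Finset.filter_subset _ _))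
      refine h3.trans (h2.trans (le_of_eq ?_))
      rw [← mul_pow]
      congr 1
      ring)
  refine h1.trans (le_of_eq ?_)
  have e1 : ρ ^ ((m : ℝ) - bet (m + 1)) = ρ ^ m * ρ ^ (-(bet (m + 1))) := by
    rw [sub_eq_add_neg, Real.rpow_add hρ, Real.rpow_natCast]
  rw [e1]
  have e2 : (6 * (Λ : ℝ) ^ ((m : ℝ) / (m + 1)) / ‖w‖) ^ m * ρ ^ m =
      6 ^ m * ((Λ : ℝ) ^ ((m : ℝ) / (m + 1)) * ρ / ‖w‖) ^ m := by
    rw [← mul_pow, ← mul_pow]
    congr 1
    ring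
  calc C * (6 * (Λ : ℝ) ^ ((m : ℝ) / (m + 1)) / ‖w‖) ^ m * (ρ ^ m * ρ ^ (-(bet (m + 1)))) =
      C * ρ ^ (-(bet (m + 1))) * ((6 * (Λ : ℝ) ^ ((m : ℝ) / (m + 1)) / ‖w‖) ^ m * ρ ^ m) := by ring
    _ = _ := by
      rw [e2]
      ring

/-- `α(W u(p/Λ)⁻¹ y) ≤ ρ^{-β} + ∑ ‖w_p‖^{-β}` over the nonzero lattice vectors with
`‖w_p‖ ≤ ρ`; all these vectors satisfy `‖w‖ ≤ 2 Λ^{m/n} ρ`. -/
theorem alf_step_le {m : ℕ} {Λ : ℕ} (hΛ : 1 ≤ Λ) (p : Fin m → Fin Λ) (y : X (m + 1)) {ρ : ℝ}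
    (hρ : 0 < ρ) (S : Finset (Fin (m + 1) → ℝ))
    (hS : ∀ w, w ∈ S ↔ w ∈ vecs y ∧ w ≠ 0 ∧ ‖w‖ ≤ 2 * (Λ : ℝ) ^ ((m : ℝ) / (m + 1)) * ρ) :
    alf ((W Λ (0 : Fin (m + 1)) * (up Λ p)⁻¹) • y) ≤ ρ ^ (-(bet (m + 1))) +
      ∑ w ∈ S.filter fun w => ‖wp Λ p w‖ ≤ ρ, ‖wp Λ p w‖ ^ (-(bet (m + 1))) := by
  have hn : 0 < m + 1 := Nat.succ_pos m
  have hb0 : 0 < bet (m + 1) := A5.bet_pos hn
  obtain ⟨w', hw', h0, hlam⟩ := lam_attained hn ((W Λ (0 : Fin (m + 1)) * (up Λ p)⁻¹) • y)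
  rw [vecs_smul] at hw'
  obtain ⟨w, hw, hww⟩ := hw'
  have hww' : wp Λ p w = w' := hww
  have hw0 : w ≠ 0 := by
    rintro rfl
    apply h0
    rw [← hww', wp, Matrix.mulVec_zero]
  have hsum : 0 ≤ ∑ w ∈ S.filter fun w => ‖wp Λ p w‖ ≤ ρ, ‖wp Λ p w‖ ^ (-(bet (m + 1))) :=
    Finset.sum_nonneg fun w _ => Real.rpow_nonneg (norm_nonneg _) _
  have hρn : 0 ≤ ρ ^ (-(bet (m + 1))) := Real.rpow_nonneg hρ.le _
  unfold alf
  rw [← hlam, ← hww']
  rcases le_or_gt ‖wp Λ p w‖ ρ with h | h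
  · have hL : (0 : ℝ) ≤ 2 * (Λ : ℝ) ^ ((m : ℝ) / (m + 1)) := by positivity
    have hmem : w ∈ S.filter fun w => ‖wp Λ p w‖ ≤ ρ := by
      rw [Finset.mem_filter]
      refine ⟨(hS w).2 ⟨hw, hw0, ?_⟩, h⟩
      exact (norm_le_of_wp hΛ p w).trans (mul_le_mul_of_nonneg_left h hL)
    have h1 := Finset.single_le_sum (f := fun w => ‖wp Λ p w‖ ^ (-(bet (m + 1))))
      (fun w _ => Real.rpow_nonneg (norm_nonneg _) _) hmem
    linarith
  · have h1 : ‖wp Λ p w‖ ^ (-(bet (m + 1))) ≤ ρ ^ (-(bet (m + 1))) :=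
      Real.rpow_le_rpow_of_nonpos hρ h.le (by linarith)
    linarith

end Pool.Agent.Lib.MP_41a456_al.TC
end

section

/-!
# MP_41a456_al, Theorem TC, F1c: number of lattice vectors in a ball (paper (6.2))

`y = pt g`, `B = g γ` from `red_basis`, `vecs y = B ℤ^n`. If `‖B v‖ ≤ ρ` then
`|v_i| ≤ C ρ / ‖B e_i‖`, so the number of these `v` is at most `∏ (2 C ρ / ‖B e_i‖ + 1)`. If all
`‖B e_i‖ ≤ C ρ` then each factor is `≤ 3 C ρ / ‖B e_i‖` and `prod_cols_ge` gives `≤ C' ρ^n`. If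
`‖B e_i‖ > C ρ` for some `i` then `v_i = 0` and the other factors are
`≤ 2 C ρ / lam + 1 ≤ (2 C + 1) ρ / lam` (if `ρ ≥ lam`; for `ρ < lam` the set is empty).
-/

namespace Pool.Agent.Lib.MP_41a456_al.TC

open Matrix MeasureTheory Filter Topology Pool.Agent.Lib.MP_41a456_al

/-- number of integral vectors in a box -/
private theorem card_box {n : ℕ} (K : Fin n → ℤ) (hK : ∀ i, 0 ≤ K i) :
    ((Fintype.piFinset fun i => Finset.Icc (-K i) (K i)).card : ℝ) = ∏ i, (2 * (K i : ℝ) + 1) := by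
  rw [Fintype.card_piFinset]
  push_cast
  refine Finset.prod_congr rfl fun i _ => ?_
  rw [Int.card_Icc]
  have h1 : ((K i + 1 - -K i).toNat : ℤ) = 2 * K i + 1 := by
    rw [Int.toNat_of_nonneg (by have := hK i; omega)]
    ring
  have h2 : (((K i + 1 - -K i).toNat : ℤ) : ℝ) = ((2 * K i + 1 : ℤ) : ℝ) := by rw [h1]
  push_cast at h2
  exact h2

theorem count_vecs (n : ℕ) (hn : 0 < n) : ∃ C : ℝ, 1 ≤ C ∧ ∀ (y : X n) (ρ : ℝ), 0 < ρ →
    (({w | w ∈ vecs y ∧ w ≠ 0 ∧ ‖w‖ ≤ ρ} : Set (Fin n → ℝ)).ncard : ℝ) ≤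
      C * ((ρ / lam y) ^ (n - 1) + ρ ^ n) := by
  obtain ⟨C0, hC0, hred⟩ := red_basis n
  have h3 : (1 : ℝ) ≤ 3 * C0 := by linarith
  have hf1 : (1 : ℝ) ≤ (n.factorial : ℝ) := by exact_mod_cast Nat.factorial_pos n
  have hp1 : (1 : ℝ) ≤ (3 * C0) ^ n := one_le_pow₀ h3
  refine ⟨(3 * C0) ^ n * n.factorial, by nlinarith, fun y ρ hρ => ?_⟩
  have hlam := lam_pos hn y
  have hRHS1 : 0 ≤ (ρ / lam y) ^ (n - 1) := by positivity
  have hRHS2 : 0 ≤ ρ ^ n := by positivity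
  rcases lt_or_ge ρ (lam y) with hlt | hge
  · have h0 : ({w | w ∈ vecs y ∧ w ≠ 0 ∧ ‖w‖ ≤ ρ} : Set (Fin n → ℝ)) = ∅ := by
      ext w
      simp only [Set.mem_setOf_eq, Set.mem_empty_iff_false, iff_false]
      rintro ⟨h1, h2, h4⟩
      exact absurd (lam_le h1 h2) (by linarith)
    rw [h0, Set.ncard_empty, Nat.cast_zero]
    positivity
  obtain ⟨g, rfl⟩ := pt_surjective y
  obtain ⟨γ, hγ⟩ := hred g
  set B : SLr n := g * iz n γ with hB
  have hpt : pt g = pt B := by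
    refine (QuotientGroup.eq (s := Gam n)).2 ?_
    rw [hB, inv_mul_cancel_left]
    exact ⟨γ, rfl⟩
  rw [hpt] at hge hlam ⊢
  set a : Fin n → ℝ := fun i => ‖(B : Mr n) *ᵥ Pi.single i 1‖ with ha
  have hmem : ∀ i, (B : Mr n) *ᵥ Pi.single i 1 ∈ vecs (pt B) := by
    intro i
    rw [vecs_pt]
    refine ⟨Pi.single i 1, ?_⟩
    congr 1
    funext j
    by_cases hj : j = i
    · rw [hj, Pi.single_eq_same, Pi.single_eq_same, Int.cast_one]
    · rw [Pi.single_eq_of_ne hj, Pi.single_eq_of_ne hj, Int.cast_zero]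
  have hB1 : ((B⁻¹ : SLr n) : Mr n) * (B : Mr n) = 1 :=
    congrArg Subtype.val (inv_mul_cancel B)
  have hne : ∀ i, (B : Mr n) *ᵥ Pi.single i 1 ≠ 0 := by
    intro i h0
    have h1 : ((B⁻¹ : SLr n) : Mr n) *ᵥ ((B : Mr n) *ᵥ Pi.single i 1) = Pi.single i 1 := by
      rw [mulVec_mulVec, hB1, one_mulVec]
    rw [h0, mulVec_zero] at h1
    have := congrFun h1 i
    simp at this
  have hla : ∀ i, lam (pt B) ≤ a i := fun i => lam_le (hmem i) (hne i)
  have hapos : ∀ i, 0 < a i := fun i => hlam.trans_le (hla i)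
  set K : Fin n → ℤ := fun i => ⌊C0 * ρ / a i⌋ with hK
  have hK0 : ∀ i, 0 ≤ K i := fun i => Int.floor_nonneg.2 (by have := hapos i; positivity)
  have hsub : ({w | w ∈ vecs (pt B) ∧ w ≠ 0 ∧ ‖w‖ ≤ ρ} : Set (Fin n → ℝ)) ⊆
      (fun v : Fin n → ℤ => (B : Mr n) *ᵥ fun i => (v i : ℝ)) ''
        ((Fintype.piFinset fun i => Finset.Icc (-K i) (K i) : Finset (Fin n → ℤ)) :
          Set (Fin n → ℤ)) := by
    rintro w ⟨hw, _, hwr⟩
    rw [vecs_pt] at hw
    obtain ⟨v, rfl⟩ := hw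
    refine ⟨v, ?_, rfl⟩
    rw [Finset.mem_coe, Fintype.mem_piFinset]
    intro i
    have h1 := hγ (fun i => (v i : ℝ)) i
    have h2 : |(v i : ℝ)| * a i ≤ C0 * ρ :=
      h1.trans (mul_le_mul_of_nonneg_left hwr (by linarith))
    have h4 : |(v i : ℝ)| ≤ C0 * ρ / a i := (le_div_iff₀ (hapos i)).2 h2
    have h5 : |v i| ≤ K i := by
      rw [hK]
      refine Int.le_floor.2 ?_
      rw [Int.cast_abs]
      exact h4
    rw [Finset.mem_Icc]
    exact abs_le.1 h5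
  have hcard : (({w | w ∈ vecs (pt B) ∧ w ≠ 0 ∧ ‖w‖ ≤ ρ} : Set (Fin n → ℝ)).ncard : ℝ) ≤
      ∏ i, (2 * (K i : ℝ) + 1) := by
    rw [← card_box K hK0]
    have h1 := Set.ncard_le_ncard hsub (Set.toFinite _)
    have h2 := Set.ncard_image_le (s := ((Fintype.piFinset fun i => Finset.Icc (-K i) (K i) :
      Finset (Fin n → ℤ)) : Set (Fin n → ℤ)))
      (f := fun v : Fin n → ℤ => (B : Mr n) *ᵥ fun i => (v i : ℝ)) (Set.toFinite _)
    rw [Set.ncard_coe_finset] at h2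
    exact_mod_cast h1.trans h2
  refine hcard.trans ?_
  have hfac0 : ∀ i, 0 ≤ 2 * (K i : ℝ) + 1 := fun i => by
    have : (0 : ℝ) ≤ (K i : ℝ) := by exact_mod_cast hK0 i
    linarith
  have hKle : ∀ i, (K i : ℝ) ≤ C0 * ρ / a i := fun i => Int.floor_le _
  by_cases hall : ∀ i, a i ≤ C0 * ρ
  · have h1 : ∏ i, (2 * (K i : ℝ) + 1) ≤ ∏ i, (3 * C0 * ρ / a i) := by
      refine Finset.prod_le_prod (fun i _ => hfac0 i) fun i _ => ?_
      have h2 : 1 ≤ C0 * ρ / a i := (one_le_div (hapos i)).2 (hall i)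
      have h4 : 3 * C0 * ρ / a i = 3 * (C0 * ρ / a i) := by ring
      rw [h4]
      linarith [hKle i]
    refine h1.trans ?_
    rw [Finset.prod_div_distrib, Finset.prod_const, Finset.card_univ, Fintype.card_fin]
    have hP : 0 < ∏ i, a i := Finset.prod_pos fun i _ => hapos i
    have h2 := prod_cols_ge n B
    rw [div_le_iff₀ hP, mul_pow]
    have h5 : 0 ≤ (3 * C0) ^ n * ρ ^ n := by positivity
    have h6 : 0 ≤ (3 * C0) ^ n * (ρ / lam (pt B)) ^ (n - 1) * (n.factorial * ∏ i, a i) := by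
      positivity
    nlinarith [mul_le_mul_of_nonneg_left h2 h5]
  · push Not at hall
    obtain ⟨k, hk⟩ := hall
    have hKk : K k = 0 := by
      rw [hK]
      refine Int.floor_eq_zero_iff.2 ⟨by have := hapos k; positivity, ?_⟩
      rwa [div_lt_one (hapos k)]
    have h1 : ∏ i, (2 * (K i : ℝ) + 1) = ∏ i ∈ Finset.univ.erase k, (2 * (K i : ℝ) + 1) := by
      rw [← Finset.mul_prod_erase _ _ (Finset.mem_univ k), hKk]
      simp
    rw [h1]
    have hr1 : 1 ≤ ρ / lam (pt B) := (one_le_div hlam).2 hge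
    have h2 : ∏ i ∈ Finset.univ.erase k, (2 * (K i : ℝ) + 1) ≤
        ∏ _i ∈ Finset.univ.erase k, (3 * C0 * (ρ / lam (pt B))) := by
      refine Finset.prod_le_prod (fun i _ => hfac0 i) fun i _ => ?_
      have h4 : C0 * ρ / a i ≤ C0 * (ρ / lam (pt B)) := by
        rw [← mul_div_assoc]
        exact div_le_div_of_nonneg_left (by positivity) hlam (hla i)
      nlinarith [hKle i]
    refine h2.trans ?_
    rw [Finset.prod_const, Finset.card_erase_of_mem (Finset.mem_univ k), Finset.card_univ,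
      Fintype.card_fin, mul_pow]
    have h5 : (3 * C0) ^ (n - 1) ≤ (3 * C0) ^ n := pow_le_pow_right₀ h3 (Nat.sub_le _ _)
    have h6 : (3 * C0) ^ n ≤ (3 * C0) ^ n * n.factorial :=
      le_mul_of_one_le_right (by positivity) hf1
    have h7 := mul_le_mul_of_nonneg_right (h5.trans h6) hRHS1
    rw [hpt] at h7
    have h8 : 0 ≤ (3 * C0) ^ n * n.factorial * ρ ^ n := by positivity
    linarith

end Pool.Agent.Lib.MP_41a456_al.TC
end

section

/-!
# MP_41a456_al, Theorem TC, F5: the Margulis inequality, the sum over the lattice (paper 521, section 6)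

`P = {0, …, Λ - 1}^m`, `n = m + 1`, `β = (3 n - 2) / 4 < m`, `α = lam ^ (-β)`,
`wp w p = W u(p/Λ)⁻¹ w = (Λ^{-m/n} w_0, Λ^{1/n} (w_j - w_0 p_j / Λ))`.
-/

namespace Pool.Agent.Lib.MP_41a456_al.TC

open Matrix MeasureTheory Filter Topology Pool.Agent.Lib.MP_41a456_al

/-- `∑ (2 Λ lam / ‖w‖)^m` over the nonzero lattice vectors with `‖w‖ ≤ 2 Λ lam` is at most
`C Λ^m (1 + log Λ + Λ lam^n)` (`sum_pow_neg_le`, `count_vecs`). -/
theorem sum_lattice_le {m : ℕ} : ∃ C : ℝ, 0 < C ∧ ∀ (Λ : ℕ), 1 ≤ Λ → ∀ (y : X (m + 1))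
    (S : Finset (Fin (m + 1) → ℝ)),
    (∀ w, w ∈ S ↔ w ∈ vecs y ∧ w ≠ 0 ∧ ‖w‖ ≤ 2 * (Λ : ℝ) * lam y) →
    ∑ w ∈ S, (2 * (Λ : ℝ) * lam y / ‖w‖) ^ m ≤
      C * (Λ : ℝ) ^ m * (1 + Real.log Λ + Λ * lam y ^ (m + 1)) := by
  obtain ⟨C₁, hC₁, h1⟩ := sum_pow_neg_le m
  obtain ⟨C₂, hC₂, h2⟩ := count_vecs (m + 1) (Nat.succ_pos m)
  refine ⟨C₁ * C₂ * 2 ^ (m + 1), by positivity, ?_⟩
  intro Λ hΛ y S hS
  have hl : 0 < lam y := lam_pos (Nat.succ_pos m) y
  have hΛ' : (1 : ℝ) ≤ Λ := by exact_mod_cast hΛ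
  have hC₂0 : 0 ≤ C₂ := by linarith
  have hlR : lam y ≤ 2 * (Λ : ℝ) * lam y := by nlinarith
  have hRpos : 0 < 2 * (Λ : ℝ) * lam y := lt_of_lt_of_le hl hlR
  have hmem : ∀ w ∈ S, lam y ≤ ‖w‖ ∧ ‖w‖ ≤ 2 * (Λ : ℝ) * lam y := by
    intro w hw
    obtain ⟨ha, hb, hc⟩ := (hS w).1 hw
    exact ⟨lam_le ha hb, hc⟩
  have hcard : ∀ ρ : ℝ, lam y ≤ ρ → ρ ≤ 2 * (2 * (Λ : ℝ) * lam y) →
      ((S.filter fun s => ‖s‖ ≤ ρ).card : ℝ) ≤ C₂ * (ρ / lam y) ^ m + C₂ * ρ ^ (m + 1) := by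
    intro ρ hρ _
    have hρ0 : 0 < ρ := lt_of_lt_of_le hl hρ
    set ρ' := min ρ (2 * (Λ : ℝ) * lam y) with hρ'
    have hρ'0 : 0 < ρ' := lt_min hρ0 hRpos
    have hle : ρ' ≤ ρ := min_le_left _ _
    have heq : ({w | w ∈ vecs y ∧ w ≠ 0 ∧ ‖w‖ ≤ ρ'} : Set (Fin (m + 1) → ℝ)) =
        ↑(S.filter fun s => ‖s‖ ≤ ρ) := by
      ext w
      rw [Set.mem_ofPred_eq, Finset.mem_coe, Finset.mem_filter, hS, hρ', le_min_iff]
      tauto
    have h3 := h2 y ρ' hρ'0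
    rw [heq, Set.ncard_coe_finset, Nat.add_sub_cancel] at h3
    refine h3.trans ?_
    rw [mul_add]
    have e1 : (ρ' / lam y) ^ m ≤ (ρ / lam y) ^ m :=
      pow_le_pow_left₀ (by positivity) (div_le_div_of_nonneg_right hle hl.le) m
    have e2 : ρ' ^ (m + 1) ≤ ρ ^ (m + 1) := pow_le_pow_left₀ hρ'0.le hle _
    exact add_le_add (mul_le_mul_of_nonneg_left e1 hC₂0) (mul_le_mul_of_nonneg_left e2 hC₂0)
  have h4 := h1 S (fun w => ‖w‖) C₂ C₂ (lam y) (2 * (Λ : ℝ) * lam y) hC₂0 hC₂0 hl hlR hmem hcard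
  refine h4.trans ?_
  have hdiv : 2 * (Λ : ℝ) * lam y / lam y = 2 * Λ := by field_simp
  rw [hdiv, Real.log_mul (by norm_num) (by positivity)]
  have hlog2 : Real.log 2 ≤ 1 := by
    have := Real.log_two_lt_d9
    linarith
  have hlogΛ : 0 ≤ Real.log Λ := Real.log_nonneg hΛ'
  have e3 : C₂ * (2 * (Λ : ℝ)) ^ m * (1 + (Real.log 2 + Real.log Λ)) ≤
      C₂ * 2 ^ (m + 1) * (Λ : ℝ) ^ m * (1 + Real.log Λ) := by
    rw [mul_pow]
    have : C₂ * 2 ^ (m + 1) * (Λ : ℝ) ^ m * (1 + Real.log Λ) =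
        C₂ * (2 ^ m * (Λ : ℝ) ^ m) * (2 * (1 + Real.log Λ)) := by ring
    rw [this]
    apply mul_le_mul_of_nonneg_left _ (by positivity)
    linarith
  calc C₁ * (C₂ * (2 * (Λ : ℝ)) ^ m * (1 + (Real.log 2 + Real.log Λ)) +
        C₂ * (2 * Λ * lam y) ^ (m + 1))
      ≤ C₁ * (C₂ * 2 ^ (m + 1) * (Λ : ℝ) ^ m * (1 + Real.log Λ) +
        C₂ * (2 * Λ * lam y) ^ (m + 1)) :=
        mul_le_mul_of_nonneg_left (add_le_add_left e3 _) hC₁.le
    _ = C₁ * C₂ * 2 ^ (m + 1) * (Λ : ℝ) ^ m * (1 + Real.log Λ + Λ * lam y ^ (m + 1)) := by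
        rw [mul_pow, mul_pow]
        ring

end Pool.Agent.Lib.MP_41a456_al.TC
end

section

/-!
# MP_41a456_al, Theorem TC, F6: the Margulis inequality (paper 521, section 6)

`P = {0, …, Λ - 1}^m`, `n = m + 1`, `β = (3 n - 2) / 4 < m`, `α = lam ^ (-β)`,
`wp w p = W u(p/Λ)⁻¹ w = (Λ^{-m/n} w_0, Λ^{1/n} (w_j - w_0 p_j / Λ))`.
`margulis_aux`: `ρ = Λ^{1/n} lam y`, so `2 Λ^{m/n} ρ = 2 Λ lam y`: sum `alf_step_le` over `p`, exchange
the sums, `sum_wp_le`, `sum_lattice_le`; `ρ^{-β} = Λ^{-β/n} alf y` and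
`Λ^{-β/n} lam^{-β} Λ lam^n ≤ Λ` (`lam ≤ 1`, `β < n`). `margulis`: `β/n - 1/2 = (m-1)/(4(m+1)) > 0`, so
`C (1 + log Λ) Λ^{-β/n} ≤ Λ^{-1/2}` for large `Λ`.
-/

namespace Pool.Agent.Lib.MP_41a456_al.TC

open Matrix MeasureTheory Filter Topology Pool.Agent.Lib.MP_41a456_al

/-- Paper (6.3): take `ρ = Λ^{1/n} lam y`. -/
theorem margulis_aux {m : ℕ} (hm : 2 ≤ m) : ∃ C : ℝ, 0 < C ∧ ∀ (Λ : ℕ), 1 ≤ Λ →
    ∀ y : X (m + 1),
    ∑ p : Fin m → Fin Λ, alf ((W Λ (0 : Fin (m + 1)) * (up Λ p)⁻¹) • y) ≤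
      (Λ : ℝ) ^ m * (C * (1 + Real.log Λ) * (Λ : ℝ) ^ (-(bet (m + 1)) / (m + 1)) * alf y +
        C * Λ) := by
  obtain ⟨C₁, hC₁, h1⟩ := sum_wp_le hm
  obtain ⟨C₂, hC₂, h2⟩ := sum_lattice_le (m := m)
  refine ⟨1 + C₁ * C₂, by positivity, fun Λ hΛ y => ?_⟩
  have hn : 0 < m + 1 := Nat.succ_pos m
  have hb0 : 0 < bet (m + 1) := A5.bet_pos hn
  have hl : 0 < lam y := lam_pos hn y
  have hl1 : lam y ≤ 1 := lam_le_one hn y
  have hΛ1 : (1 : ℝ) ≤ Λ := by exact_mod_cast hΛ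
  have hΛ0 : (0 : ℝ) < Λ := by linarith
  have hm1 : (0 : ℝ) < (m : ℝ) + 1 := by positivity
  have hlog : 0 ≤ Real.log Λ := Real.log_nonneg hΛ1
  set ρ : ℝ := (Λ : ℝ) ^ ((1 : ℝ) / (m + 1)) * lam y with hρdef
  have hρ : 0 < ρ := mul_pos (Real.rpow_pos_of_pos hΛ0 _) hl
  have e1 : (Λ : ℝ) ^ ((m : ℝ) / (m + 1)) * ρ = Λ * lam y := by
    rw [hρdef, ← mul_assoc, ← Real.rpow_add hΛ0]
    have : (m : ℝ) / (m + 1) + 1 / (m + 1) = 1 := by field_simp
    rw [this, Real.rpow_one]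
  have e2 : 2 * (Λ : ℝ) ^ ((m : ℝ) / (m + 1)) * ρ = 2 * Λ * lam y := by
    rw [mul_assoc, e1, mul_assoc]
  have e3 : ρ ^ (-(bet (m + 1))) = (Λ : ℝ) ^ (-(bet (m + 1)) / (m + 1)) * alf y := by
    rw [hρdef, Real.mul_rpow (Real.rpow_nonneg hΛ0.le _) hl.le, ← Real.rpow_mul hΛ0.le]
    congr 2
    ring
  have hfin : {w | w ∈ vecs y ∧ w ≠ 0 ∧ ‖w‖ ≤ 2 * (Λ : ℝ) * lam y}.Finite :=
    (finite_vecs y (2 * (Λ : ℝ) * lam y)).subset fun w hw => ⟨hw.1, hw.2.2⟩
  set S : Finset (Fin (m + 1) → ℝ) := hfin.toFinset with hS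
  have hSm : ∀ w, w ∈ S ↔ w ∈ vecs y ∧ w ≠ 0 ∧ ‖w‖ ≤ 2 * (Λ : ℝ) * lam y := by
    intro w
    rw [hS, Set.Finite.mem_toFinset]
    rfl
  have hSm' : ∀ w, w ∈ S ↔ w ∈ vecs y ∧ w ≠ 0 ∧ ‖w‖ ≤ 2 * (Λ : ℝ) ^ ((m : ℝ) / (m + 1)) * ρ := by
    intro w
    rw [hSm, e2]
  have hL : 0 ≤ (Λ : ℝ) ^ (-(bet (m + 1)) / (m + 1)) := Real.rpow_nonneg hΛ0.le _
  have hL1 : (Λ : ℝ) ^ (-(bet (m + 1)) / (m + 1)) ≤ 1 := by
    refine Real.rpow_le_one_of_one_le_of_nonpos hΛ1 ?_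
    exact div_nonpos_of_nonpos_of_nonneg (by linarith) hm1.le
  have half : 0 ≤ alf y := Real.rpow_nonneg hl.le _
  have hρβ : 0 ≤ ρ ^ (-(bet (m + 1))) := Real.rpow_nonneg hρ.le _
  -- sum over `p`
  have h3 : ∑ p : Fin m → Fin Λ, alf ((W Λ (0 : Fin (m + 1)) * (up Λ p)⁻¹) • y) ≤
      ∑ p : Fin m → Fin Λ, (ρ ^ (-(bet (m + 1))) +
        ∑ w ∈ S.filter fun w => ‖wp Λ p w‖ ≤ ρ, ‖wp Λ p w‖ ^ (-(bet (m + 1)))) :=
    Finset.sum_le_sum fun p _ => alf_step_le hΛ p y hρ S hSm'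
  have h4 : ∑ p : Fin m → Fin Λ, (ρ ^ (-(bet (m + 1))) +
        ∑ w ∈ S.filter fun w => ‖wp Λ p w‖ ≤ ρ, ‖wp Λ p w‖ ^ (-(bet (m + 1)))) =
      (Λ : ℝ) ^ m * ρ ^ (-(bet (m + 1))) + ∑ w ∈ S,
        ∑ p ∈ (Finset.univ : Finset (Fin m → Fin Λ)).filter fun p => ‖wp Λ p w‖ ≤ ρ,
          ‖wp Λ p w‖ ^ (-(bet (m + 1))) := by
    rw [Finset.sum_add_distrib]
    congr 1
    · rw [Finset.sum_const, Finset.card_univ, Fintype.card_fun, Fintype.card_fin, Fintype.card_fin,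
        nsmul_eq_mul, Nat.cast_pow]
    · simp only [Finset.sum_filter]
      rw [Finset.sum_comm]
  have h5 : ∀ w ∈ S,
      ∑ p ∈ (Finset.univ : Finset (Fin m → Fin Λ)).filter fun p => ‖wp Λ p w‖ ≤ ρ,
          ‖wp Λ p w‖ ^ (-(bet (m + 1))) ≤
        C₁ * ρ ^ (-(bet (m + 1))) * (2 * (Λ : ℝ) * lam y / ‖w‖) ^ m := by
    intro w hw
    have hw0 : w ≠ 0 := ((hSm w).1 hw).2.1
    refine (h1 Λ hΛ w hw0 ρ hρ).trans ?_
    have hwn : 0 < ‖w‖ := norm_pos_iff.2 hw0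
    refine mul_le_mul_of_nonneg_left ?_ (mul_nonneg hC₁.le hρβ)
    rw [e1]
    refine pow_le_pow_left₀ (by positivity) ?_ m
    refine div_le_div_of_nonneg_right ?_ hwn.le
    nlinarith
  have h6 : ∑ w ∈ S, ∑ p ∈ (Finset.univ : Finset (Fin m → Fin Λ)).filter fun p => ‖wp Λ p w‖ ≤ ρ,
      ‖wp Λ p w‖ ^ (-(bet (m + 1))) ≤
      C₁ * ρ ^ (-(bet (m + 1))) * (C₂ * (Λ : ℝ) ^ m * (1 + Real.log Λ + Λ * lam y ^ (m + 1))) := by
    refine (Finset.sum_le_sum h5).trans ?_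
    rw [← Finset.mul_sum]
    exact mul_le_mul_of_nonneg_left (h2 Λ hΛ y S hSm) (mul_nonneg hC₁.le hρβ)
  have h7 : alf y * lam y ^ (m + 1) ≤ 1 := by
    unfold alf
    rw [← Real.rpow_natCast (lam y) (m + 1), ← Real.rpow_add hl]
    refine Real.rpow_le_one hl.le hl1 ?_
    unfold bet
    push_cast
    have : (0 : ℝ) ≤ m := by positivity
    linarith
  refine h3.trans ?_
  rw [h4]
  refine (add_le_add_right h6 _).trans ?_
  rw [e3]
  set a : ℝ := (Λ : ℝ) ^ (-(bet (m + 1)) / (m + 1)) with ha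
  have hP : (0 : ℝ) < (Λ : ℝ) ^ m := pow_pos hΛ0 m
  have h8 : a * (alf y * lam y ^ (m + 1)) * Λ ≤ 1 * Λ := by
    refine mul_le_mul_of_nonneg_right ?_ hΛ0.le
    calc a * (alf y * lam y ^ (m + 1)) ≤ 1 * 1 :=
          mul_le_mul hL1 h7 (mul_nonneg half (pow_nonneg hl.le _)) zero_le_one
      _ = 1 := one_mul 1
  have h9 : 0 ≤ a * alf y * Real.log Λ := mul_nonneg (mul_nonneg hL half) hlog
  have hCC : 0 < C₁ * C₂ := mul_pos hC₁ hC₂
  have key : a * alf y + C₁ * (a * alf y) * (C₂ * (1 + Real.log Λ + Λ * lam y ^ (m + 1))) ≤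
      (1 + C₁ * C₂) * (1 + Real.log Λ) * a * alf y + (1 + C₁ * C₂) * Λ := by
    have e4 : C₁ * (a * alf y) * (C₂ * (1 + Real.log Λ + Λ * lam y ^ (m + 1))) =
        C₁ * C₂ * (1 + Real.log Λ) * a * alf y + C₁ * C₂ * (a * (alf y * lam y ^ (m + 1)) * Λ) := by
      ring
    rw [e4]
    have h10 : C₁ * C₂ * (a * (alf y * lam y ^ (m + 1)) * Λ) ≤ C₁ * C₂ * (1 * Λ) :=
      mul_le_mul_of_nonneg_left h8 hCC.le
    nlinarith
  calc (Λ : ℝ) ^ m * (a * alf y) +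
        C₁ * (a * alf y) * (C₂ * (Λ : ℝ) ^ m * (1 + Real.log Λ + Λ * lam y ^ (m + 1))) =
      (Λ : ℝ) ^ m * (a * alf y +
        C₁ * (a * alf y) * (C₂ * (1 + Real.log Λ + Λ * lam y ^ (m + 1)))) := by ring
    _ ≤ _ := mul_le_mul_of_nonneg_left key hP.le

/-- Paper (6.4). -/
theorem margulis {m : ℕ} (hm : 2 ≤ m) : ∃ Λ₀ : ℕ, ∀ Λ : ℕ, Λ₀ ≤ Λ → ∃ D : ℝ, 1 ≤ D ∧
    ∀ y : X (m + 1),
    ∑ p : Fin m → Fin Λ, alf ((W Λ (0 : Fin (m + 1)) * (up Λ p)⁻¹) • y) ≤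
      (Λ : ℝ) ^ m * ((Λ : ℝ) ^ (-(1 / 2 : ℝ)) * alf y + D) := by
  obtain ⟨C, hC, h⟩ := margulis_aux hm
  have hm' : (2 : ℝ) ≤ m := by exact_mod_cast hm
  have hm1 : (0 : ℝ) < (m : ℝ) + 1 := by positivity
  set τ : ℝ := bet (m + 1) / (m + 1) - 1 / 2 with hτ
  have hτ0 : 0 < τ := by
    rw [hτ, sub_pos, lt_div_iff₀ hm1]
    unfold bet
    push_cast
    linarith
  -- `C (1 + log x) ≤ x ^ τ` for large `x`
  have h1 : ∀ᶠ x : ℝ in atTop, C * (1 + Real.log x) ≤ x ^ τ := by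
    have h2 : (fun x : ℝ => Real.log x) =o[atTop] fun x : ℝ => x ^ τ := isLittleO_log_rpow_atTop hτ0
    have h3 : (fun _ : ℝ => (1 : ℝ)) =o[atTop] fun x : ℝ => x ^ τ :=
      (Asymptotics.isLittleO_const_left (c := (1 : ℝ))).2
        (Or.inr (tendsto_norm_atTop_atTop.comp (tendsto_rpow_atTop hτ0)))
    have h4 : (fun x : ℝ => C * (1 + Real.log x)) =o[atTop] fun x : ℝ => x ^ τ :=
      (h3.add h2).const_mul_left C
    filter_upwards [h4.bound one_pos, eventually_ge_atTop (0 : ℝ)] with x hx hx0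
    rw [one_mul, Real.norm_eq_abs, Real.norm_eq_abs, abs_of_nonneg (Real.rpow_nonneg hx0 τ)] at hx
    exact (le_abs_self _).trans hx
  obtain ⟨Λ₀, hΛ₀⟩ := (tendsto_natCast_atTop_atTop.eventually h1).exists_forall_of_atTop
  refine ⟨max Λ₀ 1, fun Λ hΛ => ⟨C * Λ + 1, ?_, fun y => ?_⟩⟩
  · have : 0 ≤ C * (Λ : ℝ) := by positivity
    linarith
  have hΛ1 : 1 ≤ Λ := (le_max_right _ _).trans hΛ
  have hΛ0 : (0 : ℝ) < Λ := by exact_mod_cast hΛ1
  have h5 := hΛ₀ Λ ((le_max_left _ _).trans hΛ)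
  refine (h Λ hΛ1 y).trans (mul_le_mul_of_nonneg_left ?_ (pow_nonneg hΛ0.le m))
  have half : 0 ≤ alf y := Real.rpow_nonneg (lam_pos (Nat.succ_pos m) y).le _
  have h6 : C * (1 + Real.log Λ) * (Λ : ℝ) ^ (-(bet (m + 1)) / (m + 1)) ≤
      (Λ : ℝ) ^ (-(1 / 2 : ℝ)) := by
    refine (mul_le_mul_of_nonneg_right h5 (Real.rpow_nonneg hΛ0.le _)).trans (le_of_eq ?_)
    rw [← Real.rpow_add hΛ0]
    congr 1
    rw [hτ]
    ring
  have h7 := mul_le_mul_of_nonneg_right h6 half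
  linarith

end Pool.Agent.Lib.MP_41a456_al.TC
end
end
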