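import Pool.Agent.Lib.MP_41a456_al.TC.E0

section

/-!
# MP_41a456_al, Theorem TC, G0: forward systems: definitions

Paper 521, section 7, `n = m + 1`. A forward system: for every `r` a finite set `E r` with parameters
`v r x ∈ ℝ^m`, a base point `y0 r`, gaps `sh r i` (in units of `log Λ`) and a margin `p r`; the points are
`yh r x s = b(s)⁻¹ u(v r x)⁻¹ y0 r`, `s` in the box `BB`: `p ≤ s_i ≤ sh_i - p`.
-/

namespace Pool.Agent.Lib.MP_41a456_al.TC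

open Matrix MeasureTheory Filter Topology Pool.Agent.Lib.MP_41a456_al

/-- the box -/
noncomputable def BB {m : ℕ} (sh : Fin m → ℤ) (p : ℤ) : Finset (Fin m → ℤ) :=
  Fintype.piFinset fun i => Finset.Icc p (sh i - p)

/-- the points of a forward system -/
noncomputable def yh {m : ℕ} (Λ : ℕ) (v : Fin m → ℝ) (y0 : X (m + 1)) (s : Fin m → ℤ) : X (m + 1) :=
  ((bb Λ s)⁻¹ * (ucol v)⁻¹) • y0

/-- a forward system -/
structure FSys (m Λ : ℕ) (η C : ℝ) (t : ℕ → ℝ) (sh : ℕ → Fin m → ℤ) (p : ℕ → ℤ)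
    (E : ℕ → Finset (SLn (m + 1))) (v : ℕ → SLn (m + 1) → Fin m → ℝ) (y0 : ℕ → X (m + 1)) :
    Prop where
  ht : Tendsto t atTop atTop
  hp : Tendsto p atTop atTop
  side : ∀ r i, 4 * p r ≤ sh r i
  p_le : ∀ r, (p r : ℝ) * Real.log Λ ≤ η * t r
  sh0 : ∀ r (i : Fin m), (i : ℕ) = 0 → |(sh r i : ℝ) * Real.log Λ - (m + 1) * t r| ≤ C * η * t r
  shi : ∀ r (i : Fin m), (i : ℕ) ≠ 0 → (sh r i : ℝ) * Real.log Λ ≤ C * η * t r
  hy0 : ∀ r, alf (y0 r) ≤ Real.exp (C * η * t r)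
  hv : ∀ r, ∀ x ∈ E r, ∀ j, |v r x j| ≤ Real.exp (C * η * t r)
  card : ∀ r, Real.exp ((m * (m + 1) - 1 - C * η) * t r) ≤ (E r).card
  mult : ∀ r, ∀ (S : Finset (SLn (m + 1))), S ⊆ E r → ∀ x ∈ S,
    (∀ x' ∈ S, ∀ i : Fin m, (i : ℕ) = 0 →
      ∀ j, |v r x' j - v r x j| * (Λ : ℝ) ^ (sh r i - p r) ≤ 1) →
    (S.card : ℝ) ≤ Real.exp (C * η * t r)

end Pool.Agent.Lib.MP_41a456_al.TC
end

section

/-!
# MP_41a456_al, Theorem TC, H1: forward inequality: relations between cubes and states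

Paper 521, section 8, `n = m + 1`, coordinates of `v ∈ ℝ^m`. Cubes of level `l`: `Λ^{-l} (q + [0,1)^m)`,
`q` integral, `qf Λ l v` = the cube of level `l` which contains `v`. `stt Λ y l q = u(q)⁻¹ W^l y` the state of the
cube `q` of level `l` (base point `y`), `st Λ y l v` = state of the cube containing `v`,
`zz Λ y l v = W^l u(v)⁻¹ y`.
`W u(v) W⁻¹ = u(Λ v)` (`W_ucol`), `u(v + w) = u(v) u(w)`.
-/

namespace Pool.Agent.Lib.MP_41a456_al.TC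

open Matrix MeasureTheory Filter Topology Pool.Agent.Lib.MP_41a456_al

variable {m : ℕ} {Λ : ℕ}

private theorem W_pow_ucol' (hΛ : 1 ≤ Λ) (l : ℕ) (v : Fin m → ℝ) :
    (W Λ (0 : Fin (m + 1))) ^ l * ucol v =
      (ucol fun j => (Λ : ℝ) ^ l * v j) * (W Λ 0) ^ l := by
  induction l with
  | zero => simp
  | succ l ih =>
    have h1 : ∀ w : Fin m → ℝ, W Λ (0 : Fin (m + 1)) * ucol w =
        (ucol fun j => (Λ : ℝ) * w j) * W Λ 0 := by
      intro w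
      have h2 := W_ucol hΛ w
      exact mul_inv_eq_iff_eq_mul.1 h2
    rw [pow_succ', mul_assoc, ih, ← mul_assoc, h1, mul_assoc]
    congr 2
    funext j
    rw [pow_succ']
    ring

/-- `W^l u(v)⁻¹ = u(Λ^l v)⁻¹ W^l` -/
theorem W_pow_ucol (hΛ : 1 ≤ Λ) (l : ℕ) (v : Fin m → ℝ) :
    (W Λ (0 : Fin (m + 1))) ^ l * (ucol v)⁻¹ =
      (ucol fun j => (Λ : ℝ) ^ l * v j)⁻¹ * (W Λ 0) ^ l := by
  rw [← ucol_neg, W_pow_ucol' hΛ, ← ucol_neg]
  congr 2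
  funext j
  simp

private theorem inv_mul_inv_ucol (a b c : Fin m → ℝ) (h : ∀ j, a j + b j = c j) :
    (ucol a)⁻¹ * (ucol b)⁻¹ = (ucol c)⁻¹ := by
  rw [← ucol_neg, ← ucol_neg, ← ucol_neg, ← ucol_add]
  congr 1
  funext j
  simp only [Pi.add_apply, Pi.neg_apply]
  linarith [h j]

theorem zz_eq_st (hΛ : 1 ≤ Λ) (y : X (m + 1)) (l : ℕ) (v : Fin m → ℝ) :
    zz Λ y l v = (ucol fun j => Int.fract ((Λ : ℝ) ^ l * v j))⁻¹ • st Λ y l v := by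
  unfold zz st stt
  rw [W_pow_ucol hΛ, ← mul_smul, ← mul_assoc]
  refine congrArg (fun g : SLr (m + 1) => (g * (W Λ 0) ^ l) • y) ?_
  symm
  apply inv_mul_inv_ucol
  intro j
  exact Int.fract_add_floor _

private theorem norm_fract_le (x : Fin m → ℝ) : ‖fun j => Int.fract (x j)‖ ≤ 1 := by
  rw [pi_norm_le_iff_of_nonneg zero_le_one]
  intro j
  rw [Real.norm_eq_abs, abs_of_nonneg (Int.fract_nonneg _)]
  exact (Int.fract_lt_one _).le

private theorem alf_le_of (f : Fin m → ℝ) (hf : ‖f‖ ≤ 1) (y : X (m + 1)) :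
    alf (ucol f • y) ≤ 2 ^ (bet (m + 1)) * alf y := by
  refine (alf_ucol_le f y).trans ?_
  refine mul_le_mul_of_nonneg_right ?_ (alf_pos (Nat.succ_pos m) y).le
  refine Real.rpow_le_rpow (by positivity) (by linarith) ?_
  unfold bet
  push_cast
  have : (0 : ℝ) ≤ m := Nat.cast_nonneg m
  linarith

/-- the true point and the state of its cube have comparable heights -/
theorem alf_zz_le (hΛ : 1 ≤ Λ) (y : X (m + 1)) (l : ℕ) (v : Fin m → ℝ) :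
    alf (zz Λ y l v) ≤ 2 ^ (bet (m + 1)) * alf (st Λ y l v) := by
  rw [zz_eq_st hΛ, ← ucol_neg]
  apply alf_le_of
  rw [norm_neg]
  exact norm_fract_le _

theorem alf_st_le (hΛ : 1 ≤ Λ) (y : X (m + 1)) (l : ℕ) (v : Fin m → ℝ) :
    alf (st Λ y l v) ≤ 2 ^ (bet (m + 1)) * alf (zz Λ y l v) := by
  have h1 : st Λ y l v = (ucol fun j => Int.fract ((Λ : ℝ) ^ l * v j)) • zz Λ y l v := by
    rw [zz_eq_st hΛ, smul_inv_smul]
  rw [h1]
  apply alf_le_of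
  exact norm_fract_le _

theorem zz_shift (y : X (m + 1)) (l i : ℕ) (v : Fin m → ℝ) :
    (W Λ (0 : Fin (m + 1))) ^ i • zz Λ y l v = zz Λ y (l + i) v := by
  unfold zz
  rw [← mul_smul, ← mul_assoc, ← pow_add, add_comm i l]

private theorem pow_pos' (hΛ : 1 ≤ Λ) (l : ℕ) : (0 : ℝ) < (Λ : ℝ) ^ l := by
  have : (0 : ℝ) < Λ := by exact_mod_cast hΛ
  positivity

theorem qf_crn (hΛ : 1 ≤ Λ) (l : ℕ) (q : Fin m → ℤ) : qf Λ l (crn Λ l q) = q := by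
  funext j
  unfold qf crn
  rw [mul_div_cancel₀ _ (pow_pos' hΛ l).ne', Int.floor_intCast]

/-- the cube of level `l` is determined by the one of level `l + i` -/
theorem qf_mono (hΛ : 1 ≤ Λ) {l i : ℕ} {v w : Fin m → ℝ} (h : qf Λ (l + i) v = qf Λ (l + i) w) :
    qf Λ l v = qf Λ l w := by
  have h1 : ∀ (x : Fin m → ℝ) (j : Fin m), qf Λ l x j = qf Λ (l + i) x j / ((Λ ^ i : ℕ) : ℤ) := by
    intro x j
    unfold qf
    rw [← Int.floor_div_natCast]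
    congr 1
    rw [pow_add]
    push_cast
    field_simp [(pow_pos' hΛ i).ne']
  funext j
  rw [h1, h1, h]

theorem qf_child (hΛ : 1 ≤ Λ) (l i : ℕ) (q : Fin m → ℤ) (r : Fin m → Fin (Λ ^ i)) :
    qf Λ l (crn Λ (l + i) fun j => (Λ : ℤ) ^ i * q j + ((r j : ℕ) : ℤ)) = q := by
  funext j
  unfold qf crn
  have h0 := pow_pos' hΛ i
  have h1 : (Λ : ℝ) ^ l * ((((Λ : ℤ) ^ i * q j + ((r j : ℕ) : ℤ) : ℤ) : ℝ) / (Λ : ℝ) ^ (l + i)) =
      (q j : ℝ) + ((r j : ℕ) : ℝ) / (Λ : ℝ) ^ i := by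
    have h2 := (pow_pos' hΛ l).ne'
    have h3 := h0.ne'
    push_cast
    rw [pow_add]
    field_simp
  rw [h1, Int.floor_eq_iff]
  have h4 : ((r j : ℕ) : ℝ) < (Λ : ℝ) ^ i := by exact_mod_cast (r j).2
  have h5 : (0 : ℝ) ≤ ((r j : ℕ) : ℝ) / (Λ : ℝ) ^ i := by positivity
  have h6 : ((r j : ℕ) : ℝ) / (Λ : ℝ) ^ i < 1 := (div_lt_one h0).2 h4
  exact ⟨by linarith, by linarith⟩

private theorem floor_pow (l i : ℕ) (x : ℝ) :
    ⌊(Λ : ℝ) ^ (l + i) * x⌋ =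
      ⌊(Λ : ℝ) ^ i * Int.fract ((Λ : ℝ) ^ l * x)⌋ + (Λ : ℤ) ^ i * ⌊(Λ : ℝ) ^ l * x⌋ := by
  rw [← Int.floor_add_intCast]
  congr 1
  push_cast
  rw [← mul_add, Int.fract_add_floor, pow_add]
  ring

/-- the subtree below the cube of level `l` which contains `v` -/
theorem st_shift (hΛ : 1 ≤ Λ) (y : X (m + 1)) (l i : ℕ) (v : Fin m → ℝ) :
    st Λ y (l + i) v =
      st Λ (st Λ y l v) i fun j => Int.fract ((Λ : ℝ) ^ l * v j) := by
  unfold st stt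
  rw [← mul_smul]
  refine congrArg (fun g : SLr (m + 1) => g • y) ?_
  rw [mul_assoc, ← mul_assoc ((W Λ 0) ^ i), W_pow_ucol hΛ, mul_assoc, ← mul_assoc _⁻¹ _⁻¹,
    ← pow_add, add_comm i l]
  refine congrArg (fun g : SLr (m + 1) => g * (W Λ 0) ^ (l + i)) ?_
  symm
  apply inv_mul_inv_ucol
  intro j
  unfold qf
  rw [floor_pow]
  push_cast
  ring

theorem FG_add (hΛ : 1 ≤ Λ) (M : ℝ) (y : X (m + 1)) (l i : ℕ) (v : Fin m → ℝ) :
    FG Λ M y (l + i) v = FG Λ M y l v +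
      FG Λ M (st Λ y l v) i fun j => Int.fract ((Λ : ℝ) ^ l * v j) := by
  unfold FG
  rw [Finset.sum_range_add]
  refine congrArg (fun x : ℝ => (∑ i ∈ Finset.range l, gG Λ M (st Λ y i v) (st Λ y (i + 1) v)) + x)
    (Finset.sum_congr rfl fun k _ => ?_)
  rw [st_shift hΛ, add_assoc, st_shift hΛ]

theorem HH_shift (hΛ : 1 ≤ Λ) (L : ℕ) (d : ℝ) (S : Fin m → Set (X (m + 1))) (y : X (m + 1)) (l : ℕ)
    (v : Fin m → ℝ) :
    HH Λ L d S y l v = HH Λ L d S (st Λ y l v) 0 fun j => Int.fract ((Λ : ℝ) ^ l * v j) := by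
  have h0 := pow_pos' hΛ l
  have hzz : ∀ w : Fin m → ℝ,
      zz Λ (st Λ y l v) 0 (fun j => (Λ : ℝ) ^ l * w j - ⌊(Λ : ℝ) ^ l * v j⌋) = zz Λ y l w := by
    intro w
    unfold zz st stt
    rw [pow_zero, one_mul, ← mul_smul, W_pow_ucol hΛ, ← mul_assoc]
    refine congrArg (fun g : SLr (m + 1) => (g * (W Λ 0) ^ l) • y) ?_
    apply inv_mul_inv_ucol
    intro j
    unfold qf
    ring
  have hfl : ∀ x : ℝ, ∀ z : ℤ, ⌊(Λ : ℝ) ^ (0 + L) * ((Λ : ℝ) ^ l * x - z)⌋ =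
      ⌊(Λ : ℝ) ^ (l + L) * x⌋ - (Λ : ℤ) ^ L * z := by
    intro x z
    rw [← Int.floor_sub_intCast]
    congr 1
    push_cast
    rw [zero_add, pow_add]
    ring
  have hqf : ∀ w : Fin m → ℝ,
      qf Λ (0 + L) (fun j => (Λ : ℝ) ^ l * w j - ⌊(Λ : ℝ) ^ l * v j⌋) =
        qf Λ (0 + L) (fun j => Int.fract ((Λ : ℝ) ^ l * v j)) ↔ qf Λ (l + L) w = qf Λ (l + L) v := by
    intro w
    rw [funext_iff, funext_iff]
    apply forall_congr'
    intro j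
    change ⌊(Λ : ℝ) ^ (0 + L) * ((Λ : ℝ) ^ l * w j - ⌊(Λ : ℝ) ^ l * v j⌋)⌋ =
      ⌊(Λ : ℝ) ^ (0 + L) * ((Λ : ℝ) ^ l * v j - ⌊(Λ : ℝ) ^ l * v j⌋)⌋ ↔
        ⌊(Λ : ℝ) ^ (l + L) * w j⌋ = ⌊(Λ : ℝ) ^ (l + L) * v j⌋
    rw [hfl, hfl]
    constructor
    · intro h
      linarith
    · intro h
      rw [h]
  have hiff : (∃ v' : Fin m → ℝ, qf Λ (l + L) v' = qf Λ (l + L) v ∧ TE Λ L d S (zz Λ y l v')) ↔
      ∃ v' : Fin m → ℝ, qf Λ (0 + L) v' =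
        qf Λ (0 + L) (fun j => Int.fract ((Λ : ℝ) ^ l * v j)) ∧
          TE Λ L d S (zz Λ (st Λ y l v) 0 v') := by
    constructor
    · rintro ⟨v', h1, h2⟩
      refine ⟨_, (hqf v').2 h1, ?_⟩
      rw [hzz]
      exact h2
    · rintro ⟨v', h1, h2⟩
      set w : Fin m → ℝ := fun j => (v' j + ⌊(Λ : ℝ) ^ l * v j⌋) / (Λ : ℝ) ^ l with hw
      have h3 : v' = fun j => (Λ : ℝ) ^ l * w j - ⌊(Λ : ℝ) ^ l * v j⌋ := by
        funext j
        rw [hw]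
        simp only
        rw [mul_div_cancel₀ _ h0.ne']
        ring
      rw [h3] at h1 h2
      refine ⟨w, (hqf w).1 h1, ?_⟩
      rw [hzz] at h2
      exact h2
  unfold HH
  by_cases h : ∃ v' : Fin m → ℝ, qf Λ (l + L) v' = qf Λ (l + L) v ∧ TE Λ L d S (zz Λ y l v')
  · rw [if_pos h, if_pos (hiff.1 h)]
  · rw [if_neg h, if_neg fun h' => h (hiff.2 h')]

/-- the state of the child `p` of the root cube -/
theorem st_one (hΛ : 1 ≤ Λ) (y : X (m + 1)) (p : Fin m → Fin Λ) :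
    st Λ y 1 (crn Λ 1 fun j => ((p j : ℕ) : ℤ)) = (W Λ (0 : Fin (m + 1)) * (up Λ p)⁻¹) • y := by
  unfold st stt up
  rw [qf_crn hΛ]
  refine congrArg (fun g : SLr (m + 1) => g • y) ?_
  have h1 := W_pow_ucol (m := m) hΛ 1 (fun j => ((p j : ℕ) : ℝ) / Λ)
  rw [pow_one, pow_one] at h1
  rw [pow_one, h1]
  refine congrArg (fun f : Fin m → ℝ => (ucol f)⁻¹ * W Λ 0) ?_
  funext j
  have h2 := (pow_pos' hΛ 1).ne'
  rw [pow_one] at h2
  rw [mul_div_cancel₀ _ h2]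
  simp

theorem st_zero_root (y : X (m + 1)) {v : Fin m → ℝ} (h : ∀ j, 0 ≤ v j ∧ v j < 1) :
    st Λ y 0 v = y := by
  have h1 : (fun j => ((qf Λ 0 v j : ℤ) : ℝ)) = (0 : Fin m → ℝ) := by
    funext j
    unfold qf
    rw [pow_zero, one_mul, Int.floor_eq_zero_iff.2 ⟨(h j).1, (h j).2⟩]
    simp
  unfold st stt
  rw [h1, ucol_zero, pow_zero, inv_one, one_mul, one_smul]

end Pool.Agent.Lib.MP_41a456_al.TC
end
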