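import Pool.Agent.Lib.MP_41a456_al.TC.B5
import Pool.Agent.Lib.MP_41a456_al.TC.H1
import Pool.Agent.Lib.MP_41a456_al.TC.D1b
import Pool.Agent.Lib.MP_41a456_al.TC.A5
import Pool.Agent.Lib.MP_41a456_al.TC.E0

section

/-!
# MP_41a456_al, Theorem TC, I0: limit measures: definitions

Paper 521, section 9, `n = m + 1`.
-/

namespace Pool.Agent.Lib.MP_41a456_al.TC

open Matrix MeasureTheory Filter Topology Pool.Agent.Lib.MP_41a456_al

open scoped CompactlySupported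

/-- average of `f` over a finite family of points -/
noncomputable def avgF {ι Z : Type*} (F : Finset ι) (z : ι → Z) (f : Z → ℝ) : ℝ :=
  (∑ i ∈ F, f (z i)) / F.card

open Classical in
/-- frequency of the set `S` in a finite family of points -/
noncomputable def frq {ι Z : Type*} (F : Finset ι) (z : ι → Z) (S : Set Z) : ℝ :=
  ((F.filter fun i => z i ∈ S).card : ℝ) / F.card

/-- `μ` is the limit measure of the families along the ultrafilter -/
structure LimM {n : ℕ} {ι : Type} (U : Ultrafilter ℕ) (F : ℕ → Finset ι) (z : ℕ → ι → X n)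
    (μ : Measure (X n)) : Prop where
  le_one : μ Set.univ ≤ 1
  lim : ∀ f : C_c(X n, ℝ), Tendsto (fun r => avgF (F r) (z r) f) U (𝓝 (∫ y, f y ∂μ))

/-- `Z` is almost covered by countably many `u_ij`-discrete sets -/
def CD {n : ℕ} (μ : Measure (X n)) (i j : Fin n) (Z : Set (X n)) : Prop :=
  ∃ S : ℕ → Set (X n), (∀ l, MeasurableSet (S l) ∧ ∃ e > 0, Disc i j e (S l)) ∧
    μ (Z \ ⋃ l, S l) = 0

/-- `Z` is invariant under all `W_k` -/
def WInv {n : ℕ} (Λ : ℕ) (Z : Set (X n)) : Prop :=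
  ∀ (k : Fin n) (y : X n), W Λ k • y ∈ Z ↔ y ∈ Z

/-- the finite families of a forward system -/
noncomputable def fam {m : ℕ} (sh : ℕ → Fin m → ℤ) (p : ℕ → ℤ)
    (E : ℕ → Finset (SLn (m + 1))) (r : ℕ) : Finset (SLn (m + 1) × (Fin m → ℤ)) :=
  E r ×ˢ BB (sh r) (p r)

/-- the points of a forward system -/
noncomputable def fpt {m : ℕ} (Λ : ℕ) (v : ℕ → SLn (m + 1) → Fin m → ℝ) (y0 : ℕ → X (m + 1)) (r : ℕ)
    (xs : SLn (m + 1) × (Fin m → ℤ)) : X (m + 1) :=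
  yh Λ (v r xs.1) (y0 r) xs.2

end Pool.Agent.Lib.MP_41a456_al.TC
end

section

section

/-!
# MP_41a456_al, Theorem TC, G2: conjugation by b(s)

Paper 521, section 7, `n = m + 1`.
Entry `(i, j)` of `b⁻¹ n⁻¹ b` is `(n⁻¹)_ij b_j / b_i`; upper triangular, `b_j / b_i = Λ^{-(s_i + … + s_{j-1})} ≤ Λ^{-p}`
for `i < j`. Entry `(i, j)` of `b⁻¹ (l⁻¹ l0) b - 1`, `i > j ≥ 1`, is `(l⁻¹ l0)_ij b_j / b_i` with
`b_j / b_i ≤ Λ^{∑_{i ≥ 1} s_i}`. `a ↦ diag` : the diagonal of `n⁻¹` is `(n_ii)⁻¹ = exp (-c_i)`. A neighbourhood of `1`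
in `SLr` contains all `g` with `|g_ij - δ_ij| ≤ δ`. The statement of `theta_close` is about the element
`g = (b⁻¹ n⁻¹ b) (b⁻¹ l⁻¹ l0 b) (ex (-c))⁻¹`, where `n_ii = exp (c i)` up to a factor close to 1.
-/

namespace Pool.Agent.Lib.MP_41a456_al.TC

open Matrix MeasureTheory Filter Topology Pool.Agent.Lib.MP_41a456_al

/-- a matrix close to the identity is in the neighbourhood -/
theorem nhds_one_entries {n : ℕ} {V : Set (SLr n)} (hV : V ∈ 𝓝 (1 : SLr n)) :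
    ∃ δ : ℝ, 0 < δ ∧ ∀ g : SLr n, (∀ i j, |(g : Mr n) i j - (1 : Mr n) i j| ≤ δ) → g ∈ V := by
  obtain ⟨t, ht, htV⟩ := mem_nhds_subtype _ _ _ |>.1 hV
  have ht1 : t ∈ 𝓝 (fun i j => (1 : Mr n) i j : Fin n → Fin n → ℝ) := ht
  obtain ⟨ε, hε, hb⟩ := Metric.mem_nhds_iff.1 ht1
  have hb' : ∀ f : Fin n → Fin n → ℝ, dist f (fun i j => (1 : Mr n) i j) < ε → f ∈ t :=
    fun f hf => hb (Metric.mem_ball.2 hf)
  refine ⟨ε / 2, by positivity, fun g hg => htV (hb' (fun i j => (g : Mr n) i j) ?_)⟩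
  refine lt_of_le_of_lt ?_ (half_lt_self hε)
  refine (dist_pi_le_iff (by positivity)).2 fun i => (dist_pi_le_iff (by positivity)).2 fun j => ?_
  rw [Real.dist_eq]
  exact hg i j

private theorem conj_entry {n : ℕ} (a : Fin n → ℝ) (g : SLr n) (i j : Fin n) :
    (((ex a)⁻¹ * g * ex a : SLr n) : Mr n) i j = (g : Mr n) i j * Real.exp (a j - a i) := by
  rw [← ex_neg, Matrix.SpecialLinearGroup.coe_mul, Matrix.SpecialLinearGroup.coe_mul, ex_coe,
    ex_coe, Matrix.mul_diagonal, Matrix.diagonal_mul]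
  have h1 : Real.exp ((-a) i - (∑ j, (-a) j) / n) * Real.exp (a j - (∑ j, a j) / n) =
      Real.exp (a j - a i) := by
    rw [← Real.exp_add]
    congr 1
    simp only [Pi.neg_apply, Finset.sum_neg_distrib]
    ring
  rw [← h1]
  ring

private theorem upp_inv {n : ℕ} (g : SLr n) (h : Upp (g : Mr n)) :
    Upp ((g⁻¹ : SLr n) : Mr n) := by
  have h1 : ((g⁻¹ : SLr n) : Mr n) = (g : Mr n)⁻¹ := by
    rw [Matrix.SpecialLinearGroup.coe_inv, Matrix.inv_def, g.2]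
    simp
  have h2 : IsUnit (g : Mr n).det := by rw [g.2]; exact isUnit_one
  let _ := Matrix.invertibleOfIsUnitDet (g : Mr n) h2
  have h3 : (g : Mr n).BlockTriangular id := fun i j hij => h i j hij
  rw [h1]
  intro i j hij
  exact Matrix.blockTriangular_inv_of_blockTriangular h3 hij

private theorem inv_diag {n : ℕ} (g : SLr n) (h : Upp (g : Mr n)) (i : Fin n) :
    ((g⁻¹ : SLr n) : Mr n) i i * (g : Mr n) i i = 1 := by
  have h1 : (((g⁻¹ * g : SLr n)) : Mr n) i i = 1 := by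
    rw [inv_mul_cancel, Matrix.SpecialLinearGroup.coe_one, Matrix.one_apply_eq]
  rw [Matrix.SpecialLinearGroup.coe_mul, Matrix.mul_apply, Finset.sum_eq_single i] at h1
  · exact h1
  · intro b _ hb
    rcases lt_or_gt_of_ne hb with h2 | h2
    · rw [upp_inv g h i b h2, zero_mul]
    · rw [h b i h2, mul_zero]
  · intro h2
    exact absurd (Finset.mem_univ _) h2

private theorem low1_col {m : ℕ} {l l0 : SLr (m + 1)} (hl : Low1 l) (hl0 : Low1 l0)
    (i : Fin (m + 1)) :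
    ((l⁻¹ * l0 : SLr (m + 1)) : Mr (m + 1)) i 0 = (1 : Mr (m + 1)) i 0 := by
  have key : ∀ k : SLr (m + 1), Low1 k → ∀ g : SLr (m + 1),
      ((g * k : SLr (m + 1)) : Mr (m + 1)) i 0 = (g : Mr (m + 1)) i 0 := by
    intro k hk g
    rw [Matrix.SpecialLinearGroup.coe_mul, Matrix.mul_apply, Finset.sum_eq_single 0]
    · rw [hk.1.1 0, mul_one]
    · intro b _ hb
      rw [hk.2 b hb, mul_zero]
    · intro h2
      exact absurd (Finset.mem_univ _) h2
  rw [key l0 hl0, ← key l hl l⁻¹, inv_mul_cancel, Matrix.SpecialLinearGroup.coe_one]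

/-- the sums of the exponents -/
private noncomputable def SS {m : ℕ} (s : Fin m → ℤ) (i : Fin (m + 1)) : ℝ :=
  ∑ l with i ≤ l.castSucc, (s l : ℝ)

private theorem SS_anti {m : ℕ} {s : Fin m → ℤ} (hs : ∀ i, 0 ≤ s i) {i j : Fin (m + 1)}
    (hij : i ≤ j) : SS s j ≤ SS s i := by
  unfold SS
  refine Finset.sum_le_sum_of_subset_of_nonneg ?_ fun l _ _ => by exact_mod_cast hs l
  intro l hl
  rw [Finset.mem_filter] at hl ⊢
  exact ⟨hl.1, hij.trans hl.2⟩

private theorem SS_lt {m : ℕ} {s : Fin m → ℤ} {p : ℤ} (hp : 0 ≤ p) (hs : ∀ i, p ≤ s i)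
    {i j : Fin (m + 1)} (hij : i < j) : SS s j + p ≤ SS s i := by
  have him : (i : ℕ) < m := by
    have := j.2
    have : (i : ℕ) < j := hij
    omega
  have h1 : SS s i = SS s (⟨i, him⟩ : Fin m).succ + s ⟨i, him⟩ := by
    unfold SS
    have h2 : (Finset.univ.filter fun l : Fin m => i ≤ l.castSucc) =
        insert ⟨i, him⟩ (Finset.univ.filter fun l : Fin m => (⟨i, him⟩ : Fin m).succ ≤ l.castSucc) := by
      ext l
      simp only [Finset.mem_filter, Finset.mem_univ, true_and, Finset.mem_insert, Fin.le_def,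
        Fin.ext_iff, Fin.val_castSucc, Fin.val_succ]
      omega
    rw [h2, Finset.sum_insert]
    · ring
    · simp only [Finset.mem_filter, Finset.mem_univ, true_and, Fin.le_def, Fin.val_castSucc,
        Fin.val_succ]
      omega
  have h3 : SS s j ≤ SS s (⟨i, him⟩ : Fin m).succ := by
    refine SS_anti (fun i => hp.trans (hs i)) ?_
    rw [Fin.le_def, Fin.val_succ]
    exact hij
  have h4 : (p : ℝ) ≤ s ⟨i, him⟩ := by exact_mod_cast hs _
  linarith

private theorem SS_le {m : ℕ} {s : Fin m → ℤ} (hs : ∀ i, 0 ≤ s i) {i j : Fin (m + 1)}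
    (hj : j ≠ 0) :
    SS s j - SS s i ≤
      ((∑ i ∈ Finset.univ.filter (fun i : Fin m => (i : ℕ) ≠ 0), s i : ℤ) : ℝ) := by
  have h1 : 0 ≤ SS s i := Finset.sum_nonneg fun l _ => by exact_mod_cast hs l
  have h2 : SS s j ≤ ((∑ i ∈ Finset.univ.filter (fun i : Fin m => (i : ℕ) ≠ 0), s i : ℤ) : ℝ) := by
    unfold SS
    push_cast
    refine Finset.sum_le_sum_of_subset_of_nonneg ?_ fun l _ _ => by exact_mod_cast hs l
    intro l hl
    rw [Finset.mem_filter] at hl ⊢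
    refine ⟨hl.1, ?_⟩
    have h3 : (j : ℕ) ≤ l := hl.2
    have h4 : (j : ℕ) ≠ 0 := fun h => hj (Fin.ext h)
    omega
  linarith

private theorem exp_log_mul {Λ : ℕ} (hΛ : 2 ≤ Λ) (x : ℤ) :
    Real.exp (Real.log Λ * x) = (Λ : ℝ) ^ x := by
  have h0 : (0 : ℝ) < Λ := by
    have : 0 < Λ := by omega
    exact_mod_cast this
  rw [mul_comm, ← Real.log_zpow, Real.exp_log (zpow_pos h0 x)]

/-- `c` bounded by `C`; for `s ≥ p` and `Λ^{∑_{i ≥ 1} s_i} |l⁻¹ l0 - 1| ≤ Λ^{-p}` the element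
`b⁻¹ n⁻¹ l⁻¹ l0 b` is close to `ex (-c)`, where `n_ii = exp (c i)` up to `Λ^{-p}` -/
theorem theta_close {m : ℕ} {Λ : ℕ} (hΛ : 2 ≤ Λ) (C : ℝ) {V : Set (SLr (m + 1))}
    (hV : V ∈ 𝓝 (1 : SLr (m + 1))) : ∃ (p0 : ℤ) (δ : ℝ), 0 < δ ∧
    ∀ (s : Fin m → ℤ) (n l l0 : SLr (m + 1)) (c : Fin (m + 1) → ℝ),
      (∀ i, p0 ≤ s i) → Upp (n : Mr (m + 1)) → (∀ i j, |((n⁻¹ : SLr (m + 1)) : Mr (m + 1)) i j| ≤ C) →
      (∀ i, |c i| ≤ C) → ∑ i, c i = 0 → (∀ i, |Real.log ((n : Mr (m + 1)) i i) - c i| ≤ δ) →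
      (∀ i, 0 < (n : Mr (m + 1)) i i) → Low1 l → Low1 l0 →
      (∀ i j, |((l⁻¹ * l0 : SLr (m + 1)) : Mr (m + 1)) i j - (1 : Mr (m + 1)) i j| *
        (Λ : ℝ) ^ (∑ i ∈ Finset.univ.filter (fun i : Fin m => (i : ℕ) ≠ 0), s i) ≤ δ) →
      (bb Λ s)⁻¹ * n⁻¹ * l⁻¹ * l0 * bb Λ s * ex c ∈ V := by
  obtain ⟨δ0, hδ0, hgV⟩ := nhds_one_entries hV
  have hΛ1 : (1 : ℝ) < Λ := by
    have : 1 < Λ := by omega
    exact_mod_cast this
  have hΛ0 : (0 : ℝ) < Λ := by linarith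
  have hlog : 0 < Real.log Λ := Real.log_pos hΛ1
  set C1 : ℝ := |C| + 1 with hC1
  have hC11 : 0 < C1 := by positivity
  have hCC1 : C ≤ C1 := (le_abs_self C).trans (by linarith)
  set E : ℝ := Real.exp C1 with hE
  have hE0 : 0 < E := Real.exp_pos _
  -- the exponent `p0`
  obtain ⟨p, hp⟩ : ∃ p : ℕ, C1 * E * ((Λ : ℝ)⁻¹) ^ p ≤ δ0 / 3 := by
    have h1 : Tendsto (fun p : ℕ => C1 * E * ((Λ : ℝ)⁻¹) ^ p) atTop (𝓝 (C1 * E * 0)) :=
      (tendsto_pow_atTop_nhds_zero_of_lt_one (by positivity) (inv_lt_one_of_one_lt₀ hΛ1)).const_mul _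
    rw [mul_zero] at h1
    exact (h1.eventually (ge_mem_nhds (by positivity : (0 : ℝ) < δ0 / 3))).exists
  set δ : ℝ := min 1 (min (δ0 / 6) (δ0 / (3 * ((m + 1 : ℕ) * C1 * E)))) with hδ
  have hm : (0 : ℝ) < ((m + 1 : ℕ) : ℝ) := by positivity
  have hδp : 0 < δ := by
    rw [hδ]
    refine lt_min one_pos (lt_min (by positivity) (by positivity))
  have hδ1 : δ ≤ 1 := min_le_left _ _
  have hδ2 : δ ≤ δ0 / 6 := (min_le_right _ _).trans (min_le_left _ _)
  have hδ3 : δ ≤ δ0 / (3 * ((m + 1 : ℕ) * C1 * E)) := (min_le_right _ _).trans (min_le_right _ _)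
  refine ⟨p, δ, hδp, ?_⟩
  intro s n l l0 c hs hn hnC hcC hc0 hnc hnpos hl hl0 hll
  apply hgV
  have hs0 : ∀ i, 0 ≤ s i := fun i => (Int.natCast_nonneg p).trans (hs i)
  set β : Fin (m + 1) → ℝ := fun i => Real.log Λ * ∑ l with i ≤ l.castSucc, (s l : ℝ) with hβ
  have hβS : ∀ i, β i = Real.log Λ * SS s i := fun i => rfl
  have hbb : bb Λ s = ex β := rfl
  set P : SLr (m + 1) := (ex β)⁻¹ * n⁻¹ * ex β with hP
  set Q : SLr (m + 1) := (ex β)⁻¹ * (l⁻¹ * l0) * ex β with hQ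
  have hg : (bb Λ s)⁻¹ * n⁻¹ * l⁻¹ * l0 * bb Λ s * ex c = P * Q * ex c := by
    rw [hbb, hP, hQ]
    group
  have hPe : ∀ i j, (P : Mr (m + 1)) i j =
      ((n⁻¹ : SLr (m + 1)) : Mr (m + 1)) i j * Real.exp (β j - β i) :=
    fun i j => conj_entry β _ i j
  have hQe : ∀ i j, (Q : Mr (m + 1)) i j =
      ((l⁻¹ * l0 : SLr (m + 1)) : Mr (m + 1)) i j * Real.exp (β j - β i) :=
    fun i j => conj_entry β _ i j
  -- size of `Q - 1`
  have hsum0 : 0 ≤ ∑ i ∈ Finset.univ.filter (fun i : Fin m => (i : ℕ) ≠ 0), s i :=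
    Finset.sum_nonneg fun i _ => hs0 i
  have hQ1 : ∀ i j, |(Q : Mr (m + 1)) i j - (1 : Mr (m + 1)) i j| ≤ δ := by
    intro i j
    have h1 : (Q : Mr (m + 1)) i j - (1 : Mr (m + 1)) i j =
        (((l⁻¹ * l0 : SLr (m + 1)) : Mr (m + 1)) i j - (1 : Mr (m + 1)) i j) *
          Real.exp (β j - β i) := by
      rw [hQe, sub_mul]
      congr 1
      by_cases hij : i = j
      · subst hij
        rw [sub_self, Real.exp_zero, mul_one]
      · rw [Matrix.one_apply_ne hij, zero_mul]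
    rw [h1, abs_mul, abs_of_pos (Real.exp_pos _)]
    by_cases hj : j = 0
    · subst hj
      rw [low1_col hl hl0 i, sub_self, abs_zero, zero_mul]
      exact hδp.le
    · refine le_trans (mul_le_mul_of_nonneg_left ?_ (abs_nonneg _)) (hll i j)
      rw [← exp_log_mul hΛ]
      apply Real.exp_le_exp.2
      rw [hβS, hβS, ← mul_sub]
      exact mul_le_mul_of_nonneg_left (SS_le hs0 hj) hlog.le
  -- size of `P`
  have hPC : ∀ i j, |(P : Mr (m + 1)) i j| ≤ C1 := by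
    intro i j
    rcases lt_or_ge j i with h1 | h1
    · rw [hPe, upp_inv n hn i j h1, zero_mul, abs_zero]
      exact hC11.le
    · rw [hPe, abs_mul, abs_of_pos (Real.exp_pos _)]
      have h2 : Real.exp (β j - β i) ≤ 1 := by
        rw [← Real.exp_zero]
        apply Real.exp_le_exp.2
        rw [hβS, hβS, ← mul_sub]
        exact mul_nonpos_of_nonneg_of_nonpos hlog.le (by linarith [SS_anti hs0 h1])
      calc |((n⁻¹ : SLr (m + 1)) : Mr (m + 1)) i j| * Real.exp (β j - β i) ≤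
            |((n⁻¹ : SLr (m + 1)) : Mr (m + 1)) i j| * 1 :=
            mul_le_mul_of_nonneg_left h2 (abs_nonneg _)
        _ ≤ C1 := by
            rw [mul_one]
            exact (hnC i j).trans hCC1
  have hcE : ∀ j, Real.exp (c j) ≤ E := fun j =>
    Real.exp_le_exp.2 ((le_abs_self _).trans ((hcC j).trans hCC1))
  have hPd : ∀ i j, |(P : Mr (m + 1)) i j * Real.exp (c j) - (1 : Mr (m + 1)) i j| ≤
      2 * (δ0 / 3) := by
    intro i j
    rcases lt_trichotomy i j with h1 | h1 | h1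
    · rw [Matrix.one_apply_ne h1.ne, sub_zero, hPe, abs_mul, abs_mul, abs_of_pos (Real.exp_pos _),
        abs_of_pos (Real.exp_pos _)]
      have h2 : Real.exp (β j - β i) ≤ ((Λ : ℝ)⁻¹) ^ p := by
        have h3 : ((Λ : ℝ)⁻¹) ^ p = Real.exp (Real.log Λ * ((-(p : ℤ) : ℤ) : ℝ)) := by
          rw [exp_log_mul hΛ, _root_.zpow_neg, zpow_natCast, inv_pow]
        rw [h3]
        apply Real.exp_le_exp.2
        rw [hβS, hβS, ← mul_sub]
        refine mul_le_mul_of_nonneg_left ?_ hlog.le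
        have h4 := SS_lt (Int.natCast_nonneg p) hs h1
        push_cast at h4 ⊢
        linarith
      have h5 : |((n⁻¹ : SLr (m + 1)) : Mr (m + 1)) i j| ≤ C1 := (hnC i j).trans hCC1
      have h6 : |((n⁻¹ : SLr (m + 1)) : Mr (m + 1)) i j| * Real.exp (β j - β i) *
          Real.exp (c j) ≤ C1 * ((Λ : ℝ)⁻¹) ^ p * E :=
        mul_le_mul (mul_le_mul h5 h2 (Real.exp_pos _).le hC11.le) (hcE j) (Real.exp_pos _).le
          (by positivity)
      have h7 : C1 * ((Λ : ℝ)⁻¹) ^ p * E = C1 * E * ((Λ : ℝ)⁻¹) ^ p := by ring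
      linarith
    · subst h1
      rw [Matrix.one_apply_eq, hPe, sub_self, Real.exp_zero, mul_one]
      have h2 := inv_diag n hn i
      have h3 := hnpos i
      have h4 : ((n⁻¹ : SLr (m + 1)) : Mr (m + 1)) i i =
          Real.exp (-Real.log ((n : Mr (m + 1)) i i)) := by
        rw [Real.exp_neg, Real.exp_log h3]
        exact eq_inv_of_mul_eq_one_left h2
      rw [h4, ← Real.exp_add]
      have h5 := hnc i
      have h6 : |-Real.log ((n : Mr (m + 1)) i i) + c i| ≤ δ := by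
        rw [← abs_neg]
        have : -(-Real.log ((n : Mr (m + 1)) i i) + c i) = Real.log ((n : Mr (m + 1)) i i) - c i := by
          ring
        rw [this]
        exact h5
      have h7 := Real.abs_exp_sub_one_le (h6.trans hδ1)
      linarith
    · rw [Matrix.one_apply_ne h1.ne', sub_zero, hPe, upp_inv n hn i j h1, zero_mul, zero_mul,
        abs_zero]
      positivity
  -- the product
  intro i j
  rw [hg]
  have h1 : ((P * Q * ex c : SLr (m + 1)) : Mr (m + 1)) i j =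
      (∑ k, (P : Mr (m + 1)) i k * (Q : Mr (m + 1)) k j) * Real.exp (c j) := by
    rw [Matrix.SpecialLinearGroup.coe_mul, ex_coe_of_sum hc0, Matrix.mul_diagonal,
      Matrix.SpecialLinearGroup.coe_mul, Matrix.mul_apply]
  have h2 : ∑ k, (P : Mr (m + 1)) i k * (Q : Mr (m + 1)) k j = (P : Mr (m + 1)) i j +
      ∑ k, (P : Mr (m + 1)) i k * ((Q : Mr (m + 1)) k j - (1 : Mr (m + 1)) k j) := by
    have h3 : (P : Mr (m + 1)) i j = ∑ k, (P : Mr (m + 1)) i k * (1 : Mr (m + 1)) k j := by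
      rw [← Matrix.mul_apply, Matrix.mul_one]
    rw [h3, ← Finset.sum_add_distrib]
    refine Finset.sum_congr rfl fun k _ => ?_
    ring
  have h4 : |∑ k, (P : Mr (m + 1)) i k * ((Q : Mr (m + 1)) k j - (1 : Mr (m + 1)) k j)| ≤
      ((m + 1 : ℕ) : ℝ) * (C1 * δ) := by
    refine (Finset.abs_sum_le_sum_abs _ _).trans ?_
    have h5 : ∀ k ∈ (Finset.univ : Finset (Fin (m + 1))),
        |(P : Mr (m + 1)) i k * ((Q : Mr (m + 1)) k j - (1 : Mr (m + 1)) k j)| ≤ C1 * δ := by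
      intro k _
      rw [abs_mul]
      exact mul_le_mul (hPC i k) (hQ1 k j) (abs_nonneg _) hC11.le
    refine (Finset.sum_le_card_nsmul _ _ _ h5).trans ?_
    rw [Finset.card_univ, Fintype.card_fin, nsmul_eq_mul]
  have h6 : ((m + 1 : ℕ) : ℝ) * (C1 * δ) * E ≤ δ0 / 3 := by
    have h7 : 0 < 3 * (((m + 1 : ℕ) : ℝ) * C1 * E) := by positivity
    have h8 := (le_div_iff₀ h7).1 hδ3
    linarith
  rw [h1, h2, add_mul]
  have h9 : |(∑ k, (P : Mr (m + 1)) i k * ((Q : Mr (m + 1)) k j - (1 : Mr (m + 1)) k j)) *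
      Real.exp (c j)| ≤ δ0 / 3 := by
    rw [abs_mul, abs_of_pos (Real.exp_pos _)]
    refine le_trans ?_ h6
    exact mul_le_mul h4 (hcE j) (Real.exp_pos _).le (by positivity)
  have h10 : (P : Mr (m + 1)) i j * Real.exp (c j) +
      (∑ k, (P : Mr (m + 1)) i k * ((Q : Mr (m + 1)) k j - (1 : Mr (m + 1)) k j)) *
        Real.exp (c j) - (1 : Mr (m + 1)) i j =
      ((P : Mr (m + 1)) i j * Real.exp (c j) - (1 : Mr (m + 1)) i j) +
      (∑ k, (P : Mr (m + 1)) i k * ((Q : Mr (m + 1)) k j - (1 : Mr (m + 1)) k j)) *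
        Real.exp (c j) := by ring
  rw [h10]
  refine (abs_add_le _ _).trans ?_
  linarith [hPd i j]

end Pool.Agent.Lib.MP_41a456_al.TC
end

section

/-!
# MP_41a456_al, Theorem TC, G5: points (paper 521, (7.3), (7.5))

Paper 521, section 7, `n = m + 1`.
`ucol_pv`: `l0 = 1 ⊕ l0''`. `point_eq`: `k⁻¹ = n⁻¹ l⁻¹ u(v)⁻¹ σ`, `σ ∈ Gam`,
`l⁻¹ u(v)⁻¹ = l⁻¹ l0 · u(pv l0 v)⁻¹ l0⁻¹`. `th_point`: `theta (b⁻¹) = b`, `theta k' = k'` (orthogonal), `th (pt 1) = pt 1`,
and `k' • pt 1 = (ex a)⁻¹ k⁻¹ • pt 1` because `iz x = k e^a k' ∈ Gam`.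
-/

namespace Pool.Agent.Lib.MP_41a456_al.TC

open Matrix MeasureTheory Filter Topology Pool.Agent.Lib.MP_41a456_al

/-- the coordinates of `l0⁻¹ u(v) l0` -/
noncomputable def pv {m : ℕ} (l0 : SLr (m + 1)) (v : Fin m → ℝ) : Fin m → ℝ :=
  fun j => ∑ i, ((l0⁻¹ : SLr (m + 1)) : Mr (m + 1)) j.succ i.succ * v i

private theorem coe_mul_inv {n : ℕ} (g : SLr n) :
    (g : Mr n) * ((g⁻¹ : SLr n) : Mr n) = 1 := by
  have h : ((g * g⁻¹ : SLr n) : Mr n) = 1 := by
    rw [mul_inv_cancel, Matrix.SpecialLinearGroup.coe_one]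
  rwa [Matrix.SpecialLinearGroup.coe_mul] at h

private theorem row_zero {m : ℕ} {l0 : SLr (m + 1)} (h : Low1 l0) (k : Fin (m + 1)) :
    ((l0⁻¹ : SLr (m + 1)) : Mr (m + 1)) 0 k = (1 : Mr (m + 1)) 0 k := by
  have h1 := congrFun (congrFun (coe_mul_inv l0) 0) k
  rw [Matrix.mul_apply, Finset.sum_eq_single 0] at h1
  · rw [h.1.1 0, one_mul] at h1
    exact h1
  · intro j _ hj
    rw [h.1.2 0 j (Fin.pos_of_ne_zero hj), zero_mul]
  · intro h2
    exact absurd (Finset.mem_univ _) h2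

private theorem ucol_pv_aux {m : ℕ} {l0 : SLr (m + 1)} (h : Low1 l0) (v : Fin m → ℝ) :
    l0⁻¹ * ucol v = ucol (pv l0 v) * l0⁻¹ := by
  apply Subtype.ext
  change ((l0⁻¹ * ucol v : SLr (m + 1)) : Mr (m + 1)) =
    ((ucol (pv l0 v) * l0⁻¹ : SLr (m + 1)) : Mr (m + 1))
  rw [Matrix.SpecialLinearGroup.coe_mul, Matrix.SpecialLinearGroup.coe_mul]
  refine Matrix.ext_of_mulVec_single fun i => ?_
  rw [← Matrix.mulVec_mulVec, ← Matrix.mulVec_mulVec]
  generalize (Pi.single i 1 : Fin (m + 1) → ℝ) = w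
  rw [ucol_mulVec, ucol_mulVec]
  have h0 : (((l0⁻¹ : SLr (m + 1)) : Mr (m + 1)) *ᵥ w) 0 = w 0 := by
    rw [Matrix.mulVec, dotProduct, Finset.sum_eq_single 0]
    · rw [row_zero h, Matrix.one_apply_eq, one_mul]
    · intro j _ hj
      rw [row_zero h, Matrix.one_apply_ne (Ne.symm hj), zero_mul]
    · intro h2
      exact absurd (Finset.mem_univ _) h2
  funext j
  refine Fin.cases ?_ (fun l => ?_) j
  · rw [Fin.cons_zero, h0]
    rw [Matrix.mulVec, dotProduct, Finset.sum_eq_single 0]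
    · rw [row_zero h, Matrix.one_apply_eq, one_mul, Fin.cons_zero]
    · intro j _ hj
      rw [row_zero h, Matrix.one_apply_ne (Ne.symm hj), zero_mul]
    · intro h2
      exact absurd (Finset.mem_univ _) h2
  · rw [Fin.cons_succ, h0]
    simp only [Matrix.mulVec, dotProduct]
    rw [Fin.sum_univ_succ, Fin.sum_univ_succ]
    simp only [Fin.cons_zero, Fin.cons_succ]
    unfold pv
    rw [Finset.sum_mul, add_assoc, ← Finset.sum_add_distrib]
    congr 1
    refine Finset.sum_congr rfl fun i _ => ?_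
    ring

theorem ucol_pv {m : ℕ} {l0 : SLr (m + 1)} (h : Low1 l0) (v : Fin m → ℝ) :
    l0⁻¹ * (ucol v)⁻¹ = (ucol (pv l0 v))⁻¹ * l0⁻¹ := by
  have h1 := ucol_pv_aux h v
  rw [← mul_inv_eq_iff_eq_mul] at h1
  rw [← h1]
  group

/-- `|v1 - v| ≤ m C |pv l0 v1 - pv l0 v|` -/
theorem pv_sub_le {m : ℕ} {l0 : SLr (m + 1)} (h : Low1 l0) {C : ℝ} (hC : 0 ≤ C)
    (hl : ∀ i j, |(l0 : Mr (m + 1)) i j| ≤ C) (v v1 : Fin m → ℝ) {ε : ℝ}
    (hv : ∀ j, |pv l0 v1 j - pv l0 v j| ≤ ε) (j : Fin m) : |v1 j - v j| ≤ m * C * ε := by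
  have key : ∀ u : Fin m → ℝ, u j = ∑ i : Fin m, (l0 : Mr (m + 1)) j.succ i.succ * pv l0 u i := by
    intro u
    have h1 : ∀ k : Fin m, ∑ i : Fin m, (l0 : Mr (m + 1)) j.succ i.succ *
        ((l0⁻¹ : SLr (m + 1)) : Mr (m + 1)) i.succ k.succ = (1 : Mr (m + 1)) j.succ k.succ := by
      intro k
      have h2 := congrFun (congrFun (coe_mul_inv l0) j.succ) k.succ
      rw [Matrix.mul_apply, Fin.sum_univ_succ, h.2 _ (Fin.succ_ne_zero j), zero_mul, zero_add] at h2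
      exact h2
    unfold pv
    simp only [Finset.mul_sum]
    rw [Finset.sum_comm]
    have h3 : ∀ k : Fin m, ∑ i : Fin m, (l0 : Mr (m + 1)) j.succ i.succ *
        (((l0⁻¹ : SLr (m + 1)) : Mr (m + 1)) i.succ k.succ * u k) =
        (1 : Mr (m + 1)) j.succ k.succ * u k := by
      intro k
      rw [← h1 k, Finset.sum_mul]
      refine Finset.sum_congr rfl fun i _ => ?_
      ring
    rw [Finset.sum_congr rfl fun k _ => h3 k, Finset.sum_eq_single j]
    · rw [Matrix.one_apply_eq, one_mul]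
    · intro k _ hk
      rw [Matrix.one_apply_ne (fun h4 => hk (Fin.succ_injective _ h4).symm), zero_mul]
    · intro h2
      exact absurd (Finset.mem_univ _) h2
  rw [key v1, key v, ← Finset.sum_sub_distrib]
  calc |∑ i : Fin m, ((l0 : Mr (m + 1)) j.succ i.succ * pv l0 v1 i -
        (l0 : Mr (m + 1)) j.succ i.succ * pv l0 v i)|
      ≤ ∑ i : Fin m, |(l0 : Mr (m + 1)) j.succ i.succ * pv l0 v1 i -
        (l0 : Mr (m + 1)) j.succ i.succ * pv l0 v i| := Finset.abs_sum_le_sum_abs _ _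
    _ ≤ ∑ _i : Fin m, C * ε := by
        refine Finset.sum_le_sum fun i _ => ?_
        rw [← mul_sub, abs_mul]
        exact mul_le_mul (hl _ _) (hv i) (abs_nonneg _) hC
    _ = m * C * ε := by
        rw [Finset.sum_const, Finset.card_univ, Fintype.card_fin, nsmul_eq_mul]
        ring

private theorem pt_mul_mem {n : ℕ} (g : SLr n) {c : SLr n} (hc : c ∈ Gam n) :
    pt (g * c) = pt g := by
  refine QuotientGroup.eq.2 ?_
  have h : (g * c)⁻¹ * g = c⁻¹ := by group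
  rw [h]
  exact (Gam n).inv_mem hc

theorem point_eq {m : ℕ} {C : ℝ} {Λ : ℕ} {k : SLr (m + 1)} {σ : SLn (m + 1)} {v : Fin m → ℝ}
    {l n : SLr (m + 1)} (h : Chart C k σ v l n) {l0 : SLr (m + 1)} (h0 : Low1 l0) (s : Fin m → ℤ) :
    ((bb Λ s)⁻¹ * k⁻¹) • (pt 1 : X (m + 1)) =
      ((bb Λ s)⁻¹ * n⁻¹ * l⁻¹ * l0 * bb Λ s) • yh Λ (pv l0 v) (pt l0⁻¹) s := by
  unfold yh
  rw [smul_pt, smul_pt, smul_pt]
  have h1 : (bb Λ s)⁻¹ * n⁻¹ * l⁻¹ * l0 * bb Λ s * ((bb Λ s)⁻¹ * (ucol (pv l0 v))⁻¹ * l0⁻¹) =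
      (bb Λ s)⁻¹ * n⁻¹ * l⁻¹ * (ucol v)⁻¹ := by
    rw [mul_assoc (bb Λ s)⁻¹ (ucol (pv l0 v))⁻¹, ← ucol_pv h0 v]
    group
  have h2 : (bb Λ s)⁻¹ * k⁻¹ * 1 = (bb Λ s)⁻¹ * n⁻¹ * l⁻¹ * (ucol v)⁻¹ * iz (m + 1) σ := by
    rw [h.eq]
    group
  rw [h1, h2]
  exact pt_mul_mem _ ⟨σ, rfl⟩

theorem th_point {m : ℕ} {Λ : ℕ} {x : SLn (m + 1)} {k k' : SLr (m + 1)} {a : Fin (m + 1) → ℝ}
    (hk' : Orth k') (hx : iz (m + 1) x = k * ex a * k') (s sh : Fin m → ℤ) :
    th (((bb Λ s)⁻¹ * k') • (pt 1 : X (m + 1))) =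
      ((ex a)⁻¹ * bb Λ sh) • (((bb Λ (fun i => sh i - s i))⁻¹ * k⁻¹) • (pt 1 : X (m + 1))) := by
  have hb : theta (m + 1) (bb Λ s)⁻¹ = bb Λ s := by
    rw [map_inv]
    unfold bb
    rw [theta_ex, inv_inv]
  have hk : theta (m + 1) k' = k' := by
    rw [theta_apply, inv_eq_iff_mul_eq_one]
    apply Subtype.ext
    change ((tr k' * k' : SLr (m + 1)) : Mr (m + 1)) = ((1 : SLr (m + 1)) : Mr (m + 1))
    rw [Matrix.SpecialLinearGroup.coe_mul, Matrix.SpecialLinearGroup.coe_one]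
    exact hk'
  have hs : bb Λ sh = bb Λ s * bb Λ (fun i => sh i - s i) := by
    rw [← bb_add]
    congr 1
    funext i
    simp
  have hcomm : (ex a)⁻¹ * bb Λ s = bb Λ s * (ex a)⁻¹ := by
    rw [← ex_neg]
    unfold bb
    exact ex_comm _ _
  rw [th_smul, th_pt, map_mul, hb, hk, map_one, smul_pt, smul_pt, smul_pt, mul_one, mul_one]
  have h1 : (ex a)⁻¹ * bb Λ sh * ((bb Λ (fun i => sh i - s i))⁻¹ * k⁻¹) =
      bb Λ s * (ex a)⁻¹ * k⁻¹ := by
    rw [hs, ← hcomm]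
    group
  have h2 : bb Λ s * k' = bb Λ s * (ex a)⁻¹ * k⁻¹ * iz (m + 1) x := by
    rw [hx]
    group
  rw [h1, h2]
  exact pt_mul_mem _ ⟨x, rfl⟩

/-- `theta (g⁻¹)` for a matrix close to a diagonal one -/
theorem continuous_theta {n : ℕ} : Continuous (theta n) := by
  have h : Continuous (tr : SLr n → SLr n) := by
    refine continuous_induced_rng.2 ?_
    change Continuous fun g : SLr n => (g : Mr n)ᵀ
    exact Continuous.matrix_transpose continuous_subtype_val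
  have h1 : (theta n : SLr n → SLr n) = fun g => (tr g)⁻¹ := by
    funext g
    exact theta_apply g
  rw [h1]
  exact h.inv

end Pool.Agent.Lib.MP_41a456_al.TC
end
end

section

section

/-!
# MP_41a456_al, Theorem TC, H1b: forward inequality: sums over boxes

Paper 521, section 8, `n = m + 1`, coordinates of `v ∈ ℝ^m`. Cubes of level `l`: `Λ^{-l} (q + [0,1)^m)`,
`q` integral, `qf Λ l v` = the cube of level `l` which contains `v`. `stt Λ y l q = u(q)⁻¹ W^l y` the state of the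
cube `q` of level `l` (base point `y`), `st Λ y l v` = state of the cube containing `v`,
`zz Λ y l v = W^l u(v)⁻¹ y`.
Division with remainder: `q' = Λ^i q + r`.
-/

namespace Pool.Agent.Lib.MP_41a456_al.TC

open Matrix MeasureTheory Filter Topology Pool.Agent.Lib.MP_41a456_al

private theorem mem_Box {m : ℕ} {Λ B l : ℕ} {q : Fin m → ℤ} :
    q ∈ (Box Λ B l : Finset (Fin m → ℤ)) ↔
      ∀ j, -((B : ℤ) * (Λ : ℤ) ^ l) ≤ q j ∧ q j < (B : ℤ) * (Λ : ℤ) ^ l := by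
  unfold Box
  rw [Fintype.mem_piFinset]
  exact forall_congr' fun j => Finset.mem_Ico

theorem box_sum {m : ℕ} {Λ : ℕ} (hΛ : 1 ≤ Λ) (B l i : ℕ) (φ : (Fin m → ℤ) → ℝ) :
    ∑ q ∈ Box Λ B (l + i), φ q =
      ∑ q ∈ Box Λ B l, ∑ r : Fin m → Fin (Λ ^ i), φ fun j => (Λ : ℤ) ^ i * q j + ((r j : ℕ) : ℤ) := by
  have hpos : (0 : ℤ) < (Λ : ℤ) ^ i := by
    have : (0 : ℤ) < Λ := by exact_mod_cast hΛ
    positivity
  have hlt : ∀ x : ℤ, (x % (Λ : ℤ) ^ i).toNat < Λ ^ i := by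
    intro x
    have h1 := Int.emod_lt_of_pos x hpos
    have h2 := Int.emod_nonneg x hpos.ne'
    have h3 : (((x % (Λ : ℤ) ^ i).toNat : ℕ) : ℤ) < ((Λ ^ i : ℕ) : ℤ) := by
      rw [Int.toNat_of_nonneg h2]
      push_cast
      exact h1
    exact_mod_cast h3
  rw [← Finset.sum_product']
  refine Finset.sum_nbij'
    (fun q => ((fun j => q j / (Λ : ℤ) ^ i : Fin m → ℤ),
      (fun j => ⟨(q j % (Λ : ℤ) ^ i).toNat, hlt (q j)⟩ : Fin m → Fin (Λ ^ i))))
    (fun p => fun j => (Λ : ℤ) ^ i * p.1 j + ((p.2 j : ℕ) : ℤ)) ?_ ?_ ?_ ?_ ?_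
  · intro q hq
    rw [mem_Box] at hq
    rw [Finset.mem_product]
    refine ⟨?_, Finset.mem_univ _⟩
    rw [mem_Box]
    intro j
    have h := hq j
    rw [pow_add] at h
    constructor
    · rw [Int.le_ediv_iff_mul_le hpos]
      linarith [h.1]
    · rw [Int.ediv_lt_iff_lt_mul hpos]
      linarith [h.2]
  · intro p hp
    rw [Finset.mem_product, mem_Box] at hp
    rw [mem_Box]
    intro j
    have h := hp.1 j
    have h1 : ((p.2 j : ℕ) : ℤ) < (Λ : ℤ) ^ i := by exact_mod_cast (p.2 j).2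
    have h0 : (0 : ℤ) ≤ ((p.2 j : ℕ) : ℤ) := Int.natCast_nonneg _
    have h2 : p.1 j + 1 ≤ (B : ℤ) * (Λ : ℤ) ^ l := h.2
    have h3 := mul_le_mul_of_nonneg_left h2 hpos.le
    have h4 := mul_le_mul_of_nonneg_left h.1 hpos.le
    rw [pow_add]
    constructor
    · nlinarith [h4, h0]
    · nlinarith [h3, h1]
  · intro q _
    funext j
    change (Λ : ℤ) ^ i * (q j / (Λ : ℤ) ^ i) + (((q j % (Λ : ℤ) ^ i).toNat : ℕ) : ℤ) = q j
    rw [Int.toNat_of_nonneg (Int.emod_nonneg _ hpos.ne')]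
    exact Int.mul_ediv_add_emod _ _
  · intro p _
    have h1 : ∀ j, ((p.2 j : ℕ) : ℤ) < (Λ : ℤ) ^ i := fun j => by exact_mod_cast (p.2 j).2
    have h0 : ∀ j, (0 : ℤ) ≤ ((p.2 j : ℕ) : ℤ) := fun j => Int.natCast_nonneg _
    refine Prod.ext ?_ ?_
    · funext j
      change ((Λ : ℤ) ^ i * p.1 j + ((p.2 j : ℕ) : ℤ)) / (Λ : ℤ) ^ i = p.1 j
      rw [add_comm, Int.add_mul_ediv_left _ _ hpos.ne', Int.ediv_eq_zero_of_lt (h0 j) (h1 j),
        zero_add]
    · funext j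
      apply Fin.ext
      change (((Λ : ℤ) ^ i * p.1 j + ((p.2 j : ℕ) : ℤ)) % (Λ : ℤ) ^ i).toNat = (p.2 j : ℕ)
      rw [add_comm, Int.add_mul_emod_self_left, Int.emod_eq_of_lt (h0 j) (h1 j)]
      exact Int.toNat_natCast _
  · intro q _
    congr 1
    funext j
    change q j = (Λ : ℤ) ^ i * (q j / (Λ : ℤ) ^ i) + (((q j % (Λ : ℤ) ^ i).toNat : ℕ) : ℤ)
    rw [Int.toNat_of_nonneg (Int.emod_nonneg _ hpos.ne')]
    exact (Int.mul_ediv_add_emod _ _).symm

/-- splitting off the first digit -/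
theorem digit_sum {m : ℕ} {Λ : ℕ} (hΛ : 1 ≤ Λ) (i : ℕ) (φ : (Fin m → ℤ) → ℝ) :
    ∑ r : Fin m → Fin (Λ ^ (i + 1)), φ (fun j => ((r j : ℕ) : ℤ)) =
      ∑ p : Fin m → Fin Λ, ∑ r : Fin m → Fin (Λ ^ i),
        φ fun j => (Λ : ℤ) ^ i * ((p j : ℕ) : ℤ) + ((r j : ℕ) : ℤ) := by
  have hpos : 0 < Λ ^ i := pow_pos hΛ i
  rw [← Fintype.sum_prod_type']
  refine Finset.sum_nbij'
    (fun q => ((fun j => ⟨(q j : ℕ) / Λ ^ i, by
        rw [Nat.div_lt_iff_lt_mul hpos]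
        exact lt_of_lt_of_eq (q j).2 (pow_succ' Λ i)⟩ : Fin m → Fin Λ),
      (fun j => ⟨(q j : ℕ) % Λ ^ i, Nat.mod_lt _ hpos⟩ : Fin m → Fin (Λ ^ i))))
    (fun p => fun j => ⟨Λ ^ i * (p.1 j : ℕ) + (p.2 j : ℕ), by
        have h1 := (p.1 j).2
        have h2 := (p.2 j).2
        have h3 : (p.1 j : ℕ) + 1 ≤ Λ := h1
        have h4 := Nat.mul_le_mul_left (Λ ^ i) h3
        rw [pow_succ]
        nlinarith [h4, h2]⟩) ?_ ?_ ?_ ?_ ?_
  · intro q _
    exact Finset.mem_univ _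
  · intro q _
    exact Finset.mem_univ _
  · intro q _
    funext j
    apply Fin.ext
    change Λ ^ i * ((q j : ℕ) / Λ ^ i) + (q j : ℕ) % Λ ^ i = (q j : ℕ)
    exact Nat.div_add_mod _ _
  · intro p _
    refine Prod.ext ?_ ?_
    · funext j
      apply Fin.ext
      change (Λ ^ i * (p.1 j : ℕ) + (p.2 j : ℕ)) / Λ ^ i = (p.1 j : ℕ)
      rw [Nat.mul_add_div hpos, Nat.div_eq_of_lt (p.2 j).2, add_zero]
    · funext j
      apply Fin.ext
      change (Λ ^ i * (p.1 j : ℕ) + (p.2 j : ℕ)) % Λ ^ i = (p.2 j : ℕ)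
      rw [Nat.mul_add_mod, Nat.mod_eq_of_lt (p.2 j).2]
  · intro q _
    congr 1
    funext j
    change (((q j : ℕ) : ℕ) : ℤ) = (Λ : ℤ) ^ i * (((q j : ℕ) / Λ ^ i : ℕ) : ℤ) +
      (((q j : ℕ) % Λ ^ i : ℕ) : ℤ)
    have := Nat.div_add_mod (q j : ℕ) (Λ ^ i)
    exact_mod_cast this.symm

theorem card_Box {m : ℕ} (Λ B l : ℕ) :
    ((Box Λ B l : Finset (Fin m → ℤ)).card : ℝ) = ((2 * B : ℝ) * (Λ : ℝ) ^ l) ^ m := by
  unfold Box
  rw [Fintype.card_piFinset]
  simp only [Int.card_Ico, Finset.prod_const, Finset.card_univ, Fintype.card_fin]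
  have h : ((B : ℤ) * (Λ : ℤ) ^ l - -((B : ℤ) * (Λ : ℤ) ^ l)).toNat = 2 * B * Λ ^ l := by
    have h1 : ((B : ℤ) * (Λ : ℤ) ^ l - -((B : ℤ) * (Λ : ℤ) ^ l)) = ((2 * B * Λ ^ l : ℕ) : ℤ) := by
      push_cast
      ring
    rw [h1, Int.toNat_natCast]
  rw [h]
  push_cast
  ring

theorem qf_mem_Box {m : ℕ} {Λ : ℕ} (hΛ : 1 ≤ Λ) (B l : ℕ) {v : Fin m → ℝ}
    (h : ∀ j, -(B : ℝ) ≤ v j ∧ v j < B) : qf Λ l v ∈ Box Λ B l := by
  have hpos : (0 : ℝ) < (Λ : ℝ) ^ l := by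
    have : (0 : ℝ) < Λ := by exact_mod_cast hΛ
    positivity
  rw [mem_Box]
  intro j
  have h1 := mul_le_mul_of_nonneg_left (h j).1 hpos.le
  have h2 := mul_lt_mul_of_pos_left (h j).2 hpos
  unfold qf
  constructor
  · rw [Int.le_floor]
    push_cast
    nlinarith [h1]
  · rw [Int.floor_lt]
    push_cast
    nlinarith [h2]

end Pool.Agent.Lib.MP_41a456_al.TC
end

section

/-!
# MP_41a456_al, Theorem TC, H2: forward inequality: few cubes have a type (paper 521, (8.1))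

Paper 521, section 8, `n = m + 1`, coordinates of `v ∈ ℝ^m`. Cubes of level `l`: `Λ^{-l} (q + [0,1)^m)`,
`q` integral, `qf Λ l v` = the cube of level `l` which contains `v`. `stt Λ y l q = u(q)⁻¹ W^l y` the state of the
cube `q` of level `l` (base point `y`), `st Λ y l v` = state of the cube containing `v`,
`zz Λ y l v = W^l u(v)⁻¹ y`.
`z = W^l u(p)⁻¹ y`, `W^l u(p')⁻¹ y = u(Λ^l (p' - p))⁻¹ z` (`W_pow_ucol` of H1 or directly): so if `p, p'` are
both such that level `l` is good (point in `S`), `|p_i - p'_i| ≤ eps Λ^{-l}` for `i ≠ j` and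
`|p_j - p'_j| ≤ Λ Λ^{-l}`, then `|p_j - p'_j| < Λ^{-l-1}`. Fix the set `F ⊆ range L` of bad levels of `p` (`2^L`
choices, `|F| ≤ d L`) and boxes of side `eps Λ^{-L}` for the coordinates `i ≠ j` (at most
`⌈Λ^L / eps⌉ ≤ 2 Λ^L / eps` for each). Claim: for `l ≤ L` the set of these `p` is covered by at most `(Λ+1)^{#(F ∩ [0,l))}`
pieces of `p_j`-diameter `≤ Λ^{-l}`: `l = 0` is clear; a good level `l` reduces the diameter of every
piece to `< Λ^{-l-1}`; at a bad level divide the pieces into at most `Λ + 1` pieces. For `l = L` every piece is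
contained in a box with sides `≤ Λ^{-L}`, so it meets at most `2^m` cubes of level `L`.
-/

namespace Pool.Agent.Lib.MP_41a456_al.TC

open Matrix MeasureTheory Filter Topology Pool.Agent.Lib.MP_41a456_al

private theorem Wpow_conj {m : ℕ} {Λ : ℕ} (hΛ : 1 ≤ Λ) (l : ℕ) (v : Fin m → ℝ) :
    (W Λ (0 : Fin (m + 1))) ^ l * ucol v = ucol (fun i => (Λ : ℝ) ^ l * v i) * (W Λ 0) ^ l := by
  induction l with
  | zero => simp
  | succ l ih =>
    have h1 : ∀ w : Fin m → ℝ, W Λ (0 : Fin (m + 1)) * ucol w =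
        ucol (fun i => (Λ : ℝ) * w i) * W Λ 0 := by
      intro w
      have h2 := W_ucol hΛ w
      rw [mul_inv_eq_iff_eq_mul] at h2
      exact h2
    rw [pow_succ', _root_.mul_assoc, ih, ← _root_.mul_assoc, h1, _root_.mul_assoc]
    congr 2
    funext i
    rw [pow_succ]
    ring

/-- two points at the level `l` differ by a unipotent element -/
private theorem shift_pt {m : ℕ} {Λ : ℕ} (hΛ : 1 ≤ Λ) (l : ℕ) (p p' : Fin m → ℝ) (y : X (m + 1)) :
    (W Λ (0 : Fin (m + 1))) ^ l • (ucol p')⁻¹ • y =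
      (ucol (fun i => (Λ : ℝ) ^ l * (p' i - p i)))⁻¹ • (W Λ (0 : Fin (m + 1))) ^ l • (ucol p)⁻¹ • y := by
  have h1 : (ucol p')⁻¹ = (ucol fun i => p' i - p i)⁻¹ * (ucol p)⁻¹ := by
    rw [← ucol_neg, ← ucol_neg, ← ucol_neg, ← ucol_add]
    congr 1
    funext i
    simp only [Pi.neg_apply, Pi.add_apply]
    ring
  have h2 : (W Λ (0 : Fin (m + 1))) ^ l * (ucol fun i => p' i - p i)⁻¹ =
      (ucol (fun i => (Λ : ℝ) ^ l * (p' i - p i)))⁻¹ * (W Λ 0) ^ l := by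
    rw [← ucol_neg, ← ucol_neg, Wpow_conj hΛ]
    congr 2
    funext i
    simp only [Pi.neg_apply]
    ring
  rw [h1, smul_smul, smul_smul, smul_smul, ← _root_.mul_assoc, h2, _root_.mul_assoc]

/-- numbers with the same floor -/
private theorem floor_same {a b : ℝ} (ha : 0 ≤ a) (hb : 0 ≤ b) (heq : ⌊a⌋₊ = ⌊b⌋₊) : |a - b| < 1 := by
  have f1 := Nat.floor_le ha
  have f2 := Nat.lt_floor_add_one a
  have f3 := Nat.floor_le hb
  have f4 := Nat.lt_floor_add_one b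
  rw [heq] at f1 f2
  rw [abs_lt]
  constructor <;> linarith

/-- floors of close numbers, large step -/
private theorem floor_close {a b : ℝ} {N : ℕ} (ha : 0 ≤ a) (hb : 0 ≤ b) (h : |a - b| ≤ N)
    (hmod : ⌊a⌋₊ % (N + 1) = ⌊b⌋₊ % (N + 1)) : |a - b| < 1 := by
  have h1 := (abs_le.1 h).1
  have h2 := (abs_le.1 h).2
  have e1 : ⌊a⌋₊ ≤ ⌊b⌋₊ + N := by
    rw [← Nat.floor_add_natCast hb]
    exact Nat.floor_le_floor (by linarith)
  have e2 : ⌊b⌋₊ ≤ ⌊a⌋₊ + N := by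
    rw [← Nat.floor_add_natCast ha]
    exact Nat.floor_le_floor (by linarith)
  have heq : ⌊a⌋₊ = ⌊b⌋₊ := by
    have hm : Nat.ModEq (N + 1) ⌊a⌋₊ ⌊b⌋₊ := hmod
    rcases le_total ⌊a⌋₊ ⌊b⌋₊ with hle | hle
    · have hd := (Nat.modEq_iff_dvd' hle).1 hm
      have : ⌊b⌋₊ - ⌊a⌋₊ = 0 := Nat.eq_zero_of_dvd_of_lt hd (by omega)
      omega
    · have hd := (Nat.modEq_iff_dvd' hle).1 hm.symm
      have : ⌊a⌋₊ - ⌊b⌋₊ = 0 := Nat.eq_zero_of_dvd_of_lt hd (by omega)
      omega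
  exact floor_same ha hb heq

/-- integer floors of numbers at distance at most one with the same parity -/
private theorem floor_parity {a b : ℝ} (h : |a - b| ≤ 1)
    (hpar : decide (⌊a⌋ % 2 = 0) = decide (⌊b⌋ % 2 = 0)) : ⌊a⌋ = ⌊b⌋ := by
  have h1 := (abs_le.1 h).1
  have h2 := (abs_le.1 h).2
  have e1 : ⌊a⌋ ≤ ⌊b⌋ + 1 := by
    rw [← Int.floor_add_one]
    exact Int.floor_le_floor (by linarith)
  have e2 : ⌊b⌋ ≤ ⌊a⌋ + 1 := by
    rw [← Int.floor_add_one]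
    exact Int.floor_le_floor (by linarith)
  have hp : (⌊a⌋ % 2 = 0) ↔ (⌊b⌋ % 2 = 0) := by
    simpa using hpar
  omega

theorem type_count {m : ℕ} (hm : 1 ≤ m) {Λ : ℕ} (hΛ : 2 ≤ Λ) (L : ℕ) {eps d : ℝ} (he : 0 < eps)
    (he1 : eps ≤ 1) (hd : 0 ≤ d) (j : Fin m) (S : Set (X (m + 1))) (hS : Star Λ eps j S)
    (y : X (m + 1)) (Q : Finset (Fin m → ℤ))
    (hQ : ∀ q ∈ Q, ∃ p : Fin m → ℝ, (∀ i, 0 ≤ p i ∧ p i < 1) ∧ qf Λ L p = q ∧
      Ty Λ L d S ((ucol p)⁻¹ • y)) :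
    (Q.card : ℝ) ≤ 2 ^ L * (2 * (Λ : ℝ) ^ L / eps) ^ (m - 1) * ((Λ : ℝ) + 1) ^ (d * L) * 2 ^ m := by
  classical
  have hΛ1 : 1 ≤ Λ := by omega
  have hΛr : (1 : ℝ) ≤ (Λ : ℝ) := by exact_mod_cast hΛ1
  have hΛpos : (0 : ℝ) < (Λ : ℝ) := by linarith
  have hLpos : ∀ l : ℕ, (0 : ℝ) < (Λ : ℝ) ^ l := fun l => pow_pos hΛpos l
  -- choice of the points
  have hQ' : ∀ q : Fin m → ℤ, ∃ p : Fin m → ℝ, q ∈ Q → (∀ i, 0 ≤ p i ∧ p i < 1) ∧ qf Λ L p = q ∧
      Ty Λ L d S ((ucol p)⁻¹ • y) := by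
    intro q
    by_cases hq : q ∈ Q
    · obtain ⟨p, hp⟩ := hQ q hq
      exact ⟨p, fun _ => hp⟩
    · exact ⟨0, fun h => absurd h hq⟩
  choose P hP using hQ'
  -- the bad levels
  let bad : (Fin m → ℤ) → Finset ℕ := fun q =>
    (Finset.range L).filter (fun l => ((W Λ (0 : Fin (m + 1))) ^ l) • (ucol (P q))⁻¹ • y ∉ S)
  have hbad : ∀ q ∈ Q, ((bad q).card : ℝ) ≤ d * L := by
    intro q hq
    refine (hP q hq).2.2 (bad q) ?_
    intro l hl
    obtain ⟨h1, h2⟩ := Finset.mem_filter.1 hl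
    exact ⟨Finset.mem_range.1 h1, h2⟩
  -- the number of boxes
  set B : ℕ := ⌈(Λ : ℝ) ^ L / eps⌉₊ with hB
  have hquot : 1 ≤ (Λ : ℝ) ^ L / eps := by
    rw [le_div_iff₀ he, one_mul]
    exact le_trans he1 (one_le_pow₀ hΛr)
  have hBle : (B : ℝ) ≤ 2 * (Λ : ℝ) ^ L / eps := by
    have h1 : (B : ℝ) < (Λ : ℝ) ^ L / eps + 1 := Nat.ceil_lt_add_one (by linarith)
    have h2 : 2 * (Λ : ℝ) ^ L / eps = (Λ : ℝ) ^ L / eps + (Λ : ℝ) ^ L / eps := by ring
    rw [h2]
    linarith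
  -- one set of bad levels
  have hone : ∀ F : Finset ℕ, (Q.filter (fun q => bad q = F)).card ≤
      B ^ (m - 1) * (Λ + 1) ^ F.card * 2 ^ m := by
    intro F
    let code : (Fin m → ℤ) → ({i : Fin m // i ≠ j} → ℕ) × (F → ℕ) × (Fin m → Bool) := fun q =>
      (fun i => ⌊P q i * ((Λ : ℝ) ^ L / eps)⌋₊,
       fun l => ⌊(Λ : ℝ) ^ ((l : ℕ) + 1) * P q j⌋₊ % (Λ + 1),
       fun i => decide (⌊(Λ : ℝ) ^ L * P q i⌋ % 2 = 0))
    let tgt : Finset (({i : Fin m // i ≠ j} → ℕ) × (F → ℕ) × (Fin m → Bool)) :=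
      (Fintype.piFinset fun _ => Finset.range B) ×ˢ
        ((Fintype.piFinset fun _ => Finset.range (Λ + 1)) ×ˢ Finset.univ)
    have hmaps : ∀ q ∈ Q.filter (fun q => bad q = F), code q ∈ tgt := by
      intro q hq
      have hqQ := (Finset.mem_filter.1 hq).1
      refine Finset.mem_product.2 ⟨?_, Finset.mem_product.2 ⟨?_, Finset.mem_univ _⟩⟩
      · rw [Fintype.mem_piFinset]
        intro i
        rw [Finset.mem_range]
        have hp := (hP q hqQ).1 i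
        change ⌊P q i * ((Λ : ℝ) ^ L / eps)⌋₊ < B
        rw [Nat.floor_lt (mul_nonneg hp.1 (by linarith))]
        refine lt_of_lt_of_le ?_ (Nat.le_ceil _)
        nlinarith [hp.2]
      · rw [Fintype.mem_piFinset]
        intro l
        rw [Finset.mem_range]
        exact Nat.mod_lt _ (Nat.succ_pos _)
    have hinj : Set.InjOn code (Q.filter (fun q => bad q = F) : Finset (Fin m → ℤ)) := by
      intro q hq q' hq' hcode
      have hqm := Finset.mem_filter.1 (Finset.mem_coe.1 hq)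
      have hqm' := Finset.mem_filter.1 (Finset.mem_coe.1 hq')
      obtain ⟨hpr, hqf, _⟩ := hP q hqm.1
      obtain ⟨hpr', hqf', _⟩ := hP q' hqm'.1
      have hc1 := congrArg Prod.fst hcode
      have hc2 := congrArg (fun x => x.2.1) hcode
      have hc3 := congrArg (fun x => x.2.2) hcode
      -- the other coordinates
      have hoth : ∀ i : Fin m, i ≠ j → |P q i - P q' i| ≤ eps / (Λ : ℝ) ^ L := by
        intro i hi
        have h1 : ⌊P q i * ((Λ : ℝ) ^ L / eps)⌋₊ = ⌊P q' i * ((Λ : ℝ) ^ L / eps)⌋₊ :=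
          congrFun hc1 ⟨i, hi⟩
        have h2 : |P q i * ((Λ : ℝ) ^ L / eps) - P q' i * ((Λ : ℝ) ^ L / eps)| < 1 := by
          exact floor_same (mul_nonneg (hpr i).1 (by linarith))
            (mul_nonneg (hpr' i).1 (by linarith)) h1
        rw [← sub_mul, abs_mul, abs_of_pos (div_pos (hLpos L) he)] at h2
        rw [le_div_iff₀ (hLpos L)]
        have h3 := mul_lt_mul_of_pos_right h2 he
        have h4 : |P q i - P q' i| * ((Λ : ℝ) ^ L / eps) * eps = |P q i - P q' i| * (Λ : ℝ) ^ L := by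
          field_simp
        rw [h4, one_mul] at h3
        exact le_of_lt h3
      -- the coordinate j
      have hj : ∀ l : ℕ, l ≤ L → |P q j - P q' j| * (Λ : ℝ) ^ l ≤ 1 := by
        intro l
        induction l with
        | zero =>
          intro _
          rw [pow_zero, mul_one, abs_le]
          constructor <;> linarith [(hpr j).1, (hpr j).2, (hpr' j).1, (hpr' j).2]
        | succ l ih =>
          intro hl
          have ih' := ih (by omega)
          by_cases hlF : l ∈ F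
          · have h1 : ⌊(Λ : ℝ) ^ (l + 1) * P q j⌋₊ % (Λ + 1) = ⌊(Λ : ℝ) ^ (l + 1) * P q' j⌋₊ % (Λ + 1) :=
              congrFun hc2 ⟨l, hlF⟩
            have h2 : |(Λ : ℝ) ^ (l + 1) * P q j - (Λ : ℝ) ^ (l + 1) * P q' j| < 1 := by
              refine floor_close (mul_nonneg (le_of_lt (hLpos _)) (hpr j).1)
                (mul_nonneg (le_of_lt (hLpos _)) (hpr' j).1) ?_ h1
              rw [← mul_sub, abs_mul, abs_of_pos (hLpos _), pow_succ]
              nlinarith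
            rw [← mul_sub, abs_mul, abs_of_pos (hLpos _), _root_.mul_comm] at h2
            exact le_of_lt h2
          · have hlL : l < L := by omega
            have hgood : ((W Λ (0 : Fin (m + 1))) ^ l) • (ucol (P q))⁻¹ • y ∈ S := by
              by_contra hcon
              apply hlF
              rw [← hqm.2]
              exact Finset.mem_filter.2 ⟨Finset.mem_range.2 hlL, hcon⟩
            have hgood' : ((W Λ (0 : Fin (m + 1))) ^ l) • (ucol (P q'))⁻¹ • y ∈ S := by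
              by_contra hcon
              apply hlF
              rw [← hqm'.2]
              exact Finset.mem_filter.2 ⟨Finset.mem_range.2 hlL, hcon⟩
            rw [shift_pt hΛ1 l (P q) (P q') y] at hgood'
            have h3 := hS _ hgood (fun i => (Λ : ℝ) ^ l * (P q' i - P q i)) ?_ ?_ hgood'
            · rw [abs_mul, abs_of_pos (hLpos l), abs_sub_comm, lt_div_iff₀ hΛpos] at h3
              rw [pow_succ]
              nlinarith
            · intro i hi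
              rw [abs_mul, abs_of_pos (hLpos l), abs_sub_comm]
              have h4 := hoth i hi
              have h5 : (Λ : ℝ) ^ l ≤ (Λ : ℝ) ^ L := pow_le_pow_right₀ hΛr (by omega)
              calc (Λ : ℝ) ^ l * |P q i - P q' i| ≤ (Λ : ℝ) ^ L * (eps / (Λ : ℝ) ^ L) :=
                    mul_le_mul h5 h4 (abs_nonneg _) (le_of_lt (hLpos L))
                _ = eps := by
                    have := (hLpos L).ne'
                    field_simp
            · rw [abs_mul, abs_of_pos (hLpos l), abs_sub_comm, _root_.mul_comm]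
              linarith
      -- the cubes
      rw [← hqf, ← hqf']
      funext i
      have hpar : decide (⌊(Λ : ℝ) ^ L * P q i⌋ % 2 = 0) = decide (⌊(Λ : ℝ) ^ L * P q' i⌋ % 2 = 0) :=
        congrFun hc3 i
      refine floor_parity ?_ hpar
      rw [← mul_sub, abs_mul, abs_of_pos (hLpos _), _root_.mul_comm]
      by_cases hi : i = j
      · rw [hi]
        exact hj L le_rfl
      · have h4 := hoth i hi
        rw [le_div_iff₀ (hLpos L)] at h4
        linarith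
    have hcard := Finset.card_le_card_of_injOn code hmaps hinj
    refine le_trans hcard (le_of_eq ?_)
    rw [Finset.card_product, Finset.card_product, Fintype.card_piFinset, Fintype.card_piFinset,
      Finset.prod_const, Finset.prod_const, Finset.card_univ, Finset.card_univ, Finset.card_univ,
      Finset.card_range, Finset.card_range, Fintype.card_coe, Fintype.card_fun, Fintype.card_bool,
      Fintype.card_fin]
    have hsub : Fintype.card {i : Fin m // i ≠ j} = m - 1 := by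
      have := Fintype.card_subtype_compl (fun i : Fin m => i = j)
      rw [Fintype.card_fin, Fintype.card_subtype_eq] at this
      exact this
    rw [hsub]
    ring
  -- the sum
  have hsum : Q.card = ∑ F ∈ (Finset.range L).powerset, (Q.filter (fun q => bad q = F)).card := by
    refine Finset.card_eq_sum_card_fiberwise ?_
    intro q _
    exact Finset.mem_coe.2 (Finset.mem_powerset.2 (Finset.filter_subset _ _))
  rw [hsum, Nat.cast_sum]
  have hterm : ∀ F ∈ (Finset.range L).powerset, (((Q.filter (fun q => bad q = F)).card : ℕ) : ℝ) ≤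
      (2 * (Λ : ℝ) ^ L / eps) ^ (m - 1) * ((Λ : ℝ) + 1) ^ (d * L) * 2 ^ m := by
    intro F _
    rcases (Q.filter (fun q => bad q = F)).eq_empty_or_nonempty with hemp | ⟨q, hq⟩
    · rw [hemp, Finset.card_empty, Nat.cast_zero]
      have h1 : (0 : ℝ) ≤ 2 * (Λ : ℝ) ^ L / eps := by linarith [Nat.cast_nonneg (α := ℝ) B]
      have h2 : (0 : ℝ) ≤ ((Λ : ℝ) + 1) ^ (d * L) := Real.rpow_nonneg (by linarith) _
      exact mul_nonneg (mul_nonneg (pow_nonneg h1 _) h2) (by positivity)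
    · obtain ⟨hqQ, hqF⟩ := Finset.mem_filter.1 hq
      have h1 : (F.card : ℝ) ≤ d * L := by rw [← hqF]; exact hbad q hqQ
      have h2 : (((Q.filter (fun q => bad q = F)).card : ℕ) : ℝ) ≤
          (B : ℝ) ^ (m - 1) * ((Λ : ℝ) + 1) ^ F.card * 2 ^ m := by
        exact_mod_cast hone F
      refine le_trans h2 ?_
      have h3 : (B : ℝ) ^ (m - 1) ≤ (2 * (Λ : ℝ) ^ L / eps) ^ (m - 1) :=
        pow_le_pow_left₀ (Nat.cast_nonneg B) hBle _
      have h4 : ((Λ : ℝ) + 1) ^ F.card ≤ ((Λ : ℝ) + 1) ^ (d * L) := by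
        rw [← Real.rpow_natCast]
        exact Real.rpow_le_rpow_of_exponent_le (by linarith) h1
      have h5 : (0 : ℝ) ≤ ((Λ : ℝ) + 1) ^ F.card := pow_nonneg (by linarith) _
      refine mul_le_mul_of_nonneg_right ?_ (by positivity)
      exact mul_le_mul h3 h4 h5 (le_trans (pow_nonneg (Nat.cast_nonneg B) _) h3)
  refine le_trans (Finset.sum_le_sum hterm) (le_of_eq ?_)
  rw [Finset.sum_const, Finset.card_powerset, Finset.card_range, nsmul_eq_mul]
  push_cast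
  ring

end Pool.Agent.Lib.MP_41a456_al.TC
end

section

/-!
# MP_41a456_al, Theorem TC, H3: forward inequality: one step (paper 521, (8.2))

Paper 521, section 8, `n = m + 1`, coordinates of `v ∈ ℝ^m`. Cubes of level `l`: `Λ^{-l} (q + [0,1)^m)`,
`q` integral, `qf Λ l v` = the cube of level `l` which contains `v`. `stt Λ y l q = u(q)⁻¹ W^l y` the state of the
cube `q` of level `l` (base point `y`), `st Λ y l v` = state of the cube containing `v`,
`zz Λ y l v = W^l u(v)⁻¹ y`.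
`a = alf y`, `a_p` the height of the child `p`, `∑ a_p ≤ Λ^m (Λ^{-1/2} a + D)`, `max a_p M ≤ a_p + M`.
If `a ≥ M Λ^{1/2}`: `exp gG = Λ^{1/2} (max a_p M) / a`, sum `≤ Λ^m Λ^{1/2} (Λ^{-1/2} a + D + M) / a
≤ Λ^m (1 + Λ^{1/2} (D + M) / (M Λ^{1/2})) ≤ 3 Λ^m`. Otherwise `exp gG ≤ (a_p + M) / (max a M)`, sum
`≤ Λ^m (Λ^{-1/2} + (D + M) / M) ≤ 3 Λ^m`.
-/

namespace Pool.Agent.Lib.MP_41a456_al.TC

open Matrix MeasureTheory Filter Topology Pool.Agent.Lib.MP_41a456_al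

private theorem h3_alf_nonneg {n : ℕ} (y : X n) : 0 ≤ alf y := by
  unfold alf lam
  refine Real.rpow_nonneg (Real.sInf_nonneg ?_) _
  rintro _ ⟨w, _, rfl⟩
  exact norm_nonneg w

theorem avg_gG {m : ℕ} {Λ : ℕ} (hΛ : 1 ≤ Λ) {D M : ℝ} (hD : 0 < D) (hM : D ≤ M) (y : X (m + 1))
    (h : ∑ p : Fin m → Fin Λ, alf ((W Λ (0 : Fin (m + 1)) * (up Λ p)⁻¹) • y) ≤
      (Λ : ℝ) ^ m * ((Λ : ℝ) ^ (-(1 / 2 : ℝ)) * alf y + D)) :
    ∑ p : Fin m → Fin Λ, Real.exp (gG Λ M y ((W Λ (0 : Fin (m + 1)) * (up Λ p)⁻¹) • y)) ≤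
      3 * (Λ : ℝ) ^ m := by
  have hΛ1 : (1 : ℝ) ≤ Λ := by exact_mod_cast hΛ
  have hΛ0 : (0 : ℝ) < Λ := by linarith
  have hM0 : 0 < M := lt_of_lt_of_le hD hM
  have hpow : (0 : ℝ) < (Λ : ℝ) ^ m := by positivity
  have ha := h3_alf_nonneg y
  set a : ℝ := alf y with haa
  have hcard : ((Finset.univ : Finset (Fin m → Fin Λ)).card : ℝ) = (Λ : ℝ) ^ m := by
    rw [Finset.card_univ, Fintype.card_fun, Fintype.card_fin, Fintype.card_fin]
    push_cast
    rfl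
  have hsum : ∑ p : Fin m → Fin Λ,
      max (alf ((W Λ (0 : Fin (m + 1)) * (up Λ p)⁻¹) • y)) M ≤
      (Λ : ℝ) ^ m * ((Λ : ℝ) ^ (-(1 / 2 : ℝ)) * a + (D + M)) := by
    calc _ ≤ ∑ p : Fin m → Fin Λ,
          (alf ((W Λ (0 : Fin (m + 1)) * (up Λ p)⁻¹) • y) + M) :=
          Finset.sum_le_sum fun p _ => max_le (by linarith)
            (by linarith [h3_alf_nonneg ((W Λ (0 : Fin (m + 1)) * (up Λ p)⁻¹) • y)])
      _ = ∑ p : Fin m → Fin Λ, alf ((W Λ (0 : Fin (m + 1)) * (up Λ p)⁻¹) • y) +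
          (Λ : ℝ) ^ m * M := by
          rw [Finset.sum_add_distrib, Finset.sum_const, nsmul_eq_mul, hcard]
      _ ≤ _ := by linarith
  have hA0 : 0 < max a M := lt_of_lt_of_le hM0 (le_max_right _ _)
  have hsq : Real.sqrt Λ * (Λ : ℝ) ^ (-(1 / 2 : ℝ)) = 1 := by
    rw [Real.sqrt_eq_rpow, ← Real.rpow_add hΛ0]
    norm_num
  have hsq1 : 1 ≤ Real.sqrt Λ := Real.one_le_sqrt.2 hΛ1
  have hr1 : (Λ : ℝ) ^ (-(1 / 2 : ℝ)) ≤ 1 := Real.rpow_le_one_of_one_le_of_nonpos hΛ1 (by norm_num)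
  have hr0 : 0 < (Λ : ℝ) ^ (-(1 / 2 : ℝ)) := Real.rpow_pos_of_pos hΛ0 _
  have hexp : ∀ z : X (m + 1), Real.exp (gG Λ M y z) =
      max (alf z) M * (Real.exp (if M * Real.sqrt Λ ≤ a then 1 / 2 * Real.log Λ else 0) /
        max a M) := by
    intro z
    have hz : 0 < max (alf z) M := lt_of_lt_of_le hM0 (le_max_right _ _)
    unfold gG
    rw [Real.exp_add, Real.exp_log (div_pos hz hA0)]
    ring
  simp only [hexp]
  rw [← Finset.sum_mul]
  by_cases hc : M * Real.sqrt Λ ≤ a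
  · rw [if_pos hc]
    have he : Real.exp (1 / 2 * Real.log Λ) = Real.sqrt Λ := by
      rw [Real.sqrt_eq_rpow, Real.rpow_def_of_pos hΛ0, mul_comm]
    have hMa : M ≤ a := le_trans (by nlinarith) hc
    have ha0 : 0 < a := by linarith
    rw [he, max_eq_left hMa, ← mul_div_assoc, div_le_iff₀ ha0]
    calc _ ≤ (Λ : ℝ) ^ m * ((Λ : ℝ) ^ (-(1 / 2 : ℝ)) * a + (D + M)) * Real.sqrt Λ :=
          mul_le_mul_of_nonneg_right hsum (by positivity)
      _ = (Λ : ℝ) ^ m * ((Real.sqrt Λ * (Λ : ℝ) ^ (-(1 / 2 : ℝ))) * a +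
          (D + M) * Real.sqrt Λ) := by ring
      _ ≤ (Λ : ℝ) ^ m * (a + 2 * a) := by
          rw [hsq]
          refine mul_le_mul_of_nonneg_left ?_ hpow.le
          nlinarith
      _ = _ := by ring
  · rw [if_neg hc, Real.exp_zero, ← mul_div_assoc, mul_one, div_le_iff₀ hA0]
    refine hsum.trans ?_
    have h1 : (Λ : ℝ) ^ (-(1 / 2 : ℝ)) * a ≤ max a M := by
      calc _ ≤ 1 * a := mul_le_mul_of_nonneg_right hr1 ha
        _ ≤ _ := by
          rw [one_mul]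
          exact le_max_left _ _
    have h2 : M ≤ max a M := le_max_right _ _
    calc (Λ : ℝ) ^ m * ((Λ : ℝ) ^ (-(1 / 2 : ℝ)) * a + (D + M)) ≤
        (Λ : ℝ) ^ m * (3 * max a M) := mul_le_mul_of_nonneg_left (by linarith) hpow.le
      _ = _ := by ring

end Pool.Agent.Lib.MP_41a456_al.TC
end

section

/-!
# MP_41a456_al, Theorem TC, H5: forward inequality: the gains on the event that a type occurs

Paper 521, section 8, `n = m + 1`, coordinates of `v ∈ ℝ^m`. Cubes of level `l`: `Λ^{-l} (q + [0,1)^m)`,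
`q` integral, `qf Λ l v` = the cube of level `l` which contains `v`. `stt Λ y l q = u(q)⁻¹ W^l y` the state of the
cube `q` of level `l` (base point `y`), `st Λ y l v` = state of the cube containing `v`,
`zz Λ y l v = W^l u(v)⁻¹ y`.
`v, v' ∈ [0,1)^m` in the same cube of level `L`, `zz Λ y 0 v' = u(v')⁻¹ y` of type `S j ⊆ {alf ≤ M1}`, `M ≥ 2^β M1`.
At a good level `i` `alf (st Λ y i v) = alf (st Λ y i v') ≤ 2^β alf (zz Λ y i v') ≤ 2^β M1 ≤ M`. The number of bad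
levels is at most `d L < L`. The sum of the indicator terms is at most `d L (1/2) log Λ`
(`M ≤ M Λ^{1/2}`, and at a good level with equality impossible as `M > 0`, `Λ ≥ 2`). The telescoping sum is
`log (max (alf (st L)) M) - log (max (alf (st 0)) M) ≤ log (max (alf (st L)) M / M)`; from the last good level `i0 < L`
(`L - i0 ≤ d L + 1`) on, every step multiplies the height by at most `(2 Λ)^β · ` (child of a state: `alf_W_le`,
`alf_ucol_le` with `‖v‖ ≤ 1`), `(2 Λ)^β ≤ Λ^{2β}`. Total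
`≤ (2 β (d L + 1) + d L) log Λ ≤ (2 β + 1) (d L + 1) log Λ`.
-/

namespace Pool.Agent.Lib.MP_41a456_al.TC

open Matrix MeasureTheory Filter Topology Pool.Agent.Lib.MP_41a456_al

private theorem pow_pos' {Λ : ℕ} (hΛ : 1 ≤ Λ) (l : ℕ) : (0 : ℝ) < (Λ : ℝ) ^ l := by
  have : (0 : ℝ) < Λ := by exact_mod_cast hΛ
  positivity

private theorem alf_child_le {m : ℕ} {Λ : ℕ} (hΛ : 1 ≤ Λ) (y : X (m + 1)) {w : Fin m → ℝ}
    (hw : ∀ j, 0 ≤ w j ∧ w j < 1) :
    alf (st Λ y 1 w) ≤ (2 * (Λ : ℝ)) ^ (bet (m + 1)) * alf y := by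
  have hΛ0 : (0 : ℝ) < Λ := by exact_mod_cast hΛ
  have h1 : st Λ y 1 w = W Λ (0 : Fin (m + 1)) • (ucol (-fun j => (qf Λ 1 w j : ℝ) / Λ) • y) := by
    unfold st stt
    rw [ucol_neg, ← mul_smul]
    refine congrArg (fun g : SLr (m + 1) => g • y) ?_
    have h2 := W_pow_ucol (m := m) hΛ 1 (fun j => (qf Λ 1 w j : ℝ) / Λ)
    rw [pow_one, pow_one] at h2
    rw [pow_one, h2]
    refine congrArg (fun f : Fin m → ℝ => (ucol f)⁻¹ * W Λ 0) ?_
    funext j
    rw [mul_div_cancel₀ _ hΛ0.ne']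
  have h3 : ‖(-fun j => (qf Λ 1 w j : ℝ) / Λ : Fin m → ℝ)‖ ≤ 1 := by
    rw [norm_neg, pi_norm_le_iff_of_nonneg zero_le_one]
    intro j
    have h4 : (0 : ℤ) ≤ qf Λ 1 w j := by
      unfold qf
      rw [pow_one]
      exact Int.floor_nonneg.2 (mul_nonneg hΛ0.le (hw j).1)
    have h5 : (qf Λ 1 w j : ℝ) ≤ Λ := by
      unfold qf
      rw [pow_one]
      refine (Int.floor_le _).trans ?_
      nlinarith [(hw j).2]
    have h6 : (0 : ℝ) ≤ qf Λ 1 w j := by exact_mod_cast h4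
    rw [Real.norm_eq_abs, abs_of_nonneg (div_nonneg h6 hΛ0.le)]
    exact (div_le_one hΛ0).2 h5
  have hb : 0 < bet (m + 1) := A5.bet_pos (Nat.succ_pos m)
  have hy := alf_pos (Nat.succ_pos m) y
  rw [h1]
  refine (alf_W_le hΛ _).trans ?_
  have h7 := alf_ucol_le (-fun j => (qf Λ 1 w j : ℝ) / Λ) y
  have h8 : (1 + ‖(-fun j => (qf Λ 1 w j : ℝ) / Λ : Fin m → ℝ)‖) ^ (bet (m + 1)) ≤
      (2 : ℝ) ^ (bet (m + 1)) :=
    Real.rpow_le_rpow (by positivity) (by linarith) hb.le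
  have h9 : (0 : ℝ) < (Λ : ℝ) ^ (bet (m + 1)) := Real.rpow_pos_of_pos hΛ0 _
  rw [Real.mul_rpow (by norm_num) hΛ0.le]
  calc (Λ : ℝ) ^ (bet (m + 1)) * alf (ucol (-fun j => (qf Λ 1 w j : ℝ) / Λ) • y)
      ≤ (Λ : ℝ) ^ (bet (m + 1)) * ((2 : ℝ) ^ (bet (m + 1)) * alf y) :=
        mul_le_mul_of_nonneg_left (h7.trans (mul_le_mul_of_nonneg_right h8 hy.le)) h9.le
    _ = _ := by ring

private theorem alf_step_le {m : ℕ} {Λ : ℕ} (hΛ : 1 ≤ Λ) (y : X (m + 1)) (i : ℕ)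
    (v : Fin m → ℝ) :
    alf (st Λ y (i + 1) v) ≤ (2 * (Λ : ℝ)) ^ (bet (m + 1)) * alf (st Λ y i v) := by
  rw [st_shift hΛ y i 1 v]
  exact alf_child_le hΛ _ fun j => ⟨Int.fract_nonneg _, Int.fract_lt_one _⟩

private theorem alf_steps_le {m : ℕ} {Λ : ℕ} (hΛ : 1 ≤ Λ) (y : X (m + 1)) (i k : ℕ)
    (v : Fin m → ℝ) :
    alf (st Λ y (i + k) v) ≤ ((2 * (Λ : ℝ)) ^ (bet (m + 1))) ^ k * alf (st Λ y i v) := by
  have hΛ0 : (0 : ℝ) < Λ := by exact_mod_cast hΛ
  have h0 : (0 : ℝ) < (2 * (Λ : ℝ)) ^ (bet (m + 1)) := Real.rpow_pos_of_pos (by positivity) _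
  induction k with
  | zero => simp
  | succ k ih =>
    have h1 := alf_step_le hΛ y (i + k) v
    rw [← Nat.add_assoc]
    calc _ ≤ _ := h1
      _ ≤ (2 * (Λ : ℝ)) ^ (bet (m + 1)) * (((2 * (Λ : ℝ)) ^ (bet (m + 1))) ^ k *
          alf (st Λ y i v)) := mul_le_mul_of_nonneg_left ih h0.le
      _ = _ := by rw [pow_succ']; ring

theorem FG_le_of_type {m : ℕ} {Λ : ℕ} (hΛ : 2 ≤ Λ) {M M1 d : ℝ} {L : ℕ} (hM1 : 0 < M1)
    (hM : 2 ^ (bet (m + 1)) * M1 ≤ M) (hd : 0 ≤ d) (hd1 : d < 1) (hL : 1 ≤ L) (S : Set (X (m + 1)))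
    (hS : ∀ z ∈ S, alf z ≤ M1) (y : X (m + 1)) {v v' : Fin m → ℝ} (hv : ∀ j, 0 ≤ v j ∧ v j < 1)
    (hv' : qf Λ L v' = qf Λ L v) (hT : Ty Λ L d S (zz Λ y 0 v')) :
    FG Λ M y L v ≤ (2 * bet (m + 1) + 1) * (d * L + 1) * Real.log Λ := by
  classical
  have hΛ1 : 1 ≤ Λ := by omega
  have hΛ0 : (0 : ℝ) < Λ := by exact_mod_cast hΛ1
  have hΛ2 : (2 : ℝ) ≤ Λ := by exact_mod_cast hΛ
  have hlog : 0 < Real.log Λ := Real.log_pos (by linarith)
  have hb : 0 < bet (m + 1) := A5.bet_pos (Nat.succ_pos m)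
  have h2b : (0 : ℝ) < (2 : ℝ) ^ (bet (m + 1)) := Real.rpow_pos_of_pos (by norm_num) _
  have hM0 : 0 < M := (mul_pos h2b hM1).trans_le hM
  set a : ℕ → ℝ := fun i => alf (st Λ y i v) with ha
  have ha0 : ∀ i, 0 < a i := fun i => alf_pos (Nat.succ_pos m) _
  -- good levels
  have hgood : ∀ i, i < L → ((W Λ (0 : Fin (m + 1))) ^ i) • zz Λ y 0 v' ∈ S → a i ≤ M := by
    intro i hi hz
    have h1 : st Λ y i v = st Λ y i v' := by
      unfold st
      congr 1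
      have h2 : qf Λ (i + (L - i)) v' = qf Λ (i + (L - i)) v := by
        rw [Nat.add_sub_cancel' hi.le]
        exact hv'
      exact (qf_mono hΛ1 h2).symm
    rw [zz_shift, Nat.zero_add] at hz
    have h3 := alf_st_le hΛ1 y i v'
    have h4 := hS _ hz
    have h5 : a i = alf (st Λ y i v') := by rw [ha]; simp only [h1]
    rw [h5]
    exact h3.trans ((mul_le_mul_of_nonneg_left h4 h2b.le).trans hM)
  set F : Finset ℕ := (Finset.range L).filter
    fun i => ((W Λ (0 : Fin (m + 1))) ^ i) • zz Λ y 0 v' ∉ S with hF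
  have hFc : (F.card : ℝ) ≤ d * L := by
    apply hT
    intro l hl
    rw [hF, Finset.mem_filter, Finset.mem_range] at hl
    exact hl
  have hLpos : (0 : ℝ) < L := by exact_mod_cast hL
  have hFlt : F.card < L := by
    have : (F.card : ℝ) < L := by nlinarith
    exact_mod_cast this
  -- telescoping
  have hmx : ∀ i, 0 < max (a i) M := fun i => lt_max_of_lt_right hM0
  have htel : ∑ i ∈ Finset.range L, Real.log (max (a (i + 1)) M / max (a i) M) =
      Real.log (max (a L) M) - Real.log (max (a 0) M) := by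
    rw [← Finset.sum_range_sub (fun i => Real.log (max (a i) M)) L]
    exact Finset.sum_congr rfl fun i _ => Real.log_div (hmx _).ne' (hmx _).ne'
  have hFG : FG Λ M y L v = (Real.log (max (a L) M) - Real.log (max (a 0) M)) +
      ∑ i ∈ Finset.range L, (if M * Real.sqrt Λ ≤ a i then 1 / 2 * Real.log Λ else 0) := by
    rw [← htel, ← Finset.sum_add_distrib]
    rfl
  have hsq : 1 < Real.sqrt Λ := by
    rw [show (1 : ℝ) = Real.sqrt 1 from Real.sqrt_one.symm]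
    exact Real.sqrt_lt_sqrt (by norm_num) (by linarith)
  have hind : ∑ i ∈ Finset.range L, (if M * Real.sqrt Λ ≤ a i then 1 / 2 * Real.log Λ else 0) ≤
      F.card * (1 / 2 * Real.log Λ) := by
    rw [← nsmul_eq_mul, ← Finset.sum_const]
    have h1 : ∑ i ∈ F, (1 / 2 * Real.log Λ) =
        ∑ i ∈ Finset.range L, if i ∈ F then 1 / 2 * Real.log Λ else 0 := by
      rw [← Finset.sum_filter]
      congr 1
      ext i
      constructor
      · intro h
        exact Finset.mem_filter.2 ⟨(Finset.mem_filter.1 h).1, h⟩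
      · intro h
        exact (Finset.mem_filter.1 h).2
    rw [h1]
    refine Finset.sum_le_sum fun i hi => ?_
    by_cases hiF : i ∈ F
    · rw [if_pos hiF]
      split_ifs
      · exact le_rfl
      · linarith
    · rw [if_neg hiF]
      have h2 : ((W Λ (0 : Fin (m + 1))) ^ i) • zz Λ y 0 v' ∈ S := by
        by_contra h
        exact hiF (Finset.mem_filter.2 ⟨hi, h⟩)
      have h3 := hgood i (Finset.mem_range.1 hi) h2
      rw [if_neg]
      intro h4
      nlinarith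
  -- the last good level
  have hne : ((Finset.range L) \ F).Nonempty := by
    rw [← Finset.card_pos]
    have h1 := Finset.le_card_sdiff F (Finset.range L)
    rw [Finset.card_range] at h1
    omega
  set i0 := ((Finset.range L) \ F).max' hne with hi0
  have hi0m := Finset.max'_mem _ hne
  rw [← hi0, Finset.mem_sdiff, Finset.mem_range] at hi0m
  have hi0M : a i0 ≤ M := by
    apply hgood i0 hi0m.1
    by_contra h
    exact hi0m.2 (Finset.mem_filter.2 ⟨Finset.mem_range.2 hi0m.1, h⟩)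
  have hIoo : Finset.Ioo i0 L ⊆ F := by
    intro i hi
    rw [Finset.mem_Ioo] at hi
    by_contra h
    have h1 := Finset.le_max' ((Finset.range L) \ F) i
      (Finset.mem_sdiff.2 ⟨Finset.mem_range.2 hi.2, h⟩)
    rw [← hi0] at h1
    omega
  have hcard := Finset.card_le_card hIoo
  rw [Nat.card_Ioo] at hcard
  have hkk : ((L - i0 : ℕ) : ℝ) ≤ d * L + 1 := by
    have h1 : L - i0 ≤ F.card + 1 := by omega
    have h2 : ((L - i0 : ℕ) : ℝ) ≤ (F.card : ℝ) + 1 := by exact_mod_cast h1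
    linarith
  have haL : a L ≤ ((2 * (Λ : ℝ)) ^ (bet (m + 1))) ^ (L - i0) * M := by
    have h1 := alf_steps_le hΛ1 y i0 (L - i0) v
    rw [Nat.add_sub_cancel' hi0m.1.le] at h1
    refine h1.trans (mul_le_mul_of_nonneg_left hi0M ?_)
    positivity
  have h1Λ : (1 : ℝ) ≤ (2 * (Λ : ℝ)) ^ (bet (m + 1)) :=
    Real.one_le_rpow (by linarith) hb.le
  have hmaxL : max (a L) M ≤ ((2 * (Λ : ℝ)) ^ (bet (m + 1))) ^ (L - i0) * M := by
    refine max_le haL ?_
    have := one_le_pow₀ h1Λ (n := L - i0)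
    nlinarith
  have hlogL : Real.log (max (a L) M) ≤
      (L - i0 : ℕ) * (bet (m + 1) * Real.log (2 * Λ)) + Real.log M := by
    refine (Real.log_le_log (hmx _) hmaxL).trans ?_
    rw [Real.log_mul (by positivity) hM0.ne', Real.log_pow, Real.log_rpow (by positivity)]
  have hlog2 : Real.log (2 * Λ) ≤ 2 * Real.log Λ := by
    rw [Real.log_mul (by norm_num) hΛ0.ne']
    have := Real.log_le_log (by norm_num) hΛ2
    linarith
  have hlog0 : Real.log M ≤ Real.log (max (a 0) M) := Real.log_le_log hM0 (le_max_right _ _)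
  have hdL : 0 ≤ d * L := by positivity
  rw [hFG]
  have e1 : ((L - i0 : ℕ) : ℝ) * (bet (m + 1) * Real.log (2 * Λ)) ≤
      (d * L + 1) * (bet (m + 1) * (2 * Real.log Λ)) := by
    refine mul_le_mul hkk (mul_le_mul_of_nonneg_left hlog2 hb.le) ?_ (by positivity)
    refine mul_nonneg hb.le (Real.log_nonneg (by linarith))
  have e2 : (F.card : ℝ) * (1 / 2 * Real.log Λ) ≤ (d * L) * (1 / 2 * Real.log Λ) :=
    mul_le_mul_of_nonneg_right hFc (by positivity)
  have e3 : 0 ≤ d * L * Real.log Λ := by positivity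
  nlinarith

end Pool.Agent.Lib.MP_41a456_al.TC
end

section

/-!
# MP_41a456_al, Theorem TC, H4: forward inequality: sum of the gains of a block

Paper 521, section 8, `n = m + 1`, coordinates of `v ∈ ℝ^m`. Cubes of level `l`: `Λ^{-l} (q + [0,1)^m)`,
`q` integral, `qf Λ l v` = the cube of level `l` which contains `v`. `stt Λ y l q = u(q)⁻¹ W^l y` the state of the
cube `q` of level `l` (base point `y`), `st Λ y l v` = state of the cube containing `v`,
`zz Λ y l v = W^l u(v)⁻¹ y`.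
Induction on `L`: `digit_sum`, `FG_add` with `l = 1` (for `v = crn Λ (L+1) (Λ^L p + r)`:
`Int.fract (Λ v) = crn Λ L r`, `st Λ y 1 v` = child `p` by `qf_child`, `st_one`), `avg_gG`.
-/

namespace Pool.Agent.Lib.MP_41a456_al.TC

open Matrix MeasureTheory Filter Topology Pool.Agent.Lib.MP_41a456_al

/-- the Margulis inequality with constants `Λ`, `D` -/
def Marg (m Λ : ℕ) (D : ℝ) : Prop := ∀ y : X (m + 1),
  ∑ p : Fin m → Fin Λ, alf ((W Λ (0 : Fin (m + 1)) * (up Λ p)⁻¹) • y) ≤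
    (Λ : ℝ) ^ m * ((Λ : ℝ) ^ (-(1 / 2 : ℝ)) * alf y + D)

theorem block_FG {m : ℕ} {Λ : ℕ} (hΛ : 1 ≤ Λ) {D M : ℝ} (hD : 0 < D) (hM : D ≤ M)
    (h : Marg m Λ D) (y : X (m + 1)) (L : ℕ) :
    ∑ r : Fin m → Fin (Λ ^ L), Real.exp (FG Λ M y L (crn Λ L fun j => ((r j : ℕ) : ℤ))) ≤
      (3 * (Λ : ℝ) ^ m) ^ L := by
  have hΛ0 : (0 : ℝ) < Λ := by exact_mod_cast hΛ
  induction L generalizing y with
  | zero =>
    have e : ∀ r : Fin m → Fin (Λ ^ 0),
        Real.exp (FG Λ M y 0 (crn Λ 0 fun j => ((r j : ℕ) : ℤ))) = 1 := by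
      intro r
      unfold FG
      rw [Finset.sum_range_zero, Real.exp_zero]
    rw [Finset.sum_congr rfl fun r _ => e r, Finset.sum_const, Finset.card_univ]
    simp
  | succ L ih =>
    rw [digit_sum hΛ L (fun q => Real.exp (FG Λ M y (L + 1) (crn Λ (L + 1) q)))]
    have key : ∀ (p : Fin m → Fin Λ) (r : Fin m → Fin (Λ ^ L)),
        Real.exp (FG Λ M y (L + 1) (crn Λ (L + 1)
          fun j => (Λ : ℤ) ^ L * ((p j : ℕ) : ℤ) + ((r j : ℕ) : ℤ))) =
        Real.exp (gG Λ M y ((W Λ (0 : Fin (m + 1)) * (up Λ p)⁻¹) • y)) *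
          Real.exp (FG Λ M ((W Λ (0 : Fin (m + 1)) * (up Λ p)⁻¹) • y) L
            (crn Λ L fun j => ((r j : ℕ) : ℤ))) := by
      intro p r
      rw [← Real.exp_add]
      congr 1
      rw [Nat.add_comm L 1]
      set v := crn Λ (1 + L) fun j => (Λ : ℤ) ^ L * ((p j : ℕ) : ℤ) + ((r j : ℕ) : ℤ) with hv
      have hvj : ∀ j, v j = ((Λ : ℝ) ^ L * ((p j : ℕ) : ℝ) + ((r j : ℕ) : ℝ)) / (Λ : ℝ) ^ (1 + L) := by
        intro j
        rw [hv]
        unfold crn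
        push_cast
        rfl
      have hr : ∀ j, ((r j : ℕ) : ℝ) < (Λ : ℝ) ^ L := by
        intro j
        exact_mod_cast (r j).2
      have hp : ∀ j, ((p j : ℕ) : ℝ) + 1 ≤ Λ := by
        intro j
        exact_mod_cast (p j).2
      have hL : (0 : ℝ) < (Λ : ℝ) ^ L := by positivity
      have hv01 : ∀ j, 0 ≤ v j ∧ v j < 1 := by
        intro j
        rw [hvj j]
        constructor
        · positivity
        · rw [div_lt_one (by positivity), pow_add, pow_one]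
          have h1 := mul_le_mul_of_nonneg_left (hp j) hL.le
          have h2 := hr j
          nlinarith
      have hst0 : st Λ y 0 v = y := st_zero_root y hv01
      have hst1 : st Λ y 1 v = (W Λ (0 : Fin (m + 1)) * (up Λ p)⁻¹) • y := by
        rw [← st_one hΛ y p]
        unfold st
        rw [qf_crn hΛ 1, hv, qf_child hΛ 1 L (fun j => ((p j : ℕ) : ℤ)) r]
      have hfr : (fun j => Int.fract ((Λ : ℝ) ^ 1 * v j)) = crn Λ L fun j => ((r j : ℕ) : ℤ) := by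
        funext j
        have e1 : (Λ : ℝ) ^ 1 * v j = ((p j : ℕ) : ℝ) + ((r j : ℕ) : ℝ) / (Λ : ℝ) ^ L := by
          rw [hvj j, pow_add, pow_one]
          field_simp
        rw [e1]
        unfold crn
        have e2 : ((((r j : ℕ) : ℤ) : ℝ)) = ((r j : ℕ) : ℝ) := by push_cast; rfl
        rw [e2, Int.fract_natCast_add, Int.fract_eq_self]
        constructor
        · positivity
        · rw [div_lt_one hL]
          exact hr j
      rw [FG_add hΛ M y 1 L v, hfr, hst1]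
      congr 1
      unfold FG
      rw [Finset.sum_range_one, hst0, zero_add, hst1]
    rw [Finset.sum_congr rfl fun p _ => Finset.sum_congr rfl fun r _ => key p r]
    have h2 : ∀ p : Fin m → Fin Λ, ∑ r : Fin m → Fin (Λ ^ L),
        Real.exp (gG Λ M y ((W Λ (0 : Fin (m + 1)) * (up Λ p)⁻¹) • y)) *
          Real.exp (FG Λ M ((W Λ (0 : Fin (m + 1)) * (up Λ p)⁻¹) • y) L
            (crn Λ L fun j => ((r j : ℕ) : ℤ))) ≤
        Real.exp (gG Λ M y ((W Λ (0 : Fin (m + 1)) * (up Λ p)⁻¹) • y)) *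
          (3 * (Λ : ℝ) ^ m) ^ L := by
      intro p
      rw [← Finset.mul_sum]
      exact mul_le_mul_of_nonneg_left (ih _) (Real.exp_pos _).le
    refine (Finset.sum_le_sum fun p _ => h2 p).trans ?_
    rw [← Finset.sum_mul]
    have h3 := avg_gG hΛ hD hM y (h y)
    rw [pow_succ, mul_comm ((3 * (Λ : ℝ) ^ m) ^ L)]
    exact mul_le_mul_of_nonneg_right h3 (by positivity)

end Pool.Agent.Lib.MP_41a456_al.TC
end

section

/-!
# MP_41a456_al, Theorem TC, H6: forward inequality: a block (paper 521, (8.2))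

Paper 521, section 8, `n = m + 1`, coordinates of `v ∈ ℝ^m`. Cubes of level `l`: `Λ^{-l} (q + [0,1)^m)`,
`q` integral, `qf Λ l v` = the cube of level `l` which contains `v`. `stt Λ y l q = u(q)⁻¹ W^l y` the state of the
cube `q` of level `l` (base point `y`), `st Λ y l v` = state of the cube containing `v`,
`zz Λ y l v = W^l u(v)⁻¹ y`.
`exp (FG + HH) ≤ exp FG + exp (9/10 L log Λ + FG) [type]`. First sum: `block_FG`. Second: `FG_le_of_type` and
`type_count` for every `j` (the cubes `r` for which the condition in `HH` holds; `v'` in the same cube of level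
`L` of `[0,1)^m`): at most
`m 2^L (2 Λ^L / eps)^{m-1} (Λ+1)^{dL} 2^m Λ^{9L/10} Λ^{(2β+1)(dL+1)}`, i.e. `Λ^{mL}` times
`m (2/eps)^{m-1} 2^m 2^L (Λ+1)^{dL} Λ^{-L/10} Λ^{(2β+1)(dL+1)}`. With `d = 1/(40 (2β+3))`, `Λ + 1 ≤ Λ²`:
exponent of `Λ` at most `-L/10 + (2β+3) d L + 2β + 1 = -(3/40) L + 2 β + 1`, and `2^L ≤ Λ^{L/40}` for
`Λ ≥ 2^40`; so for `L ≥ L0(m, Λ, eps)` the second sum is at most `Λ^{mL}`. `3^L + 1 ≤ 4^L`.
-/

namespace Pool.Agent.Lib.MP_41a456_al.TC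

open Matrix MeasureTheory Filter Topology Pool.Agent.Lib.MP_41a456_al

/-- the tolerance -/
noncomputable def tol (m : ℕ) : ℝ := 1 / (40 * (2 * bet (m + 1) + 3))

theorem h6_tol_pos (m : ℕ) : 0 < tol m ∧ tol m < 1 ∧ (2 * bet (m + 1) + 3) * tol m = 1 / 40 ∧
    0 < 2 * bet (m + 1) + 1 := by
  have hb : 0 ≤ bet (m + 1) := by
    unfold bet
    push_cast
    have : (0 : ℝ) ≤ m := Nat.cast_nonneg m
    linarith
  have h1 : (0 : ℝ) < 40 * (2 * bet (m + 1) + 3) := by linarith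
  refine ⟨?_, ?_, ?_, by linarith⟩
  · unfold tol
    positivity
  · unfold tol
    rw [div_lt_one h1]
    linarith
  · unfold tol
    field_simp

/-- the proportion of the cubes with a type -/
theorem h6_arith {m : ℕ} (hm : 2 ≤ m) {Λ : ℕ} (hΛ : 2 ^ 40 ≤ Λ) {eps : ℝ} (he : 0 < eps) (L : ℕ)
    (hK : (m : ℝ) * (2 / eps) ^ (m - 1) * 2 ^ m * (Λ : ℝ) ^ (2 * bet (m + 1) + 1) ≤ 4 ^ L) :
    (m : ℝ) * ((2 ^ L * (2 * (Λ : ℝ) ^ L / eps) ^ (m - 1) * ((Λ : ℝ) + 1) ^ (tol m * L) * 2 ^ m) *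
      Real.exp (9 / 10 * L * Real.log Λ + (2 * bet (m + 1) + 1) * (tol m * L + 1) * Real.log Λ)) ≤
      ((Λ : ℝ) ^ m) ^ L := by
  obtain ⟨ht0, ht1, ht2, hb1⟩ := h6_tol_pos m
  have hΛr : (2 : ℝ) ^ 40 ≤ (Λ : ℝ) := by exact_mod_cast hΛ
  have hΛ1 : (1 : ℝ) ≤ (Λ : ℝ) := le_trans (by norm_num) hΛr
  have hΛ0 : (0 : ℝ) < (Λ : ℝ) := by linarith
  have hL0 : (0 : ℝ) ≤ (L : ℝ) := Nat.cast_nonneg L
  set b := bet (m + 1) with hb
  set d := tol m with hd
  -- exponential form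
  have e1 : Real.exp (9 / 10 * L * Real.log Λ + (2 * b + 1) * (d * L + 1) * Real.log Λ) =
      (Λ : ℝ) ^ (9 / 10 * (L : ℝ) + (2 * b + 1) * (d * L + 1)) := by
    rw [Real.rpow_def_of_pos hΛ0]
    congr 1
    ring
  have e2 : ((Λ : ℝ) + 1) ^ (d * L) ≤ (Λ : ℝ) ^ (2 * (d * (L : ℝ))) := by
    have h1 : (Λ : ℝ) + 1 ≤ (Λ : ℝ) ^ (2 : ℝ) := by
      rw [Real.rpow_two]
      nlinarith
    calc ((Λ : ℝ) + 1) ^ (d * L) ≤ ((Λ : ℝ) ^ (2 : ℝ)) ^ (d * L) :=
          Real.rpow_le_rpow (by linarith) h1 (by positivity)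
      _ = _ := by rw [← Real.rpow_mul hΛ0.le]
  have e3 : (2 : ℝ) ^ L ≤ (Λ : ℝ) ^ ((L : ℝ) / 40) := by
    calc (2 : ℝ) ^ L = ((2 : ℝ) ^ (40 : ℕ)) ^ ((L : ℝ) / 40) := by
          rw [← Real.rpow_natCast 2 40, ← Real.rpow_mul (by norm_num), ← Real.rpow_natCast 2 L]
          congr 1
          push_cast
          ring
      _ ≤ _ := Real.rpow_le_rpow (by positivity) hΛr (by positivity)
  have e4 : (2 * (Λ : ℝ) ^ L / eps) ^ (m - 1) =
      (2 / eps) ^ (m - 1) * (Λ : ℝ) ^ ((L : ℝ) * ((m : ℝ) - 1)) := by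
    have h1 : 2 * (Λ : ℝ) ^ L / eps = 2 / eps * (Λ : ℝ) ^ L := by ring
    rw [h1, mul_pow, ← pow_mul]
    congr 1
    rw [← Real.rpow_natCast]
    congr 1
    push_cast [Nat.cast_sub (by omega : 1 ≤ m)]
    ring
  have e5 : (4 : ℝ) ^ L ≤ (Λ : ℝ) ^ ((L : ℝ) / 20) := by
    calc (4 : ℝ) ^ L = ((2 : ℝ) ^ (40 : ℕ)) ^ ((L : ℝ) / 20) := by
          rw [← Real.rpow_natCast 2 40, ← Real.rpow_mul (by norm_num), ← Real.rpow_natCast 4 L,
            show (4 : ℝ) = 2 ^ (2 : ℝ) by norm_num, ← Real.rpow_mul (by norm_num)]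
          congr 1
          push_cast
          ring
      _ ≤ _ := Real.rpow_le_rpow (by positivity) hΛr (by positivity)
  have e6 : ((Λ : ℝ) ^ m) ^ L = (Λ : ℝ) ^ ((m : ℝ) * L) := by
    rw [← pow_mul, ← Real.rpow_natCast]
    push_cast
    rfl
  rw [e1, e4, e6]
  have hA : 0 ≤ (2 / eps) ^ (m - 1) := by positivity
  calc (m : ℝ) * ((2 ^ L * ((2 / eps) ^ (m - 1) * (Λ : ℝ) ^ ((L : ℝ) * ((m : ℝ) - 1))) *
        ((Λ : ℝ) + 1) ^ (d * L) * 2 ^ m) *
        (Λ : ℝ) ^ (9 / 10 * (L : ℝ) + (2 * b + 1) * (d * L + 1)))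
      ≤ (m : ℝ) * (((Λ : ℝ) ^ ((L : ℝ) / 40) * ((2 / eps) ^ (m - 1) *
        (Λ : ℝ) ^ ((L : ℝ) * ((m : ℝ) - 1))) * (Λ : ℝ) ^ (2 * (d * (L : ℝ))) * 2 ^ m) *
        (Λ : ℝ) ^ (9 / 10 * (L : ℝ) + (2 * b + 1) * (d * L + 1))) := by
        gcongr
    _ = ((m : ℝ) * (2 / eps) ^ (m - 1) * 2 ^ m) * ((Λ : ℝ) ^ ((L : ℝ) / 40) *
        (Λ : ℝ) ^ ((L : ℝ) * ((m : ℝ) - 1)) * (Λ : ℝ) ^ (2 * (d * (L : ℝ))) *
        (Λ : ℝ) ^ (9 / 10 * (L : ℝ) + (2 * b + 1) * (d * L + 1))) := by ring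
    _ = ((m : ℝ) * (2 / eps) ^ (m - 1) * 2 ^ m) * ((Λ : ℝ) ^ (2 * b + 1) *
        (Λ : ℝ) ^ ((m : ℝ) * L - L / 20)) := by
        congr 1
        rw [← Real.rpow_add hΛ0, ← Real.rpow_add hΛ0, ← Real.rpow_add hΛ0, ← Real.rpow_add hΛ0]
        congr 1
        linear_combination (L : ℝ) * ht2
    _ = ((m : ℝ) * (2 / eps) ^ (m - 1) * 2 ^ m * (Λ : ℝ) ^ (2 * b + 1)) *
        (Λ : ℝ) ^ ((m : ℝ) * L - L / 20) := by ring
    _ ≤ (Λ : ℝ) ^ ((L : ℝ) / 20) * (Λ : ℝ) ^ ((m : ℝ) * L - L / 20) := by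
        gcongr
        exact hK.trans e5
    _ = _ := by
        rw [← Real.rpow_add hΛ0]
        congr 1
        ring

theorem block_bound {m : ℕ} (hm : 2 ≤ m) {Λ : ℕ} (hΛ : 2 ^ 40 ≤ Λ) {D : ℝ} (hD : 0 < D)
    (h : Marg m Λ D) {eps : ℝ} (he : 0 < eps) (he1 : eps ≤ 1) :
    ∃ L0 : ℕ, ∀ L : ℕ, L0 ≤ L → ∀ M M1 : ℝ, 0 < M1 → D ≤ M → 2 ^ (bet (m + 1)) * M1 ≤ M →
      ∀ S : Fin m → Set (X (m + 1)), (∀ j, Star Λ eps j (S j)) → (∀ j, ∀ z ∈ S j, alf z ≤ M1) →
      ∀ y : X (m + 1),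
      ∑ r : Fin m → Fin (Λ ^ L), Real.exp (FG Λ M y L (crn Λ L fun j => ((r j : ℕ) : ℤ)) +
        HH Λ L (tol m) S y 0 (crn Λ L fun j => ((r j : ℕ) : ℤ))) ≤ (4 * (Λ : ℝ) ^ m) ^ L := by
  classical
  obtain ⟨ht0, ht1, -, -⟩ := h6_tol_pos m
  have hΛr : (2 : ℝ) ^ 40 ≤ (Λ : ℝ) := by exact_mod_cast hΛ
  have hΛ2 : 2 ≤ Λ := le_trans (by norm_num) hΛ
  have hΛ1 : 1 ≤ Λ := by omega
  have hΛ0 : (0 : ℝ) < (Λ : ℝ) := by
    have : 0 < Λ := by omega
    exact_mod_cast this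
  have hlog : 0 ≤ Real.log Λ := Real.log_nonneg (by exact_mod_cast hΛ1)
  obtain ⟨N0, hN0⟩ := pow_unbounded_of_one_lt
    ((m : ℝ) * (2 / eps) ^ (m - 1) * 2 ^ m * (Λ : ℝ) ^ (2 * bet (m + 1) + 1))
    (by norm_num : (1 : ℝ) < 4)
  refine ⟨N0 + 1, ?_⟩
  intro L hL M M1 hM1 hDM hM S hS hS1 y
  have hL1 : 1 ≤ L := by omega
  have hK : (m : ℝ) * (2 / eps) ^ (m - 1) * 2 ^ m * (Λ : ℝ) ^ (2 * bet (m + 1) + 1) ≤ 4 ^ L :=
    hN0.le.trans (pow_le_pow_right₀ (by norm_num) (by omega))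
  have hpow : (0 : ℝ) < (Λ : ℝ) ^ L := by positivity
  set C1 : ℝ := Real.exp (9 / 10 * L * Real.log Λ +
    (2 * bet (m + 1) + 1) * (tol m * L + 1) * Real.log Λ) with hC1
  set q : (Fin m → Fin (Λ ^ L)) → Fin m → ℤ := fun r j => ((r j : ℕ) : ℤ) with hq
  set Pj : (Fin m → Fin (Λ ^ L)) → Fin m → Prop := fun r j =>
    ∃ p : Fin m → ℝ, (∀ i, 0 ≤ p i ∧ p i < 1) ∧ qf Λ L p = q r ∧
      Ty Λ L (tol m) (S j) ((ucol p)⁻¹ • y) with hPj
  have hcrn : ∀ r : Fin m → Fin (Λ ^ L), ∀ j, 0 ≤ crn Λ L (q r) j ∧ crn Λ L (q r) j < 1 := by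
    intro r j
    have h1 : ((r j : ℕ) : ℝ) < (Λ : ℝ) ^ L := by exact_mod_cast (r j).isLt
    constructor
    · simp only [crn, hq]
      positivity
    · simp only [crn, hq]
      rw [div_lt_one hpow]
      exact_mod_cast (r j).isLt
  -- the bound for a single cube
  have hone : ∀ r : Fin m → Fin (Λ ^ L), Real.exp (FG Λ M y L (crn Λ L (q r)) +
      HH Λ L (tol m) S y 0 (crn Λ L (q r))) ≤
      Real.exp (FG Λ M y L (crn Λ L (q r))) + ∑ j : Fin m, if Pj r j then C1 else 0 := by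
    intro r
    have hsum0 : 0 ≤ ∑ j : Fin m, if Pj r j then C1 else 0 := by
      apply Finset.sum_nonneg
      intro j _
      split_ifs
      · exact (Real.exp_pos _).le
      · exact le_rfl
    unfold HH
    split_ifs with hP
    · obtain ⟨v', hv', j, hj⟩ := hP
      rw [zero_add, qf_crn hΛ1] at hv'
      have hfl : ∀ i, 0 ≤ v' i ∧ v' i < 1 := by
        intro i
        have h1 : ⌊(Λ : ℝ) ^ L * v' i⌋ = ((r i : ℕ) : ℤ) := congrFun hv' i
        rw [Int.floor_eq_iff] at h1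
        obtain ⟨h2, h3⟩ := h1
        have h4 : (0 : ℝ) ≤ (((r i : ℕ) : ℤ) : ℝ) := by positivity
        have h5 : (((r i : ℕ) : ℤ) : ℝ) + 1 ≤ (Λ : ℝ) ^ L := by
          have : (r i : ℕ) + 1 ≤ Λ ^ L := (r i).isLt
          exact_mod_cast this
        constructor
        · by_contra hneg
          push Not at hneg
          have : (Λ : ℝ) ^ L * v' i < 0 := mul_neg_of_pos_of_neg hpow hneg
          linarith
        · by_contra hge
          push Not at hge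
          have : (Λ : ℝ) ^ L * 1 ≤ (Λ : ℝ) ^ L * v' i := mul_le_mul_of_nonneg_left hge hpow.le
          linarith
      have hzz : zz Λ y 0 v' = (ucol v')⁻¹ • y := by
        unfold zz
        rw [pow_zero, one_mul]
      have hPr : Pj r j := ⟨v', hfl, hv', by rw [← hzz]; exact hj⟩
      have hFG := FG_le_of_type hΛ2 hM1 hM ht0.le ht1 hL1 (S j) (hS1 j) y
        (v := crn Λ L (q r)) (v' := v') (hcrn r) (by rw [hv', qf_crn hΛ1]) hj
      have h6 : Real.exp (FG Λ M y L (crn Λ L (q r)) + 9 / 10 * L * Real.log Λ) ≤ C1 := by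
        rw [hC1]
        apply Real.exp_le_exp.2
        linarith
      have h7 : C1 ≤ ∑ j : Fin m, if Pj r j then C1 else 0 := by
        have h8 : (if Pj r j then C1 else 0) ≤ ∑ j : Fin m, if Pj r j then C1 else 0 := by
          apply Finset.single_le_sum (f := fun j => if Pj r j then C1 else 0) _ (Finset.mem_univ j)
          intro i _
          change 0 ≤ (if Pj r i then C1 else 0)
          split_ifs
          · exact (Real.exp_pos _).le
          · exact le_rfl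
        rw [if_pos hPr] at h8
        exact h8
      have h9 := Real.exp_pos (FG Λ M y L (crn Λ L (q r)))
      linarith
    · rw [add_zero]
      linarith
  -- the number of cubes with a type
  have hcount : ∀ j : Fin m, (∑ r : Fin m → Fin (Λ ^ L), if Pj r j then C1 else 0) ≤
      (2 ^ L * (2 * (Λ : ℝ) ^ L / eps) ^ (m - 1) * ((Λ : ℝ) + 1) ^ (tol m * L) * 2 ^ m) * C1 := by
    intro j
    rw [← Finset.sum_filter, Finset.sum_const, nsmul_eq_mul]
    have hinj : Function.Injective q := by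
      intro r r' hrr
      funext i
      apply Fin.ext
      have := congrFun hrr i
      simp only [hq] at this
      exact_mod_cast this
    have h1 := type_count (by omega : 1 ≤ m) hΛ2 L he he1 ht0.le j (S j) (hS j) y
      ((Finset.univ.filter fun r => Pj r j).image q) (by
        intro q' hq'
        obtain ⟨r, hr, rfl⟩ := Finset.mem_image.1 hq'
        exact (Finset.mem_filter.1 hr).2)
    rw [Finset.card_image_of_injective _ hinj] at h1
    exact mul_le_mul_of_nonneg_right h1 (Real.exp_pos _).le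
  have hfirst := block_FG hΛ1 hD hDM h y L
  have harith := h6_arith hm hΛ he L hK
  calc ∑ r : Fin m → Fin (Λ ^ L), Real.exp (FG Λ M y L (crn Λ L (q r)) +
        HH Λ L (tol m) S y 0 (crn Λ L (q r)))
      ≤ ∑ r : Fin m → Fin (Λ ^ L), (Real.exp (FG Λ M y L (crn Λ L (q r))) +
          ∑ j : Fin m, if Pj r j then C1 else 0) := Finset.sum_le_sum fun r _ => hone r
    _ = ∑ r : Fin m → Fin (Λ ^ L), Real.exp (FG Λ M y L (crn Λ L (q r))) +
          ∑ j : Fin m, ∑ r : Fin m → Fin (Λ ^ L), (if Pj r j then C1 else 0) := by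
        rw [Finset.sum_add_distrib, Finset.sum_comm]
    _ ≤ (3 * (Λ : ℝ) ^ m) ^ L + ∑ _j : Fin m,
          (2 ^ L * (2 * (Λ : ℝ) ^ L / eps) ^ (m - 1) * ((Λ : ℝ) + 1) ^ (tol m * L) * 2 ^ m) * C1 :=
        add_le_add hfirst (Finset.sum_le_sum fun j _ => hcount j)
    _ ≤ (3 * (Λ : ℝ) ^ m) ^ L + ((Λ : ℝ) ^ m) ^ L := by
        rw [Finset.sum_const, Finset.card_univ, Fintype.card_fin, nsmul_eq_mul]
        linarith
    _ = (3 ^ L + 1) * ((Λ : ℝ) ^ m) ^ L := by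
        rw [mul_pow]
        ring
    _ ≤ 4 ^ L * ((Λ : ℝ) ^ m) ^ L := by
        gcongr
        obtain ⟨k, rfl⟩ : ∃ k, L = k + 1 := ⟨L - 1, by omega⟩
        have h10 : (3 : ℝ) ^ k ≤ 4 ^ k := pow_le_pow_left₀ (by norm_num) (by norm_num) k
        have h11 : (1 : ℝ) ≤ 4 ^ k := one_le_pow₀ (by norm_num)
        rw [pow_succ, pow_succ]
        linarith
    _ = _ := by rw [mul_pow]

end Pool.Agent.Lib.MP_41a456_al.TC
end
end
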