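import Pool.Agent.Lib.MP_41a456_al.TC.A5
import Pool.Agent.Lib.MP_41a456_al.TC.D8
import Pool.Agent.Lib.MP_41a456_al.TC.H1
import Pool.Agent.Lib.MP_41a456_al.TC.H6

section

/-!
# MP_41a456_al, Theorem TC, G3: multiplicity (paper 521, (7.4))

Paper 521, section 7, `n = m + 1`.
`k⁻¹ k1 = n⁻¹ l⁻¹ u(v1 - v) l1 n1` (`σ` the same); with `v' = l0⁻¹ v` (i.e. `v = l0'' v'`) the entries `(j, 0)`, `j ≥ 1`, of
`k⁻¹ k1` are bounded by `C' max |v1 - v|`. `inv_mul_bound` with `B = C' exp (C η t)`: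
entries `(j, 0)`, `j ≥ 1`: `exp (a1_0 - a_j) C' ε ≤ …` by hypothesis `h0`; the others: `exp (a1_q - a_p) ≤ exp D`.
-/

namespace Pool.Agent.Lib.MP_41a456_al.TC

open Matrix MeasureTheory Filter Topology Pool.Agent.Lib.MP_41a456_al

private theorem g3_orth_entry {n : ℕ} {k : SLr n} (h : Orth k) (i j : Fin n) :
    |(k : Mr n) i j| ≤ 1 := by
  have h1 : ((k : Mr n)ᵀ * (k : Mr n)) j j = 1 := by rw [h, Matrix.one_apply_eq]
  rw [Matrix.mul_apply] at h1
  simp only [Matrix.transpose_apply] at h1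
  have h2 : (k : Mr n) i j * (k : Mr n) i j ≤ ∑ p, (k : Mr n) p j * (k : Mr n) p j :=
    Finset.single_le_sum (f := fun p => (k : Mr n) p j * (k : Mr n) p j)
      (fun p _ => mul_self_nonneg _) (Finset.mem_univ i)
  rw [abs_le_one_iff_mul_self_le_one]
  exact h2.trans h1.le

private theorem g3_orth_inv {n : ℕ} {k : SLr n} (h : Orth k) :
    ((k⁻¹ : SLr n) : Mr n) = (k : Mr n)ᵀ := by
  have h1 : (k : Mr n) * ((k⁻¹ : SLr n) : Mr n) = 1 := by
    rw [← Matrix.SpecialLinearGroup.coe_mul, mul_inv_cancel, Matrix.SpecialLinearGroup.coe_one]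
  calc ((k⁻¹ : SLr n) : Mr n) = ((k : Mr n)ᵀ * (k : Mr n)) * ((k⁻¹ : SLr n) : Mr n) := by
        rw [h, Matrix.one_mul]
    _ = (k : Mr n)ᵀ := by rw [Matrix.mul_assoc, h1, Matrix.mul_one]

private theorem g3_orth_quot {n : ℕ} {k k1 : SLr n} (h : Orth k) (h1 : Orth k1) :
    Orth (k⁻¹ * k1) := by
  unfold Orth at *
  have hk : (k : Mr n) * (k : Mr n)ᵀ = 1 := mul_eq_one_comm.mp h
  rw [Matrix.SpecialLinearGroup.coe_mul, g3_orth_inv h, Matrix.transpose_mul,
    Matrix.transpose_transpose]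
  calc (k1 : Mr n)ᵀ * (k : Mr n) * ((k : Mr n)ᵀ * (k1 : Mr n))
      = (k1 : Mr n)ᵀ * ((k : Mr n) * (k : Mr n)ᵀ) * (k1 : Mr n) := by
        simp only [Matrix.mul_assoc]
    _ = 1 := by rw [hk, Matrix.mul_one, h1]

private theorem g3_inv_mulVec {n : ℕ} {g : SLr n} {z w : Fin n → ℝ}
    (h : (g : Mr n) *ᵥ z = w) : ((g⁻¹ : SLr n) : Mr n) *ᵥ w = z := by
  rw [← h, Matrix.mulVec_mulVec, ← Matrix.SpecialLinearGroup.coe_mul, inv_mul_cancel,
    Matrix.SpecialLinearGroup.coe_one, Matrix.one_mulVec]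

private theorem g3_mulVec_le {m : ℕ} {A : Mr (m + 1)} {z : Fin (m + 1) → ℝ} {C e : ℝ}
    (hC : 0 ≤ C) (hA : ∀ i j, |A i j| ≤ C) (hz : ∀ j, |z j| ≤ e) (i : Fin (m + 1)) :
    |(A *ᵥ z) i| ≤ ((m : ℝ) + 1) * (C * e) := by
  rw [Matrix.mulVec, dotProduct]
  calc |∑ j, A i j * z j| ≤ ∑ j, |A i j * z j| := Finset.abs_sum_le_sum_abs _ _
    _ ≤ ∑ _j : Fin (m + 1), C * e := by
        refine Finset.sum_le_sum fun j _ => ?_
        rw [abs_mul]
        exact mul_le_mul (hA i j) (hz j) (abs_nonneg _) hC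
    _ = ((m : ℝ) + 1) * (C * e) := by
        rw [Finset.sum_const, Finset.card_univ, Fintype.card_fin, nsmul_eq_mul]
        push_cast
        ring

/-- the entries below the corner in the first column -/
private theorem g3_col {m : ℕ} {C : ℝ} (hC : 1 ≤ C) {k k1 : SLr (m + 1)} {σ : SLn (m + 1)}
    {v v1 : Fin m → ℝ} {l n l1 n1 : SLr (m + 1)} (h : Chart C k σ v l n)
    (h1 : Chart C k1 σ v1 l1 n1) {ε : ℝ} (hε : 0 ≤ ε) (hv : ∀ j, |v1 j - v j| ≤ ε)
    (i : Fin (m + 1)) (hi : i ≠ 0) :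
    |((k⁻¹ * k1 : SLr (m + 1)) : Mr (m + 1)) i 0| ≤ ((m : ℝ) + 1) ^ 2 * C ^ 3 * ε := by
  have hC0 : (0 : ℝ) ≤ C := by linarith
  have e1 : k⁻¹ * k1 = n⁻¹ * l⁻¹ * ucol (v1 - v) * l1 * n1 := by
    have : ucol (v1 - v) = (ucol v)⁻¹ * ucol v1 := by
      rw [← ucol_neg, ← ucol_add, sub_eq_add_neg, add_comm v1 (-v)]
    rw [this, h.eq, h1.eq]
    group
  set e0 : Fin (m + 1) → ℝ := Pi.single 0 1 with he0
  have hcol : ∀ A : Mr (m + 1), A *ᵥ e0 = fun i => A i 0 := by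
    intro A
    rw [he0, Matrix.mulVec_single_one]
    rfl
  have hl : ∀ {l : SLr (m + 1)}, Low1 l → (l : Mr (m + 1)) *ᵥ e0 = e0 := by
    intro l hl
    rw [hcol]
    funext p
    by_cases hp : p = 0
    · subst hp
      rw [hl.1.1, he0, Pi.single_eq_same]
    · rw [hl.2 p hp, he0, Pi.single_eq_of_ne hp]
  have hn : ∀ {n : SLr (m + 1)}, Upp (n : Mr (m + 1)) →
      (n : Mr (m + 1)) *ᵥ e0 = ((n : Mr (m + 1)) 0 0) • e0 := by
    intro n hn
    rw [hcol]
    funext p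
    by_cases hp : p = 0
    · subst hp
      rw [Pi.smul_apply, he0, Pi.single_eq_same, smul_eq_mul, mul_one]
    · rw [hn p 0 (Fin.pos_iff_ne_zero.mpr hp), Pi.smul_apply, he0, Pi.single_eq_of_ne hp, smul_zero]
  have hn0 : (n : Mr (m + 1)) 0 0 ≠ 0 := by
    have := h.nd 0
    have h2 : 0 < C⁻¹ := inv_pos.mpr (by linarith)
    linarith
  set z : Fin (m + 1) → ℝ := Fin.cons 0 (v1 - v) with hz
  have hzb : ∀ j, |z j| ≤ ε := by
    intro j
    refine Fin.cases ?_ (fun j => ?_) j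
    · rw [hz, Fin.cons_zero, abs_zero]; exact hε
    · rw [hz, Fin.cons_succ, Pi.sub_apply]; exact hv j
  have hu : (ucol (v1 - v) : Mr (m + 1)) *ᵥ e0 = e0 + z := by
    rw [ucol_mulVec, he0, hz]
    funext p
    refine Fin.cases ?_ (fun p => ?_) p
    · simp
    · simp
  have hM : (((k⁻¹ * k1 : SLr (m + 1)) : Mr (m + 1)) *ᵥ e0) =
      ((n1 : Mr (m + 1)) 0 0) • (((n : Mr (m + 1)) 0 0)⁻¹ • e0 +
        ((n⁻¹ : SLr (m + 1)) : Mr (m + 1)) *ᵥ (((l⁻¹ : SLr (m + 1)) : Mr (m + 1)) *ᵥ z)) := by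
    have hli : ((l⁻¹ : SLr (m + 1)) : Mr (m + 1)) *ᵥ e0 = e0 := g3_inv_mulVec (hl h.low)
    have hni : ((n⁻¹ : SLr (m + 1)) : Mr (m + 1)) *ᵥ e0 = ((n : Mr (m + 1)) 0 0)⁻¹ • e0 := by
      refine g3_inv_mulVec ?_
      rw [Matrix.mulVec_smul, hn h.upp, smul_smul, inv_mul_cancel₀ hn0, one_smul]
    rw [e1]
    simp only [Matrix.SpecialLinearGroup.coe_mul]
    simp only [← Matrix.mulVec_mulVec]
    rw [hn h1.upp, Matrix.mulVec_smul, hl h1.low, Matrix.mulVec_smul, hu, Matrix.mulVec_smul,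
      Matrix.mulVec_add, hli, Matrix.mulVec_smul, Matrix.mulVec_add, hni]
  have hi0 : ((k⁻¹ * k1 : SLr (m + 1)) : Mr (m + 1)) i 0 = (n1 : Mr (m + 1)) 0 0 *
      (((n⁻¹ : SLr (m + 1)) : Mr (m + 1)) *ᵥ (((l⁻¹ : SLr (m + 1)) : Mr (m + 1)) *ᵥ z)) i := by
    have h3 := congrFun hM i
    rw [hcol] at h3
    have h4 : (((k⁻¹ * k1 : SLr (m + 1)) : Mr (m + 1)) i 0) = _ := h3
    rw [h4, Pi.smul_apply, Pi.add_apply, Pi.smul_apply, he0, Pi.single_eq_of_ne hi, smul_zero,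
      zero_add, smul_eq_mul]
  rw [hi0, abs_mul]
  have hb1 : ∀ j, |(((l⁻¹ : SLr (m + 1)) : Mr (m + 1)) *ᵥ z) j| ≤ ((m : ℝ) + 1) * (C * ε) :=
    fun j => g3_mulVec_le hC0 h.bl' hzb j
  have hb2 := g3_mulVec_le hC0 h.bn' hb1 i
  calc |(n1 : Mr (m + 1)) 0 0| * |(((n⁻¹ : SLr (m + 1)) : Mr (m + 1)) *ᵥ
        (((l⁻¹ : SLr (m + 1)) : Mr (m + 1)) *ᵥ z)) i|
      ≤ C * (((m : ℝ) + 1) * (C * (((m : ℝ) + 1) * (C * ε)))) :=
        mul_le_mul (h1.bn 0 0) hb2 (abs_nonneg _) hC0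
    _ = ((m : ℝ) + 1) ^ 2 * C ^ 3 * ε := by ring

theorem mult_entries {m : ℕ} {C : ℝ} (hC : 1 ≤ C) : ∃ C' : ℝ, 1 ≤ C' ∧
    ∀ (k k' k1 k1' : SLr (m + 1)) (σ : SLn (m + 1)) (v v1 : Fin m → ℝ) (l n l1 n1 : SLr (m + 1))
      (a a1 : Fin (m + 1) → ℝ) (D ε : ℝ),
      Orth k → Orth k' → Orth k1 → Orth k1' → ∑ i, a i = 0 → ∑ i, a1 i = 0 →
      Chart C k σ v l n → Chart C k1 σ v1 l1 n1 → 0 ≤ D → 0 ≤ ε →
      (∀ j, |v1 j - v j| ≤ ε) → (∀ i j : Fin (m + 1), (i ≠ 0 ∧ j ≠ 0) ∨ i = 0 → a1 j - a i ≤ D) →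
      (∀ i : Fin (m + 1), Real.exp (a1 0 - a i) * ε ≤ Real.exp D) →
      ∀ i j, |(((k * ex a * k')⁻¹ * (k1 * ex a1 * k1') : SLr (m + 1)) : Mr (m + 1)) i j| ≤
        C' * Real.exp D := by
  set K : ℝ := ((m : ℝ) + 1) ^ 2 * C ^ 3 with hK
  have hm : (1 : ℝ) ≤ (m : ℝ) + 1 := by
    have : (0 : ℝ) ≤ m := Nat.cast_nonneg m
    linarith
  have hK1 : 1 ≤ K := by
    rw [hK]
    exact one_le_mul_of_one_le_of_one_le (one_le_pow₀ hm) (one_le_pow₀ hC)
  refine ⟨((m : ℝ) + 1) ^ 2 * K, one_le_mul_of_one_le_of_one_le (one_le_pow₀ hm) hK1, ?_⟩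
  intro k k' k1 k1' σ v v1 l n l1 n1 a a1 D ε hk hk' hk1 hk1' ha ha1 hch hch1 hD hε hv hij h0 i j
  have hB : ∀ p q, Real.exp (a1 q - a p) *
      |((k⁻¹ * k1 : SLr (m + 1)) : Mr (m + 1)) p q| ≤ K * Real.exp D := by
    intro p q
    by_cases hpq : (p ≠ 0 ∧ q ≠ 0) ∨ p = 0
    · have h1 : Real.exp (a1 q - a p) ≤ Real.exp D := Real.exp_le_exp.mpr (hij p q hpq)
      have h2 := g3_orth_entry (g3_orth_quot hk hk1) p q
      calc Real.exp (a1 q - a p) * |((k⁻¹ * k1 : SLr (m + 1)) : Mr (m + 1)) p q|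
          ≤ Real.exp D * 1 := mul_le_mul h1 h2 (abs_nonneg _) (Real.exp_pos _).le
        _ = 1 * Real.exp D := by ring
        _ ≤ K * Real.exp D := mul_le_mul_of_nonneg_right hK1 (Real.exp_pos _).le
    · push Not at hpq
      obtain ⟨h1, hp⟩ := hpq
      have hq : q = 0 := by
        by_contra hq
        exact hq (h1 hp)
      subst hq
      have h2 := g3_col hC hch hch1 hε hv p hp
      calc Real.exp (a1 0 - a p) * |((k⁻¹ * k1 : SLr (m + 1)) : Mr (m + 1)) p 0|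
          ≤ Real.exp (a1 0 - a p) * (K * ε) :=
            mul_le_mul_of_nonneg_left h2 (Real.exp_pos _).le
        _ = K * (Real.exp (a1 0 - a p) * ε) := by ring
        _ ≤ K * Real.exp D := mul_le_mul_of_nonneg_left (h0 p) (by linarith)
  have hfin := inv_mul_bound hk hk' hk1 hk1' ha ha1 hB i j
  refine hfin.trans (le_of_eq ?_)
  push_cast
  ring

end Pool.Agent.Lib.MP_41a456_al.TC
end

section

section

/-!
# MP_41a456_al, Theorem TC, G4: pigeonhole for the charts (paper 521, (7.2))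

Paper 521, section 7, `n = m + 1`.
For every `x ∈ E r` choose charts of `k x` and of `(k' x)ᵀ = (k' x)⁻¹`. Classes: `σ, σ#` (finitely many: entries in
`{0, ±1}`), cells of side `e^{-C' η t}` for the entries of `l, l#` (all at most `C`: at most
`(2 C e^{C' η t} + 1)^(2 n²)` classes) and cells of side `1/t` for `log n_ii`, `log n#_ii`, `av x`
(`|av x - a r| ≤ 1`: polynomially many). The largest class has at least `e^{-C2 η t} |E r|` elements for large
`t`. `l0, l0#, c, c#, e` = the values of one element of the class. Here everything is for one fixed `r` (finite set `E`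
and number `t`); `t ≥ t0(η, C')`.
-/

namespace Pool.Agent.Lib.MP_41a456_al.TC

open Matrix MeasureTheory Filter Topology Pool.Agent.Lib.MP_41a456_al

private theorem G4_pig {α Q : Type*} [Fintype Q] (E : Finset α) (hE : E.Nonempty)
    (g : α → Q → ℝ) (B : ℝ) (hB : 0 ≤ B) (h : ∀ x ∈ E, ∀ q, |g x q| ≤ B) :
    ∃ (E' : Finset α) (x0 : α), E' ⊆ E ∧ x0 ∈ E' ∧
      (E.card : ℝ) ≤ (2 * B + 3) ^ (Fintype.card Q) * E'.card ∧
      ∀ x ∈ E', ∀ q, |g x q - g x0 q| < 1 := by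
  classical
  obtain ⟨code, hcode⟩ : ∃ code : α → Q → ℤ, ∀ x q, code x q = ⌊g x q⌋ :=
    ⟨fun x q => ⌊g x q⌋, fun _ _ => rfl⟩
  obtain ⟨x0, hx0, hmax⟩ :=
    E.exists_max_image (fun x => (E.filter fun y => code y = code x).card) hE
  refine ⟨E.filter fun y => code y = code x0, x0, Finset.filter_subset _ _,
    Finset.mem_filter.2 ⟨hx0, rfl⟩, ?_, ?_⟩
  · have h1 := Finset.card_le_mul_card_image (f := code) E
      (E.filter fun y => code y = code x0).card (by
        intro a ha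
        obtain ⟨x, hx, rfl⟩ := Finset.mem_image.1 ha
        exact hmax x hx)
    have h2 : E.image code ⊆ Fintype.piFinset (fun _ : Q => Finset.Icc ⌊-B⌋ ⌊B⌋) := by
      intro a ha
      obtain ⟨x, hx, rfl⟩ := Finset.mem_image.1 ha
      rw [Fintype.mem_piFinset]
      intro q
      rw [hcode, Finset.mem_Icc]
      have h3 := abs_le.1 (h x hx q)
      exact ⟨Int.floor_le_floor h3.1, Int.floor_le_floor h3.2⟩
    have h3 := Finset.card_le_card h2
    rw [Fintype.card_piFinset, Finset.prod_const, Finset.card_univ, Int.card_Icc] at h3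
    have h4 : (((⌊B⌋ + 1 - ⌊-B⌋).toNat : ℕ) : ℝ) ≤ 2 * B + 3 := by
      have h5 : (0 : ℤ) ≤ ⌊B⌋ + 1 - ⌊-B⌋ := by
        have h6 : ⌊-B⌋ ≤ ⌊B⌋ := Int.floor_le_floor (by linarith)
        omega
      have h7 : (((⌊B⌋ + 1 - ⌊-B⌋).toNat : ℕ) : ℝ) = ((⌊B⌋ + 1 - ⌊-B⌋ : ℤ) : ℝ) := by
        exact_mod_cast Int.toNat_of_nonneg h5
      rw [h7]
      push_cast
      have h8 := Int.floor_le B
      have h9 := Int.lt_floor_add_one (-B)
      linarith
    calc (E.card : ℝ) ≤ ((E.filter fun y => code y = code x0).card * (E.image code).card : ℕ) := by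
          exact_mod_cast h1
      _ = ((E.filter fun y => code y = code x0).card : ℝ) * ((E.image code).card : ℝ) := by
          push_cast
          rfl
      _ ≤ ((E.filter fun y => code y = code x0).card : ℝ) *
            (((⌊B⌋ + 1 - ⌊-B⌋).toNat : ℕ) : ℝ) ^ (Fintype.card Q) := by
          refine mul_le_mul_of_nonneg_left ?_ (Nat.cast_nonneg _)
          exact_mod_cast h3
      _ ≤ ((E.filter fun y => code y = code x0).card : ℝ) * (2 * B + 3) ^ (Fintype.card Q) := by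
          refine mul_le_mul_of_nonneg_left ?_ (Nat.cast_nonneg _)
          exact pow_le_pow_left₀ (Nat.cast_nonneg _) h4 _
      _ = (2 * B + 3) ^ (Fintype.card Q) * (E.filter fun y => code y = code x0).card := by
          ring
  · intro x hx q
    have h1 := (Finset.mem_filter.1 hx).2
    have h2 : ⌊g x q⌋ = ⌊g x0 q⌋ := by
      rw [← hcode, ← hcode, h1]
    exact Int.abs_sub_lt_one_of_floor_eq_floor h2

private theorem G4_log {m : ℕ} {C : ℝ} (hC : 1 ≤ C) {k : SLr (m + 1)} {σ : SLn (m + 1)}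
    {v : Fin m → ℝ} {l n : SLr (m + 1)} (h : Chart C k σ v l n) (i : Fin (m + 1)) :
    |Real.log ((n : Mr (m + 1)) i i)| ≤ C := by
  have hC0 : 0 < C := by linarith
  have h1 := h.nd i
  have h2 := (abs_le.1 (h.bn i i)).2
  have h3 : 0 < C⁻¹ := inv_pos.2 hC0
  have h4 : 0 < (n : Mr (m + 1)) i i := lt_of_lt_of_le h3 h1
  have h5 := Real.log_le_log h3 h1
  have h6 := Real.log_le_log h4 h2
  rw [Real.log_inv] at h5
  have h7 := Real.log_le_self hC0.le
  rw [abs_le]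
  constructor
  · linarith
  · linarith

private theorem G4_ent {m : ℕ} {σ : SLn (m + 1)}
    (h : ∀ i j, (σ : Mt (m + 1)) i j = 0 ∨ (σ : Mt (m + 1)) i j = 1 ∨ (σ : Mt (m + 1)) i j = -1)
    (i j : Fin (m + 1)) : |(((σ : Mt (m + 1)) i j : ℤ) : ℝ)| ≤ 1 := by
  rcases h i j with h1 | h1 | h1
  · rw [h1]
    norm_num
  · rw [h1]
    norm_num
  · rw [h1]
    norm_num

private theorem G4_eq {m : ℕ} {σ τ : SLn (m + 1)}
    (h : ∀ i j, |(((σ : Mt (m + 1)) i j : ℤ) : ℝ) - (((τ : Mt (m + 1)) i j : ℤ) : ℝ)| < 1) :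
    σ = τ := by
  ext i j
  have h1 := h i j
  rw [← Int.cast_sub, ← Int.cast_abs] at h1
  have h2 : |(σ : Mt (m + 1)) i j - (τ : Mt (m + 1)) i j| < 1 := by exact_mod_cast h1
  have h3 := Int.abs_lt_one_iff.1 h2
  linarith

private theorem G4_scale {a b y : ℝ} (h : |a * Real.exp y - b * Real.exp y| < 1) :
    |a - b| ≤ Real.exp (-y) := by
  rw [← sub_mul, abs_mul, abs_of_pos (Real.exp_pos y)] at h
  rw [Real.exp_neg, ← one_div, le_div_iff₀ (Real.exp_pos y)]
  exact h.le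

private theorem G4_scale2 {a b t : ℝ} (ht : 0 < t) (h : |a * t - b * t| < 1) :
    |a - b| ≤ 1 / t := by
  rw [← sub_mul, abs_mul, abs_of_pos ht] at h
  rw [le_div_iff₀ ht]
  exact h.le

theorem pigeon {m : ℕ} {C : ℝ} (hC : 1 ≤ C) : ∃ C2 : ℝ, 1 ≤ C2 ∧ ∀ C' η : ℝ, 1 ≤ C' → 0 < η →
    ∃ t0 : ℝ, ∀ t : ℝ, t0 ≤ t → ∀ (E : Finset (SLn (m + 1))) (a : Fin (m + 1) → ℝ)
      (k : SLn (m + 1) → SLr (m + 1)) (kk : SLn (m + 1) → SLr (m + 1))
      (av : SLn (m + 1) → Fin (m + 1) → ℝ) (σ σ' : SLn (m + 1) → SLn (m + 1))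
      (v v' : SLn (m + 1) → Fin m → ℝ) (l n l' n' : SLn (m + 1) → SLr (m + 1)),
      E.Nonempty → (∀ x ∈ E, ∀ i, |av x i - a i| ≤ 1) →
      (∀ x ∈ E, Chart C (k x) (σ x) (v x) (l x) (n x)) →
      (∀ x ∈ E, Chart C (kk x) (σ' x) (v' x) (l' x) (n' x)) →
      ∃ (E' : Finset (SLn (m + 1))) (x0 : SLn (m + 1)), E' ⊆ E ∧ x0 ∈ E' ∧
        (E.card : ℝ) ≤ Real.exp (C2 * C' * η * t) * E'.card ∧
        ∀ x ∈ E', σ x = σ x0 ∧ σ' x = σ' x0 ∧
          (∀ i j, |(l x : Mr (m + 1)) i j - (l x0 : Mr (m + 1)) i j| ≤ Real.exp (-(C' * η * t))) ∧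
          (∀ i j, |(l' x : Mr (m + 1)) i j - (l' x0 : Mr (m + 1)) i j| ≤ Real.exp (-(C' * η * t))) ∧
          (∀ i, |Real.log ((n x : Mr (m + 1)) i i) - Real.log ((n x0 : Mr (m + 1)) i i)| ≤ 1 / t) ∧
          (∀ i, |Real.log ((n' x : Mr (m + 1)) i i) - Real.log ((n' x0 : Mr (m + 1)) i i)| ≤ 1 / t) ∧
          ∀ i, |av x i - av x0 i| ≤ 1 / t := by
  have hC0 : 0 < C := by linarith
  refine ⟨14 * ((m : ℝ) + 1) ^ 2, by nlinarith [Nat.cast_nonneg (α := ℝ) m], ?_⟩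
  intro C' η hC' hη
  refine ⟨max 1 (max (2 / η ^ 2) (5 * C / η)), ?_⟩
  intro t ht E a k kk av σ σ' v v' l n l' n' hE hav hch hch'
  have ht1 : 1 ≤ t := (le_max_left _ _).trans ht
  have ht2 : 2 / η ^ 2 ≤ t := ((le_max_left _ _).trans (le_max_right _ _)).trans ht
  have ht3 : 5 * C / η ≤ t := ((le_max_right _ _).trans (le_max_right _ _)).trans ht
  have ht0 : 0 < t := by linarith
  obtain ⟨y, hy⟩ : ∃ y : ℝ, y = C' * η * t := ⟨_, rfl⟩
  have hηt : η * t ≤ y := by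
    rw [hy]
    have : 0 < η * t := by positivity
    nlinarith
  have hy0 : 0 ≤ y := by
    have : 0 < η * t := by positivity
    linarith
  have hCy : 5 * C ≤ y := by
    rw [div_le_iff₀ hη] at ht3
    linarith
  have hty : t ≤ Real.exp y := by
    have h1 := Real.quadratic_le_exp_of_nonneg hy0
    have h2 : 2 ≤ t * η ^ 2 := by
      rwa [div_le_iff₀ (by positivity)] at ht2
    have h3 : (η * t) ^ 2 ≤ y ^ 2 := pow_le_pow_left₀ (by positivity) hηt 2
    nlinarith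
  have hexp1 : 1 ≤ Real.exp y := Real.one_le_exp hy0
  have hCexp : 5 * C ≤ Real.exp y := by
    have := Real.add_one_le_exp y
    linarith
  have hB1 : C ≤ C * Real.exp y := le_mul_of_one_le_right hC0.le hexp1
  have hBt : C * t ≤ C * Real.exp y := mul_le_mul_of_nonneg_left hty hC0.le
  have hB1' : 1 ≤ C * Real.exp y := hC.trans hB1
  have hBt' : t ≤ C * Real.exp y := by
    have : t ≤ C * t := le_mul_of_one_le_left ht0.le hC
    linarith
  obtain ⟨E', x0, hE', hx0, hcard, hclose⟩ := G4_pig E hE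
    (fun x (q : Fin 7 × Fin (m + 1) × Fin (m + 1)) =>
      (![(((σ x : Mt (m + 1)) q.2.1 q.2.2 : ℤ) : ℝ), (((σ' x : Mt (m + 1)) q.2.1 q.2.2 : ℤ) : ℝ),
        (l x : Mr (m + 1)) q.2.1 q.2.2 * Real.exp y, (l' x : Mr (m + 1)) q.2.1 q.2.2 * Real.exp y,
        Real.log ((n x : Mr (m + 1)) q.2.1 q.2.1) * t,
        Real.log ((n' x : Mr (m + 1)) q.2.1 q.2.1) * t, (av x q.2.1 - a q.2.1) * t] : Fin 7 → ℝ) q.1)
    (C * Real.exp y) (by positivity) (by
      rintro x hx ⟨q, i, j⟩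
      have hc := hch x hx
      have hc' := hch' x hx
      fin_cases q
      · exact (G4_ent hc.ents i j).trans hB1'
      · exact (G4_ent hc'.ents i j).trans hB1'
      · change |(l x : Mr (m + 1)) i j * Real.exp y| ≤ _
        rw [abs_mul, abs_of_pos (Real.exp_pos y)]
        exact mul_le_mul_of_nonneg_right (hc.bl i j) (Real.exp_pos y).le
      · change |(l' x : Mr (m + 1)) i j * Real.exp y| ≤ _
        rw [abs_mul, abs_of_pos (Real.exp_pos y)]
        exact mul_le_mul_of_nonneg_right (hc'.bl i j) (Real.exp_pos y).le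
      · change |Real.log ((n x : Mr (m + 1)) i i) * t| ≤ _
        rw [abs_mul, abs_of_pos ht0]
        exact (mul_le_mul_of_nonneg_right (G4_log hC hc i) ht0.le).trans hBt
      · change |Real.log ((n' x : Mr (m + 1)) i i) * t| ≤ _
        rw [abs_mul, abs_of_pos ht0]
        exact (mul_le_mul_of_nonneg_right (G4_log hC hc' i) ht0.le).trans hBt
      · change |(av x i - a i) * t| ≤ _
        rw [abs_mul, abs_of_pos ht0]
        refine (mul_le_mul_of_nonneg_right (hav x hx i) ht0.le).trans ?_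
        rw [one_mul]
        exact hBt')
  refine ⟨E', x0, hE', hx0, ?_, ?_⟩
  · refine hcard.trans ?_
    refine mul_le_mul_of_nonneg_right ?_ (Nat.cast_nonneg _)
    have h1 : 2 * (C * Real.exp y) + 3 ≤ 5 * C * Real.exp y := by linarith
    have h2 : 5 * C * Real.exp y ≤ Real.exp (2 * y) := by
      rw [two_mul, Real.exp_add]
      exact mul_le_mul_of_nonneg_right hCexp (Real.exp_pos y).le
    have h3 : Fintype.card (Fin 7 × Fin (m + 1) × Fin (m + 1)) = 7 * ((m + 1) * (m + 1)) := by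
      simp
    rw [h3]
    refine (pow_le_pow_left₀ (by positivity) (h1.trans h2) _).trans ?_
    rw [← Real.exp_nat_mul]
    apply Real.exp_le_exp.2
    rw [hy]
    push_cast
    apply le_of_eq
    ring
  · intro x hx
    have hcl := hclose x hx
    rw [← hy]
    refine ⟨G4_eq fun i j => hcl (0, i, j), G4_eq fun i j => hcl (1, i, j),
      fun i j => G4_scale (hcl (2, i, j)), fun i j => G4_scale (hcl (3, i, j)),
      fun i => G4_scale2 ht0 (hcl (4, i, i)), fun i => G4_scale2 ht0 (hcl (5, i, i)), fun i => ?_⟩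
    have h1 := G4_scale2 ht0 (hcl (6, i, i))
    rwa [sub_sub_sub_cancel_right] at h1

end Pool.Agent.Lib.MP_41a456_al.TC
end

section

/-!
# MP_41a456_al, Theorem TC, G6a: auxiliary lemmas for G6

Paper 521, section 7, `n = m + 1`: exponents of `bb` with sum zero, elements close to 1, consequences of `Chart`.
-/

namespace Pool.Agent.Lib.MP_41a456_al.TC

open Matrix MeasureTheory Filter Topology Pool.Agent.Lib.MP_41a456_al

/-- a trap without the first indices -/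
theorem Trap.shift {m : ℕ} {η C R0 : ℝ} {t : ℕ → ℝ} {a : ℕ → Fin (m + 1) → ℝ}
    {E : ℕ → Finset (SLn (m + 1))} {k k' : SLn (m + 1) → SLr (m + 1)}
    {av : SLn (m + 1) → Fin (m + 1) → ℝ} {O : Set (X (m + 1))}
    (h : Trap m η C R0 t a E k k' av O) (r1 : ℕ) :
    Trap m η C R0 (fun r => t (r + r1)) (fun r => a (r + r1)) (fun r => E (r + r1)) k k' av O where
  ht := h.ht.comp (tendsto_add_atTop_nat r1)
  asum r := h.asum (r + r1)
  a0 r := h.a0 (r + r1)
  ai r := h.ai (r + r1)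
  agap r := h.agap (r + r1)
  hk := h.hk
  hk' := h.hk'
  avsum := h.avsum
  avanti := h.avanti
  fac := h.fac
  near r := h.near (r + r1)
  card r := h.card (r + r1)
  Oopen := h.Oopen
  Onon := h.Onon
  trap r := h.trap (r + r1)

/-- the exponents of `bb Λ s` with sum zero -/
noncomputable def bz {m : ℕ} (Λ : ℕ) (s : Fin m → ℤ) : Fin (m + 1) → ℝ :=
  fun i => Real.log Λ * (∑ l with i ≤ l.castSucc, (s l : ℝ)) -
    (∑ j : Fin (m + 1), Real.log Λ * (∑ l with j ≤ l.castSucc, (s l : ℝ))) / ((m + 1 : ℕ) : ℝ)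

theorem bz_sum {m : ℕ} (Λ : ℕ) (s : Fin m → ℤ) : ∑ i, bz Λ s i = 0 := by
  unfold bz
  rw [Finset.sum_sub_distrib, Finset.sum_const, Finset.card_univ, Fintype.card_fin, nsmul_eq_mul,
    mul_div_cancel₀ _ (by positivity : ((m + 1 : ℕ) : ℝ) ≠ 0), sub_self]

theorem gap_bz {m : ℕ} (Λ : ℕ) (s : Fin m → ℤ) (i : Fin m) :
    gap (bz Λ s) i = Real.log Λ * s i := by
  rw [← gap_bb]
  unfold gap bz
  ring

theorem ex_bz {m : ℕ} (Λ : ℕ) (s : Fin m → ℤ) : ex (bz Λ s) = bb Λ s := by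
  unfold bb
  apply ex_congr
  intro l
  rw [gap_bz, gap_bb]

theorem gap_sub {m : ℕ} (a b : Fin (m + 1) → ℝ) (i : Fin m) :
    gap (a - b) i = gap a i - gap b i := by
  unfold gap
  simp only [Pi.sub_apply]
  ring

/-- sum zero and bounded gaps: bounded -/
theorem bdd_of_gap {m : ℕ} {e : Fin (m + 1) → ℝ} (hs : ∑ i, e i = 0) {B : ℝ} (hB : 0 ≤ B)
    (h : ∀ i, |gap e i| ≤ B) (i : Fin (m + 1)) : |e i| ≤ m * B := by
  have h1 : ∀ i : Fin (m + 1), |e i - e 0| ≤ (i : ℕ) * B := by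
    intro i
    induction i using Fin.induction with
    | zero => simp
    | succ l ih =>
      have h2 := h l
      unfold gap at h2
      have h3 : |e l.succ - e 0| ≤ |e l.castSucc - e l.succ| + |e l.castSucc - e 0| := by
        rw [abs_sub_comm (e l.castSucc) (e l.succ)]
        exact abs_sub_le _ _ _
      rw [Fin.val_succ]
      rw [Fin.val_castSucc] at ih
      push_cast
      linarith
  have h2 : ∀ i j : Fin (m + 1), i ≤ j → |e j - e i| ≤ ((j : ℕ) - (i : ℕ) : ℝ) * B := by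
    intro i j
    induction j using Fin.induction with
    | zero =>
      intro hij
      have : i = 0 := le_antisymm hij (Fin.zero_le _)
      subst this
      simp
    | succ l ih =>
      intro hij
      rcases hij.lt_or_eq with h3 | h3
      · have h4 : i ≤ l.castSucc := Fin.le_castSucc_iff.2 h3
        have h5 := ih h4
        have h6 := h l
        unfold gap at h6
        have h7 : |e l.succ - e i| ≤ |e l.castSucc - e l.succ| + |e l.castSucc - e i| := by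
          rw [abs_sub_comm (e l.castSucc) (e l.succ)]
          exact abs_sub_le _ _ _
        rw [Fin.val_succ]
        rw [Fin.val_castSucc] at h5
        push_cast
        linarith
      · rw [h3]
        simp
  have h3 : ∀ i j : Fin (m + 1), |e i - e j| ≤ m * B := by
    intro i j
    have hi : ((i : ℕ) : ℝ) ≤ m := by exact_mod_cast Nat.lt_succ_iff.1 i.2
    have hj : ((j : ℕ) : ℝ) ≤ m := by exact_mod_cast Nat.lt_succ_iff.1 j.2
    have hi0 : (0 : ℝ) ≤ ((i : ℕ) : ℝ) := Nat.cast_nonneg _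
    have hj0 : (0 : ℝ) ≤ ((j : ℕ) : ℝ) := Nat.cast_nonneg _
    rcases le_total i j with h4 | h4
    · rw [abs_sub_comm]
      refine (h2 i j h4).trans (mul_le_mul_of_nonneg_right (by linarith) hB)
    · exact (h2 j i h4).trans (mul_le_mul_of_nonneg_right (by linarith) hB)
  have h4 : ((m + 1 : ℕ) : ℝ) * e i = ∑ j : Fin (m + 1), (e i - e j) := by
    rw [Finset.sum_sub_distrib, hs, Finset.sum_const, Finset.card_univ, Fintype.card_fin,
      nsmul_eq_mul, sub_zero]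
  have h5 : ((m + 1 : ℕ) : ℝ) * |e i| ≤ ((m + 1 : ℕ) : ℝ) * (m * B) := by
    calc ((m + 1 : ℕ) : ℝ) * |e i| = |((m + 1 : ℕ) : ℝ) * e i| := by
          rw [abs_mul, abs_of_pos (by positivity : (0 : ℝ) < ((m + 1 : ℕ) : ℝ))]
      _ = |∑ j : Fin (m + 1), (e i - e j)| := by rw [h4]
      _ ≤ ∑ j : Fin (m + 1), |e i - e j| := Finset.abs_sum_le_sum_abs _ _
      _ ≤ ∑ _j : Fin (m + 1), (m * B) := Finset.sum_le_sum fun j _ => h3 i j
      _ = ((m + 1 : ℕ) : ℝ) * (m * B) := by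
          rw [Finset.sum_const, Finset.card_univ, Fintype.card_fin, nsmul_eq_mul]
  exact le_of_mul_le_mul_left h5 (by positivity)

/-- matrices with entries close to those of the identity are a neighbourhood -/
theorem entries_mem_nhds_one {n : ℕ} {δ : ℝ} (hδ : 0 < δ) :
    {g : SLr n | ∀ i j, |(g : Mr n) i j - (1 : Mr n) i j| < δ} ∈ 𝓝 (1 : SLr n) := by
  have h1 : ∀ i j : Fin n, Continuous fun g : SLr n => |(g : Mr n) i j - (1 : Mr n) i j| := by
    intro i j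
    have h2 : Continuous fun g : SLr n => (g : Mr n) := continuous_subtype_val
    exact ((h2.matrix_elem i j).sub continuous_const).abs
  have h3 : {g : SLr n | ∀ i j, |(g : Mr n) i j - (1 : Mr n) i j| < δ} =
      ⋂ i, ⋂ j, {g : SLr n | |(g : Mr n) i j - (1 : Mr n) i j| < δ} := by
    ext g
    simp only [Set.mem_setOf_eq, Set.mem_iInter]
  rw [h3]
  refine IsOpen.mem_nhds ?_ ?_
  · exact isOpen_iInter_of_finite fun i => isOpen_iInter_of_finite fun j =>
      isOpen_lt (h1 i j) continuous_const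
  · simp only [Set.mem_iInter, Set.mem_setOf_eq]
    intro i j
    change |(1 : Mr n) i j - (1 : Mr n) i j| < δ
    rw [sub_self, abs_zero]
    exact hδ

theorem conj_entry {n : ℕ} (f : Fin n → ℝ) (g : SLr n) (i j : Fin n) :
    ((ex (-f) * g * ex f : SLr n) : Mr n) i j = Real.exp (f j - f i) * (g : Mr n) i j := by
  rw [Matrix.SpecialLinearGroup.coe_mul, Matrix.SpecialLinearGroup.coe_mul, ex_coe, ex_coe,
    mul_diagonal, diagonal_mul]
  have h : Real.exp (f j - f i) = Real.exp ((-f) i - (∑ j, (-f) j) / n) *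
      Real.exp (f j - (∑ j, f j) / n) := by
    rw [← Real.exp_add]
    congr 1
    simp only [Pi.neg_apply, Finset.sum_neg_distrib]
    ring
  rw [h]
  ring

/-- conjugates by bounded diagonal matrices of elements close to 1 are close to 1 -/
theorem conj_close {n : ℕ} (B : ℝ) {V : Set (SLr n)} (hV : V ∈ 𝓝 (1 : SLr n)) :
    ∃ U ∈ 𝓝 (1 : SLr n), ∀ g ∈ U, ∀ f : Fin n → ℝ, (∀ i, |f i| ≤ B) → ex (-f) * g * ex f ∈ V := by
  obtain ⟨δ, hδ, h⟩ := nhds_one_entries hV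
  refine ⟨_, entries_mem_nhds_one (n := n) (δ := δ * Real.exp (-(2 * B))) (by positivity), ?_⟩
  intro g hg f hf
  apply h
  intro i j
  rw [conj_entry]
  have h1 : (1 : Mr n) i j = Real.exp (f j - f i) * (1 : Mr n) i j := by
    by_cases hij : i = j
    · subst hij
      rw [sub_self, Real.exp_zero, one_mul]
    · rw [Matrix.one_apply_ne hij, mul_zero]
  rw [h1, ← mul_sub, abs_mul, abs_of_pos (Real.exp_pos _)]
  have h2 : Real.exp (f j - f i) ≤ Real.exp (2 * B) := by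
    apply Real.exp_le_exp.2
    have h3 := abs_le.1 (hf i)
    have h4 := abs_le.1 (hf j)
    linarith [h3.1, h4.2]
  calc Real.exp (f j - f i) * |(g : Mr n) i j - (1 : Mr n) i j|
      ≤ Real.exp (2 * B) * (δ * Real.exp (-(2 * B))) :=
        mul_le_mul h2 (hg i j).le (abs_nonneg _) (Real.exp_pos _).le
    _ = δ := by
        rw [mul_comm δ, ← mul_assoc, ← Real.exp_add, add_neg_cancel, Real.exp_zero, one_mul]

/-- `ex f` is close to 1 for small `f` -/
theorem ex_close {n : ℕ} {V : Set (SLr n)} (hV : V ∈ 𝓝 (1 : SLr n)) :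
    ∃ δ : ℝ, 0 < δ ∧ ∀ f : Fin n → ℝ, (∀ i, |f i| ≤ δ) → ex f ∈ V := by
  have h1 : Tendsto (ex : (Fin n → ℝ) → SLr n) (𝓝 0) (𝓝 1) := by
    have h2 := (continuous_ex (n := n)).tendsto 0
    rw [ex_zero] at h2
    exact h2
  obtain ⟨ε, hε, h3⟩ := Metric.mem_nhds_iff.1 (h1 hV)
  refine ⟨ε / 2, by positivity, fun f hf => ?_⟩
  have h4 : f ∈ Metric.ball (0 : Fin n → ℝ) ε := by
    rw [Metric.mem_ball, dist_zero_right]
    refine lt_of_le_of_lt ((pi_norm_le_iff_of_nonneg (by positivity)).2 hf) ?_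
    linarith
  exact h3 h4

/-- three factors close to 1 -/
theorem split_three {n : ℕ} {V : Set (SLr n)} (hV : V ∈ 𝓝 (1 : SLr n)) :
    ∃ U ∈ 𝓝 (1 : SLr n), ∀ g1 ∈ U, ∀ g2 ∈ U, ∀ g3 ∈ U, g1 * g2 * g3 ∈ V := by
  obtain ⟨U, hU, h⟩ := exists_nhds_one_split4 hV
  refine ⟨U, hU, fun g1 h1 g2 h2 g3 h3 => ?_⟩
  have h4 := h h1 h2 h3 (mem_of_mem_nhds hU)
  rwa [mul_one] at h4

theorem theta_inv_nhds {n : ℕ} {V : Set (SLr n)} (hV : V ∈ 𝓝 (1 : SLr n)) :
    {g : SLr n | (theta n g)⁻¹ ∈ V} ∈ 𝓝 (1 : SLr n) := by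
  have h1 : Tendsto (fun g : SLr n => (theta n g)⁻¹) (𝓝 1) (𝓝 1) := by
    have h2 : Continuous fun g : SLr n => (theta n g)⁻¹ := (continuous_theta (n := n)).inv
    have h3 := h2.tendsto 1
    rw [map_one, inv_one] at h3
    exact h3
  exact h1 hV

section chart

variable {m : ℕ} {C : ℝ} {k : SLr (m + 1)} {σ : SLn (m + 1)} {v : Fin m → ℝ} {l n : SLr (m + 1)}

theorem Chart.n_pos (h : Chart C k σ v l n) (hC : 1 ≤ C) (i : Fin (m + 1)) :
    0 < (n : Mr (m + 1)) i i :=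
  lt_of_lt_of_le (by positivity) (h.nd i)

theorem Chart.log_n (h : Chart C k σ v l n) (hC : 1 ≤ C) (i : Fin (m + 1)) :
    |Real.log ((n : Mr (m + 1)) i i)| ≤ C := by
  have h1 := h.n_pos hC i
  have h2 : (n : Mr (m + 1)) i i ≤ C := (le_abs_self _).trans (h.bn i i)
  have h3 : Real.log C ≤ C := (Real.log_le_sub_one_of_pos (by linarith)).trans (by linarith)
  rw [abs_le]
  constructor
  · have h4 := Real.log_le_log (by positivity : 0 < C⁻¹) (h.nd i)
    rw [Real.log_inv] at h4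
    linarith
  · exact (Real.log_le_log h1 h2).trans h3

theorem Chart.sum_log (h : Chart C k σ v l n) (hC : 1 ≤ C) :
    ∑ i, Real.log ((n : Mr (m + 1)) i i) = 0 := by
  rw [← Real.log_prod fun i _ => (h.n_pos hC i).ne']
  have h1 : (n : Mr (m + 1)).det = ∏ i, (n : Mr (m + 1)) i i := by
    apply Matrix.det_of_isUpperTriangular
    intro i j hij
    exact h.upp i j hij
  have h2 : (n : Mr (m + 1)).det = 1 := n.2
  rw [← h1, h2, Real.log_one]

theorem low_quot {C : ℝ} {l l0 : SLr (m + 1)} {e : ℝ}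
    (h : ∀ i j, |((l⁻¹ : SLr (m + 1)) : Mr (m + 1)) i j| ≤ C)
    (he : ∀ i j, |(l : Mr (m + 1)) i j - (l0 : Mr (m + 1)) i j| ≤ e) (i j : Fin (m + 1)) :
    |((l⁻¹ * l0 : SLr (m + 1)) : Mr (m + 1)) i j - (1 : Mr (m + 1)) i j| ≤ (m + 1) * C * e := by
  have h1 : ((l⁻¹ * l0 : SLr (m + 1)) : Mr (m + 1)) - 1 =
      ((l⁻¹ : SLr (m + 1)) : Mr (m + 1)) * ((l0 : Mr (m + 1)) - (l : Mr (m + 1))) := by
    rw [Matrix.mul_sub, Matrix.SpecialLinearGroup.coe_mul, ← Matrix.SpecialLinearGroup.coe_mul l⁻¹ l,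
      inv_mul_cancel, Matrix.SpecialLinearGroup.coe_one]
  have h2 : ((l⁻¹ * l0 : SLr (m + 1)) : Mr (m + 1)) i j - (1 : Mr (m + 1)) i j =
      ∑ q, ((l⁻¹ : SLr (m + 1)) : Mr (m + 1)) i q * ((l0 : Mr (m + 1)) q j - (l : Mr (m + 1)) q j) := by
    rw [← Matrix.sub_apply, h1, Matrix.mul_apply]
    simp only [Matrix.sub_apply]
  have hC : 0 ≤ C := (abs_nonneg _).trans (h 0 0)
  rw [h2]
  calc |∑ q, ((l⁻¹ : SLr (m + 1)) : Mr (m + 1)) i q * ((l0 : Mr (m + 1)) q j - (l : Mr (m + 1)) q j)|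
      ≤ ∑ q, |((l⁻¹ : SLr (m + 1)) : Mr (m + 1)) i q *
          ((l0 : Mr (m + 1)) q j - (l : Mr (m + 1)) q j)| := Finset.abs_sum_le_sum_abs _ _
    _ ≤ ∑ _q : Fin (m + 1), C * e := by
        refine Finset.sum_le_sum fun q _ => ?_
        rw [abs_mul, abs_sub_comm]
        exact mul_le_mul (h i q) (he q j) (abs_nonneg _) hC
    _ = (m + 1) * C * e := by
        rw [Finset.sum_const, Finset.card_univ, Fintype.card_fin, nsmul_eq_mul]
        push_cast
        ring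

end chart

theorem orth_inv_of {n : ℕ} {k : SLr n} (h : Orth k) : Orth (k⁻¹) := by
  have h1 : (k : Mr n) * ((k⁻¹ : SLr n) : Mr n) = 1 := by
    rw [← Matrix.SpecialLinearGroup.coe_mul, mul_inv_cancel, Matrix.SpecialLinearGroup.coe_one]
  have h2 : ((k⁻¹ : SLr n) : Mr n) = (k : Mr n)ᵀ := by
    calc ((k⁻¹ : SLr n) : Mr n) = ((k : Mr n)ᵀ * (k : Mr n)) * ((k⁻¹ : SLr n) : Mr n) := by
          rw [h, Matrix.one_mul]
      _ = (k : Mr n)ᵀ := by rw [Matrix.mul_assoc, h1, Matrix.mul_one]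
  unfold Orth
  rw [h2, Matrix.transpose_transpose, ← h2]
  exact h1

theorem tr_eq_inv {n : ℕ} {k : SLr n} (h : Orth k) : tr k = k⁻¹ := by
  apply eq_inv_of_mul_eq_one_left
  apply Subtype.ext
  change ((tr k * k : SLr n) : Mr n) = (1 : SLr n)
  rw [Matrix.SpecialLinearGroup.coe_mul, Matrix.SpecialLinearGroup.coe_one]
  exact h

theorem tr_mul {n : ℕ} (g h : SLr n) : tr (g * h) = tr h * tr g := by
  apply Subtype.ext
  change ((g * h : SLr n) : Mr n)ᵀ = ((tr h * tr g : SLr n) : Mr n)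
  rw [Matrix.SpecialLinearGroup.coe_mul, Matrix.SpecialLinearGroup.coe_mul, Matrix.transpose_mul]
  rfl

theorem fac_trz {n : ℕ} {x : SLn n} {k k' : SLr n} {a : Fin n → ℝ} (hk : Orth k) (hk' : Orth k')
    (h : iz n x = k * ex a * k') : iz n (trz x) = k'⁻¹ * ex a * k⁻¹ := by
  rw [iz_trz, h, tr_mul, tr_mul, tr_ex, tr_eq_inv hk, tr_eq_inv hk', mul_assoc]

theorem trz_injective {n : ℕ} : Function.Injective (trz : SLn n → SLn n) := by
  intro x y h
  apply Subtype.ext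
  have h1 : ((trz x : SLn n) : Mt n) = ((trz y : SLn n) : Mt n) := by rw [h]
  exact Matrix.transpose_injective h1

theorem iz_injective {n : ℕ} : Function.Injective (iz n) := by
  intro x y h
  apply Subtype.ext
  ext i j
  have h1 : ((iz n x : SLr n) : Mr n) i j = ((iz n y : SLr n) : Mr n) i j := by rw [h]
  exact Int.cast_injective (α := ℝ) h1

end Pool.Agent.Lib.MP_41a456_al.TC
end

section

/-!
# MP_41a456_al, Theorem TC, G6b: the forward system of a class of charts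

Paper 521, section 7, `n = m + 1`.
-/

namespace Pool.Agent.Lib.MP_41a456_al.TC

open Matrix MeasureTheory Filter Topology Pool.Agent.Lib.MP_41a456_al

/-- the numbers of steps -/
noncomputable def shf {m : ℕ} (Λ : ℕ) (a : ℕ → Fin (m + 1) → ℝ) (r : ℕ) (i : Fin m) : ℤ :=
  ⌊gap (a r) i / Real.log Λ⌋

/-- the margin -/
noncomputable def pf (Λ : ℕ) (η : ℝ) (t : ℕ → ℝ) (r : ℕ) : ℤ := ⌊η * t r / (8 * Real.log Λ)⌋

theorem log_pos_of {Λ : ℕ} (hΛ : 2 ≤ Λ) : 0 < Real.log Λ := by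
  apply Real.log_pos
  exact_mod_cast hΛ

theorem shf_le {m : ℕ} {Λ : ℕ} (hΛ : 2 ≤ Λ) (a : ℕ → Fin (m + 1) → ℝ) (r : ℕ) (i : Fin m) :
    (shf Λ a r i : ℝ) * Real.log Λ ≤ gap (a r) i := by
  rw [← le_div_iff₀ (log_pos_of hΛ)]
  exact Int.floor_le _

theorem le_shf {m : ℕ} {Λ : ℕ} (hΛ : 2 ≤ Λ) (a : ℕ → Fin (m + 1) → ℝ) (r : ℕ) (i : Fin m) :
    gap (a r) i - Real.log Λ ≤ (shf Λ a r i : ℝ) * Real.log Λ := by
  have h := Int.lt_floor_add_one (gap (a r) i / Real.log Λ)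
  rw [div_lt_iff₀ (log_pos_of hΛ)] at h
  unfold shf
  linarith

theorem pf_le {Λ : ℕ} (hΛ : 2 ≤ Λ) (η : ℝ) (t : ℕ → ℝ) (r : ℕ) :
    (pf Λ η t r : ℝ) * Real.log Λ ≤ η * t r / 8 := by
  rw [← le_div_iff₀ (log_pos_of hΛ), div_div]
  exact Int.floor_le _

theorem le_pf {Λ : ℕ} (hΛ : 2 ≤ Λ) (η : ℝ) (t : ℕ → ℝ) (r : ℕ) :
    η * t r / 8 - Real.log Λ ≤ (pf Λ η t r : ℝ) * Real.log Λ := by
  have h := Int.lt_floor_add_one (η * t r / (8 * Real.log Λ))
  rw [← div_div, div_lt_iff₀ (log_pos_of hΛ), div_div] at h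
  unfold pf
  linarith

theorem four_pf_le {m : ℕ} {Λ : ℕ} (hΛ : 2 ≤ Λ) {η : ℝ} {t : ℕ → ℝ} {a : ℕ → Fin (m + 1) → ℝ}
    {r : ℕ} {i : Fin m} (h : η / 2 * t r ≤ gap (a r) i) : 4 * pf Λ η t r ≤ shf Λ a r i := by
  unfold shf
  rw [Int.le_floor, le_div_iff₀ (log_pos_of hΛ)]
  push_cast
  have h1 := pf_le hΛ η t r
  linarith

theorem tendsto_pf {Λ : ℕ} (hΛ : 2 ≤ Λ) {η : ℝ} (hη : 0 < η) {t : ℕ → ℝ}
    (ht : Tendsto t atTop atTop) : Tendsto (pf Λ η t) atTop atTop := by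
  have hL := log_pos_of hΛ
  have h1 : Tendsto (fun r => η * t r / (8 * Real.log Λ)) atTop atTop := by
    have h2 : (fun r => η * t r / (8 * Real.log Λ)) = fun r => (η / (8 * Real.log Λ)) * t r := by
      funext r
      ring
    rw [h2]
    exact ht.const_mul_atTop (by positivity)
  exact tendsto_floor_atTop.comp h1

/-- the data of one system -/
structure GDat (m : ℕ) (η CC C0 Cc : ℝ) (t : ℕ → ℝ) (a : ℕ → Fin (m + 1) → ℝ)
    (E : ℕ → Finset (SLn (m + 1))) (x0 : ℕ → SLn (m + 1)) (av : SLn (m + 1) → Fin (m + 1) → ℝ)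
    (K K' : SLn (m + 1) → SLr (m + 1)) (Xf : SLn (m + 1) → SLn (m + 1))
    (σ : SLn (m + 1) → SLn (m + 1)) (v : SLn (m + 1) → Fin m → ℝ)
    (l n : SLn (m + 1) → SLr (m + 1)) : Prop where
  ht : Tendsto t atTop atTop
  a0 : ∀ r, |a r 0 - m * t r| ≤ CC * η * t r
  ai : ∀ r (i : Fin m), |a r i.succ + t r| ≤ CC * η * t r
  agap : ∀ r (i : Fin m), η / 2 * t r ≤ gap (a r) i
  hK : ∀ x, Orth (K x)
  hK' : ∀ x, Orth (K' x)
  avsum : ∀ x, ∑ i, av x i = 0
  avanti : ∀ x, Antitone (av x)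
  fac : ∀ x, iz (m + 1) (Xf x) = K x * ex (av x) * K' x
  near : ∀ r, ∀ x ∈ E r, ∀ i, |av x i - a r i| ≤ 1
  card : ∀ r, Real.exp ((m * (m + 1) - 1 - Cc * η) * t r) ≤ (E r).card
  chart : ∀ x, Chart C0 (K x) (σ x) (v x) (l x) (n x)
  cls : ∀ r, ∀ x ∈ E r, σ x = σ (x0 r)
  inj : Function.Injective Xf

/-- multiplicity -/
theorem gdat_mult {m Λ : ℕ} (hm : 2 ≤ m) (hΛ : 2 ≤ Λ) {CC C0 : ℝ} (hCC : 1 ≤ CC) (hC0 : 1 ≤ C0) :
    ∃ Kc : ℝ, ∀ (η Cc : ℝ) (t : ℕ → ℝ) (a : ℕ → Fin (m + 1) → ℝ) (E : ℕ → Finset (SLn (m + 1)))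
      (x0 : ℕ → SLn (m + 1)) (av : SLn (m + 1) → Fin (m + 1) → ℝ)
      (K K' : SLn (m + 1) → SLr (m + 1)) (Xf : SLn (m + 1) → SLn (m + 1))
      (σ : SLn (m + 1) → SLn (m + 1)) (v : SLn (m + 1) → Fin m → ℝ)
      (l n : SLn (m + 1) → SLr (m + 1)),
      GDat m η CC C0 Cc t a E x0 av K K' Xf σ v l n → 0 < η → (∀ r, Kc ≤ η * t r) →
      ∀ r, ∀ S : Finset (SLn (m + 1)), S ⊆ E r → ∀ x ∈ S,
        (∀ x' ∈ S, ∀ i : Fin m, (i : ℕ) = 0 →
          ∀ j, |pv (l (x0 r)) (v x') j - pv (l (x0 r)) (v x) j| *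
            (Λ : ℝ) ^ (shf Λ a r i - pf Λ η t r) ≤ 1) →
        (S.card : ℝ) ≤ Real.exp ((m + 1) ^ 2 * (4 * CC + 5) * η * t r) := by
  obtain ⟨Cm, hCm, hmult⟩ := mult_entries (m := m) hC0
  have hL := log_pos_of hΛ
  refine ⟨1 + (2 + Real.log Λ + m * C0) + 3 * Cm, ?_⟩
  intro η Cc t a E x0 av K K' Xf σ v l n G hη hKc r S hS x hx hh
  have hm0 : (0 : ℝ) < m := by
    have : 0 < m := by omega
    exact_mod_cast this
  have hKr := hKc r
  have hmC : 0 < m * C0 := by positivity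
  set T : ℝ := η * t r with hT
  have hT1 : 1 ≤ T := by linarith
  have hT2 : 2 + Real.log Λ + m * C0 ≤ T := by linarith
  have hT3 : 3 * Cm ≤ T := by linarith
  have ht0 : 0 < t r := by
    by_contra hcon
    push Not at hcon
    have := mul_nonpos_of_nonneg_of_nonpos hη.le hcon
    linarith
  have hCCT : CC * η * t r = CC * T := by rw [hT]; ring
  have hCT1 : T ≤ CC * T := le_mul_of_one_le_left (by linarith) hCC
  set i0 : Fin m := ⟨0, by omega⟩ with hi0
  set sp : ℝ := ((shf Λ a r i0 - pf Λ η t r : ℤ) : ℝ) * Real.log Λ with hsp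
  have hΛ0 : (0 : ℝ) < Λ := by
    have : 0 < Λ := by omega
    exact_mod_cast this
  have hpow : (Λ : ℝ) ^ (shf Λ a r i0 - pf Λ η t r) = Real.exp sp := by
    rw [hsp, ← Real.rpow_intCast, Real.rpow_def_of_pos hΛ0, mul_comm]
  have hgap : gap (a r) i0 = a r 0 - a r i0.succ := by
    unfold gap
    congr 1
  have ha0 := abs_le.1 (G.a0 r)
  have hai := fun i => abs_le.1 (G.ai r i)
  rw [hCCT] at ha0
  simp only [hCCT] at hai
  have hsp1 : (m + 1) * t r - 2 * (CC * T) - Real.log Λ - T / 8 ≤ sp := by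
    have h1 := le_shf hΛ a r i0
    have h2 := pf_le hΛ η t r
    rw [hgap] at h1
    rw [hsp]
    push_cast
    have h3 := hai i0
    rw [← hT] at h2
    linarith [ha0.1, h3.2]
  set e1 : ℝ := Real.exp (-sp) with he1
  have hε : ∀ x' ∈ S, ∀ j, |v x' j - v x j| ≤ m * C0 * e1 := by
    intro x' hx' j
    refine pv_sub_le (G.chart (x0 r)).low (by linarith) (G.chart (x0 r)).bl (v x) (v x') ?_ j
    intro j
    have h1 := hh x' hx' i0 rfl j
    rw [hpow] at h1
    rw [he1, Real.exp_neg]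
    rw [← one_div, le_div_iff₀ (Real.exp_pos _)]
    exact h1
  have hxE := hS hx
  have hnx := fun i => abs_le.1 (G.near r x hxE i)
  have hCTpos : 0 < CC * T := by linarith
  set D : ℝ := (4 * CC + 4) * T with hD
  have hD0 : 0 ≤ D := by
    rw [hD]
    have : 0 ≤ 4 * CC + 4 := by linarith
    positivity
  have hDeq : D = 4 * (CC * T) + 4 * T := by rw [hD]; ring
  have key : ∀ x' ∈ S, ∀ i j, |(((K x * ex (av x) * K' x)⁻¹ * (K x' * ex (av x') * K' x') :
      SLr (m + 1)) : Mr (m + 1)) i j| ≤ Cm * Real.exp D := by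
    intro x' hx'
    have hxE' := hS hx'
    have hnx' := fun i => abs_le.1 (G.near r x' hxE' i)
    have hch := G.chart x
    have hch' := G.chart x'
    rw [G.cls r x hxE] at hch
    rw [G.cls r x' hxE'] at hch'
    refine hmult (K x) (K' x) (K x') (K' x') (σ (x0 r)) (v x) (v x') (l x) (n x) (l x') (n x')
      (av x) (av x') D (m * C0 * e1) (G.hK x) (G.hK' x) (G.hK x') (G.hK' x') (G.avsum x)
      (G.avsum x') hch hch' hD0 (by positivity) (hε x' hx') ?_ ?_
    · rintro i j (⟨hi, hj⟩ | hi)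
      · obtain ⟨i, rfl⟩ := Fin.exists_succ_eq.2 hi
        obtain ⟨j, rfl⟩ := Fin.exists_succ_eq.2 hj
        have h1 := hai i
        have h2 := hai j
        have h3 := hnx i.succ
        have h4 := hnx' j.succ
        rw [hDeq]
        linarith [h1.1, h2.2, h3.1, h4.2]
      · subst hi
        have h1 := G.avanti x' (Fin.zero_le j)
        have h3 := hnx 0
        have h4 := hnx' 0
        rw [hDeq]
        linarith [h3.1, h4.2]
    · intro i
      have h1 : av x' 0 - av x i ≤ (m + 1) * t r + 2 * (CC * T) + 2 := by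
        rcases Fin.eq_zero_or_eq_succ i with hi | ⟨i, rfl⟩
        · subst hi
          have h3 := hnx 0
          have h4 := hnx' 0
          have h5 : 0 ≤ (m + 1) * t r := by positivity
          linarith [h3.1, h4.2]
        · have h2 := hai i
          have h3 := hnx i.succ
          have h4 := hnx' 0
          linarith [h2.1, h3.1, h4.2, ha0.2]
      have h2 : m * C0 = Real.exp (Real.log (m * C0)) := (Real.exp_log hmC).symm
      have h3 : Real.log (m * C0) ≤ m * C0 := (Real.log_le_sub_one_of_pos hmC).trans (by linarith)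
      rw [h2, he1, ← Real.exp_add, ← Real.exp_add]
      apply Real.exp_le_exp.2
      rw [hDeq]
      linarith
  have hinj : Function.Injective fun x' => (Xf x)⁻¹ * Xf x' := by
    intro y z hyz
    exact G.inj (mul_left_cancel hyz)
  have hcard : (S.image fun x' => (Xf x)⁻¹ * Xf x').card = S.card :=
    Finset.card_image_of_injective S hinj
  have hB : 1 ≤ Cm * Real.exp D := by
    have h1 : 1 ≤ Real.exp D := Real.one_le_exp hD0
    nlinarith
  have hle := card_entries_le (S.image fun x' => (Xf x)⁻¹ * Xf x') hB (by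
    intro y hy i j
    obtain ⟨x', hx', rfl⟩ := Finset.mem_image.1 hy
    have h1 := key x' hx' i j
    rw [← G.fac x, ← G.fac x', ← map_inv, ← map_mul] at h1
    exact h1)
  rw [hcard] at hle
  refine hle.trans ?_
  have h1 : 3 * (Cm * Real.exp D) ≤ Real.exp (T + D) := by
    rw [Real.exp_add, ← mul_assoc]
    refine mul_le_mul_of_nonneg_right ?_ (Real.exp_pos _).le
    have := Real.add_one_le_exp T
    linarith
  have h2 : 0 ≤ 3 * (Cm * Real.exp D) := by positivity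
  refine (pow_le_pow_left₀ h2 h1 _).trans ?_
  rw [← Real.exp_nat_mul]
  apply Real.exp_le_exp.2
  rw [hDeq, hT]
  push_cast
  apply le_of_eq
  ring

/-- the forward system of a class of charts -/
theorem gdat_fsys {m Λ : ℕ} (hm : 2 ≤ m) (hΛ : 2 ≤ Λ) {CC C0 Cc : ℝ} (hCC : 1 ≤ CC)
    (hC0 : 1 ≤ C0) : ∃ C2 : ℝ, 1 ≤ C2 ∧ ∀ C3 : ℝ, C2 ≤ C3 →
    ∃ Kc : ℝ, ∀ (η : ℝ) (t : ℕ → ℝ) (a : ℕ → Fin (m + 1) → ℝ) (E : ℕ → Finset (SLn (m + 1)))
      (x0 : ℕ → SLn (m + 1)) (av : SLn (m + 1) → Fin (m + 1) → ℝ)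
      (K K' : SLn (m + 1) → SLr (m + 1)) (Xf : SLn (m + 1) → SLn (m + 1))
      (σ : SLn (m + 1) → SLn (m + 1)) (v : SLn (m + 1) → Fin m → ℝ)
      (l n : SLn (m + 1) → SLr (m + 1)),
      GDat m η CC C0 Cc t a E x0 av K K' Xf σ v l n → 0 < η → (∀ r, Kc ≤ η * t r) →
      FSys m Λ η C3 t (shf Λ a) (pf Λ η t) E (fun r x => pv (l (x0 r)) (v x))
        (fun r => pt (l (x0 r))⁻¹) := by
  obtain ⟨Km, hKm⟩ := gdat_mult (Λ := Λ) hm hΛ hCC hC0
  have hL := log_pos_of hΛ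
  refine ⟨(m + 1) ^ 2 * (4 * CC + 5) + |Cc|, ?_, ?_⟩
  · have h1 : (1 : ℝ) ≤ (m + 1) ^ 2 := by
      have : (0 : ℝ) ≤ m := Nat.cast_nonneg _
      nlinarith
    have h2 := abs_nonneg Cc
    nlinarith
  intro C3 hC3
  have hm1 : (1 : ℝ) ≤ (m + 1) ^ 2 := by
    have : (0 : ℝ) ≤ m := Nat.cast_nonneg _
    nlinarith
  have hA : 4 * CC + 5 ≤ (m + 1) ^ 2 * (4 * CC + 5) := by nlinarith
  have hA0 : 0 ≤ (m + 1) ^ 2 * (4 * CC + 5) := by linarith
  have hCa := abs_nonneg Cc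
  have hCb := le_abs_self Cc
  refine ⟨|Km| + 1 + Real.log Λ + (((m + 1) * C0) ^ bet (m + 1) * alf (pt 1 : X (m + 1))) +
    m * C0 * C0, ?_⟩
  intro η t a E x0 av K K' Xf σ v l n G hη hKc
  have hm0 : (0 : ℝ) < m := by
    have : 0 < m := by omega
    exact_mod_cast this
  have half1 : 0 < ((m + 1) * C0) ^ bet (m + 1) * alf (pt 1 : X (m + 1)) := by
    have := alf_pos (Nat.succ_pos m) (pt 1 : X (m + 1))
    positivity
  have hmCC : 0 < m * C0 * C0 := by positivity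
  have hT1 : ∀ r, 1 ≤ η * t r := by
    intro r
    have := hKc r
    linarith [abs_nonneg Km]
  have hTL : ∀ r, Real.log Λ ≤ η * t r := by
    intro r
    have := hKc r
    linarith [abs_nonneg Km]
  have hTK : ∀ r, Km ≤ η * t r := by
    intro r
    have := hKc r
    linarith [le_abs_self Km]
  have ht0 : ∀ r, 0 < t r := by
    intro r
    by_contra hcon
    push Not at hcon
    have := mul_nonpos_of_nonneg_of_nonpos hη.le hcon
    linarith [hT1 r]
  have hexp : ∀ r, ∀ c, c ≤ C3 → c * η * t r ≤ C3 * η * t r := by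
    intro r c hc
    rw [mul_assoc, mul_assoc]
    exact mul_le_mul_of_nonneg_right hc (by linarith [hT1 r])
  have hC31 : 1 ≤ C3 := by linarith
  have hCCη : ∀ r, CC * η * t r = CC * (η * t r) := fun r => by ring
  refine ⟨G.ht, tendsto_pf hΛ hη G.ht, fun r i => four_pf_le hΛ (G.agap r i), ?_, ?_, ?_, ?_, ?_,
    ?_, ?_⟩
  · intro r
    have h1 := pf_le hΛ η t r
    have h2 := hT1 r
    linarith
  · intro r i hi
    have h1 := shf_le hΛ a r i
    have h2 := le_shf hΛ a r i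
    have h3 : gap (a r) i = a r 0 - a r i.succ := by
      unfold gap
      congr 2
      exact Fin.ext hi
    have h4 := abs_le.1 (G.a0 r)
    have h5 := abs_le.1 (G.ai r i)
    rw [hCCη] at h4 h5
    have h6 := hexp r (2 * CC + 1) (by nlinarith)
    have h7 := hTL r
    rw [h3] at h1 h2
    rw [abs_le]
    constructor <;> nlinarith [h4.1, h4.2, h5.1, h5.2]
  · intro r i hi
    have h1 := shf_le hΛ a r i
    obtain ⟨j, hj⟩ : ∃ j : Fin m, i.castSucc = j.succ := by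
      refine ⟨⟨(i : ℕ) - 1, by have := i.2; omega⟩, ?_⟩
      apply Fin.ext
      simp only [Fin.val_castSucc, Fin.val_succ]
      omega
    have h3 : gap (a r) i = a r j.succ - a r i.succ := by
      unfold gap
      rw [hj]
    have h4 := abs_le.1 (G.ai r j)
    have h5 := abs_le.1 (G.ai r i)
    have h6 := hexp r (2 * CC) (by linarith)
    rw [h3] at h1
    nlinarith [h4.2, h5.1]
  · intro r
    have h1 : ∀ w : Fin (m + 1) → ℝ,
        ‖w‖ ≤ ((m + 1) * C0) * ‖(((l (x0 r))⁻¹ : SLr (m + 1)) : Mr (m + 1)) *ᵥ w‖ := by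
      intro w
      set u := (((l (x0 r))⁻¹ : SLr (m + 1)) : Mr (m + 1)) *ᵥ w with hu
      have h2 : w = (l (x0 r) : Mr (m + 1)) *ᵥ u := by
        rw [hu, Matrix.mulVec_mulVec, ← Matrix.SpecialLinearGroup.coe_mul, mul_inv_cancel,
          Matrix.SpecialLinearGroup.coe_one, Matrix.one_mulVec]
      have h3 : 0 ≤ (m + 1) * C0 * ‖u‖ := by positivity
      rw [pi_norm_le_iff_of_nonneg h3]
      intro i
      rw [Real.norm_eq_abs, h2, Matrix.mulVec, dotProduct]
      calc |∑ j, (l (x0 r) : Mr (m + 1)) i j * u j|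
          ≤ ∑ j, |(l (x0 r) : Mr (m + 1)) i j * u j| := Finset.abs_sum_le_sum_abs _ _
        _ ≤ ∑ _j : Fin (m + 1), C0 * ‖u‖ := by
            refine Finset.sum_le_sum fun j _ => ?_
            rw [abs_mul]
            exact mul_le_mul ((G.chart (x0 r)).bl i j) (norm_le_pi_norm u j) (abs_nonneg _)
              (by linarith)
        _ = (m + 1) * C0 * ‖u‖ := by
            rw [Finset.sum_const, Finset.card_univ, Fintype.card_fin, nsmul_eq_mul]
            push_cast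
            ring
    have h2 := A5.alf_smul_le (Nat.succ_pos m) (pt 1 : X (m + 1)) (l (x0 r))⁻¹
      (by positivity : 0 < (m + 1) * C0) h1
    rw [smul_pt, mul_one] at h2
    refine h2.trans ?_
    have h3 := hKc r
    have h4 := Real.add_one_le_exp (η * t r)
    have h5 := Real.exp_le_exp.2 (hexp r 1 hC31)
    rw [one_mul] at h5
    linarith [abs_nonneg Km]
  · intro r x hx j
    have h1 : |pv (l (x0 r)) (v x) j| ≤ m * C0 * C0 := by
      unfold pv
      calc |∑ i, (((l (x0 r))⁻¹ : SLr (m + 1)) : Mr (m + 1)) j.succ i.succ * v x i|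
          ≤ ∑ i, |(((l (x0 r))⁻¹ : SLr (m + 1)) : Mr (m + 1)) j.succ i.succ * v x i| :=
            Finset.abs_sum_le_sum_abs _ _
        _ ≤ ∑ _i : Fin m, C0 * C0 := by
            refine Finset.sum_le_sum fun i _ => ?_
            rw [abs_mul]
            exact mul_le_mul ((G.chart (x0 r)).bl' _ _) ((G.chart x).bv i) (abs_nonneg _)
              (by linarith)
        _ = m * C0 * C0 := by
            rw [Finset.sum_const, Finset.card_univ, Fintype.card_fin, nsmul_eq_mul]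
            ring
    refine h1.trans ?_
    have h3 := hKc r
    have h4 := Real.add_one_le_exp (η * t r)
    have h5 := Real.exp_le_exp.2 (hexp r 1 hC31)
    rw [one_mul] at h5
    linarith [abs_nonneg Km]
  · intro r
    refine le_trans ?_ (G.card r)
    apply Real.exp_le_exp.2
    have h1 : Cc * η ≤ C3 * η := mul_le_mul_of_nonneg_right (by linarith) hη.le
    exact mul_le_mul_of_nonneg_right (by linarith) (ht0 r).le
  · intro r S hS x hx hh
    refine (hKm η Cc t a E x0 av K K' Xf σ v l n G hη hTK r S hS x hx hh).trans ?_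
    exact Real.exp_le_exp.2 (hexp r _ (by linarith))

end Pool.Agent.Lib.MP_41a456_al.TC
end

section

/-!
# MP_41a456_al, Theorem TC, G6: two forward systems from a trap (paper 521, section 7)

Paper 521, section 7, `n = m + 1`.
Drop finitely many `r` (reindex `r ↦ r + r1`) such that `t r` is large. `C_0` from `exists_chart`, charts of `k x` and
of `kk x = (k' x)⁻¹` (which is orthogonal, `= (k' x)ᵀ`). `C'` large (depending on `m, C, Λ`), `pigeon`: `E' r`, `x0`;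
`l0, l0#` = the `l`, `l'` of `x0`; `v r x = pv l0 (v x)`, `y0 r = pt l0⁻¹`, in the same way `v' , y0'`.
`sh r i = ⌊gap (a r) i / log Λ⌋`, `p r = ⌊η t / (8 log Λ)⌋`. `side`: `gap ≥ η t / 2`. `c r i` = the exponent with sum 0
of the diagonal of `n x0` (`log n_ii`, sum 0 because `det n = 1`), up to sign; for `s ∈ BB`:
`Λ^{∑_{i≥1} s_i} ≤ exp (a_1 - a_m + …) ≤ exp (C3 η t)` and `|l⁻¹ l0 - 1| ≤ C3 exp (-C' η t)`, so `theta_close` applies:
`((bb s)⁻¹ * (k x)⁻¹) • pt 1 = (g * ex (-c)) • yh`. Trap: `b = log` of `bb s` has gaps `s_i log Λ ≥ p log Λ ≥ R0`, and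
`gap (av x - b) ≥ gap (a r) - 2 - (sh_i - p) log Λ ≥ p log Λ - 2 ≥ R0` for large `r`. Second relation: `th_point` with
`((bb s)⁻¹ * k') • pt 1 = (g# * ex (-c#)) • yh#`: `th (yh#) = theta ((g# ex (-c#))⁻¹) • th (…)`,
`(ex a)⁻¹ bb sh = ex (-e)` with `e = a - log bb(sh)` bounded (gaps in `[-2, log Λ + 2]`), constant up to `1/t` on `E' r`,
commute diagonal elements and use that products of elements close to `1` conjugated by bounded elements are close to `1`.
`mult`: for `x, x' ∈ S ⊆ E' r` `mult_entries` with `ε = m C_0 Λ^{-(sh_0 - p)}`, `D = C3 η t`, then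
`card_entries_le` for the set of the `x⁻¹ x'`; for the second system the elements `xᵀ`, `x'ᵀ` (`trz`,
`(x' x⁻¹)ᵀ`), `k := (k' x)⁻¹`, `k' := (k x)⁻¹`.
-/

namespace Pool.Agent.Lib.MP_41a456_al.TC

open Matrix MeasureTheory Filter Topology Pool.Agent.Lib.MP_41a456_al

theorem BB_mem {m : ℕ} {sh : Fin m → ℤ} {p : ℤ} {s : Fin m → ℤ} :
    s ∈ BB sh p ↔ ∀ i, p ≤ s i ∧ s i ≤ sh i - p := by
  unfold BB
  simp only [Fintype.mem_piFinset, Finset.mem_Icc]

theorem BB_flip {m : ℕ} {sh : Fin m → ℤ} {p : ℤ} {s : Fin m → ℤ} (h : s ∈ BB sh p) :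
    (fun i => sh i - s i) ∈ BB sh p := by
  rw [BB_mem] at h ⊢
  intro i
  have := h i
  constructor <;> omega

theorem gdat_shi {m Λ : ℕ} (hΛ : 2 ≤ Λ) {η CC C0 Cc : ℝ} {t : ℕ → ℝ} {a : ℕ → Fin (m + 1) → ℝ}
    {E : ℕ → Finset (SLn (m + 1))} {x0 : ℕ → SLn (m + 1)} {av : SLn (m + 1) → Fin (m + 1) → ℝ}
    {K K' : SLn (m + 1) → SLr (m + 1)} {Xf : SLn (m + 1) → SLn (m + 1)}
    {σ : SLn (m + 1) → SLn (m + 1)} {v : SLn (m + 1) → Fin m → ℝ}
    {l n : SLn (m + 1) → SLr (m + 1)} (G : GDat m η CC C0 Cc t a E x0 av K K' Xf σ v l n)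
    (r : ℕ) (i : Fin m) (hi : (i : ℕ) ≠ 0) :
    (shf Λ a r i : ℝ) * Real.log Λ ≤ 2 * (CC * η * t r) := by
  have h1 := shf_le hΛ a r i
  obtain ⟨j, hj⟩ : ∃ j : Fin m, i.castSucc = j.succ := by
    refine ⟨⟨(i : ℕ) - 1, by have := i.2; omega⟩, ?_⟩
    apply Fin.ext
    simp only [Fin.val_castSucc, Fin.val_succ]
    omega
  have h3 : gap (a r) i = a r j.succ - a r i.succ := by
    unfold gap
    rw [hj]
  have h4 := abs_le.1 (G.ai r j)
  have h5 := abs_le.1 (G.ai r i)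
  rw [h3] at h1
  linarith [h4.2, h5.1]

/-- the elements `b⁻¹ n⁻¹ l⁻¹ l0 b` are close to diagonal ones -/
theorem gdat_close {m Λ : ℕ} (hΛ : 2 ≤ Λ) {CC C0 : ℝ} (hCC : 1 ≤ CC) (hC0 : 1 ≤ C0)
    {V : Set (SLr (m + 1))} (hV : V ∈ 𝓝 (1 : SLr (m + 1))) :
    ∃ Kc : ℝ, ∀ (η Cc : ℝ) (t : ℕ → ℝ) (a : ℕ → Fin (m + 1) → ℝ) (E : ℕ → Finset (SLn (m + 1)))
      (x0 : ℕ → SLn (m + 1)) (av : SLn (m + 1) → Fin (m + 1) → ℝ)
      (K K' : SLn (m + 1) → SLr (m + 1)) (Xf : SLn (m + 1) → SLn (m + 1))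
      (σ : SLn (m + 1) → SLn (m + 1)) (v : SLn (m + 1) → Fin m → ℝ)
      (l n : SLn (m + 1) → SLr (m + 1)),
      GDat m η CC C0 Cc t a E x0 av K K' Xf σ v l n → 0 < η → η ≤ 1 → ∀ r, Kc ≤ η * t r →
      ∀ x, (∀ i j, |(l x : Mr (m + 1)) i j - (l (x0 r) : Mr (m + 1)) i j| ≤
          Real.exp (-((2 * CC * m + 1) * η * t r))) →
        (∀ i, |Real.log ((n x : Mr (m + 1)) i i) - Real.log ((n (x0 r) : Mr (m + 1)) i i)| ≤
          1 / t r) →
        ∀ s ∈ BB (shf Λ a r) (pf Λ η t r),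
          (bb Λ s)⁻¹ * (n x)⁻¹ * (l x)⁻¹ * l (x0 r) * bb Λ s *
            ex (fun i => Real.log ((n (x0 r) : Mr (m + 1)) i i)) ∈ V := by
  obtain ⟨p0, δ, hδ, H⟩ := theta_close hΛ C0 hV
  have hL := log_pos_of hΛ
  refine ⟨1 + 8 * (Real.log Λ * (|(p0 : ℝ)| + 1)) + (m + 1) * C0 / δ + 1 / δ, ?_⟩
  intro η Cc t a E x0 av K K' Xf σ v l n G hη hη1 r hr x hl hn s hs
  have hd1 : 0 < (m + 1) * C0 / δ := by positivity
  have hd2 : 0 < 1 / δ := by positivity
  have hd3 : 0 ≤ 8 * (Real.log Λ * (|(p0 : ℝ)| + 1)) := by positivity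
  set T : ℝ := η * t r with hT
  have hT1 : 1 ≤ T := by linarith
  have ht0 : 0 < t r := by
    by_contra hcon
    push Not at hcon
    have := mul_nonpos_of_nonneg_of_nonpos hη.le hcon
    linarith
  have htT : T ≤ t r := mul_le_of_le_one_left ht0.le hη1
  have hp : |(p0 : ℝ)| ≤ pf Λ η t r := by
    have h1 := le_pf hΛ η t r
    rw [← hT] at h1
    have h2 : Real.log Λ * |(p0 : ℝ)| ≤ (pf Λ η t r : ℝ) * Real.log Λ := by linarith
    rw [mul_comm] at h2
    exact le_of_mul_le_mul_right h2 hL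
  have hp0 : p0 ≤ pf Λ η t r := by
    have := (le_abs_self (p0 : ℝ)).trans hp
    exact_mod_cast this
  have hpp : 0 ≤ pf Λ η t r := by
    have := (abs_nonneg (p0 : ℝ)).trans hp
    exact_mod_cast this
  rw [BB_mem] at hs
  have hch := G.chart x
  have hch0 := G.chart (x0 r)
  refine H s (n x) (l x) (l (x0 r)) _ (fun i => hp0.trans (hs i).1) hch.upp hch.bn'
    (fun i => hch0.log_n hC0 i) (hch0.sum_log hC0) (fun i => (hn i).trans ?_) (hch.n_pos hC0)
    hch.low hch0.low ?_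
  · rw [div_le_iff₀ ht0]
    have h1 : 1 / δ ≤ t r := by linarith
    rw [div_le_iff₀ hδ] at h1
    linarith
  · intro i j
    have h1 := low_quot hch.bl' hl i j
    set Q : ℤ := ∑ i ∈ Finset.univ.filter (fun i : Fin m => (i : ℕ) ≠ 0), s i with hQ
    have hΛ0 : (0 : ℝ) < Λ := by
      have : 0 < Λ := by omega
      exact_mod_cast this
    have h2 : (Λ : ℝ) ^ Q = Real.exp ((Q : ℝ) * Real.log Λ) := by
      rw [← Real.rpow_intCast, Real.rpow_def_of_pos hΛ0, mul_comm]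
    have h3 : (Q : ℝ) * Real.log Λ ≤ 2 * CC * m * T := by
      rw [hQ]
      push_cast
      rw [Finset.sum_mul]
      calc ∑ i ∈ Finset.univ.filter (fun i : Fin m => (i : ℕ) ≠ 0), (s i : ℝ) * Real.log Λ
          ≤ ∑ _i ∈ Finset.univ.filter (fun i : Fin m => (i : ℕ) ≠ 0), 2 * CC * T := by
            refine Finset.sum_le_sum fun i hi => ?_
            have h4 := gdat_shi hΛ G r i (Finset.mem_filter.1 hi).2
            have h5 : (s i : ℝ) ≤ shf Λ a r i := by
              have := (hs i).2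
              have h6 : s i ≤ shf Λ a r i := by omega
              exact_mod_cast h6
            have h6 := mul_le_mul_of_nonneg_right h5 hL.le
            rw [hT]
            linarith
        _ ≤ ∑ _i : Fin m, 2 * CC * T := by
            refine Finset.sum_le_sum_of_subset_of_nonneg (Finset.filter_subset _ _) ?_
            intro _ _ _
            positivity
        _ = 2 * CC * m * T := by
            rw [Finset.sum_const, Finset.card_univ, Fintype.card_fin, nsmul_eq_mul]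
            ring
    rw [h2]
    calc |((((l x)⁻¹ * l (x0 r) : SLr (m + 1))) : Mr (m + 1)) i j - (1 : Mr (m + 1)) i j| *
          Real.exp ((Q : ℝ) * Real.log Λ)
        ≤ ((m + 1) * C0 * Real.exp (-((2 * CC * m + 1) * η * t r))) *
          Real.exp (2 * CC * m * T) :=
          mul_le_mul h1 (Real.exp_le_exp.2 h3) (Real.exp_pos _).le (by positivity)
      _ = (m + 1) * C0 * Real.exp (-T) := by
          rw [mul_assoc _ (Real.exp _), ← Real.exp_add]
          congr 2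
          rw [hT]
          ring
      _ ≤ δ := by
          rw [Real.exp_neg, ← div_eq_mul_inv, div_le_iff₀ (Real.exp_pos _)]
          have h4 : (m + 1) * C0 / δ ≤ Real.exp T := by
            have := Real.add_one_le_exp T
            linarith
          rw [div_le_iff₀ hδ] at h4
          linarith

theorem ex_bdd {m Λ : ℕ} (hΛ : 2 ≤ Λ) {a : ℕ → Fin (m + 1) → ℝ} {r : ℕ} {w : Fin (m + 1) → ℝ}
    (hw : ∑ i, w i = 0) (hn : ∀ i, |w i - a r i| ≤ 1) (i : Fin (m + 1)) :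
    |w i - bz Λ (shf Λ a r) i| ≤ m * (Real.log Λ + 2) := by
  have hL := log_pos_of hΛ
  have h1 := bdd_of_gap (e := w - bz Λ (shf Λ a r)) (B := Real.log Λ + 2) (by
    simp only [Pi.sub_apply, Finset.sum_sub_distrib, hw, bz_sum, sub_zero]) (by linarith) (by
    intro i
    rw [gap_sub, gap_bz]
    have h1 := shf_le hΛ a r i
    have h2 := le_shf hΛ a r i
    have h3 := abs_le.1 (hn i.castSucc)
    have h4 := abs_le.1 (hn i.succ)
    unfold gap at h1 h2 ⊢
    rw [abs_le]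
    constructor <;> linarith [h3.1, h3.2, h4.1, h4.2]) i
  exact h1

/-- the group identity of the second relation -/
theorem six_ident {n : ℕ} (gs g : SLr n) (cs e e0 c : Fin n → ℝ) :
    (theta n (gs * ex (-cs)))⁻¹ * ex (-e) * (g * ex (-c)) =
      ((ex (-cs) * (theta n gs)⁻¹ * ex cs) * (ex (-(cs + e)) * g * ex (cs + e)) * ex (e0 - e)) *
        ex (-cs - e0 - c) := by
  have h1 : (theta n (gs * ex (-cs)))⁻¹ = ex (-cs) * (theta n gs)⁻¹ := by
    rw [map_mul, theta_ex, _root_.mul_inv_rev, inv_inv]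
  have h2 : ex cs * ex (-(cs + e)) = ex (-e) := by
    rw [← ex_add]
    congr 1
    abel
  have h3 : ex (cs + e) * ex (e0 - e) * ex (-cs - e0 - c) = ex (-c) := by
    rw [← ex_add, ← ex_add]
    congr 1
    abel
  rw [h1, ← h2, ← h3]
  simp only [mul_assoc]

theorem exists_fsys {m : ℕ} (hm : 2 ≤ m) {Λ : ℕ} (hΛ : 2 ≤ Λ) (C : ℝ) : ∃ C2 : ℝ, 1 ≤ C2 ∧
    ∀ η : ℝ, 0 < η → η ≤ 1 → ∀ (R0 : ℝ) (t : ℕ → ℝ) (a : ℕ → Fin (m + 1) → ℝ)
      (E : ℕ → Finset (SLn (m + 1))) (k k' : SLn (m + 1) → SLr (m + 1))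
      (av : SLn (m + 1) → Fin (m + 1) → ℝ) (O : Set (X (m + 1))),
      Trap m η C R0 t a E k k' av O →
    ∃ (t' : ℕ → ℝ) (sh : ℕ → Fin m → ℤ) (p : ℕ → ℤ) (E' : ℕ → Finset (SLn (m + 1)))
      (v v' : ℕ → SLn (m + 1) → Fin m → ℝ) (y0 y0' : ℕ → X (m + 1))
      (c d : ℕ → Fin (m + 1) → ℝ) (O' : Set (X (m + 1))),
      FSys m Λ η C2 t' sh p E' v y0 ∧ FSys m Λ η C2 t' sh p E' v' y0' ∧
      IsOpen O' ∧ O'.Nonempty ∧ (∀ r i, |c r i| ≤ C2) ∧ (∀ r i, |d r i| ≤ C2) ∧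
      (∀ V ∈ 𝓝 (1 : SLr (m + 1)), ∀ᶠ r in atTop, ∀ x ∈ E' r, ∀ s ∈ BB (sh r) (p r),
        ∃ g ∈ V, (g * ex (c r)) • yh Λ (v r x) (y0 r) s ∉ O') ∧
      ∀ V ∈ 𝓝 (1 : SLr (m + 1)), ∀ᶠ r in atTop, ∀ x ∈ E' r, ∀ s ∈ BB (sh r) (p r),
        ∃ g ∈ V, th (yh Λ (v' r x) (y0' r) s) =
          (g * ex (d r)) • yh Λ (v r x) (y0 r) (fun i => sh r i - s i) := by
  obtain ⟨C0, hC0, hch⟩ := exists_chart m
  obtain ⟨Cp, hCp, hpig⟩ := pigeon (m := m) hC0
  have hL := log_pos_of hΛ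
  set CC : ℝ := max C 1 with hCCdef
  have hCC : 1 ≤ CC := le_max_right _ _
  have hCCC : C ≤ CC := le_max_left _ _
  set C' : ℝ := 2 * CC * m + 1 with hC'
  have hC'1 : 1 ≤ C' := by
    have : 0 ≤ 2 * CC * m := by positivity
    linarith
  obtain ⟨C2a, hC2a, hF⟩ := gdat_fsys (Cc := 1 + Cp * C') hm hΛ hCC hC0
  set M : ℝ := m * (Real.log Λ + 2) with hM
  have hM0 : 0 ≤ M := by positivity
  obtain ⟨Kc, hKc⟩ := hF (C2a + (2 * C0 + M)) (by linarith)
  refine ⟨C2a + (2 * C0 + M), by linarith, ?_⟩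
  intro η hη hη1 R0 t a E k k' av O hT
  obtain ⟨t0, ht0⟩ := hpig C' η hC'1 hη
  obtain ⟨r1, hr1⟩ := eventually_atTop.1 (hT.ht.eventually_ge_atTop (max t0 (max 1 (Kc / η))))
  have hTs := hT.shift r1
  have hts1 : ∀ r, t0 ≤ t (r + r1) := fun r => (le_max_left _ _).trans (hr1 (r + r1) (by omega))
  have hts2 : ∀ r, 1 ≤ t (r + r1) := fun r =>
    ((le_max_left _ _).trans (le_max_right _ _)).trans (hr1 (r + r1) (by omega))
  have hts3 : ∀ r, Kc ≤ η * t (r + r1) := by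
    intro r
    have h1 := ((le_max_right 1 (Kc / η)).trans (le_max_right t0 _)).trans
      (hr1 (r + r1) (by omega))
    rw [div_le_iff₀ hη] at h1
    linarith
  choose σ v l n hchart using fun x => hch (k x) (hT.hk x)
  choose σ' v' l' n' hchart' using fun x => hch ((k' x)⁻¹) (orth_inv_of (hT.hk' x))
  have hEne : ∀ r, (E (r + r1)).Nonempty := by
    intro r
    rw [← Finset.card_pos]
    have h1 := hT.card (r + r1)
    have h2 := (Real.exp_pos ((m * (m + 1) - 1 - η) * t (r + r1))).trans_le h1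
    exact_mod_cast h2
  have pig := fun r => ht0 (t (r + r1)) (hts1 r) (E (r + r1)) (a (r + r1)) k
    (fun x => (k' x)⁻¹) av σ σ' v v' l n l' n' (hEne r) (hT.near (r + r1))
    (fun x _ => hchart x) (fun x _ => hchart' x)
  choose E' x0 hE'E hx0 hcard hcls using pig
  have hcard' : ∀ r, Real.exp ((m * (m + 1) - 1 - (1 + Cp * C') * η) * t (r + r1)) ≤
      (E' r).card := by
    intro r
    have h1 := (hT.card (r + r1)).trans (hcard r)
    have h2 : Real.exp ((m * (m + 1) - 1 - η) * t (r + r1)) =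
        Real.exp (Cp * C' * η * t (r + r1)) *
          Real.exp ((m * (m + 1) - 1 - (1 + Cp * C') * η) * t (r + r1)) := by
      rw [← Real.exp_add]
      congr 1
      ring
    rw [h2] at h1
    exact le_of_mul_le_mul_left h1 (Real.exp_pos _)
  have hmono : ∀ r, C * η * t (r + r1) ≤ CC * η * t (r + r1) := by
    intro r
    rw [mul_assoc, mul_assoc]
    refine mul_le_mul_of_nonneg_right hCCC ?_
    have := hts2 r
    positivity
  have G1 : GDat m η CC C0 (1 + Cp * C') (fun r => t (r + r1)) (fun r => a (r + r1)) E' x0 av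
      k k' id σ v l n :=
    { ht := hTs.ht
      a0 := fun r => (hTs.a0 r).trans (hmono r)
      ai := fun r i => (hTs.ai r i).trans (hmono r)
      agap := hTs.agap
      hK := hT.hk
      hK' := hT.hk'
      avsum := hT.avsum
      avanti := hT.avanti
      fac := hT.fac
      near := fun r x hx => hTs.near r x (hE'E r hx)
      card := hcard'
      chart := hchart
      cls := fun r x hx => (hcls r x hx).1
      inj := Function.injective_id }
  have G2 : GDat m η CC C0 (1 + Cp * C') (fun r => t (r + r1)) (fun r => a (r + r1)) E' x0 av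
      (fun x => (k' x)⁻¹) (fun x => (k x)⁻¹) trz σ' v' l' n' :=
    { ht := hTs.ht
      a0 := fun r => (hTs.a0 r).trans (hmono r)
      ai := fun r i => (hTs.ai r i).trans (hmono r)
      agap := hTs.agap
      hK := fun x => orth_inv_of (hT.hk' x)
      hK' := fun x => orth_inv_of (hT.hk x)
      avsum := hT.avsum
      avanti := hT.avanti
      fac := fun x => fac_trz (hT.hk x) (hT.hk' x) (hT.fac x)
      near := fun r x hx => hTs.near r x (hE'E r hx)
      card := hcard'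
      chart := hchart'
      cls := fun r x hx => (hcls r x hx).2.1
      inj := trz_injective }
  have hex : ∀ r, ∀ x ∈ E' r, ∀ i,
      |av x i - bz Λ (shf Λ (fun r => a (r + r1)) r) i| ≤ M := fun r x hx i =>
    ex_bdd (a := fun r => a (r + r1)) hΛ (hT.avsum x) (fun i => G1.near r x hx i) i
  refine ⟨fun r => t (r + r1), shf Λ fun r => a (r + r1), pf Λ η fun r => t (r + r1), E',
    fun r x => pv (l (x0 r)) (v x), fun r x => pv (l' (x0 r)) (v' x),
    fun r => pt (l (x0 r))⁻¹, fun r => pt (l' (x0 r))⁻¹,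
    fun r i => -Real.log ((n (x0 r) : Mr (m + 1)) i i),
    fun r i => -Real.log ((n' (x0 r) : Mr (m + 1)) i i) -
      (av (x0 r) i - bz Λ (shf Λ (fun r => a (r + r1)) r) i) -
      Real.log ((n (x0 r) : Mr (m + 1)) i i), O,
    hKc η _ _ E' x0 av k k' id σ v l n G1 hη hts3,
    hKc η _ _ E' x0 av _ _ trz σ' v' l' n' G2 hη hts3, hT.Oopen, hT.Onon, ?_, ?_, ?_, ?_⟩
  · intro r i
    rw [abs_neg]
    have := (hchart (x0 r)).log_n hC0 i
    linarith
  · intro r i
    have h1 := abs_le.1 ((hchart (x0 r)).log_n hC0 i)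
    have h2 := abs_le.1 ((hchart' (x0 r)).log_n hC0 i)
    have h3 := abs_le.1 (hex r (x0 r) (hx0 r) i)
    rw [abs_le]
    constructor <;> linarith [h1.1, h1.2, h2.1, h2.2, h3.1, h3.2]
  · intro V hV
    obtain ⟨K1, hK1⟩ := gdat_close (m := m) hΛ hCC hC0 hV
    have hev := hTs.ht.eventually_ge_atTop
      ((K1 + 0) / η + 0 + (|K1| + 8 * (|R0| + 2 + Real.log Λ)) / η)
    filter_upwards [hev] with r hr x hx s hs
    have hr2 : |K1| + 8 * (|R0| + 2 + Real.log Λ) + K1 ≤ η * t (r + r1) := by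
      have h1 : (K1 + 0) / η + 0 + (|K1| + 8 * (|R0| + 2 + Real.log Λ)) / η =
          (|K1| + 8 * (|R0| + 2 + Real.log Λ) + K1) / η := by ring
      rw [h1, div_le_iff₀ hη] at hr
      linarith
    have hR := le_abs_self R0
    have hRn := abs_nonneg R0
    have hKn := neg_abs_le K1
    have hKa := abs_nonneg K1
    have hKK : K1 ≤ η * t (r + r1) := by linarith
    have hR8 : 8 * (|R0| + 2 + Real.log Λ) ≤ η * t (r + r1) := by linarith
    obtain ⟨hc1, hc1', hc2, hc2', hc3, hc3', hc4⟩ := hcls r x hx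
    have hclose := hK1 η _ _ _ E' x0 av k k' id σ v l n G1 hη hη1 r hKK x
      (fun i j => hc2 i j) hc3 s hs
    refine ⟨_, hclose, ?_⟩
    have h1 : (fun i => -Real.log ((n (x0 r) : Mr (m + 1)) i i)) =
        -(fun i => Real.log ((n (x0 r) : Mr (m + 1)) i i)) := rfl
    rw [h1, ex_neg, mul_inv_cancel_right, ← point_eq (hchart x) (hchart (x0 r)).low s, ← ex_bz]
    have hp := le_pf hΛ η (fun r => t (r + r1)) r
    refine hTs.trap r x (hE'E r hx) (bz Λ s) (bz_sum Λ s) ?_ ?_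
    · intro i
      rw [gap_bz]
      have h2 := ((BB_mem.1 hs) i).1
      have h3 : (pf Λ η (fun r => t (r + r1)) r : ℝ) ≤ s i := by exact_mod_cast h2
      have h4 := mul_le_mul_of_nonneg_right h3 hL.le
      linarith
    · intro i
      rw [gap_sub, gap_bz]
      have h2 := ((BB_mem.1 hs) i).2
      have h3 : (s i : ℝ) ≤ shf Λ (fun r => a (r + r1)) r i - pf Λ η (fun r => t (r + r1)) r := by
        exact_mod_cast h2
      have h4 := mul_le_mul_of_nonneg_right h3 hL.le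
      have h5 := shf_le hΛ (fun r => a (r + r1)) r i
      have h6 := abs_le.1 (G1.near r x hx i.castSucc)
      have h7 := abs_le.1 (G1.near r x hx i.succ)
      unfold gap at h5 ⊢
      linarith [h6.1, h7.2]
  · intro V hV
    obtain ⟨U, hU, hU3⟩ := split_three hV
    obtain ⟨U1, hU1, hconj⟩ := conj_close (C0 + M) hU
    obtain ⟨δ, hδ, hexc⟩ := ex_close hU
    obtain ⟨K1, hK1⟩ := gdat_close (m := m) hΛ hCC hC0
      (Filter.inter_mem hU1 (theta_inv_nhds hU1))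
    have hev1 := hTs.ht.eventually_ge_atTop (K1 / η)
    have hev2 := hTs.ht.eventually_ge_atTop (1 / δ)
    filter_upwards [hev1, hev2] with r hr1' hr2' x hx s hs
    have hKK : K1 ≤ η * t (r + r1) := by
      rw [div_le_iff₀ hη] at hr1'
      linarith
    have htp : 0 < t (r + r1) := by
      have := hts2 r
      linarith
    have hδt : 1 / t (r + r1) ≤ δ := by
      rw [div_le_iff₀ htp]
      rw [div_le_iff₀ hδ] at hr2'
      linarith
    obtain ⟨hc1, hc1', hc2, hc2', hc3, hc3', hc4⟩ := hcls r x hx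
    have hcl1 := hK1 η _ _ _ E' x0 av k k' id σ v l n G1 hη hη1 r hKK x
      (fun i j => hc2 i j) hc3 _ (BB_flip hs)
    have hcl2 := hK1 η _ _ _ E' x0 av _ _ trz σ' v' l' n' G2 hη hη1 r hKK x
      (fun i j => hc2' i j) hc3' s hs
    set sh := shf Λ (fun r => a (r + r1)) r with hsh
    set c : Fin (m + 1) → ℝ := fun i => Real.log ((n (x0 r) : Mr (m + 1)) i i) with hc
    set cs : Fin (m + 1) → ℝ := fun i => Real.log ((n' (x0 r) : Mr (m + 1)) i i) with hcs
    set e : Fin (m + 1) → ℝ := av x - bz Λ sh with he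
    set e0 : Fin (m + 1) → ℝ := av (x0 r) - bz Λ sh with he0
    set s' : Fin m → ℤ := fun i => sh i - s i with hs'
    set A : SLr (m + 1) := (bb Λ s')⁻¹ * (n x)⁻¹ * (l x)⁻¹ * l (x0 r) * bb Λ s' with hA
    set As : SLr (m + 1) := (bb Λ s)⁻¹ * (n' x)⁻¹ * (l' x)⁻¹ * l' (x0 r) * bb Λ s with hAs
    have hA' : A = (A * ex c) * ex (-c) := by rw [ex_neg, mul_inv_cancel_right]
    have hAs' : As = (As * ex cs) * ex (-cs) := by rw [ex_neg, mul_inv_cancel_right]
    have hpt := point_eq (Λ := Λ) (hchart x) (hchart (x0 r)).low s'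
    have hpt' := point_eq (Λ := Λ) (hchart' x) (hchart' (x0 r)).low s
    have hth := th_point (Λ := Λ) (hT.hk' x) (hT.fac x) s sh
    rw [inv_inv] at hpt'
    rw [hpt', th_smul, hpt, smul_smul] at hth
    have hexe : (ex (av x))⁻¹ * bb Λ sh = ex (-e) := by
      rw [← ex_bz, ← ex_neg, ← ex_add]
      congr 1
      rw [he]
      abel
    have hth2 := eq_inv_smul_iff.2 hth
    rw [smul_smul, hexe, ← mul_assoc] at hth2
    have hdd : (fun i => -Real.log ((n' (x0 r) : Mr (m + 1)) i i) -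
        (av (x0 r) i - bz Λ sh i) - Real.log ((n (x0 r) : Mr (m + 1)) i i)) = -cs - e0 - c := by
      funext i
      simp only [Pi.sub_apply, Pi.neg_apply, hcs, he0, hc]
    refine ⟨(ex (-cs) * (theta (m + 1) (As * ex cs))⁻¹ * ex cs) *
      (ex (-(cs + e)) * (A * ex c) * ex (cs + e)) * ex (e0 - e), ?_, ?_⟩
    · have hcsb : ∀ i, |cs i| ≤ C0 := fun i => (hchart' (x0 r)).log_n hC0 i
      have heb : ∀ i, |e i| ≤ M := fun i => hex r x hx i
      refine hU3 _ ?_ _ ?_ _ ?_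
      · exact hconj _ hcl2.2 cs fun i => (hcsb i).trans (by linarith)
      · refine hconj _ hcl1.1 (cs + e) fun i => ?_
        rw [Pi.add_apply]
        exact (abs_add_le _ _).trans (add_le_add (hcsb i) (heb i))
      · refine hexc _ fun i => ?_
        have h1 : (e0 - e) i = -(av x i - av (x0 r) i) := by
          simp only [he, he0, Pi.sub_apply]
          ring
        rw [h1, abs_neg]
        exact (hc4 i).trans hδt
    · rw [hdd, ← six_ident, ← hA', ← hAs']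
      exact hth2

end Pool.Agent.Lib.MP_41a456_al.TC
end
end
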