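import Pool.Agent.Lib.MP_41a456_al.TC.H6
import Pool.Agent.Lib.MP_41a456_al.TC.H1

section

/-!
# MP_41a456_al, Theorem TC, H7: forward inequality: the exponential bound (paper 521, (8.3))

Paper 521, section 8, `n = m + 1`, coordinates of `v ∈ ℝ^m`. Cubes of level `l`: `Λ^{-l} (q + [0,1)^m)`,
`q` integral, `qf Λ l v` = the cube of level `l` which contains `v`. `stt Λ y l q = u(q)⁻¹ W^l y` the state of the
cube `q` of level `l` (base point `y`), `st Λ y l v` = state of the cube containing `v`,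
`zz Λ y l v = W^l u(v)⁻¹ y`.
For a residue `i < L` let `K = (N - i) / L` (`0` if `i > N`; the levels `l < N` with `l ≡ i mod L`, `l + L ≤ N` are
`i + k L`, `k < K`). Put `a(l) = ∑_{q ∈ Box l} exp (FG l + ∑_{k, i + (k+1) L ≤ l} HH (i + k L))` at the
corner of `q`. Single steps: `a(l+1) ≤ 3 Λ^m a(l)` as long as no new block is completed (use `box_sum` with `i = 1`,
`FG_add`, `block_FG` with `L = 1`; the terms of level `≤ l` depend only on the cube of level `l`: `qf_child`,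
`qf_mono`); blocks: `a(i + (k+1) L) ≤ (4 Λ^m)^L a(i + k L)` (`box_sum`, `FG_add`, `HH_shift`, `block_bound`).
`a(0) = card (Box 0) = (2B)^m` (`FG` of length 0 is 0).
-/

namespace Pool.Agent.Lib.MP_41a456_al.TC

open Matrix MeasureTheory Filter Topology Pool.Agent.Lib.MP_41a456_al

/-- the exponent for the residue `i` -/
noncomputable def FF {m : ℕ} (Λ L : ℕ) (d M : ℝ) (S : Fin m → Set (X (m + 1))) (y : X (m + 1))
    (i N : ℕ) (v : Fin m → ℝ) : ℝ :=
  FG Λ M y N v + ∑ l ∈ (Finset.range N).filter (fun l => l % L = i ∧ l + L ≤ N), HH Λ L d S y l v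

private theorem h7_qf_le {m Λ : ℕ} (hΛ : 1 ≤ Λ) {k N : ℕ} (hk : k ≤ N) {v w : Fin m → ℝ}
    (h : qf Λ N v = qf Λ N w) : qf Λ k v = qf Λ k w := by
  obtain ⟨i, rfl⟩ := Nat.exists_eq_add_of_le hk
  exact qf_mono hΛ h

/-- the exponent depends only on the cube -/
private theorem h7_FF_congr {m Λ : ℕ} (hΛ : 1 ≤ Λ) (L : ℕ) (d M : ℝ) (S : Fin m → Set (X (m + 1)))
    (y : X (m + 1)) (i N : ℕ) {v w : Fin m → ℝ} (h : qf Λ N v = qf Λ N w) :
    FF Λ L d M S y i N v = FF Λ L d M S y i N w := by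
  have hst : ∀ k, k ≤ N → st Λ y k v = st Λ y k w := by
    intro k hk
    unfold st
    rw [h7_qf_le hΛ hk h]
  unfold FF
  refine congrArg₂ (· + ·) ?_ ?_
  · unfold FG
    refine Finset.sum_congr rfl fun k hk => ?_
    have hk' := Finset.mem_range.1 hk
    rw [hst k (by omega), hst (k + 1) (by omega)]
  · refine Finset.sum_congr rfl fun l hl => ?_
    have hl' := (Finset.mem_filter.1 hl).2.2
    unfold HH
    rw [h7_qf_le hΛ hl' h]

private theorem h7_fract {m Λ : ℕ} (hΛ : 1 ≤ Λ) (l j : ℕ) (q : Fin m → ℤ) (r : Fin m → Fin (Λ ^ j)) :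
    (fun k => Int.fract ((Λ : ℝ) ^ l *
      crn Λ (l + j) (fun k => (Λ : ℤ) ^ j * q k + ((r k : ℕ) : ℤ)) k)) =
      crn Λ j fun k => ((r k : ℕ) : ℤ) := by
  have hΛ0 : (0 : ℝ) < Λ := by exact_mod_cast hΛ
  funext k
  have hj : (0 : ℝ) < (Λ : ℝ) ^ j := by positivity
  have hl : (0 : ℝ) < (Λ : ℝ) ^ l := by positivity
  have hr : ((r k : ℕ) : ℝ) < (Λ : ℝ) ^ j := by exact_mod_cast (r k).2
  have e1 : (Λ : ℝ) ^ l * crn Λ (l + j) (fun k => (Λ : ℤ) ^ j * q k + ((r k : ℕ) : ℤ)) k =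
      (q k : ℝ) + ((r k : ℕ) : ℝ) / (Λ : ℝ) ^ j := by
    unfold crn
    push_cast
    rw [pow_add]
    field_simp
  rw [e1, Int.fract_intCast_add]
  unfold crn
  rw [Int.cast_natCast, Int.fract_eq_self]
  constructor
  · positivity
  · rw [div_lt_one hj]
    exact hr

private theorem h7_key {m Λ : ℕ} (hΛ : 1 ≤ Λ) (L : ℕ) (d M : ℝ) (S : Fin m → Set (X (m + 1)))
    (y : X (m + 1)) (i B l j : ℕ) (C : ℝ) (G : X (m + 1) → (Fin m → ℝ) → ℝ)
    (hFF : ∀ v, FF Λ L d M S y i (l + j) v =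
      FF Λ L d M S y i l v + G (st Λ y l v) fun k => Int.fract ((Λ : ℝ) ^ l * v k))
    (hG : ∀ z, ∑ r : Fin m → Fin (Λ ^ j), Real.exp (G z (crn Λ j fun k => ((r k : ℕ) : ℤ))) ≤ C) :
    ∑ q ∈ Box Λ B (l + j), Real.exp (FF Λ L d M S y i (l + j) (crn Λ (l + j) q)) ≤
      (∑ q ∈ Box Λ B l, Real.exp (FF Λ L d M S y i l (crn Λ l q))) * C := by
  rw [box_sum hΛ, Finset.sum_mul]
  refine Finset.sum_le_sum fun q _ => ?_
  have h1 : ∀ r : Fin m → Fin (Λ ^ j),
      Real.exp (FF Λ L d M S y i (l + j)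
        (crn Λ (l + j) fun k => (Λ : ℤ) ^ j * q k + ((r k : ℕ) : ℤ))) =
      Real.exp (FF Λ L d M S y i l (crn Λ l q)) *
        Real.exp (G (stt Λ y l q) (crn Λ j fun k => ((r k : ℕ) : ℤ))) := by
    intro r
    rw [hFF, h7_fract hΛ, ← Real.exp_add]
    have h2 : qf Λ l (crn Λ (l + j) fun k => (Λ : ℤ) ^ j * q k + ((r k : ℕ) : ℤ)) = q :=
      qf_child hΛ l j q r
    have h3 : FF Λ L d M S y i l (crn Λ (l + j) fun k => (Λ : ℤ) ^ j * q k + ((r k : ℕ) : ℤ)) =
        FF Λ L d M S y i l (crn Λ l q) :=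
      h7_FF_congr hΛ L d M S y i l (by rw [h2, qf_crn hΛ])
    rw [h3]
    unfold st
    rw [h2]
  rw [Finset.sum_congr rfl fun r _ => h1 r, ← Finset.mul_sum]
  exact mul_le_mul_of_nonneg_left (hG _) (Real.exp_pos _).le

theorem exp_bound {m : ℕ} (hm : 2 ≤ m) {Λ : ℕ} (hΛ : 2 ^ 40 ≤ Λ) {D : ℝ} (hD : 0 < D)
    (h : Marg m Λ D) {eps : ℝ} (he : 0 < eps) (he1 : eps ≤ 1) :
    ∃ L0 : ℕ, 1 ≤ L0 ∧ ∀ L : ℕ, L0 ≤ L → ∀ M M1 : ℝ, 0 < M1 → D ≤ M →
      2 ^ (bet (m + 1)) * M1 ≤ M →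
      ∀ S : Fin m → Set (X (m + 1)), (∀ j, Star Λ eps j (S j)) → (∀ j, ∀ z ∈ S j, alf z ≤ M1) →
      ∀ (y : X (m + 1)) (B N i : ℕ), i < L →
      ∑ q ∈ Box Λ B N, Real.exp (FF Λ L (tol m) M S y i N (crn Λ N q)) ≤
        (2 * B : ℝ) ^ m * (4 * (Λ : ℝ) ^ m) ^ N := by
  obtain ⟨L0, hL0⟩ := block_bound hm hΛ hD h he he1
  refine ⟨max L0 1, le_max_right _ _, ?_⟩
  intro L hL M M1 hM1 hDM hM S hS hS1 y B N i hi
  have hΛ1 : 1 ≤ Λ := le_trans (by norm_num) hΛ
  have hL1 : 1 ≤ L := (le_max_right _ _).trans hL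
  have hblock := hL0 L ((le_max_left _ _).trans hL) M M1 hM1 hDM hM S hS hS1
  have hpow : (0 : ℝ) ≤ (Λ : ℝ) ^ m := by positivity
  induction N using Nat.strong_induction_on with
  | _ N ih =>
    by_cases hN : L ≤ N ∧ (N - L) % L = i
    · obtain ⟨l, rfl⟩ := Nat.exists_eq_add_of_le' hN.1
      have hl : l % L = i := by
        have := hN.2
        rwa [Nat.add_sub_cancel] at this
      have h1 := ih l (by omega)
      have hset : (Finset.range (l + L)).filter (fun k => k % L = i ∧ k + L ≤ l + L) =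
          insert l ((Finset.range l).filter (fun k => k % L = i ∧ k + L ≤ l)) := by
        ext k
        simp only [Finset.mem_filter, Finset.mem_range, Finset.mem_insert]
        constructor
        · rintro ⟨_, h3, h4⟩
          rcases Nat.lt_or_ge k l with h5 | h5
          · right
            refine ⟨h5, h3, ?_⟩
            have h6 : Nat.ModEq L k l := h3.trans hl.symm
            have h7 := (Nat.modEq_iff_dvd' h5.le).1 h6
            have h8 := Nat.le_of_dvd (by omega) h7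
            omega
          · left
            omega
        · rintro (h3 | ⟨h3, h4, h5⟩)
          · subst h3
            exact ⟨by omega, hl, le_rfl⟩
          · exact ⟨by omega, h4, by omega⟩
      have h2 := h7_key hΛ1 L (tol m) M S y i B l L ((4 * (Λ : ℝ) ^ m) ^ L)
        (fun z w => FG Λ M z L w + HH Λ L (tol m) S z 0 w) (by
          intro v
          unfold FF
          rw [hset, Finset.sum_insert (by simp), FG_add hΛ1, HH_shift hΛ1 L (tol m) S y l v]
          ring) hblock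
      refine h2.trans ?_
      refine (mul_le_mul_of_nonneg_right h1 (by positivity)).trans (le_of_eq ?_)
      rw [pow_add]
      ring
    · rcases N with _ | l
      · have e : ∀ q ∈ (Box Λ B 0 : Finset (Fin m → ℤ)),
            Real.exp (FF Λ L (tol m) M S y i 0 (crn Λ 0 q)) = 1 := by
          intro q _
          unfold FF FG
          rw [Finset.range_zero, Finset.filter_empty, Finset.sum_empty, Finset.sum_empty, add_zero,
            Real.exp_zero]
        rw [Finset.sum_congr rfl e, Finset.sum_const, nsmul_eq_mul, card_Box]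
        simp
      · have h1 := ih l (by omega)
        have hset : (Finset.range (l + 1)).filter (fun k => k % L = i ∧ k + L ≤ l + 1) =
            (Finset.range l).filter (fun k => k % L = i ∧ k + L ≤ l) := by
          ext k
          simp only [Finset.mem_filter, Finset.mem_range]
          constructor
          · rintro ⟨_, h3, h4⟩
            have h5 : k + L ≠ l + 1 := by
              intro h6
              apply hN
              refine ⟨by omega, ?_⟩
              have h7 : l + 1 - L = k := by omega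
              rw [h7]
              exact h3
            exact ⟨by omega, h3, by omega⟩
          · rintro ⟨h3, h4, h5⟩
            exact ⟨by omega, h4, by omega⟩
        have h2 := h7_key hΛ1 L (tol m) M S y i B l 1 (4 * (Λ : ℝ) ^ m)
          (fun z w => FG Λ M z 1 w) (by
            intro v
            unfold FF
            rw [hset, FG_add hΛ1]
            ring) (by
            intro z
            refine (block_FG hΛ1 hD hDM h z 1).trans ?_
            rw [pow_one]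
            nlinarith)
        refine h2.trans ?_
        refine (mul_le_mul_of_nonneg_right h1 (by positivity)).trans (le_of_eq ?_)
        rw [pow_succ]
        ring

end Pool.Agent.Lib.MP_41a456_al.TC
end

section

/-!
# MP_41a456_al, Theorem TC, H8: forward inequality: finite form (paper 521, (8.5))

Paper 521, section 8, `n = m + 1`, coordinates of `v ∈ ℝ^m`. Cubes of level `l`: `Λ^{-l} (q + [0,1)^m)`,
`q` integral, `qf Λ l v` = the cube of level `l` which contains `v`. `stt Λ y l q = u(q)⁻¹ W^l y` the state of the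
cube `q` of level `l` (base point `y`), `st Λ y l v` = state of the cube containing `v`,
`zz Λ y l v = W^l u(v)⁻¹ y`.
`FF i N v` depends only on the cube of level `N` which contains `v` (`qf_mono`), so
`∑_x exp (FF i N (v x)) ≤ P ∑_q exp (FF i N (crn q)) ≤ P (2B)^m (4 Λ^m)^N`. Jensen (concavity of the
logarithm): `(1/|E|) ∑_x FF i N (v x) ≤ log (P (2B)^m (4 Λ^m)^N / |E|)`. Average over `i < L`:
`(1/L) ∑_i FF i N v = FG N v + (1/L) ∑_{l + L ≤ N} HH l v ≥ FG N v + (9/10) log Λ T_x` (`v' = v` in `HH`; every `l` with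
`l + L ≤ N` has exactly one residue; `l < N` because `L ≥ 1`), and telescoping
`FG N v = log (max (alf (st N v)) M) - log (max (alf (st 0 v)) M) + (1/2) log Λ #{l < N : M Λ^{1/2} ≤ alf (st l v)}`
`≥ log M - log (max ((1+B)^β alf y) M) + (1/2) log Λ K_x` (`alf_zz_le`; `st 0 v = u(q)⁻¹ y` with
`|q_j| ≤ B`, `alf_ucol_le`).
-/

namespace Pool.Agent.Lib.MP_41a456_al.TC

open Matrix MeasureTheory Filter Topology Pool.Agent.Lib.MP_41a456_al

open Classical in
/-- number of levels with a type -/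
noncomputable def TT {m : ℕ} (Λ L : ℕ) (d : ℝ) (S : Fin m → Set (X (m + 1))) (y : X (m + 1)) (N : ℕ)
    (v : Fin m → ℝ) : ℕ :=
  ((Finset.range N).filter fun l => l + L ≤ N ∧ TE Λ L d S (zz Λ y l v)).card

open Classical in
/-- number of high levels -/
noncomputable def KK {m : ℕ} (Λ : ℕ) (M : ℝ) (y : X (m + 1)) (N : ℕ) (v : Fin m → ℝ) : ℕ :=
  ((Finset.range N).filter fun l =>
    2 ^ (bet (m + 1)) * (M * Real.sqrt Λ) ≤ alf (zz Λ y l v)).card

section H8

variable {m : ℕ} {Λ : ℕ}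

private theorem h8_qf_of_le (hΛ : 1 ≤ Λ) {N l : ℕ} (hl : l ≤ N) {v w : Fin m → ℝ}
    (h : qf Λ N v = qf Λ N w) : qf Λ l v = qf Λ l w := by
  obtain ⟨i, rfl⟩ := Nat.exists_eq_add_of_le hl
  exact qf_mono hΛ h

/-- `FF` depends only on the cube of level `N` -/
private theorem h8_FF_congr (hΛ : 1 ≤ Λ) (L : ℕ) (d M : ℝ) (S : Fin m → Set (X (m + 1)))
    (y : X (m + 1)) (i N : ℕ) {v w : Fin m → ℝ} (h : qf Λ N v = qf Λ N w) :
    FF Λ L d M S y i N v = FF Λ L d M S y i N w := by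
  have hst : ∀ l, l ≤ N → st Λ y l v = st Λ y l w := by
    intro l hl
    unfold st
    rw [h8_qf_of_le hΛ hl h]
  unfold FF FG
  congr 1
  · refine Finset.sum_congr rfl fun l hl => ?_
    rw [Finset.mem_range] at hl
    rw [hst l hl.le, hst (l + 1) hl]
  · refine Finset.sum_congr rfl fun l hl => ?_
    rw [Finset.mem_filter, Finset.mem_range] at hl
    unfold HH
    rw [h8_qf_of_le hΛ hl.2.2 h]

private theorem h8_mem_Box (hΛ : 1 ≤ Λ) (B N : ℕ) (v : Fin m → ℝ)
    (h : ∀ j, -(B : ℝ) ≤ v j ∧ v j < B) : qf Λ N v ∈ Box Λ B N := by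
  have h0 : (0 : ℝ) < (Λ : ℝ) ^ N := by
    have : (0 : ℝ) < Λ := by exact_mod_cast hΛ
    positivity
  unfold Box
  rw [Fintype.mem_piFinset]
  intro j
  rw [Finset.mem_Ico]
  unfold qf
  constructor
  · rw [Int.le_floor]
    push_cast
    have := mul_le_mul_of_nonneg_left (h j).1 h0.le
    linarith
  · rw [Int.floor_lt]
    push_cast
    have := mul_lt_mul_of_pos_left (h j).2 h0
    linarith

/-- Jensen -/
private theorem h8_jensen {ι : Type} (E : Finset ι) (hE : E.Nonempty) (f : ι → ℝ) {Z : ℝ}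
    (hZ : 0 < Z) (h : ∑ x ∈ E, Real.exp (f x) ≤ Z) :
    ∑ x ∈ E, f x ≤ E.card * (Real.log Z - Real.log E.card) := by
  have hc : (0 : ℝ) < E.card := by exact_mod_cast hE.card_pos
  set a := Real.log Z - Real.log E.card with ha
  have h1 : ∑ x ∈ E, (f x - a + 1) ≤ ∑ x ∈ E, Real.exp (f x - a) :=
    Finset.sum_le_sum fun x _ => Real.add_one_le_exp _
  have h2 : ∑ x ∈ E, Real.exp (f x - a) = Real.exp (-a) * ∑ x ∈ E, Real.exp (f x) := by
    rw [Finset.mul_sum]
    refine Finset.sum_congr rfl fun x _ => ?_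
    rw [← Real.exp_add]
    congr 1
    ring
  have h3 : Real.exp (-a) = E.card / Z := by
    rw [ha, neg_sub, Real.exp_sub, Real.exp_log hc, Real.exp_log hZ]
  have h4 : Real.exp (-a) * ∑ x ∈ E, Real.exp (f x) ≤ E.card := by
    rw [h3]
    calc (E.card : ℝ) / Z * ∑ x ∈ E, Real.exp (f x) ≤ E.card / Z * Z :=
          mul_le_mul_of_nonneg_left h (by positivity)
      _ = E.card := div_mul_cancel₀ _ hZ.ne'
  rw [h2] at h1
  have h5 := h1.trans h4
  rw [Finset.sum_add_distrib, Finset.sum_sub_distrib, Finset.sum_const, Finset.sum_const,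
    nsmul_eq_mul, nsmul_eq_mul, mul_one] at h5
  linarith

/-- the sum over the fibres -/
private theorem h8_fibre {ι κ : Type} [DecidableEq κ] (E : Finset ι) (Q : Finset κ) (c : ι → κ)
    (hc : ∀ x ∈ E, c x ∈ Q) (g : κ → ℝ) (hg : ∀ q, 0 ≤ g q) (P : ℕ)
    (hP : ∀ q, (E.filter fun x => c x = q).card ≤ P) :
    ∑ x ∈ E, g (c x) ≤ P * ∑ q ∈ Q, g q := by
  rw [← Finset.sum_fiberwise_of_maps_to hc, Finset.mul_sum]
  refine Finset.sum_le_sum fun q _ => ?_
  have h1 : ∑ x ∈ E with c x = q, g (c x) = ∑ x ∈ E with c x = q, g q := by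
    refine Finset.sum_congr rfl fun x hx => ?_
    rw [(Finset.mem_filter.1 hx).2]
  rw [h1, Finset.sum_const, nsmul_eq_mul]
  refine mul_le_mul_of_nonneg_right ?_ (hg q)
  exact_mod_cast hP q

/-- the sum over the residues -/
private theorem h8_residues {L : ℕ} (hL : 1 ≤ L) (N : ℕ) (g : ℕ → ℝ) :
    ∑ i ∈ Finset.range L, ∑ l ∈ (Finset.range N).filter (fun l => l % L = i ∧ l + L ≤ N), g l =
      ∑ l ∈ (Finset.range N).filter (fun l => l + L ≤ N), g l := by
  rw [← Finset.sum_fiberwise_of_maps_to (s := (Finset.range N).filter fun l => l + L ≤ N)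
    (t := Finset.range L) (g := fun l => l % L)
    (fun l _ => Finset.mem_range.2 (Nat.mod_lt l (by omega)))]
  refine Finset.sum_congr rfl fun i _ => ?_
  refine Finset.sum_congr ?_ fun _ _ => rfl
  ext l
  simp only [Finset.mem_filter]
  tauto

/-- telescoping -/
private theorem h8_tele (b : ℕ → ℝ) (hb : ∀ l, 0 < b l) (N : ℕ) :
    ∑ l ∈ Finset.range N, Real.log (b (l + 1) / b l) = Real.log (b N) - Real.log (b 0) := by
  have h1 : ∀ l ∈ Finset.range N, Real.log (b (l + 1) / b l) =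
      Real.log (b (l + 1)) - Real.log (b l) := fun l _ =>
    Real.log_div (hb _).ne' (hb _).ne'
  rw [Finset.sum_congr rfl h1]
  exact Finset.sum_range_sub (fun l => Real.log (b l)) N

private theorem h8_alf_st_zero (B : ℕ) (y : X (m + 1)) (v : Fin m → ℝ)
    (h : ∀ j, -(B : ℝ) ≤ v j ∧ v j < B) :
    alf (st Λ y 0 v) ≤ (1 + (B : ℝ)) ^ (bet (m + 1)) * alf y := by
  unfold st stt
  rw [pow_zero, mul_one, ← ucol_neg]
  refine (alf_ucol_le _ y).trans ?_
  refine mul_le_mul_of_nonneg_right ?_ (alf_pos (Nat.succ_pos m) y).le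
  refine Real.rpow_le_rpow (by positivity) ?_ (A5.bet_pos (Nat.succ_pos m)).le
  have hB : ‖-(fun j => ((qf Λ 0 v j : ℤ) : ℝ))‖ ≤ (B : ℝ) := by
    rw [norm_neg, pi_norm_le_iff_of_nonneg (Nat.cast_nonneg B)]
    intro j
    rw [Real.norm_eq_abs, abs_le]
    unfold qf
    rw [pow_zero, one_mul]
    constructor
    · have h1 : (-(B : ℤ)) ≤ ⌊v j⌋ := by
        rw [Int.le_floor]
        push_cast
        exact (h j).1
      have h2 : ((-(B : ℤ) : ℤ) : ℝ) ≤ ((⌊v j⌋ : ℤ) : ℝ) := by exact_mod_cast h1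
      push_cast at h2
      exact h2
    · exact (Int.floor_le (v j)).trans (h j).2.le
  linarith

open Classical in
/-- lower bound of the gains -/
private theorem h8_FG_ge (hΛ : 1 ≤ Λ) {M : ℝ} (hM : 0 < M) (y : X (m + 1)) (B N : ℕ)
    (v : Fin m → ℝ) (h : ∀ j, -(B : ℝ) ≤ v j ∧ v j < B) :
    1 / 2 * (KK Λ M y N v : ℝ) * Real.log Λ -
      Real.log (max ((1 + B) ^ (bet (m + 1)) * alf y) M / M) ≤ FG Λ M y N v := by
  have hlog : 0 ≤ Real.log Λ := Real.log_nonneg (by exact_mod_cast hΛ)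
  have hb : ∀ l, 0 < max (alf (st Λ y l v)) M := fun l => lt_max_of_lt_right hM
  unfold FG gG
  rw [Finset.sum_add_distrib, h8_tele (fun l => max (alf (st Λ y l v)) M) hb N]
  have h1 : Real.log M ≤ Real.log (max (alf (st Λ y N v)) M) :=
    Real.log_le_log hM (le_max_right _ _)
  have h2 : Real.log (max (alf (st Λ y 0 v)) M) ≤
      Real.log (max ((1 + B) ^ (bet (m + 1)) * alf y) M) :=
    Real.log_le_log (hb 0) (max_le_max (h8_alf_st_zero B y v h) le_rfl)
  have h3 : Real.log (max ((1 + B) ^ (bet (m + 1)) * alf y) M / M) =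
      Real.log (max ((1 + B) ^ (bet (m + 1)) * alf y) M) - Real.log M :=
    Real.log_div (lt_max_of_lt_right hM).ne' hM.ne'
  have h4 : 1 / 2 * (KK Λ M y N v : ℝ) * Real.log Λ ≤
      ∑ l ∈ Finset.range N,
        if M * Real.sqrt Λ ≤ alf (st Λ y l v) then 1 / 2 * Real.log Λ else 0 := by
    rw [← Finset.sum_filter, Finset.sum_const, nsmul_eq_mul]
    have h5 : (KK Λ M y N v : ℝ) ≤
        (((Finset.range N).filter fun l => M * Real.sqrt Λ ≤ alf (st Λ y l v)).card : ℝ) := by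
      unfold KK
      have h6 : ((Finset.range N).filter fun l =>
          2 ^ (bet (m + 1)) * (M * Real.sqrt Λ) ≤ alf (zz Λ y l v)) ⊆
          (Finset.range N).filter fun l => M * Real.sqrt Λ ≤ alf (st Λ y l v) := by
        intro l hl
        rw [Finset.mem_filter] at hl ⊢
        refine ⟨hl.1, ?_⟩
        have h7 := hl.2.trans (alf_zz_le hΛ y l v)
        exact le_of_mul_le_mul_left h7 (by positivity)
      exact_mod_cast Finset.card_le_card h6
    have h8 : 0 ≤ 1 / 2 * Real.log Λ := by positivity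
    nlinarith
  linarith

open Classical in
private theorem h8_HH_ge (L : ℕ) (d : ℝ) (hΛ : 1 ≤ Λ) (S : Fin m → Set (X (m + 1)))
    (y : X (m + 1)) (N : ℕ) (v : Fin m → ℝ) :
    (TT Λ L d S y N v : ℝ) * (9 / 10 * L * Real.log Λ) ≤
      ∑ l ∈ (Finset.range N).filter (fun l => l + L ≤ N), HH Λ L d S y l v := by
  have hlog : 0 ≤ Real.log Λ := Real.log_nonneg (by exact_mod_cast hΛ)
  have h1 : (TT Λ L d S y N v : ℝ) * (9 / 10 * L * Real.log Λ) =
      ∑ l ∈ (Finset.range N).filter (fun l => l + L ≤ N ∧ TE Λ L d S (zz Λ y l v)),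
        (9 / 10 * L * Real.log Λ) := by
    unfold TT
    rw [Finset.sum_const, nsmul_eq_mul]
  rw [h1]
  have h2 : ∑ l ∈ (Finset.range N).filter (fun l => l + L ≤ N ∧ TE Λ L d S (zz Λ y l v)),
        (9 / 10 * L * Real.log Λ) ≤
      ∑ l ∈ (Finset.range N).filter (fun l => l + L ≤ N ∧ TE Λ L d S (zz Λ y l v)),
        HH Λ L d S y l v := by
    refine Finset.sum_le_sum fun l hl => ?_
    rw [Finset.mem_filter] at hl
    unfold HH
    rw [if_pos ⟨v, rfl, hl.2.2⟩]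
  refine h2.trans (Finset.sum_le_sum_of_subset_of_nonneg ?_ ?_)
  · intro l hl
    rw [Finset.mem_filter] at hl ⊢
    exact ⟨hl.1, hl.2.1⟩
  · intro l _ _
    unfold HH
    split_ifs
    · positivity
    · exact le_rfl

end H8

open Classical in
theorem forward_finite {m : ℕ} (hm : 2 ≤ m) {Λ : ℕ} (hΛ : 2 ^ 40 ≤ Λ) {D : ℝ} (hD : 0 < D)
    (h : Marg m Λ D) {eps : ℝ} (he : 0 < eps) (he1 : eps ≤ 1) :
    ∃ L0 : ℕ, 1 ≤ L0 ∧ ∀ L : ℕ, L0 ≤ L → ∀ M M1 : ℝ, 0 < M1 → D ≤ M →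
      2 ^ (bet (m + 1)) * M1 ≤ M →
      ∀ S : Fin m → Set (X (m + 1)), (∀ j, Star Λ eps j (S j)) → (∀ j, ∀ z ∈ S j, alf z ≤ M1) →
      ∀ (y : X (m + 1)) (B N P : ℕ), 1 ≤ B → 1 ≤ P →
      ∀ {ι : Type} (E : Finset ι) (v : ι → Fin m → ℝ), E.Nonempty →
      (∀ x ∈ E, ∀ j, -(B : ℝ) ≤ v x j ∧ v x j < B) →
      (∀ q, (E.filter fun x => qf Λ N (v x) = q).card ≤ P) →
      (∑ x ∈ E, (9 / 10 * (TT Λ L (tol m) S y N (v x) : ℝ) + 1 / 2 * (KK Λ M y N (v x) : ℝ))) *
          Real.log Λ ≤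
        E.card * (m * N * Real.log Λ - Real.log E.card + Real.log P + m * Real.log (2 * B) +
          N * Real.log 4 + Real.log (max ((1 + B) ^ (bet (m + 1)) * alf y) M / M)) := by
  obtain ⟨L0, hL01, hexp⟩ := exp_bound hm hΛ hD h he he1
  refine ⟨L0, hL01, ?_⟩
  intro L hL M M1 hM1 hDM hM S hS hS1 y B N P hB hP ι E v hE hv hPE
  have hL1 : 1 ≤ L := hL01.trans hL
  have hΛ1 : 1 ≤ Λ := le_trans (by norm_num) hΛ
  have hΛ0 : (0 : ℝ) < Λ := by exact_mod_cast hΛ1
  have hM0 : 0 < M := lt_of_lt_of_le hD hDM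
  have hB0 : (0 : ℝ) < B := by exact_mod_cast hB
  have hP0 : (0 : ℝ) < P := by exact_mod_cast hP
  have hLr : (0 : ℝ) < L := by exact_mod_cast hL1
  set Z : ℝ := P * ((2 * B : ℝ) ^ m * (4 * (Λ : ℝ) ^ m) ^ N) with hZd
  have hZ : 0 < Z := by positivity
  have hlogZ : Real.log Z = m * N * Real.log Λ + Real.log P + m * Real.log (2 * B) +
      N * Real.log 4 := by
    have e1 : Real.log (4 * (Λ : ℝ) ^ m) = Real.log 4 + m * Real.log Λ := by
      rw [Real.log_mul (by norm_num) (by positivity), Real.log_pow]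
    rw [hZd, Real.log_mul hP0.ne' (by positivity), Real.log_mul (by positivity) (by positivity),
      Real.log_pow, Real.log_pow, e1]
    ring
  -- the bound for one residue
  have hres : ∀ i, i < L → ∑ x ∈ E, FF Λ L (tol m) M S y i N (v x) ≤
      E.card * (Real.log Z - Real.log E.card) := by
    intro i hi
    refine h8_jensen E hE _ hZ ?_
    have h1 : ∀ x ∈ E, Real.exp (FF Λ L (tol m) M S y i N (v x)) =
        Real.exp (FF Λ L (tol m) M S y i N (crn Λ N (qf Λ N (v x)))) := by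
      intro x _
      rw [h8_FF_congr hΛ1 L (tol m) M S y i N (v := v x) (w := crn Λ N (qf Λ N (v x)))
        (qf_crn hΛ1 N _).symm]
    rw [Finset.sum_congr rfl h1]
    refine (h8_fibre E (Box Λ B N) (fun x => qf Λ N (v x))
      (fun x hx => h8_mem_Box hΛ1 B N (v x) (hv x hx))
      (fun q => Real.exp (FF Λ L (tol m) M S y i N (crn Λ N q))) (fun q => (Real.exp_pos _).le)
      P ?_).trans ?_
    · intro q
      convert hPE q
    · exact mul_le_mul_of_nonneg_left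
        (hexp L hL M M1 hM1 hDM hM S hS hS1 y B N i hi) hP0.le
  -- the sum over the residues
  have hsum : ∑ x ∈ E, ∑ i ∈ Finset.range L, FF Λ L (tol m) M S y i N (v x) ≤
      L * (E.card * (Real.log Z - Real.log E.card)) := by
    rw [Finset.sum_comm]
    refine (Finset.sum_le_sum fun i hi => hres i (Finset.mem_range.1 hi)).trans ?_
    rw [Finset.sum_const, Finset.card_range, nsmul_eq_mul]
  have hlow : ∀ x ∈ E, L * ((9 / 10 * (TT Λ L (tol m) S y N (v x) : ℝ) +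
      1 / 2 * (KK Λ M y N (v x) : ℝ)) * Real.log Λ -
      Real.log (max ((1 + B) ^ (bet (m + 1)) * alf y) M / M)) ≤
      ∑ i ∈ Finset.range L, FF Λ L (tol m) M S y i N (v x) := by
    intro x hx
    have e1 : ∑ i ∈ Finset.range L, FF Λ L (tol m) M S y i N (v x) =
        L * FG Λ M y N (v x) +
          ∑ l ∈ (Finset.range N).filter (fun l => l + L ≤ N), HH Λ L (tol m) S y l (v x) := by
      unfold FF
      rw [Finset.sum_add_distrib, Finset.sum_const, Finset.card_range, nsmul_eq_mul,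
        h8_residues hL1]
    rw [e1]
    have e2 := h8_FG_ge hΛ1 hM0 y B N (v x) (hv x hx)
    have e3 := h8_HH_ge L (tol m) hΛ1 S y N (v x)
    have e4 := mul_le_mul_of_nonneg_left e2 hLr.le
    calc (L : ℝ) * ((9 / 10 * (TT Λ L (tol m) S y N (v x) : ℝ) +
        1 / 2 * (KK Λ M y N (v x) : ℝ)) * Real.log Λ -
        Real.log (max ((1 + B) ^ (bet (m + 1)) * alf y) M / M)) =
          (L : ℝ) * (1 / 2 * (KK Λ M y N (v x) : ℝ) * Real.log Λ -
            Real.log (max ((1 + B) ^ (bet (m + 1)) * alf y) M / M)) +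
          (TT Λ L (tol m) S y N (v x) : ℝ) * (9 / 10 * L * Real.log Λ) := by ring
      _ ≤ _ := add_le_add e4 e3
  have htot := (Finset.sum_le_sum hlow).trans hsum
  rw [← Finset.mul_sum] at htot
  have htot2 := le_of_mul_le_mul_left htot hLr
  rw [Finset.sum_sub_distrib, Finset.sum_const, nsmul_eq_mul, ← Finset.sum_mul, hlogZ] at htot2
  have hfin : (E.card : ℝ) * (m * N * Real.log Λ - Real.log E.card + Real.log P +
      m * Real.log (2 * B) + N * Real.log 4 +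
      Real.log (max ((1 + B) ^ (bet (m + 1)) * alf y) M / M)) =
      E.card * (m * N * Real.log Λ + Real.log P + m * Real.log (2 * B) + N * Real.log 4 -
        Real.log E.card) +
      E.card * Real.log (max ((1 + B) ^ (bet (m + 1)) * alf y) M / M) := by ring
  rw [hfin]
  linarith

end Pool.Agent.Lib.MP_41a456_al.TC
end

section

/-!
# MP_41a456_al, Theorem TC, I8: lines (paper 521, (9.1))

Paper 521, section 9, `n = m + 1`.
`b(s)⁻¹ u(v)⁻¹ = u(v*)⁻¹ b(s)⁻¹`, `v*_j = Λ^{s_0 + … + s_j} v_j` (`ex_ucol`, the exponents of `bb`: `b_0 / b_{j+1}`), and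
`bb (s + l e_0) = bb s * W_0^{-l}` (`bb_shift` for `k = 0`).
-/

namespace Pool.Agent.Lib.MP_41a456_al.TC

open Matrix MeasureTheory Filter Topology Pool.Agent.Lib.MP_41a456_al

/-- the rescaled coordinates -/
noncomputable def vs {m : ℕ} (Λ : ℕ) (s : Fin m → ℤ) (v : Fin m → ℝ) : Fin m → ℝ :=
  fun j => (Λ : ℝ) ^ (∑ i ∈ Finset.univ.filter (fun i : Fin m => i ≤ j), s i) * v j

private theorem i8_exp {Λ : ℕ} (hΛ : 1 ≤ Λ) (n : ℤ) :
    Real.exp (Real.log Λ * (n : ℝ)) = (Λ : ℝ) ^ n := by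
  have hp : (0 : ℝ) < Λ := by exact_mod_cast hΛ
  rw [Real.exp_mul, Real.exp_log hp, Real.rpow_intCast]

private theorem i8_diff {m : ℕ} (s : Fin m → ℤ) (j : Fin m) :
    (∑ l with (0 : Fin (m + 1)) ≤ l.castSucc, (s l : ℝ)) - ∑ l with j.succ ≤ l.castSucc, (s l : ℝ) =
      ((∑ i ∈ Finset.univ.filter (fun i : Fin m => i ≤ j), s i : ℤ) : ℝ) := by
  have h0 : (Finset.univ.filter fun l : Fin m => (0 : Fin (m + 1)) ≤ l.castSucc) =
      (Finset.univ.filter fun l : Fin m => j.succ ≤ l.castSucc) ∪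
        (Finset.univ.filter fun l : Fin m => l ≤ j) := by
    ext l
    simp only [Finset.mem_filter, Finset.mem_univ, true_and, Finset.mem_union, Fin.le_def,
      Fin.val_castSucc, Fin.val_succ, Fin.val_zero]
    omega
  have hd : Disjoint (Finset.univ.filter fun l : Fin m => j.succ ≤ l.castSucc)
      (Finset.univ.filter fun l : Fin m => l ≤ j) := by
    rw [Finset.disjoint_left]
    intro l
    simp only [Finset.mem_filter, Finset.mem_univ, true_and, Fin.le_def,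
      Fin.val_castSucc, Fin.val_succ]
    omega
  rw [h0, Finset.sum_union hd, Int.cast_sum]
  ring

theorem bb_ucol {m : ℕ} {Λ : ℕ} (hΛ : 1 ≤ Λ) (s : Fin m → ℤ) (v : Fin m → ℝ) :
    (bb Λ s)⁻¹ * (ucol v)⁻¹ = (ucol (vs Λ s v))⁻¹ * (bb Λ s)⁻¹ := by
  have hp : (0 : ℝ) < Λ := by exact_mod_cast hΛ
  rw [← _root_.mul_inv_rev, ← _root_.mul_inv_rev]
  congr 1
  have h := ex_ucol (fun i : Fin (m + 1) => Real.log Λ * ∑ l with i ≤ l.castSucc, (s l : ℝ))
    (vs Λ s v)
  rw [mul_inv_eq_iff_eq_mul] at h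
  have h2 : (fun j : Fin m => Real.exp ((Real.log Λ * ∑ l with j.succ ≤ l.castSucc, (s l : ℝ)) -
      (Real.log Λ * ∑ l with (0 : Fin (m + 1)) ≤ l.castSucc, (s l : ℝ))) * vs Λ s v j) = v := by
    funext j
    have e : (Real.log Λ * ∑ l with j.succ ≤ l.castSucc, (s l : ℝ)) -
        (Real.log Λ * ∑ l with (0 : Fin (m + 1)) ≤ l.castSucc, (s l : ℝ)) =
        -(Real.log Λ * ((∑ i ∈ Finset.univ.filter (fun i : Fin m => i ≤ j), s i : ℤ) : ℝ)) := by
      rw [← i8_diff s j]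
      ring
    rw [e, Real.exp_neg, i8_exp hΛ]
    unfold vs
    rw [← mul_assoc, inv_mul_cancel₀ (zpow_ne_zero _ hp.ne'), one_mul]
  rw [h2] at h
  exact h.symm

/-- the points of a line -/
theorem yh_line {m : ℕ} (hm : 1 ≤ m) {Λ : ℕ} (hΛ : 1 ≤ Λ) (s : Fin m → ℤ) (v : Fin m → ℝ)
    (y0 : X (m + 1)) (l : ℕ) :
    yh Λ v y0 (fun i => s i + if (i : ℕ) = 0 then (l : ℤ) else 0) =
      zz Λ ((bb Λ s)⁻¹ • y0) l (vs Λ s v) := by
  have key : ∀ l : ℕ, bb Λ (fun i : Fin m => s i + if (i : ℕ) = 0 then (l : ℤ) else 0) =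
      bb Λ s * ((W Λ (0 : Fin (m + 1))) ^ l)⁻¹ := by
    intro l
    induction l with
    | zero =>
      rw [pow_zero, inv_one, mul_one]
      congr 1
      funext i
      simp
    | succ l ih =>
      have h1 := bb_shift (Λ := Λ) (0 : Fin (m + 1))
        (fun i : Fin m => s i + if (i : ℕ) = 0 then (l : ℤ) else 0)
      have h2 : (fun i : Fin m => (s i + if (i : ℕ) = 0 then (l : ℤ) else 0) +
          ((if i.castSucc = 0 then 1 else 0) - (if i.succ = 0 then 1 else 0))) =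
          fun i : Fin m => s i + if (i : ℕ) = 0 then ((l + 1 : ℕ) : ℤ) else 0 := by
        funext i
        have e1 : (i.castSucc = 0) ↔ (i : ℕ) = 0 := by
          rw [Fin.ext_iff, Fin.val_castSucc, Fin.val_zero]
        have e2 : ¬ (i.succ = 0) := Fin.succ_ne_zero i
        rw [if_neg e2]
        by_cases h : (i : ℕ) = 0
        · rw [if_pos h, if_pos (e1.2 h), if_pos h]
          push_cast
          ring
        · rw [if_neg h, if_neg (fun h' => h (e1.1 h')), if_neg h]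
          ring
      rw [h2, ih] at h1
      rw [h1, pow_succ', _root_.mul_inv_rev, mul_assoc]
  unfold yh zz
  rw [key l, _root_.mul_inv_rev, inv_inv, mul_assoc, bb_ucol hΛ, ← mul_smul, ← mul_assoc]

/-- cubes of level `N` of the rescaled coordinates -/
theorem vs_close {m : ℕ} {Λ : ℕ} (hΛ : 1 ≤ Λ) {s : Fin m → ℤ} {p : ℤ} (hp : 0 ≤ p)
    (hs : ∀ i, p ≤ s i) {v v' : Fin m → ℝ} {N : ℕ}
    (h : qf Λ N (vs Λ s v) = qf Λ N (vs Λ s v')) (j : Fin m) :
    |v' j - v j| * (Λ : ℝ) ^ ((N : ℤ) + p) ≤ 1 := by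
  have hΛ1 : (1 : ℝ) ≤ Λ := by exact_mod_cast hΛ
  have hp0 : (0 : ℝ) < Λ := by linarith
  have h1 := congrFun h j
  unfold qf at h1
  have h2 := Int.abs_sub_lt_one_of_floor_eq_floor h1
  have hps : p ≤ ∑ i ∈ Finset.univ.filter (fun i : Fin m => i ≤ j), s i := by
    refine (hs j).trans ?_
    exact Finset.single_le_sum (f := s) (fun i _ => hp.trans (hs i))
      (Finset.mem_filter.2 ⟨Finset.mem_univ j, le_refl j⟩)
  set S := ∑ i ∈ Finset.univ.filter (fun i : Fin m => i ≤ j), s i with hS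
  have h3 : (Λ : ℝ) ^ N * vs Λ s v j - (Λ : ℝ) ^ N * vs Λ s v' j =
      (v j - v' j) * (Λ : ℝ) ^ ((N : ℤ) + S) := by
    unfold vs
    rw [← hS, zpow_add₀ hp0.ne', zpow_natCast]
    ring
  rw [h3, abs_mul, abs_of_pos (zpow_pos hp0 _)] at h2
  calc |v' j - v j| * (Λ : ℝ) ^ ((N : ℤ) + p) ≤ |v' j - v j| * (Λ : ℝ) ^ ((N : ℤ) + S) :=
        mul_le_mul_of_nonneg_left (zpow_le_zpow_right₀ hΛ1 (by linarith)) (abs_nonneg _)
    _ = |v j - v' j| * (Λ : ℝ) ^ ((N : ℤ) + S) := by rw [abs_sub_comm]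
    _ ≤ 1 := h2.le

theorem abs_vs_le {m : ℕ} {Λ : ℕ} (hΛ : 1 ≤ Λ) (s : Fin m → ℤ) (hs : ∀ i, 0 ≤ s i)
    (v : Fin m → ℝ) (j : Fin m) : |vs Λ s v j| ≤ (Λ : ℝ) ^ (∑ i, s i) * |v j| := by
  have hΛ1 : (1 : ℝ) ≤ Λ := by exact_mod_cast hΛ
  have hp0 : (0 : ℝ) < Λ := by linarith
  unfold vs
  rw [abs_mul, abs_of_pos (zpow_pos hp0 _)]
  refine mul_le_mul_of_nonneg_right (zpow_le_zpow_right₀ hΛ1 ?_) (abs_nonneg _)
  exact Finset.sum_le_sum_of_subset_of_nonneg (Finset.filter_subset _ _) fun i _ _ => hs i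

theorem alf_bb_le {m : ℕ} {Λ : ℕ} (hΛ : 1 ≤ Λ) (s : Fin m → ℤ) (hs : ∀ i, 0 ≤ s i)
    (y : X (m + 1)) :
    alf ((bb Λ s)⁻¹ • y) ≤ ((Λ : ℝ) ^ (∑ i, s i)) ^ (bet (m + 1)) * alf y := by
  have hΛ1 : (1 : ℝ) ≤ Λ := by exact_mod_cast hΛ
  have hl : 0 ≤ Real.log Λ := Real.log_nonneg hΛ1
  have hsr : ∀ i, (0 : ℝ) ≤ (s i : ℝ) := fun i => by exact_mod_cast hs i
  unfold bb
  rw [← ex_neg]
  have h := alf_ex_le (-fun i : Fin (m + 1) => Real.log Λ * ∑ l with i ≤ l.castSucc, (s l : ℝ))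
    (D := Real.log Λ * ((∑ i, s i : ℤ) : ℝ)) (fun i j => by
      simp only [Pi.neg_apply]
      have h1 : (∑ l with j ≤ l.castSucc, (s l : ℝ)) ≤ ((∑ i, s i : ℤ) : ℝ) := by
        rw [Int.cast_sum]
        exact Finset.sum_le_sum_of_subset_of_nonneg (Finset.filter_subset _ _) fun i _ _ => hsr i
      have h2 : 0 ≤ ∑ l with i ≤ l.castSucc, (s l : ℝ) := Finset.sum_nonneg fun l _ => hsr l
      have h3 := mul_le_mul_of_nonneg_left h1 hl
      have h4 := mul_nonneg hl h2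
      linarith) y
  rwa [mul_comm (bet (m + 1)), Real.exp_mul, i8_exp hΛ] at h

end Pool.Agent.Lib.MP_41a456_al.TC
end

section

/-!
# MP_41a456_al, Theorem TC, I9: the bound for one line (paper 521, (9.1))

Paper 521, section 9, `n = m + 1`.
`N = sh_0 - 2 p + 1`, `s` with `s_0 = p`, `p ≤ s_i ≤ sh_i - p`. `forward_finite` for `E r`, `v* = vs Λ s (v r x)`,
`y = (bb s)⁻¹ • y0 r`, `B = ⌈Λ^{∑ s_i} exp (C η t)⌉ + 1`, `Λ^{∑ s_i} = exp (log Λ (p + ∑_{i ≥ 1} s_i)) ≤ exp ((1 + m C) η t)`,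
`P = ⌊exp (C η t)⌋` (`mult` with `vs_close`: `N + p = sh_0 - p + 1`), `alf y ≤ exp (C3 η t)` (`alf_bb_le`). Divide by
`|E r| N log Λ`: with `N log Λ = (m+1) t (1 + O(η))` (`|·| ≤ (C + 2) η t + log Λ`),
`log |E r| ≥ (m (m+1) - 1 - C η) t`: the right hand side is at most
`m - (m (m+1) - 1 - C η) t / (N log Λ) + C4 η + (log 4) / log Λ + o(1) ≤ 1/(m+1) + C5 η + (log 4) / log Λ + o(1)`.
The number of `l < N` with a type is at most `TT + L`, and `L / N → 0`. `log 4 / log Λ ≤ 1/(100 (m+1))`,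
`C5 η ≤ 1/(100 (m+1))`.
-/

namespace Pool.Agent.Lib.MP_41a456_al.TC

open Matrix MeasureTheory Filter Topology Pool.Agent.Lib.MP_41a456_al

private theorem i9_arith {m w a t η C1 K1 K2 lΛ k1 k2 lE lP lB lZ N4 L9 : ℝ} (hm : 2 ≤ m)
    (hw : (m + 1) * w = 1) (hw0 : 0 < w) (ht : 0 ≤ t) (hη : 0 < η) (hC1 : 0 ≤ C1) (hl : 0 ≤ lΛ)
    (h1 : a ≤ (m + 1) * t + C1 * η * t + lΛ) (h2 : (m + 1) * t - (C1 + 2) * η * t ≤ a)
    (hE : (m * (m + 1) - 1) * t - C1 * η * t ≤ lE) (hP : lP ≤ C1 * η * t)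
    (hB : lB ≤ k1 + K1 * η * t) (hZ : lZ ≤ k2 + K2 * η * t) (h4 : N4 ≤ a * w / 100)
    (hη1 : (C1 + 2) * η ≤ m) (hη2 : (m * C1 + 2 * C1 + m * K1 + K2) * η ≤ w / 100)
    (hc : m * lΛ + m * k1 + k2 + L9 ≤ a * w / 100) :
    m * a - lE + lP + m * lB + N4 + lZ + L9 ≤ a * ((1 + 1 / 25) * w) := by
  have hta : t ≤ a := by
    have e := mul_le_mul_of_nonneg_right hη1 ht
    linarith
  have hwm : 0 ≤ m - w := by nlinarith
  have hct : 0 ≤ C1 * η * t := by positivity
  have e1 : (m - w) * (a - C1 * η * t - lΛ) ≤ (m - w) * ((m + 1) * t) :=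
    mul_le_mul_of_nonneg_left (by linarith) hwm
  have e2 : (m - w) * ((m + 1) * t) = (m * (m + 1) - 1) * t := by
    linear_combination (-t) * hw
  have e3 : (m - w) * (C1 * η * t + lΛ) ≤ m * (C1 * η * t + lΛ) :=
    mul_le_mul_of_nonneg_right (by linarith) (by linarith)
  have e4 : (m * C1 + 2 * C1 + m * K1 + K2) * η * t ≤ w / 100 * a :=
    (mul_le_mul_of_nonneg_right hη2 ht).trans (mul_le_mul_of_nonneg_left hta (by positivity))
  have e5 : m * lB ≤ m * (k1 + K1 * η * t) := mul_le_mul_of_nonneg_left hB (by linarith)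
  have e6 : 0 ≤ a * w := mul_nonneg (ht.trans hta) hw0.le
  nlinarith

private theorem i9_zpow {Λ : ℕ} (hΛ : 1 ≤ Λ) (k : ℤ) :
    (Λ : ℝ) ^ k = Real.exp (k * Real.log Λ) := by
  have h0 : (0 : ℝ) < Λ := by exact_mod_cast hΛ
  rw [← Real.rpow_intCast, Real.rpow_def_of_pos h0, mul_comm]

/-- the logarithm of the height term -/
private theorem i9_logmax {U M u : ℝ} (hM : 0 < M) (hu : 0 ≤ u) (hU : U ≤ Real.exp u) :
    Real.log (max U M / M) ≤ u + |Real.log M| := by
  have h0 : 0 < max U M / M := div_pos (lt_max_of_lt_right hM) hM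
  rw [Real.log_le_iff_le_exp h0, div_le_iff₀ hM]
  have h1 : Real.exp (u + |Real.log M|) * M = Real.exp (u + |Real.log M| + Real.log M) := by
    rw [Real.exp_add (u + |Real.log M|), Real.exp_log hM]
  rw [h1]
  refine max_le (hU.trans (Real.exp_le_exp.2 ?_)) ?_
  · have := neg_abs_le (Real.log M)
    linarith
  · have h2 : M = Real.exp (Real.log M) := (Real.exp_log hM).symm
    calc M = Real.exp (Real.log M) := h2
      _ ≤ _ := Real.exp_le_exp.2 (by
        have := abs_nonneg (Real.log M)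
        linarith)

open Classical in
/-- the sum over the levels -/
private theorem i9_levels {m : ℕ} (Λ L : ℕ) (d M : ℝ) (S : Fin m → Set (X (m + 1)))
    (y : X (m + 1)) (N : ℕ) (v : Fin m → ℝ) :
    ∑ l ∈ Finset.range N, (9 / 10 * (if TE Λ L d S (zz Λ y l v) then (1 : ℝ) else 0) +
      1 / 2 * (if 2 ^ (bet (m + 1)) * (M * Real.sqrt Λ) ≤ alf (zz Λ y l v) then (1 : ℝ) else 0)) ≤
      9 / 10 * ((TT Λ L d S y N v : ℝ) + L) + 1 / 2 * (KK Λ M y N v : ℝ) := by
  have h1 : ((Finset.range N).filter fun l => TE Λ L d S (zz Λ y l v)) ⊆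
      ((Finset.range N).filter fun l => l + L ≤ N ∧ TE Λ L d S (zz Λ y l v)) ∪
        Finset.Ico (N + 1 - L) N := by
    intro l hl
    rw [Finset.mem_filter, Finset.mem_range] at hl
    rw [Finset.mem_union, Finset.mem_filter, Finset.mem_range, Finset.mem_Ico]
    by_cases h : l + L ≤ N
    · exact Or.inl ⟨hl.1, h, hl.2⟩
    · exact Or.inr ⟨by omega, hl.1⟩
  have h2 : (((Finset.range N).filter fun l => TE Λ L d S (zz Λ y l v)).card : ℝ) ≤
      (TT Λ L d S y N v : ℝ) + L := by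
    have h3 := (Finset.card_le_card h1).trans (Finset.card_union_le _ _)
    rw [Nat.card_Ico] at h3
    have h4 : ((Finset.range N).filter fun l => TE Λ L d S (zz Λ y l v)).card ≤
        TT Λ L d S y N v + L := by
      refine h3.trans ?_
      unfold TT
      omega
    exact_mod_cast h4
  rw [Finset.sum_add_distrib, ← Finset.mul_sum, ← Finset.mul_sum, Finset.sum_boole,
    Finset.sum_boole]
  unfold KK
  have h5 := mul_le_mul_of_nonneg_left h2 (by norm_num : (0 : ℝ) ≤ 9 / 10)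
  linarith

open Classical in
theorem line_bound {m : ℕ} (hm : 2 ≤ m) {Λ : ℕ} (hΛ : 2 ^ 40 ≤ Λ)
    (hΛ2 : Real.log 4 / Real.log Λ ≤ 1 / (100 * (m + 1))) {D : ℝ} (hD : 0 < D) (hM : Marg m Λ D)
    (C : ℝ) : ∃ η0 : ℝ, 0 < η0 ∧ ∀ η : ℝ, 0 < η → η ≤ η0 →
    ∀ (t : ℕ → ℝ) (sh : ℕ → Fin m → ℤ) (p : ℕ → ℤ) (E : ℕ → Finset (SLn (m + 1)))
      (v : ℕ → SLn (m + 1) → Fin m → ℝ) (y0 : ℕ → X (m + 1)), FSys m Λ η C t sh p E v y0 →
    ∀ (eps M1 : ℝ), 0 < eps → eps ≤ 1 → 0 < M1 → ∃ L0 : ℕ, 1 ≤ L0 ∧ ∀ L : ℕ, L0 ≤ L →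
      ∃ M2 : ℝ, ∀ S : Fin m → Set (X (m + 1)), (∀ j, Star Λ eps j (S j)) →
      (∀ j, ∀ z ∈ S j, alf z ≤ M1) →
      ∀ᶠ r in atTop, ∀ i0 : Fin m, (i0 : ℕ) = 0 → ∀ s ∈ BB (sh r) (p r), s i0 = p r →
      ∑ x ∈ E r, ∑ l ∈ Finset.range (sh r i0 - 2 * p r + 1).toNat,
        (9 / 10 * (if TE Λ L (tol m) S (yh Λ (v r x) (y0 r)
            (fun i => s i + if (i : ℕ) = 0 then (l : ℤ) else 0)) then (1 : ℝ) else 0) +
          1 / 2 * (if M2 ≤ alf (yh Λ (v r x) (y0 r)
            (fun i => s i + if (i : ℕ) = 0 then (l : ℤ) else 0)) then (1 : ℝ) else 0)) ≤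
        (E r).card * ((sh r i0 - 2 * p r + 1 : ℤ) : ℝ) * ((1 + 1 / 25) / (m + 1)) := by
  have hb0 : 0 ≤ bet (m + 1) := (A5.bet_pos (Nat.succ_pos m)).le
  have hm' : (2 : ℝ) ≤ m := by exact_mod_cast hm
  have hΛ1 : 1 ≤ Λ := le_trans (by norm_num) hΛ
  have hΛr : (2 : ℝ) ^ 40 ≤ (Λ : ℝ) := by exact_mod_cast hΛ
  have hΛ0 : (0 : ℝ) < (Λ : ℝ) := lt_of_lt_of_le (by norm_num) hΛr
  have hΛone : (1 : ℝ) < (Λ : ℝ) := lt_of_lt_of_le (by norm_num) hΛr
  have hlog : 0 < Real.log Λ := Real.log_pos hΛone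
  obtain ⟨β, hβ⟩ : ∃ β, β = bet (m + 1) := ⟨_, rfl⟩
  obtain ⟨C1, hC1⟩ : ∃ C1, C1 = max C 0 := ⟨_, rfl⟩
  have hC10 : 0 ≤ C1 := by rw [hC1]; exact le_max_right _ _
  have hCC : C ≤ C1 := by rw [hC1]; exact le_max_left _ _
  obtain ⟨K1, hK1⟩ : ∃ K1, K1 = 1 + (m + 1) * C1 := ⟨_, rfl⟩
  obtain ⟨K2, hK2⟩ : ∃ K2, K2 = β * K1 + β * (1 + m * C1) + C1 := ⟨_, rfl⟩
  have hβ0 : 0 ≤ β := by rw [hβ]; exact hb0
  have hK10 : 0 ≤ K1 := by rw [hK1]; positivity
  have hK20 : 0 ≤ K2 := by rw [hK2]; positivity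
  obtain ⟨K, hK⟩ : ∃ K, K = m * C1 + 2 * C1 + m * K1 + K2 := ⟨_, rfl⟩
  have hK0 : 0 ≤ K := by rw [hK]; positivity
  obtain ⟨w, hw⟩ : ∃ w : ℝ, w = 1 / (m + 1) := ⟨_, rfl⟩
  have hw1 : ((m : ℝ) + 1) * w = 1 := by
    rw [hw]
    field_simp
  have hw0 : 0 < w := by rw [hw]; positivity
  refine ⟨min (m / (C1 + 2)) (w / 100 / (K + 1)), lt_min (by positivity) (by positivity), ?_⟩
  intro η hη hη0 t sh p E v y0 hF eps M1 he he1 hM1
  have hη1 : (C1 + 2) * η ≤ m := by
    have h1 := hη0.trans (min_le_left _ _)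
    rw [le_div_iff₀ (by positivity)] at h1
    linarith
  have hη2 : K * η ≤ w / 100 := by
    have h1 := hη0.trans (min_le_right _ _)
    rw [le_div_iff₀ (by positivity)] at h1
    nlinarith
  obtain ⟨L0, hL01, hff⟩ := forward_finite hm hΛ hD hM he he1
  refine ⟨L0, hL01, ?_⟩
  intro L hL
  obtain ⟨M, hMd⟩ : ∃ M, M = max D (2 ^ (bet (m + 1)) * M1) := ⟨_, rfl⟩
  have hDM : D ≤ M := by rw [hMd]; exact le_max_left _ _
  have hMM1 : 2 ^ (bet (m + 1)) * M1 ≤ M := by rw [hMd]; exact le_max_right _ _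
  have hM0 : 0 < M := lt_of_lt_of_le hD hDM
  refine ⟨2 ^ (bet (m + 1)) * (M * Real.sqrt Λ), ?_⟩
  intro S hS hS1
  obtain ⟨k2, hk2⟩ : ∃ k2, k2 = β * Real.log 3 + |Real.log M| := ⟨_, rfl⟩
  obtain ⟨T0, hT0⟩ : ∃ T0, T0 = max 0 ((m * Real.log Λ + m * Real.log 4 + k2 +
    9 / 10 * L * Real.log Λ) * 100 / w) := ⟨_, rfl⟩
  filter_upwards [hF.ht.eventually_ge_atTop T0, hF.hp.eventually_ge_atTop 0] with r hr1 hr2
  intro i0 hi0 s hs hsi0
  have ht0 : 0 ≤ t r := by
    refine le_trans ?_ hr1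
    rw [hT0]
    exact le_max_left _ _
  have hηt : 0 ≤ η * t r := by positivity
  have hCt : C * η * t r ≤ C1 * η * t r := by
    rw [mul_assoc, mul_assoc]
    exact mul_le_mul_of_nonneg_right hCC hηt
  have hs' : ∀ i, p r ≤ s i ∧ s i ≤ sh r i - p r := by
    intro i
    unfold BB at hs
    rw [Fintype.mem_piFinset] at hs
    exact Finset.mem_Icc.1 (hs i)
  have hside := hF.side r i0
  -- the number of levels
  obtain ⟨N, hN⟩ : ∃ N : ℕ, N = (sh r i0 - 2 * p r + 1).toNat := ⟨_, rfl⟩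
  have hNz : (N : ℤ) = sh r i0 - 2 * p r + 1 := by
    rw [hN]
    exact Int.toNat_of_nonneg (by omega)
  have hNr : (N : ℝ) = (sh r i0 : ℝ) - 2 * (p r : ℝ) + 1 := by
    have : ((N : ℤ) : ℝ) = ((sh r i0 - 2 * p r + 1 : ℤ) : ℝ) := by rw [hNz]
    push_cast at this
    exact this
  have hNr' : ((sh r i0 - 2 * p r + 1 : ℤ) : ℝ) = N := by
    rw [← hNz]
    push_cast
    rfl
  have hp0 : (0 : ℝ) ≤ (p r : ℝ) := by exact_mod_cast hr2
  have hpl : (p r : ℝ) * Real.log Λ ≤ η * t r := hF.p_le r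
  have hpl0 : 0 ≤ (p r : ℝ) * Real.log Λ := by positivity
  have hsh := hF.sh0 r i0 hi0
  rw [abs_le] at hsh
  -- the set E
  have hEc : (0 : ℝ) < ((E r).card : ℝ) := lt_of_lt_of_le (Real.exp_pos _) (hF.card r)
  have hEne : (E r).Nonempty := by
    rw [← Finset.card_pos]
    exact_mod_cast hEc
  have hEl : (m * (m + 1) - 1) * t r - C1 * η * t r ≤ Real.log ((E r).card : ℝ) := by
    have h1 := Real.log_le_log (Real.exp_pos _) (hF.card r)
    rw [Real.log_exp] at h1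
    have h2 : (m * (m + 1) - 1 - C * η) * t r = (m * (m + 1) - 1) * t r - C * η * t r := by ring
    rw [h2] at h1
    linarith
  -- the sum of the s_i
  have hsum : ((∑ i, s i : ℤ) : ℝ) * Real.log Λ ≤ (1 + m * C1) * η * t r := by
    push_cast
    rw [Finset.sum_mul]
    have h1 : ∀ i : Fin m, (s i : ℝ) * Real.log Λ ≤
        (if i = i0 then η * t r else 0) + C1 * η * t r := by
      intro i
      have hct : 0 ≤ C1 * η * t r := by positivity
      by_cases hi : i = i0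
      · rw [if_pos hi, hi, hsi0]
        linarith
      · rw [if_neg hi, zero_add]
        have hi' : (i : ℕ) ≠ 0 := fun h => hi (Fin.ext (h.trans hi0.symm))
        have h2 := hF.shi r i hi'
        have h3 : (s i : ℝ) ≤ (sh r i : ℝ) := by
          have := (hs' i).2
          exact_mod_cast (by omega : s i ≤ sh r i)
        have h4 := mul_le_mul_of_nonneg_right h3 hlog.le
        linarith
    refine (Finset.sum_le_sum fun i _ => h1 i).trans (le_of_eq ?_)
    rw [Finset.sum_add_distrib, Finset.sum_ite_eq' Finset.univ i0, if_pos (Finset.mem_univ _),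
      Finset.sum_const, Finset.card_univ, Fintype.card_fin, nsmul_eq_mul]
    ring
  have hzp : (Λ : ℝ) ^ (∑ i, s i) ≤ Real.exp ((1 + m * C1) * η * t r) := by
    rw [i9_zpow hΛ1]
    exact Real.exp_le_exp.2 hsum
  -- the base point
  obtain ⟨y, hy⟩ : ∃ y : X (m + 1), y = (bb Λ s)⁻¹ • y0 r := ⟨_, rfl⟩
  have hs0 : ∀ i, 0 ≤ s i := fun i => hr2.trans (hs' i).1
  have halfy : alf y ≤ Real.exp ((β * (1 + m * C1) + C1) * η * t r) := by
    rw [hy]
    refine (alf_bb_le hΛ1 s hs0 (y0 r)).trans ?_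
    rw [← hβ]
    have h1 : ((Λ : ℝ) ^ (∑ i, s i)) ^ β ≤ Real.exp (β * ((1 + m * C1) * η * t r)) := by
      refine (Real.rpow_le_rpow (by positivity) hzp hβ0).trans (le_of_eq ?_)
      rw [← Real.exp_mul, mul_comm]
    have h2 : alf (y0 r) ≤ Real.exp (C1 * η * t r) :=
      (hF.hy0 r).trans (Real.exp_le_exp.2 hCt)
    refine (mul_le_mul h1 h2 (alf_pos (Nat.succ_pos m) _).le (Real.exp_pos _).le).trans
      (le_of_eq ?_)
    rw [← Real.exp_add]
    congr 1
    ring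
  -- the box
  obtain ⟨x1, hx1⟩ : ∃ x1, x1 = K1 * η * t r := ⟨_, rfl⟩
  have hx10 : 0 ≤ x1 := by rw [hx1]; positivity
  have hX1 : 1 ≤ Real.exp x1 := Real.one_le_exp hx10
  have hvs : ∀ x ∈ E r, ∀ j, |vs Λ s (v r x) j| ≤ Real.exp x1 := by
    intro x hx j
    refine (abs_vs_le hΛ1 s hs0 (v r x) j).trans ?_
    have h2 : |v r x j| ≤ Real.exp (C1 * η * t r) :=
      (hF.hv r x hx j).trans (Real.exp_le_exp.2 hCt)
    refine (mul_le_mul hzp h2 (abs_nonneg _) (Real.exp_pos _).le).trans (le_of_eq ?_)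
    rw [← Real.exp_add, hx1, hK1]
    congr 1
    ring
  obtain ⟨B, hB⟩ : ∃ B : ℕ, B = ⌊Real.exp x1⌋₊ + 1 := ⟨_, rfl⟩
  have hBlt : Real.exp x1 < B := by
    rw [hB]
    push_cast
    exact Nat.lt_floor_add_one _
  have hBle : (B : ℝ) ≤ 2 * Real.exp x1 := by
    rw [hB]
    push_cast
    have := Nat.floor_le (Real.exp_pos x1).le
    linarith
  have hB1 : 1 ≤ B := by omega
  have hB0 : (0 : ℝ) < B := by exact_mod_cast hB1
  -- the multiplicity
  obtain ⟨P, hP⟩ : ∃ P : ℕ, P = ⌊Real.exp (C1 * η * t r)⌋₊ := ⟨_, rfl⟩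
  have hct0 : 0 ≤ C1 * η * t r := by positivity
  have hP1 : 1 ≤ P := by
    rw [hP]
    exact Nat.le_floor (by push_cast; exact Real.one_le_exp hct0)
  have hP0 : (0 : ℝ) < P := by exact_mod_cast hP1
  have hPle : (P : ℝ) ≤ Real.exp (C1 * η * t r) := by
    rw [hP]
    exact Nat.floor_le (Real.exp_pos _).le
  have hmain := hff L hL M M1 hM1 hDM hMM1 S hS hS1 y B N P hB1 hP1 (E r)
    (fun x => vs Λ s (v r x)) hEne (by
      intro x hx j
      have h1 := abs_le.1 (hvs x hx j)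
      exact ⟨by linarith [h1.1], by linarith [h1.2]⟩) (by
      intro q
      rcases ((E r).filter fun x => qf Λ N (vs Λ s (v r x)) = q).eq_empty_or_nonempty with h0 | h0
      · rw [h0, Finset.card_empty]
        exact Nat.zero_le _
      · obtain ⟨x, hx⟩ := h0
        rw [hP]
        refine Nat.le_floor ?_
        refine (hF.mult r _ (Finset.filter_subset _ _) x hx ?_).trans (Real.exp_le_exp.2 hCt)
        intro x' hx' i hi j
        have hii : i = i0 := Fin.ext (hi.trans hi0.symm)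
        rw [Finset.mem_filter] at hx hx'
        have h1 := vs_close hΛ1 hr2 (fun i => (hs' i).1) (hx.2.trans hx'.2.symm) j
        refine le_trans ?_ h1
        refine mul_le_mul_of_nonneg_left ?_ (abs_nonneg _)
        rw [hii]
        exact zpow_le_zpow_right₀ hΛone.le (by omega))
  -- the logarithms
  have hlB : Real.log (2 * B) ≤ Real.log 4 + K1 * η * t r := by
    have h1 : (2 * B : ℝ) ≤ 4 * Real.exp x1 := by linarith
    have h2 := Real.log_le_log (by positivity) h1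
    rw [Real.log_mul (by norm_num) (Real.exp_pos _).ne', Real.log_exp, hx1] at h2
    exact h2
  have hlP : Real.log P ≤ C1 * η * t r := by
    have h2 := Real.log_le_log hP0 hPle
    rwa [Real.log_exp] at h2
  have hlZ : Real.log (max ((1 + B) ^ (bet (m + 1)) * alf y) M / M) ≤ k2 + K2 * η * t r := by
    have hlog3 : 0 ≤ Real.log 3 := Real.log_nonneg (by norm_num)
    have h1 : (1 + (B : ℝ)) ^ (bet (m + 1)) ≤ Real.exp (β * (Real.log 3 + x1)) := by
      have h2 : 1 + (B : ℝ) ≤ Real.exp (Real.log 3 + x1) := by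
        rw [Real.exp_add, Real.exp_log (by norm_num)]
        linarith
      refine (Real.rpow_le_rpow (by positivity) h2 hb0).trans (le_of_eq ?_)
      rw [← Real.exp_mul, ← hβ, mul_comm]
    have h3 : (1 + (B : ℝ)) ^ (bet (m + 1)) * alf y ≤
        Real.exp (β * (Real.log 3 + x1) + (β * (1 + m * C1) + C1) * η * t r) := by
      rw [Real.exp_add]
      exact mul_le_mul h1 halfy (alf_pos (Nat.succ_pos m) _).le (Real.exp_pos _).le
    refine (i9_logmax hM0 (by positivity) h3).trans (le_of_eq ?_)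
    rw [hk2, hK2, hx1]
    ring
  -- the numbers
  have ha0 : (N : ℝ) * Real.log Λ = (sh r i0 : ℝ) * Real.log Λ - 2 * ((p r : ℝ) * Real.log Λ) +
      Real.log Λ := by
    rw [hNr]
    ring
  have ha1 : (N : ℝ) * Real.log Λ ≤ (m + 1) * t r + C1 * η * t r + Real.log Λ := by
    rw [ha0]
    linarith [hsh.2]
  have ha2 : ((m : ℝ) + 1) * t r - (C1 + 2) * η * t r ≤ N * Real.log Λ := by
    rw [ha0]
    have e : (C1 + 2) * η * t r = C1 * η * t r + 2 * (η * t r) := by ring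
    rw [e]
    linarith [hsh.1]
  have hta : t r ≤ N * Real.log Λ := by
    have e := mul_le_mul_of_nonneg_right hη1 ht0
    linarith
  have h4 : (N : ℝ) * Real.log 4 ≤ (N * Real.log Λ) * w / 100 := by
    have h1 : Real.log 4 ≤ w / 100 * Real.log Λ := by
      have h2 := (div_le_iff₀ hlog).1 hΛ2
      have h3 : (1 : ℝ) / (100 * (m + 1)) = w / 100 := by
        rw [hw]
        field_simp
      rwa [h3] at h2
    have h2 := mul_le_mul_of_nonneg_left h1 (Nat.cast_nonneg (α := ℝ) N)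
    linarith
  have hc : (m : ℝ) * Real.log Λ + m * Real.log 4 + k2 + 9 / 10 * L * Real.log Λ ≤
      (N * Real.log Λ) * w / 100 := by
    have h1 : (m * Real.log Λ + m * Real.log 4 + k2 + 9 / 10 * L * Real.log Λ) * 100 / w ≤
        N * Real.log Λ := by
      refine le_trans ?_ (hr1.trans hta)
      rw [hT0]
      exact le_max_right _ _
    rw [div_le_iff₀ hw0] at h1
    linarith
  have hfin := i9_arith (m := (m : ℝ)) (K1 := K1) (K2 := K2) (L9 := 9 / 10 * L * Real.log Λ) hm'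
    hw1 hw0 ht0 hη hC10 hlog.le ha1 ha2 hEl hlP hlB hlZ h4 hη1 (by rw [← hK]; exact hη2) hc
  -- the left side
  have hleft : ∀ x ∈ E r, ∑ l ∈ Finset.range (sh r i0 - 2 * p r + 1).toNat,
        (9 / 10 * (if TE Λ L (tol m) S (yh Λ (v r x) (y0 r)
            (fun i => s i + if (i : ℕ) = 0 then (l : ℤ) else 0)) then (1 : ℝ) else 0) +
          1 / 2 * (if 2 ^ (bet (m + 1)) * (M * Real.sqrt Λ) ≤ alf (yh Λ (v r x) (y0 r)
            (fun i => s i + if (i : ℕ) = 0 then (l : ℤ) else 0)) then (1 : ℝ) else 0)) ≤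
      9 / 10 * L + (9 / 10 * (TT Λ L (tol m) S y N (vs Λ s (v r x)) : ℝ) +
        1 / 2 * (KK Λ M y N (vs Λ s (v r x)) : ℝ)) := by
    intro x _
    rw [← hN]
    have h1 := i9_levels Λ L (tol m) M S y N (vs Λ s (v r x))
    have h2 : ∀ l : ℕ, yh Λ (v r x) (y0 r) (fun i => s i + if (i : ℕ) = 0 then (l : ℤ) else 0) =
        zz Λ y l (vs Λ s (v r x)) := by
      intro l
      rw [hy]
      exact yh_line (by omega) hΛ1 s (v r x) (y0 r) l
    simp only [h2]
    linarith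
  refine (Finset.sum_le_sum hleft).trans ?_
  rw [Finset.sum_add_distrib, Finset.sum_const, nsmul_eq_mul, hNr']
  have hw2 : (1 + 1 / 25 : ℝ) / (m + 1) = (1 + 1 / 25) * w := by
    rw [hw]
    ring
  rw [hw2]
  refine le_of_mul_le_mul_right ?_ hlog
  rw [add_mul]
  have h6 : ((E r).card : ℝ) * (9 / 10 * L) * Real.log Λ +
      (E r).card * (m * N * Real.log Λ - Real.log (E r).card + Real.log P + m * Real.log (2 * B) +
          N * Real.log 4 + Real.log (max ((1 + B) ^ (bet (m + 1)) * alf y) M / M)) ≤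
      (E r).card * ((N * Real.log Λ) * ((1 + 1 / 25) * w)) := by
    have h7 := mul_le_mul_of_nonneg_left hfin hEc.le
    refine le_trans (le_of_eq ?_) h7
    ring
  refine (add_le_add_right hmain _).trans (h6.trans (le_of_eq ?_))
  ring

end Pool.Agent.Lib.MP_41a456_al.TC
end

section

/-!
# MP_41a456_al, Theorem TC, I10: frequencies in a forward system (paper 521, (9.1))

Paper 521, section 9, `n = m + 1`.
Sum `line_bound` over all `s ∈ BB` with `s_0 = p` (every `s ∈ BB` is uniquely of the form `s' + l e_0`, `s'_0 = p`,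
`0 ≤ l < N`), divide by `|E r| |BB|`.
-/

namespace Pool.Agent.Lib.MP_41a456_al.TC

open Matrix MeasureTheory Filter Topology Pool.Agent.Lib.MP_41a456_al

open Classical in
private theorem frq_eq_sum {ι Z : Type*} (F : Finset ι) (z : ι → Z) (P : Z → Prop) :
    frq F z {y | P y} = (∑ i ∈ F, if P (z i) then (1 : ℝ) else 0) / F.card := by
  unfold frq
  rw [Finset.sum_boole]
  rfl

/-- every element of the box lies on exactly one line -/
private theorem sum_lines {m : ℕ} (sh : Fin m → ℤ) (p : ℤ) (i0 : Fin m) (hi0 : (i0 : ℕ) = 0)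
    (hp : 0 ≤ p) (hsh : 4 * p ≤ sh i0) (g : (Fin m → ℤ) → ℝ) :
    ∑ s ∈ BB sh p, g s = ∑ s ∈ (BB sh p).filter (fun s => s i0 = p),
      ∑ l ∈ Finset.range (sh i0 - 2 * p + 1).toNat,
        g (fun i => s i + if (i : ℕ) = 0 then (l : ℤ) else 0) := by
  have hmem : ∀ s : Fin m → ℤ, s ∈ BB sh p ↔ ∀ i, p ≤ s i ∧ s i ≤ sh i - p := by
    intro s
    simp [BB, Fintype.mem_piFinset]
  have hi : ∀ i : Fin m, (i : ℕ) = 0 ↔ i = i0 := by
    intro i
    rw [Fin.ext_iff, hi0]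
  rw [← Finset.sum_product']
  symm
  refine Finset.sum_nbij' (fun q => fun i => q.1 i + if (i : ℕ) = 0 then (q.2 : ℤ) else 0)
    (fun s => (Function.update s i0 p, (s i0 - p).toNat)) ?_ ?_ ?_ ?_ ?_
  · rintro ⟨s, l⟩ h
    rw [Finset.mem_product, Finset.mem_filter, hmem, Finset.mem_range] at h
    obtain ⟨⟨h1, h2⟩, h3⟩ := h
    rw [hmem]
    intro i
    dsimp only at h1 h2 h3 ⊢
    by_cases h0 : (i : ℕ) = 0
    · have h4 := (hi i).1 h0
      rw [if_pos h0, h4, h2]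
      omega
    · rw [if_neg h0, add_zero]
      exact h1 i
  · intro s h
    rw [hmem] at h
    rw [Finset.mem_product, Finset.mem_filter, hmem, Finset.mem_range]
    have h0 := h i0
    refine ⟨⟨?_, ?_⟩, ?_⟩
    · intro i
      by_cases h1 : i = i0
      · subst h1
        simp only [Function.update_self]
        omega
      · simp only [Function.update_of_ne h1]
        exact h i
    · simp
    · simp only
      omega
  · rintro ⟨s, l⟩ h
    rw [Finset.mem_product, Finset.mem_filter, hmem, Finset.mem_range] at h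
    obtain ⟨⟨h1, h2⟩, h3⟩ := h
    dsimp only at h1 h2 h3 ⊢
    rw [Prod.mk.injEq]
    refine ⟨?_, ?_⟩
    · funext i
      by_cases h4 : i = i0
      · subst h4
        simp only [Function.update_self]
        exact h2.symm
      · simp only [Function.update_of_ne h4]
        rw [if_neg (fun h5 => h4 ((hi i).1 h5)), add_zero]
    · rw [if_pos hi0, h2]
      omega
  · intro s h
    rw [hmem] at h
    dsimp only
    funext i
    by_cases h4 : i = i0
    · subst h4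
      rw [if_pos hi0]
      simp only [Function.update_self]
      have := h i
      omega
    · rw [if_neg (fun h5 => h4 ((hi i).1 h5)), add_zero]
      simp only [Function.update_of_ne h4]
  · rintro ⟨s, l⟩ h
    rfl

theorem forward_frq {m : ℕ} (hm : 2 ≤ m) {Λ : ℕ} (hΛ : 2 ^ 40 ≤ Λ)
    (hΛ2 : Real.log 4 / Real.log Λ ≤ 1 / (100 * (m + 1))) {D : ℝ} (hD : 0 < D) (hM : Marg m Λ D)
    (C : ℝ) : ∃ η0 : ℝ, 0 < η0 ∧ ∀ η : ℝ, 0 < η → η ≤ η0 →
    ∀ (t : ℕ → ℝ) (sh : ℕ → Fin m → ℤ) (p : ℕ → ℤ) (E : ℕ → Finset (SLn (m + 1)))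
      (v : ℕ → SLn (m + 1) → Fin m → ℝ) (y0 : ℕ → X (m + 1)), FSys m Λ η C t sh p E v y0 →
    ∀ (eps M1 : ℝ), 0 < eps → eps ≤ 1 → 0 < M1 → ∃ L0 : ℕ, 1 ≤ L0 ∧ ∀ L : ℕ, L0 ≤ L →
      ∃ M2 : ℝ, ∀ S : Fin m → Set (X (m + 1)), (∀ j, Star Λ eps j (S j)) →
      (∀ j, ∀ z ∈ S j, alf z ≤ M1) →
      ∀ᶠ r in atTop,
        9 / 10 * frq (fam sh p E r) (fpt Λ v y0 r) {z | TE Λ L (tol m) S z} +
          1 / 2 * frq (fam sh p E r) (fpt Λ v y0 r) {z | M2 ≤ alf z} ≤ (1 + 1 / 25) / (m + 1) := by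
  obtain ⟨η0, hη0, H⟩ := line_bound hm hΛ hΛ2 hD hM C
  refine ⟨η0, hη0, ?_⟩
  intro η hη hη2 t sh p E v y0 hF eps M1 heps heps1 hM1
  obtain ⟨L0, hL0, H1⟩ := H η hη hη2 t sh p E v y0 hF eps M1 heps heps1 hM1
  refine ⟨L0, hL0, ?_⟩
  intro L hL
  obtain ⟨M2, H2⟩ := H1 L hL
  refine ⟨M2, ?_⟩
  intro S hS hSM
  have hppos : ∀ᶠ r in atTop, 0 ≤ p r := hF.hp.eventually_ge_atTop 0
  filter_upwards [H2 S hS hSM, hppos] with r hr hp0
  classical
  obtain ⟨i0, hi0⟩ : ∃ i0 : Fin m, (i0 : ℕ) = 0 := ⟨⟨0, by omega⟩, rfl⟩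
  obtain ⟨c, hc⟩ : ∃ c : ℝ, c = (1 + 1 / 25) / ((m : ℝ) + 1) := ⟨_, rfl⟩
  have hc0 : 0 ≤ c := by
    rw [hc]
    positivity
  rw [← hc]
  have hr0 := hr i0 hi0
  rw [← hc] at hr0
  have hside := hF.side r i0
  rw [frq_eq_sum, frq_eq_sum]
  have hN : (((sh r i0 - 2 * p r + 1).toNat : ℕ) : ℝ) = ((sh r i0 - 2 * p r + 1 : ℤ) : ℝ) := by
    have h1 : (((sh r i0 - 2 * p r + 1).toNat : ℕ) : ℤ) = sh r i0 - 2 * p r + 1 :=
      Int.toNat_of_nonneg (by omega)
    exact_mod_cast congrArg (fun z : ℤ => (z : ℝ)) h1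
  have hBB : ((BB (sh r) (p r)).card : ℝ) =
      (((BB (sh r) (p r)).filter (fun s => s i0 = p r)).card : ℝ) *
        ((sh r i0 - 2 * p r + 1 : ℤ) : ℝ) := by
    have h1 := sum_lines (sh r) (p r) i0 hi0 hp0 hside (fun _ => (1 : ℝ))
    simp only [Finset.sum_const, Finset.card_range, nsmul_eq_mul, mul_one] at h1
    rw [h1, hN]
  have htot : ∑ q ∈ fam sh p E r,
      (9 / 10 * (if TE Λ L (tol m) S (fpt Λ v y0 r q) then (1 : ℝ) else 0) +
        1 / 2 * (if M2 ≤ alf (fpt Λ v y0 r q) then (1 : ℝ) else 0)) ≤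
      ((fam sh p E r).card : ℝ) * c := by
    unfold fam fpt
    rw [Finset.sum_product, Finset.sum_comm]
    rw [sum_lines (sh r) (p r) i0 hi0 hp0 hside]
    rw [Finset.card_product, Nat.cast_mul, hBB]
    have hle : ∀ s ∈ (BB (sh r) (p r)).filter (fun s => s i0 = p r),
        ∑ l ∈ Finset.range (sh r i0 - 2 * p r + 1).toNat, ∑ x ∈ E r,
        (9 / 10 * (if TE Λ L (tol m) S (yh Λ (v r x) (y0 r)
            (fun i => s i + if (i : ℕ) = 0 then (l : ℤ) else 0)) then (1 : ℝ) else 0) +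
          1 / 2 * (if M2 ≤ alf (yh Λ (v r x) (y0 r)
            (fun i => s i + if (i : ℕ) = 0 then (l : ℤ) else 0)) then (1 : ℝ) else 0)) ≤
        (E r).card * ((sh r i0 - 2 * p r + 1 : ℤ) : ℝ) * c := by
      intro s hs
      rw [Finset.mem_filter] at hs
      rw [Finset.sum_comm]
      exact hr0 s hs.1 hs.2
    refine (Finset.sum_le_sum hle).trans ?_
    rw [Finset.sum_const, nsmul_eq_mul]
    apply le_of_eq
    ring
  rw [Finset.sum_add_distrib, ← Finset.mul_sum, ← Finset.mul_sum] at htot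
  rw [← mul_div_assoc, ← mul_div_assoc, ← add_div]
  rcases Nat.eq_zero_or_pos (fam sh p E r).card with h0 | h0
  · rw [h0]
    simpa using hc0
  · have h1 : (0 : ℝ) < ((fam sh p E r).card : ℝ) := by exact_mod_cast h0
    rw [div_le_iff₀ h1, mul_comm c]
    exact htot

end Pool.Agent.Lib.MP_41a456_al.TC
end
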