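import Pool.Agent.Lib.MP_41a456_al.TC.A5
import Pool.Agent.Lib.MP_41a456_al.TC.E0
import Pool.Agent.Lib.MP_41a456_al.TC.H6

section

/-!
# MP_41a456_al, Theorem TC, F1d: Mahler compactness

`y = pt g`, `B = g γ` from `red_basis`: `‖B e_i‖ ≥ lam y ≥ d` and `prod_cols_le` bound all the
columns of `B`, `y = pt B`; the set of `B` in `SLr n` with bounded entries is compact (closed
embedding in the matrices), its image under `pt` is compact and contains the closed set
`{d ≤ lam}`. `alf y ≤ M` iff `lam y ≥ M^{-1/β}` (empty for `M ≤ 0`).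
-/

namespace Pool.Agent.Lib.MP_41a456_al.TC

open Matrix MeasureTheory Filter Topology Pool.Agent.Lib.MP_41a456_al

private theorem isCompact_box (n : ℕ) (R : ℝ) :
    IsCompact {B : SLr n | ∀ i j, (B : Mr n) i j ∈ Set.Icc (-R) R} := by
  have h1 : IsCompact (Set.pi Set.univ fun _ : Fin n => Set.pi Set.univ fun _ : Fin n =>
      Set.Icc (-R) R) := isCompact_univ_pi fun _ => isCompact_univ_pi fun _ => isCompact_Icc
  have h2 := (SpecialLinearGroup.isClosedEmbedding_val (n := Fin n) (R := ℝ)).isCompact_preimage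
    (K := (Set.pi Set.univ fun _ : Fin n => Set.pi Set.univ fun _ : Fin n =>
      Set.Icc (-R) R : Set (Mr n))) h1
  refine (congrArg IsCompact ?_).mp h2
  ext B
  exact ⟨fun h i j => h i (Set.mem_univ i) j (Set.mem_univ j),
    fun h i _ j _ => h i j⟩

theorem isCompact_lam_ge (n : ℕ) (hn : 0 < n) {d : ℝ} (hd : 0 < d) :
    IsCompact {y : X n | d ≤ lam y} := by
  obtain ⟨C, hC1, hC⟩ := red_basis n
  set R : ℝ := (n.factorial : ℝ) * C ^ n / d ^ (n - 1) with hR
  refine ((isCompact_box n R).image (continuous_pt n)).of_isClosed_subset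
    (isClosed_le continuous_const (continuous_lam hn)) ?_
  intro y hy
  have hy' : d ≤ lam y := hy
  obtain ⟨g, rfl⟩ := pt_surjective y
  obtain ⟨γ, hγ⟩ := hC g
  set B : SLr n := g * iz n γ with hB
  have hptB : pt B = pt g := by
    refine QuotientGroup.eq.2 ?_
    rw [hB]
    have h1 : (g * iz n γ)⁻¹ * g = (iz n γ)⁻¹ := by
      rw [_root_.mul_inv_rev, mul_assoc, inv_mul_cancel, mul_one]
    rw [h1]
    exact (Gam n).inv_mem ⟨γ, rfl⟩
  have hcol : ∀ i, d ≤ ‖(B : Mr n) *ᵥ Pi.single i 1‖ := by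
    intro i
    refine hy'.trans ?_
    rw [← hptB]
    have hcast : (Pi.single i 1 : Fin n → ℝ) =
        fun j => (((Pi.single i 1 : Fin n → ℤ) j : ℤ) : ℝ) := by
      funext j
      by_cases hj : j = i
      · rw [hj, Pi.single_eq_same, Pi.single_eq_same, Int.cast_one]
      · rw [Pi.single_eq_of_ne hj, Pi.single_eq_of_ne hj, Int.cast_zero]
    refine lam_le ?_ ?_
    · rw [vecs_pt]
      exact ⟨Pi.single i 1, by rw [← hcast]⟩
    · intro h0
      have h1 : ((B⁻¹ : SLr n) : Mr n) *ᵥ ((B : Mr n) *ᵥ Pi.single i 1) = Pi.single i 1 := by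
        rw [mulVec_mulVec, show ((B⁻¹ : SLr n) : Mr n) * (B : Mr n) = 1 from
          congrArg Subtype.val (inv_mul_cancel B), one_mulVec]
      rw [h0, mulVec_zero] at h1
      have h2 := congrFun h1 i
      rw [Pi.single_eq_same, Pi.zero_apply] at h2
      exact zero_ne_one h2
  have hprod := prod_cols_le hC1 B hγ
  have hbd : ∀ i, ‖(B : Mr n) *ᵥ Pi.single i 1‖ ≤ R := by
    intro i
    have h1 : ‖(B : Mr n) *ᵥ Pi.single i 1‖ * d ^ (n - 1) ≤
        ∏ j, ‖(B : Mr n) *ᵥ Pi.single j 1‖ := by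
      rw [← Finset.mul_prod_erase Finset.univ _ (Finset.mem_univ i)]
      refine mul_le_mul_of_nonneg_left ?_ (norm_nonneg _)
      have h2 : d ^ (n - 1) = ∏ _j ∈ Finset.univ.erase i, d := by
        rw [Finset.prod_const, Finset.card_erase_of_mem (Finset.mem_univ i), Finset.card_univ,
          Fintype.card_fin]
      rw [h2]
      exact Finset.prod_le_prod (fun _ _ => hd.le) fun j _ => hcol j
    rw [hR, le_div_iff₀ (pow_pos hd _)]
    exact h1.trans hprod
  refine ⟨B, fun i j => ?_, hptB⟩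
  have h1 : (B : Mr n) i j = ((B : Mr n) *ᵥ Pi.single j 1) i := by
    rw [mulVec_single_one]
    rfl
  have h2 : |(B : Mr n) i j| ≤ R := by
    rw [h1]
    exact (norm_le_pi_norm ((B : Mr n) *ᵥ Pi.single j 1) i).trans (hbd j)
  exact abs_le.1 h2

theorem isCompact_alf_le (n : ℕ) (hn : 0 < n) (M : ℝ) : IsCompact {y : X n | alf y ≤ M} := by
  have hb : 0 < bet n := by
    unfold bet
    have h1 : (1 : ℝ) ≤ n := by exact_mod_cast hn
    linarith
  rcases le_or_gt M 0 with hM | hM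
  · have h1 : {y : X n | alf y ≤ M} = ∅ := by
      refine Set.eq_empty_of_forall_notMem fun y hy => ?_
      have h2 : 0 < alf y := Real.rpow_pos_of_pos (lam_pos hn y) _
      exact absurd (h2.trans_le hy) (not_lt.2 hM)
    rw [h1]
    exact isCompact_empty
  · have h1 : {y : X n | alf y ≤ M} = {y : X n | M ^ (-(1 / bet n)) ≤ lam y} := by
      ext y
      have hl := lam_pos hn y
      constructor
      · intro hy
        have hy' : (lam y) ^ (-(bet n)) ≤ M := hy
        have h2 := Real.rpow_le_rpow_of_nonpos (Real.rpow_pos_of_pos hl (-(bet n))) hy'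
          (z := -(1 / bet n)) (by
            have : 0 < 1 / bet n := by positivity
            linarith)
        rw [← Real.rpow_mul hl.le] at h2
        have h3 : -(bet n) * -(1 / bet n) = 1 := by
          field_simp
        rw [h3, Real.rpow_one] at h2
        exact h2
      · intro hy
        have hy' : M ^ (-(1 / bet n)) ≤ lam y := hy
        have h2 := Real.rpow_le_rpow_of_nonpos (Real.rpow_pos_of_pos hM (-(1 / bet n))) hy'
          (z := -(bet n)) (by linarith)
        rw [← Real.rpow_mul hM.le] at h2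
        have h3 : -(1 / bet n) * -(bet n) = 1 := by
          field_simp
        rw [h3, Real.rpow_one] at h2
        exact h2
    rw [h1]
    exact isCompact_lam_ge n hn (Real.rpow_pos_of_pos hM _)

end Pool.Agent.Lib.MP_41a456_al.TC
end

section

/-!
# MP_41a456_al, Theorem TC, E8: production: the quadratic form decreases (paper 521, (5.3))

Paper 521, section 5, `n = m + 1`. `omv x` = vector of the `om (i+1) x`, `sg` = first coordinate divided by
`om*_1`, `QB η M` the bilinear form of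
`QQ(o) = sg(o)² + M² ∑_{i ≥ 1} (o_i - sg(o) om*_{i+1})²`.
`QQ (o + δ) - QQ o = 2 QB o δ + QQ δ`, `2 QB o δ = ‖o‖ (2 QB u δ + 2 QB (o/‖o‖ - u) δ)`,
`2 QB u δ = ∑ c_i δ_i ≤ -d0`, the second term is at most `d0/2` if `‖o/‖o‖ - u‖` is small (`‖δ‖ ≤ B`), and
`QQ δ ≤ C(B)`; so for large `‖o‖` the sum is negative.
-/

namespace Pool.Agent.Lib.MP_41a456_al.TC

open Matrix MeasureTheory Filter Topology Pool.Agent.Lib.MP_41a456_al

/-- the form is bounded -/
private theorem QB_bound {m : ℕ} (η M : ℝ) :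
    ∃ K : ℝ, 0 ≤ K ∧ ∀ o o' : Fin m → ℝ, |QB η M o o'| ≤ K * (‖o‖ * ‖o'‖) := by
  obtain ⟨K1, hK1, hsg⟩ : ∃ K1 : ℝ, 0 ≤ K1 ∧ ∀ o : Fin m → ℝ, |sg η o| ≤ K1 * ‖o‖ := by
    refine ⟨∑ i ∈ Finset.univ.filter (fun i : Fin m => (i : ℕ) = 0), |(omst η i)⁻¹|,
      Finset.sum_nonneg fun i _ => abs_nonneg _, fun o => ?_⟩
    unfold sg
    refine (Finset.abs_sum_le_sum_abs _ _).trans ?_
    rw [Finset.sum_mul]
    refine Finset.sum_le_sum fun i _ => ?_
    rw [div_eq_mul_inv, abs_mul, mul_comm]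
    refine mul_le_mul_of_nonneg_left ?_ (abs_nonneg _)
    rw [← Real.norm_eq_abs]
    exact norm_le_pi_norm o i
  have hdev : ∀ (o : Fin m → ℝ) (i : Fin m),
      |o i - sg η o * omst η i| ≤ (1 + K1 * |omst η i|) * ‖o‖ := by
    intro o i
    have h1 : |o i| ≤ ‖o‖ := by
      rw [← Real.norm_eq_abs]
      exact norm_le_pi_norm o i
    have h2 : |sg η o * omst η i| ≤ K1 * ‖o‖ * |omst η i| := by
      rw [abs_mul]
      exact mul_le_mul_of_nonneg_right (hsg o) (abs_nonneg _)
    calc |o i - sg η o * omst η i| ≤ |o i| + |sg η o * omst η i| := abs_sub _ _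
      _ ≤ ‖o‖ + K1 * ‖o‖ * |omst η i| := add_le_add h1 h2
      _ = (1 + K1 * |omst η i|) * ‖o‖ := by ring
  refine ⟨K1 * K1 + M ^ 2 * ∑ i : Fin m, (1 + K1 * |omst η i|) * (1 + K1 * |omst η i|),
    by positivity, fun o o' => ?_⟩
  unfold QB
  refine (abs_add_le _ _).trans ?_
  rw [add_mul]
  refine add_le_add ?_ ?_
  · rw [abs_mul]
    calc |sg η o| * |sg η o'| ≤ (K1 * ‖o‖) * (K1 * ‖o'‖) :=
          mul_le_mul (hsg o) (hsg o') (abs_nonneg _) (by positivity)
      _ = K1 * K1 * (‖o‖ * ‖o'‖) := by ring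
  · rw [abs_mul, abs_of_nonneg (sq_nonneg M), mul_assoc (M ^ 2)]
    refine mul_le_mul_of_nonneg_left ?_ (sq_nonneg M)
    refine (Finset.abs_sum_le_sum_abs _ _).trans ?_
    rw [Finset.sum_mul]
    refine Finset.sum_le_sum fun i _ => ?_
    rw [abs_mul]
    calc |o i - sg η o * omst η i| * |o' i - sg η o' * omst η i|
        ≤ ((1 + K1 * |omst η i|) * ‖o‖) * ((1 + K1 * |omst η i|) * ‖o'‖) :=
          mul_le_mul (hdev o i) (hdev o' i) (abs_nonneg _) (by positivity)
      _ = (1 + K1 * |omst η i|) * (1 + K1 * |omst η i|) * (‖o‖ * ‖o'‖) := by ring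

theorem QQ_decrease {m : ℕ} (η M : ℝ) (u : Fin m → ℝ) {d0 B : ℝ} (hd : 0 < d0) :
    ∃ ε R : ℝ, 0 < ε ∧ ∀ o δ : Fin m → ℝ, R ≤ ‖o‖ → ‖‖o‖⁻¹ • o - u‖ ≤ ε → ‖δ‖ ≤ B →
      2 * QB η M u δ ≤ -d0 → QQ η M (o + δ) < QQ η M o := by
  obtain ⟨K, hK, hb⟩ := QB_bound (m := m) η M
  have hB1 : 0 < |B| + 1 := by positivity
  have hK1 : 0 < K + 1 := by positivity
  refine ⟨d0 / (4 * ((K + 1) * (|B| + 1))), 2 * (K * (|B| + 1) ^ 2 + 1) / d0, by positivity,
    fun o δ hR he hδ hu => ?_⟩
  have hRpos : 0 < 2 * (K * (|B| + 1) ^ 2 + 1) / d0 := by positivity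
  have ho : 0 < ‖o‖ := lt_of_lt_of_le hRpos hR
  have hδ' : ‖δ‖ ≤ |B| + 1 := hδ.trans ((le_abs_self B).trans (by linarith))
  have hsplit : o = ‖o‖ • (u + (‖o‖⁻¹ • o - u)) := by
    rw [add_sub_cancel, smul_smul, mul_inv_cancel₀ ho.ne', one_smul]
  have h1 : QB η M o δ = ‖o‖ * (QB η M u δ + QB η M (‖o‖⁻¹ • o - u) δ) := by
    conv_lhs => rw [hsplit]
    rw [QB_smul_left, QB_add_left]
  have h2 : QB η M (‖o‖⁻¹ • o - u) δ ≤ d0 / 4 := by
    have h3 := hb (‖o‖⁻¹ • o - u) δ
    have h4 : K * (‖‖o‖⁻¹ • o - u‖ * ‖δ‖) ≤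
        (K + 1) * (d0 / (4 * ((K + 1) * (|B| + 1))) * (|B| + 1)) :=
      mul_le_mul (by linarith) (mul_le_mul he hδ' (norm_nonneg _) (by positivity))
        (by positivity) (by positivity)
    have h5 : (K + 1) * (d0 / (4 * ((K + 1) * (|B| + 1))) * (|B| + 1)) = d0 / 4 := by
      field_simp
    linarith [le_abs_self (QB η M (‖o‖⁻¹ • o - u) δ)]
  have h6 : 2 * QB η M o δ ≤ -(‖o‖ * (d0 / 2)) := by
    rw [h1]
    nlinarith
  have h7 : QQ η M δ ≤ K * (|B| + 1) ^ 2 := by
    have h8 := hb δ δ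
    have h9 : ‖δ‖ * ‖δ‖ ≤ (|B| + 1) ^ 2 := by
      rw [sq]
      exact mul_le_mul hδ' hδ' (norm_nonneg _) hB1.le
    have h10 : K * (‖δ‖ * ‖δ‖) ≤ K * (|B| + 1) ^ 2 := mul_le_mul_of_nonneg_left h9 hK
    unfold QQ
    linarith [le_abs_self (QB η M δ δ)]
  have h11 : K * (|B| + 1) ^ 2 + 1 ≤ ‖o‖ * (d0 / 2) := by
    rw [div_le_iff₀ hd] at hR
    linarith
  rw [QQ_add]
  linarith

end Pool.Agent.Lib.MP_41a456_al.TC
end

section

/-!
# MP_41a456_al, Theorem TC, I1: existence and uniqueness of the limit measure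

Paper 521, section 9, `n = m + 1`.
`f ↦ lim_U avgF (F r) (z r) f` is a positive linear functional on `C_c(X n, ℝ)` (bounded sequences converge along an
ultrafilter; `avgF` is 0 for an empty family); `RealRMK.rieszMeasure`, `RealRMK.integral_rieszMeasure`. Mass at most 1:
for a compact set `K` there is `f ∈ C_c` with `1_K ≤ f ≤ 1`, and the measure is regular. Uniqueness:
`Measure.ext_of_integral_eq_on_compactlySupported`; finite measures on `X n` are regular
(`Measure.Regular.of_sigmaCompactSpace_of_isLocallyFiniteMeasure`).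
-/

namespace Pool.Agent.Lib.MP_41a456_al.TC

open Matrix MeasureTheory Filter Topology Pool.Agent.Lib.MP_41a456_al

open scoped CompactlySupported

private theorem avgF_abs_le {ι Z : Type*} (F : Finset ι) (z : ι → Z) (f : Z → ℝ) {M : ℝ}
    (hM0 : 0 ≤ M) (hM : ∀ y, |f y| ≤ M) : |avgF F z f| ≤ M := by
  unfold avgF
  rcases Finset.eq_empty_or_nonempty F with rfl | h
  · simpa using hM0
  · have hc : (0 : ℝ) < F.card := by exact_mod_cast h.card_pos
    rw [abs_div, abs_of_pos hc, div_le_iff₀ hc]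
    calc |∑ i ∈ F, f (z i)| ≤ ∑ i ∈ F, |f (z i)| := Finset.abs_sum_le_sum_abs _ _
      _ ≤ ∑ _i ∈ F, M := Finset.sum_le_sum fun i _ => hM _
      _ = M * F.card := by rw [Finset.sum_const, nsmul_eq_mul, mul_comm]

private theorem avgF_add {ι Z : Type*} (F : Finset ι) (z : ι → Z) (f g : Z → ℝ) :
    avgF F z (fun y => f y + g y) = avgF F z f + avgF F z g := by
  unfold avgF
  rw [Finset.sum_add_distrib, add_div]

private theorem avgF_smul {ι Z : Type*} (F : Finset ι) (z : ι → Z) (c : ℝ) (f : Z → ℝ) :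
    avgF F z (fun y => c * f y) = c * avgF F z f := by
  unfold avgF
  rw [← Finset.mul_sum, mul_div_assoc]

private theorem avgF_nonneg {ι Z : Type*} (F : Finset ι) (z : ι → Z) (f : Z → ℝ)
    (h : ∀ y, 0 ≤ f y) : 0 ≤ avgF F z f :=
  div_nonneg (Finset.sum_nonneg fun _ _ => h _) (Nat.cast_nonneg _)

private theorem avgF_le_one {ι Z : Type*} (F : Finset ι) (z : ι → Z) (f : Z → ℝ)
    (h0 : ∀ y, 0 ≤ f y) (h : ∀ y, f y ≤ 1) : avgF F z f ≤ 1 :=
  (le_abs_self _).trans (avgF_abs_le F z f zero_le_one fun y => by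
    rw [abs_of_nonneg (h0 y)]
    exact h y)

private theorem exists_lim {n : ℕ} {ι : Type} (U : Ultrafilter ℕ) (F : ℕ → Finset ι)
    (z : ℕ → ι → X n) (f : C_c(X n, ℝ)) :
    ∃ a : ℝ, Tendsto (fun r => avgF (F r) (z r) f) U (𝓝 a) := by
  obtain ⟨M, hM⟩ := f.hasCompactSupport.exists_bound_of_continuous f.continuous
  have hM' : ∀ y, |f y| ≤ max M 0 := fun y => (hM y).trans (le_max_left _ _)
  have hK : IsCompact (Set.Icc (-(max M 0)) (max M 0)) := isCompact_Icc
  have hle : (U.map fun r => avgF (F r) (z r) f : Filter ℝ) ≤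
      Filter.principal (Set.Icc (-(max M 0)) (max M 0)) := by
    rw [Filter.le_principal_iff]
    change (fun r => avgF (F r) (z r) f) ⁻¹' (Set.Icc (-(max M 0)) (max M 0)) ∈ U
    have : (fun r => avgF (F r) (z r) f) ⁻¹' (Set.Icc (-(max M 0)) (max M 0)) = Set.univ := by
      rw [Set.eq_univ_iff_forall]
      intro r
      exact abs_le.1 (avgF_abs_le (F r) (z r) f (le_max_right _ _) hM')
    rw [this]
    exact Filter.univ_mem
  obtain ⟨a, -, ha⟩ := hK.ultrafilter_le_nhds (U.map fun r => avgF (F r) (z r) f) hle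
  exact ⟨a, ha⟩

theorem exists_limM {n : ℕ} {ι : Type} (U : Ultrafilter ℕ) (F : ℕ → Finset ι)
    (z : ℕ → ι → X n) : ∃ μ : Measure (X n), LimM U F z μ := by
  choose L hL using exists_lim U F z
  let L₀ : C_c(X n, ℝ) →ₗ[ℝ] ℝ :=
    { toFun := L
      map_add' := by
        intro f g
        refine tendsto_nhds_unique (hL (f + g)) ?_
        have h := (hL f).add (hL g)
        refine h.congr fun r => ?_
        rw [← avgF_add]
        rfl
      map_smul' := by
        intro c f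
        refine tendsto_nhds_unique (hL (c • f)) ?_
        have h := (hL f).const_mul c
        refine h.congr fun r => ?_
        rw [← avgF_smul]
        rfl }
  have hpos : ∀ f : C_c(X n, ℝ), 0 ≤ f → 0 ≤ L₀ f := by
    intro f hf
    exact ge_of_tendsto (hL f) (Eventually.of_forall fun r => avgF_nonneg _ _ _ fun y => hf y)
  let Λ : C_c(X n, ℝ) →ₚ[ℝ] ℝ := PositiveLinearMap.mk₀ L₀ hpos
  have hΛ : ∀ f : C_c(X n, ℝ), Λ f = L f := fun f => rfl
  refine ⟨RealRMK.rieszMeasure Λ, ?_, ?_⟩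
  · rw [isOpen_univ.measure_eq_iSup_isCompact (RealRMK.rieszMeasure Λ)]
    refine iSup₂_le fun K _ => iSup_le fun hK => ?_
    obtain ⟨f, hf1, hf2, hf3⟩ : ∃ f : C_c(X n, ℝ), Set.EqOn (⇑f) 1 K ∧
        tsupport ⇑f ⊆ Set.univ ∧ ∀ x, f x ∈ Set.Icc (0 : ℝ) 1 := by
      obtain ⟨f, hf1, hf2, hf3⟩ := exists_continuousMap_one_of_isCompact_subset_isOpen hK
        isOpen_univ (Set.subset_univ K)
      exact ⟨⟨f, hasCompactSupport_def.mpr hf2⟩, hf1, hf3⟩
    refine (RealRMK.rieszMeasure_le_of_eq_one Λ (fun x => (hf3 x).1) hK fun x hx => hf1 hx).trans ?_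
    rw [← ENNReal.ofReal_one]
    apply ENNReal.ofReal_le_ofReal
    rw [hΛ]
    exact le_of_tendsto (hL f) (Eventually.of_forall fun r => avgF_le_one _ _ _
      (fun y => (hf3 y).1) fun y => (hf3 y).2)
  · intro f
    rw [RealRMK.integral_rieszMeasure, hΛ]
    exact hL f

theorem limM_finite {n : ℕ} {ι : Type} {U : Ultrafilter ℕ} {F : ℕ → Finset ι}
    {z : ℕ → ι → X n} {μ : Measure (X n)} (h : LimM U F z μ) : IsFiniteMeasure μ :=
  ⟨h.le_one.trans_lt ENNReal.one_lt_top⟩

theorem limM_unique {n : ℕ} {ι : Type} {U : Ultrafilter ℕ} {F : ℕ → Finset ι}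
    {z : ℕ → ι → X n} {μ μ' : Measure (X n)} (h : LimM U F z μ) (h' : LimM U F z μ') : μ = μ' := by
  have h1 : IsFiniteMeasure μ := limM_finite h
  have h2 : IsFiniteMeasure μ' := limM_finite h'
  have h3 : μ.Regular := Measure.Regular.of_sigmaCompactSpace_of_isLocallyFiniteMeasure μ
  have h4 : μ'.Regular := Measure.Regular.of_sigmaCompactSpace_of_isLocallyFiniteMeasure μ'
  exact Measure.ext_of_integral_eq_on_compactlySupported fun f =>
    tendsto_nhds_unique (h.lim f) (h'.lim f)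

end Pool.Agent.Lib.MP_41a456_al.TC
end

section

/-!
# MP_41a456_al, Theorem TC, I6: open neighbourhoods with the property `Star` (paper 521, (9.1))

Paper 521, section 9, `n = m + 1`.
Disjoint open neighbourhoods of the disjoint compact sets, with compact closure, so `alf` is bounded on them. `Star` by
compactness: otherwise for every `eps = 1/a` and the neighbourhoods `{y : dist(y, K_j) < 1/a}` (`X n` is metrizable) there are
`z_a → z ∈ K_j`, `p_a → p` (subsequence) with `p_i = 0` for `i ≠ j`, `1/Λ ≤ |p_j| ≤ Λ`, `(ucol p)⁻¹ z ∈ K_j`; but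
`(ucol p)⁻¹ = uel j.succ 0 (-p_j)` (`ucol_single`, `ucol_neg`), contradiction to `Disc`. Take the minimum of the finitely many `eps`.
-/

namespace Pool.Agent.Lib.MP_41a456_al.TC

open Matrix MeasureTheory Filter Topology Pool.Agent.Lib.MP_41a456_al

/-- the compact set of critical translations -/
private def i6_P {m : ℕ} (Λ : ℕ) (j : Fin m) : Set (Fin m → ℝ) :=
  (fun q : ℝ => (Pi.single j q : Fin m → ℝ)) '' {q : ℝ | 1 / (Λ : ℝ) ≤ |q| ∧ |q| ≤ Λ}

private theorem i6_P_compact {m : ℕ} (Λ : ℕ) (j : Fin m) : IsCompact (i6_P Λ j) := by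
  have hc : Continuous fun q : ℝ => (Pi.single j q : Fin m → ℝ) :=
    continuous_single (A := fun _ : Fin m => ℝ) j
  refine IsCompact.image ?_ hc
  refine IsCompact.of_isClosed_subset (isCompact_Icc (a := -(Λ : ℝ)) (b := Λ)) ?_ ?_
  · exact (isClosed_le continuous_const continuous_abs).inter
      (isClosed_le continuous_abs continuous_const)
  · rintro q ⟨-, h⟩
    exact abs_le.mp h

/-- one set: a tube -/
private theorem i6_tube {m : ℕ} {Λ : ℕ} (hΛ : 2 ≤ Λ) (j : Fin m) {K : Set (X (m + 1))}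
    (hK : IsCompact K) (hD : Disc j.succ 0 Λ K) :
    ∃ (δ : ℝ) (U : Set (X (m + 1))), 0 < δ ∧ IsOpen U ∧ K ⊆ U ∧
      ∀ eps ≤ δ, ∀ z ∈ U, ∀ p : Fin m → ℝ, (∀ i, i ≠ j → |p i| ≤ eps) → |p j| ≤ Λ →
        (ucol p)⁻¹ • z ∈ U → |p j| < 1 / Λ := by
  have hΛ0 : (0 : ℝ) < 1 / (Λ : ℝ) := by
    have : (2 : ℝ) ≤ Λ := by exact_mod_cast hΛ
    positivity
  set φ : X (m + 1) × (Fin m → ℝ) → X (m + 1) := fun x => ucol (-x.2) • x.1 with hφ
  have hφc : Continuous φ :=
    (continuous_ucol.comp (continuous_neg.comp continuous_snd)).smul continuous_fst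
  have hPc := i6_P_compact Λ j
  have hcomp : IsCompact (φ '' (K ×ˢ i6_P Λ j)) := (hK.prod hPc).image hφc
  have hdisj : Disjoint (φ '' (K ×ˢ i6_P Λ j)) K := by
    rw [Set.disjoint_left]
    rintro _ ⟨⟨z, p⟩, ⟨hz, hp⟩, rfl⟩ hmem
    obtain ⟨q, ⟨hq1, hq2⟩, hq⟩ := hp
    simp only at hq hz hmem
    subst hq
    have h1 : (ucol (-(Pi.single j q : Fin m → ℝ)) : SLr (m + 1)) = uel j.succ 0 (-q) := by
      rw [← Pi.single_neg, ucol_single]
    rw [hφ] at hmem
    simp only at hmem
    rw [h1] at hmem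
    have h2 := hD z hz (-q) (by rw [abs_neg]; exact hq2) hmem
    have h3 : q = 0 := neg_eq_zero.mp h2
    rw [h3, abs_zero] at hq1
    linarith
  obtain ⟨G, H, hG, hH, hGs, hHs, hGH⟩ := SeparatedNhds.of_isCompact_isCompact hcomp hK hdisj
  obtain ⟨u, v, hu, hv, hKu, hPv, huv⟩ := generalized_tube_lemma hK hPc (hG.preimage hφc)
    (Set.image_subset_iff.mp hGs)
  obtain ⟨δ, hδ, hδv⟩ := hPc.exists_cthickening_subset_open hv hPv
  refine ⟨δ, u ∩ H, hδ, hu.inter hH, Set.subset_inter hKu hHs, ?_⟩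
  intro eps heps z hz p hp hpj hmem
  by_contra hcon
  push Not at hcon
  have h1 : (Pi.single j (p j) : Fin m → ℝ) ∈ i6_P Λ j := ⟨p j, ⟨hcon, hpj⟩, rfl⟩
  have h2 : p ∈ v := by
    refine hδv (Metric.mem_cthickening_of_dist_le p _ δ _ h1 ?_)
    rw [dist_pi_le_iff hδ.le]
    intro i
    by_cases hij : i = j
    · subst hij
      rw [Pi.single_eq_same, dist_self]
      exact hδ.le
    · rw [Pi.single_eq_of_ne hij, Real.dist_eq, sub_zero]
      exact (hp i hij).trans heps
  have h3 : φ (z, p) ∈ G := huv (Set.mk_mem_prod hz.1 h2)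
  rw [← ucol_neg] at hmem
  exact Set.disjoint_left.mp hGH h3 hmem.2

theorem exists_star {m : ℕ} {Λ : ℕ} (hΛ : 2 ≤ Λ) (K : Fin m → Set (X (m + 1)))
    (hK : ∀ j, IsCompact (K j)) (hd : Pairwise fun i j => Disjoint (K i) (K j))
    (hD : ∀ j, Disc j.succ 0 Λ (K j)) :
    ∃ (eps M1 : ℝ) (S : Fin m → Set (X (m + 1))), 0 < eps ∧ eps ≤ 1 ∧ 0 < M1 ∧
      (∀ j, IsOpen (S j) ∧ K j ⊆ S j ∧ (∀ z ∈ S j, alf z ≤ M1) ∧ Star Λ eps j (S j)) ∧
      Pairwise fun i j => Disjoint (S i) (S j) := by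
  choose δ U hδ hU hKU hstar using fun j => i6_tube hΛ j (hK j) (hD j)
  have hsep : ∀ i j : Fin m, ∃ A B : Set (X (m + 1)), i ≠ j →
      IsOpen A ∧ IsOpen B ∧ K i ⊆ A ∧ K j ⊆ B ∧ Disjoint A B := by
    intro i j
    by_cases hij : i = j
    · exact ⟨∅, ∅, fun h => absurd hij h⟩
    · obtain ⟨A, B, hA, hB, hAs, hBs, hAB⟩ :=
        SeparatedNhds.of_isCompact_isCompact (hK i) (hK j) (hd hij)
      exact ⟨A, B, fun _ => ⟨hA, hB, hAs, hBs, hAB⟩⟩
  choose A B hAB using hsep
  have hbdd : ∀ j, ∃ M : ℝ, ∀ z ∈ K j, alf z ≤ M := by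
    intro j
    obtain ⟨M, hM⟩ := (hK j).bddAbove_image (continuous_alf (Nat.succ_pos m)).continuousOn
    exact ⟨M, fun z hz => hM ⟨z, hz, rfl⟩⟩
  choose M hM using hbdd
  have heps : ∃ eps : ℝ, 0 < eps ∧ eps < 1 ∧ ∀ j, eps < δ j := by
    have h1 : ∀ᶠ e : ℝ in 𝓝[>] 0, ∀ j, e < δ j := by
      rw [eventually_all]
      intro j
      exact mem_nhdsWithin_of_mem_nhds (Iio_mem_nhds (hδ j))
    have h2 : ∀ᶠ e : ℝ in 𝓝[>] 0, e < 1 := mem_nhdsWithin_of_mem_nhds (Iio_mem_nhds one_pos)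
    have h3 : ∀ᶠ e : ℝ in 𝓝[>] 0, 0 < e := self_mem_nhdsWithin
    obtain ⟨e, he⟩ := (h3.and (h2.and h1)).exists
    exact ⟨e, he.1, he.2.1, he.2.2⟩
  obtain ⟨eps, h0, h1, hlt⟩ := heps
  set S : Fin m → Set (X (m + 1)) := fun j =>
    (U j ∩ {z | alf z < M j + 1}) ∩ ⋂ i ∈ {i : Fin m | i ≠ j}, (A j i ∩ B i j) with hS
  refine ⟨eps, 1 + ∑ j, (|M j| + 1), S, h0, h1.le, ?_, ?_, ?_⟩
  · have : 0 ≤ ∑ j, (|M j| + 1) := Finset.sum_nonneg fun j _ => by positivity
    linarith
  · intro j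
    refine ⟨?_, ?_, ?_, ?_⟩
    · refine ((hU j).inter ?_).inter ?_
      · exact isOpen_lt (continuous_alf (Nat.succ_pos m)) continuous_const
      · refine Set.Finite.isOpen_biInter (Set.toFinite _) ?_
        intro i hi
        exact (hAB j i (Ne.symm hi)).1.inter (hAB i j hi).2.1
    · intro z hz
      refine ⟨⟨hKU j hz, ?_⟩, ?_⟩
      · have := hM j z hz
        show alf z < M j + 1
        linarith
      · rw [Set.mem_iInter₂]
        intro i hi
        exact ⟨(hAB j i (Ne.symm hi)).2.2.1 hz, (hAB i j hi).2.2.2.1 hz⟩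
    · intro z hz
      have h2 : alf z < M j + 1 := hz.1.2
      have h3 : |M j| + 1 ≤ ∑ j, (|M j| + 1) :=
        Finset.single_le_sum (f := fun j => |M j| + 1) (fun i _ => by positivity)
          (Finset.mem_univ j)
      have h4 := le_abs_self (M j)
      linarith
    · intro z hz p hp hpj hmem
      exact hstar j eps (hlt j).le z hz.1.1 p hp hpj hmem.1.1
  · intro i j hij
    rw [Set.disjoint_left]
    intro z hz hz'
    have h2 := hz.2
    have h3 := hz'.2
    rw [Set.mem_iInter₂] at h2 h3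
    have h4 := (h2 j (Ne.symm hij)).1
    have h5 := (h3 i hij).2
    exact Set.disjoint_left.mp (hAB i j hij).2.2.2.2 h4 h5

end Pool.Agent.Lib.MP_41a456_al.TC
end

section

/-!
# MP_41a456_al, Theorem TC, I7: points with a type (paper 521, (9.1))

Paper 521, section 9, `n = m + 1`.
`isOpen_Ty`: the complement is the finite union over `F ⊆ range L` with `|F| > d L` of the closed sets
`{z : ∀ l ∈ F, W^l z ∉ S}`. `not_Ty_le`: for `z ∈ Z` the number of `l < L` with `W^l z ∉ S` is at most the number of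
`l < L` with `W^l z ∈ Z \ K`; the integral of this number is `L μ(Z \ K)`; Markov. `Ty_disjoint`: for `d < 1/2` and `L ≥ 1` some
`l < L` is good for both.
-/

namespace Pool.Agent.Lib.MP_41a456_al.TC

open Matrix MeasureTheory Filter Topology Pool.Agent.Lib.MP_41a456_al

theorem isOpen_Ty {m : ℕ} {Λ L : ℕ} {d : ℝ} {S : Set (X (m + 1))} (hS : IsOpen S) :
    IsOpen {z | Ty Λ L d S z} := by
  classical
  have h : {z | Ty Λ L d S z} = ⋂ F ∈ ((Finset.range L).powerset.filter fun F : Finset ℕ =>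
      ¬ ((F.card : ℝ) ≤ d * L)), ⋃ l ∈ F, (fun z => ((W Λ (0 : Fin (m + 1))) ^ l) • z) ⁻¹' S := by
    ext z
    simp only [Set.mem_ofPred_eq, Set.mem_iInter, Finset.mem_filter, Finset.mem_powerset,
      Set.mem_iUnion, Set.mem_preimage]
    constructor
    · intro hz F hF
      by_contra hc
      push Not at hc
      exact hF.2 (hz F fun l hl => ⟨Finset.mem_range.1 (hF.1 hl), hc l hl⟩)
    · intro hz F hF
      by_contra hc
      obtain ⟨l, hl, hlS⟩ := hz F ⟨fun l hl => Finset.mem_range.2 (hF l hl).1, hc⟩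
      exact (hF l hl).2 hlS
  rw [h]
  exact isOpen_biInter_finset fun F _ => isOpen_biUnion fun l _ =>
    hS.preimage (continuous_const_smul _)

private theorem i7_inv {m : ℕ} {Λ : ℕ} (μ : Measure (X (m + 1))) (hμ : Inv μ (W Λ 0))
    {A : Set (X (m + 1))} (hA : MeasurableSet A) (l : ℕ) :
    μ ((fun z => ((W Λ (0 : Fin (m + 1))) ^ l) • z) ⁻¹' A) = μ A := by
  induction l with
  | zero =>
    simp only [pow_zero, one_smul]
    rfl
  | succ l ih =>
    have h1 : (fun z : X (m + 1) => ((W Λ (0 : Fin (m + 1))) ^ (l + 1)) • z) ⁻¹' A =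
        (fun z => W Λ (0 : Fin (m + 1)) • z) ⁻¹'
          ((fun z => ((W Λ (0 : Fin (m + 1))) ^ l) • z) ⁻¹' A) := by
      ext z
      simp only [Set.mem_preimage, pow_succ, mul_smul]
    have h2 : MeasurableSet ((fun z : X (m + 1) => ((W Λ (0 : Fin (m + 1))) ^ l) • z) ⁻¹' A) :=
      measurable_smul_X _ hA
    rw [h1, ← Measure.map_apply (measurable_smul_X _) h2]
    unfold Inv at hμ
    rw [hμ, ih]

private theorem i7_mem {m : ℕ} {Λ : ℕ} {Z : Set (X (m + 1))} (hW : WInv Λ Z) {z : X (m + 1)}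
    (hz : z ∈ Z) (l : ℕ) : ((W Λ (0 : Fin (m + 1))) ^ l) • z ∈ Z := by
  induction l with
  | zero => simpa using hz
  | succ l ih =>
    rw [pow_succ', mul_smul]
    exact (hW _ _).2 ih

theorem not_Ty_le {m : ℕ} {Λ L : ℕ} (hL : 1 ≤ L) {d : ℝ} (hd : 0 < d) (μ : Measure (X (m + 1)))
    [IsFiniteMeasure μ] (hμ : Inv μ (W Λ 0)) {Z K S : Set (X (m + 1))} (hZ : MeasurableSet Z)
    (hK : MeasurableSet K) (hW : WInv Λ Z) (hKS : K ⊆ S) :
    (μ (Z \ {z | Ty Λ L d S z})).toReal ≤ (μ (Z \ K)).toReal / d := by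
  classical
  have hA : MeasurableSet (Z \ K) := hZ.diff hK
  set T : ℕ → X (m + 1) → X (m + 1) := fun l z => ((W Λ (0 : Fin (m + 1))) ^ l) • z with hT
  have hTm : ∀ l, MeasurableSet (T l ⁻¹' (Z \ K)) := fun l => measurable_smul_X _ hA
  set N : X (m + 1) → ENNReal := fun z =>
    ∑ l ∈ Finset.range L, (T l ⁻¹' (Z \ K)).indicator (fun _ => (1 : ENNReal)) z with hN
  have hNm : Measurable N := by
    refine Finset.measurable_fun_sum _ fun l _ => ?_
    exact measurable_const.indicator (hTm l)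
  have hint : ∫⁻ z, N z ∂μ = L * μ (Z \ K) := by
    rw [hN, lintegral_finsetSum _ fun l _ => measurable_const.indicator (hTm l)]
    have h1 : ∀ l ∈ Finset.range L, ∫⁻ z, (T l ⁻¹' (Z \ K)).indicator (fun _ => (1 : ENNReal)) z ∂μ =
        μ (Z \ K) := by
      intro l _
      rw [lintegral_indicator (hTm l), setLIntegral_const, one_mul]
      exact i7_inv μ hμ hA l
    rw [Finset.sum_congr rfl h1, Finset.sum_const, Finset.card_range, nsmul_eq_mul]
  have hL0 : (0 : ℝ) < L := by exact_mod_cast hL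
  have hsub : Z \ {z | Ty Λ L d S z} ⊆ {z | ENNReal.ofReal (d * L) ≤ N z} := by
    rintro z ⟨hz, hzT⟩
    have hzT' : ¬ Ty Λ L d S z := hzT
    unfold Ty at hzT'
    push Not at hzT'
    obtain ⟨F, hF, hcard⟩ := hzT'
    have h1 : (F.card : ENNReal) ≤ N z := by
      have h2 : (F.card : ENNReal) = ∑ l ∈ F, (T l ⁻¹' (Z \ K)).indicator
          (fun _ => (1 : ENNReal)) z := by
        rw [Finset.sum_congr rfl (g := fun _ => (1 : ENNReal)), Finset.sum_const, nsmul_eq_mul,
          mul_one]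
        intro l hl
        refine Set.indicator_of_mem ?_ _
        exact ⟨i7_mem hW hz l, fun hk => (hF l hl).2 (hKS hk)⟩
      rw [h2]
      exact Finset.sum_le_sum_of_subset fun l hl => Finset.mem_range.2 (hF l hl).1
    have h3 : ENNReal.ofReal (d * L) ≤ (F.card : ENNReal) := by
      rw [← ENNReal.ofReal_natCast]
      exact ENNReal.ofReal_le_ofReal hcard.le
    exact h3.trans h1
  have hmk : ENNReal.ofReal (d * L) * μ {z | ENNReal.ofReal (d * L) ≤ N z} ≤ L * μ (Z \ K) := by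
    rw [← hint]
    exact mul_meas_ge_le_lintegral hNm _
  have h4 : ENNReal.ofReal (d * L) * μ (Z \ {z | Ty Λ L d S z}) ≤ L * μ (Z \ K) :=
    le_trans (mul_le_mul_right (measure_mono hsub) _) hmk
  have h5 := ENNReal.toReal_mono (ENNReal.mul_ne_top (ENNReal.natCast_ne_top L)
    (measure_ne_top μ _)) h4
  rw [ENNReal.toReal_mul, ENNReal.toReal_mul, ENNReal.toReal_ofReal (by positivity),
    ENNReal.toReal_natCast] at h5
  rw [le_div_iff₀ hd]
  nlinarith

theorem Ty_disjoint {m : ℕ} {Λ L : ℕ} (hL : 1 ≤ L) {d : ℝ} (hd : d < 1 / 2)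
    {S S' : Set (X (m + 1))} (h : Disjoint S S') (z : X (m + 1)) (h1 : Ty Λ L d S z)
    (h2 : Ty Λ L d S' z) : False := by
  classical
  have hL0 : (0 : ℝ) < L := by exact_mod_cast hL
  have a1 := h1 ((Finset.range L).filter fun l => ((W Λ (0 : Fin (m + 1))) ^ l) • z ∉ S)
    fun l hl => ⟨Finset.mem_range.1 (Finset.mem_filter.1 hl).1, (Finset.mem_filter.1 hl).2⟩
  have a2 := h2 ((Finset.range L).filter fun l => ((W Λ (0 : Fin (m + 1))) ^ l) • z ∉ S')
    fun l hl => ⟨Finset.mem_range.1 (Finset.mem_filter.1 hl).1, (Finset.mem_filter.1 hl).2⟩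
  have a3 : Finset.range L ⊆
      ((Finset.range L).filter fun l => ((W Λ (0 : Fin (m + 1))) ^ l) • z ∉ S) ∪
      ((Finset.range L).filter fun l => ((W Λ (0 : Fin (m + 1))) ^ l) • z ∉ S') := by
    intro l hl
    rw [Finset.mem_union, Finset.mem_filter, Finset.mem_filter]
    by_cases hS : ((W Λ (0 : Fin (m + 1))) ^ l) • z ∈ S
    · exact Or.inr ⟨hl, Set.disjoint_left.1 h hS⟩
    · exact Or.inl ⟨hl, hS⟩
  have a4 := (Finset.card_le_card a3).trans (Finset.card_union_le _ _)
  rw [Finset.card_range] at a4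
  have a5 : (L : ℝ) ≤
      (((Finset.range L).filter fun l => ((W Λ (0 : Fin (m + 1))) ^ l) • z ∉ S).card : ℝ) +
      (((Finset.range L).filter fun l => ((W Λ (0 : Fin (m + 1))) ^ l) • z ∉ S').card : ℝ) := by
    exact_mod_cast a4
  nlinarith

end Pool.Agent.Lib.MP_41a456_al.TC
end

section

/-!
# MP_41a456_al, Theorem TC, I2: open and compact sets

Paper 521, section 9, `n = m + 1`.
`frq_open`: inner regularity: compact `K ⊆ O` with `μ K > μ O - ε/2` and `f ∈ C_c` with `1_K ≤ f ≤ 1_O`: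
`∫ f ≥ μ K`, `avgF f ≤ frq O`. `frq_compact`: `f ∈ C_c`, `1_K ≤ f ≤ 1`: `frq K ≤ avgF f → ∫ f ≤ μ univ`.
`limM_avoid`: from `frq_open` (`frq O = 0` eventually).
-/

namespace Pool.Agent.Lib.MP_41a456_al.TC

open Matrix MeasureTheory Filter Topology Pool.Agent.Lib.MP_41a456_al

open scoped CompactlySupported

private theorem limM_fin {n : ℕ} {ι : Type} {U : Ultrafilter ℕ} {F : ℕ → Finset ι}
    {z : ℕ → ι → X n} {μ : Measure (X n)} (h : LimM U F z μ) : IsFiniteMeasure μ :=
  ⟨h.le_one.trans_lt ENNReal.one_lt_top⟩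

private theorem frq_eq_avgF {ι Z : Type*} (F : Finset ι) (z : ι → Z) (S : Set Z) :
    frq F z S = avgF F z (S.indicator fun _ => (1 : ℝ)) := by
  classical
  unfold frq avgF
  congr 1
  rw [Finset.card_filter]
  push_cast
  refine Finset.sum_congr rfl fun i _ => ?_
  by_cases hi : z i ∈ S
  · rw [if_pos hi, Set.indicator_of_mem hi]
  · rw [if_neg hi, Set.indicator_of_notMem hi]

private theorem avgF_mono {ι Z : Type*} (F : Finset ι) (z : ι → Z) {f g : Z → ℝ}
    (h : ∀ x, f x ≤ g x) : avgF F z f ≤ avgF F z g := by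
  unfold avgF
  exact div_le_div_of_nonneg_right (Finset.sum_le_sum fun i _ => h _) (Nat.cast_nonneg _)

private theorem frq_nonneg {ι Z : Type*} (F : Finset ι) (z : ι → Z) (S : Set Z) :
    0 ≤ frq F z S := by
  unfold frq
  positivity

theorem frq_open {n : ℕ} {ι : Type} {U : Ultrafilter ℕ} {F : ℕ → Finset ι} {z : ℕ → ι → X n}
    {μ : Measure (X n)} (h : LimM U F z μ) {O : Set (X n)} (hO : IsOpen O) {ε : ℝ} (hε : 0 < ε) :
    ∀ᶠ r in (U : Filter ℕ), (μ O).toReal - ε ≤ frq (F r) (z r) O := by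
  have := limM_fin h
  obtain ⟨K, hKO, hK, hμ⟩ := hO.measurableSet.exists_isCompact_lt_add (measure_ne_top μ O)
    (ENNReal.ofReal_pos.2 (half_pos hε)).ne'
  obtain ⟨f, hf1, hf0, hfc, hf⟩ := exists_continuous_one_zero_of_isCompact hK hO.isClosed_compl
    (Set.disjoint_compl_right_iff_subset.2 hKO)
  let fc : C_c(X n, ℝ) := ⟨f, hfc⟩
  have hfc' : ∀ x, fc x = f x := fun _ => rfl
  have hint : (μ K).toReal ≤ ∫ y, fc y ∂μ := by
    have h1 : ∫ y, K.indicator (fun _ => (1 : ℝ)) y ∂μ = (μ K).toReal := by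
      rw [integral_indicator_const _ hK.measurableSet]
      simp [Measure.real]
    rw [← h1]
    refine integral_mono_of_nonneg (Eventually.of_forall fun y => ?_) ?_
      (Eventually.of_forall fun y => ?_)
    · exact Set.indicator_nonneg (fun _ _ => zero_le_one) _
    · exact f.continuous.integrable_of_hasCompactSupport hfc
    · simp only [hfc']
      by_cases hy : y ∈ K
      · rw [Set.indicator_of_mem hy]
        exact (hf1 hy).ge
      · rw [Set.indicator_of_notMem hy]
        exact (hf y).1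
  have hμ' : (μ O).toReal < (μ K).toReal + ε / 2 := by
    have h2 := (ENNReal.toReal_lt_toReal (measure_ne_top μ O)
      (ENNReal.add_ne_top.2 ⟨measure_ne_top μ K, ENNReal.ofReal_ne_top⟩)).2 hμ
    rwa [ENNReal.toReal_add (measure_ne_top μ K) ENNReal.ofReal_ne_top,
      ENNReal.toReal_ofReal (half_pos hε).le] at h2
  have hlt : (μ O).toReal - ε < ∫ y, fc y ∂μ := by linarith
  filter_upwards [(h.lim fc).eventually (lt_mem_nhds hlt)] with r hr
  refine hr.le.trans ?_
  rw [frq_eq_avgF]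
  refine avgF_mono _ _ fun y => ?_
  by_cases hy : y ∈ O
  · rw [Set.indicator_of_mem hy]
    exact (hf y).2
  · rw [Set.indicator_of_notMem hy]
    exact (hf0 hy).le

theorem frq_compact {n : ℕ} {ι : Type} {U : Ultrafilter ℕ} {F : ℕ → Finset ι} {z : ℕ → ι → X n}
    {μ : Measure (X n)} (h : LimM U F z μ) {K : Set (X n)} (hK : IsCompact K) {ε : ℝ} (hε : 0 < ε) :
    ∀ᶠ r in (U : Filter ℕ), frq (F r) (z r) K ≤ (μ Set.univ).toReal + ε := by
  have := limM_fin h
  obtain ⟨f, hf1, -, hfc, hf⟩ := exists_continuous_one_zero_of_isCompact hK isClosed_empty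
    (Set.disjoint_empty K)
  let fc : C_c(X n, ℝ) := ⟨f, hfc⟩
  have hfc' : ∀ x, fc x = f x := fun _ => rfl
  have hint : ∫ y, fc y ∂μ ≤ (μ Set.univ).toReal := by
    have h1 : ∫ _, (1 : ℝ) ∂μ = (μ Set.univ).toReal := by
      rw [integral_const]
      simp [Measure.real]
    rw [← h1]
    exact integral_mono_of_nonneg (Eventually.of_forall fun y => (hf y).1) (integrable_const _)
      (Eventually.of_forall fun y => (hf y).2)
  have hlt : ∫ y, fc y ∂μ < (μ Set.univ).toReal + ε := by linarith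
  filter_upwards [(h.lim fc).eventually (gt_mem_nhds hlt)] with r hr
  refine le_trans ?_ hr.le
  rw [frq_eq_avgF]
  refine avgF_mono _ _ fun y => ?_
  by_cases hy : y ∈ K
  · rw [Set.indicator_of_mem hy]
    exact (hf1 hy).ge
  · rw [Set.indicator_of_notMem hy]
    exact (hf y).1

theorem limM_avoid {n : ℕ} {ι : Type} {U : Ultrafilter ℕ} {F : ℕ → Finset ι} {z : ℕ → ι → X n}
    {μ : Measure (X n)} (h : LimM U F z μ) {O : Set (X n)} (hO : IsOpen O)
    (ha : ∀ᶠ r in (U : Filter ℕ), ∀ i ∈ F r, z r i ∉ O) : μ O = 0 := by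
  have := limM_fin h
  have h0 : (μ O).toReal ≤ 0 := by
    refine le_of_forall_pos_le_add fun ε hε => ?_
    obtain ⟨r, hr1, hr2⟩ := ((frq_open h hO hε).and ha).exists
    have h1 : frq (F r) (z r) O = 0 := by
      rw [frq_eq_avgF]
      unfold avgF
      rw [Finset.sum_eq_zero fun i hi => Set.indicator_of_notMem (hr2 i hi) _, zero_div]
    linarith
  have h1 := (ENNReal.toReal_eq_zero_iff _).1 (le_antisymm h0 ENNReal.toReal_nonneg)
  exact h1.resolve_right (measure_ne_top μ O)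

end Pool.Agent.Lib.MP_41a456_al.TC
end

section

/-!
# MP_41a456_al, Theorem TC, I4: invariance of the limit measure under the `W_k`

Paper 521, section 9, `n = m + 1`.
`W_k • yh s = yh (s + δ_k)`, `δ_k = e_k - e_{k-1}` (`bb_shift`). The number of `s ∈ BB` with
`s + δ_k ∉ BB`, and the number of `s ∈ BB` which are not of the form `s' + δ_k`, are at most `2 |BB| / N` each, `N` = the smallest
side of the box; the sides are `sh_i - 2 p + 1 ≥ 2 p → ∞`. So `|avgF (tw W_k f) - avgF f| ≤ 4 sup|f| / N → 0`.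
-/

namespace Pool.Agent.Lib.MP_41a456_al.TC

open Matrix MeasureTheory Filter Topology Pool.Agent.Lib.MP_41a456_al

open scoped CompactlySupported

/-- number of the points of the box which leave the box under a small shift -/
private theorem i4_count {m : ℕ} (sh : Fin m → ℤ) (p : ℤ) (δ : Fin m → ℤ)
    (hδ : ∀ i, |δ i| ≤ 1) {N : ℝ} (hN : 0 < N) (hside : ∀ i, N ≤ ((sh i - p + 1 - p : ℤ) : ℝ)) :
    (((BB sh p).filter fun s => s + δ ∉ BB sh p).card : ℝ) ≤ m * ((BB sh p).card / N) := by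
  classical
  set I : Fin m → Finset ℤ := fun i => Finset.Icc p (sh i - p) with hI
  set T : Fin m → Finset ℤ := fun i => (I i).filter fun a => a + δ i ∉ I i with hT
  have hTcard : ∀ i, (T i).card ≤ 1 := by
    intro i
    rw [Finset.card_le_one]
    intro a ha b hb
    simp only [hT, hI, Finset.mem_filter, Finset.mem_Icc, not_and_or, not_le] at ha hb
    have h1 := abs_le.mp (hδ i)
    omega
  have hIcard : ∀ i, ((I i).card : ℝ) = ((sh i - p + 1 - p : ℤ) : ℝ) := by
    intro i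
    have h1 : (0 : ℝ) < ((sh i - p + 1 - p : ℤ) : ℝ) := lt_of_lt_of_le hN (hside i)
    have h2 : (0 : ℤ) < sh i - p + 1 - p := by exact_mod_cast h1
    have h3 : ((I i).card : ℤ) = sh i - p + 1 - p := by
      rw [hI]
      simp only [Int.card_Icc]
      exact Int.toNat_of_nonneg h2.le
    exact_mod_cast h3
  have hB : BB sh p = Fintype.piFinset I := rfl
  have hsub : (BB sh p).filter (fun s => s + δ ∉ BB sh p) ⊆
      Finset.univ.biUnion fun i => Fintype.piFinset (Function.update I i (T i)) := by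
    intro s hs
    rw [Finset.mem_filter, hB, Fintype.mem_piFinset, Fintype.mem_piFinset] at hs
    obtain ⟨h1, h2⟩ := hs
    push Not at h2
    obtain ⟨i, hi⟩ := h2
    rw [Finset.mem_biUnion]
    refine ⟨i, Finset.mem_univ _, ?_⟩
    rw [Fintype.mem_piFinset]
    intro j
    by_cases hj : j = i
    · subst hj
      rw [Function.update_self]
      exact Finset.mem_filter.mpr ⟨h1 j, hi⟩
    · rw [Function.update_of_ne hj]
      exact h1 j
  have hone : ∀ i, ((Fintype.piFinset (Function.update I i (T i))).card : ℝ) ≤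
      (BB sh p).card / N := by
    intro i
    have e1 : (Fintype.piFinset (Function.update I i (T i))).card
        = (T i).card * ∏ j ∈ Finset.univ \ {i}, (I j).card := by
      rw [Fintype.card_piFinset]
      have : ∀ j, (Function.update I i (T i) j).card =
          Function.update (fun j => (I j).card) i (T i).card j := by
        intro j
        by_cases hj : j = i
        · subst hj
          rw [Function.update_self, Function.update_self]
        · rw [Function.update_of_ne hj, Function.update_of_ne hj]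
      rw [Finset.prod_congr rfl fun j _ => this j, Finset.prod_update_of_mem (Finset.mem_univ i)]
    have e2 : (BB sh p).card = (I i).card * ∏ j ∈ Finset.univ \ {i}, (I j).card := by
      rw [hB, Fintype.card_piFinset, ← Finset.prod_sdiff (Finset.subset_univ {i}),
        Finset.prod_singleton, mul_comm]
    rw [le_div_iff₀ hN, e1, e2]
    push_cast
    have h3 : (0 : ℝ) ≤ ∏ j ∈ Finset.univ \ {i}, ((I j).card : ℝ) :=
      Finset.prod_nonneg fun j _ => Nat.cast_nonneg _
    have h4 : ((T i).card : ℝ) ≤ 1 := by exact_mod_cast hTcard i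
    have h5 : N ≤ ((I i).card : ℝ) := by
      rw [hIcard i]
      exact hside i
    calc ((T i).card : ℝ) * (∏ j ∈ Finset.univ \ {i}, ((I j).card : ℝ)) * N
        ≤ 1 * (∏ j ∈ Finset.univ \ {i}, ((I j).card : ℝ)) * N := by
          apply mul_le_mul_of_nonneg_right _ hN.le
          exact mul_le_mul_of_nonneg_right h4 h3
      _ = N * ∏ j ∈ Finset.univ \ {i}, ((I j).card : ℝ) := by ring
      _ ≤ ((I i).card : ℝ) * ∏ j ∈ Finset.univ \ {i}, ((I j).card : ℝ) :=
          mul_le_mul_of_nonneg_right h5 h3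
  calc (((BB sh p).filter fun s => s + δ ∉ BB sh p).card : ℝ)
      ≤ ((Finset.univ.biUnion fun i => Fintype.piFinset (Function.update I i (T i))).card : ℝ) := by
        exact_mod_cast Finset.card_le_card hsub
    _ ≤ ∑ i : Fin m, ((Fintype.piFinset (Function.update I i (T i))).card : ℝ) := by
        exact_mod_cast Finset.card_biUnion_le
    _ ≤ ∑ _i : Fin m, ((BB sh p).card / N : ℝ) := Finset.sum_le_sum fun i _ => hone i
    _ = m * ((BB sh p).card / N) := by
        rw [Finset.sum_const, Finset.card_univ, Fintype.card_fin, nsmul_eq_mul]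

/-- shift of a sum over the box -/
private theorem i4_sum {m : ℕ} (sh : Fin m → ℤ) (p : ℤ) (δ : Fin m → ℤ)
    (hδ : ∀ i, |δ i| ≤ 1) {N : ℝ} (hN : 0 < N) (hside : ∀ i, N ≤ ((sh i - p + 1 - p : ℤ) : ℝ))
    (g : (Fin m → ℤ) → ℝ) {M : ℝ} (hg : ∀ s, |g s| ≤ M) :
    |∑ s ∈ BB sh p, g (s + δ) - ∑ s ∈ BB sh p, g s| ≤ 2 * M * (m * ((BB sh p).card / N)) := by
  classical
  have hM : 0 ≤ M := le_trans (abs_nonneg _) (hg 0)
  have h1 := Finset.sum_filter_add_sum_filter_not (BB sh p) (fun s => s + δ ∉ BB sh p)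
    (fun s => g (s + δ))
  have h2 := Finset.sum_filter_add_sum_filter_not (BB sh p) (fun s => s + -δ ∉ BB sh p) g
  have h3 : ∑ s ∈ (BB sh p).filter (fun s => ¬ s + δ ∉ BB sh p), g (s + δ) =
      ∑ s ∈ (BB sh p).filter (fun s => ¬ s + -δ ∉ BB sh p), g s := by
    refine Finset.sum_nbij' (fun s => s + δ) (fun s => s + -δ) ?_ ?_ ?_ ?_ ?_
    · intro s hs
      rw [Finset.mem_filter, not_not] at hs ⊢
      refine ⟨hs.2, ?_⟩
      rw [add_neg_cancel_right]
      exact hs.1
    · intro s hs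
      rw [Finset.mem_filter, not_not] at hs ⊢
      refine ⟨hs.2, ?_⟩
      rw [neg_add_cancel_right]
      exact hs.1
    · intro s _
      exact add_neg_cancel_right s δ
    · intro s _
      exact neg_add_cancel_right s δ
    · intro s _
      rfl
  have hc1 := i4_count sh p δ hδ hN hside
  have hc2 := i4_count sh p (-δ) (fun i => by rw [Pi.neg_apply, abs_neg]; exact hδ i) hN hside
  have hb1 : |∑ s ∈ (BB sh p).filter (fun s => s + δ ∉ BB sh p), g (s + δ)| ≤
      M * (m * ((BB sh p).card / N)) := by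
    calc |∑ s ∈ (BB sh p).filter (fun s => s + δ ∉ BB sh p), g (s + δ)|
        ≤ ∑ s ∈ (BB sh p).filter (fun s => s + δ ∉ BB sh p), |g (s + δ)| :=
          Finset.abs_sum_le_sum_abs _ _
      _ ≤ ∑ s ∈ (BB sh p).filter (fun s => s + δ ∉ BB sh p), M :=
          Finset.sum_le_sum fun s _ => hg _
      _ = (((BB sh p).filter fun s => s + δ ∉ BB sh p).card : ℝ) * M := by
          rw [Finset.sum_const, nsmul_eq_mul]
      _ ≤ _ := by
          rw [mul_comm]
          exact mul_le_mul_of_nonneg_left hc1 hM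
  have hb2 : |∑ s ∈ (BB sh p).filter (fun s => s + -δ ∉ BB sh p), g s| ≤
      M * (m * ((BB sh p).card / N)) := by
    calc |∑ s ∈ (BB sh p).filter (fun s => s + -δ ∉ BB sh p), g s|
        ≤ ∑ s ∈ (BB sh p).filter (fun s => s + -δ ∉ BB sh p), |g s| :=
          Finset.abs_sum_le_sum_abs _ _
      _ ≤ ∑ s ∈ (BB sh p).filter (fun s => s + -δ ∉ BB sh p), M :=
          Finset.sum_le_sum fun s _ => hg _
      _ = (((BB sh p).filter fun s => s + -δ ∉ BB sh p).card : ℝ) * M := by
          rw [Finset.sum_const, nsmul_eq_mul]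
      _ ≤ _ := by
          rw [mul_comm]
          exact mul_le_mul_of_nonneg_left hc2 hM
  rw [← h1, ← h2, h3]
  have e : ∑ s ∈ (BB sh p).filter (fun s => s + δ ∉ BB sh p), g (s + δ) +
        ∑ s ∈ (BB sh p).filter (fun s => ¬ s + -δ ∉ BB sh p), g s -
      (∑ s ∈ (BB sh p).filter (fun s => s + -δ ∉ BB sh p), g s +
        ∑ s ∈ (BB sh p).filter (fun s => ¬ s + -δ ∉ BB sh p), g s) =
      ∑ s ∈ (BB sh p).filter (fun s => s + δ ∉ BB sh p), g (s + δ) -
        ∑ s ∈ (BB sh p).filter (fun s => s + -δ ∉ BB sh p), g s := by ring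
  rw [e]
  calc _ ≤ _ := abs_sub _ _
    _ ≤ M * (m * ((BB sh p).card / N)) + M * (m * ((BB sh p).card / N)) := add_le_add hb1 hb2
    _ = 2 * M * (m * ((BB sh p).card / N)) := by ring

/-- the action of `W_k` on the points -/
private theorem i4_yh {m : ℕ} (Λ : ℕ) (v : Fin m → ℝ) (y0 : X (m + 1)) (k : Fin (m + 1))
    (s : Fin m → ℤ) :
    W Λ k • yh Λ v y0 s = yh Λ v y0
      (s + fun l => ((if l.castSucc = k then 1 else 0) - (if l.succ = k then 1 else 0))) := by
  have h1 := bb_shift (Λ := Λ) k s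
  have h2 : (s + fun l => (((if l.castSucc = k then 1 else 0) - (if l.succ = k then 1 else 0)) : ℤ))
      = fun l => s l + ((if l.castSucc = k then 1 else 0) - (if l.succ = k then 1 else 0)) := rfl
  unfold yh
  rw [h2, h1, smul_smul, _root_.mul_inv_rev, inv_inv, mul_assoc]

/-- the averages of `f` and of `tw W_k f` are close -/
private theorem i4_avg {m : ℕ} {Λ : ℕ} (sh : ℕ → Fin m → ℤ) (p : ℕ → ℤ)
    (E : ℕ → Finset (SLn (m + 1))) (v : ℕ → SLn (m + 1) → Fin m → ℝ) (y0 : ℕ → X (m + 1))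
    (r : ℕ) (k : Fin (m + 1)) {N : ℝ} (hN : 0 < N)
    (hside : ∀ i, N ≤ ((sh r i - p r + 1 - p r : ℤ) : ℝ))
    (f : C_c(X (m + 1), ℝ)) {M : ℝ} (hM : 0 ≤ M) (hf : ∀ y, |f y| ≤ M) :
    |avgF (fam sh p E r) (fpt Λ v y0 r) (tw (W Λ k) f) -
      avgF (fam sh p E r) (fpt Λ v y0 r) f| ≤ 2 * M * (m / N) := by
  set δ : Fin m → ℤ := fun l => ((if l.castSucc = k then 1 else 0) - (if l.succ = k then 1 else 0))
    with hδ
  have hδ1 : ∀ i, |δ i| ≤ 1 := by
    intro i
    rw [hδ]
    dsimp only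
    split_ifs <;> norm_num
  unfold avgF fam
  rw [Finset.sum_product, Finset.sum_product, Finset.card_product, ← sub_div,
    ← Finset.sum_sub_distrib]
  have hx : ∀ x, |∑ s ∈ BB (sh r) (p r), (tw (W Λ k) f) (fpt Λ v y0 r (x, s)) -
      ∑ s ∈ BB (sh r) (p r), f (fpt Λ v y0 r (x, s))| ≤
      2 * M * (m * ((BB (sh r) (p r)).card / N)) := by
    intro x
    have h1 := i4_sum (sh r) (p r) δ hδ1 hN hside (fun s => f (yh Λ (v r x) (y0 r) s))
      (M := M) fun s => hf _
    have h2 : ∀ s, (tw (W Λ k) f) (fpt Λ v y0 r (x, s)) = f (yh Λ (v r x) (y0 r) (s + δ)) := by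
      intro s
      rw [tw_apply]
      congr 1
      exact i4_yh Λ (v r x) (y0 r) k s
    rw [Finset.sum_congr rfl fun s _ => h2 s]
    exact h1
  have hsum : |∑ x ∈ E r, (∑ s ∈ BB (sh r) (p r), (tw (W Λ k) f) (fpt Λ v y0 r (x, s)) -
      ∑ s ∈ BB (sh r) (p r), f (fpt Λ v y0 r (x, s)))| ≤
      (E r).card * (2 * M * (m * ((BB (sh r) (p r)).card / N))) := by
    calc _ ≤ ∑ x ∈ E r, |∑ s ∈ BB (sh r) (p r), (tw (W Λ k) f) (fpt Λ v y0 r (x, s)) -
      ∑ s ∈ BB (sh r) (p r), f (fpt Λ v y0 r (x, s))| := Finset.abs_sum_le_sum_abs _ _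
      _ ≤ ∑ x ∈ E r, (2 * M * (m * ((BB (sh r) (p r)).card / N))) :=
        Finset.sum_le_sum fun x _ => hx x
      _ = _ := by rw [Finset.sum_const, nsmul_eq_mul]
  rw [abs_div]
  have hc : |(((E r).card * (BB (sh r) (p r)).card : ℕ) : ℝ)| =
      ((E r).card : ℝ) * ((BB (sh r) (p r)).card : ℝ) := by
    rw [abs_of_nonneg (Nat.cast_nonneg _)]
    push_cast
    rfl
  rw [hc]
  rcases eq_or_lt_of_le (mul_nonneg (Nat.cast_nonneg (α := ℝ) (E r).card)
    (Nat.cast_nonneg (α := ℝ) (BB (sh r) (p r)).card)) with h0 | h0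
  · rw [← h0, div_zero]
    positivity
  · rw [div_le_iff₀ h0]
    refine le_trans hsum (le_of_eq ?_)
    field_simp

theorem limM_inv {m : ℕ} {Λ : ℕ} {η C : ℝ} {t : ℕ → ℝ} {sh : ℕ → Fin m → ℤ} {p : ℕ → ℤ}
    {E : ℕ → Finset (SLn (m + 1))} {v : ℕ → SLn (m + 1) → Fin m → ℝ} {y0 : ℕ → X (m + 1)}
    (hF : FSys m Λ η C t sh p E v y0) {U : Ultrafilter ℕ} (hU : (U : Filter ℕ) ≤ atTop)
    {μ : Measure (X (m + 1))} (h : LimM U (fam sh p E) (fpt Λ v y0) μ) (k : Fin (m + 1)) :
    Inv μ (W Λ k) := by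
  have hmeas : Measurable fun y : X (m + 1) => W Λ k • y := (continuous_const_smul _).measurable
  have hL : LimM U (fam sh p E) (fpt Λ v y0) (μ.map fun y => W Λ k • y) := by
    refine ⟨?_, fun f => ?_⟩
    · rw [Measure.map_apply hmeas MeasurableSet.univ, Set.preimage_univ]
      exact h.le_one
    · have h1 := h.lim (tw (W Λ k) f)
      have h2 : ∫ y, (tw (W Λ k) f) y ∂μ = ∫ y, f y ∂(μ.map fun y => W Λ k • y) := by
        have hfc : Continuous fun y : X (m + 1) => f y := f.continuous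
        exact (integral_map hmeas.aemeasurable (f := fun y : X (m + 1) => f y)
          hfc.aestronglyMeasurable).symm
      rw [h2] at h1
      obtain ⟨M, hM⟩ := f.continuous.bounded_above_of_compact_support f.hasCompactSupport
      have hM' : ∀ y, |f y| ≤ M := fun y => by
        have := hM y
        rwa [Real.norm_eq_abs] at this
      have hM0 : 0 ≤ M := le_trans (abs_nonneg _) (hM' (y0 0))
      -- the sides tend to infinity
      have hp : Tendsto (fun r => ((p r : ℤ) : ℝ)) U atTop :=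
        tendsto_intCast_atTop_atTop.comp (hF.hp.mono_left hU)
      have hdiff : Tendsto (fun r => avgF (fam sh p E r) (fpt Λ v y0 r) (tw (W Λ k) f) -
          avgF (fam sh p E r) (fpt Λ v y0 r) f) U (𝓝 0) := by
        have hbd : Tendsto (fun r => 2 * M * ((m : ℝ) / ((p r : ℤ) : ℝ))) U (𝓝 0) := by
          have h3 : Tendsto (fun r => (m : ℝ) / ((p r : ℤ) : ℝ)) U (𝓝 0) :=
            hp.const_div_atTop _
          simpa using h3.const_mul (2 * M)
        refine squeeze_zero_norm' ?_ hbd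
        filter_upwards [hp.eventually_gt_atTop 0] with r hr
        rw [Real.norm_eq_abs]
        refine i4_avg sh p E v y0 r k hr (fun i => ?_) f hM0 hM'
        have h4 := hF.side r i
        have h5 : (0 : ℤ) < p r := by exact_mod_cast hr
        have h6 : p r ≤ sh r i - p r + 1 - p r := by linarith
        exact_mod_cast h6
      have h3 := h1.sub hdiff
      rw [sub_zero] at h3
      refine h3.congr fun r => ?_
      ring
  exact limM_unique hL h

end Pool.Agent.Lib.MP_41a456_al.TC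
end

section

/-!
# MP_41a456_al, Theorem TC, I3b: the involution and reindexing

Paper 521, section 9, `n = m + 1`.
`continuous_th`: `theta` is continuous and `pt` is a quotient map. `th_th`: `theta (theta g) = g`.
`limM_th`: `f ∘ th ∈ C_c`. `limM_reindex`: the map `s ↦ sh - s` is an involution of `BB`.
-/

namespace Pool.Agent.Lib.MP_41a456_al.TC

open Matrix MeasureTheory Filter Topology Pool.Agent.Lib.MP_41a456_al

open scoped CompactlySupported

private theorem I3b_continuous_theta (n : ℕ) : Continuous (theta n : SLr n → SLr n) := by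
  have h1 : Continuous (tr : SLr n → SLr n) := by
    refine Continuous.subtype_mk ?_ _
    exact continuous_subtype_val.matrix_transpose
  exact h1.inv

theorem continuous_th {n : ℕ} : Continuous (th : X n → X n) := by
  have hq : IsQuotientMap (pt (n := n)) :=
    (isOpenMap_pt n).isQuotientMap (continuous_pt n) pt_surjective
  rw [hq.continuous_iff]
  have h1 : (th ∘ pt : SLr n → X n) = pt ∘ theta n := by
    funext g
    exact th_pt g
  rw [h1]
  exact (continuous_pt n).comp (I3b_continuous_theta n)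

theorem th_th {n : ℕ} (y : X n) : th (th y) = y := by
  obtain ⟨g, rfl⟩ := pt_surjective y
  rw [th_pt, th_pt]
  congr 1
  rw [theta_apply g, map_inv, theta_apply, inv_inv]
  apply Subtype.ext
  exact Matrix.transpose_transpose _

private def I3b_homeo (n : ℕ) : X n ≃ₜ X n where
  toFun := th
  invFun := th
  left_inv := th_th
  right_inv := th_th
  continuous_toFun := continuous_th
  continuous_invFun := continuous_th

theorem limM_th {n : ℕ} {ι : Type} {U : Ultrafilter ℕ} {F : ℕ → Finset ι}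
    {z : ℕ → ι → X n} {μ : Measure (X n)} (h : LimM U F z μ) :
    LimM U F (fun r i => th (z r i)) (μ.map th) := by
  refine ⟨?_, fun f => ?_⟩
  · rw [Measure.map_apply continuous_th.measurable MeasurableSet.univ, Set.preimage_univ]
    exact h.le_one
  · have hc : HasCompactSupport (fun y => f (th y)) :=
      f.hasCompactSupport.comp_homeomorph (I3b_homeo n)
    have hcont : Continuous (fun y => f (th y)) := f.continuous.comp continuous_th
    have h1 := h.lim ⟨⟨fun y => f (th y), hcont⟩, hc⟩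
    have h2 : ∫ y, f y ∂(μ.map th) = ∫ y, f (th y) ∂μ :=
      integral_map continuous_th.measurable.aemeasurable f.continuous.aestronglyMeasurable
    rw [h2]
    exact h1

theorem limM_reindex {m : ℕ} {U : Ultrafilter ℕ} {Λ : ℕ} {sh : ℕ → Fin m → ℤ} {p : ℕ → ℤ}
    {E : ℕ → Finset (SLn (m + 1))} {v : ℕ → SLn (m + 1) → Fin m → ℝ} {y0 : ℕ → X (m + 1)}
    {μ : Measure (X (m + 1))} (h : LimM U (fam sh p E) (fpt Λ v y0) μ) :
    LimM U (fam sh p E) (fun r xs => yh Λ (v r xs.1) (y0 r) fun i => sh r i - xs.2 i) μ := by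
  refine ⟨h.le_one, fun f => ?_⟩
  have h1 := h.lim f
  have h2 : (fun r => avgF (fam sh p E r) (fpt Λ v y0 r) f) = fun r =>
      avgF (fam sh p E r) (fun xs => yh Λ (v r xs.1) (y0 r) fun i => sh r i - xs.2 i) f := by
    funext r
    unfold avgF
    congr 1
    have hmem : ∀ xs ∈ fam sh p E r,
        ((xs.1, fun i => sh r i - xs.2 i) : SLn (m + 1) × (Fin m → ℤ)) ∈ fam sh p E r := by
      intro xs hxs
      unfold fam at hxs ⊢
      rw [Finset.mem_product] at hxs ⊢
      refine ⟨hxs.1, ?_⟩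
      have h3 := hxs.2
      unfold BB at h3 ⊢
      rw [Fintype.mem_piFinset] at h3 ⊢
      intro i
      have h4 := Finset.mem_Icc.1 (h3 i)
      rw [Finset.mem_Icc]
      constructor
      · linarith [h4.2]
      · linarith [h4.1]
    refine Finset.sum_nbij' (fun xs => (xs.1, fun i => sh r i - xs.2 i))
      (fun xs => (xs.1, fun i => sh r i - xs.2 i)) hmem hmem ?_ ?_ ?_
    · intro xs _
      apply Prod.ext
      · rfl
      · funext i
        exact sub_sub_cancel _ _
    · intro xs _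
      apply Prod.ext
      · rfl
      · funext i
        exact sub_sub_cancel _ _
    · intro xs _
      unfold fpt
      congr 2
      funext i
      exact (sub_sub_cancel _ _).symm
  rw [h2] at h1
  exact h1

end Pool.Agent.Lib.MP_41a456_al.TC
end

section

/-!
# MP_41a456_al, Theorem TC, J3: the backward inequality from the forward one (paper 521, (9.2))

Paper 521, section 10, `n = m + 1`.
`Ψ y = th (ex c • y)` is a homeomorphism of `X n` with inverse `y ↦ ex (-c) • th y`, and `μ' = μ.map Ψ`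
(`hμ` : `μ'.map th = μ.map (ex c • ·)`, apply `th`). For the sets `Z j` of `hb` put `Z' j = Ψ '' Z j`:
`Ψ (u_0j(q) y) = u_j0(-q') Ψ y` with `q' = exp (c_0 - c_j) q` (`ex_uel`, `theta_uel`, `th_smul`), so `Ψ` maps
`u_{0,j.succ}`-discrete sets to `u_{j.succ,0}`-discrete ones; `Ψ (W_k y) = W_k⁻¹ Ψ y` (`theta_ex`), so `WInv` is kept;
`μ' (Z' j) = μ (Z j)`, `μ' univ = μ univ`.
-/

namespace Pool.Agent.Lib.MP_41a456_al.TC

open Matrix MeasureTheory Filter Topology Pool.Agent.Lib.MP_41a456_al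

private theorem J3_inv {n : ℕ} (c : Fin n → ℝ) (y : X n) : th (ex c • th (ex c • y)) = y := by
  rw [th_smul, th_th, theta_ex, inv_smul_smul]

private theorem J3_cont {n : ℕ} (c : Fin n → ℝ) : Continuous fun y : X n => th (ex c • y) :=
  continuous_th.comp (continuous_const_smul (ex c))

private theorem J3_W {n : ℕ} (Λ : ℕ) (c : Fin n → ℝ) (k : Fin n) (y : X n) :
    th (ex c • W Λ k • y) = (W Λ k)⁻¹ • th (ex c • y) := by
  rw [smul_smul, W, ex_comm, ← smul_smul, th_smul, theta_ex]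

private theorem J3_uel {n : ℕ} (c : Fin n → ℝ) (i j : Fin n) (q : ℝ) (y : X n) :
    th (ex c • uel i j q • y) = uel j i (-(Real.exp (c i - c j) * q)) • th (ex c • y) := by
  have h : ex c • uel i j q • y = uel i j (Real.exp (c i - c j) * q) • ex c • y := by
    rw [← ex_uel, smul_smul, smul_smul, inv_mul_cancel_right]
  rw [h, th_smul, theta_uel]

theorem backward {m : ℕ} {Λ : ℕ} (hΛ : 2 ≤ Λ) (μ μ' : Measure (X (m + 1))) [IsFiniteMeasure μ]
    [IsFiniteMeasure μ'] (c : Fin (m + 1) → ℝ) (hμ : μ'.map th = μ.map fun y => ex c • y) {R : ℝ}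
    (hf : ∀ Z : Fin m → Set (X (m + 1)), (∀ j, MeasurableSet (Z j)) → (∀ j, WInv Λ (Z j)) →
      (∀ j, CD μ' j.succ 0 (Z j)) → (Pairwise fun i j => Disjoint (Z i) (Z j)) →
      9 / 10 * ∑ j, (μ' (Z j)).toReal + 1 / 2 * (1 - (μ' Set.univ).toReal) ≤ R)
    (Z : Fin m → Set (X (m + 1))) (hZ : ∀ j, MeasurableSet (Z j)) (hW : ∀ j, WInv Λ (Z j))
    (hCD : ∀ j, CD μ 0 j.succ (Z j)) (hd : Pairwise fun i j => Disjoint (Z i) (Z j)) :
    9 / 10 * ∑ j, (μ (Z j)).toReal + 1 / 2 * (1 - (μ Set.univ).toReal) ≤ R := by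
  have hΨ : Measurable fun y : X (m + 1) => th (ex c • y) := (J3_cont c).measurable
  have hex : Measurable fun y : X (m + 1) => ex c • y := (continuous_const_smul (ex c)).measurable
  have hth : Measurable (th : X (m + 1) → X (m + 1)) := continuous_th.measurable
  have hμ' : μ' = μ.map fun y => th (ex c • y) := by
    have h1 : (μ'.map th).map th = (μ.map fun y => ex c • y).map th := by rw [hμ]
    rw [Measure.map_map hth hth, Measure.map_map hth hex] at h1
    have h2 : (th ∘ th : X (m + 1) → X (m + 1)) = id := by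
      funext y
      exact th_th y
    rw [h2, Measure.map_id] at h1
    exact h1
  have hpre : ∀ S : Set (X (m + 1)), MeasurableSet S →
      μ' ((fun y => th (ex c • y)) ⁻¹' S) = μ S := by
    intro S hS
    rw [hμ', Measure.map_apply hΨ (hΨ hS)]
    congr 1
    ext y
    change th (ex c • th (ex c • y)) ∈ S ↔ y ∈ S
    rw [J3_inv]
  have h := hf (fun j => (fun y => th (ex c • y)) ⁻¹' Z j) (fun j => hΨ (hZ j)) ?_ ?_ ?_
  · have h1 : ∀ j, μ' ((fun y => th (ex c • y)) ⁻¹' Z j) = μ (Z j) := fun j => hpre _ (hZ j)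
    have h2 : μ' Set.univ = μ Set.univ := by
      have h3 := hpre Set.univ MeasurableSet.univ
      rwa [Set.preimage_univ] at h3
    simp only [h1, h2] at h
    exact h
  · intro j k y
    change th (ex c • W Λ k • y) ∈ Z j ↔ th (ex c • y) ∈ Z j
    rw [J3_W, ← hW j k ((W Λ k)⁻¹ • th (ex c • y)), smul_inv_smul]
  · intro j
    obtain ⟨S, hS, hS0⟩ := hCD j
    refine ⟨fun l => (fun y => th (ex c • y)) ⁻¹' S l, fun l => ⟨hΨ (hS l).1, ?_⟩, ?_⟩
    · obtain ⟨e, he, hD⟩ := (hS l).2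
      refine ⟨e * Real.exp (-(c j.succ - c 0)), by positivity, ?_⟩
      intro y hy q hq hqy
      have hy' : th (ex c • y) ∈ S l := hy
      have hqy' : th (ex c • uel j.succ 0 q • y) ∈ S l := hqy
      rw [J3_uel] at hqy'
      have h1 := hD _ hy' _ ?_ hqy'
      · rw [neg_eq_zero] at h1
        rcases mul_eq_zero.1 h1 with h2 | h2
        · exact absurd h2 (Real.exp_ne_zero _)
        · exact h2
      · rw [abs_neg, abs_mul, Real.abs_exp]
        calc Real.exp (c j.succ - c 0) * |q|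
            ≤ Real.exp (c j.succ - c 0) * (e * Real.exp (-(c j.succ - c 0))) :=
              mul_le_mul_of_nonneg_left hq (Real.exp_pos _).le
          _ = e := by
              rw [mul_left_comm, ← Real.exp_add, add_neg_cancel, Real.exp_zero, mul_one]
    · have h1 : (fun y => th (ex c • y)) ⁻¹' Z j \ ⋃ l, (fun y => th (ex c • y)) ⁻¹' S l =
          (fun y => th (ex c • y)) ⁻¹' (Z j \ ⋃ l, S l) := by
        rw [Set.preimage_sdiff, Set.preimage_iUnion]
      rw [h1, hpre _ ((hZ j).diff (MeasurableSet.iUnion fun l => (hS l).1))]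
      exact hS0
  · intro i j hij
    exact (hd hij).preimage _

end Pool.Agent.Lib.MP_41a456_al.TC
end

section

/-!
# MP_41a456_al, Theorem TC, I3: perturbation of the points

Paper 521, section 9, `n = m + 1`.
For `f ∈ C_c`: `|f ((g * g0) • y) - f (g0 • y)| ≤ ε` for `g` in a neighbourhood of `1` (`unif_Cc`), so
`avgF f (z') - avgF (tw g0 f) z → 0`, and `∫ tw g0 f dμ = ∫ f d(μ.map (g0 • ·))`. For `limM_perturb_ex`:
`d r → d∞` along `U` (bounded), `g ex (d r) = (g ex (d r - d∞)) ex d∞`, `ex (d r - d∞) → 1`. `limM_th`: `f ∘ th` is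
in `C_c` (`th` is a homeomorphism: `continuous_theta`, quotient map; `th (th y) = y`).
-/

namespace Pool.Agent.Lib.MP_41a456_al.TC

open Matrix MeasureTheory Filter Topology Pool.Agent.Lib.MP_41a456_al

open scoped CompactlySupported

theorem I3.avgF_sub_le {ι Z : Type*} {F : Finset ι} {z z' : ι → Z} {f g : Z → ℝ} {ε : ℝ}
    (hε : 0 ≤ ε) (h : ∀ i ∈ F, |f (z i) - g (z' i)| ≤ ε) :
    |avgF F z f - avgF F z' g| ≤ ε := by
  unfold avgF
  rw [← sub_div, ← Finset.sum_sub_distrib, abs_div, abs_of_nonneg (Nat.cast_nonneg F.card : (0 : ℝ) ≤ F.card)]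
  rcases Nat.eq_zero_or_pos F.card with h0 | h0
  · rw [h0, Nat.cast_zero, div_zero]
    exact hε
  · have h1 : (0 : ℝ) < F.card := by exact_mod_cast h0
    rw [div_le_iff₀ h1]
    calc |∑ i ∈ F, (f (z i) - g (z' i))| ≤ ∑ i ∈ F, |f (z i) - g (z' i)| :=
          Finset.abs_sum_le_sum_abs _ _
      _ ≤ ∑ i ∈ F, ε := Finset.sum_le_sum h
      _ = ε * F.card := by rw [Finset.sum_const, nsmul_eq_mul, mul_comm]

theorem limM_perturb {n : ℕ} {ι : Type} {U : Ultrafilter ℕ} {F : ℕ → Finset ι}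
    {z z' : ℕ → ι → X n} {μ : Measure (X n)} (h : LimM U F z μ) (g0 : SLr n)
    (hz : ∀ V ∈ 𝓝 (1 : SLr n), ∀ᶠ r in (U : Filter ℕ), ∀ i ∈ F r, ∃ g ∈ V,
      z' r i = (g * g0) • z r i) : LimM U F z' (μ.map fun y => g0 • y) := by
  refine ⟨?_, fun f => ?_⟩
  · rw [Measure.map_apply (measurable_smul_X g0) MeasurableSet.univ, Set.preimage_univ]
    exact h.le_one
  · have h1 : ∫ y, f y ∂(μ.map fun y => g0 • y) = ∫ y, tw g0 f y ∂μ := by
      have hfm : AEStronglyMeasurable (fun y => f y) (μ.map fun y => g0 • y) :=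
        f.continuous.measurable.aestronglyMeasurable
      rw [integral_map (measurable_smul_X g0).aemeasurable hfm]
      rfl
    rw [h1]
    have h2 := h.lim (tw g0 f)
    refine (tendsto_iff_of_dist ?_).1 h2
    rw [Metric.tendsto_nhds]
    intro ε hε
    have hV := unif_Cc f (half_pos hε)
    filter_upwards [hz _ hV] with r hr
    rw [Real.dist_eq, sub_zero, abs_of_nonneg dist_nonneg, Real.dist_eq]
    have h3 : |avgF (F r) (z r) (tw g0 f) - avgF (F r) (z' r) f| ≤ ε / 2 := by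
      refine I3.avgF_sub_le (half_pos hε).le fun i hi => ?_
      obtain ⟨g, hg, hgz⟩ := hr i hi
      rw [tw_apply, hgz, mul_smul, abs_sub_comm]
      exact hg (g0 • z r i)
    linarith

/-- the limit of the exponents along the ultrafilter, and the perturbation -/
theorem limM_perturb_ex {m : ℕ} {ι : Type} {U : Ultrafilter ℕ} {F : ℕ → Finset ι}
    {z z' : ℕ → ι → X (m + 1)} {μ : Measure (X (m + 1))} (h : LimM U F z μ)
    (d : ℕ → Fin (m + 1) → ℝ) (d0 : Fin (m + 1) → ℝ) (hd : Tendsto d U (𝓝 d0))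
    (hz : ∀ V ∈ 𝓝 (1 : SLr (m + 1)), ∀ᶠ r in (U : Filter ℕ), ∀ i ∈ F r, ∃ g ∈ V,
      z' r i = (g * ex (d r)) • z r i) : LimM U F z' (μ.map fun y => ex d0 • y) := by
  refine limM_perturb h (ex d0) fun V hV => ?_
  have hmul : Tendsto (fun p : SLr (m + 1) × SLr (m + 1) => p.1 * p.2) (𝓝 (1, 1)) (𝓝 1) := by
    have h1 : Continuous fun p : SLr (m + 1) × SLr (m + 1) => p.1 * p.2 := continuous_mul
    have h2 := h1.tendsto ((1, 1) : SLr (m + 1) × SLr (m + 1))
    simpa using h2
  have h3 := hmul hV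
  rw [Filter.mem_map, nhds_prod_eq, Filter.mem_prod_iff] at h3
  obtain ⟨V1, hV1, V2, hV2, hsub⟩ := h3
  have h4 : Tendsto (fun r => ex (d r - d0)) (U : Filter ℕ) (𝓝 (1 : SLr (m + 1))) := by
    have h5 : Tendsto (fun r => d r - d0) (U : Filter ℕ) (𝓝 (d0 - d0)) :=
      hd.sub tendsto_const_nhds
    rw [sub_self] at h5
    have h6 := (continuous_ex (n := m + 1)).tendsto (0 : Fin (m + 1) → ℝ)
    rw [ex_zero] at h6
    exact h6.comp h5
  filter_upwards [hz V1 hV1, h4 hV2] with r hr1 hr2 i hi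
  obtain ⟨g, hg, hgz⟩ := hr1 i hi
  refine ⟨g * ex (d r - d0), hsub (Set.mk_mem_prod hg hr2), ?_⟩
  rw [hgz, mul_assoc, ← ex_add, sub_add_cancel]

/-- a bounded sequence has a limit along an ultrafilter -/
theorem exists_lim_bdd {m : ℕ} (U : Ultrafilter ℕ) (d : ℕ → Fin (m + 1) → ℝ) {C : ℝ}
    (hd : ∀ r i, |d r i| ≤ C) : ∃ d0, Tendsto d U (𝓝 d0) := by
  have hK : IsCompact (Set.pi Set.univ fun _ : Fin (m + 1) => Set.Icc (-C) C) :=
    isCompact_univ_pi fun _ => isCompact_Icc
  obtain ⟨d0, -, hd0⟩ := hK.ultrafilter_le_nhds' (U.map d) (by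
    rw [Ultrafilter.mem_map]
    refine Filter.univ_mem' fun r => ?_
    intro i _
    exact abs_le.1 (hd r i))
  exact ⟨d0, hd0⟩

end Pool.Agent.Lib.MP_41a456_al.TC
end
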