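import Pool.Agent.Lib.MP_41a456_al.TC.D7
import Pool.Agent.Lib.MP_41a456_al.TC.H6
import Pool.Agent.Lib.MP_41a456_al.TC.A5

section

/-!
# MP_41a456_al, Theorem TC, B4: the main estimate (paper 521, (2.4))

The minors of `e^b M e^c` are `exp (∑ b (f i) + ∑ c (g i)) det (M.submatrix f g)`. If `f` and
`g` are rearrangements of the first `k = i + 1` indices (`(k!)^2` pairs) this has absolute value
`exp (sk k b + sk k c) |mk k M|`. If `f` is injective and not of this kind then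
`∑ b (f i) ≤ sk k b - gap b i` (`b` antitone), the same for `g`. So
`N_k(e^b M e^c) = ‖(u, v)‖` with `u = exp (sk k b + sk k c) |mk k M|` and
`‖v‖ ≤ exp (sk k b + sk k c) N_k(M) max(exp (-gap b i), exp (-gap c i))`.
-/

namespace Pool.Agent.Lib.MP_41a456_al.TC

open Matrix MeasureTheory Filter Topology Pool.Agent.Lib.MP_41a456_al

private theorem ex_coe' {n : ℕ} {b : Fin n → ℝ} (hb : ∑ j, b j = 0) :
    (ex b : Mr n) = diagonal fun j => Real.exp (b j) := by
  unfold ex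
  simp only [hb, zero_div, sub_zero]

private theorem det_sub {n k : ℕ} (u v : Fin n → ℝ) (M : Mr n) (f g : Fin k → Fin n) :
    ((diagonal u * M * diagonal v).submatrix f g).det =
      (∏ r, u (f r)) * (∏ r, v (g r)) * (M.submatrix f g).det := by
  have h : (diagonal u * M * diagonal v).submatrix f g =
      diagonal (fun r => u (f r)) * M.submatrix f g * diagonal (fun r => v (g r)) := by
    ext r s
    simp only [submatrix_apply, mul_diagonal, diagonal_mul]
  rw [h, det_mul, det_mul, det_diagonal, det_diagonal]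
  ring

private theorem ld_val {m k : ℕ} (hk : k ≤ m + 1) (r : Fin k) : ((ld m k r : Fin (m + 1)) : ℕ) = r := by
  unfold ld
  have := r.2
  simp only [Fin.ofNat]
  exact Nat.mod_eq_of_lt (by omega)

private theorem ld_inj {m k : ℕ} (hk : k ≤ m + 1) : Function.Injective (ld m k) := by
  intro r s h
  have := congrArg (fun x : Fin (m + 1) => (x : ℕ)) h
  simp only [ld_val hk] at this
  exact Fin.ext this

/-- the rearrangements of the first `k` indices -/
private noncomputable def AA (m k : ℕ) : Finset (Fin k → Fin (m + 1)) :=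
  Finset.univ.image fun σ : Equiv.Perm (Fin k) => ld m k ∘ σ

private theorem card_AA {m k : ℕ} (hk : k ≤ m + 1) : (AA m k).card = k.factorial := by
  unfold AA
  rw [Finset.card_image_of_injective, Finset.card_univ, Fintype.card_perm, Fintype.card_fin]
  intro σ τ h
  refine Equiv.ext fun r => ld_inj hk ?_
  exact congrFun h r

private theorem image_ld {m k : ℕ} (hk : k ≤ m + 1) :
    Finset.univ.image (ld m k) = Finset.univ.filter (fun i : Fin (m + 1) => (i : ℕ) < k) := by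
  ext j
  simp only [Finset.mem_image, Finset.mem_univ, true_and, Finset.mem_filter]
  constructor
  · rintro ⟨r, rfl⟩
    rw [ld_val hk]; exact r.2
  · intro h
    refine ⟨⟨j, h⟩, Fin.ext ?_⟩
    rw [ld_val hk]

private theorem sum_of_mem_AA {m k : ℕ} (hk : k ≤ m + 1) {f : Fin k → Fin (m + 1)}
    (hf : f ∈ AA m k) (b : Fin (m + 1) → ℝ) : ∑ r, b (f r) = sk k b := by
  unfold AA at hf
  simp only [Finset.mem_image, Finset.mem_univ, true_and] at hf
  obtain ⟨σ, rfl⟩ := hf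
  have h1 : ∑ r, b ((ld m k ∘ σ) r) = ∑ r, b (ld m k r) :=
    Equiv.sum_comp σ (fun r => b (ld m k r))
  rw [h1, sk, ← image_ld hk, Finset.sum_image fun r _ s _ h => ld_inj hk h]

private theorem mem_AA_of_image {m k : ℕ} (hk : k ≤ m + 1) {f : Fin k → Fin (m + 1)}
    (hf : Function.Injective f)
    (h : Finset.univ.image f = Finset.univ.filter (fun i : Fin (m + 1) => (i : ℕ) < k)) :
    f ∈ AA m k := by
  have h1 : ∀ r, ((f r : Fin (m + 1)) : ℕ) < k := by
    intro r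
    have : f r ∈ Finset.univ.image f := Finset.mem_image_of_mem _ (Finset.mem_univ r)
    rw [h] at this
    simpa using this
  let s : Fin k → Fin k := fun r => ⟨f r, h1 r⟩
  have hs : Function.Injective s := by
    intro r t hrt
    apply hf
    have := congrArg (fun x : Fin k => (x : ℕ)) hrt
    exact Fin.ext this
  let σ : Equiv.Perm (Fin k) := Equiv.ofBijective s (Finite.injective_iff_bijective.mp hs)
  unfold AA
  simp only [Finset.mem_image, Finset.mem_univ, true_and]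
  refine ⟨σ, funext fun r => Fin.ext ?_⟩
  rw [Function.comp_apply, ld_val hk]
  rfl

/-- the main inequality for sums -/
private theorem sum_le {m k : ℕ} (i : Fin m) (hki : k = (i : ℕ) + 1) {b : Fin (m + 1) → ℝ}
    (hb : Antitone b) {f : Fin k → Fin (m + 1)} (hf : Function.Injective f) :
    (f ∉ AA m k → ∑ r, b (f r) ≤ sk k b - gap b i) ∧ ∑ r, b (f r) ≤ sk k b := by
  classical
  have hk : k ≤ m + 1 := by have := i.2; omega
  set I : Finset (Fin (m + 1)) := Finset.univ.image f with hI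
  set F : Finset (Fin (m + 1)) := Finset.univ.filter (fun i : Fin (m + 1) => (i : ℕ) < k) with hF
  have hcI : I.card = k := by
    rw [hI, Finset.card_image_of_injective _ hf, Finset.card_univ, Fintype.card_fin]
  have hcF : F.card = k := by
    rw [hF, ← image_ld hk, Finset.card_image_of_injective _ (ld_inj hk), Finset.card_univ,
      Fintype.card_fin]
  have hsum : ∑ r, b (f r) = ∑ j ∈ I, b j := by
    rw [hI, Finset.sum_image fun r _ s _ h => hf h]
  have hsk : sk k b = ∑ j ∈ F, b j := rfl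
  have hgap : 0 ≤ gap b i := by
    unfold gap
    have := hb (Fin.castSucc_lt_succ (i := i)).le
    linarith
  have h1 := Finset.sum_inter_add_sum_sdiff I F b
  have h2 := Finset.sum_inter_add_sum_sdiff F I b
  have h3 : ∑ j ∈ I \ F, b j ≤ (I \ F).card * b i.succ := by
    rw [← nsmul_eq_mul]
    refine Finset.sum_le_card_nsmul _ _ _ fun j hj => hb ?_
    rw [Finset.mem_sdiff, hF, Finset.mem_filter] at hj
    have : ¬ ((j : ℕ) < k) := fun h => hj.2 ⟨Finset.mem_univ _, h⟩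
    rw [Fin.le_def, Fin.val_succ]
    omega
  have h4 : (F \ I).card * b i.castSucc ≤ ∑ j ∈ F \ I, b j := by
    rw [← nsmul_eq_mul]
    refine Finset.card_nsmul_le_sum _ _ _ fun j hj => hb ?_
    rw [Finset.mem_sdiff, hF, Finset.mem_filter] at hj
    rw [Fin.le_def, Fin.val_castSucc]
    have := hj.1.2
    omega
  have h5 : (I \ F).card = (F \ I).card := by
    have e1 := Finset.card_sdiff_add_card_inter I F
    have e2 := Finset.card_sdiff_add_card_inter F I
    rw [Finset.inter_comm] at e2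
    omega
  rw [Finset.inter_comm] at h2
  have h6 : ∑ r, b (f r) ≤ sk k b - (I \ F).card * gap b i := by
    rw [hsum, hsk, ← h1, ← h2]
    unfold gap
    rw [← h5] at h4
    nlinarith
  constructor
  · intro hnot
    have h7 : 1 ≤ (I \ F).card := by
      by_contra hcon
      have h0 : (I \ F).card = 0 := by omega
      have h8 : I ⊆ F := by
        rw [Finset.card_eq_zero, Finset.sdiff_eq_empty_iff_subset] at h0
        exact h0
      have h9 : I = F := Finset.eq_of_subset_of_card_le h8 (by omega)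
      exact hnot (mem_AA_of_image hk hf h9)
    have h8 : (1 : ℝ) ≤ ((I \ F).card : ℝ) := by exact_mod_cast h7
    nlinarith
  · have : (0 : ℝ) ≤ ((I \ F).card : ℝ) * gap b i := by positivity
    linarith

private theorem det_sq_of_mem {m k : ℕ} (M : Mr (m + 1)) {f g : Fin k → Fin (m + 1)}
    (hf : f ∈ AA m k) (hg : g ∈ AA m k) : (M.submatrix f g).det ^ 2 = mk k M ^ 2 := by
  unfold AA at hf hg
  simp only [Finset.mem_image, Finset.mem_univ, true_and] at hf hg
  obtain ⟨σ, rfl⟩ := hf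
  obtain ⟨τ, rfl⟩ := hg
  have h : M.submatrix (ld m k ∘ σ) (ld m k ∘ τ) =
      ((M.submatrix (ld m k) (ld m k)).submatrix σ id).submatrix id τ := by
    rw [submatrix_submatrix, submatrix_submatrix]
    rfl
  rw [h, det_permute', det_permute]
  unfold mk
  have h1 : ((Equiv.Perm.sign σ : ℤ) : ℝ) ^ 2 = 1 := by
    rcases Int.units_eq_one_or (Equiv.Perm.sign σ) with h | h <;> simp [h]
  have h2 : ((Equiv.Perm.sign τ : ℤ) : ℝ) ^ 2 = 1 := by
    rcases Int.units_eq_one_or (Equiv.Perm.sign τ) with h | h <;> simp [h]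
  rw [mul_pow, mul_pow, h1, h2, one_mul, one_mul]

private theorem det_zero_of_not_inj {n k : ℕ} (M : Mr n) {f g : Fin k → Fin n}
    (h : ¬ (Function.Injective f ∧ Function.Injective g)) : (M.submatrix f g).det = 0 := by
  rcases not_and_or.mp h with h | h
  · rw [Function.not_injective_iff] at h
    obtain ⟨r, s, hrs, hne⟩ := h
    exact det_zero_of_row_eq hne (by ext j; simp [hrs])
  · rw [Function.not_injective_iff] at h
    obtain ⟨r, s, hrs, hne⟩ := h
    exact det_zero_of_column_eq hne (fun j => by simp [hrs])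

theorem Nk_main {m : ℕ} (i : Fin m) {b c : Fin (m + 1) → ℝ} (hb : Antitone b) (hc : Antitone c)
    (hbs : ∑ j, b j = 0) (hcs : ∑ j, c j = 0) (M : Mr (m + 1)) :
    |(Nk ((i : ℕ) + 1) ((ex b : Mr (m + 1)) * M * (ex c : Mr (m + 1)))) -
        Real.exp (sk ((i : ℕ) + 1) b + sk ((i : ℕ) + 1) c) * (|mk ((i : ℕ) + 1) M|)| ≤
      Real.exp (sk ((i : ℕ) + 1) b + sk ((i : ℕ) + 1) c) * Nk ((i : ℕ) + 1) M *
        (Real.exp (-(gap b i)) + Real.exp (-(gap c i))) := by
  classical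
  have hk : (i : ℕ) + 1 ≤ m + 1 := by have := i.2; omega
  generalize hki : (i : ℕ) + 1 = k at hk ⊢
  rw [ex_coe' hbs, ex_coe' hcs]
  set Y : Mr (m + 1) := diagonal (fun j => Real.exp (b j)) * M * diagonal (fun j => Real.exp (c j))
    with hY
  set S : ℝ := Real.exp (sk k b + sk k c) with hS
  have hSpos : 0 < S := Real.exp_pos _
  set ε : ℝ := Real.exp (-(gap b i)) + Real.exp (-(gap c i)) with hε
  have hεpos : 0 < ε := by positivity
  have hdet : ∀ f g : Fin k → Fin (m + 1), (Y.submatrix f g).det =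
      Real.exp (∑ r, b (f r) + ∑ r, c (g r)) * (M.submatrix f g).det := by
    intro f g
    rw [hY, det_sub, ← Real.exp_sum, ← Real.exp_sum, ← Real.exp_add]
  let P : Finset ((Fin k → Fin (m + 1)) × (Fin k → Fin (m + 1))) := AA m k ×ˢ AA m k
  have hcardP : (P.card : ℝ) = (k.factorial : ℝ) ^ 2 := by
    rw [Finset.card_product, card_AA hk]; push_cast; ring
  have hsplit : ∀ h : (Fin k → Fin (m + 1)) → (Fin k → Fin (m + 1)) → ℝ,
      ∑ f, ∑ g, h f g = ∑ q ∈ P, h q.1 q.2 + ∑ q ∈ Pᶜ, h q.1 q.2 := by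
    intro h
    rw [Finset.sum_add_sum_compl P (fun q => h q.1 q.2), ← Finset.univ_product_univ,
      Finset.sum_product]
  have hX1 : ∑ q ∈ P, (Y.submatrix q.1 q.2).det ^ 2 = (k.factorial * (S * |mk k M|)) ^ 2 := by
    have : ∀ q ∈ P, (Y.submatrix q.1 q.2).det ^ 2 = (S * |mk k M|) ^ 2 := by
      intro q hq
      rw [Finset.mem_product] at hq
      rw [hdet, sum_of_mem_AA hk hq.1, sum_of_mem_AA hk hq.2, mul_pow, mul_pow,
        det_sq_of_mem M hq.1 hq.2, sq_abs]
    rw [Finset.sum_congr rfl this, Finset.sum_const, nsmul_eq_mul, hcardP]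
    ring
  set D2 : ℝ := ∑ f : Fin k → Fin (m + 1), ∑ g : Fin k → Fin (m + 1),
    (M.submatrix f g).det ^ 2 with hD2
  have hD2nn : 0 ≤ D2 := Finset.sum_nonneg fun f _ => Finset.sum_nonneg fun g _ => sq_nonneg _
  set X2 : ℝ := ∑ q ∈ Pᶜ, (Y.submatrix q.1 q.2).det ^ 2 with hX2
  have hX2nn : 0 ≤ X2 := Finset.sum_nonneg fun q _ => sq_nonneg _
  have hX2le : X2 ≤ (S * ε) ^ 2 * D2 := by
    have h1 : X2 ≤ ∑ q ∈ Pᶜ, (S * ε) ^ 2 * (M.submatrix q.1 q.2).det ^ 2 := by
      refine Finset.sum_le_sum fun q hq => ?_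
      by_cases hinj : Function.Injective q.1 ∧ Function.Injective q.2
      · rw [hdet, mul_pow]
        refine mul_le_mul_of_nonneg_right ?_ (sq_nonneg _)
        refine pow_le_pow_left₀ (Real.exp_nonneg _) ?_ 2
        have hq' : q.1 ∉ AA m k ∨ q.2 ∉ AA m k := by
          rw [Finset.mem_compl, Finset.mem_product] at hq
          exact not_and_or.mp hq
        have hs1 := sum_le i hki.symm hb hinj.1
        have hs2 := sum_le i hki.symm hc hinj.2
        rcases hq' with h | h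
        · calc Real.exp (∑ r, b (q.1 r) + ∑ r, c (q.2 r))
              ≤ Real.exp ((sk k b + sk k c) + -(gap b i)) := by
                refine Real.exp_le_exp.mpr ?_
                have := hs1.1 h
                have := hs2.2
                linarith
            _ = S * Real.exp (-(gap b i)) := by rw [Real.exp_add]
            _ ≤ S * ε := by
                refine mul_le_mul_of_nonneg_left ?_ hSpos.le
                have := Real.exp_pos (-(gap c i))
                linarith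
        · calc Real.exp (∑ r, b (q.1 r) + ∑ r, c (q.2 r))
              ≤ Real.exp ((sk k b + sk k c) + -(gap c i)) := by
                refine Real.exp_le_exp.mpr ?_
                have := hs2.1 h
                have := hs1.2
                linarith
            _ = S * Real.exp (-(gap c i)) := by rw [Real.exp_add]
            _ ≤ S * ε := by
                refine mul_le_mul_of_nonneg_left ?_ hSpos.le
                have := Real.exp_pos (-(gap b i))
                linarith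
      · rw [hdet, det_zero_of_not_inj M hinj]
        simp
    have h2 : ∑ q ∈ Pᶜ, (S * ε) ^ 2 * (M.submatrix q.1 q.2).det ^ 2 ≤ (S * ε) ^ 2 * D2 := by
      rw [← Finset.mul_sum]
      refine mul_le_mul_of_nonneg_left ?_ (sq_nonneg _)
      rw [hD2, hsplit fun f g => (M.submatrix f g).det ^ 2]
      have : 0 ≤ ∑ q ∈ P, (M.submatrix q.1 q.2).det ^ 2 :=
        Finset.sum_nonneg fun q _ => sq_nonneg _
      linarith
    exact h1.trans h2
  have hfac : (0 : ℝ) < k.factorial := by exact_mod_cast Nat.factorial_pos k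
  have hNY : Nk k Y = Real.sqrt ((k.factorial * (S * |mk k M|)) ^ 2 + X2) / k.factorial := by
    unfold Nk
    rw [hsplit fun f g => (Y.submatrix f g).det ^ 2, hX1]
  have hU : 0 ≤ (k.factorial : ℝ) * (S * |mk k M|) := by positivity
  have hlow : (k.factorial : ℝ) * (S * |mk k M|) ≤
      Real.sqrt ((k.factorial * (S * |mk k M|)) ^ 2 + X2) := by
    refine Real.le_sqrt_of_sq_le ?_
    linarith
  have hup : Real.sqrt ((k.factorial * (S * |mk k M|)) ^ 2 + X2) ≤
      k.factorial * (S * |mk k M|) + S * ε * Real.sqrt D2 := by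
    rw [Real.sqrt_le_left (by positivity)]
    have h1 : (S * ε * Real.sqrt D2) ^ 2 = (S * ε) ^ 2 * D2 := by
      rw [mul_pow, Real.sq_sqrt hD2nn]
    have h2 : 0 ≤ (k.factorial : ℝ) * (S * |mk k M|) * (S * ε * Real.sqrt D2) := by positivity
    nlinarith
  rw [hNY]
  have hNM : Nk k M = Real.sqrt D2 / k.factorial := rfl
  rw [hNM, abs_of_nonneg]
  · rw [sub_le_iff_le_add, div_le_iff₀ hfac]
    calc Real.sqrt ((k.factorial * (S * |mk k M|)) ^ 2 + X2)
        ≤ k.factorial * (S * |mk k M|) + S * ε * Real.sqrt D2 := hup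
      _ = (S * (Real.sqrt D2 / k.factorial) * ε + S * |mk k M|) * k.factorial := by
          field_simp
          ring
  · rw [sub_nonneg, le_div_iff₀ hfac]
    linarith

end Pool.Agent.Lib.MP_41a456_al.TC
end

section

/-!
# MP_41a456_al, Theorem TC, E7: production: compound norms after a conjugation (paper 521, (5.3))

`Nk_main` for `b` and `c = a - b` and matrix `M`, and for `M = 1`:
`N_k(e^b M e^{a-b}) = e^{sk k a} (|mk k M| + O(B 2 e^{-R0}))`, `N_k(e^a) = e^{sk k a} (1 + O(C e^{-R0}))`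
(`k = i + 1`, `N_k(1) ≤ 2^(m+1)`, `mk k 1 = 1`); take logarithms.
-/

namespace Pool.Agent.Lib.MP_41a456_al.TC

open Matrix MeasureTheory Filter Topology Pool.Agent.Lib.MP_41a456_al

private theorem abs_log_le {x τ : ℝ} (hτ : τ ≤ 1 / 2) (h : |x - 1| ≤ τ) : |Real.log x| ≤ 2 * τ := by
  have h0 : 0 ≤ τ := (abs_nonneg _).trans h
  have h1 := abs_le.1 h
  have hx : 1 / 2 ≤ x := by linarith [h1.1]
  have hx0 : 0 < x := by linarith
  refine abs_le.2 ⟨?_, ?_⟩
  · have h2 := Real.one_sub_inv_le_log_of_pos hx0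
    refine le_trans ?_ h2
    rw [← sub_nonneg]
    have h3 : 1 - x⁻¹ - -(2 * τ) = (x - 1 + 2 * τ * x) / x := by
      field_simp
      ring
    rw [h3]
    refine div_nonneg ?_ hx0.le
    nlinarith [h1.1]
  · have h2 := Real.log_le_sub_one_of_pos hx0
    linarith [h1.2]

private theorem ex_coe7 {n : ℕ} {b : Fin n → ℝ} (hb : ∑ j, b j = 0) :
    (ex b : Mr n) = diagonal fun j => Real.exp (b j) := by
  unfold ex
  simp only [hb, zero_div, sub_zero]

private theorem anti_of_gap {m : ℕ} {b : Fin (m + 1) → ℝ} {R0 : ℝ} (h0 : 0 ≤ R0)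
    (h : ∀ i, R0 ≤ gap b i) : Antitone b := by
  rw [Fin.antitone_iff_succ_le]
  intro i
  have := h i
  unfold gap at this
  linarith

private theorem om_main {m : ℕ} (i : Fin m) {b c : Fin (m + 1) → ℝ} {R0 δ B τ : ℝ} (h0 : 0 ≤ R0)
    (hδ : 0 < δ) (hbs : ∑ j, b j = 0) (hcs : ∑ j, c j = 0)
    (hb : ∀ i, R0 ≤ gap b i) (hc : ∀ i, R0 ≤ gap c i) (M : Mr (m + 1))
    (h1 : δ ≤ |mk ((i : ℕ) + 1) M|) (h2 : Nk ((i : ℕ) + 1) M ≤ B)
    (h3 : 2 * B * Real.exp (-R0) ≤ δ * τ) (h4 : τ ≤ 1 / 2) :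
    |Real.log (Nk ((i : ℕ) + 1) ((ex b : Mr (m + 1)) * M * (ex c : Mr (m + 1)))) -
        (sk ((i : ℕ) + 1) b + sk ((i : ℕ) + 1) c) - Real.log (|mk ((i : ℕ) + 1) M|)| ≤ 2 * τ := by
  have hmain := Nk_main i (anti_of_gap h0 hb) (anti_of_gap h0 hc) hbs hcs M
  generalize ((i : ℕ) + 1) = k at h1 h2 hmain ⊢
  set N := Nk k ((ex b : Mr (m + 1)) * M * (ex c : Mr (m + 1))) with hN
  set s := sk k b + sk k c with hs
  set μ := |mk k M| with hμ
  have hμ0 : 0 < μ := hδ.trans_le h1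
  have hS : 0 < Real.exp s := Real.exp_pos _
  have hB : 0 ≤ B := (Nk_nonneg k M).trans h2
  have he : Real.exp (-(gap b i)) + Real.exp (-(gap c i)) ≤ 2 * Real.exp (-R0) := by
    have e1 : Real.exp (-(gap b i)) ≤ Real.exp (-R0) := Real.exp_le_exp.2 (by linarith [hb i])
    have e2 : Real.exp (-(gap c i)) ≤ Real.exp (-R0) := Real.exp_le_exp.2 (by linarith [hc i])
    linarith
  have h5 : |N - Real.exp s * μ| ≤ Real.exp s * μ * τ := by
    refine hmain.trans ?_
    have h6 : Nk k M * (Real.exp (-(gap b i)) + Real.exp (-(gap c i))) ≤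
        B * (2 * Real.exp (-R0)) := by
      refine mul_le_mul h2 he ?_ hB
      positivity
    have hτ : 0 ≤ τ := by
      have : 0 ≤ δ * τ := le_trans (by positivity) h3
      exact nonneg_of_mul_nonneg_right this hδ
    have h7 : δ * τ ≤ μ * τ := mul_le_mul_of_nonneg_right h1 hτ
    rw [mul_assoc, mul_assoc]
    refine mul_le_mul_of_nonneg_left ?_ hS.le
    linarith
  have hP : 0 < Real.exp s * μ := mul_pos hS hμ0
  have h8 : |N / (Real.exp s * μ) - 1| ≤ τ := by
    have h9 : N / (Real.exp s * μ) - 1 = (N - Real.exp s * μ) / (Real.exp s * μ) := by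
      rw [sub_div, div_self hP.ne']
    rw [h9, abs_div, abs_of_pos hP, div_le_iff₀ hP, mul_comm τ]
    exact h5
  have h10 := abs_log_le h4 h8
  have hNpos : N ≠ 0 := by
    intro hN0
    rw [hN0, zero_div, zero_sub, abs_neg, abs_one] at h8
    linarith
  rw [Real.log_div hNpos hP.ne', Real.log_mul hS.ne' hμ0.ne', Real.log_exp] at h10
  rw [sub_sub]
  exact h10

private theorem mk_one7 {m k : ℕ} (hk : k ≤ m + 1) : mk k (1 : Mr (m + 1)) = 1 := by
  unfold mk
  rw [submatrix_one, det_one]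
  intro r s h
  have h1 := congrArg (fun x : Fin (m + 1) => (x : ℕ)) h
  unfold ld at h1
  simp only [Fin.ofNat] at h1
  rw [Nat.mod_eq_of_lt (by have := r.2; omega), Nat.mod_eq_of_lt (by have := s.2; omega)] at h1
  exact Fin.ext h1

private theorem ex_zero7 {n : ℕ} : (ex (0 : Fin n → ℝ) : Mr n) = 1 := by
  rw [ex_coe7 (by simp)]
  simp only [Pi.zero_apply, Real.exp_zero]
  exact diagonal_one

theorem om_diff {m : ℕ} {δ B ε : ℝ} (hδ : 0 < δ) (hε : 0 < ε) : ∃ R0 : ℝ, 0 ≤ R0 ∧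
    ∀ (M : SLr (m + 1)) (a b : Fin (m + 1) → ℝ), ∑ i, a i = 0 → ∑ i, b i = 0 →
      (∀ i, R0 ≤ gap b i) → (∀ i, R0 ≤ gap (a - b) i) → ∀ i : Fin m,
      δ ≤ |mk ((i : ℕ) + 1) (M : Mr (m + 1))| → Nk ((i : ℕ) + 1) (M : Mr (m + 1)) ≤ B →
      |om ((i : ℕ) + 1) ((ex b * M * ex (a - b) : SLr (m + 1)) : Mr (m + 1)) -
        om ((i : ℕ) + 1) (ex a : Mr (m + 1)) - Real.log (|mk ((i : ℕ) + 1) (M : Mr (m + 1))|)| ≤ ε := by
  obtain ⟨δ', hδ'⟩ : ∃ δ' : ℝ, δ' = min δ 1 := ⟨_, rfl⟩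
  obtain ⟨B', hB'⟩ : ∃ B' : ℝ, B' = max B (2 ^ (m + 1)) := ⟨_, rfl⟩
  obtain ⟨τ, hτ⟩ : ∃ τ : ℝ, τ = min (1 / 2) (ε / 4) := ⟨_, rfl⟩
  have hδ0 : 0 < δ' := by rw [hδ']; exact lt_min hδ one_pos
  have hB0 : 0 < B' := by rw [hB']; exact lt_max_of_lt_right (by positivity)
  have hτ0 : 0 < τ := by rw [hτ]; exact lt_min (by norm_num) (by positivity)
  have hτ1 : τ ≤ 1 / 2 := by rw [hτ]; exact min_le_left _ _
  have hτ2 : τ ≤ ε / 4 := by rw [hτ]; exact min_le_right _ _
  refine ⟨max 0 (Real.log (2 * B' / (δ' * τ))), le_max_left _ _, ?_⟩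
  set R0 : ℝ := max 0 (Real.log (2 * B' / (δ' * τ))) with hR0
  have hR00 : 0 ≤ R0 := le_max_left _ _
  have hR : 2 * B' * Real.exp (-R0) ≤ δ' * τ := by
    have h1 : Real.exp (-R0) ≤ (2 * B' / (δ' * τ))⁻¹ := by
      rw [Real.exp_neg]
      refine inv_anti₀ (by positivity) ?_
      rw [← Real.log_le_iff_le_exp (by positivity)]
      exact le_max_right _ _
    calc 2 * B' * Real.exp (-R0) ≤ 2 * B' * (2 * B' / (δ' * τ))⁻¹ :=
          mul_le_mul_of_nonneg_left h1 (by positivity)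
      _ = δ' * τ := by
          field_simp
  intro M a b ha hb hgb hgc i hM1 hM2
  have hk : (i : ℕ) + 1 ≤ m + 1 := by have := i.2; omega
  have hc : ∑ j, (a - b) j = 0 := by
    simp only [Pi.sub_apply, Finset.sum_sub_distrib, ha, hb, sub_zero]
  have hsk : sk ((i : ℕ) + 1) b + sk ((i : ℕ) + 1) (a - b) = sk ((i : ℕ) + 1) a := by
    unfold sk
    rw [← Finset.sum_add_distrib]
    refine Finset.sum_congr rfl fun j _ => ?_
    rw [Pi.sub_apply, add_sub_cancel]
  have h1 := om_main i hR00 hδ0 hb hc hgb hgc (M : Mr (m + 1))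
    (le_trans (by rw [hδ']; exact min_le_left _ _) hM1)
    (hM2.trans (by rw [hB']; exact le_max_left _ _)) hR hτ1
  have hN1 : Nk ((i : ℕ) + 1) (1 : Mr (m + 1)) ≤ B' := by
    have h2 := Nk_ex_le (k := (i : ℕ) + 1) (a := (0 : Fin (m + 1) → ℝ)) antitone_const (by simp)
    rw [ex_zero7] at h2
    refine h2.trans ?_
    have h3 : sk ((i : ℕ) + 1) (0 : Fin (m + 1) → ℝ) = 0 := by
      unfold sk
      simp
    rw [h3, Real.exp_zero, mul_one, hB']
    exact le_max_right _ _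
  have h2 := om_main i hR00 hδ0 hb hc hgb hgc (1 : Mr (m + 1))
    (by rw [mk_one7 hk, abs_one, hδ']; exact min_le_right _ _) hN1 hR hτ1
  rw [mk_one7 hk, abs_one, Real.log_one, sub_zero, mul_one] at h2
  have h3 : (ex b : Mr (m + 1)) * (ex (a - b) : Mr (m + 1)) = (ex a : Mr (m + 1)) := by
    rw [ex_coe7 hb, ex_coe7 hc, ex_coe7 ha, diagonal_mul_diagonal]
    congr 1
    funext j
    rw [← Real.exp_add, Pi.sub_apply, add_sub_cancel]
  rw [h3] at h2
  rw [hsk] at h1 h2
  have h4 : om ((i : ℕ) + 1) ((ex b * M * ex (a - b) : SLr (m + 1)) : Mr (m + 1)) =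
      Real.log (Nk ((i : ℕ) + 1) ((ex b : Mr (m + 1)) * (M : Mr (m + 1)) *
        (ex (a - b) : Mr (m + 1)))) := rfl
  have h5 : om ((i : ℕ) + 1) (ex a : Mr (m + 1)) =
      Real.log (Nk ((i : ℕ) + 1) (ex a : Mr (m + 1))) := rfl
  rw [h4, h5]
  have h6 := abs_le.1 h1
  have h7 := abs_le.1 h2
  refine abs_le.2 ⟨?_, ?_⟩
  · linarith [h6.1, h7.2]
  · linarith [h6.2, h7.1]

end Pool.Agent.Lib.MP_41a456_al.TC
end

section

/-!
# MP_41a456_al, Theorem TC, I5: uniformly discrete compact sets (paper 521, (9.1))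

Paper 521, section 9, `n = m + 1`.
By inner regularity every `S l` contains a sigma-compact set of full measure, so we may assume that the `S l` are compact (and
countably many), each discrete with constant `e_l`. `S = S_1 ∪ … ∪ S_M` with `μ (Z \ S) ≤ e'/3`. For `e → 0` the sets
`T_e = {y ∈ S : ∃ q, 0 < |q| ≤ e, u(q) y ∈ S}` decrease to the empty set (for fixed `y` the set of the `q` with
`|q| ≤ 1`, `u(q) y ∈ S_l` is `e_l`-separated, so finite), and `T_e` is sigma-compact (the union over `a` of the projections of the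
compact sets `{(y, q) : y ∈ S, 1/a ≤ |q| ≤ e, u(q) y ∈ S}`), so measurable: `μ T_e ≤ e'/3` for some `e`. Take a compact
`K ⊆ (S \ T_e) ∩ Z` with `μ ((S \ T_e) ∩ Z \ K) ≤ e'/3`: `Disc i j e K`. `large`: `K' = W_0^l K ⊆ Z`:
`Disc j.succ 0 (Λ^l e) K'` (`W_uel`), `μ (Z \ K') = μ (W^l (Z \ K)) = μ (Z \ K)`.
-/

namespace Pool.Agent.Lib.MP_41a456_al.TC

open Matrix MeasureTheory Filter Topology Pool.Agent.Lib.MP_41a456_al

/-- the points of `S` with a second point of `S` at distance at most `1 / (a + 1)` -/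
private def TT {n : ℕ} (i j : Fin n) (S : Set (X n)) (a : ℕ) : Set (X n) :=
  {y | y ∈ S ∧ ∃ q : ℝ, q ≠ 0 ∧ |q| ≤ 1 / ((a : ℝ) + 1) ∧ uel i j q • y ∈ S}

private theorem TT_meas {n : ℕ} (i j : Fin n) {S : Set (X n)} (hS : IsCompact S) (a : ℕ) :
    MeasurableSet (TT i j S a) := by
  have h1 : TT i j S a = ⋃ b : ℕ, Prod.fst '' ((S ×ˢ Set.Icc (-1 : ℝ) 1) ∩
      {p : X n × ℝ | 1 / ((b : ℝ) + 1) ≤ |p.2| ∧ |p.2| ≤ 1 / ((a : ℝ) + 1) ∧
        uel i j p.2 • p.1 ∈ S}) := by
    ext y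
    simp only [TT, Set.mem_ofPred_eq, Set.mem_iUnion, Set.mem_image, Set.mem_inter_iff, Set.mem_prod,
      Set.mem_Icc, Prod.exists, exists_and_right, exists_eq_right]
    constructor
    · rintro ⟨hy, q, hq0, hq, hqS⟩
      obtain ⟨b, hb⟩ := exists_nat_one_div_lt (abs_pos.2 hq0)
      have h1a : 1 / ((a : ℝ) + 1) ≤ 1 := by
        rw [div_le_one (by positivity)]
        have : (0 : ℝ) ≤ a := Nat.cast_nonneg a
        linarith
      have h2 := abs_le.1 (hq.trans h1a)
      exact ⟨b, q, ⟨hy, h2⟩, hb.le, hq, hqS⟩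
    · rintro ⟨b, q, ⟨hy, -⟩, hb, hq, hqS⟩
      refine ⟨hy, q, ?_, hq, hqS⟩
      have : (0 : ℝ) < 1 / ((b : ℝ) + 1) := by positivity
      exact abs_pos.1 (this.trans_le hb)
  rw [h1]
  refine MeasurableSet.iUnion fun b => ?_
  refine IsCompact.measurableSet ?_
  refine IsCompact.image ?_ continuous_fst
  refine (hS.prod isCompact_Icc).inter_right ?_
  have hc : Continuous fun p : X n × ℝ => uel i j p.2 • p.1 :=
    ((continuous_uel i j).comp continuous_snd).smul continuous_fst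
  refine (isClosed_le continuous_const continuous_snd.abs).inter
    ((isClosed_le continuous_snd.abs continuous_const).inter (hS.isClosed.preimage hc))

private theorem TT_anti {n : ℕ} (i j : Fin n) (S : Set (X n)) : Antitone (TT i j S) := by
  intro a b hab y hy
  obtain ⟨h1, q, h2, h3, h4⟩ := hy
  refine ⟨h1, q, h2, h3.trans ?_, h4⟩
  have : (a : ℝ) ≤ b := by exact_mod_cast hab
  exact one_div_le_one_div_of_le (by positivity) (by linarith)

private theorem TT_empty {n : ℕ} (i j : Fin n) (K : ℕ → Set (X n)) (M : ℕ)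
    (hK : ∀ l < M, ∃ e > 0, Disc i j e (K l)) : ⋂ a, TT i j (⋃ l ∈ Finset.range M, K l) a = ∅ := by
  have h1 : ∃ e > 0, ∀ l < M, Disc i j e (K l) := by
    induction M with
    | zero => exact ⟨1, one_pos, fun l hl => absurd hl (Nat.not_lt_zero l)⟩
    | succ M ih =>
      obtain ⟨e, he, h⟩ := ih fun l hl => hK l (by omega)
      obtain ⟨e1, he1, h1⟩ := hK M (by omega)
      refine ⟨min e e1, lt_min he he1, fun l hl y hy q hq hqy => ?_⟩
      rcases Nat.lt_succ_iff_lt_or_eq.1 hl with hl | rfl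
      · exact h l hl y hy q (hq.trans (min_le_left _ _)) hqy
      · exact h1 y hy q (hq.trans (min_le_right _ _)) hqy
  obtain ⟨e, he, hd⟩ := h1
  rw [Set.eq_empty_iff_forall_notMem]
  intro y hy
  rw [Set.mem_iInter] at hy
  have hfin : (⋃ l ∈ Finset.range M, {q : ℝ | |q| ≤ e / 2 ∧ q ≠ 0 ∧ uel i j q • y ∈ K l}).Finite := by
    refine Set.Finite.biUnion (Finset.finite_toSet _) fun l hl => ?_
    refine Set.Subsingleton.finite ?_
    rintro q ⟨hq, -, hqy⟩ q' ⟨hq', -, hqy'⟩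
    have h2 : uel i j (q' - q) • (uel i j q • y) = uel i j q' • y := by
      rw [smul_smul, ← uel_add, sub_add_cancel]
    have h3 := hd l (Finset.mem_range.1 hl) (uel i j q • y) hqy (q' - q)
      ((abs_sub _ _).trans (by linarith)) (by rw [h2]; exact hqy')
    linarith
  have hex : ∃ δ > 0, ∀ q ∈ ⋃ l ∈ Finset.range M, {q : ℝ | |q| ≤ e / 2 ∧ q ≠ 0 ∧ uel i j q • y ∈ K l},
      δ < |q| := by
    have h4 : ∀ s : Finset ℝ, (∀ q ∈ s, q ≠ 0) → ∃ δ > 0, ∀ q ∈ s, δ < |q| := by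
      intro s
      induction s using Finset.induction_on with
      | empty => exact fun _ => ⟨1, one_pos, fun q hq => absurd hq (Finset.notMem_empty q)⟩
      | insert a s _ ih =>
        intro hs
        obtain ⟨δ, hδ, h⟩ := ih fun q hq => hs q (Finset.mem_insert_of_mem hq)
        have ha := abs_pos.2 (hs a (Finset.mem_insert_self a s))
        refine ⟨min δ (|a| / 2), lt_min hδ (by linarith), fun q hq => ?_⟩
        rcases Finset.mem_insert.1 hq with rfl | hq
        · exact (min_le_right _ _).trans_lt (by linarith)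
        · exact (min_le_left _ _).trans_lt (h q hq)
    obtain ⟨δ, hδ, h⟩ := h4 hfin.toFinset (by
      intro q hq
      rw [Set.Finite.mem_toFinset] at hq
      simp only [Set.mem_iUnion, Set.mem_ofPred_eq] at hq
      obtain ⟨l, -, -, h, -⟩ := hq
      exact h)
    exact ⟨δ, hδ, fun q hq => h q (by rwa [Set.Finite.mem_toFinset])⟩
  obtain ⟨δ, hδ, h⟩ := hex
  obtain ⟨a, ha⟩ := exists_nat_one_div_lt (lt_min hδ (half_pos he))
  obtain ⟨-, q, hq0, hq, hqy⟩ := hy a
  rw [Set.mem_iUnion₂] at hqy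
  obtain ⟨l, hl, hql⟩ := hqy
  have h5 : |q| < min δ (e / 2) := hq.trans_lt ha
  have h6 := h q (by
    rw [Set.mem_iUnion₂]
    exact ⟨l, hl, (h5.trans_le (min_le_right _ _)).le, hq0, hql⟩)
  exact absurd (h5.trans_le (min_le_left _ _)) (not_lt.2 h6.le)

theorem exists_compact_disc {n : ℕ} (μ : Measure (X n)) [IsFiniteMeasure μ] {i j : Fin n}
    {Z : Set (X n)} (hZ : MeasurableSet Z) (h : CD μ i j Z) {e' : ℝ} (he' : 0 < e') :
    ∃ K ⊆ Z, IsCompact K ∧ (∃ e > 0, Disc i j e K) ∧ (μ (Z \ K)).toReal ≤ e' := by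
  obtain ⟨S, hS, h0⟩ := h
  set c : ENNReal := ENNReal.ofReal (e' / 4) with hc
  have hc0 : c ≠ 0 := by
    rw [hc, Ne, ENNReal.ofReal_eq_zero]
    linarith
  have hcpos : 0 < c := pos_iff_ne_zero.2 hc0
  -- finitely many sets
  have hM : ∃ M : ℕ, μ (Z \ ⋃ l ∈ Finset.range M, S l) < c := by
    have h1 : Tendsto (fun M : ℕ => μ (Z \ ⋃ l ∈ Finset.range M, S l)) atTop
        (𝓝 (μ (⋂ M : ℕ, Z \ ⋃ l ∈ Finset.range M, S l))) := by
      refine tendsto_measure_iInter_atTop (fun M => ?_) ?_ ⟨0, measure_ne_top _ _⟩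
      · exact (hZ.diff (Finset.measurableSet_biUnion _ fun l _ => (hS l).1)).nullMeasurableSet
      · intro a b hab
        refine Set.sdiff_subset_sdiff_right ?_
        exact Set.biUnion_subset_biUnion_left fun l hl =>
          Finset.mem_range.2 ((Finset.mem_range.1 hl).trans_le hab)
    have h2 : (⋂ M : ℕ, Z \ ⋃ l ∈ Finset.range M, S l) ⊆ Z \ ⋃ l, S l := by
      intro y hy
      rw [Set.mem_iInter] at hy
      refine ⟨(hy 0).1, fun hyU => ?_⟩
      obtain ⟨l, hl⟩ := Set.mem_iUnion.1 hyU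
      exact (hy (l + 1)).2 (Set.mem_iUnion₂.2 ⟨l, Finset.mem_range.2 (Nat.lt_succ_self l), hl⟩)
    rw [measure_mono_null h2 h0] at h1
    exact (h1.eventually_lt_const hcpos).exists
  obtain ⟨M, hM⟩ := hM
  -- compact subsets
  have hK : ∀ l : ℕ, ∃ K ⊆ S l ∩ Z, IsCompact K ∧ μ ((S l ∩ Z) \ K) < c / (M + 1) := by
    intro l
    refine ((hS l).1.inter hZ).exists_isCompact_sdiff_lt (measure_ne_top _ _) ?_
    rw [Ne, ENNReal.div_eq_zero_iff]
    push Not
    exact ⟨hc0, by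
      have : ((M : ENNReal) + 1) ≠ ⊤ := by
        exact_mod_cast ENNReal.natCast_ne_top (M + 1)
      exact this⟩
  choose K hKS hKc hKμ using hK
  set S' : Set (X n) := ⋃ l ∈ Finset.range M, K l with hS'
  have hS'c : IsCompact S' := (Finset.range M).isCompact_biUnion fun l _ => hKc l
  have hS'Z : S' ⊆ Z := by
    intro y hy
    obtain ⟨l, -, hl⟩ := Set.mem_iUnion₂.1 hy
    exact (hKS l hl).2
  have hS'μ : μ (Z \ S') ≤ c + c := by
    have h1 : Z \ S' ⊆ (Z \ ⋃ l ∈ Finset.range M, S l) ∪ ⋃ l ∈ Finset.range M, ((S l ∩ Z) \ K l) := by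
      rintro y ⟨hyZ, hyS⟩
      by_cases hy : y ∈ ⋃ l ∈ Finset.range M, S l
      · obtain ⟨l, hl, hyl⟩ := Set.mem_iUnion₂.1 hy
        refine Or.inr (Set.mem_iUnion₂.2 ⟨l, hl, ⟨hyl, hyZ⟩, fun hyK => hyS ?_⟩)
        exact Set.mem_iUnion₂.2 ⟨l, hl, hyK⟩
      · exact Or.inl ⟨hyZ, hy⟩
    refine (measure_mono h1).trans ((measure_union_le _ _).trans (add_le_add hM.le ?_))
    refine (measure_biUnion_finset_le _ _).trans ?_
    calc ∑ l ∈ Finset.range M, μ ((S l ∩ Z) \ K l) ≤ ∑ l ∈ Finset.range M, c / (M + 1) :=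
          Finset.sum_le_sum fun l _ => (hKμ l).le
      _ = (M : ENNReal) * (c / (M + 1)) := by rw [Finset.sum_const, Finset.card_range, nsmul_eq_mul]
      _ ≤ ((M : ENNReal) + 1) * (c / (M + 1)) := by gcongr; exact le_self_add
      _ ≤ c := ENNReal.mul_div_le
  -- the points with a near second point
  have hT : ∃ a : ℕ, μ (TT i j S' a) < c := by
    have h1 : Tendsto (fun a : ℕ => μ (TT i j S' a)) atTop (𝓝 (μ (⋂ a : ℕ, TT i j S' a))) :=
      tendsto_measure_iInter_atTop (fun a => (TT_meas i j hS'c a).nullMeasurableSet)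
        (TT_anti i j S') ⟨0, measure_ne_top _ _⟩
    rw [hS', TT_empty i j K M (fun l _ => by
      obtain ⟨e, he, hd⟩ := (hS l).2
      exact ⟨e, he, fun y hy q hq hqy => hd y (hKS l hy).1 q hq (hKS l hqy).1⟩), measure_empty] at h1
    exact (h1.eventually_lt_const hcpos).exists
  obtain ⟨a, ha⟩ := hT
  obtain ⟨L, hLS, hLc, hLμ⟩ := (hS'c.measurableSet.diff (TT_meas i j hS'c a)).exists_isCompact_sdiff_lt
    (measure_ne_top μ _) hc0
  refine ⟨L, fun y hy => hS'Z (hLS hy).1, hLc, ⟨1 / ((a : ℝ) + 1), by positivity, ?_⟩, ?_⟩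
  · intro y hy q hq hqy
    by_contra hq0
    exact (hLS hy).2 ⟨(hLS hy).1, q, hq0, hq, (hLS hqy).1⟩
  · have h1 : Z \ L ⊆ (Z \ S') ∪ (TT i j S' a ∪ ((S' \ TT i j S' a) \ L)) := by
      rintro y ⟨hyZ, hyL⟩
      by_cases h2 : y ∈ S'
      · by_cases h3 : y ∈ TT i j S' a
        · exact Or.inr (Or.inl h3)
        · exact Or.inr (Or.inr ⟨⟨h2, h3⟩, hyL⟩)
      · exact Or.inl ⟨hyZ, h2⟩
    have h2 : μ (Z \ L) ≤ (c + c) + (c + c) :=
      (measure_mono h1).trans ((measure_union_le _ _).trans (add_le_add hS'μ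
        ((measure_union_le _ _).trans (add_le_add ha.le hLμ.le))))
    have h3 : (c + c) + (c + c) = ENNReal.ofReal e' := by
      rw [hc, ← ENNReal.ofReal_add (by linarith) (by linarith),
        ← ENNReal.ofReal_add (by linarith) (by linarith)]
      congr 1
      ring
    rw [h3] at h2
    exact ENNReal.toReal_le_of_le_ofReal he'.le h2

private theorem W_uel0 {m : ℕ} {Λ : ℕ} (hΛ : 2 ≤ Λ) (j : Fin m) (q : ℝ) :
    W Λ (0 : Fin (m + 1)) * uel j.succ 0 q = uel j.succ 0 (Λ * q) * W Λ 0 := by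
  have h := ex_uel (Pi.single (0 : Fin (m + 1)) (-Real.log Λ)) j.succ 0 q
  have h1 : (Pi.single (0 : Fin (m + 1)) (-Real.log Λ) : Fin (m + 1) → ℝ) j.succ = 0 :=
    Pi.single_eq_of_ne (Fin.succ_ne_zero j) _
  have h2 : (Pi.single (0 : Fin (m + 1)) (-Real.log Λ) : Fin (m + 1) → ℝ) 0 = -Real.log Λ :=
    Pi.single_eq_same _ _
  have hΛ0 : (0 : ℝ) < Λ := by
    have : 0 < Λ := by omega
    exact_mod_cast this
  rw [h1, h2, zero_sub, neg_neg, Real.exp_log hΛ0] at h
  rw [← h]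
  unfold W
  group

private theorem W_pow_uel0 {m : ℕ} {Λ : ℕ} (hΛ : 2 ≤ Λ) (j : Fin m) (l : ℕ) (q : ℝ) :
    (W Λ (0 : Fin (m + 1))) ^ l * uel j.succ 0 q = uel j.succ 0 ((Λ : ℝ) ^ l * q) * (W Λ 0) ^ l := by
  induction l generalizing q with
  | zero => simp
  | succ l ih =>
    rw [pow_succ, mul_assoc, W_uel0 hΛ, ← mul_assoc, ih, mul_assoc, ← pow_succ]
    congr 2
    ring

private theorem Inv_pow {n : ℕ} {μ : Measure (X n)} {g : SLr n} (h : Inv μ g) (l : ℕ) :
    Inv μ (g ^ l) := by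
  induction l with
  | zero =>
    unfold Inv
    simp
  | succ l ih =>
    unfold Inv at ih ⊢
    have h1 : (fun y : X n => g ^ (l + 1) • y) = (fun y => g ^ l • y) ∘ fun y => g • y := by
      funext y
      rw [Function.comp_apply, smul_smul, pow_succ]
    rw [h1, ← Measure.map_map (measurable_smul_X _) (measurable_smul_X _)]
    unfold Inv at h
    rw [h, ih]

theorem exists_compact_disc_large {m : ℕ} {Λ : ℕ} (hΛ : 2 ≤ Λ) (μ : Measure (X (m + 1)))
    [IsFiniteMeasure μ] (hμ : Inv μ (W Λ 0)) {j : Fin m} {Z : Set (X (m + 1))}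
    (hZ : MeasurableSet Z) (hW : WInv Λ Z) (h : CD μ j.succ 0 Z) {e' : ℝ} (he' : 0 < e') (R : ℝ) :
    ∃ K ⊆ Z, IsCompact K ∧ Disc j.succ 0 R K ∧ (μ (Z \ K)).toReal ≤ e' := by
  obtain ⟨K, hKZ, hKc, ⟨e, he, hd⟩, hKμ⟩ := exists_compact_disc μ hZ h he'
  have hΛ1 : (1 : ℝ) < Λ := by
    have : 1 < Λ := by omega
    exact_mod_cast this
  obtain ⟨l, hl⟩ := pow_unbounded_of_one_lt (R / e) hΛ1
  have hlR : R ≤ (Λ : ℝ) ^ l * e := by
    rw [div_lt_iff₀ he] at hl
    exact hl.le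
  have hpos : (0 : ℝ) < (Λ : ℝ) ^ l := pow_pos (by linarith) l
  have hWl : ∀ y : X (m + 1), (W Λ (0 : Fin (m + 1))) ^ l • y ∈ Z ↔ y ∈ Z := by
    have : ∀ (k : ℕ) (y : X (m + 1)), (W Λ (0 : Fin (m + 1))) ^ k • y ∈ Z ↔ y ∈ Z := by
      intro k
      induction k with
      | zero => intro y; simp
      | succ k ih =>
        intro y
        rw [pow_succ, mul_smul, ih]
        exact hW 0 y
    exact this l
  set g : SLr (m + 1) := (W Λ (0 : Fin (m + 1))) ^ l with hg
  refine ⟨(fun y => g • y) '' K, ?_, hKc.image (continuous_const_smul g), ?_, ?_⟩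
  · rintro _ ⟨y, hy, rfl⟩
    exact (hWl y).2 (hKZ hy)
  · rintro _ ⟨y, hy, rfl⟩ q hq ⟨z, hz, hzq⟩
    have h1 : g * uel j.succ 0 (((Λ : ℝ) ^ l)⁻¹ * q) = uel j.succ 0 q * g := by
      rw [hg, W_pow_uel0 hΛ]
      congr 2
      rw [← mul_assoc, mul_inv_cancel₀ hpos.ne', one_mul]
    have h2 : z = uel j.succ 0 (((Λ : ℝ) ^ l)⁻¹ * q) • y := by
      have h3 : g • z = g • (uel j.succ 0 (((Λ : ℝ) ^ l)⁻¹ * q) • y) := by
        rw [smul_smul, h1, mul_smul]
        exact hzq
      exact smul_left_cancel g h3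
    have h4 := hd y hy (((Λ : ℝ) ^ l)⁻¹ * q) (by
      rw [abs_mul, abs_inv, abs_of_pos hpos, inv_mul_le_iff₀ hpos]
      exact hq.trans hlR) (by rw [← h2]; exact hz)
    rcases mul_eq_zero.1 h4 with h5 | h5
    · exact absurd h5 (inv_ne_zero hpos.ne')
    · exact h5
  · have h1 : Inv μ g := Inv_pow hμ l
    unfold Inv at h1
    have hms : MeasurableSet (Z \ (fun y => g • y) '' K) :=
      hZ.diff (hKc.image (continuous_const_smul g)).measurableSet
    have h2 : μ (Z \ (fun y => g • y) '' K) = μ (Z \ K) := by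
      conv_lhs => rw [← h1]
      rw [Measure.map_apply (measurable_smul_X g) hms]
      congr 1
      ext y
      simp only [Set.mem_preimage, Set.mem_sdiff, Set.mem_image]
      constructor
      · rintro ⟨h3, h4⟩
        exact ⟨(hWl y).1 h3, fun h5 => h4 ⟨y, h5, rfl⟩⟩
      · rintro ⟨h3, h4⟩
        refine ⟨(hWl y).2 h3, ?_⟩
        rintro ⟨z, hz, hzy⟩
        exact h4 (by rwa [← smul_left_cancel g hzy])
    rw [h2]
    exact hKμ

end Pool.Agent.Lib.MP_41a456_al.TC
end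

section

/-!
# MP_41a456_al, Theorem TC, J1: a maximal countable union of discrete sets

Paper 521, section 10, `n = m + 1`.
`CDs μ i j` sets: the class of the countable unions of Borel `u_ij`-discrete sets is closed under countable unions; take
`Z` in it with maximal measure (exhaustion: supremum `≤ μ univ`, union of a maximizing sequence). Replace `Z` by the union
of its images under the (countable) group generated by the `W_k`: `W_k S` is `u_ij`-discrete if `S` is (`W_uel`; the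
constant changes by the factor `Λ` or `Λ⁻¹`); this group is commutative, generated by finitely many elements, so countable:
products of powers `∏ W_k^{e_k}`, `e ∈ ℤ^n`. Every `u_ij`-discrete Borel set `S` satisfies `μ (S \ Z) = 0`.
-/

namespace Pool.Agent.Lib.MP_41a456_al.TC

open Matrix MeasureTheory Filter Topology Pool.Agent.Lib.MP_41a456_al

/-- countable unions of Borel discrete sets -/
private def CU {n : ℕ} (i j : Fin n) (Z : Set (X n)) : Prop :=
  ∃ S : ℕ → Set (X n), (∀ l, MeasurableSet (S l) ∧ ∃ e > 0, Disc i j e (S l)) ∧ Z = ⋃ l, S l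

private theorem CU_meas {n : ℕ} {i j : Fin n} {Z : Set (X n)} (h : CU i j Z) : MeasurableSet Z := by
  obtain ⟨S, hS, rfl⟩ := h
  exact MeasurableSet.iUnion fun l => (hS l).1

private theorem CU_empty {n : ℕ} {i j : Fin n} : CU i j (∅ : Set (X n)) := by
  refine ⟨fun _ => ∅, fun l => ⟨MeasurableSet.empty, 1, one_pos, ?_⟩, by simp⟩
  intro y hy
  exact hy.elim

private theorem CU_disc {n : ℕ} {i j : Fin n} {S : Set (X n)} (hS : MeasurableSet S) {e : ℝ}
    (he : 0 < e) (hd : Disc i j e S) : CU i j S :=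
  ⟨fun _ => S, fun _ => ⟨hS, e, he, hd⟩, (Set.iUnion_const S).symm⟩

private theorem CU_iUnion {n : ℕ} {i j : Fin n} {ι : Type*} [Countable ι] {Z : ι → Set (X n)}
    (h : ∀ k, CU i j (Z k)) : CU i j (⋃ k, Z k) := by
  rcases isEmpty_or_nonempty ι with he | he
  · rw [Set.iUnion_of_empty]
    exact CU_empty
  · obtain ⟨f, hf⟩ := exists_surjective_nat ι
    choose S hS hZ using h
    refine ⟨fun m => S (f (Nat.unpair m).1) (Nat.unpair m).2, fun m => hS _ _, ?_⟩
    ext y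
    simp only [Set.mem_iUnion]
    constructor
    · rintro ⟨k, hk⟩
      rw [hZ k] at hk
      obtain ⟨l, hl⟩ := Set.mem_iUnion.1 hk
      obtain ⟨r, rfl⟩ := hf k
      refine ⟨Nat.pair r l, ?_⟩
      rw [Nat.unpair_pair]
      exact hl
    · rintro ⟨m, hm⟩
      refine ⟨f (Nat.unpair m).1, ?_⟩
      rw [hZ]
      exact Set.mem_iUnion.2 ⟨_, hm⟩

private theorem CU_union {n : ℕ} {i j : Fin n} {Z Z' : Set (X n)} (h : CU i j Z) (h' : CU i j Z') :
    CU i j (Z ∪ Z') := by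
  have h1 : Z ∪ Z' = ⋃ b : Bool, (if b then Z else Z') := by
    ext y
    simp [or_comm]
  rw [h1]
  refine CU_iUnion fun b => ?_
  cases b
  · simpa using h'
  · simpa using h

private theorem CU_ex {n : ℕ} {i j : Fin n} {Z : Set (X n)} (h : CU i j Z) (a : Fin n → ℝ) :
    CU i j ((fun y => ex a • y) ⁻¹' Z) := by
  obtain ⟨S, hS, rfl⟩ := h
  refine ⟨fun l => (fun y => ex a • y) ⁻¹' (S l), fun l => ⟨measurable_smul_X _ (hS l).1, ?_⟩, by
    rw [Set.preimage_iUnion]⟩
  obtain ⟨e, he, hd⟩ := (hS l).2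
  have hp : 0 < Real.exp (a i - a j) := Real.exp_pos _
  refine ⟨e / Real.exp (a i - a j), div_pos he hp, ?_⟩
  intro y hy q hq hq'
  have h1 : ex a • uel i j q • y = uel i j (Real.exp (a i - a j) * q) • ex a • y := by
    rw [← ex_uel, smul_smul, smul_smul, inv_mul_cancel_right]
  have h2 : uel i j (Real.exp (a i - a j) * q) • ex a • y ∈ S l := by
    rw [← h1]
    exact hq'
  have h3 : Real.exp (a i - a j) * q = 0 := by
    refine hd _ hy _ ?_ h2
    rw [abs_mul, abs_of_pos hp]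
    rw [le_div_iff₀ hp] at hq
    linarith
  rcases mul_eq_zero.1 h3 with h4 | h4
  · exact absurd h4 hp.ne'
  · exact h4

private theorem W_ex {n : ℕ} (Λ : ℕ) (k : Fin n) (e : Fin n → ℤ) :
    ex (fun l => -Real.log Λ * (e l : ℝ)) * W Λ k =
      ex (fun l => -Real.log Λ * ((e + Pi.single k 1 : Fin n → ℤ) l : ℝ)) := by
  unfold W
  rw [← ex_add]
  congr 1
  funext l
  rw [Pi.add_apply, Pi.add_apply]
  by_cases h : l = k
  · subst h
    rw [Pi.single_eq_same, Pi.single_eq_same]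
    push_cast
    ring
  · rw [Pi.single_eq_of_ne h, Pi.single_eq_of_ne h]
    push_cast
    ring

theorem exists_max_CD {n : ℕ} {Λ : ℕ} (hΛ : 2 ≤ Λ) (μ : Measure (X n)) [IsFiniteMeasure μ]
    (i j : Fin n) : ∃ Z : Set (X n), MeasurableSet Z ∧ WInv Λ Z ∧
      (∀ ν : Measure (X n), CD ν i j Z) ∧
      ∀ S : Set (X n), MeasurableSet S → ∀ e > 0, Disc i j e S → μ (S \ Z) = 0 := by
  obtain ⟨u, hu, -, hu2, hu3⟩ : ∃ u : ℕ → ENNReal, Monotone u ∧ True ∧
      Tendsto u atTop (𝓝 (sSup {c : ENNReal | ∃ Z : Set (X n), CU i j Z ∧ μ Z = c})) ∧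
      ∀ r, u r ∈ {c : ENNReal | ∃ Z : Set (X n), CU i j Z ∧ μ Z = c} := by
    obtain ⟨u, h1, h2, h3⟩ := exists_seq_tendsto_sSup
      (S := {c : ENNReal | ∃ Z : Set (X n), CU i j Z ∧ μ Z = c}) ⟨_, ∅, CU_empty, rfl⟩
      (OrderTop.bddAbove _)
    exact ⟨u, h1, trivial, h2, h3⟩
  choose Y hY1 hY2 using hu3
  set s : ENNReal := sSup {c : ENNReal | ∃ Z : Set (X n), CU i j Z ∧ μ Z = c} with hs
  have hsup : ∀ Z : Set (X n), CU i j Z → μ Z ≤ s := fun Z hZ => le_sSup ⟨Z, hZ, rfl⟩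
  have hY : CU i j (⋃ r, Y r) := CU_iUnion hY1
  have hYs : s ≤ μ (⋃ r, Y r) := by
    refine le_of_tendsto' hu2 fun r => ?_
    rw [← hY2 r]
    exact measure_mono (Set.subset_iUnion Y r)
  let Z : Set (X n) := ⋃ e : Fin n → ℤ,
    (fun y => ex (fun l => -Real.log Λ * (e l : ℝ)) • y) ⁻¹' (⋃ r, Y r)
  have hZ : CU i j Z := CU_iUnion fun e => CU_ex hY _
  have hYZ : (⋃ r, Y r) ⊆ Z := by
    intro y hy
    refine Set.mem_iUnion.2 ⟨0, ?_⟩
    have h1 : (fun l => -Real.log Λ * (((0 : Fin n → ℤ) l : ℤ) : ℝ)) = (0 : Fin n → ℝ) := by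
      funext l
      simp
    rw [Set.mem_preimage, h1, ex_zero, one_smul]
    exact hy
  refine ⟨Z, CU_meas hZ, ?_, ?_, ?_⟩
  · intro k y
    constructor
    · intro h
      obtain ⟨e, he⟩ := Set.mem_iUnion.1 h
      refine Set.mem_iUnion.2 ⟨e + Pi.single k 1, ?_⟩
      rw [Set.mem_preimage] at he ⊢
      rw [← W_ex, mul_smul]
      exact he
    · intro h
      obtain ⟨e, he⟩ := Set.mem_iUnion.1 h
      refine Set.mem_iUnion.2 ⟨e - Pi.single k 1, ?_⟩
      rw [Set.mem_preimage] at he ⊢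
      rw [← mul_smul, W_ex, sub_add_cancel]
      exact he
  · intro ν
    obtain ⟨S, hS, hZS⟩ := hZ
    refine ⟨S, hS, ?_⟩
    rw [← hZS, Set.sdiff_self, measure_empty]
  · intro S hS e he hd
    have h1 : CU i j (Z ∪ S) := CU_union hZ (CU_disc hS he hd)
    have h2 : μ (Z ∪ S) ≤ μ Z :=
      (hsup _ h1).trans (hYs.trans (measure_mono hYZ))
    have h3 : μ (Z ∪ S) = μ Z + μ (S \ Z) := by
      rw [← Set.union_sdiff_self]
      exact measure_union Set.disjoint_sdiff_right (hS.diff (CU_meas hZ))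
    rw [h3] at h2
    by_contra h4
    have h5 : μ Z < μ Z + μ (S \ Z) := ENNReal.lt_add_right (measure_ne_top μ Z) h4
    exact absurd h2 (not_le.2 h5)

theorem CD_mono {n : ℕ} {μ : Measure (X n)} {i j : Fin n} {Z Z' : Set (X n)} (h : CD μ i j Z)
    (hZ : Z' ⊆ Z) : CD μ i j Z' := by
  obtain ⟨S, hS, h0⟩ := h
  exact ⟨S, hS, measure_mono_null (Set.sdiff_subset_sdiff_left hZ) h0⟩

end Pool.Agent.Lib.MP_41a456_al.TC
end

section

/-!
# MP_41a456_al, Theorem TC, J2: dichotomy (paper 521, section 10)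

Paper 521, section 10, `n = m + 1`.
`A j = Z_(j.succ, 0)`, `B j = Z_(0, j.succ)` from `exists_max_CD`; disjointify: `A' j = A j \ ⋃_{i < j} A i`
(`WInv`, measurable, `CD_mono`), so `hf` gives `(9/10) μ(⋃ A) + (1/2)(1 - μ univ) ≤ (1 + 1/20)/(m+1)`, the same for `B` with
`hb`. `X' = (⋃ A ∪ ⋃ B)ᶜ`: `(9/10) μ(X'ᶜ) + (1 - μ univ) ≤ 2 (1 + 1/20)/(m+1) ≤ 0.7`. If `μ X' = 0` then
`μ X'ᶜ = μ univ ≤ 1`, `1 - 0.1 μ univ ≤ 0.7`, contradiction. `Nij (μ.restrict X')`: `S` discrete: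
`μ (S ∩ X') ≤ μ (S \ Z) = 0`. Invariance of `μ.restrict X'` under `W_k`: `X'` is `WInv`.
-/

namespace Pool.Agent.Lib.MP_41a456_al.TC

open Matrix MeasureTheory Filter Topology Pool.Agent.Lib.MP_41a456_al

private theorem J2_disj {m : ℕ} {Λ : ℕ} (μ : Measure (X (m + 1))) [IsFiniteMeasure μ]
    (I J : Fin m → Fin (m + 1)) (A : Fin m → Set (X (m + 1))) (hA : ∀ j, MeasurableSet (A j))
    (hW : ∀ j, WInv Λ (A j)) (hC : ∀ j, CD μ (I j) (J j) (A j)) :
    ∃ Z : Fin m → Set (X (m + 1)), (∀ j, MeasurableSet (Z j)) ∧ (∀ j, WInv Λ (Z j)) ∧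
      (∀ j, CD μ (I j) (J j) (Z j)) ∧ (Pairwise fun i j => Disjoint (Z i) (Z j)) ∧
      ∑ j, (μ (Z j)).toReal = (μ (⋃ j, A j)).toReal := by
  obtain ⟨Z, hZ⟩ : ∃ Z : Fin m → Set (X (m + 1)), ∀ j, Z j = A j \ ⋃ i, ⋃ (_ : i < j), A i :=
    ⟨_, fun _ => rfl⟩
  have hmem : ∀ j y, y ∈ Z j ↔ y ∈ A j ∧ ∀ i, i < j → y ∉ A i := by
    intro j y
    rw [hZ, Set.mem_sdiff]
    simp only [Set.mem_iUnion, not_exists]
  have hsub : ∀ j, Z j ⊆ A j := fun j y hy => ((hmem j y).1 hy).1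
  have hmeas : ∀ j, MeasurableSet (Z j) := fun j => by
    rw [hZ]
    exact (hA j).diff (MeasurableSet.iUnion fun i => MeasurableSet.iUnion fun _ => hA i)
  have hdisj : Pairwise fun i j => Disjoint (Z i) (Z j) := by
    intro i j hij
    rw [Set.disjoint_left]
    intro y hi hj
    rcases lt_or_gt_of_ne hij with h | h
    · exact ((hmem j y).1 hj).2 i h (hsub i hi)
    · exact ((hmem i y).1 hi).2 j h (hsub j hj)
  have hU : (⋃ j, Z j) = ⋃ j, A j := by
    ext y
    constructor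
    · intro hy
      obtain ⟨j, hj⟩ := Set.mem_iUnion.1 hy
      exact Set.mem_iUnion.2 ⟨j, hsub j hj⟩
    · intro hy
      classical
      obtain ⟨j, hj⟩ := Set.mem_iUnion.1 hy
      have hne : (Finset.univ.filter fun j => y ∈ A j).Nonempty :=
        ⟨j, Finset.mem_filter.2 ⟨Finset.mem_univ _, hj⟩⟩
      refine Set.mem_iUnion.2 ⟨(Finset.univ.filter fun j => y ∈ A j).min' hne, ?_⟩
      rw [hmem]
      refine ⟨(Finset.mem_filter.1 (Finset.min'_mem _ hne)).2, fun i hi hyi => ?_⟩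
      exact absurd (Finset.min'_le _ i (Finset.mem_filter.2 ⟨Finset.mem_univ _, hyi⟩)) (not_le.2 hi)
  refine ⟨Z, hmeas, fun j k y => ?_, fun j => CD_mono (hC j) (hsub j), hdisj, ?_⟩
  · rw [hmem, hmem, hW j k y]
    constructor
    · rintro ⟨h1, h2⟩
      exact ⟨h1, fun i hi h3 => h2 i hi ((hW i k y).2 h3)⟩
    · rintro ⟨h1, h2⟩
      exact ⟨h1, fun i hi h3 => h2 i hi ((hW i k y).1 h3)⟩
  · rw [← hU, measure_iUnion hdisj hmeas, tsum_fintype,
      ENNReal.toReal_sum fun j _ => measure_ne_top μ _]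

theorem dichotomy {m : ℕ} (hm : 2 ≤ m) {Λ : ℕ} (hΛ : 2 ≤ Λ) (μ : Measure (X (m + 1)))
    [IsFiniteMeasure μ] (h1 : μ Set.univ ≤ 1) (hW : ∀ k, Inv μ (W Λ k))
    (hf : ∀ Z : Fin m → Set (X (m + 1)), (∀ j, MeasurableSet (Z j)) → (∀ j, WInv Λ (Z j)) →
      (∀ j, CD μ j.succ 0 (Z j)) → (Pairwise fun i j => Disjoint (Z i) (Z j)) →
      9 / 10 * ∑ j, (μ (Z j)).toReal + 1 / 2 * (1 - (μ Set.univ).toReal) ≤
        (1 + 1 / 20) / (m + 1))
    (hb : ∀ Z : Fin m → Set (X (m + 1)), (∀ j, MeasurableSet (Z j)) → (∀ j, WInv Λ (Z j)) →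
      (∀ j, CD μ 0 j.succ (Z j)) → (Pairwise fun i j => Disjoint (Z i) (Z j)) →
      9 / 10 * ∑ j, (μ (Z j)).toReal + 1 / 2 * (1 - (μ Set.univ).toReal) ≤
        (1 + 1 / 20) / (m + 1)) :
    ∃ X' : Set (X (m + 1)), MeasurableSet X' ∧ μ X' ≠ 0 ∧
      (∀ k, Inv (μ.restrict X') (W Λ k)) ∧
      (∀ j : Fin m, Nij (μ.restrict X') j.succ 0) ∧ ∀ j : Fin m, Nij (μ.restrict X') 0 j.succ := by
  choose A hA1 hA2 hA3 hA4 using fun j : Fin m => exists_max_CD hΛ μ j.succ 0
  choose B hB1 hB2 hB3 hB4 using fun j : Fin m => exists_max_CD hΛ μ 0 j.succ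
  obtain ⟨Z, hZ1, hZ2, hZ3, hZ4, hZ5⟩ := J2_disj μ (fun j => j.succ) (fun _ => 0) A hA1 hA2
    fun j => hA3 j μ
  obtain ⟨Y, hY1, hY2, hY3, hY4, hY5⟩ := J2_disj μ (fun _ => 0) (fun j => j.succ) B hB1 hB2
    fun j => hB3 j μ
  have ha := hf Z hZ1 hZ2 hZ3 hZ4
  have hb' := hb Y hY1 hY2 hY3 hY4
  rw [hZ5] at ha
  rw [hY5] at hb'
  have hmA : MeasurableSet (⋃ j, A j) := MeasurableSet.iUnion hA1
  have hmB : MeasurableSet (⋃ j, B j) := MeasurableSet.iUnion hB1
  have hmX : MeasurableSet ((⋃ j, A j) ∪ ⋃ j, B j)ᶜ := (hmA.union hmB).compl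
  refine ⟨((⋃ j, A j) ∪ ⋃ j, B j)ᶜ, hmX, ?_, ?_, ?_, ?_⟩
  · intro h0
    have h2 : μ Set.univ ≤ μ (⋃ j, A j) + μ (⋃ j, B j) := by
      calc μ Set.univ = μ (((⋃ j, A j) ∪ ⋃ j, B j) ∪ ((⋃ j, A j) ∪ ⋃ j, B j)ᶜ) := by
            rw [Set.union_compl_self]
        _ ≤ μ ((⋃ j, A j) ∪ ⋃ j, B j) + μ ((⋃ j, A j) ∪ ⋃ j, B j)ᶜ := measure_union_le _ _
        _ ≤ μ (⋃ j, A j) + μ (⋃ j, B j) := by
            rw [h0, add_zero]
            exact measure_union_le _ _
    have h3 : (μ Set.univ).toReal ≤ (μ (⋃ j, A j)).toReal + (μ (⋃ j, B j)).toReal := by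
      rw [← ENNReal.toReal_add (measure_ne_top μ _) (measure_ne_top μ _)]
      exact ENNReal.toReal_mono
        (ENNReal.add_ne_top.2 ⟨measure_ne_top μ _, measure_ne_top μ _⟩) h2
    have h4 : (μ Set.univ).toReal ≤ 1 := by
      have := ENNReal.toReal_mono ENNReal.one_ne_top h1
      rwa [ENNReal.toReal_one] at this
    have hm' : (2 : ℝ) ≤ m := by exact_mod_cast hm
    have h5 : (1 + 1 / 20 : ℝ) / (m + 1) ≤ 7 / 20 := by
      rw [div_le_div_iff₀ (by linarith) (by norm_num)]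
      linarith
    linarith
  · intro k
    unfold Inv
    have hpre : (fun y : X (m + 1) => W Λ k • y) ⁻¹' ((⋃ j, A j) ∪ ⋃ j, B j)ᶜ =
        ((⋃ j, A j) ∪ ⋃ j, B j)ᶜ := by
      ext y
      simp only [Set.mem_preimage, Set.mem_compl_iff, Set.mem_union, Set.mem_iUnion]
      have e1 : (∃ j, W Λ k • y ∈ A j) ↔ ∃ j, y ∈ A j := exists_congr fun j => hA2 j k y
      have e2 : (∃ j, W Λ k • y ∈ B j) ↔ ∃ j, y ∈ B j := exists_congr fun j => hB2 j k y
      rw [e1, e2]
    have h6 := Measure.restrict_map (μ := μ) (measurable_smul_X (W Λ k)) hmX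
    rw [hpre] at h6
    rw [← h6]
    congr 1
    exact hW k
  · intro j S hS e he hd
    rw [Measure.restrict_apply hS]
    refine measure_mono_null ?_ (hA4 j S hS e he hd)
    intro y hy
    exact ⟨hy.1, fun h => hy.2 (Or.inl (Set.mem_iUnion.2 ⟨j, h⟩))⟩
  · intro j S hS e he hd
    rw [Measure.restrict_apply hS]
    refine measure_mono_null ?_ (hB4 j S hS e he hd)
    intro y hy
    exact ⟨hy.1, fun h => hy.2 (Or.inr (Set.mem_iUnion.2 ⟨j, h⟩))⟩

end Pool.Agent.Lib.MP_41a456_al.TC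
end
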