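import Pool.Agent.Lib.MP_41a456_al.TC.B5
import Pool.Agent.Lib.MP_41a456_al.TC.A5

section

section

/-!
# MP_41a456_al, Theorem TC, K1: ergodic part: a countable dense family

`exists_dense_Cc`: `C(Z, ℝ)` with the compact open topology is second countable, so there is a countable
set `G` of continuous functions which is dense for uniform convergence on compact sets. Take a compact
exhaustion `K_m` and `χ_m` compactly supported continuous, `0 ≤ χ_m ≤ 1`, `χ_m = 1` on `K_m`. If `f` has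
support in `K_m` and `g ∈ G` satisfies `|f - g| ≤ ε` on the support of `χ_m`, then `|f - χ_m g| ≤ ε`
everywhere (`f = χ_m f`). The family `χ_m g` is countable.
-/

namespace Pool.Agent.Lib.MP_41a456_al.TC

open Matrix MeasureTheory Filter Topology Pool.Agent.Lib.MP_41a456_al

open scoped CompactlySupported

theorem exists_dense_Cc (Z : Type*) [TopologicalSpace Z] [T2Space Z] [LocallyCompactSpace Z]
    [SecondCountableTopology Z] :
    ∃ D : ℕ → C_c(Z, ℝ), ∀ f : C_c(Z, ℝ), ∀ ε > 0, ∃ i, ∀ z, |f z - D i z| ≤ ε := by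
  -- a dense sequence in `C(Z, ℝ)`
  let G : ℕ → C(Z, ℝ) := TopologicalSpace.denseSeq C(Z, ℝ)
  have hG : DenseRange G := TopologicalSpace.denseRange_denseSeq C(Z, ℝ)
  -- a compact exhaustion
  let E : CompactExhaustion Z := CompactExhaustion.choice Z
  have hχ : ∀ m : ℕ, ∃ χ : C(Z, ℝ), Set.EqOn χ 1 (E m) ∧ HasCompactSupport χ ∧
      ∀ z, χ z ∈ Set.Icc (0 : ℝ) 1 := by
    intro m
    obtain ⟨χ, h1, _, h3, h4⟩ := exists_continuous_one_zero_of_isCompact (E.isCompact m)
      isClosed_empty (Set.disjoint_empty _)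
    exact ⟨χ, h1, h3, h4⟩
  choose χ hχ1 hχ2 hχ3 using hχ
  let D0 : ℕ × ℕ → C_c(Z, ℝ) := fun p =>
    ⟨χ p.1 * G p.2, (hχ2 p.1).mul_right⟩
  refine ⟨fun i => D0 (Nat.unpair i), ?_⟩
  intro f ε hε
  have hfc : IsCompact (tsupport f) := f.hasCompactSupport
  obtain ⟨m, hm⟩ := E.exists_superset_of_isCompact hfc
  obtain ⟨u, hu1, hu2⟩ := mem_closure_iff_seq_limit.1 (hG (f : C(Z, ℝ)))
  have hK : IsCompact (tsupport (χ m)) := hχ2 m
  have hu3 := (ContinuousMap.tendsto_iff_forall_isCompact_tendstoUniformlyOn.1 hu2) _ hK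
  rw [Metric.tendstoUniformlyOn_iff] at hu3
  obtain ⟨k, hk⟩ := (hu3 ε hε).exists
  obtain ⟨i, hi⟩ := hu1 k
  refine ⟨Nat.pair m i, ?_⟩
  intro z
  have hD : D0 (Nat.unpair (Nat.pair m i)) z = χ m z * G i z := by
    rw [Nat.unpair_pair]
    rfl
  rw [hD]
  have hfz : f z = χ m z * f z := by
    by_cases hz : z ∈ tsupport f
    · have := hχ1 m (hm hz)
      rw [this]; simp
    · rw [image_eq_zero_of_notMem_tsupport hz, mul_zero]
  by_cases hz : z ∈ tsupport (χ m)
  · have h1 := hk z hz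
    rw [Real.dist_eq, ← hi] at h1
    have h2 : f z - χ m z * G i z = χ m z * (f z - G i z) := by
      rw [mul_sub, ← hfz]
    rw [h2, abs_mul]
    have h3 := hχ3 m z
    have h4 : |χ m z| ≤ 1 := by rw [abs_of_nonneg h3.1]; exact h3.2
    calc |χ m z| * |f z - G i z| ≤ 1 * |f z - G i z| := by
          gcongr
      _ = |f z - G i z| := one_mul _
      _ ≤ ε := h1.le
  · have h1 : χ m z = 0 := image_eq_zero_of_notMem_tsupport hz
    rw [hfz, h1]
    simp [hε.le]

end Pool.Agent.Lib.MP_41a456_al.TC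
end

section

/-!
# MP_41a456_al, Theorem TC, K6: no isolated points (paper 521, (11.2)(iii))

For `MG`-a.e. `(y, s)` the point `s` is in the support of `KG y`, i.e. `KG y (s - e, s + e) > 0` for all
`e > 0` (the union of the rational intervals of `KG y`-measure 0 is a `KG y`-null set; `ae_MG_iff_KG`).
Suppose that the claim fails: then there is `e = 1/l` such that the (measurable) set `Bad` of the `(y, s)`
with `KG y ((s - e, s + e) \ {s}) = 0` and `s` in the support of `KG y` (so `KG y {s} > 0`) has positive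
`MG`-measure. For `z` in a set of positive `μ`-measure `T_z = {s ∈ [0,1] : (u(-s) z, s) ∈ Bad}` has positive
Lebesgue measure, so there is an interval `I ⊆ [0, 1]` with rational end points with `|T_z ∩ I| > 0.9 |I|`
(Lebesgue density or outer regularity); countably many `I`, so some fixed `I` works for a measurable set `S`
of `z` with `μ S > 0`. Claim: `S` is `u_ij`-discrete with `e' = min(e, |I|)/11`: let `z, z' = u(q) z ∈ S`,
`0 < |q| ≤ e'`. `(T_{z'} - q) ∩ I` has measure `> 0.9 |I| - |q| > 0.8 |I|`, so there is `s ∈ T_z` with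
`s + q ∈ T_{z'}`; `y = u(-s) z = u(-s-q) z'`. `KG y {s} > 0` but
`KG y ((s + q - e, s + q + e) \ {s + q}) = 0` and `s` is in this set: contradiction. So `Nij` gives
`μ S = 0`, contradiction.
-/

namespace Pool.Agent.Lib.MP_41a456_al.TC

open Matrix MeasureTheory Filter Topology Pool.Agent.Lib.MP_41a456_al

open ProbabilityTheory

private theorem meas_ker {α : Type*} [MeasurableSpace α] (κ : Kernel α ℝ) [IsSFiniteKernel κ]
    {t : Set ((α × ℝ) × ℝ)} (ht : MeasurableSet t) :
    Measurable fun ys : α × ℝ => κ ys.1 (Prod.mk ys ⁻¹' t) :=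
  Kernel.measurable_kernel_prodMk_left (κ := κ.comap (Prod.fst : α × ℝ → α) measurable_fst) ht

private theorem meas_Ioo {α : Type*} [MeasurableSpace α] (κ : Kernel α ℝ) [IsSFiniteKernel κ]
    (e : ℝ) : Measurable fun ys : α × ℝ => κ ys.1 (Set.Ioo (ys.2 - e) (ys.2 + e)) := by
  refine meas_ker κ (t := {p | p.1.2 - e < p.2 ∧ p.2 < p.1.2 + e}) ?_
  have h1 : Measurable fun p : (α × ℝ) × ℝ => p.1.2 := measurable_snd.comp measurable_fst
  have h2 : Measurable fun p : (α × ℝ) × ℝ => p.2 := measurable_snd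
  exact (measurableSet_lt (h1.sub_const e) h2).inter (measurableSet_lt h2 (h1.add_const e))

private theorem meas_single {α : Type*} [MeasurableSpace α] (κ : Kernel α ℝ) [IsSFiniteKernel κ] :
    Measurable fun ys : α × ℝ => κ ys.1 {ys.2} := by
  refine meas_ker κ (t := {p | p.2 = p.1.2}) ?_
  have h1 : Measurable fun p : (α × ℝ) × ℝ => p.1.2 := measurable_snd.comp measurable_fst
  have h2 : Measurable fun p : (α × ℝ) × ℝ => p.2 := measurable_snd
  exact measurableSet_eq_fun h2 h1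

private theorem meas_punct {α : Type*} [MeasurableSpace α] (κ : Kernel α ℝ) [IsSFiniteKernel κ]
    (e : ℝ) : Measurable fun ys : α × ℝ => κ ys.1 (Set.Ioo (ys.2 - e) (ys.2 + e) \ {ys.2}) := by
  refine meas_ker κ (t := {p | p.1.2 - e < p.2 ∧ p.2 < p.1.2 + e} \ {p | p.2 = p.1.2}) ?_
  have h1 : Measurable fun p : (α × ℝ) × ℝ => p.1.2 := measurable_snd.comp measurable_fst
  have h2 : Measurable fun p : (α × ℝ) × ℝ => p.2 := measurable_snd
  exact ((measurableSet_lt (h1.sub_const e) h2).inter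
    (measurableSet_lt h2 (h1.add_const e))).diff (measurableSet_eq_fun h2 h1)

/-- a set with relative measure at most `9/10` in all rational intervals is null -/
private theorem null_of_rat {A : Set ℝ} (h : ∀ a b : ℚ, a < b →
    volume (A ∩ Set.Ioo (a : ℝ) b) ≤ ENNReal.ofReal (9 / 10 * ((b : ℝ) - a))) :
    volume A = 0 := by
  by_contra hne
  have h1 := Besicovitch.ae_tendsto_measure_inter_div (volume : Measure ℝ) A
  have hne' : (ae (volume.restrict A)).NeBot := by
    rw [ae_neBot]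
    intro h2
    rw [Measure.restrict_eq_zero] at h2
    exact hne h2
  obtain ⟨x, hx⟩ := h1.exists
  have h2 : ∀ᶠ r in 𝓝[>] (0 : ℝ), ENNReal.ofReal (19 / 20) <
      volume (A ∩ Metric.closedBall x r) / volume (Metric.closedBall x r) := by
    refine hx.eventually (lt_mem_nhds ?_)
    rw [← ENNReal.ofReal_one]
    exact (ENNReal.ofReal_lt_ofReal_iff one_pos).2 (by norm_num)
  have h3 : ∀ᶠ r in 𝓝[>] (0 : ℝ), 0 < r := eventually_mem_nhdsWithin
  obtain ⟨r, hr, hr0⟩ := (h2.and h3).exists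
  have h4 : volume (Metric.closedBall x r) = ENNReal.ofReal (2 * r) := by
    rw [Real.volume_closedBall]
  rw [h4] at hr
  have h5 : ENNReal.ofReal (19 / 20 * (2 * r)) < volume (A ∩ Metric.closedBall x r) := by
    rw [ENNReal.ofReal_mul (by norm_num)]
    have h6 : ENNReal.ofReal (2 * r) ≠ 0 := by
      rw [Ne, ENNReal.ofReal_eq_zero]
      linarith
    exact (ENNReal.lt_div_iff_mul_lt (Or.inl h6) (Or.inl ENNReal.ofReal_ne_top)).1 hr
  obtain ⟨a, ha1, ha2⟩ := exists_rat_btwn (show x - r - r / 40 < x - r by linarith)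
  obtain ⟨b, hb1, hb2⟩ := exists_rat_btwn (show x + r < x + r + r / 40 by linarith)
  have hab : (a : ℝ) < b := by linarith
  have h7 := h a b (by exact_mod_cast hab)
  have h8 : volume (A ∩ Metric.closedBall x r) ≤ volume (A ∩ Set.Ioo (a : ℝ) b) := by
    apply measure_mono
    apply Set.inter_subset_inter_right
    rw [Real.closedBall_eq_Icc]
    intro y hy
    exact ⟨by linarith [hy.1], by linarith [hy.2]⟩
  have h9 := (h5.trans_le h8).trans_le h7
  rw [ENNReal.ofReal_lt_ofReal_iff (by linarith)] at h9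
  linarith

/-- two large subsets of an interval meet after a small shift -/
private theorem overlap {A B : Set ℝ} (hB : MeasurableSet B) {a b q : ℝ} (hab : a < b)
    (hA' : ENNReal.ofReal (9 / 10 * (b - a)) < volume (A ∩ Set.Ioo a b))
    (hB' : ENNReal.ofReal (9 / 10 * (b - a)) < volume (B ∩ Set.Ioo a b))
    (hq : |q| ≤ (b - a) / 11) : ∃ s ∈ A, s + q ∈ B := by
  by_contra hcon
  push Not at hcon
  set C : Set ℝ := (fun s => s + q) ⁻¹' (B ∩ Set.Ioo a b) with hC
  have hCm : MeasurableSet C := (hB.inter measurableSet_Ioo).preimage (measurable_add_const q)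
  have hCv : volume C = volume (B ∩ Set.Ioo a b) := measure_preimage_add_right volume q _
  have hdis : Disjoint (A ∩ Set.Ioo a b) C := by
    rw [Set.disjoint_left]
    intro s hs hs'
    exact hcon s hs.1 hs'.1
  have hsub : (A ∩ Set.Ioo a b) ∪ C ⊆ Set.Ioo (a - |q|) (b + |q|) := by
    intro s hs
    have h1 := abs_nonneg q
    have h2 := neg_abs_le q
    have h3 := le_abs_self q
    rcases hs with hs | hs
    · exact ⟨by linarith [hs.2.1], by linarith [hs.2.2]⟩
    · have h4 : a < s + q := hs.2.1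
      have h5 : s + q < b := hs.2.2
      exact ⟨by linarith, by linarith⟩
  have h1 : volume (A ∩ Set.Ioo a b) + volume C ≤ ENNReal.ofReal (b + |q| - (a - |q|)) := by
    rw [← measure_union hdis hCm, ← Real.volume_Ioo]
    exact measure_mono hsub
  have h2 : ENNReal.ofReal (9 / 10 * (b - a)) + ENNReal.ofReal (9 / 10 * (b - a)) <
      volume (A ∩ Set.Ioo a b) + volume C := by
    rw [hCv]
    exact ENNReal.add_lt_add hA' hB'
  rw [← ENNReal.ofReal_add (by linarith) (by linarith)] at h2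
  have h3 := h2.trans_le h1
  rw [ENNReal.ofReal_lt_ofReal_iff (by linarith [abs_nonneg q])] at h3
  linarith

private theorem bad_null {n : ℕ} (μ : Measure (X n)) [IsFiniteMeasure μ] (i j : Fin n)
    (hN : Nij μ i j) {e : ℝ} (he : 0 < e) :
    ∀ᵐ ys ∂(MG μ i j), ys ∉ {ys : X n × ℝ |
      KG μ i j ys.1 (Set.Ioo (ys.2 - e) (ys.2 + e) \ {ys.2}) = 0 ∧
        KG μ i j ys.1 {ys.2} ≠ 0} := by
  have : IsMarkovKernel (KG μ i j) := by
    unfold KG
    infer_instance
  set Bad : Set (X n × ℝ) := {ys : X n × ℝ |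
      KG μ i j ys.1 (Set.Ioo (ys.2 - e) (ys.2 + e) \ {ys.2}) = 0 ∧
        KG μ i j ys.1 {ys.2} ≠ 0} with hBad
  have hBm : MeasurableSet Bad := by
    have h1 : MeasurableSet {ys : X n × ℝ |
        KG μ i j ys.1 (Set.Ioo (ys.2 - e) (ys.2 + e) \ {ys.2}) = 0} :=
      (meas_punct (KG μ i j) e) (measurableSet_singleton 0)
    have h2 : MeasurableSet {ys : X n × ℝ | KG μ i j ys.1 {ys.2} ≠ 0} :=
      ((meas_single (KG μ i j)) (measurableSet_singleton 0)).compl
    exact h1.inter h2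
  refine (ae_MG_iff μ i j hBm.compl).2 ?_
  have hg : Measurable fun zs : X n × ℝ => (uel i j (-zs.2) • zs.1, zs.2) := by
    have h1 := measurable_uel_smul (n := n) i j
    have h2 : Measurable fun zs : X n × ℝ => (zs.1, -zs.2) :=
      measurable_fst.prodMk measurable_snd.neg
    exact (h1.comp h2).prodMk measurable_snd
  set P : Set (X n × ℝ) := (fun zs : X n × ℝ => (uel i j (-zs.2) • zs.1, zs.2)) ⁻¹' Bad ∩
    {zs | zs.2 ∈ Set.Icc (0 : ℝ) 1} with hP
  have hPm : MeasurableSet P := (hg hBm).inter (measurable_snd measurableSet_Icc)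
  have hTm : ∀ z : X n, MeasurableSet (Prod.mk z ⁻¹' P) := fun z => measurable_prodMk_left hPm
  have hvol : ∀ a b : ℝ, Measurable fun z : X n => volume (Prod.mk z ⁻¹' P ∩ Set.Ioo a b) := by
    intro a b
    have h1 : MeasurableSet (P ∩ {zs : X n × ℝ | zs.2 ∈ Set.Ioo a b}) :=
      hPm.inter (measurable_snd measurableSet_Ioo)
    exact measurable_measure_prodMk_left (ν := (volume : Measure ℝ)) h1
  have hS : ∀ a b : ℚ, a < b → μ {z : X n | ENNReal.ofReal (9 / 10 * ((b : ℝ) - a)) <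
      volume (Prod.mk z ⁻¹' P ∩ Set.Ioo (a : ℝ) b)} = 0 := by
    intro a b hab
    have hab' : (a : ℝ) < b := by exact_mod_cast hab
    refine hN _ (measurableSet_lt measurable_const (hvol a b)) (min (e / 2) (((b : ℝ) - a) / 11))
      (lt_min (by linarith) (by linarith)) ?_
    intro z hz q hq hz'
    by_contra hq0
    have hq1 : |q| ≤ e / 2 := hq.trans (min_le_left _ _)
    have hq2 : |q| ≤ ((b : ℝ) - a) / 11 := hq.trans (min_le_right _ _)
    obtain ⟨s, hs, hs'⟩ := overlap (hTm _) hab' hz hz' hq2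
    have h1 : (uel i j (-s) • z, s) ∈ Bad := hs.1
    have h2 : (uel i j (-(s + q)) • uel i j q • z, s + q) ∈ Bad := hs'.1
    have h3 : uel i j (-(s + q)) • uel i j q • z = uel i j (-s) • z := by
      rw [← mul_smul, ← uel_add]
      congr 2
      ring
    rw [h3] at h2
    refine h1.2 (measure_mono_null ?_ h2.1)
    intro t ht
    rw [Set.mem_singleton_iff] at ht
    rw [ht]
    have h4 := neg_abs_le q
    have h5 := le_abs_self q
    refine ⟨⟨by change s + q - e < s; linarith, by change s < s + q + e; linarith⟩, ?_⟩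
    intro h6
    have h7 : s = s + q := h6
    exact hq0 (by linarith)
  have hae : ∀ᵐ z ∂μ, ∀ a b : ℚ, a < b → z ∉ {z : X n | ENNReal.ofReal (9 / 10 * ((b : ℝ) - a)) <
      volume (Prod.mk z ⁻¹' P ∩ Set.Ioo (a : ℝ) b)} := by
    rw [ae_all_iff]
    intro a
    rw [ae_all_iff]
    intro b
    by_cases hab : a < b
    · have h1 := measure_eq_zero_iff_ae_notMem.1 (hS a b hab)
      filter_upwards [h1] with z hz _
      exact hz
    · exact Eventually.of_forall fun z h => absurd h hab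
  filter_upwards [hae] with z hz
  have hnull : volume (Prod.mk z ⁻¹' P) = 0 := by
    apply null_of_rat
    intro a b hab
    exact not_lt.1 (hz a b hab)
  rw [ae_restrict_iff' measurableSet_Icc]
  have h1 := measure_eq_zero_iff_ae_notMem.1 hnull
  filter_upwards [h1] with s hs hs1 hs2
  exact hs ⟨hs2, hs1⟩

theorem KG_no_isolated {n : ℕ} (μ : Measure (X n)) [IsFiniteMeasure μ] (i j : Fin n)
    (hN : Nij μ i j) :
    ∀ᵐ z ∂μ, ∀ᵐ s ∂(volume.restrict (Set.Icc (0 : ℝ) 1)), ∀ e > 0,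
      0 < KG μ i j (uel i j (-s) • z) (Set.Ioo (s - e) (s + e) \ {s}) := by
  have : IsMarkovKernel (KG μ i j) := by
    unfold KG
    infer_instance
  have hpos : ∀ l : ℕ, (0 : ℝ) < 1 / ((l : ℝ) + 1) := fun l => by positivity
  have hsup : ∀ᵐ ys ∂(MG μ i j), ys ∈ {ys : X n × ℝ | ∀ l : ℕ,
      0 < KG μ i j ys.1 (Set.Ioo (ys.2 - 1 / ((l : ℝ) + 1)) (ys.2 + 1 / ((l : ℝ) + 1)))} := by
    have hm : MeasurableSet {ys : X n × ℝ | ∀ l : ℕ,
        0 < KG μ i j ys.1 (Set.Ioo (ys.2 - 1 / ((l : ℝ) + 1)) (ys.2 + 1 / ((l : ℝ) + 1)))} := by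
      rw [Set.ofPred_forall]
      exact MeasurableSet.iInter fun l =>
        measurableSet_lt measurable_const (meas_Ioo (KG μ i j) (1 / ((l : ℝ) + 1)))
    refine (ae_MG_iff_KG μ i j hm).2 (Eventually.of_forall fun y => ?_)
    have h1 : (KG μ i j y).support ∈ ae (KG μ i j y) := Measure.support_mem_ae
    filter_upwards [h1] with q hq l
    rw [Measure.mem_support_iff_forall] at hq
    apply hq
    exact Ioo_mem_nhds (by linarith [hpos l]) (by linarith [hpos l])
  have hbad : ∀ᵐ ys ∂(MG μ i j), ∀ l : ℕ, ys ∉ {ys : X n × ℝ |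
      KG μ i j ys.1 (Set.Ioo (ys.2 - 1 / ((l : ℝ) + 1)) (ys.2 + 1 / ((l : ℝ) + 1)) \ {ys.2}) = 0 ∧
        KG μ i j ys.1 {ys.2} ≠ 0} := by
    rw [ae_all_iff]
    intro l
    exact bad_null μ i j hN (hpos l)
  have hG : ∀ᵐ ys ∂(MG μ i j), ys ∈ {ys : X n × ℝ | ∀ l : ℕ, 0 < KG μ i j ys.1
      (Set.Ioo (ys.2 - 1 / ((l : ℝ) + 1)) (ys.2 + 1 / ((l : ℝ) + 1)) \ {ys.2})} := by
    filter_upwards [hsup, hbad] with ys h1 h2 l
    by_contra h3
    have h4 : KG μ i j ys.1 (Set.Ioo (ys.2 - 1 / ((l : ℝ) + 1))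
        (ys.2 + 1 / ((l : ℝ) + 1)) \ {ys.2}) = 0 := by
      simpa using h3
    have h5 : KG μ i j ys.1 {ys.2} = 0 := by
      by_contra h6
      exact h2 l ⟨h4, h6⟩
    have h6 : KG μ i j ys.1 (Set.Ioo (ys.2 - 1 / ((l : ℝ) + 1))
        (ys.2 + 1 / ((l : ℝ) + 1))) = 0 := by
      refine measure_mono_null (t := (Set.Ioo (ys.2 - 1 / ((l : ℝ) + 1))
        (ys.2 + 1 / ((l : ℝ) + 1)) \ {ys.2}) ∪ {ys.2}) ?_ (measure_union_null h4 h5)
      intro t ht
      by_cases h7 : t = ys.2
      · exact Or.inr h7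
      · exact Or.inl ⟨ht, h7⟩
    exact (h1 l).ne' h6
  have hm : MeasurableSet {ys : X n × ℝ | ∀ l : ℕ, 0 < KG μ i j ys.1
      (Set.Ioo (ys.2 - 1 / ((l : ℝ) + 1)) (ys.2 + 1 / ((l : ℝ) + 1)) \ {ys.2})} := by
    rw [Set.ofPred_forall]
    exact MeasurableSet.iInter fun l =>
      measurableSet_lt measurable_const (meas_punct (KG μ i j) (1 / ((l : ℝ) + 1)))
  have h1 := (ae_MG_iff μ i j hm).1 hG
  filter_upwards [h1] with z hz
  filter_upwards [hz] with s hs e he
  obtain ⟨l, hl⟩ := exists_nat_one_div_lt he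
  refine (hs l).trans_le (measure_mono ?_)
  apply Set.sdiff_subset_sdiff_left
  exact Set.Ioo_subset_Ioo (by linarith) (by linarith)

end Pool.Agent.Lib.MP_41a456_al.TC
end

section

/-!
# MP_41a456_al, Theorem TC, L1: invariance implies no discrete sets (paper 521, section 12)

If `S` is `u_ij`-discrete with constant `e` then for fixed `z` there is at most one
`r ∈ [0, e/2]` with `u_ij(r)⁻¹ z ∈ S`, so `0 = ∫_0^{e/2} μ(u_ij(r) S) dr = (e/2) μ(S)` (Tonelli,
`measurable_uel_smul`). (For `i = j` `Disc` with `e > 0` forces `S = ∅`.)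
-/

namespace Pool.Agent.Lib.MP_41a456_al.TC

open Matrix MeasureTheory Filter Topology Pool.Agent.Lib.MP_41a456_al

private theorem L1_subsingleton {n : ℕ} {i j : Fin n} {e : ℝ} (he : 0 < e) {S : Set (X n)}
    (hS : Disc i j e S) (y : X n) :
    ({r : ℝ | uel i j r • y ∈ S} ∩ Set.Icc 0 (e / 2)).Subsingleton := by
  rintro a ⟨ha, ha1⟩ b ⟨hb, hb1⟩
  rw [Set.mem_Icc] at ha1 hb1
  have h1 : uel i j (b - a) • (uel i j a • y) ∈ S := by
    rw [smul_smul, ← uel_add, sub_add_cancel]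
    exact hb
  have h2 : |b - a| ≤ e := by
    rw [abs_le]
    constructor <;> linarith [ha1.1, ha1.2, hb1.1, hb1.2]
  have h3 := hS _ ha (b - a) h2 h1
  linarith

theorem Nij_of_inv {n : ℕ} (μ : Measure (X n)) [IsFiniteMeasure μ] (i j : Fin n)
    (h : ∀ r, Inv μ (uel i j r)) : Nij μ i j := by
  intro S hSm e he hS
  set ν : Measure ℝ := volume.restrict (Set.Icc (0 : ℝ) (e / 2)) with hν
  have hT : MeasurableSet {z : X n × ℝ | uel i j z.2 • z.1 ∈ S} :=
    measurable_uel_smul i j hSm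
  have h1 : (μ.prod ν) {z : X n × ℝ | uel i j z.2 • z.1 ∈ S} = 0 := by
    rw [Measure.prod_apply hT]
    have h2 : ∀ y : X n, ν (Prod.mk y ⁻¹' {z : X n × ℝ | uel i j z.2 • z.1 ∈ S}) = 0 := by
      intro y
      have hm : MeasurableSet (Prod.mk y ⁻¹' {z : X n × ℝ | uel i j z.2 • z.1 ∈ S}) :=
        measurable_prodMk_left hT
      rw [hν, Measure.restrict_apply hm]
      exact (L1_subsingleton he hS y).measure_zero volume
    simp only [h2, lintegral_zero]
  have h3 : (μ.prod ν) {z : X n × ℝ | uel i j z.2 • z.1 ∈ S} = μ S * ν Set.univ := by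
    rw [Measure.prod_apply_symm hT]
    have h4 : ∀ r : ℝ, μ ((fun y => (y, r)) ⁻¹' {z : X n × ℝ | uel i j z.2 • z.1 ∈ S}) = μ S := by
      intro r
      have h5 : μ.map (fun y => uel i j r • y) = μ := h r
      have h6 := congrArg (fun m : Measure (X n) => m S) h5
      rw [Measure.map_apply (measurable_smul_X _) hSm] at h6
      exact h6
    simp only [h4, lintegral_const]
  rw [h1] at h3
  have h7 : ν Set.univ ≠ 0 := by
    rw [hν, Measure.restrict_apply MeasurableSet.univ, Set.univ_inter, Real.volume_Icc, sub_zero]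
    simp only [ne_eq, ENNReal.ofReal_eq_zero, not_le]
    linarith
  rcases mul_eq_zero.1 h3.symm with h8 | h8
  · exact h8
  · exact absurd h8 h7

end Pool.Agent.Lib.MP_41a456_al.TC
end
end

section

section

/-!
# MP_41a456_al, Theorem TC, K2: Hopf argument, part (a) (paper 521, (11.1))

Let `U` be the isometry `g ↦ g ∘ T` of `L²(ν)` (`Lp.compMeasurePreservingₗᵢ`), `V` the one of `T⁻¹`
(`V = U⁻¹`). Mean ergodic theorem
(`ContinuousLinearMap.tendsto_birkhoffAverage_orthogonalProjection`): for `g ∈ L²` the averages of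
`U^m g` and of `V^m g` converge in `L²` to the projections of `g` on the fixed vectors of `U`, `V`, these
spaces are equal. `D i` the countable family of `exists_dense_Cc`, `P i` the projection of `D i`. Choose
`N 0 < N 1 < …` such that for all `i ≤ l` the forward and backward averages of length `N l` of `D i` have
`L²` distance `≤ 2^{-l}` from `P i`: then they converge a.e. (e.g. `∑_l ∫ |·|² < ∞`). For general `f` and
`|f - D i| ≤ ε` the averages of `f` and `D i` differ by at most `ε`: at a point where all the averages for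
the `D i` converge, with the same forward and backward limits, this holds for all `f`. `F f y` = the limit (0
outside `Y`). `∫ F f = lim ∫ (average of f) = ∫ f` (dominated convergence, `|f|` is bounded, `ν` finite,
`T` preserves `ν`).
-/

namespace Pool.Agent.Lib.MP_41a456_al.TC

open Matrix MeasureTheory Filter Topology Pool.Agent.Lib.MP_41a456_al

open scoped CompactlySupported ENNReal

private theorem k2_proj_congr {E : Type*} [NormedAddCommGroup E] [InnerProductSpace ℝ E]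
    {K K' : Submodule ℝ E} [K.HasOrthogonalProjection] [K'.HasOrthogonalProjection] (h : K = K')
    (x : E) : (K.orthogonalProjectionOnto x : E) = (K'.orthogonalProjectionOnto x : E) := by
  subst h
  rfl

section

variable {Z : Type*} [MeasurableSpace Z] {ν : Measure Z}

private noncomputable def k2_U {S : Z → Z} (hS : MeasurePreserving S ν ν) :
    Lp ℝ 2 ν →L[ℝ] Lp ℝ 2 ν :=
  (Lp.compMeasurePreservingₗᵢ ℝ S hS).toContinuousLinearMap

private theorem k2_U_apply {S : Z → Z} (hS : MeasurePreserving S ν ν) (g : Lp ℝ 2 ν) :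
    k2_U hS g = Lp.compMeasurePreserving S hS g := rfl

private theorem k2_U_iter {S : Z → Z} (hS : MeasurePreserving S ν ν) (g : Lp ℝ 2 ν) (m : ℕ) :
    ((k2_U hS : Lp ℝ 2 ν → Lp ℝ 2 ν)^[m]) g = Lp.compMeasurePreserving S^[m] (hS.iterate m) g := by
  have h := Lp.compMeasurePreserving_iterate (E := ℝ) (p := 2) hS m
  have h1 : (k2_U hS : Lp ℝ 2 ν → Lp ℝ 2 ν) = Lp.compMeasurePreserving S hS := rfl
  rw [h1, h]

private theorem k2_norm_U {S : Z → Z} (hS : MeasurePreserving S ν ν) : ‖k2_U hS‖ ≤ 1 :=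
  LinearIsometry.norm_toContinuousLinearMap_le _

private theorem k2_sum_ae {S : Z → Z} (hS : MeasurePreserving S ν ν) {f : Z → ℝ}
    (hf : MemLp f 2 ν) (n : ℕ) :
    (birkhoffSum (k2_U hS) _root_.id n (hf.toLp f) : Lp ℝ 2 ν) =ᵐ[ν]
      fun y => ∑ m ∈ Finset.range n, f (S^[m] y) := by
  induction n with
  | zero =>
    rw [birkhoffSum_zero]
    simp only [Finset.range_zero, Finset.sum_empty]
    exact Lp.coeFn_zero ℝ 2 ν
  | succ n ih =>
    rw [birkhoffSum_succ]
    refine (Lp.coeFn_add _ _).trans ?_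
    have h1 : (_root_.id (((k2_U hS : Lp ℝ 2 ν → Lp ℝ 2 ν)^[n]) (hf.toLp f)) : Lp ℝ 2 ν) =ᵐ[ν]
        fun y => f (S^[n] y) := by
      rw [id_eq, k2_U_iter]
      refine (Lp.coeFn_compMeasurePreserving _ _).trans ?_
      exact (hS.iterate n).quasiMeasurePreserving.ae_eq_comp hf.coeFn_toLp
    filter_upwards [ih, h1] with y h2 h3
    rw [Pi.add_apply, h2, h3, Finset.sum_range_succ]

private theorem k2_av_ae {S : Z → Z} (hS : MeasurePreserving S ν ν) {f : Z → ℝ}
    (hf : MemLp f 2 ν) (n : ℕ) :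
    (birkhoffAverage ℝ (k2_U hS) _root_.id n (hf.toLp f) : Lp ℝ 2 ν) =ᵐ[ν] fav S n f := by
  unfold birkhoffAverage
  refine (Lp.coeFn_smul _ _).trans ?_
  filter_upwards [k2_sum_ae hS hf n] with y h1
  rw [Pi.smul_apply, h1, fav, smul_eq_mul, div_eq_inv_mul]

private theorem k2_L2 {S : Z → Z} (hS : MeasurePreserving S ν ν) {f : Z → ℝ}
    (hf : MemLp f 2 ν) :
    Tendsto (fun n => eLpNorm (fav S n f -
      ((((k2_U hS).eqLocus (1 : Lp ℝ 2 ν →L[ℝ] Lp ℝ 2 ν)).orthogonalProjectionOnto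
        (hf.toLp f) : Lp ℝ 2 ν) : Z → ℝ)) 2 ν) atTop (𝓝 0) := by
  have h1 := ContinuousLinearMap.tendsto_birkhoffAverage_orthogonalProjection (k2_U hS)
    (k2_norm_U hS) (hf.toLp f)
  rw [Lp.tendsto_Lp_iff_tendsto_eLpNorm'] at h1
  refine h1.congr fun n => ?_
  refine eLpNorm_congr_ae ?_
  filter_upwards [k2_av_ae hS hf n] with y h2
  rw [Pi.sub_apply, Pi.sub_apply, h2]

private theorem k2_comp_id {S S' : Z → Z} (hS : MeasurePreserving S ν ν)
    (hS' : MeasurePreserving S' ν ν) (h : ∀ z, S (S' z) = z) (g : Lp ℝ 2 ν) :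
    k2_U hS' (k2_U hS g) = g := by
  rw [k2_U_apply, k2_U_apply]
  apply Lp.ext
  refine (Lp.coeFn_compMeasurePreserving _ hS').trans ?_
  refine (hS'.quasiMeasurePreserving.ae_eq_comp (Lp.coeFn_compMeasurePreserving g hS)).trans ?_
  refine Eventually.of_forall fun z => ?_
  simp only [Function.comp_apply, h]

private theorem k2_eqLocus {S S' : Z → Z} (hS : MeasurePreserving S ν ν)
    (hS' : MeasurePreserving S' ν ν) (h : ∀ z, S (S' z) = z) (h' : ∀ z, S' (S z) = z) :
    (k2_U hS).eqLocus (1 : Lp ℝ 2 ν →L[ℝ] Lp ℝ 2 ν) =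
      (k2_U hS').eqLocus (1 : Lp ℝ 2 ν →L[ℝ] Lp ℝ 2 ν) := by
  ext g
  constructor
  · intro hg
    have h1 : k2_U hS g = g := hg
    have h2 : k2_U hS' g = g := by
      have h3 := k2_comp_id hS hS' h g
      rwa [h1] at h3
    exact h2
  · intro hg
    have h1 : k2_U hS' g = g := hg
    have h2 : k2_U hS g = g := by
      have h3 := k2_comp_id hS' hS h' g
      rwa [h1] at h3
    exact h2

/-- forward and backward averages have the same limit in `L¹` -/
private theorem k2_L1 [IsFiniteMeasure ν] {S S' : Z → Z} (hS : MeasurePreserving S ν ν)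
    (hS' : MeasurePreserving S' ν ν) (h : ∀ z, S (S' z) = z) (h' : ∀ z, S' (S z) = z)
    {f : Z → ℝ} (hf : MemLp f 2 ν) : ∃ p : Z → ℝ, AEStronglyMeasurable p ν ∧
      Tendsto (fun n => eLpNorm (fav S n f - p) 1 ν) atTop (𝓝 0) ∧
      Tendsto (fun n => eLpNorm (fav S' n f - p) 1 ν) atTop (𝓝 0) := by
  have hmeas : ∀ {R : Z → Z} (_ : MeasurePreserving R ν ν) (n : ℕ),
      AEStronglyMeasurable (fav R n f) ν := by
    intro R hR n
    exact (Lp.aestronglyMeasurable _).congr (k2_av_ae hR hf n)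
  have hconv : ∀ {R : Z → Z} (_ : MeasurePreserving R ν ν) (p : Z → ℝ),
      AEStronglyMeasurable p ν → Tendsto (fun n => eLpNorm (fav R n f - p) 2 ν) atTop (𝓝 0) →
      Tendsto (fun n => eLpNorm (fav R n f - p) 1 ν) atTop (𝓝 0) := by
    intro R hR p hp h2
    have hb : ∀ n, eLpNorm (fav R n f - p) 1 ν ≤ eLpNorm (fav R n f - p) 2 ν *
        ν Set.univ ^ (1 / (1 : ℝ≥0∞).toReal - 1 / (2 : ℝ≥0∞).toReal) := fun n =>
      eLpNorm_le_eLpNorm_mul_rpow_measure_univ (by norm_num) ((hmeas hR n).sub hp)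
    have hfin : ν Set.univ ^ (1 / (1 : ℝ≥0∞).toReal - 1 / (2 : ℝ≥0∞).toReal) ≠ ⊤ := by
      refine ENNReal.rpow_ne_top_of_nonneg ?_ (measure_ne_top ν _)
      norm_num
    have h3 := ENNReal.Tendsto.mul_const h2 (Or.inr hfin)
    rw [zero_mul] at h3
    exact tendsto_of_tendsto_of_tendsto_of_le_of_le tendsto_const_nhds h3 (fun _ => zero_le)
      hb
  have h1 := k2_L2 hS hf
  have h2 := k2_L2 hS' hf
  rw [← k2_proj_congr (k2_eqLocus hS hS' h h') (hf.toLp f)] at h2
  exact ⟨_, Lp.aestronglyMeasurable _, hconv hS _ (Lp.aestronglyMeasurable _) h1,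
    hconv hS' _ (Lp.aestronglyMeasurable _) h2⟩

/-- summable `L¹` norms give convergence almost everywhere -/
private theorem k2_ae {h : ℕ → Z → ℝ} (hm : ∀ l, AEStronglyMeasurable (h l) ν) (i : ℕ)
    (hh : ∀ l, i ≤ l → eLpNorm (h l) 1 ν ≤ (1 / 2 : ℝ≥0∞) ^ l) :
    ∀ᵐ y ∂ν, Tendsto (fun l => h l y) atTop (𝓝 0) := by
  have h1 : ∫⁻ y, ∑' l, ‖h (l + i) y‖ₑ ∂ν ≠ ⊤ := by
    rw [lintegral_tsum fun l => (hm (l + i)).enorm]
    have h2 : ∑' l, ∫⁻ y, ‖h (l + i) y‖ₑ ∂ν ≤ ∑' l : ℕ, (1 / 2 : ℝ≥0∞) ^ l := by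
      refine ENNReal.tsum_le_tsum fun l => ?_
      rw [← eLpNorm_one_eq_lintegral_enorm]
      refine (hh (l + i) (Nat.le_add_left i l)).trans ?_
      refine pow_le_pow_right_of_le_one' ?_ (Nat.le_add_right l i)
      norm_num
    refine ne_top_of_le_ne_top ?_ h2
    rw [ENNReal.tsum_geometric]
    rw [ENNReal.inv_ne_top]
    norm_num
  have h3 : ∀ᵐ y ∂ν, ∑' l, ‖h (l + i) y‖ₑ < ⊤ := by
    refine ae_lt_top' ?_ h1
    exact AEMeasurable.tsum fun l => (hm (l + i)).enorm
  filter_upwards [h3] with y hy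
  have h4 : Tendsto (fun l => ‖h (l + i) y‖ₑ) atTop (𝓝 0) := by
    have := ENNReal.tendsto_cofinite_zero_of_tsum_ne_top hy.ne
    rwa [Nat.cofinite_eq_atTop] at this
  have h5 : Tendsto (fun l => h (l + i) y) atTop (𝓝 0) := by
    rw [tendsto_zero_iff_norm_tendsto_zero]
    have h6 := (ENNReal.tendsto_toReal (ENNReal.zero_ne_top)).comp h4
    simp only [ENNReal.toReal_zero] at h6
    refine h6.congr fun l => ?_
    rw [Function.comp_apply, toReal_enorm]
  exact (tendsto_add_atTop_iff_nat i).1 h5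

private theorem k2_lim {a b : ℕ → ℝ}
    (h : ∀ ε > 0, ∃ c : ℝ, (∀ᶠ l in atTop, |a l - c| ≤ ε) ∧ ∀ᶠ l in atTop, |b l - c| ≤ ε) :
    ∃ c : ℝ, Tendsto a atTop (𝓝 c) ∧ Tendsto b atTop (𝓝 c) := by
  have hc : CauchySeq a := by
    rw [Metric.cauchySeq_iff]
    intro ε hε
    obtain ⟨c, h1, _⟩ := h (ε / 3) (by positivity)
    obtain ⟨M, hM⟩ := eventually_atTop.1 h1
    refine ⟨M, fun m hm n hn => ?_⟩
    rw [Real.dist_eq]
    have e1 := abs_le.1 (hM m hm)
    have e2 := abs_le.1 (hM n hn)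
    rw [abs_lt]
    constructor <;> linarith
  obtain ⟨c, hc'⟩ := cauchySeq_tendsto_of_complete hc
  refine ⟨c, hc', ?_⟩
  have hd : Tendsto (fun l => b l - a l) atTop (𝓝 0) := by
    rw [Metric.tendsto_atTop]
    intro ε hε
    obtain ⟨d, h1, h2⟩ := h (ε / 3) (by positivity)
    obtain ⟨M, hM⟩ := eventually_atTop.1 (h1.and h2)
    refine ⟨M, fun n hn => ?_⟩
    rw [Real.dist_eq, sub_zero]
    have e1 := abs_le.1 (hM n hn).1
    have e2 := abs_le.1 (hM n hn).2
    rw [abs_lt]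
    constructor <;> linarith
  have := hc'.add hd
  rw [add_zero] at this
  refine this.congr fun l => ?_
  ring

omit [MeasurableSpace Z] in
private theorem k2_fav_sub {S : Z → Z} (N : ℕ) {f g : Z → ℝ} {ε : ℝ} (hε : 0 ≤ ε)
    (h : ∀ z, |f z - g z| ≤ ε) (y : Z) : |fav S N f y - fav S N g y| ≤ ε := by
  unfold fav
  rcases Nat.eq_zero_or_pos N with rfl | hN
  · simpa using hε
  · have hN' : (0 : ℝ) < N := by exact_mod_cast hN
    rw [← sub_div, ← Finset.sum_sub_distrib, abs_div, abs_of_pos hN', div_le_iff₀ hN']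
    refine (Finset.abs_sum_le_sum_abs _ _).trans ?_
    refine (Finset.sum_le_sum fun m _ => h _).trans ?_
    rw [Finset.sum_const, Finset.card_range, nsmul_eq_mul, mul_comm]

omit [MeasurableSpace Z] in
private theorem k2_fav_le {S : Z → Z} (N : ℕ) {f : Z → ℝ} {C : ℝ} (hC : 0 ≤ C)
    (h : ∀ z, |f z| ≤ C) (y : Z) : |fav S N f y| ≤ C := by
  have h1 := k2_fav_sub (S := S) N (f := f) (g := fun _ => 0) hC (fun z => by simpa using h z) y
  have h2 : fav S N (fun _ => (0 : ℝ)) y = 0 := by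
    unfold fav
    simp
  rwa [h2, sub_zero] at h1

end

theorem hopf_a {Z : Type*} [TopologicalSpace Z] [T2Space Z] [LocallyCompactSpace Z]
    [SecondCountableTopology Z] [MeasurableSpace Z] [BorelSpace Z] (ν : Measure Z)
    [IsFiniteMeasure ν] (T : Z ≃ₜ Z) (hT : MeasurePreserving T ν ν) :
    ∃ N : ℕ → ℕ, StrictMono N ∧ 0 < N 0 ∧ ∃ Y : Set Z, MeasurableSet Y ∧ ν Yᶜ = 0 ∧
      ∃ F : C_c(Z, ℝ) → Z → ℝ,
        (∀ f : C_c(Z, ℝ), ∀ y ∈ Y, Tendsto (fun l => fav T (N l) f y) atTop (𝓝 (F f y)) ∧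
          Tendsto (fun l => fav T.symm (N l) f y) atTop (𝓝 (F f y))) ∧
        ∀ f : C_c(Z, ℝ), Measurable (F f) ∧ Integrable (F f) ν ∧ ∫ y, F f y ∂ν = ∫ y, f y ∂ν := by
  classical
  have hT' : MeasurePreserving T.symm ν ν := MeasurePreserving.symm T.toMeasurableEquiv hT
  obtain ⟨D, hD⟩ := exists_dense_Cc Z
  have hbd : ∀ f : C_c(Z, ℝ), ∃ C : ℝ, 0 ≤ C ∧ ∀ z, |f z| ≤ C := by
    intro f
    obtain ⟨C, hC⟩ := f.hasCompactSupport.exists_bound_of_continuous f.continuous
    refine ⟨max C 0, le_max_right _ _, fun z => (hC z).trans (le_max_left _ _)⟩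
  have hmem : ∀ f : C_c(Z, ℝ), MemLp f 2 ν := by
    intro f
    obtain ⟨C, _, hC⟩ := hbd f
    exact MemLp.of_bound f.continuous.aestronglyMeasurable C (Eventually.of_forall hC)
  choose p hp h1 h2 using fun i => k2_L1 hT hT' T.apply_symm_apply T.symm_apply_apply (hmem (D i))
  have hev : ∀ l : ℕ, ∀ᶠ k in atTop, 0 < k ∧ ∀ i ∈ Finset.range (l + 1),
      eLpNorm (fav T k (D i) - p i) 1 ν ≤ (1 / 2 : ℝ≥0∞) ^ l ∧
        eLpNorm (fav T.symm k (D i) - p i) 1 ν ≤ (1 / 2 : ℝ≥0∞) ^ l := by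
    intro l
    refine (eventually_gt_atTop 0).and ?_
    rw [Filter.eventually_all_finset]
    intro i _
    have hpos : (0 : ℝ≥0∞) < (1 / 2 : ℝ≥0∞) ^ l := by
      apply ENNReal.pow_pos
      norm_num
    exact ((h1 i).eventually_le_const hpos).and ((h2 i).eventually_le_const hpos)
  obtain ⟨N, hN, hNl⟩ := Filter.extraction_forall_of_eventually hev
  have hcont : ∀ (R : Z ≃ₜ Z) (n : ℕ) (f : C_c(Z, ℝ)), Continuous (fav R n f) := by
    intro R n f
    unfold fav
    exact (continuous_finsetSum _ fun m _ => f.continuous.comp (R.continuous.iterate m)).div_const _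
  have hae : ∀ᵐ y ∂ν, ∀ i, Tendsto (fun l => (fav T (N l) (D i) - p i) y) atTop (𝓝 0) ∧
      Tendsto (fun l => (fav T.symm (N l) (D i) - p i) y) atTop (𝓝 0) := by
    rw [ae_all_iff]
    intro i
    have e1 : ∀ᵐ y ∂ν, Tendsto (fun l => (fav T (N l) (D i) - p i) y) atTop (𝓝 0) :=
      k2_ae (fun l => ((hcont T (N l) (D i)).aestronglyMeasurable).sub (hp i)) i
        fun l hl => ((hNl l).2 i (Finset.mem_range.2 (by omega))).1
    have e2 : ∀ᵐ y ∂ν, Tendsto (fun l => (fav T.symm (N l) (D i) - p i) y) atTop (𝓝 0) :=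
      k2_ae (fun l => ((hcont T.symm (N l) (D i)).aestronglyMeasurable).sub (hp i)) i
        fun l hl => ((hNl l).2 i (Finset.mem_range.2 (by omega))).2
    filter_upwards [e1, e2] with y h3 h4 using ⟨h3, h4⟩
  set B : Set Z := {y | ¬ ∀ i, Tendsto (fun l => (fav T (N l) (D i) - p i) y) atTop (𝓝 0) ∧
      Tendsto (fun l => (fav T.symm (N l) (D i) - p i) y) atTop (𝓝 0)} with hB
  have hB0 : ν B = 0 := hae
  have hYprop : ∀ y ∈ (toMeasurable ν B)ᶜ, ∀ f : C_c(Z, ℝ), ∃ c : ℝ,
      Tendsto (fun l => fav T (N l) f y) atTop (𝓝 c) ∧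
        Tendsto (fun l => fav T.symm (N l) f y) atTop (𝓝 c) := by
    intro y hy f
    have hy' : ∀ i, Tendsto (fun l => (fav T (N l) (D i) - p i) y) atTop (𝓝 0) ∧
        Tendsto (fun l => (fav T.symm (N l) (D i) - p i) y) atTop (𝓝 0) := by
      by_contra hcon
      exact hy (subset_toMeasurable ν B hcon)
    refine k2_lim fun ε hε => ?_
    obtain ⟨i, hi⟩ := hD f (ε / 2) (by positivity)
    have key : ∀ R : Z ≃ₜ Z, Tendsto (fun l => (fav R (N l) (D i) - p i) y) atTop (𝓝 0) →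
        ∀ᶠ l in atTop, |fav R (N l) f y - p i y| ≤ ε := by
      intro R hR
      have h3 : ∀ᶠ l in atTop, |(fav R (N l) (D i) - p i) y| ≤ ε / 2 := by
        have h4 := hR.abs
        rw [abs_zero] at h4
        exact h4.eventually_le_const (by positivity)
      filter_upwards [h3] with l h4
      have h5 := k2_fav_sub (S := R) (N l) (by positivity : (0 : ℝ) ≤ ε / 2) hi y
      rw [Pi.sub_apply] at h4
      rw [abs_le] at h4 h5 ⊢
      constructor <;> linarith [h4.1, h4.2, h5.1, h5.2]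
    exact ⟨p i y, key T (hy' i).1, key T.symm (hy' i).2⟩
  have hF : ∀ (f : C_c(Z, ℝ)) (y : Z), ∃ c : ℝ, (y ∈ (toMeasurable ν B)ᶜ →
      Tendsto (fun l => fav T (N l) f y) atTop (𝓝 c) ∧
        Tendsto (fun l => fav T.symm (N l) f y) atTop (𝓝 c)) ∧
      (y ∉ (toMeasurable ν B)ᶜ → c = 0) := by
    intro f y
    by_cases hy : y ∈ (toMeasurable ν B)ᶜ
    · obtain ⟨c, hc⟩ := hYprop y hy f
      exact ⟨c, fun _ => hc, fun h => absurd hy h⟩
    · exact ⟨0, fun h => absurd h hy, fun _ => rfl⟩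
  choose F hF1 hF2 using hF
  have hYm : MeasurableSet (toMeasurable ν B)ᶜ := (measurableSet_toMeasurable ν B).compl
  have hY0 : ν ((toMeasurable ν B)ᶜ)ᶜ = 0 := by
    rw [compl_compl, measure_toMeasurable, hB0]
  refine ⟨N, hN, (hNl 0).1, (toMeasurable ν B)ᶜ, hYm, hY0, F, fun f y hy => hF1 f y hy, ?_⟩
  intro f
  have hFm : Measurable (F f) := by
    refine measurable_of_tendsto_metrizable
      (f := fun l => (toMeasurable ν B)ᶜ.indicator (fav T (N l) f)) ?_ ?_
    · intro l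
      exact (hcont T (N l) f).measurable.indicator hYm
    · rw [tendsto_pi_nhds]
      intro y
      by_cases hy : y ∈ (toMeasurable ν B)ᶜ
      · refine (hF1 f y hy).1.congr fun l => ?_
        rw [Set.indicator_of_mem hy]
      · rw [hF2 f y hy]
        refine tendsto_const_nhds.congr fun l => ?_
        rw [Set.indicator_of_notMem hy]
  obtain ⟨C, hC0, hC⟩ := hbd f
  have hFb : ∀ y, |F f y| ≤ C := by
    intro y
    by_cases hy : y ∈ (toMeasurable ν B)ᶜ
    · exact le_of_tendsto (hF1 f y hy).1.abs (Eventually.of_forall fun l => k2_fav_le _ hC0 hC y)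
    · rw [hF2 f y hy, abs_zero]
      exact hC0
  have hFi : Integrable (F f) ν :=
    Integrable.of_bound hFm.aestronglyMeasurable C (Eventually.of_forall hFb)
  refine ⟨hFm, hFi, ?_⟩
  have hlim : Tendsto (fun l => ∫ y, fav T (N l) f y ∂ν) atTop (𝓝 (∫ y, F f y ∂ν)) := by
    refine tendsto_integral_of_dominated_convergence (fun _ => C) ?_ (integrable_const C) ?_ ?_
    · intro l
      exact (hcont T (N l) f).aestronglyMeasurable
    · intro l
      exact Eventually.of_forall fun y => k2_fav_le _ hC0 hC y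
    · have : ∀ᵐ y ∂ν, y ∈ (toMeasurable ν B)ᶜ := hY0
      filter_upwards [this] with y hy using (hF1 f y hy).1
  have hconst : ∀ l, ∫ y, fav T (N l) f y ∂ν = ∫ y, f y ∂ν := by
    intro l
    have hNpos : 0 < N l := (hNl l).1
    have hN' : (N l : ℝ) ≠ 0 := by exact_mod_cast hNpos.ne'
    have hi : ∀ m, Integrable (fun y => f (T^[m] y)) ν := by
      intro m
      exact Integrable.of_bound (f.continuous.comp (T.continuous.iterate m)).aestronglyMeasurable C
        (Eventually.of_forall fun y => hC _)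
    have hm : ∀ m, ∫ y, f (T^[m] y) ∂ν = ∫ y, f y ∂ν := by
      intro m
      have h3 := hT.iterate m
      have h4 := integral_map h3.measurable.aemeasurable (f := f)
        (f.continuous.aestronglyMeasurable (μ := ν.map (T^[m])))
      rw [h3.map_eq] at h4
      exact h4.symm
    unfold fav
    rw [integral_div, integral_finsetSum _ fun m _ => hi m]
    simp only [hm, Finset.sum_const, Finset.card_range, nsmul_eq_mul]
    field_simp
  simp only [hconst] at hlim
  exact tendsto_nhds_unique hlim tendsto_const_nhds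

end Pool.Agent.Lib.MP_41a456_al.TC
end

section

/-!
# MP_41a456_al, Theorem TC, K3: Hopf argument, part (b) (paper 521, (11.1))

Take `N`, `Y`, `F` of `hopf_a`. For `f ∈ C_c`: `∫ |F f - φ| ≤ liminf ∫ |fav T (N l) f - φ|` (Fatou) and
`φ = fav T N φ` a.e., so `∫ |fav T N f - φ| ≤ ∫ |f - φ|` (invariance of `ν`). `C_c` is dense in `L¹(ν)`
(`MemLp.exists_hasCompactSupport_integral_sub_le` or similar): `f_i` with `∫ |f_i - φ| ≤ 2^{-i}`; then
`F f_i → φ` a.e. For `y, y' ∈ Y` asymptotic: `F f (y) = F f (y')` (Cesaro means of a null sequence), so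
`φ y = φ y'` outside the null set where `F f_i → φ` fails.
-/

namespace Pool.Agent.Lib.MP_41a456_al.TC

open Matrix MeasureTheory Filter Topology Pool.Agent.Lib.MP_41a456_al

open scoped CompactlySupported

private theorem inv_iter {Z : Type*} [MeasurableSpace Z] {ν : Measure Z} {T : Z → Z}
    (hT : MeasurePreserving T ν ν) {φ : Z → ℝ} (hinv : ∀ᵐ y ∂ν, φ (T y) = φ y) :
    ∀ᵐ y ∂ν, ∀ m : ℕ, φ (T^[m] y) = φ y := by
  rw [ae_all_iff]
  intro m
  induction m with
  | zero => exact Eventually.of_forall fun y => rfl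
  | succ m ih =>
    have h1 : ∀ᵐ y ∂ν, φ (T^[m] (T y)) = φ (T y) := hT.quasiMeasurePreserving.ae ih
    filter_upwards [h1, hinv] with y h2 h3
    rw [Function.iterate_succ_apply, h2, h3]

private theorem fav_sub_le {Z : Type*} {T : Z → Z} {N : ℕ} (hN : 0 < N) (f φ : Z → ℝ) (y : Z)
    (h : ∀ m : ℕ, φ (T^[m] y) = φ y) :
    |fav T N f y - φ y| ≤ fav T N (fun z => |f z - φ z|) y := by
  have hN' : (0 : ℝ) < N := by exact_mod_cast hN
  unfold fav
  have h1 : (∑ m ∈ Finset.range N, f (T^[m] y)) / N - φ y =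
      (∑ m ∈ Finset.range N, (f (T^[m] y) - φ (T^[m] y))) / N := by
    rw [Finset.sum_sub_distrib]
    simp only [h, Finset.sum_const, Finset.card_range, nsmul_eq_mul]
    field_simp
  rw [h1, abs_div, abs_of_pos hN']
  exact div_le_div_of_nonneg_right (Finset.abs_sum_le_sum_abs _ _) hN'.le

private theorem integral_fav {Z : Type*} [MeasurableSpace Z] {ν : Measure Z} {T : Z → Z}
    (hT : MeasurePreserving T ν ν) {g : Z → ℝ} (hg : Integrable g ν) {N : ℕ} (hN : 0 < N) :
    Integrable (fav T N g) ν ∧ ∫ y, fav T N g y ∂ν = ∫ y, g y ∂ν := by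
  have h1 : ∀ m : ℕ, Integrable (fun y => g (T^[m] y)) ν := fun m =>
    (hT.iterate m).integrable_comp_of_integrable hg
  have h2 : ∀ m : ℕ, ∫ y, g (T^[m] y) ∂ν = ∫ y, g y ∂ν := fun m => by
    have h3 := (hT.iterate m)
    have h4 : ∫ y, g y ∂(ν.map (T^[m])) = ∫ y, g (T^[m] y) ∂ν :=
      integral_map h3.measurable.aemeasurable (by rw [h3.map_eq]; exact hg.aestronglyMeasurable)
    rw [← h4, h3.map_eq]
  refine ⟨(integrable_finsetSum _ fun m _ => h1 m).div_const _, ?_⟩
  have hN' : (N : ℝ) ≠ 0 := by exact_mod_cast hN.ne'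
  unfold fav
  rw [integral_div, integral_finsetSum _ fun m _ => h1 m]
  simp only [h2, Finset.sum_const, Finset.card_range, nsmul_eq_mul]
  field_simp

theorem hopf_b {Z : Type*} [TopologicalSpace Z] [T2Space Z] [LocallyCompactSpace Z]
    [SecondCountableTopology Z] [MeasurableSpace Z] [BorelSpace Z] (ν : Measure Z)
    [IsFiniteMeasure ν] (T : Z ≃ₜ Z) (hT : MeasurePreserving T ν ν) (φ : Z → ℝ)
    (hφ : Measurable φ) {M : ℝ} (hM : ∀ y, |φ y| ≤ M) (hinv : ∀ᵐ y ∂ν, φ (T y) = φ y) :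
    ∃ Y : Set Z, MeasurableSet Y ∧ ν Yᶜ = 0 ∧
      ∀ y ∈ Y, ∀ y' ∈ Y, Asym T y y' → φ y = φ y' := by
  obtain ⟨N, hN, hN0, Y, hYm, hY0, F, hF1, hF2⟩ := hopf_a ν T hT
  have hNpos : ∀ l, 0 < N l := fun l => lt_of_lt_of_le hN0 (hN.monotone (Nat.zero_le l))
  have hφi : Integrable φ ν := by
    refine Integrable.of_bound hφ.aestronglyMeasurable M ?_
    exact Eventually.of_forall fun y => by rw [Real.norm_eq_abs]; exact hM y
  have hYae : ∀ᵐ y ∂ν, y ∈ Y := hY0
  -- the key inequality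
  have key : ∀ f : C_c(Z, ℝ), ∫ y, |F f y - φ y| ∂ν ≤ ∫ y, |f y - φ y| ∂ν := by
    intro f
    obtain ⟨C, hC⟩ := f.hasCompactSupport.exists_bound_of_continuous f.continuous
    have hfi : Integrable (fun y => f y) ν := by
      refine Integrable.of_bound f.continuous.aestronglyMeasurable C ?_
      exact Eventually.of_forall hC
    have hgi : Integrable (fun y => |f y - φ y|) ν := (hfi.sub hφi).abs
    have hle : ∀ l, ∫ y, |fav T (N l) f y - φ y| ∂ν ≤ ∫ y, |f y - φ y| ∂ν := by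
      intro l
      obtain ⟨h1, h2⟩ := integral_fav hT hgi (hNpos l)
      rw [← h2]
      refine integral_mono_ae ?_ h1 ?_
      · exact ((integral_fav hT hfi (hNpos l)).1.sub hφi).abs
      · filter_upwards [inv_iter hT hinv] with y hy
        exact fav_sub_le (hNpos l) (fun z => f z) φ y hy
    have hlim : Tendsto (fun l => ∫ y, |fav T (N l) f y - φ y| ∂ν) atTop
        (𝓝 (∫ y, |F f y - φ y| ∂ν)) := by
      refine tendsto_integral_of_dominated_convergence (fun _ => C + M) ?_ (integrable_const _) ?_ ?_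
      · intro l
        exact ((integral_fav hT hfi (hNpos l)).1.sub hφi).abs.aestronglyMeasurable
      · intro l
        refine Eventually.of_forall fun y => ?_
        rw [Real.norm_eq_abs, abs_abs]
        refine (abs_sub _ _).trans (add_le_add ?_ (hM y))
        have hN' : (0 : ℝ) < N l := by exact_mod_cast hNpos l
        unfold fav
        rw [abs_div, abs_of_pos hN', div_le_iff₀ hN']
        refine (Finset.abs_sum_le_sum_abs _ _).trans ?_
        refine (Finset.sum_le_sum (g := fun _ => C) fun m _ => hC _).trans ?_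
        rw [Finset.sum_const, Finset.card_range, nsmul_eq_mul, mul_comm]
      · filter_upwards [hYae] with y hy
        exact (((hF1 f y hy).1.sub_const (φ y)).abs)
    exact le_of_tendsto' hlim hle
  -- approximation of `φ`
  have happ : ∀ i : ℕ, ∃ g : C_c(Z, ℝ), ∫ y, |g y - φ y| ∂ν ≤ (1 / 2 : ℝ) ^ i := by
    intro i
    obtain ⟨g, hg1, hg2, hg3, -⟩ := hφi.exists_hasCompactSupport_integral_sub_le
      (ε := (1 / 2 : ℝ) ^ i) (by positivity)
    refine ⟨⟨⟨g, hg3⟩, hg1⟩, ?_⟩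
    refine le_trans (le_of_eq ?_) hg2
    congr 1
    funext y
    rw [Real.norm_eq_abs, abs_sub_comm]
    rfl
  choose g hg using happ
  have hFm : ∀ i, AEStronglyMeasurable (F (g i)) ν := fun i => (hF2 (g i)).1.aestronglyMeasurable
  have htend : Tendsto (fun i => eLpNorm (F (g i) - φ) 1 ν) atTop (𝓝 0) := by
    have h1 : ∀ i, eLpNorm (F (g i) - φ) 1 ν ≤ ENNReal.ofReal ((1 / 2 : ℝ) ^ i) := by
      intro i
      rw [eLpNorm_one_eq_lintegral_enorm, ← ofReal_integral_norm_eq_lintegral_enorm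
        ((hF2 (g i)).2.1.sub hφi)]
      exact ENNReal.ofReal_le_ofReal ((key (g i)).trans (hg i))
    have h2 : Tendsto (fun i : ℕ => ENNReal.ofReal ((1 / 2 : ℝ) ^ i)) atTop (𝓝 0) := by
      rw [← ENNReal.ofReal_zero]
      exact (ENNReal.continuous_ofReal.tendsto 0).comp
        (tendsto_pow_atTop_nhds_zero_of_lt_one (by norm_num) (by norm_num))
    exact tendsto_of_tendsto_of_tendsto_of_le_of_le tendsto_const_nhds h2 (fun _ => zero_le) h1
  obtain ⟨ns, -, hns⟩ := (tendstoInMeasure_of_tendsto_eLpNorm one_ne_zero hFm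
    hφ.aestronglyMeasurable htend).exists_seq_tendsto_ae
  have hall : ∀ᵐ y ∂ν, y ∈ Y ∧ Tendsto (fun i => F (g (ns i)) y) atTop (𝓝 (φ y)) :=
    hYae.and hns
  refine ⟨(toMeasurable ν {y | ¬ (y ∈ Y ∧ Tendsto (fun i => F (g (ns i)) y) atTop (𝓝 (φ y)))})ᶜ,
    (measurableSet_toMeasurable _ _).compl, ?_, ?_⟩
  · rw [compl_compl, measure_toMeasurable]
    exact hall
  · intro y hy y' hy' has
    have h1 : ∀ z, z ∈ (toMeasurable ν
        {y | ¬ (y ∈ Y ∧ Tendsto (fun i => F (g (ns i)) y) atTop (𝓝 (φ y)))})ᶜ →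
        z ∈ Y ∧ Tendsto (fun i => F (g (ns i)) z) atTop (𝓝 (φ z)) := by
      intro z hz
      by_contra h
      exact hz (subset_toMeasurable _ _ h)
    obtain ⟨hyY, hyl⟩ := h1 y hy
    obtain ⟨hyY', hyl'⟩ := h1 y' hy'
    have h2 : ∀ f : C_c(Z, ℝ), F f y = F f y' := by
      intro f
      have h3 : Tendsto (fun n : ℕ => fav T n f y - fav T n f y') atTop (𝓝 0) := by
        have h4 := (has f).cesaro
        refine h4.congr fun n => ?_
        unfold fav
        rw [Finset.sum_sub_distrib]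
        ring
      have h5 := h3.comp hN.tendsto_atTop
      have h6 := ((hF1 f y hyY).1.sub (hF1 f y' hyY').1)
      have h7 := tendsto_nhds_unique h6 h5
      linarith
    have h3 : (fun i => F (g (ns i)) y) = fun i => F (g (ns i)) y' := funext fun i => h2 _
    rw [h3] at hyl
    exact tendsto_nhds_unique hyl hyl'

end Pool.Agent.Lib.MP_41a456_al.TC
end

section

/-!
# MP_41a456_al, Theorem TC, K5: kernels and asymptotic points (paper 521, (11.2)(ii))

`b` commutes with the `u_ij(q)` and preserves `μ`, so `(y, s) ↦ (b y, s)` preserves `MG μ i j` and `b`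
preserves `(MG μ i j).fst =: ν`. By uniqueness of the disintegration (`Measure.condKernel` is a.e. unique:
`eq_condKernel_of_measure_eq_compProd` or similar) `KG (b y) = KG y` for `ν`-a.e. `y`. Apply `hopf_b` with
`T = hm b` to the countably many functions `φ_I (y) = (KG y I).toReal`, `I` an interval with rational end
points (a π-system which generates the Borel sets of `ℝ`), and intersect the sets.
-/

namespace Pool.Agent.Lib.MP_41a456_al.TC

open Matrix MeasureTheory Filter Topology Pool.Agent.Lib.MP_41a456_al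

open ProbabilityTheory

theorem K5.measurable_psi {n : ℕ} (i j : Fin n) :
    Measurable fun zs : X n × ℝ => (uel i j (-zs.2) • zs.1, zs.2) := by
  have h : Measurable fun zs : X n × ℝ => (zs.1, -zs.2) :=
    measurable_fst.prodMk measurable_snd.neg
  exact ((measurable_uel_smul i j).comp h).prodMk measurable_snd

theorem K5.measurable_phi {n : ℕ} (b : SLr n) :
    Measurable (Prod.map (fun y : X n => b • y) (id : ℝ → ℝ)) :=
  (measurable_smul_X b).prodMap measurable_id

theorem K5.map_MG {n : ℕ} (μ : Measure (X n)) [IsFiniteMeasure μ] (i j : Fin n) (b : SLr n)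
    (hb : ∀ q, b * uel i j q = uel i j q * b) (hμ : Inv μ b) :
    (MG μ i j).map (Prod.map (fun y : X n => b • y) (id : ℝ → ℝ)) = MG μ i j := by
  have h1 : Measurable fun zs : X n × ℝ => (uel i j (-zs.2) • zs.1, zs.2) := K5.measurable_psi i j
  have h2 := K5.measurable_phi (n := n) b
  have h3 : (μ.prod (volume.restrict (Set.Icc (0 : ℝ) 1))).map
      (Prod.map (fun y : X n => b • y) (id : ℝ → ℝ)) =
      μ.prod (volume.restrict (Set.Icc (0 : ℝ) 1)) := by
    have h4 := Measure.map_prod_map μ (volume.restrict (Set.Icc (0 : ℝ) 1))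
      (measurable_smul_X b) (measurable_id (α := ℝ))
    have h5 : μ.map (fun y : X n => b • y) = μ := hμ
    rw [h5, Measure.map_id] at h4
    exact h4.symm
  unfold MG
  rw [Measure.map_map h2 h1]
  have h6 : (Prod.map (fun y : X n => b • y) (id : ℝ → ℝ)) ∘
      (fun zs : X n × ℝ => (uel i j (-zs.2) • zs.1, zs.2)) =
      (fun zs : X n × ℝ => (uel i j (-zs.2) • zs.1, zs.2)) ∘
        (Prod.map (fun y : X n => b • y) (id : ℝ → ℝ)) := by
    funext zs
    simp only [Function.comp_apply, Prod.map, id]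
    rw [← mul_smul, hb, mul_smul]
  rw [h6, ← Measure.map_map h1 h2, h3]

theorem K5.map_fst {n : ℕ} (μ : Measure (X n)) [IsFiniteMeasure μ] (i j : Fin n) (b : SLr n)
    (hb : ∀ q, b * uel i j q = uel i j q * b) (hμ : Inv μ b) :
    (MG μ i j).fst.map (fun y : X n => b • y) = (MG μ i j).fst := by
  have h := K5.map_MG μ i j b hb hμ
  unfold Measure.fst
  rw [Measure.map_map (measurable_smul_X b) measurable_fst]
  conv_rhs => rw [← h]
  rw [Measure.map_map measurable_fst (K5.measurable_phi b)]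
  rfl

theorem K5.map_MG_inv {n : ℕ} (μ : Measure (X n)) [IsFiniteMeasure μ] (i j : Fin n) (b : SLr n)
    (hb : ∀ q, b * uel i j q = uel i j q * b) (hμ : Inv μ b) :
    (MG μ i j).map (Prod.map (fun y : X n => b⁻¹ • y) (id : ℝ → ℝ)) = MG μ i j := by
  have h := K5.map_MG μ i j b hb hμ
  conv_lhs => rw [← h]
  rw [Measure.map_map (K5.measurable_phi b⁻¹) (K5.measurable_phi b)]
  have h2 : (Prod.map (fun y : X n => b⁻¹ • y) (id : ℝ → ℝ)) ∘
      (Prod.map (fun y : X n => b • y) (id : ℝ → ℝ)) = id := by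
    funext zs
    simp only [Function.comp_apply, Prod.map, id, inv_smul_smul]
  rw [h2, Measure.map_id]

/-- the kernel is invariant under `b` almost everywhere -/
theorem K5.ae_eq {n : ℕ} (μ : Measure (X n)) [IsFiniteMeasure μ] (i j : Fin n) (b : SLr n)
    (hb : ∀ q, b * uel i j q = uel i j q * b) (hμ : Inv μ b) :
    ∀ᵐ y ∂(MG μ i j).fst, KG μ i j (b • y) = KG μ i j y := by
  set K' : Kernel (X n) ℝ := (KG μ i j).comap (fun y => b • y) (measurable_smul_X b) with hK'
  have hKm : IsMarkovKernel (KG μ i j) := by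
    unfold KG
    infer_instance
  have hK'm : IsMarkovKernel K' := by
    rw [hK']
    infer_instance
  refine eq_condKernel_of_measure_eq_compProd K' ?_
  ext S hS
  rw [Measure.compProd_apply hS]
  have h1 := K5.map_MG_inv μ i j b hb hμ
  have h2 : MG μ i j S = MG μ i j ((Prod.map (fun y : X n => b⁻¹ • y) (id : ℝ → ℝ)) ⁻¹' S) := by
    conv_lhs => rw [← h1]
    exact Measure.map_apply (K5.measurable_phi b⁻¹) hS
  have hS' : MeasurableSet ((Prod.map (fun y : X n => b⁻¹ • y) (id : ℝ → ℝ)) ⁻¹' S) :=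
    K5.measurable_phi b⁻¹ hS
  have h3 : MG μ i j ((Prod.map (fun y : X n => b⁻¹ • y) (id : ℝ → ℝ)) ⁻¹' S) =
      ∫⁻ y, KG μ i j y (Prod.mk y ⁻¹' ((Prod.map (fun y : X n => b⁻¹ • y) (id : ℝ → ℝ)) ⁻¹' S))
        ∂(MG μ i j).fst := by
    rw [← Measure.compProd_apply hS']
    congr 1
    exact ((MG μ i j).disintegrate (MG μ i j).condKernel).symm
  rw [h2, h3]
  conv_lhs => rw [← K5.map_fst μ i j b hb hμ]
  rw [lintegral_map (Kernel.measurable_kernel_prodMk_left hS') (measurable_smul_X b)]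
  refine lintegral_congr fun y => ?_
  rw [hK', Kernel.comap_apply]
  congr 1
  ext q
  simp only [Set.mem_preimage, Prod.map, id, inv_smul_smul]

theorem KG_asym {n : ℕ} (μ : Measure (X n)) [IsFiniteMeasure μ] (i j : Fin n) (b : SLr n)
    (hb : ∀ q, b * uel i j q = uel i j q * b) (hμ : Inv μ b) :
    ∃ Y : Set (X n), MeasurableSet Y ∧
      (∀ᵐ z ∂μ, ∀ᵐ s ∂(volume.restrict (Set.Icc (0 : ℝ) 1)), uel i j (-s) • z ∈ Y) ∧
      ∀ y ∈ Y, ∀ y' ∈ Y, Asym (hm b) y y' → KG μ i j y = KG μ i j y' := by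
  have hKm : IsMarkovKernel (KG μ i j) := by
    unfold KG
    infer_instance
  have hT : MeasurePreserving (hm b) (MG μ i j).fst (MG μ i j).fst :=
    ⟨measurable_smul_X b, K5.map_fst μ i j b hb hμ⟩
  have hae := K5.ae_eq μ i j b hb hμ
  have key : ∀ p : ℚ × ℚ, ∃ Y : Set (X n), MeasurableSet Y ∧ (MG μ i j).fst Yᶜ = 0 ∧
      ∀ y ∈ Y, ∀ y' ∈ Y, Asym (hm b) y y' →
        (KG μ i j y (Set.Ioo (p.1 : ℝ) p.2)).toReal = (KG μ i j y' (Set.Ioo (p.1 : ℝ) p.2)).toReal := by
    intro p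
    refine hopf_b (MG μ i j).fst (hm b) hT
      (fun y => (KG μ i j y (Set.Ioo (p.1 : ℝ) p.2)).toReal)
      ((Kernel.measurable_coe _ measurableSet_Ioo).ennreal_toReal) (M := 1) (fun y => ?_) ?_
    · rw [abs_of_nonneg ENNReal.toReal_nonneg]
      exact ENNReal.toReal_le_of_le_ofReal zero_le_one (by simpa using prob_le_one)
    · filter_upwards [hae] with y hy
      rw [hm_apply, hy]
  choose Y hY1 hY2 hY3 using key
  refine ⟨⋂ p, Y p, MeasurableSet.iInter hY1, ?_, ?_⟩
  · rw [← ae_fst_iff μ i j (MeasurableSet.iInter hY1)]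
    have h1 : ∀ᵐ y ∂(MG μ i j).fst, ∀ p, y ∈ Y p := by
      rw [ae_all_iff]
      intro p
      exact hY2 p
    filter_upwards [h1] with y hy
    exact Set.mem_iInter.2 hy
  · intro y hy y' hy' has
    rw [Set.mem_iInter] at hy hy'
    refine Real.measure_ext_Ioo_rat fun a c => ?_
    have h1 := hY3 (a, c) y (hy _) y' (hy' _) has
    exact (ENNReal.toReal_eq_toReal_iff' (measure_ne_top _ _) (measure_ne_top _ _)).1 h1

end Pool.Agent.Lib.MP_41a456_al.TC
end

section

/-!
# MP_41a456_al, Theorem TC, K7: the pentagon (paper 521, (11.3))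

`al = (i, k)`, `be = (k, j)`. `W_i` commutes with `U_kj` and contracts `U_ik` and `U_ij`; `W_j⁻¹`
commutes with `U_ik` and contracts `U_kj` and `U_ij` (`W_uel`). `Y_be` from `KG_asym μ k j (W Λ i)`,
`Y_al` from `KG_asym μ i k (W Λ j)⁻¹`.
Let `Y' ⊆ Y` be the measurable conull set (take measurable hulls of the null sets; all sets here can be
taken measurable) of the `z0 ∈ Y` such that for a.e. `s`: `u_kj(-s) z0 ∈ Y_be`, for
`KG_be (u_kj(-s) z0)`-a.e. `q0`: `u_kj(q0 - s) z0 ∈ Y`, and the same for `al`. Let `z0` be a point of `Y'`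
such that moreover for a.e. `s` and `KG_be (u_kj(-s) z0)`-a.e. `q0` also `u_kj(q0 - s) z0 ∈ Y'`, the same for
`al` (`ae_KG_mem` for `B = Y'`), and such that `KG_no_isolated` holds at `z0` for `be` and `al`.
If `w = u_ik(p) z0 ∈ Y'`: for a.e. `s` both `y = u_kj(-s) z0` and
`y_w = u_kj(-s) w = u_ij(p s) u_ik(p) y` are in `Y_be`, and they are forward asymptotic under `W_i`
(`asym_of_tendsto`), so `KG_be y = KG_be y_w`; hence for `KG_be y`-a.e. `q0` also
`u_kj(q0 - s) w ∈ Y`. In the same way, if `z = u_kj(q) z0 ∈ Y'`: for a.e. `s'` and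
`KG_al (u_ik(-s') z0)`-a.e. `p0`: `u_ik(p0 - s') z ∈ Y`.
Let `m_be` = law of `(s, q0)`, `s` uniform in `[0,1]`, `q0 ~ KG_be (u_kj(-s) z0)` (a measure on `ℝ × ℝ`, e.g.
`compProd`), `m_al` the same for `(s', p0)`. For `m_al`-a.e. `(s', p0)` `w ∈ Y'` with `p = p0 - s'`, and then
for `m_be`-a.e. `(s, q0)` `u_kj(q) w ∈ Y` with `q = q0 - s`; for `m_be`-a.e. `(s, q0)`: `z ∈ Y'`, and then for
`m_al`-a.e. `(s', p0)`: `u_ik(p) z ∈ Y`. So (Fubini) all four hold `m_be × m_al`-a.e.; the set where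
`0 < |q0 - s| < e` and `0 < |p0 - s'| < e` has positive measure. Take a point of it.
-/

namespace Pool.Agent.Lib.MP_41a456_al.TC

open Matrix MeasureTheory Filter Topology Pool.Agent.Lib.MP_41a456_al

open ProbabilityTheory

section K7

variable {n : ℕ}

/-- the uniform measure on the unit interval -/
private noncomputable abbrev k7J : Measure ℝ := volume.restrict (Set.Icc (0 : ℝ) 1)

private theorem k7_J_neBot : (ae k7J).NeBot := by
  rw [ae_neBot]
  intro h
  have h1 : k7J Set.univ = 0 := by rw [h]; rfl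
  rw [Measure.restrict_apply_univ, Real.volume_Icc] at h1
  norm_num at h1

private theorem k7_markov (μ : Measure (X n)) [IsFiniteMeasure μ] (i j : Fin n) :
    IsMarkovKernel (KG μ i j) := by
  unfold KG
  infer_instance

private theorem k7_cont (i j : Fin n) (z : X n) : Continuous fun s : ℝ => uel i j (-s) • z :=
  ((continuous_uel i j).comp continuous_neg).smul continuous_const

private theorem k7_cont2 (i j : Fin n) (z : X n) :
    Continuous fun x : ℝ × ℝ => uel i j (x.2 - x.1) • z :=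
  ((continuous_uel i j).comp (continuous_snd.sub continuous_fst)).smul continuous_const

/-- law of `(s, q)` -/
private noncomputable def k7m (μ : Measure (X n)) [IsFiniteMeasure μ] (i j : Fin n) (z : X n) :
    Measure (ℝ × ℝ) :=
  k7J ⊗ₘ ((KG μ i j).comap (fun s : ℝ => uel i j (-s) • z) (k7_cont i j z).measurable)

private theorem k7_sfinite (μ : Measure (X n)) [IsFiniteMeasure μ] (i j : Fin n) (z : X n) :
    SFinite (k7m μ i j z) := by
  have := k7_markov μ i j
  unfold k7m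
  infer_instance

private theorem k7_ae (μ : Measure (X n)) [IsFiniteMeasure μ] (i j : Fin n) (z : X n)
    {p : ℝ × ℝ → Prop} (hp : MeasurableSet {x | p x}) :
    (∀ᵐ x ∂(k7m μ i j z), p x) ↔
      ∀ᵐ s ∂k7J, ∀ᵐ q ∂(KG μ i j (uel i j (-s) • z)), p (s, q) := by
  have := k7_markov μ i j
  unfold k7m
  rw [Measure.ae_compProd_iff hp]
  rfl

/-- positivity -/
private theorem k7_pos (μ : Measure (X n)) [IsFiniteMeasure μ] (i j : Fin n) (z : X n)
    (h : ∀ᵐ s ∂k7J, ∀ e > 0,
      0 < KG μ i j (uel i j (-s) • z) (Set.Ioo (s - e) (s + e) \ {s})) {e : ℝ} (he : 0 < e) :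
    ∃ᶠ x in ae (k7m μ i j z), 0 < |x.2 - x.1| ∧ |x.2 - x.1| < e := by
  intro hcon
  have hmeas : MeasurableSet {x : ℝ × ℝ | ¬ (0 < |x.2 - x.1| ∧ |x.2 - x.1| < e)} := by
    refine MeasurableSet.compl ?_
    have hc : Continuous fun x : ℝ × ℝ => |x.2 - x.1| := (continuous_snd.sub continuous_fst).abs
    exact (measurableSet_lt measurable_const hc.measurable).inter
      (measurableSet_lt hc.measurable measurable_const)
  have h1 := (k7_ae μ i j z hmeas).1 hcon
  have hne := k7_J_neBot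
  obtain ⟨s, hs1, hs2⟩ := (h1.and h).exists
  have h2 := hs2 e he
  have h3 : KG μ i j (uel i j (-s) • z) (Set.Ioo (s - e) (s + e) \ {s}) = 0 := by
    rw [ae_iff] at hs1
    refine measure_mono_null ?_ hs1
    intro q hq
    rw [Set.mem_setOf_eq, not_not]
    obtain ⟨hq1, hq2⟩ := hq
    have hq3 : q ≠ s := hq2
    constructor
    · exact abs_pos.2 (sub_ne_zero.2 hq3)
    · rw [abs_lt]
      constructor
      · linarith [hq1.1]
      · linarith [hq1.2]
  rw [h3] at h2
  exact lt_irrefl _ h2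

/-- one root, one contracting element -/
private theorem k7_A (μ : Measure (X n)) [IsFiniteMeasure μ] (i j : Fin n) (c : SLr n)
    (hc : ∀ q, c * uel i j q = uel i j q * c) (hμ : Inv μ c) {Y : Set (X n)}
    (hY : MeasurableSet Y) (hY0 : μ Yᶜ = 0) :
    ∃ P : X n → Prop, (∀ᵐ z ∂μ, P z) ∧ ∀ z w, P z → P w →
      (∀ s, Asym (hm c) (uel i j (-s) • z) (uel i j (-s) • w)) →
      ∀ᵐ x ∂(k7m μ i j z), uel i j (x.2 - x.1) • w ∈ Y := by
  obtain ⟨Yr, -, hYr, hasym⟩ := KG_asym μ i j c hc hμ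
  refine ⟨fun z => (∀ᵐ s ∂k7J, uel i j (-s) • z ∈ Yr) ∧
    ∀ᵐ s ∂k7J, ∀ᵐ q ∂(KG μ i j (uel i j (-s) • z)), uel i j (q - s) • z ∈ Y, ?_, ?_⟩
  · exact hYr.and (ae_KG_mem μ i j hY hY0)
  · intro z w hz hw has
    refine (k7_ae μ i j z (p := fun x => uel i j (x.2 - x.1) • w ∈ Y)
      ((k7_cont2 i j w).measurable hY)).2 ?_
    filter_upwards [hz.1, hw.1, hw.2] with s h1 h2 h3
    rw [hasym _ h1 _ h2 (has s)]
    exact h3

private theorem k7_conj_pow (c : SLr n) (i j : Fin n) (l : ℝ)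
    (h : ∀ q, c * uel i j q * c⁻¹ = uel i j (l * q)) (m : ℕ) (q : ℝ) :
    c ^ m * uel i j q * (c ^ m)⁻¹ = uel i j (l ^ m * q) := by
  induction m generalizing q with
  | zero => simp
  | succ m ih =>
    have h1 : c ^ (m + 1) * uel i j q * (c ^ (m + 1))⁻¹ =
        c ^ m * (c * uel i j q * c⁻¹) * (c ^ m)⁻¹ := by
      rw [pow_succ]
      group
    rw [h1, h, ih]
    congr 1
    ring

private theorem k7_tendsto (c : SLr n) (i j i' j' : Fin n) (l : ℝ) (hl0 : 0 ≤ l) (hl1 : l < 1)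
    (h : ∀ q, c * uel i j q * c⁻¹ = uel i j (l * q))
    (h' : ∀ q, c * uel i' j' q * c⁻¹ = uel i' j' (l * q)) (q q' : ℝ) :
    Tendsto (fun m : ℕ => c ^ m * (uel i j q * uel i' j' q') * (c ^ m)⁻¹) atTop (𝓝 1) := by
  have h1 : (fun m : ℕ => c ^ m * (uel i j q * uel i' j' q') * (c ^ m)⁻¹) =
      fun m : ℕ => uel i j (l ^ m * q) * uel i' j' (l ^ m * q') := by
    funext m
    rw [← k7_conj_pow c i j l h, ← k7_conj_pow c i' j' l h']
    group
  rw [h1]
  have h2 : ∀ x : ℝ, Tendsto (fun m : ℕ => l ^ m * x) atTop (𝓝 0) := by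
    intro x
    have := (tendsto_pow_atTop_nhds_zero_of_lt_one hl0 hl1).mul_const x
    rwa [zero_mul] at this
  have h3 := ((continuous_uel i j).tendsto 0).comp (h2 q)
  have h4 := ((continuous_uel i' j').tendsto 0).comp (h2 q')
  rw [uel_zero] at h3 h4
  have h5 := h3.mul h4
  rw [mul_one] at h5
  exact h5

private theorem k7_inv_inv (μ : Measure (X n)) (g : SLr n) (h : Inv μ g) : Inv μ g⁻¹ := by
  unfold Inv at *
  conv_lhs => rw [← h]
  rw [Measure.map_map (measurable_smul_X _) (measurable_smul_X _)]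
  have h1 : (fun y : X n => g⁻¹ • y) ∘ (fun y : X n => g • y) = id := by
    funext y
    simp
  rw [h1, Measure.map_id]

end K7

theorem pentagon {n : ℕ} {Λ : ℕ} (hΛ : 2 ≤ Λ) (μ : Measure (X n)) [IsFiniteMeasure μ]
    {i k j : Fin n} (hik : i ≠ k) (hkj : k ≠ j) (hij : i ≠ j) (hW : ∀ l, Inv μ (W Λ l))
    (h1 : Nij μ i k) (h2 : Nij μ k j) {Y : Set (X n)} (hY : MeasurableSet Y) (hY0 : μ Yᶜ = 0) :
    ∀ᵐ z0 ∂μ, ∀ e > 0, ∃ p q : ℝ, 0 < |p| ∧ |p| < e ∧ 0 < |q| ∧ |q| < e ∧ z0 ∈ Y ∧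
      uel i k p • z0 ∈ Y ∧ uel k j q • z0 ∈ Y ∧ (uel k j q * uel i k p) • z0 ∈ Y ∧
      (uel i k p * uel k j q) • z0 ∈ Y := by
  have hΛ1 : 1 ≤ Λ := by omega
  have hΛr : (1 : ℝ) < (Λ : ℝ) := by exact_mod_cast (by omega : 1 < Λ)
  have hΛ0 : (Λ : ℝ) ≠ 0 := by positivity
  have hl0 : (0 : ℝ) ≤ (Λ : ℝ)⁻¹ := by positivity
  have hl1 : (Λ : ℝ)⁻¹ < 1 := inv_lt_one_of_one_lt₀ hΛr
  -- conjugations
  have hWi_kj : ∀ q, W Λ i * uel k j q = uel k j q * W Λ i := by
    intro q
    have h := W_uel hΛ1 i k j q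
    rw [if_neg hik, if_neg hij, one_mul, one_mul] at h
    exact mul_inv_eq_iff_eq_mul.1 h
  have hWi_ij : ∀ q, W Λ i * uel i j q * (W Λ i)⁻¹ = uel i j ((Λ : ℝ)⁻¹ * q) := by
    intro q
    have h := W_uel hΛ1 i i j q
    rwa [if_pos rfl, if_neg hij, mul_one] at h
  have hWi_ik : ∀ q, W Λ i * uel i k q * (W Λ i)⁻¹ = uel i k ((Λ : ℝ)⁻¹ * q) := by
    intro q
    have h := W_uel hΛ1 i i k q
    rwa [if_pos rfl, if_neg hik, mul_one] at h
  have hWj_ik : ∀ q, (W Λ j)⁻¹ * uel i k q = uel i k q * (W Λ j)⁻¹ := by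
    intro q
    have h := W_uel hΛ1 j i k q
    rw [if_neg hij.symm, if_neg hkj.symm, one_mul, one_mul] at h
    have h' := mul_inv_eq_iff_eq_mul.1 h
    rw [inv_mul_eq_iff_eq_mul, ← mul_assoc, h', mul_assoc, mul_inv_cancel, mul_one]
  have hWj_ij : ∀ q, (W Λ j)⁻¹ * uel i j q * ((W Λ j)⁻¹)⁻¹ = uel i j ((Λ : ℝ)⁻¹ * q) := by
    intro q
    have h := W_uel hΛ1 j i j ((Λ : ℝ)⁻¹ * q)
    rw [if_neg hij.symm, if_pos rfl, one_mul, mul_inv_cancel_left₀ hΛ0] at h
    rw [← h]
    group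
  have hWj_kj : ∀ q, (W Λ j)⁻¹ * uel k j q * ((W Λ j)⁻¹)⁻¹ = uel k j ((Λ : ℝ)⁻¹ * q) := by
    intro q
    have h := W_uel hΛ1 j k j ((Λ : ℝ)⁻¹ * q)
    rw [if_neg hkj.symm, if_pos rfl, one_mul, mul_inv_cancel_left₀ hΛ0] at h
    rw [← h]
    group
  -- asymptotic pairs
  have has_b : ∀ (z : X n) (p s : ℝ),
      Asym (hm (W Λ i)) (uel k j (-s) • z) (uel k j (-s) • uel i k p • z) := by
    intro z p s
    have e1 : uel k j (-s) • uel i k p • z = (uel i j (p * s) * uel i k p) • uel k j (-s) • z := by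
      rw [smul_smul, smul_smul]
      congr 1
      have h := uel_commutator hik hkj hij p (-s)
      have h' : uel i j (p * s) * (uel i k p * uel k j (-s)) = uel k j (-s) * uel i k p := by
        rw [h, ← mul_assoc, ← mul_assoc, ← uel_add]
        have : p * s + p * -s = 0 := by ring
        rw [this, uel_zero, one_mul]
      rw [mul_assoc, h']
    rw [e1]
    exact asym_of_tendsto _ _ (k7_tendsto (W Λ i) i j i k _ hl0 hl1 hWi_ij hWi_ik _ _) _
  have has_a : ∀ (z : X n) (q s : ℝ),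
      Asym (hm (W Λ j)⁻¹) (uel i k (-s) • z) (uel i k (-s) • uel k j q • z) := by
    intro z q s
    have e1 : uel i k (-s) • uel k j q • z = (uel i j (-s * q) * uel k j q) • uel i k (-s) • z := by
      rw [smul_smul, smul_smul]
      congr 1
      exact uel_commutator hik hkj hij (-s) q
    rw [e1]
    exact asym_of_tendsto _ _ (k7_tendsto (W Λ j)⁻¹ i j k j _ hl0 hl1 hWj_ij hWj_kj _ _) _
  obtain ⟨Pb, hPb, hPb2⟩ := k7_A μ k j (W Λ i) hWi_kj (hW i) hY hY0
  obtain ⟨Pa, hPa, hPa2⟩ := k7_A μ i k (W Λ j)⁻¹ hWj_ik (k7_inv_inv μ _ (hW j)) hY hY0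
  -- the measurable set
  have hYae : ∀ᵐ z ∂μ, z ∈ Y := by
    rw [ae_iff]
    exact hY0
  have hall : ∀ᵐ z ∂μ, z ∈ Y ∧ Pb z ∧ Pa z := hYae.and (hPb.and hPa)
  obtain ⟨Y', hY'sub, hY'm, hY'0⟩ : ∃ Y' : Set (X n), (∀ z ∈ Y', z ∈ Y ∧ Pb z ∧ Pa z) ∧
      MeasurableSet Y' ∧ μ Y'ᶜ = 0 := by
    refine ⟨(toMeasurable μ {z | ¬ (z ∈ Y ∧ Pb z ∧ Pa z)})ᶜ, ?_,
      (measurableSet_toMeasurable _ _).compl, ?_⟩
    · intro z hz
      by_contra hcon
      exact hz (subset_toMeasurable μ _ hcon)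
    · rw [compl_compl, measure_toMeasurable]
      exact hall
  have hY'ae : ∀ᵐ z ∂μ, z ∈ Y' := by
    rw [ae_iff]
    exact hY'0
  filter_upwards [hY'ae, ae_KG_mem μ k j hY'm hY'0, ae_KG_mem μ i k hY'm hY'0,
    KG_no_isolated μ k j h2, KG_no_isolated μ i k h1] with z0 hz0 hb ha hnb hna e he
  have hsb := k7_sfinite μ k j z0
  have hsa := k7_sfinite μ i k z0
  obtain ⟨hz0Y, hz0b, hz0a⟩ := hY'sub z0 hz0
  have hb' : ∀ᵐ x ∂(k7m μ k j z0), uel k j (x.2 - x.1) • z0 ∈ Y' :=
    (k7_ae μ k j z0 (p := fun x => uel k j (x.2 - x.1) • z0 ∈ Y')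
      ((k7_cont2 k j z0).measurable hY'm)).2 hb
  have ha' : ∀ᵐ x ∂(k7m μ i k z0), uel i k (x.2 - x.1) • z0 ∈ Y' :=
    (k7_ae μ i k z0 (p := fun x => uel i k (x.2 - x.1) • z0 ∈ Y')
      ((k7_cont2 i k z0).measurable hY'm)).2 ha
  have hA1 : ∀ᵐ x ∂(k7m μ i k z0), ∀ᵐ y ∂(k7m μ k j z0),
      uel k j (y.2 - y.1) • uel i k (x.2 - x.1) • z0 ∈ Y := by
    filter_upwards [ha'] with x hx
    exact hPb2 z0 _ hz0b (hY'sub _ hx).2.1 fun s => has_b z0 _ s
  have hA2 : ∀ᵐ y ∂(k7m μ k j z0), ∀ᵐ x ∂(k7m μ i k z0),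
      uel i k (x.2 - x.1) • uel k j (y.2 - y.1) • z0 ∈ Y := by
    filter_upwards [hb'] with y hy
    exact hPa2 z0 _ hz0a (hY'sub _ hy).2.2 fun s => has_a z0 _ s
  have hA2' : ∀ᵐ x ∂(k7m μ i k z0), ∀ᵐ y ∂(k7m μ k j z0),
      uel i k (x.2 - x.1) • uel k j (y.2 - y.1) • z0 ∈ Y := by
    refine (Measure.ae_ae_comm (p := fun (y : ℝ × ℝ) (x : ℝ × ℝ) =>
      uel i k (x.2 - x.1) • uel k j (y.2 - y.1) • z0 ∈ Y) ?_).1 hA2
    have hc : Continuous fun w : (ℝ × ℝ) × (ℝ × ℝ) =>
        uel i k (w.2.2 - w.2.1) • uel k j (w.1.2 - w.1.1) • z0 := by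
      have c1 : Continuous fun w : (ℝ × ℝ) × (ℝ × ℝ) => uel i k (w.2.2 - w.2.1) :=
        (continuous_uel i k).comp (by fun_prop)
      have c2 : Continuous fun w : (ℝ × ℝ) × (ℝ × ℝ) => uel k j (w.1.2 - w.1.1) :=
        (continuous_uel k j).comp (by fun_prop)
      exact c1.smul (c2.smul continuous_const)
    exact hc.measurable hY
  obtain ⟨x, hx, hx1, hx2, hx3⟩ :=
    ((k7_pos μ i k z0 hna he).and_eventually (ha'.and (hA1.and hA2'))).exists
  obtain ⟨y, hy, hy1, hy2, hy3⟩ :=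
    ((k7_pos μ k j z0 hnb he).and_eventually (hb'.and (hx2.and hx3))).exists
  refine ⟨x.2 - x.1, y.2 - y.1, hx.1, hx.2, hy.1, hy.2, hz0Y, (hY'sub _ hx1).1, (hY'sub _ hy1).1,
    ?_, ?_⟩
  · rw [mul_smul]
    exact hy2
  · rw [mul_smul]
    exact hy3

end Pool.Agent.Lib.MP_41a456_al.TC
end

section

/-!
# MP_41a456_al, Theorem TC, K8: Lemma H (paper 521, (11.4))

`T = hm (W Λ k)`; `N`, `Y`, `F` from `hopf_a`. `W_k` commutes with `U_ij`, contracts `U_kj`, expands `U_ik`.
Let `z0, p, q` be as in `pentagon` for this `Y`, `w = u_ik(p) z0`, `z = u_kj(q) z0`, `c' = u_kj(q) w`,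
`c = u_ik(p) z`. `F f w = F f z0` (backward asymptotic: `asym_of_tendsto` for `W_k⁻¹`),
`F f c' = F f w` (forward), `F f z = F f z0` (forward), `F f c = F f z` (backward).
`c = u_ij(p q) c'` (`uel_commutator`), `u_ij(p q)` commutes with `W_k`, so
`F f c = F (tw (u_ij(p q)) f) c'`. Hence `F (tw (u_ij(p q)) f) z0 = F f z0` for all `f`. The set of the `r`
with `F (tw (u_ij(r)) f) z0 = F f z0` for all `f` is an additive subgroup of `ℝ` (`tw_tw`), closed
(`unif_Cc`: `|F f - F f'| ≤ sup |f - f'|`), and contains arbitrarily small nonzero numbers, so it is `ℝ`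
(`AddSubgroup.dense_of_no_min` or similar). This holds for a.e. `z0`: integrate,
`∫ tw (u_ij(r)) f = ∫ f` for all `f ∈ C_c`; so the measure is invariant
(`Measure.ext_of_integral_eq_on_compactlySupported`; finite measures on `X n` are regular).
-/

namespace Pool.Agent.Lib.MP_41a456_al.TC

open Matrix MeasureTheory Filter Topology Pool.Agent.Lib.MP_41a456_al

open ProbabilityTheory

open scoped CompactlySupported

private theorem K8_lim {Z : Type*} [TopologicalSpace Z] (T : Z → Z) {y y' : Z}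
    (h : Asym T y y') (f : C_c(Z, ℝ)) {N : ℕ → ℕ} (hN : StrictMono N) {a a' : ℝ}
    (ha : Tendsto (fun l => fav T (N l) f y) atTop (𝓝 a))
    (ha' : Tendsto (fun l => fav T (N l) f y') atTop (𝓝 a')) : a = a' := by
  have h1 := ((h f).cesaro).comp hN.tendsto_atTop
  have h2 : Tendsto (fun l => fav T (N l) f y - fav T (N l) f y') atTop (𝓝 0) := by
    refine h1.congr fun l => ?_
    simp only [Function.comp, fav, Finset.sum_sub_distrib]
    ring
  have h3 := tendsto_nhds_unique h2 (ha.sub ha')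
  linarith

private theorem K8_diff {Z : Type*} [TopologicalSpace Z] (T : Z → Z) {y : Z}
    (f f' : C_c(Z, ℝ)) {N : ℕ → ℕ} {ε : ℝ} (hε : 0 ≤ ε) (hf : ∀ z, |f z - f' z| ≤ ε) {a a' : ℝ}
    (ha : Tendsto (fun l => fav T (N l) f y) atTop (𝓝 a))
    (ha' : Tendsto (fun l => fav T (N l) f' y) atTop (𝓝 a')) : |a - a'| ≤ ε := by
  refine le_of_tendsto ((ha.sub ha').abs) (Eventually.of_forall fun l => ?_)
  have h1 : fav T (N l) f y - fav T (N l) f' y =
      (∑ m ∈ Finset.range (N l), (f (T^[m] y) - f' (T^[m] y))) / (N l : ℝ) := by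
    simp only [fav, Finset.sum_sub_distrib]
    ring
  rw [h1, abs_div, Nat.abs_cast]
  rcases Nat.eq_zero_or_pos (N l) with h0 | h0
  · rw [h0]
    simpa using hε
  · have h0' : (0 : ℝ) < N l := by exact_mod_cast h0
    rw [div_le_iff₀ h0']
    refine (Finset.abs_sum_le_sum_abs _ _).trans ?_
    refine (Finset.sum_le_sum fun m _ => hf (T^[m] y)).trans (le_of_eq ?_)
    rw [Finset.sum_const, Finset.card_range, nsmul_eq_mul]
    ring

private theorem K8_conj_pow {n : ℕ} (b : SLr n) (i j : Fin n) (c : ℝ)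
    (h : ∀ q, b * uel i j q * b⁻¹ = uel i j (c * q)) (q : ℝ) (m : ℕ) :
    b ^ m * uel i j q * (b ^ m)⁻¹ = uel i j (c ^ m * q) := by
  induction m with
  | zero => simp
  | succ m ih =>
    have e : b ^ (m + 1) * uel i j q * (b ^ (m + 1))⁻¹ =
        b * (b ^ m * uel i j q * (b ^ m)⁻¹) * b⁻¹ := by
      rw [pow_succ']
      group
    rw [e, ih, h, pow_succ']
    congr 1
    ring

private theorem K8_contract {n : ℕ} (b : SLr n) (i j : Fin n) (c : ℝ) (hc0 : 0 ≤ c) (hc1 : c < 1)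
    (h : ∀ q, b * uel i j q * b⁻¹ = uel i j (c * q)) (q : ℝ) :
    Tendsto (fun m : ℕ => b ^ m * uel i j q * (b ^ m)⁻¹) atTop (𝓝 1) := by
  have h1 : Tendsto (fun m : ℕ => c ^ m * q) atTop (𝓝 0) := by
    have := (tendsto_pow_atTop_nhds_zero_of_lt_one hc0 hc1).mul_const q
    simpa using this
  have h2 := ((continuous_uel i j).tendsto 0).comp h1
  rw [uel_zero] at h2
  refine h2.congr fun m => ?_
  rw [K8_conj_pow b i j c h q m]
  rfl

private theorem K8_fav_comm {n : ℕ} (b u : SLr n) (hbu : b * u = u * b) (M : ℕ)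
    (f : C_c(X n, ℝ)) (y : X n) :
    fav (hm b) M f (u • y) = fav (hm b) M (tw u f) y := by
  have hc : ∀ m : ℕ, (hm b)^[m] (u • y) = u • (hm b)^[m] y := by
    intro m
    induction m with
    | zero => rfl
    | succ m ih =>
      rw [Function.iterate_succ_apply', Function.iterate_succ_apply', ih, hm_apply, hm_apply,
        ← mul_smul, ← mul_smul, hbu]
  simp only [fav]
  congr 1
  refine Finset.sum_congr rfl fun m _ => ?_
  rw [hc, tw_apply]

/-- the pointwise part -/
private theorem K8_point {n : ℕ} {Λ : ℕ} (hΛ : 2 ≤ Λ) {i k j : Fin n} (hik : i ≠ k)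
    (hkj : k ≠ j) (hij : i ≠ j) {N : ℕ → ℕ} (hN : StrictMono N)
    {Y : Set (X n)} {F : C_c(X n, ℝ) → X n → ℝ}
    (hF : ∀ f : C_c(X n, ℝ), ∀ y ∈ Y,
      Tendsto (fun l => fav (hm (W Λ k)) (N l) f y) atTop (𝓝 (F f y)) ∧
      Tendsto (fun l => fav (hm (W Λ k)⁻¹) (N l) f y) atTop (𝓝 (F f y)))
    {z0 : X n}
    (hz : ∀ e > 0, ∃ p q : ℝ, 0 < |p| ∧ |p| < e ∧ 0 < |q| ∧ |q| < e ∧ z0 ∈ Y ∧
      uel i k p • z0 ∈ Y ∧ uel k j q • z0 ∈ Y ∧ (uel k j q * uel i k p) • z0 ∈ Y ∧
      (uel i k p * uel k j q) • z0 ∈ Y) (r : ℝ) (f : C_c(X n, ℝ)) :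
    F (tw (uel i j r) f) z0 = F f z0 := by
  have hΛ1 : 1 ≤ Λ := by omega
  have hΛ0 : (0 : ℝ) < Λ := by exact_mod_cast hΛ1
  have hΛinv0 : (0 : ℝ) ≤ (Λ : ℝ)⁻¹ := by positivity
  have hΛinv1 : (Λ : ℝ)⁻¹ < 1 := by
    apply inv_lt_one_of_one_lt₀
    have : (2 : ℝ) ≤ Λ := by exact_mod_cast hΛ
    linarith
  -- conjugation by `W_k`
  have hckj : ∀ q, W Λ k * uel k j q * (W Λ k)⁻¹ = uel k j ((Λ : ℝ)⁻¹ * q) := by
    intro q
    rw [W_uel hΛ1, if_pos rfl, if_neg hkj]
    congr 1
    ring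
  have hcik : ∀ p, (W Λ k)⁻¹ * uel i k p * (W Λ k)⁻¹⁻¹ = uel i k ((Λ : ℝ)⁻¹ * p) := by
    intro p
    have h := W_uel hΛ1 k i k ((Λ : ℝ)⁻¹ * p)
    rw [if_neg hik.symm, if_pos rfl] at h
    have e : (1 : ℝ) * (Λ : ℝ) * ((Λ : ℝ)⁻¹ * p) = p := by
      field_simp
    rw [e] at h
    rw [← h]
    group
  have hcij : ∀ r, W Λ k * uel i j r = uel i j r * W Λ k := by
    intro r
    have h := W_uel hΛ1 k i j r
    rw [if_neg hik.symm, if_neg hkj] at h
    have e : (1 : ℝ) * 1 * r = r := by ring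
    rw [e] at h
    rw [← mul_inv_eq_iff_eq_mul]
    exact h
  -- forward and backward asymptotic points
  have hfw : ∀ (q : ℝ) (y : X n), y ∈ Y → uel k j q • y ∈ Y → ∀ f, F f (uel k j q • y) = F f y := by
    intro q y hy hy' f
    have ha := asym_of_tendsto (W Λ k) (uel k j q) (K8_contract _ _ _ _ hΛinv0 hΛinv1 hckj q) y
    exact (K8_lim _ ha f hN (hF f y hy).1 (hF f _ hy').1).symm
  have hbw : ∀ (p : ℝ) (y : X n), y ∈ Y → uel i k p • y ∈ Y → ∀ f, F f (uel i k p • y) = F f y := by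
    intro p y hy hy' f
    have ha := asym_of_tendsto (W Λ k)⁻¹ (uel i k p)
      (K8_contract _ _ _ _ hΛinv0 hΛinv1 hcik p) y
    exact (K8_lim _ ha f hN (hF f y hy).2 (hF f _ hy').2).symm
  -- the small elements
  have hsmall : ∀ e > 0, ∃ r : ℝ, 0 < |r| ∧ |r| < e ∧ z0 ∈ Y ∧
      ∀ f, F (tw (uel i j r) f) z0 = F f z0 := by
    intro e he
    obtain ⟨p, q, hp0, hp, hq0, hq, hz0, hw, hzz, hc', hc⟩ := hz (min e 1) (lt_min he one_pos)
    refine ⟨p * q, by rw [abs_mul]; positivity, ?_, hz0, ?_⟩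
    · rw [abs_mul]
      have h1 : |p| < e := lt_of_lt_of_le hp (min_le_left _ _)
      have h2 : |q| < 1 := lt_of_lt_of_le hq (min_le_right _ _)
      nlinarith
    · intro f
      -- `c' = u_kj(q) w`, `c = u_ik(p) z`
      have e1 : ∀ f, F f ((uel k j q * uel i k p) • z0) = F f z0 := by
        intro f
        rw [mul_smul] at hc' ⊢
        rw [hfw q _ hw hc' f, hbw p _ hz0 hw f]
      have e2 : F f ((uel i k p * uel k j q) • z0) = F f z0 := by
        rw [mul_smul] at hc ⊢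
        rw [hbw p _ hzz hc f, hfw q _ hz0 hzz f]
      have e3 : (uel i k p * uel k j q) • z0 =
          uel i j (p * q) • ((uel k j q * uel i k p) • z0) := by
        rw [uel_commutator hik hkj hij, mul_smul, mul_smul, mul_smul]
      have e4 : F f ((uel i k p * uel k j q) • z0) =
          F (tw (uel i j (p * q)) f) ((uel k j q * uel i k p) • z0) := by
        have h1 := (hF f _ hc).1
        have h2 := (hF (tw (uel i j (p * q)) f) _ hc').1
        refine tendsto_nhds_unique h1 (h2.congr fun l => ?_)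
        rw [e3, K8_fav_comm _ _ (hcij (p * q))]
      rw [← e1 (tw (uel i j (p * q)) f), ← e4, e2]
  have hz0 : z0 ∈ Y := (hsmall 1 one_pos).choose_spec.2.2.1
  -- the closed subgroup
  let H : AddSubgroup ℝ :=
    { carrier := {r | ∀ f : C_c(X n, ℝ), F (tw (uel i j r) f) z0 = F f z0}
      zero_mem' := by
        intro f
        have : tw (uel i j 0) f = f := by
          ext y
          rw [tw_apply, uel_zero, one_smul]
        rw [this]
      add_mem' := by
        intro r s hr hs f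
        rw [uel_add, ← tw_tw, hs, hr]
      neg_mem' := by
        intro r hr f
        have h1 := hr (tw (uel i j (-r)) f)
        rw [tw_tw, ← uel_add, neg_add_cancel] at h1
        have : tw (uel i j 0) f = f := by
          ext y
          rw [tw_apply, uel_zero, one_smul]
        rw [this] at h1
        exact h1.symm }
  have hH : ∀ r, r ∈ H ↔ ∀ f : C_c(X n, ℝ), F (tw (uel i j r) f) z0 = F f z0 := fun r => Iff.rfl
  have hdense : Dense (H : Set ℝ) := by
    apply AddSubgroup.dense_of_not_isolated_zero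
    intro e he
    obtain ⟨r, hr0, hr, _, hrf⟩ := hsmall e he
    have hrH : r ∈ H := (hH r).2 hrf
    rcases lt_or_ge 0 r with h | h
    · exact ⟨r, hrH, h, by rwa [abs_of_pos h] at hr⟩
    · have h' : r < 0 := lt_of_le_of_ne h (fun h0 => by rw [h0, abs_zero] at hr0; exact hr0.false)
      refine ⟨-r, H.neg_mem hrH, by linarith, ?_⟩
      rwa [abs_of_neg h'] at hr
  have hcont : ∀ f : C_c(X n, ℝ), Continuous fun r : ℝ => F (tw (uel i j r) f) z0 := by
    intro f
    rw [continuous_iff_continuousAt]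
    intro r0
    rw [ContinuousAt, Metric.tendsto_nhds]
    intro e he
    filter_upwards [unif_uel i j f r0 (half_pos he)] with r hr
    rw [Real.dist_eq]
    have h1 : |F (tw (uel i j r) f) z0 - F (tw (uel i j r0) f) z0| ≤ e / 2 :=
      K8_diff (hm (W Λ k)) (tw (uel i j r) f) (tw (uel i j r0) f) (half_pos he).le
        (fun z => hr z) (hF _ z0 hz0).1 (hF _ z0 hz0).1
    linarith
  have hclosed : IsClosed (H : Set ℝ) := by
    have : (H : Set ℝ) = ⋂ f : C_c(X n, ℝ), {r : ℝ | F (tw (uel i j r) f) z0 = F f z0} := by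
      ext r
      simp only [SetLike.mem_coe, Set.mem_iInter]
      exact hH r
    rw [this]
    exact isClosed_iInter fun f => isClosed_eq (hcont f) continuous_const
  have htop : (H : Set ℝ) = Set.univ := by
    rw [← hclosed.closure_eq]
    exact hdense.closure_eq
  have hr : r ∈ H := by
    have : r ∈ (H : Set ℝ) := by rw [htop]; trivial
    exact this
  exact (hH r).1 hr f

theorem lemmaH {n : ℕ} {Λ : ℕ} (hΛ : 2 ≤ Λ) (μ : Measure (X n)) [IsFiniteMeasure μ]
    {i k j : Fin n} (hik : i ≠ k) (hkj : k ≠ j) (hij : i ≠ j) (hW : ∀ l, Inv μ (W Λ l))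
    (h1 : Nij μ i k) (h2 : Nij μ k j) (r : ℝ) : Inv μ (uel i j r) := by
  have hT : MeasurePreserving (hm (W Λ k)) μ μ := ⟨(hm (W Λ k)).continuous.measurable, hW k⟩
  obtain ⟨N, hN, hN0, Y, hY, hY0, F, hF, hFi⟩ := hopf_a μ (hm (W Λ k)) hT
  rw [hm_symm] at hF
  have hpent := pentagon hΛ μ hik hkj hij hW h1 h2 hY hY0
  have hae : ∀ f : C_c(X n, ℝ), ∀ᵐ z0 ∂μ, F (tw (uel i j r) f) z0 = F f z0 := by
    intro f
    filter_upwards [hpent] with z0 hz
    exact K8_point hΛ hik hkj hij hN hF hz r f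
  have hint : ∀ f : C_c(X n, ℝ), ∫ y, f (uel i j r • y) ∂μ = ∫ y, f y ∂μ := by
    intro f
    have e1 : ∫ y, f (uel i j r • y) ∂μ = ∫ y, (tw (uel i j r) f) y ∂μ := rfl
    rw [e1, ← (hFi (tw (uel i j r) f)).2.2, ← (hFi f).2.2]
    exact integral_congr_ae (hae f)
  unfold Inv
  have hmeas : Measurable fun y : X n => uel i j r • y := measurable_smul_X _
  have hfin : IsFiniteMeasure (μ.map fun y : X n => uel i j r • y) := inferInstance
  refine Measure.ext_of_integral_eq_on_compactlySupported fun f => ?_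
  have h3 : ∫ x, f x ∂(μ.map fun y : X n => uel i j r • y) = ∫ y, f (uel i j r • y) ∂μ :=
    integral_map hmeas.aemeasurable (map_continuous f).aestronglyMeasurable
  rw [h3]
  exact hint f

end Pool.Agent.Lib.MP_41a456_al.TC
end

section

/-!
# MP_41a456_al, Theorem TC, L2: invariance under the whole group (paper 521, section 12)

From `(N_i0), (N_0j)` invariance under `u_ij` for `i ≠ j`, `i, j ≠ 0` (`lemmaH`, `k = 0`); from
`(N_0k)` and `U_kj`-invariance (`k ≠ 0, j`, exists because `n ≥ 3`; `Nij_of_inv`) invariance under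
`u_0j`; from `U_jk`-invariance and `(N_k0)` invariance under `u_j0`. The transvections generate `SLr n`
(`SpecialLinearGroup.diagonal_transvection_induction'`; the `diag2n` matrices with entries `c, c⁻¹` are
products of four transvections).
-/

namespace Pool.Agent.Lib.MP_41a456_al.TC

open Matrix MeasureTheory Filter Topology Pool.Agent.Lib.MP_41a456_al

section inv_all_aux

variable {ι : Type*} [Fintype ι] [DecidableEq ι]

theorem inv_all_w {i j : ι} (hij : i ≠ j) (a : ℝ) (ha : a ≠ 0) :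
    (transvection i j a) * (transvection j i (-a⁻¹)) * (transvection i j a) =
      (1 - single i i 1 - single j j 1 + single i j a - single j i a⁻¹ : Matrix ι ι ℝ) := by
  have e1 : ∀ x y : ℝ, single i j x * single i j y = (0 : Matrix ι ι ℝ) := fun x y =>
    single_mul_single_of_ne _ _ _ _ hij.symm _
  have e2 : ∀ x y : ℝ, single i j x * single j i y = (single i i (x * y) : Matrix ι ι ℝ) :=
    fun x y => single_mul_single_same _ _ _ _ _
  have e3 : ∀ x y : ℝ, single j i x * single i j y = (single j j (x * y) : Matrix ι ι ℝ) :=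
    fun x y => single_mul_single_same _ _ _ _ _
  have e4 : ∀ x y : ℝ, single i i x * single i j y = (single i j (x * y) : Matrix ι ι ℝ) :=
    fun x y => single_mul_single_same _ _ _ _ _
  have e5 : transvection j i (-a⁻¹) = (1 - single j i a⁻¹ : Matrix ι ι ℝ) := by
    rw [transvection, sub_eq_add_neg, single_neg]
  rw [e5]
  simp only [transvection, add_mul, mul_add, sub_mul, mul_sub, one_mul, mul_one, e1, e2, e3, e4,
    mul_inv_cancel₀ ha, inv_mul_cancel₀ ha]
  abel

theorem inv_all_diag {i j : ι} (hij : i ≠ j) (a : ℝ) (ha : a ≠ 0) :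
    (diagonal fun k ↦ if k = i then a else if k = j then a⁻¹ else 1) =
    (transvection i j a * transvection j i (-a⁻¹) * transvection i j a) *
      (transvection i j (-1) * transvection j i (-(-1)⁻¹) * transvection i j (-1) :
        Matrix ι ι ℝ) := by
  rw [inv_all_w hij a ha, inv_all_w hij (-1) (by norm_num)]
  have n1 : ∀ x y : ℝ, single i i x * single j j y = (0 : Matrix ι ι ℝ) := fun x y =>
    single_mul_single_of_ne _ _ _ _ hij _
  have n2 : ∀ x y : ℝ, single i i x * single j i y = (0 : Matrix ι ι ℝ) := fun x y =>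
    single_mul_single_of_ne _ _ _ _ hij _
  have n3 : ∀ x y : ℝ, single j j x * single i i y = (0 : Matrix ι ι ℝ) := fun x y =>
    single_mul_single_of_ne _ _ _ _ hij.symm _
  have n4 : ∀ x y : ℝ, single j j x * single i j y = (0 : Matrix ι ι ℝ) := fun x y =>
    single_mul_single_of_ne _ _ _ _ hij.symm _
  have n5 : ∀ x y : ℝ, single i j x * single i i y = (0 : Matrix ι ι ℝ) := fun x y =>
    single_mul_single_of_ne _ _ _ _ hij.symm _
  have n6 : ∀ x y : ℝ, single i j x * single i j y = (0 : Matrix ι ι ℝ) := fun x y =>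
    single_mul_single_of_ne _ _ _ _ hij.symm _
  have n7 : ∀ x y : ℝ, single j i x * single j j y = (0 : Matrix ι ι ℝ) := fun x y =>
    single_mul_single_of_ne _ _ _ _ hij _
  have n8 : ∀ x y : ℝ, single j i x * single j i y = (0 : Matrix ι ι ℝ) := fun x y =>
    single_mul_single_of_ne _ _ _ _ hij _
  simp only [add_mul, mul_add, sub_mul, mul_sub, one_mul, mul_one, n1, n2, n3, n4, n5, n6, n7, n8,
    single_mul_single_same]
  ext k l
  simp only [diagonal_apply, Matrix.add_apply, Matrix.sub_apply, Matrix.one_apply, single_apply,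
    Matrix.zero_apply]
  by_cases hki : k = i
  · subst hki
    by_cases hkl : k = l
    · subst hkl
      simp [hij.symm]
    · simp [hkl, hij.symm]
  · by_cases hkj : k = j
    · subst hkj
      by_cases hkl : k = l
      · subst hkl
        simp [hij, hki]
      · simp [hkl, hij, hki]
    · by_cases hkl : k = l
      · subst hkl
        simp [hki, hkj, Ne.symm hki, Ne.symm hkj]
      · simp [hkl, Ne.symm hki, Ne.symm hkj]

end inv_all_aux

theorem inv_all_mul {n : ℕ} (μ : Measure (X n)) {g h : SLr n} (hg : Inv μ g) (hh : Inv μ h) :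
    Inv μ (g * h) := by
  unfold Inv at *
  have e : (fun y : X n => (g * h) • y) = (fun y => g • y) ∘ fun y => h • y := by
    funext y
    exact mul_smul g h y
  rw [e, ← Measure.map_map (measurable_smul_X g) (measurable_smul_X h), hh, hg]

theorem inv_all {m : ℕ} (hm : 2 ≤ m) {Λ : ℕ} (hΛ : 2 ≤ Λ) (μ : Measure (X (m + 1)))
    [IsFiniteMeasure μ] (hW : ∀ l, Inv μ (W Λ l))
    (h1 : ∀ j : Fin m, Nij μ j.succ 0) (h2 : ∀ j : Fin m, Nij μ 0 j.succ) (g : SLr (m + 1)) :
    Inv μ g := by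
  have g1 : ∀ i : Fin (m + 1), i ≠ 0 → Nij μ i 0 := by
    intro i hi
    obtain ⟨k, rfl⟩ := Fin.exists_succ_eq.2 hi
    exact h1 k
  have g2 : ∀ i : Fin (m + 1), i ≠ 0 → Nij μ 0 i := by
    intro i hi
    obtain ⟨k, rfl⟩ := Fin.exists_succ_eq.2 hi
    exact h2 k
  have s1 : ∀ i j : Fin (m + 1), i ≠ 0 → j ≠ 0 → i ≠ j → ∀ r, Inv μ (uel i j r) :=
    fun i j hi hj hij r => lemmaH hΛ μ hi hj.symm hij hW (g1 i hi) (g2 j hj) r
  -- a third index
  have third : ∀ j : Fin (m + 1), j ≠ 0 → ∃ k : Fin (m + 1), k ≠ 0 ∧ k ≠ j := by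
    intro j hj
    by_cases h : j = ⟨1, by omega⟩
    · refine ⟨⟨2, by omega⟩, ?_, ?_⟩
      · intro h'
        have := congrArg Fin.val h'
        simp at this
      · rw [h]
        intro h'
        have := congrArg Fin.val h'
        simp at this
    · refine ⟨⟨1, by omega⟩, ?_, fun h' => h h'.symm⟩
      intro h'
      have := congrArg Fin.val h'
      simp at this
  have s2 : ∀ j : Fin (m + 1), j ≠ 0 → ∀ r, Inv μ (uel 0 j r) := by
    intro j hj r
    obtain ⟨k, hk0, hkj⟩ := third j hj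
    exact lemmaH hΛ μ hk0.symm hkj hj.symm hW (g2 k hk0)
      (Nij_of_inv μ k j (s1 k j hk0 hj hkj)) r
  have s3 : ∀ j : Fin (m + 1), j ≠ 0 → ∀ r, Inv μ (uel j 0 r) := by
    intro j hj r
    obtain ⟨k, hk0, hkj⟩ := third j hj
    exact lemmaH hΛ μ hkj.symm hk0 hj hW (Nij_of_inv μ j k (s1 j k hj hk0 hkj.symm)) (g1 k hk0) r
  have s4 : ∀ (i j : Fin (m + 1)) (hij : i ≠ j) (a : ℝ),
      Inv μ (SpecialLinearGroup.transvection hij a) := by
    intro i j hij a
    have e : uel i j a = SpecialLinearGroup.transvection hij a := by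
      rw [uel, dif_pos hij]
    rw [← e]
    by_cases hi : i = 0
    · subst hi
      exact s2 j hij.symm a
    · by_cases hj : j = 0
      · subst hj
        exact s3 i hi a
      · exact s1 i j hi hj hij a
  haveI : Nontrivial (Fin (m + 1)) := ⟨⟨⟨0, by omega⟩, ⟨1, by omega⟩, by simp⟩⟩
  refine SpecialLinearGroup.diagonal_transvection_induction' (fun g => Inv μ g) g ?_ s4
    (fun A B hA hB => inv_all_mul μ hA hB)
  intro i j hij c hc
  have e : SpecialLinearGroup.diag2n hij c hc =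
      SpecialLinearGroup.transvection hij c * SpecialLinearGroup.transvection hij.symm (-c⁻¹) *
        SpecialLinearGroup.transvection hij c *
        (SpecialLinearGroup.transvection hij (-1) *
          SpecialLinearGroup.transvection hij.symm (-(-1)⁻¹) *
          SpecialLinearGroup.transvection hij (-1)) := by
    apply Subtype.ext
    rw [SpecialLinearGroup.diag2n_coe, inv_all_diag hij c hc]
    rfl
  rw [e]
  exact inv_all_mul μ (inv_all_mul μ (inv_all_mul μ (s4 _ _ _ _) (s4 _ _ _ _)) (s4 _ _ _ _))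
    (inv_all_mul μ (inv_all_mul μ (s4 _ _ _ _) (s4 _ _ _ _)) (s4 _ _ _ _))

end Pool.Agent.Lib.MP_41a456_al.TC
end

section

/-!
# MP_41a456_al, Theorem TC, L3: the end (paper 521, section 12)

`O` open and not empty; the sets `g • O` cover `X n` (transitivity), countably many suffice (second
countable), each has measure `μ O = 0` (`inv_all`), so `μ = 0`.
-/

namespace Pool.Agent.Lib.MP_41a456_al.TC

open Matrix MeasureTheory Filter Topology Pool.Agent.Lib.MP_41a456_al

theorem final_contradiction {m : ℕ} (hm : 2 ≤ m) {Λ : ℕ} (hΛ : 2 ≤ Λ) (μ : Measure (X (m + 1)))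
    [IsFiniteMeasure μ] (hW : ∀ l, Inv μ (W Λ l))
    (h1 : ∀ j : Fin m, Nij μ j.succ 0) (h2 : ∀ j : Fin m, Nij μ 0 j.succ)
    {O : Set (X (m + 1))} (hO : IsOpen O) (hne : O.Nonempty) (h0 : μ O = 0) : μ = 0 := by
  set s : SLr (m + 1) → Set (X (m + 1)) := fun g => (fun y => g • y) ⁻¹' O with hs
  have hopen : ∀ g, IsOpen (s g) := fun g => hO.preimage (continuous_const_smul g)
  have hnull : ∀ g, μ (s g) = 0 := by
    intro g
    have h3 : μ.map (fun y => g • y) = μ := inv_all hm hΛ μ hW h1 h2 g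
    have h4 : (μ.map (fun y => g • y)) O = μ (s g) :=
      Measure.map_apply (measurable_smul_X g) hO.measurableSet
    rw [← h4, h3, h0]
  have hcov : ⋃ g, s g = Set.univ := by
    apply Set.eq_univ_of_forall
    intro y
    obtain ⟨a, rfl⟩ := pt_surjective y
    obtain ⟨z, hz⟩ := hne
    obtain ⟨b, rfl⟩ := pt_surjective z
    refine Set.mem_iUnion.2 ⟨b * a⁻¹, ?_⟩
    change (b * a⁻¹) • pt a ∈ O
    rw [smul_pt, inv_mul_cancel_right]
    exact hz
  obtain ⟨T, hT, hTu⟩ := TopologicalSpace.isOpen_iUnion_countable s hopen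
  have h5 : μ (⋃ g ∈ T, s g) = 0 := (measure_biUnion_null_iff hT).2 fun g _ => hnull g
  rw [hTu, hcov] at h5
  exact Measure.measure_univ_eq_zero.1 h5

end Pool.Agent.Lib.MP_41a456_al.TC
end
end
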