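import Pool.Agent.Lib.MP_41a456_al.TC.E0
import Pool.Agent.Lib.MP_41a456_al.Ideal
import Pool.Agent.Lib.MP_41a456_al.Few
import Pool.Agent.Lib.MP_41a456_al.TC.F6
import Pool.Agent.Lib.MP_41a456_al.TC.J2
import Pool.Agent.Lib.MP_41a456_al.TC.I3
import Pool.Agent.Lib.MP_41a456_al.TC.E6
import Pool.Agent.Lib.MP_41a456_al.TC.I10
import Pool.Agent.Lib.MP_41a456_al.TC.G6
import Pool.Agent.Lib.MP_41a456_al.TC.L3

section

/-!
# MP_41a456_al, Theorem TC, E2: production: the elements of D are independent modulo J (paper 521, (1.1))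

Suppose `∑ c_x Ph s x ∈ J`, `c ≠ 0`. `b = ∑ c_x Ph s x` is not 0: the `x ∈ D` are pairwise different up to sign
because `(x⁻¹) 0 0 > 0` (`Ph_apply`). Every `Y` with `b Y ≠ 0` is `± x`, and `Deg V0 V1 Y` with `V0 = ℚ e_0`,
`V1 = {w : w_last = 0}` (`Comp`: dimensions `1` and `n - 1`): `w = ± x⁻¹ e_0`. Then `row`, `unip`, `exists_JT`,
`fin_all` (library of helper50, as in the proof of its main theorem in
`Pool/Agent/Results/MP_41a456_al/ShortElement.lean` or its helper files) give a finite `T`: contradiction to `hinf`.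
-/

namespace Pool.Agent.Lib.MP_41a456_al.TC

open Matrix MeasureTheory Filter Topology Pool.Agent.Lib.MP_41a456_al

private theorem comp_e (k : ℕ) :
    Comp (Submodule.span ℚ {(Pi.single 0 1 : Fin (k + 3) → ℚ)})
      (LinearMap.ker (LinearMap.proj (R := ℚ) (φ := fun _ : Fin (k + 3) => ℚ) (Fin.last (k + 2)))) := by
  unfold Comp
  rw [finrank_span_singleton (by
    intro h
    have := congrFun h 0
    simp at this)]
  have h1 := LinearMap.finrank_range_add_finrank_ker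
    (LinearMap.proj (R := ℚ) (φ := fun _ : Fin (k + 3) => ℚ) (Fin.last (k + 2)))
  have h2 : LinearMap.range (LinearMap.proj (R := ℚ) (φ := fun _ : Fin (k + 3) => ℚ)
      (Fin.last (k + 2))) = ⊤ :=
    LinearMap.range_eq_top.2 (Function.surjective_eval _)
  rw [h2, finrank_top, Module.finrank_self, Module.finrank_fin_fun] at h1
  exact h1

private theorem deg_e {k : ℕ} (x : SLn (k + 3)) (Y : Mt (k + 3))
    (hx : ((x⁻¹ : SLn (k + 3)) : Mt (k + 3)) (Fin.last (k + 2)) 0 = 0)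
    (hY : Y = (x : Mt (k + 3)) ∨ Y = -(x : Mt (k + 3))) :
    Deg (Submodule.span ℚ {(Pi.single 0 1 : Fin (k + 3) → ℚ)})
      (LinearMap.ker (LinearMap.proj (R := ℚ) (φ := fun _ : Fin (k + 3) => ℚ) (Fin.last (k + 2)))) Y := by
  have hmul : (x : Mt (k + 3)) * ((x⁻¹ : SLn (k + 3)) : Mt (k + 3)) = 1 := by
    rw [← Matrix.SpecialLinearGroup.coe_mul, mul_inv_cancel, Matrix.SpecialLinearGroup.coe_one]
  have hq : qm (x : Mt (k + 3)) *ᵥ (qm ((x⁻¹ : SLn (k + 3)) : Mt (k + 3)) *ᵥ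
      (Pi.single 0 1 : Fin (k + 3) → ℚ)) = Pi.single 0 1 := by
    rw [mulVec_mulVec, ← qm_mul, hmul, qm_one, one_mulVec]
  refine ⟨qm ((x⁻¹ : SLn (k + 3)) : Mt (k + 3)) *ᵥ (Pi.single 0 1 : Fin (k + 3) → ℚ), ?_, ?_, ?_⟩
  · rw [LinearMap.mem_ker, LinearMap.proj_apply, mulVec_single_one]
    change ((((x⁻¹ : SLn (k + 3)) : Mt (k + 3)) (Fin.last (k + 2)) 0 : ℤ) : ℚ) = 0
    rw [hx, Int.cast_zero]
  · intro h
    rw [h, mulVec_zero] at hq
    have := congrFun hq 0
    simp at this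
  · rcases hY with rfl | rfl
    · rw [hq]
      exact Submodule.mem_span_singleton_self _
    · rw [qm_neg, neg_mulVec, hq]
      exact Submodule.neg_mem _ (Submodule.mem_span_singleton_self _)

theorem indep_D {K : Type*} [Field K] {s : K} {k : ℕ} {J : Submodule K (Mt (k + 3) →₀ K)}
    (hJ : Bi s J)
    (hinf : ¬ ∃ T : Finset (SLn (k + 3)), ∀ g : SLn (k + 3),
      Ph s g ∈ J ⊔ Submodule.span K (Ph s '' (T : Set (SLn (k + 3)))))
    (D : Finset (SLn (k + 3)))
    (hD : ∀ x ∈ D, ((x⁻¹ : SLn (k + 3)) : Mt (k + 3)) (Fin.last (k + 2)) 0 = 0 ∧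
      0 < ((x⁻¹ : SLn (k + 3)) : Mt (k + 3)) 0 0) :
    LinearIndependent K fun x : D => J.mkQ (Ph s (x : SLn (k + 3))) := by
  classical
  rw [Fintype.linearIndependent_iff]
  intro c hc x0
  by_contra hx0
  apply hinf
  set b : Mt (k + 3) →₀ K := ∑ x : D, c x • Ph s (x : SLn (k + 3)) with hb
  have hbJ : b ∈ J := by
    rw [← Submodule.Quotient.mk_eq_zero, ← Submodule.mkQ_apply, hb, map_sum, ← hc]
    exact Finset.sum_congr rfl fun x _ => map_smul _ _ _
  have hval : ∀ Y, b Y = ∑ x : D, c x * Ph s (x : SLn (k + 3)) Y := by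
    intro Y
    rw [hb, Finsupp.finsetSum_apply]
    rfl
  have hb0 : b ≠ 0 := by
    intro h
    apply hx0
    have h1 := hval ((x0 : SLn (k + 3)) : Mt (k + 3))
    rw [h, Finsupp.zero_apply, Finset.sum_eq_single x0] at h1
    · rw [Ph_apply, if_pos rfl, if_neg (fun h => ne_neg_self (by omega) _ h.symm), add_zero,
        mul_one] at h1
      exact h1.symm
    · intro x _ hx
      rw [Ph_apply, if_neg, if_neg, add_zero, mul_zero]
      · intro h2
        have h3 := (hD x x.2).2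
        have h4 := (hD x0 x0.2).2
        have h5 : (((x0 : SLn (k + 3))⁻¹ : SLn (k + 3)) : Mt (k + 3)) =
            -(((x : SLn (k + 3))⁻¹ : SLn (k + 3)) : Mt (k + 3)) := by
          have h6 : ((x : SLn (k + 3)) : Mt (k + 3)) *
              (((x : SLn (k + 3))⁻¹ : SLn (k + 3)) : Mt (k + 3)) = 1 := by
            rw [← Matrix.SpecialLinearGroup.coe_mul, mul_inv_cancel,
              Matrix.SpecialLinearGroup.coe_one]
          have h7 : (((x0 : SLn (k + 3))⁻¹ : SLn (k + 3)) : Mt (k + 3)) *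
              ((x0 : SLn (k + 3)) : Mt (k + 3)) = 1 := by
            rw [← Matrix.SpecialLinearGroup.coe_mul, inv_mul_cancel,
              Matrix.SpecialLinearGroup.coe_one]
          calc (((x0 : SLn (k + 3))⁻¹ : SLn (k + 3)) : Mt (k + 3))
              = (((x0 : SLn (k + 3))⁻¹ : SLn (k + 3)) : Mt (k + 3)) *
                (((x : SLn (k + 3)) : Mt (k + 3)) *
                (((x : SLn (k + 3))⁻¹ : SLn (k + 3)) : Mt (k + 3))) := by rw [h6, mul_one]
            _ = ((((x0 : SLn (k + 3))⁻¹ : SLn (k + 3)) : Mt (k + 3)) *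
                ((x : SLn (k + 3)) : Mt (k + 3))) *
                (((x : SLn (k + 3))⁻¹ : SLn (k + 3)) : Mt (k + 3)) := by rw [mul_assoc]
            _ = -(((x : SLn (k + 3))⁻¹ : SLn (k + 3)) : Mt (k + 3)) := by
                have h8 : ((x : SLn (k + 3)) : Mt (k + 3)) = -((x0 : SLn (k + 3)) : Mt (k + 3)) := by
                  rw [← h2, neg_neg]
                rw [h8, mul_neg, h7, neg_mul, one_mul]
        rw [h5, Matrix.neg_apply] at h4
        omega
      · intro h2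
        apply hx
        apply Subtype.ext
        exact Subtype.ext h2
    · intro h2
      exact absurd (Finset.mem_univ _) h2
  have hdeg : ∀ X, b X ≠ 0 → Deg (Submodule.span ℚ {(Pi.single 0 1 : Fin (k + 3) → ℚ)})
      (LinearMap.ker (LinearMap.proj (R := ℚ) (φ := fun _ : Fin (k + 3) => ℚ)
        (Fin.last (k + 2)))) X := by
    intro X hX
    rw [hval] at hX
    obtain ⟨x, _, hx⟩ := Finset.exists_ne_zero_of_sum_ne_zero hX
    have h1 : Ph s (x : SLn (k + 3)) X ≠ 0 := right_ne_zero_of_mul hx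
    refine deg_e (x : SLn (k + 3)) X (hD x x.2).1 ?_
    by_contra hcon
    push Not at hcon
    apply h1
    rw [Ph_apply, if_neg (fun h => hcon.1 h.symm), if_neg (fun h => hcon.2 h.symm), add_zero]
  obtain ⟨b2, hb2, hb20, ε, hε, hrow⟩ := row hJ (comp_e k) hbJ hb0 hdeg
  obtain ⟨b3, hb3, hb30, hu⟩ := unip hJ hb2 hb20 hε hrow
  exact fin_all hJ (exists_JT hJ hb3 hb30 hu)

end Pool.Agent.Lib.MP_41a456_al.TC
end

section

/-!
# MP_41a456_al, Theorem TC, E3: production: the relation (paper 521, (1.3))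

`b ∈ J`, `b ≠ 0`. Every `Y` in its support is `± g`; `S` = a set of representatives of the support modulo sign in
`SL_n(ℤ)` (choose one `g` for each pair `{Y, -Y}`), so that `b = ∑_{g ∈ S} b(g) Ph s g` (`sym`,
`ne_neg_self`; `Ph s g = [g] + s [-g]`). For `s0 ∈ S` apply `x ↦ h x h'` with `h = g`, `h' = s0⁻¹ g⁻¹ x`
(`Ph_left`, `Ph_right`): `∑ b(σ) Ph s (g σ s0⁻¹ g⁻¹ x) ∈ J`, and the term `σ = s0` is `b(s0) Ph s x`.
-/

namespace Pool.Agent.Lib.MP_41a456_al.TC

open Matrix MeasureTheory Filter Topology Pool.Agent.Lib.MP_41a456_al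

/-- representatives of the support modulo sign -/
private theorem e3_repr {K : Type*} [Field K] {s : K} (hs : s * s = 1) {n : ℕ} (hn : 0 < n) :
    ∀ (N : ℕ) (b : Mt n →₀ K), b.support.card ≤ N → (∀ X, b X ≠ 0 → U X) →
      (∀ X, b (-X) = s * b X) → ∃ S : Finset (SLn n), (∀ σ ∈ S, b (σ : Mt n) ≠ 0) ∧
        (∀ σ ∈ S, ∀ τ ∈ S, σ ≠ τ → (σ : Mt n) ≠ -(τ : Mt n)) ∧
        b = ∑ σ ∈ S, b (σ : Mt n) • Ph s σ := by
  classical
  intro N
  induction N with
  | zero =>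
    intro b hb _ _
    have h0 : b = 0 := Finsupp.support_eq_empty.1 (Finset.card_eq_zero.1 (by omega))
    exact ⟨∅, by simp, by simp, by simp [h0]⟩
  | succ N ih =>
    intro b hb hU hsym
    by_cases h0 : b = 0
    · exact ⟨∅, by simp, by simp, by simp [h0]⟩
    obtain ⟨X, hX⟩ : ∃ X, b X ≠ 0 := by
      by_contra hc
      push Not at hc
      exact h0 (Finsupp.ext hc)
    obtain ⟨g, hg⟩ : ∃ g : SLn n, b (g : Mt n) ≠ 0 := by
      obtain ⟨g, rfl | rfl⟩ := hU X hX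
      · exact ⟨g, hX⟩
      · refine ⟨g, fun h => hX ?_⟩
        rw [hsym, h, mul_zero]
    have hne := ne_neg_self hn g
    set f : SLn n →₀ K := Finsupp.single g (b (g : Mt n)) with hf
    set b' : Mt n →₀ K := b - PhS s f with hb'
    have hPf : PhS s f = b (g : Mt n) • Ph s g := PhS_single s g _
    have hPg : ∀ Y, (b (g : Mt n) • Ph s g) Y = b (g : Mt n) *
        ((if (g : Mt n) = Y then 1 else 0) + (if -(g : Mt n) = Y then s else 0)) := by
      intro Y
      rw [Finsupp.smul_apply, Ph_apply, smul_eq_mul]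
    have h1 : b' (g : Mt n) = 0 := by
      rw [hb', Finsupp.sub_apply, hPf, hPg, if_pos rfl, if_neg (Ne.symm hne)]
      ring
    have h2 : b' (-(g : Mt n)) = 0 := by
      rw [hb', Finsupp.sub_apply, hPf, hPg, if_neg hne, if_pos rfl, hsym]
      ring
    have h3 : ∀ Y, Y ≠ (g : Mt n) → Y ≠ -(g : Mt n) → b' Y = b Y := by
      intro Y h h'
      rw [hb', Finsupp.sub_apply, hPf, hPg, if_neg (Ne.symm h), if_neg (Ne.symm h')]
      ring
    have h4 : ∀ Y, b' Y ≠ 0 → Y ≠ (g : Mt n) ∧ Y ≠ -(g : Mt n) := by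
      intro Y hY
      refine ⟨?_, ?_⟩
      · rintro rfl
        exact hY h1
      · rintro rfl
        exact hY h2
    have h5 : b'.support ⊆ b.support.erase (g : Mt n) := by
      intro Y hY
      rw [Finsupp.mem_support_iff] at hY
      obtain ⟨h6, h7⟩ := h4 Y hY
      rw [Finset.mem_erase, Finsupp.mem_support_iff, ← h3 Y h6 h7]
      exact ⟨h6, hY⟩
    have h6 : b'.support.card ≤ N := by
      have h7 := Finset.card_le_card h5
      rw [Finset.card_erase_of_mem (Finsupp.mem_support_iff.2 hg)] at h7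
      omega
    obtain ⟨S, k1, k2, k3⟩ := ih b' h6 (fun Y hY => hU Y (by
        obtain ⟨h7, h8⟩ := h4 Y hY
        rw [← h3 Y h7 h8]
        exact hY)) (fun Y => by
        rw [hb', Finsupp.sub_apply, Finsupp.sub_apply, hsym, PhS_sym hs]
        ring)
    have h7 : ∀ σ ∈ S, (σ : Mt n) ≠ (g : Mt n) ∧ (σ : Mt n) ≠ -(g : Mt n) := fun σ hσ =>
      h4 _ (k1 σ hσ)
    have hgS : g ∉ S := fun h => (h7 g h).1 rfl
    refine ⟨insert g S, ?_, ?_, ?_⟩
    · intro σ hσ
      rcases Finset.mem_insert.1 hσ with rfl | h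
      · exact hg
      · rw [← h3 _ (h7 σ h).1 (h7 σ h).2]
        exact k1 σ h
    · intro σ hσ τ hτ hστ
      rcases Finset.mem_insert.1 hσ with rfl | h
      · rcases Finset.mem_insert.1 hτ with rfl | h'
        · exact absurd rfl hστ
        · intro h8
          apply (h7 τ h').2
          rw [h8, neg_neg]
      · rcases Finset.mem_insert.1 hτ with rfl | h'
        · exact (h7 σ h).2
        · exact k2 σ h τ h' hστ
    · rw [Finset.sum_insert hgS]
      have h8 : ∑ σ ∈ S, b (σ : Mt n) • Ph s σ = b' := by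
        conv_rhs => rw [k3]
        refine Finset.sum_congr rfl fun σ hσ => ?_
        rw [h3 _ (h7 σ hσ).1 (h7 σ hσ).2]
      rw [h8, hb', hPf]
      abel

theorem relation {K : Type*} [Field K] {s : K} {n : ℕ} (hn : 0 < n)
    {J : Submodule K (Mt n →₀ K)} (hJ : Bi s J) (h0 : J ≠ ⊥) :
    ∃ S : Finset (SLn n), S.Nonempty ∧
      (∀ σ ∈ S, ∀ τ ∈ S, σ ≠ τ → (σ : Mt n) ≠ -(τ : Mt n)) ∧
      ∀ σ0 ∈ S, ∀ g x : SLn n, J.mkQ (Ph s x) ∈ Submodule.span K
        ((fun σ : SLn n => J.mkQ (Ph s (g * σ * σ0⁻¹ * g⁻¹ * x))) '' {σ | σ ∈ S ∧ σ ≠ σ0}) := by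
  classical
  obtain ⟨b, hb, hb0⟩ := Submodule.exists_mem_ne_zero_of_ne_bot h0
  obtain ⟨X, hX⟩ : ∃ X, b X ≠ 0 := by
    by_contra hc
    push Not at hc
    exact hb0 (Finsupp.ext hc)
  have hs : s * s = 1 := by
    have h1 := hJ.sym b hb X
    have h2 := hJ.sym b hb (-X)
    rw [neg_neg, h1, ← mul_assoc] at h2
    have h3 : (s * s - 1) * b X = 0 := by
      rw [sub_mul, one_mul, ← h2, sub_self]
    rcases mul_eq_zero.1 h3 with h | h
    · exact sub_eq_zero.1 h
    · exact absurd h hX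
  obtain ⟨S, k1, k2, k3⟩ := e3_repr hs hn _ b le_rfl (hJ.unit b hb) (hJ.sym b hb)
  refine ⟨S, ?_, k2, ?_⟩
  · rw [Finset.nonempty_iff_ne_empty]
    rintro rfl
    rw [Finset.sum_empty] at k3
    exact hb0 k3
  · intro σ0 hσ0 g x
    set h' : SLn n := σ0⁻¹ * g⁻¹ * x with hh'
    have h1 : (b.mapDomain (lp g)).mapDomain (rp h') ∈ J := hJ.right _ _ (hJ.left g b hb)
    have h2 : (b.mapDomain (lp g)).mapDomain (rp h') =
        ∑ σ ∈ S, b (σ : Mt n) • Ph s (g * σ * h') := by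
      have e1 : (b.mapDomain (lp g)).mapDomain (rp h') =
          Finsupp.lmapDomain K K (rp h') (Finsupp.lmapDomain K K (lp g) b) := by
        rw [Finsupp.lmapDomain_apply, Finsupp.lmapDomain_apply]
      rw [e1]
      conv_lhs => rw [k3]
      rw [map_sum, map_sum]
      refine Finset.sum_congr rfl fun σ _ => ?_
      rw [map_smul, map_smul, Finsupp.lmapDomain_apply, Finsupp.lmapDomain_apply, Ph_left, Ph_right]
    rw [h2] at h1
    have h3 : J.mkQ (∑ σ ∈ S, b (σ : Mt n) • Ph s (g * σ * h')) = 0 :=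
      (Submodule.Quotient.mk_eq_zero _).2 h1
    rw [map_sum, ← Finset.add_sum_erase S _ hσ0] at h3
    have h4 : g * σ0 * h' = x := by
      rw [hh']
      group
    rw [map_smul, h4] at h3
    have h5 : J.mkQ (Ph s x) = -((b (σ0 : Mt n))⁻¹ •
        ∑ σ ∈ S.erase σ0, J.mkQ (b (σ : Mt n) • Ph s (g * σ * h'))) := by
      have h6 := eq_neg_of_add_eq_zero_left h3
      rw [← smul_neg, ← h6, smul_smul, inv_mul_cancel₀ (k1 σ0 hσ0), one_smul]
    rw [h5]
    refine Submodule.neg_mem _ (Submodule.smul_mem _ _ (Submodule.sum_mem _ fun σ hσ => ?_))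
    rw [map_smul]
    refine Submodule.smul_mem _ _ (Submodule.subset_span ⟨σ, ⟨Finset.mem_of_mem_erase hσ,
      Finset.ne_of_mem_erase hσ⟩, ?_⟩)
    have h7 : g * σ * σ0⁻¹ * g⁻¹ * x = g * σ * h' := by
      rw [hh']
      group
    simp only [h7]

end Pool.Agent.Lib.MP_41a456_al.TC
end

section

/-!
# MP_41a456_al, Theorem TC, M3: from the symmetrized ideals to ideals: chains (paper 521, section 0)

`J_s(I) = (IC I).map (PhS s)`. Suppose `hfin`: every nonzero `Bi` subspace has finite codimension. An ascending chain of `Bi`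
subspaces `J_j` is 0 for all `j` or stops: above a `J` of finite codimension the chain of the images in the finite dimensional
quotient of `range (PhS s)` modulo `J` stops (all the `J_j` are contained in the range of `PhS s`; compare `chain_stops`).
(a) `-1 ∉ SL_n(ℤ)`: `PhS 1` is injective (`PhS_coe'`), so `I_j` is determined by `J_1(I_j)`.
(b) `z = -1 ∈ SL_n(ℤ)`, `2 ≠ 0` in `K`: `2 x = (x + z x) + (x - z x)`, `x ± z x ∈ I`; if `J_1(I) = J_1(I')` and
`J_{-1}(I) = J_{-1}(I')` for `I ≤ I'` then `I = I'`: for `x ∈ I'` choose `y ∈ I` with `PhS 1 x = PhS 1 y`; `x - y` is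
antisymmetric (`z (x - y) = -(x - y)`, from `PhS 1 (x-y) = 0`) and in `I'`; `PhS (-1) (x - y) = PhS (-1) y'`, `y' ∈ I`; `x - y - y'` is
symmetric; so `2 (x - y) = (1 - z)(x - y) = (1 - z) y' ∈ I`.
(c) `z = -1 ∈ SL_n(ℤ)`, `2 = 0` in `K` (then `1 = -1`, one sign `s = 1`): use the chains `J_1(I_j)` and `J_1(I_j^)`,
`I^ = {x : (1 + z) x ∈ I}` (a two sided ideal, `z` is central). If both agree for `I ≤ I'` then `I = I'`: `x ∈ I'`, `y ∈ I` with
`PhS 1 x = PhS 1 y`; by `ker_one` `x - y = w - z w = (1 + z) w` for some `w`, `w ∈ I'^`; `w' ∈ I^` with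
`PhS 1 w = PhS 1 w'`, so `w = w' + (1 + z) w''`, `(1 + z)² = 2 (1 + z) = 0`, so `x - y = (1 + z) w = (1 + z) w' ∈ I`.
-/

namespace Pool.Agent.Lib.MP_41a456_al.TC

open Matrix MeasureTheory Filter Topology Pool.Agent.Lib.MP_41a456_al

private theorem chain_sub {K : Type*} [Field K] {n : ℕ} (s : K)
    (J : ℕ → Submodule K (Mt n →₀ K)) (hJ : Monotone J)
    (hR : ∀ k, ∀ b ∈ J k, ∃ f : SLn n →₀ K, PhS s f = b)
    (hfin : ∀ k, J k ≠ ⊥ → ∃ T : Finset (SLn n), ∀ g : SLn n,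
        Ph s g ∈ J k ⊔ Submodule.span K (Ph s '' (T : Set (SLn n)))) :
    ∃ m, ∀ k, m ≤ k → J k = J m := by
  by_cases hall : ∀ k, J k = ⊥
  · exact ⟨0, fun k _ => by rw [hall k, hall 0]⟩
  push Not at hall
  obtain ⟨j, hj⟩ := hall
  obtain ⟨T, hT⟩ := hfin j hj
  set S := Submodule.span K (Ph s '' (T : Set (SLn n))) with hS
  set W := Submodule.map (J j).mkQ S with hW
  have hWfg : W.FG := (Submodule.fg_span ((T.finite_toSet).image _)).map _
  have hWfin : Module.Finite K W := Module.Finite.iff_fg.2 hWfg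
  have hnoeth : IsNoetherian K W := inferInstance
  have hle : ∀ k, Submodule.map (J j).mkQ (J k) ≤ W := by
    rintro k _ ⟨b, hb, rfl⟩
    obtain ⟨f, rfl⟩ := hR k b hb
    have h1 : PhS s f ∈ J j ⊔ S := by
      unfold PhS
      rw [Finsupp.linearCombination_apply]
      exact Submodule.sum_mem _ fun g _ => Submodule.smul_mem _ _ (hT g)
    obtain ⟨u, hu, v, hv, huv⟩ := Submodule.mem_sup.1 h1
    refine ⟨v, hv, ?_⟩
    rw [← huv, map_add]
    have h2 : (J j).mkQ u = 0 := (Submodule.Quotient.mk_eq_zero _).2 hu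
    rw [h2, zero_add]
  have hmono : Monotone fun k => Submodule.comap W.subtype
      (Submodule.map (J j).mkQ (J (j + k))) := by
    intro k k' hk
    exact Submodule.comap_mono (Submodule.map_mono (hJ (by omega)))
  obtain ⟨m, hm⟩ := monotone_stabilizes_iff_noetherian.2 hnoeth
    ⟨fun k => Submodule.comap W.subtype (Submodule.map (J j).mkQ (J (j + k))), hmono⟩
  have hback : ∀ k, Submodule.comap (J j).mkQ (Submodule.map W.subtype
      (Submodule.comap W.subtype (Submodule.map (J j).mkQ (J (j + k))))) = J (j + k) := by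
    intro k
    rw [Submodule.map_comap_subtype, inf_eq_right.2 (hle (j + k)), Submodule.comap_map_eq,
      Submodule.ker_mkQ]
    exact sup_eq_left.2 (hJ (by omega))
  refine ⟨j + m, fun k hk => ?_⟩
  obtain ⟨k', rfl⟩ : ∃ k', k = j + k' := ⟨k - j, by omega⟩
  have h1 := hm k' (by omega)
  rw [← hback k', ← hback m]
  exact congrArg (fun P => Submodule.comap (J j).mkQ (Submodule.map W.subtype P)) h1.symm

private theorem chain_I {K : Type*} [Field K] {n : ℕ} {s : K} (hs : s * s = 1)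
    (hfin : ∀ J : Submodule K (Mt n →₀ K), Bi s J → J ≠ ⊥ →
      ∃ T : Finset (SLn n), ∀ g : SLn n,
        Ph s g ∈ J ⊔ Submodule.span K (Ph s '' (T : Set (SLn n))))
    (I : ℕ → TwoSidedIdeal (MonoidAlgebra K (SLn n))) (hI : Monotone I) :
    ∃ m, ∀ k, m ≤ k → (IC (I k)).map (PhS s) = (IC (I m)).map (PhS s) := by
  refine chain_sub s (fun k => (IC (I k)).map (PhS s)) ?_ ?_ ?_
  · intro k k' hk
    exact Submodule.map_mono fun f hf => hI hk hf
  · rintro k _ ⟨f, _, rfl⟩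
    exact ⟨f, rfl⟩
  · intro k hk
    exact hfin _ (bi_ideal (I k) hs) hk

/-- the ideal of the `x` with `(1 + z) x ∈ I` -/
private noncomputable def hat {K : Type*} [Field K] {n : ℕ} (z : SLn n)
    (hz : ∀ g : SLn n, Commute z g) (I : TwoSidedIdeal (MonoidAlgebra K (SLn n))) :
    TwoSidedIdeal (MonoidAlgebra K (SLn n)) :=
  TwoSidedIdeal.mk' {x | x + MonoidAlgebra.single z (1 : K) * x ∈ I}
    (by
      change (0 : MonoidAlgebra K (SLn n)) + MonoidAlgebra.single z (1 : K) * 0 ∈ I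
      rw [mul_zero, add_zero]
      exact I.zero_mem)
    (by
      intro x y hx hy
      change x + y + MonoidAlgebra.single z (1 : K) * (x + y) ∈ I
      have h : x + y + MonoidAlgebra.single z (1 : K) * (x + y) =
          (x + MonoidAlgebra.single z (1 : K) * x) + (y + MonoidAlgebra.single z (1 : K) * y) := by
        rw [mul_add]
        abel
      rw [h]
      exact I.add_mem hx hy)
    (by
      intro x hx
      change -x + MonoidAlgebra.single z (1 : K) * (-x) ∈ I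
      have h : -x + MonoidAlgebra.single z (1 : K) * (-x) =
          -(x + MonoidAlgebra.single z (1 : K) * x) := by
        rw [mul_neg]
        abel
      rw [h]
      exact I.neg_mem hx)
    (by
      intro x y hy
      change x * y + MonoidAlgebra.single z (1 : K) * (x * y) ∈ I
      have hc : MonoidAlgebra.single z (1 : K) * x = x * MonoidAlgebra.single z (1 : K) :=
        (MonoidAlgebra.single_commute hz (fun r => Commute.one_left r) x).eq
      have h : x * y + MonoidAlgebra.single z (1 : K) * (x * y) =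
          x * (y + MonoidAlgebra.single z (1 : K) * y) := by
        rw [mul_add, ← mul_assoc, hc, mul_assoc]
      rw [h]
      exact I.mul_mem_left _ _ hy)
    (by
      intro x y hx
      change x * y + MonoidAlgebra.single z (1 : K) * (x * y) ∈ I
      have h : x * y + MonoidAlgebra.single z (1 : K) * (x * y) =
          (x + MonoidAlgebra.single z (1 : K) * x) * y := by
        rw [add_mul, mul_assoc]
      rw [h]
      exact I.mul_mem_right _ _ hx)

private theorem mem_hat {K : Type*} [Field K] {n : ℕ} {z : SLn n}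
    {hz : ∀ g : SLn n, Commute z g} {I : TwoSidedIdeal (MonoidAlgebra K (SLn n))}
    {f : SLn n →₀ K} :
    f ∈ IC (hat z hz I) ↔ f + (f.mapDomain fun h => z * h) ∈ IC I := by
  rw [mem_IC, mem_IC]
  have h1 : MonoidAlgebra.ofCoeff (f.mapDomain (fun h => z * h)) = MonoidAlgebra.single z 1 *
      MonoidAlgebra.ofCoeff f := by
    ext m
    obtain ⟨m', rfl⟩ : ∃ m', m = z * m' := ⟨z⁻¹ * m, by rw [mul_inv_cancel_left]⟩
    rw [MonoidAlgebra.coeff_single_mul_mul, one_mul]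
    exact Finsupp.mapDomain_apply (mul_right_injective z) f m'
  rw [MonoidAlgebra.ofCoeff_add, h1]
  exact TwoSidedIdeal.mem_mk' _ _ _ _ _ _ _

private theorem eq_of_IC {K : Type*} [Field K] {n : ℕ}
    {I I' : TwoSidedIdeal (MonoidAlgebra K (SLn n))} (h : IC I' ≤ IC I) : I' ≤ I := by
  intro x hx
  exact h (show x.coeff ∈ IC I' from hx)

theorem chain_of_fin {n : ℕ} (hn : 0 < n) {K : Type} [Field K]
    (hfin : ∀ (s : K), (s = 1 ∨ s = -1) → ∀ J : Submodule K (Mt n →₀ K), Bi s J → J ≠ ⊥ →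
      ∃ T : Finset (SLn n), ∀ g : SLn n,
        Ph s g ∈ J ⊔ Submodule.span K (Ph s '' (T : Set (SLn n))))
    (I : ℕ → TwoSidedIdeal (MonoidAlgebra K (SLn n))) (hI : Monotone I) :
    ∃ m : ℕ, ∀ k : ℕ, m ≤ k → I k = I m := by
  have hICm : ∀ {k k' : ℕ}, k ≤ k' → IC (I k) ≤ IC (I k') := fun hk f hf => hI hk hf
  obtain ⟨m1, hm1⟩ := chain_I (s := (1 : K)) (by ring) (hfin 1 (Or.inl rfl)) I hI
  by_cases hz : ∃ z : SLn n, (z : Mt n) = -1
  · obtain ⟨z, hz⟩ := hz
    have hzz : z * z = 1 := by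
      apply Subtype.ext
      change (z : Mt n) * (z : Mt n) = 1
      rw [hz]
      simp
    have hzc : ∀ g : SLn n, Commute z g := by
      intro g
      apply Subtype.ext
      change (z : Mt n) * (g : Mt n) = (g : Mt n) * (z : Mt n)
      rw [hz]
      simp
    set L := Finsupp.lmapDomain K K (fun h : SLn n => z * h) with hL
    have hLeq : ∀ f : SLn n →₀ K, (f.mapDomain fun h => z * h) = L f := fun f => rfl
    have hLL : ∀ f : SLn n →₀ K, L (L f) = f := by
      intro f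
      rw [← hLeq, ← hLeq, ← Finsupp.mapDomain_comp]
      have : ((fun h : SLn n => z * h) ∘ fun h => z * h) = id := by
        funext h
        change z * (z * h) = h
        rw [← mul_assoc, hzz, one_mul]
      rw [this, Finsupp.mapDomain_id]
    have hICL : ∀ (k : ℕ) (f : SLn n →₀ K), f ∈ IC (I k) → L f ∈ IC (I k) :=
      fun k f hf => IC_left z hf
    by_cases h2 : (2 : K) = 0
    · have hneg : ∀ f : SLn n →₀ K, -f = f := by
        intro f
        have h3 : (2 : K) • f = 0 := by rw [h2, zero_smul]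
        rw [two_smul] at h3
        exact neg_eq_of_add_eq_zero_left h3
      have hmonoH : Monotone fun k => hat z hzc (I k) := by
        intro k k' hk
        refine eq_of_IC fun f hf => ?_
        rw [mem_hat] at hf ⊢
        exact hICm hk hf
      obtain ⟨m2, hm2⟩ := chain_I (s := (1 : K)) (by ring) (hfin 1 (Or.inl rfl))
        (fun k => hat z hzc (I k)) hmonoH
      refine ⟨max m1 m2, fun k hk => ?_⟩
      have hk1 : m1 ≤ k := le_trans (le_max_left _ _) hk
      have hk2 : m2 ≤ k := le_trans (le_max_right _ _) hk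
      have e1 : (IC (I k)).map (PhS (1 : K)) = (IC (I (max m1 m2))).map (PhS 1) :=
        (hm1 k hk1).trans (hm1 _ (le_max_left _ _)).symm
      have e2 : (IC (hat z hzc (I k))).map (PhS (1 : K)) =
          (IC (hat z hzc (I (max m1 m2)))).map (PhS 1) :=
        (hm2 k hk2).trans (hm2 _ (le_max_right _ _)).symm
      refine le_antisymm (eq_of_IC ?_) (hI hk)
      intro x hx
      obtain ⟨y, hy, hxy⟩ : PhS (1 : K) x ∈ (IC (I (max m1 m2))).map (PhS 1) := by
        rw [← e1]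
        exact ⟨x, hx, rfl⟩
      obtain ⟨w, hw⟩ := ker_one hn hz (x - y) (by rw [map_sub, hxy, sub_self])
      rw [hLeq] at hw
      have hw2 : x - y = w + L w := by
        rw [hw, sub_eq_add_neg, hneg]
      have hwH : w ∈ IC (hat z hzc (I k)) := by
        rw [mem_hat, hLeq, ← hw2]
        exact Submodule.sub_mem _ hx (hICm hk hy)
      obtain ⟨w', hw', hww⟩ : PhS (1 : K) w ∈ (IC (hat z hzc (I (max m1 m2)))).map (PhS 1) := by
        rw [← e2]
        exact ⟨w, hwH, rfl⟩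
      obtain ⟨v, hv⟩ := ker_one hn hz (w - w') (by rw [map_sub, hww, sub_self])
      rw [hLeq] at hv
      rw [SetLike.mem_coe, mem_hat, hLeq] at hw'
      have h3 : L (w - w') = -(w - w') := by
        rw [hv, map_sub, hLL]
        abel
      have h4 : w + L w = w' + L w' := by
        rw [map_sub] at h3
        have h5 : L w = L w' - (w - w') := by
          rw [sub_eq_iff_eq_add] at h3
          rw [h3]
          abel
        have h6 : w - w' = -(w - w') := (hneg _).symm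
        rw [h5]
        have h7 : w + (L w' - (w - w')) = w' + L w' := by abel
        exact h7
      have h8 : x = y + (w' + L w') := by
        rw [← h4, ← hw2]
        abel
      rw [h8]
      exact Submodule.add_mem _ hy hw'
    · obtain ⟨m2, hm2⟩ := chain_I (s := (-1 : K)) (by ring) (hfin (-1) (Or.inr rfl)) I hI
      refine ⟨max m1 m2, fun k hk => ?_⟩
      have hk1 : m1 ≤ k := le_trans (le_max_left _ _) hk
      have hk2 : m2 ≤ k := le_trans (le_max_right _ _) hk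
      have e1 : (IC (I k)).map (PhS (1 : K)) = (IC (I (max m1 m2))).map (PhS 1) :=
        (hm1 k hk1).trans (hm1 _ (le_max_left _ _)).symm
      have e2 : (IC (I k)).map (PhS (-1 : K)) = (IC (I (max m1 m2))).map (PhS (-1)) :=
        (hm2 k hk2).trans (hm2 _ (le_max_right _ _)).symm
      refine le_antisymm (eq_of_IC ?_) (hI hk)
      intro x hx
      obtain ⟨y, hy, hxy⟩ : PhS (1 : K) x ∈ (IC (I (max m1 m2))).map (PhS 1) := by
        rw [← e1]
        exact ⟨x, hx, rfl⟩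
      have hwk : x - y ∈ IC (I k) := Submodule.sub_mem _ hx (hICm hk hy)
      obtain ⟨v, hv⟩ := ker_one hn hz (x - y) (by rw [map_sub, hxy, sub_self])
      rw [hLeq] at hv
      have h3 : L (x - y) = -(x - y) := by
        rw [hv, map_sub, hLL]
        abel
      obtain ⟨y', hy', hxy'⟩ : PhS (-1 : K) (x - y) ∈
          (IC (I (max m1 m2))).map (PhS (-1)) := by
        rw [← e2]
        exact ⟨x - y, hwk, rfl⟩
      have h4 := ker_neg_one hn hz (x - y - y') (by
        rw [map_sub (PhS (-1 : K)) (x - y) y', hxy', sub_self])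
      rw [hLeq, map_sub L (x - y) y', h3] at h4
      have h5 : (2 : K) • (x - y) = y' - L y' := by
        rw [two_smul]
        have h6 : x - y = -(x - y) - L y' + y' := by
          rw [h4]
          abel
        calc (x - y) + (x - y) = (-(x - y) - L y' + y') + (x - y) := by rw [← h6]
          _ = y' - L y' := by abel
      have h7 : (2 : K) • (x - y) ∈ IC (I (max m1 m2)) := by
        rw [h5]
        exact Submodule.sub_mem _ hy' (hICL _ _ hy')
      have h8 : x - y ∈ IC (I (max m1 m2)) := by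
        have := Submodule.smul_mem _ (2 : K)⁻¹ h7
        rwa [smul_smul, inv_mul_cancel₀ h2, one_smul] at this
      have h9 : x = y + (x - y) := by abel
      rw [h9]
      exact Submodule.add_mem _ hy h8
  · refine ⟨m1, fun k hk => le_antisymm (eq_of_IC ?_) (hI hk)⟩
    intro x hx
    obtain ⟨y, hy, hxy⟩ : PhS (1 : K) x ∈ (IC (I m1)).map (PhS 1) := by
      rw [← hm1 k hk]
      exact ⟨x, hx, rfl⟩
    have h1 : x - y = 0 := by
      ext g
      rw [← PhS_coe' (1 : K) (x - y) (g := g), map_sub, hxy, sub_self]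
      · rfl
      · intro g' hg'
        apply hz
        refine ⟨g' * g⁻¹, ?_⟩
        rw [Matrix.SpecialLinearGroup.coe_mul, hg', Matrix.neg_mul,
          ← Matrix.SpecialLinearGroup.coe_mul, mul_inv_cancel, Matrix.SpecialLinearGroup.coe_one]
    rw [sub_eq_zero] at h1
    rw [h1]
    exact hy

end Pool.Agent.Lib.MP_41a456_al.TC
end

section

/-!
# MP_41a456_al, Theorem TC, E9: production: trapping (paper 521, (5.3))

Paper 521, section 5, `n = m + 1`. `omv x` = vector of the `om (i+1) x`, `sg` = first coordinate divided by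
`om*_1`, `QB η M` the bilinear form of
`QQ(o) = sg(o)² + M² ∑_{i ≥ 1} (o_i - sg(o) om*_{i+1})²`.
`S` from `relation`, `c_i = 2 QB u e_i ≠ 0` (`QQ_pos` for `u`), `s0, h` from `good_frame`. By continuity there are an open
neighbourhood `Oh` of `h`, `δ > 0`, `B` such that for `h' ∈ Oh`, `σ ∈ S`, `σ ≠ s0`, `T = h' σ s0⁻¹ h'⁻¹`: `|mk (i+1) T| ≥ δ`,
`N_{i+1}(T) ≤ B`, `∑ c_i log |mk (i+1) T| ≤ -2 δ`. `O = pt '' Oh` (open, `isOpenMap_pt`). If
`((ex b)⁻¹ * k⁻¹) • pt 1 ∈ O` then there is `g ∈ SL_n(ℤ)` with `(ex b)⁻¹ k⁻¹ g = h' ∈ Oh`, `g = k e^b h'`, and for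
`x_σ = g σ s0⁻¹ g⁻¹ x = k e^b (h' σ s0⁻¹ h'⁻¹) e^{a - b} k'`: `omv x_σ - omv x = δ_σ` with
`|δ_σ i - log |mk (i+1) T|| ≤ ε` (`om_diff`, orthogonal invariance `Nk_orth_left/right`), so `‖δ_σ‖ ≤ B'`,
`2 QB u δ_σ = ∑ c_i δ_σ i ≤ -δ` for small `ε`. `QQ_decrease`: `QQ (omv x_σ) < QQ (omv x)` for all `σ ∈ S`, `σ ≠ s0`,
and `relation` gives `v x ∈ span`.
-/

namespace Pool.Agent.Lib.MP_41a456_al.TC

open Matrix MeasureTheory Filter Topology Pool.Agent.Lib.MP_41a456_al

/-- the form is linear in the second argument -/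
private theorem e9_QB_sum {m : ℕ} (η M : ℝ) (u δ : Fin m → ℝ) :
    QB η M u δ = ∑ i, QB η M u (Pi.single i 1) * δ i := by
  have key : ∀ s : Finset (Fin m), QB η M u (∑ i ∈ s, δ i • (Pi.single i 1 : Fin m → ℝ)) =
      ∑ i ∈ s, QB η M u (Pi.single i 1) * δ i := by
    intro s
    classical
    induction s using Finset.induction_on with
    | empty =>
      rw [Finset.sum_empty, Finset.sum_empty]
      have h := QB_smul_left (m := m) η M 0 (0 : Fin m → ℝ) u
      rw [zero_smul, zero_mul] at h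
      rw [QB_comm]
      exact h
    | insert a s ha ih =>
      rw [Finset.sum_insert ha, Finset.sum_insert ha, QB_comm, QB_add_left, QB_comm η M _ u,
        QB_comm η M _ u, ih, QB_comm, QB_smul_left, QB_comm η M _ u, mul_comm]
  have h := key Finset.univ
  have h2 : ∑ i, δ i • (Pi.single i 1 : Fin m → ℝ) = δ := by
    funext j
    rw [Finset.sum_apply]
    simp [Pi.single_apply]
  rw [h2] at h
  exact h

private theorem e9_om_orth {m : ℕ} (k : ℕ) {o o' : SLr (m + 1)} (ho : Orth o) (ho' : Orth o')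
    (y : SLr (m + 1)) :
    om k ((o * y * o' : SLr (m + 1)) : Mr (m + 1)) = om k (y : Mr (m + 1)) := by
  have h0 : ((o * y * o' : SLr (m + 1)) : Mr (m + 1)) =
      (o : Mr (m + 1)) * (y : Mr (m + 1)) * (o' : Mr (m + 1)) := rfl
  unfold om
  rw [h0, Nk_orth_right k ho', Nk_orth_left k ho]

/-- the uniform good frame -/
private theorem e9_open {m : ℕ} (S : Finset (SLn (m + 1))) (s0 : SLn (m + 1)) (h : SLr (m + 1))
    (c : Fin m → ℝ)
    (h1 : ∀ s ∈ S, ∀ i : Fin m,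
        mk ((i : ℕ) + 1) ((h * iz (m + 1) s * (iz (m + 1) s0)⁻¹ * h⁻¹ : SLr (m + 1)) : Mr (m + 1)) ≠ 0)
    (h2 : ∀ s ∈ S, s ≠ s0 → ∑ i : Fin m, c i * Real.log |mk ((i : ℕ) + 1)
        ((h * iz (m + 1) s * (iz (m + 1) s0)⁻¹ * h⁻¹ : SLr (m + 1)) : Mr (m + 1))| < 0) :
    ∃ (δ B : ℝ) (Oh : Set (SLr (m + 1))), 0 < δ ∧ IsOpen Oh ∧ h ∈ Oh ∧
      ∀ h' ∈ Oh, ∀ s ∈ S, s ≠ s0 →
        (∀ i : Fin m, δ < |mk ((i : ℕ) + 1)
          ((h' * iz (m + 1) s * (iz (m + 1) s0)⁻¹ * h'⁻¹ : SLr (m + 1)) : Mr (m + 1))|) ∧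
        (∀ i : Fin m, Nk ((i : ℕ) + 1)
          ((h' * iz (m + 1) s * (iz (m + 1) s0)⁻¹ * h'⁻¹ : SLr (m + 1)) : Mr (m + 1)) < B) ∧
        ∑ i : Fin m, c i * Real.log |mk ((i : ℕ) + 1)
          ((h' * iz (m + 1) s * (iz (m + 1) s0)⁻¹ * h'⁻¹ : SLr (m + 1)) : Mr (m + 1))| < -(2 * δ) := by
  obtain ⟨T, hT⟩ : ∃ T : SLn (m + 1) → SLr (m + 1) → Mr (m + 1), T = fun s h' =>
    ((h' * iz (m + 1) s * (iz (m + 1) s0)⁻¹ * h'⁻¹ : SLr (m + 1)) : Mr (m + 1)) := ⟨_, rfl⟩
  have hTc : ∀ s, Continuous (T s) := by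
    intro s
    rw [hT]
    exact continuous_subtype_val.comp
      (((continuous_id.mul continuous_const).mul continuous_const).mul continuous_inv)
  have hTe : ∀ s h', ((h' * iz (m + 1) s * (iz (m + 1) s0)⁻¹ * h'⁻¹ : SLr (m + 1)) : Mr (m + 1)) =
      T s h' := by
    intro s h'
    rw [hT]
  simp only [hTe] at h1 h2 ⊢
  have htend : Tendsto (fun n : ℕ => (1 : ℝ) / ((n : ℝ) + 1)) atTop (𝓝 0) :=
    tendsto_one_div_add_atTop_nhds_zero_nat
  have e1 : ∀ᶠ n : ℕ in atTop, ∀ s ∈ S, s ≠ s0 →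
      (∀ i : Fin m, (1 : ℝ) / ((n : ℝ) + 1) < |mk ((i : ℕ) + 1) (T s h)|) ∧
      (∀ i : Fin m, Nk ((i : ℕ) + 1) (T s h) < (n : ℝ)) ∧
      ∑ i : Fin m, c i * Real.log |mk ((i : ℕ) + 1) (T s h)| < -(2 * ((1 : ℝ) / ((n : ℝ) + 1))) := by
    rw [Filter.eventually_all_finset]
    intro s hs
    by_cases hss : s = s0
    · exact Eventually.of_forall fun n hn => absurd hss hn
    · have a1 : ∀ᶠ n : ℕ in atTop, ∀ i : Fin m,
          (1 : ℝ) / ((n : ℝ) + 1) < |mk ((i : ℕ) + 1) (T s h)| := by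
        rw [Filter.eventually_all]
        intro i
        exact htend.eventually_lt_const (abs_pos.2 (h1 s hs i))
      have a2 : ∀ᶠ n : ℕ in atTop, ∀ i : Fin m, Nk ((i : ℕ) + 1) (T s h) < (n : ℝ) := by
        rw [Filter.eventually_all]
        intro i
        exact tendsto_natCast_atTop_atTop.eventually_gt_atTop _
      have a3 : ∀ᶠ n : ℕ in atTop,
          ∑ i : Fin m, c i * Real.log |mk ((i : ℕ) + 1) (T s h)| <
            -(2 * ((1 : ℝ) / ((n : ℝ) + 1))) := by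
        have b1 : Tendsto (fun n : ℕ => -(2 * ((1 : ℝ) / ((n : ℝ) + 1)))) atTop (𝓝 (-(2 * 0))) :=
          (htend.const_mul 2).neg
        rw [mul_zero, neg_zero] at b1
        exact b1.eventually_const_lt (h2 s hs hss)
      filter_upwards [a1, a2, a3] with n b1 b2 b3 _
      exact ⟨b1, b2, b3⟩
  obtain ⟨n, hn⟩ := e1.exists
  obtain ⟨δ, hδ⟩ : ∃ δ : ℝ, δ = (1 : ℝ) / ((n : ℝ) + 1) := ⟨_, rfl⟩
  have hδ0 : 0 < δ := by
    rw [hδ]
    positivity
  rw [← hδ] at hn
  have e2 : ∀ᶠ h' in 𝓝 h, ∀ s ∈ S, s ≠ s0 →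
      (∀ i : Fin m, δ < |mk ((i : ℕ) + 1) (T s h')|) ∧
      (∀ i : Fin m, Nk ((i : ℕ) + 1) (T s h') < (n : ℝ)) ∧
      ∑ i : Fin m, c i * Real.log |mk ((i : ℕ) + 1) (T s h')| < -(2 * δ) := by
    rw [Filter.eventually_all_finset]
    intro s hs
    by_cases hss : s = s0
    · exact Eventually.of_forall fun n hn => absurd hss hn
    · obtain ⟨b1, b2, b3⟩ := hn s hs hss
      have cm : ∀ i : Fin m, Continuous fun h' => |mk ((i : ℕ) + 1) (T s h')| := fun i =>
        continuous_abs.comp ((continuous_mk _).comp (hTc s))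
      have a1 : ∀ᶠ h' in 𝓝 h, ∀ i : Fin m, δ < |mk ((i : ℕ) + 1) (T s h')| := by
        rw [Filter.eventually_all]
        intro i
        exact ((cm i).tendsto h).eventually_const_lt (b1 i)
      have a2 : ∀ᶠ h' in 𝓝 h, ∀ i : Fin m, Nk ((i : ℕ) + 1) (T s h') < (n : ℝ) := by
        rw [Filter.eventually_all]
        intro i
        exact (((continuous_Nk _).comp (hTc s)).tendsto h).eventually_lt_const (b2 i)
      have a3 : ∀ᶠ h' in 𝓝 h,
          ∑ i : Fin m, c i * Real.log |mk ((i : ℕ) + 1) (T s h')| < -(2 * δ) := by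
        have b4 : Tendsto (fun h' => ∑ i : Fin m, c i * Real.log |mk ((i : ℕ) + 1) (T s h')|) (𝓝 h)
            (𝓝 (∑ i : Fin m, c i * Real.log |mk ((i : ℕ) + 1) (T s h)|)) := by
          refine tendsto_finsetSum _ fun i _ => Tendsto.const_mul _ ?_
          exact ((cm i).tendsto h).log (abs_pos.2 (h1 s hs i)).ne'
        exact b4.eventually_lt_const b3
      filter_upwards [a1, a2, a3] with n b1 b2 b3 _
      exact ⟨b1, b2, b3⟩
  obtain ⟨Oh, hOh, hOo, hOm⟩ := eventually_nhds_iff.1 e2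
  exact ⟨δ, n, Oh, hδ0, hOo, hOm, hOh⟩

theorem trapping {m : ℕ} (hm : 2 ≤ m) {K : Type} [Field K] {s : K}
    {J : Submodule K (Mt (m + 1) →₀ K)} (hJ : Bi s J) (h0 : J ≠ ⊥) {η M : ℝ} (hη : 0 < η)
    (hM : 0 < M) (u : Fin m → ℝ) (hu : u ≠ 0) :
    ∃ (O : Set (X (m + 1))) (ε R R0 : ℝ), IsOpen O ∧ O.Nonempty ∧ 0 < ε ∧
      ∀ (x : SLn (m + 1)) (k k' : SLr (m + 1)) (a b : Fin (m + 1) → ℝ),
      Orth k → Orth k' → Antitone a → ∑ i, a i = 0 → iz (m + 1) x = k * ex a * k' →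
      R ≤ ‖omv x‖ → ‖‖omv x‖⁻¹ • omv x - u‖ ≤ ε → ∑ i, b i = 0 → (∀ i, R0 ≤ gap b i) →
      (∀ i, R0 ≤ gap (a - b) i) → ((ex b)⁻¹ * k⁻¹) • (pt 1 : X (m + 1)) ∈ O →
      J.mkQ (Ph s x) ∈ Submodule.span K
        ((fun y : SLn (m + 1) => J.mkQ (Ph s y)) '' {y | QQ η M (omv y) < QQ η M (omv x)}) := by
  obtain ⟨S, hne, hSd, hrel⟩ := relation (Nat.succ_pos m) hJ h0
  obtain ⟨c, hc⟩ : ∃ c : Fin m → ℝ, c = fun i => QB η M u (Pi.single i 1) := ⟨_, rfl⟩
  have hQs : ∀ δ : Fin m → ℝ, QB η M u δ = ∑ i, c i * δ i := by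
    intro δ
    rw [hc]
    exact e9_QB_sum η M u δ
  have hc0 : c ≠ 0 := by
    intro h
    have h1 := QQ_pos (η := η) (M := M) hη.le hM hu
    have h2 : QQ η M u = 0 := by
      unfold QQ
      rw [hQs, h]
      simp
    rw [h2] at h1
    exact lt_irrefl _ h1
  obtain ⟨s0, hs0, h, hmk, hlt⟩ := good_frame S hne hSd c hc0
  obtain ⟨δ, B, Oh, hδ, hOo, hOm, hOh⟩ := e9_open S s0 h c hmk hlt
  obtain ⟨Cc, hCc⟩ : ∃ Cc : ℝ, Cc = ∑ i, |c i| := ⟨_, rfl⟩
  have hCc0 : 0 ≤ Cc := by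
    rw [hCc]
    exact Finset.sum_nonneg fun i _ => abs_nonneg _
  obtain ⟨ε1, hε1⟩ : ∃ ε1 : ℝ, ε1 = min 1 (δ / (Cc + 1)) := ⟨_, rfl⟩
  have hε10 : 0 < ε1 := by
    rw [hε1]
    exact lt_min one_pos (by positivity)
  have hε11 : ε1 ≤ 1 := by
    rw [hε1]
    exact min_le_left _ _
  have hε12 : Cc * ε1 ≤ δ := by
    have h1 : ε1 ≤ δ / (Cc + 1) := by
      rw [hε1]
      exact min_le_right _ _
    rw [le_div_iff₀ (by positivity)] at h1
    nlinarith
  obtain ⟨L, hL⟩ : ∃ L : ℝ, L = max |Real.log δ| |Real.log B| := ⟨_, rfl⟩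
  obtain ⟨ε, R, hε, hdec⟩ := QQ_decrease η M u (d0 := δ) (B := L + 1) hδ
  obtain ⟨R0, hR0, hom⟩ := om_diff (m := m) (δ := δ) (B := B) (ε := ε1) hδ hε10
  refine ⟨pt '' Oh, ε, R, R0, isOpenMap_pt _ _ hOo, ⟨_, h, hOm, rfl⟩, hε, ?_⟩
  intro x k k' a b hk hk' ha hsa hx hRx hux hsb hgb hgab hO
  obtain ⟨h', hh', hpt⟩ := hO
  rw [smul_pt, _root_.mul_one] at hpt
  have hmem : h'⁻¹ * ((ex b)⁻¹ * k⁻¹) ∈ Gam (m + 1) := QuotientGroup.eq.1 hpt
  obtain ⟨γ, hγ⟩ := hmem
  obtain ⟨g, hgd⟩ : ∃ g : SLn (m + 1), g = γ⁻¹ := ⟨_, rfl⟩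
  have hg : iz (m + 1) g = k * ex b * h' := by
    rw [hgd, map_inv, hγ]
    group
  refine Submodule.span_mono ?_ (hrel s0 hs0 g x)
  rintro _ ⟨σ, ⟨hσS, hσ0⟩, rfl⟩
  refine ⟨g * σ * s0⁻¹ * g⁻¹ * x, ?_, rfl⟩
  obtain ⟨hm1, hm2, hm3⟩ := hOh h' hh' σ hσS hσ0
  obtain ⟨T, hT⟩ : ∃ T : SLr (m + 1), T = h' * iz (m + 1) σ * (iz (m + 1) s0)⁻¹ * h'⁻¹ := ⟨_, rfl⟩
  rw [← hT] at hm1 hm2 hm3
  have hxσ : iz (m + 1) (g * σ * s0⁻¹ * g⁻¹ * x) = k * (ex b * T * ex (a - b)) * k' := by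
    have e1 : ex (a - b) = (ex b)⁻¹ * ex a := by
      rw [sub_eq_add_neg, ex_add, ex_neg, ← ex_neg, ex_comm]
    rw [map_mul, map_mul, map_mul, map_mul, map_inv, map_inv, hg, hx, e1, hT]
    group
  obtain ⟨d, hd⟩ : ∃ d : Fin m → ℝ, d = omv (g * σ * s0⁻¹ * g⁻¹ * x) - omv x := ⟨_, rfl⟩
  have hdi : ∀ i : Fin m, |d i - Real.log (|mk ((i : ℕ) + 1) (T : Mr (m + 1))|)| ≤ ε1 := by
    intro i
    have e1 : omv (g * σ * s0⁻¹ * g⁻¹ * x) i =
        om ((i : ℕ) + 1) ((ex b * T * ex (a - b) : SLr (m + 1)) : Mr (m + 1)) := by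
      unfold omv
      rw [hxσ, e9_om_orth _ hk hk']
    have e2 : omv x i = om ((i : ℕ) + 1) (ex a : Mr (m + 1)) := by
      unfold omv
      rw [hx, e9_om_orth _ hk hk']
    rw [hd, Pi.sub_apply, e1, e2]
    exact hom T a b hsa hsb hgb hgab i (hm1 i).le (hm2 i).le
  have hlog : ∀ i : Fin m, |Real.log (|mk ((i : ℕ) + 1) (T : Mr (m + 1))|)| ≤ L := by
    intro i
    have hp : 0 < |mk ((i : ℕ) + 1) (T : Mr (m + 1))| := hδ.trans (hm1 i)
    have h1 : Real.log δ ≤ Real.log |mk ((i : ℕ) + 1) (T : Mr (m + 1))| :=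
      Real.log_le_log hδ (hm1 i).le
    have h2 : Real.log |mk ((i : ℕ) + 1) (T : Mr (m + 1))| ≤ Real.log B :=
      Real.log_le_log hp ((abs_mk_le (by omega) _).trans (hm2 i).le)
    rw [abs_le, hL]
    constructor
    · have h3 := neg_abs_le (Real.log δ)
      have h4 := le_max_left |Real.log δ| |Real.log B|
      linarith
    · have h3 := le_abs_self (Real.log B)
      have h4 := le_max_right |Real.log δ| |Real.log B|
      linarith
  have hdn : ‖d‖ ≤ L + 1 := by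
    rw [pi_norm_le_iff_of_nonneg (by rw [hL]; positivity)]
    intro i
    rw [Real.norm_eq_abs]
    have h1 : d i = (d i - Real.log |mk ((i : ℕ) + 1) (T : Mr (m + 1))|) +
        Real.log |mk ((i : ℕ) + 1) (T : Mr (m + 1))| := by ring
    rw [h1]
    have h2 := abs_add_le (d i - Real.log |mk ((i : ℕ) + 1) (T : Mr (m + 1))|)
      (Real.log |mk ((i : ℕ) + 1) (T : Mr (m + 1))|)
    have h3 := hdi i
    have h4 := hlog i
    linarith
  have hQ : 2 * QB η M u d ≤ -δ := by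
    rw [hQs]
    have h1 : ∑ i, c i * d i = ∑ i, c i * Real.log |mk ((i : ℕ) + 1) (T : Mr (m + 1))| +
        ∑ i, c i * (d i - Real.log |mk ((i : ℕ) + 1) (T : Mr (m + 1))|) := by
      rw [← Finset.sum_add_distrib]
      refine Finset.sum_congr rfl fun i _ => ?_
      ring
    have h2 : ∑ i, c i * (d i - Real.log |mk ((i : ℕ) + 1) (T : Mr (m + 1))|) ≤ Cc * ε1 := by
      rw [hCc, Finset.sum_mul]
      refine Finset.sum_le_sum fun i _ => ?_
      refine (le_abs_self _).trans ?_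
      rw [abs_mul]
      exact mul_le_mul_of_nonneg_left (hdi i) (abs_nonneg _)
    rw [h1]
    linarith
  have hfin := hdec (omv x) d hRx hux hdn hQ
  have hadd : omv x + d = omv (g * σ * s0⁻¹ * g⁻¹ * x) := by
    rw [hd]
    abel
  rw [hadd] at hfin
  exact hfin

end Pool.Agent.Lib.MP_41a456_al.TC
end

section

/-!
# MP_41a456_al, Theorem TC, E10: production of a trap (paper 521, section 5)

Paper 521, section 5, `n = m + 1`. `omv x` = vector of the `om (i+1) x`, `sg` = first coordinate divided by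
`om*_1`, `QB η M` the bilinear form of
`QQ(o) = sg(o)² + M² ∑_{i ≥ 1} (o_i - sg(o) om*_{i+1})²`.
`m = k + 2` as in `indep_D`. Fix `svd` decompositions `k, av, k'` (choice). For every large `r ∈ ℕ` take `t_r, a_r, E_r` of
`many_irr` for `v x = J.mkQ (Ph s x)` (`indep_D`), `M = C'/η`. `E_r` is not empty (`card`); `x_r ∈ E_r`. The unit vectors
`omv x_r / ‖omv x_r‖` have a convergent subsequence, limit `u`, `‖u‖ = 1`. `‖omv x_r‖ → ∞` (`om_svd`: `om_1 ≥ a_0 ≥ t`),
and for `x ∈ E_r` `‖omv x - omv x_r‖ ≤ C` (`om_svd`, `|av x - av x_r| ≤ 2`), so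
`omv x / ‖omv x‖` is close to `u` for all `x ∈ E_r`, `r` large in the subsequence: `trapping` for this `u` shows that the
points are not in `O` (otherwise `v x` would be in the span of the `v y` with smaller `QQ`). Reindex the subsequence.
-/

namespace Pool.Agent.Lib.MP_41a456_al.TC

open Matrix MeasureTheory Filter Topology Pool.Agent.Lib.MP_41a456_al

private theorem e10_omv {m : ℕ} {x : SLn (m + 1)} {k k' : SLr (m + 1)} {a : Fin (m + 1) → ℝ}
    (hk : Orth k) (hk' : Orth k') (ha : Antitone a) (hs : ∑ i, a i = 0)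
    (hx : iz (m + 1) x = k * ex a * k') (i : Fin m) :
    sk ((i : ℕ) + 1) a ≤ omv x i ∧ omv x i ≤ sk ((i : ℕ) + 1) a + (m + 1) * Real.log 2 := by
  have h := om_svd (k := (i : ℕ) + 1) (by omega) ha hs hk hk'
  unfold omv
  rw [hx]
  exact h

private theorem e10_sk {n : ℕ} (k : ℕ) {a b : Fin n → ℝ} {c : ℝ} (h : ∀ i, |a i - b i| ≤ c)
    (hc : 0 ≤ c) : |sk k a - sk k b| ≤ n * c := by
  unfold sk
  rw [← Finset.sum_sub_distrib]
  refine (Finset.abs_sum_le_sum_abs _ _).trans ?_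
  refine (Finset.sum_le_sum fun i _ => h i).trans ?_
  rw [Finset.sum_const, nsmul_eq_mul]
  refine mul_le_mul_of_nonneg_right ?_ hc
  have h1 := Finset.card_filter_le (Finset.univ : Finset (Fin n)) (fun i : Fin n => (i : ℕ) < k)
  rw [Finset.card_univ, Fintype.card_fin] at h1
  exact_mod_cast h1

private theorem e10_sk1 {m : ℕ} (a : Fin (m + 1) → ℝ) : sk 1 a = a 0 := by
  unfold sk
  have h : Finset.univ.filter (fun i : Fin (m + 1) => (i : ℕ) < 1) = {0} := by
    ext i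
    simp only [Finset.mem_filter, Finset.mem_univ, true_and, Finset.mem_singleton, Fin.ext_iff,
      Fin.val_zero]
    omega
  rw [h, Finset.sum_singleton]

private theorem e10_unit {V : Type*} [NormedAddCommGroup V] [NormedSpace ℝ V] {o o' : V} {c : ℝ}
    (h : ‖o - o'‖ ≤ c) (ho : 0 < ‖o‖) (ho' : 0 < ‖o'‖) :
    ‖‖o‖⁻¹ • o - ‖o'‖⁻¹ • o'‖ ≤ 2 * c / ‖o'‖ := by
  have h1 : ‖o‖⁻¹ • o - ‖o'‖⁻¹ • o' = ‖o'‖⁻¹ • (o - o') + (‖o‖⁻¹ - ‖o'‖⁻¹) • o := by
    rw [smul_sub, sub_smul]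
    abel
  rw [h1]
  refine (norm_add_le _ _).trans ?_
  rw [norm_smul, norm_smul, norm_inv, norm_norm, Real.norm_eq_abs]
  have h2 : |‖o‖⁻¹ - ‖o'‖⁻¹| * ‖o‖ ≤ ‖o'‖⁻¹ * c := by
    have h4 : ‖o‖⁻¹ - ‖o'‖⁻¹ = (‖o'‖ - ‖o‖) * (‖o‖⁻¹ * ‖o'‖⁻¹) := by
      field_simp
    rw [h4, abs_mul, abs_of_pos (mul_pos (inv_pos.2 ho) (inv_pos.2 ho'))]
    have h3 : |‖o'‖ - ‖o‖| ≤ c := by
      rw [abs_sub_comm]
      exact (abs_norm_sub_norm_le o o').trans h
    calc |‖o'‖ - ‖o‖| * (‖o‖⁻¹ * ‖o'‖⁻¹) * ‖o‖ = |‖o'‖ - ‖o‖| * ‖o'‖⁻¹ := by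
          field_simp
      _ ≤ c * ‖o'‖⁻¹ := mul_le_mul_of_nonneg_right h3 (inv_pos.2 ho').le
      _ = _ := mul_comm _ _
  have h3 : ‖o'‖⁻¹ * ‖o - o'‖ ≤ ‖o'‖⁻¹ * c := mul_le_mul_of_nonneg_left h (inv_pos.2 ho').le
  calc _ ≤ ‖o'‖⁻¹ * c + ‖o'‖⁻¹ * c := add_le_add h3 h2
    _ = _ := by ring

theorem exists_trap {q : ℕ} : ∃ C η1 : ℝ, 1 ≤ C ∧ 0 < η1 ∧ ∀ η : ℝ, 0 < η → η ≤ η1 →
    ∀ {K : Type} [Field K] {s : K} {J : Submodule K (Mt (q + 3) →₀ K)}, Bi s J → J ≠ ⊥ →
    (¬ ∃ T : Finset (SLn (q + 3)), ∀ g : SLn (q + 3),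
      Ph s g ∈ J ⊔ Submodule.span K (Ph s '' (T : Set (SLn (q + 3))))) →
    ∃ (R0 : ℝ) (t : ℕ → ℝ) (a : ℕ → Fin (q + 3) → ℝ) (E : ℕ → Finset (SLn (q + 3)))
      (k k' : SLn (q + 3) → SLr (q + 3)) (av : SLn (q + 3) → Fin (q + 3) → ℝ)
      (O : Set (X (q + 3))), Trap (q + 2) η C R0 t a E k k' av O := by
  obtain ⟨C, C', η0, hC, hC', hη0, hmany⟩ := many_irr (m := q + 2) (by omega)
  refine ⟨C, min η0 (1 / C), hC, lt_min hη0 (by positivity), ?_⟩
  intro η hη hη1 K _ s J hJ h0 hinf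
  have hCη : C * η ≤ 1 := by
    have h1 : η ≤ 1 / C := hη1.trans (min_le_right _ _)
    rw [le_div_iff₀ (by linarith)] at h1
    linarith [mul_comm C η]
  obtain ⟨r0, hr0⟩ := hmany η hη (hη1.trans (min_le_left _ _))
  choose k av k' hk hk' hav hsum hfac using fun x : SLn (q + 3) => svd (q + 2) (iz (q + 3) x)
  set M : ℝ := C' / η with hM
  have hMpos : 0 < M := div_pos (by linarith) hη
  have hex : ∀ n : ℕ, ∃ (t : ℝ) (a : Fin (q + 3) → ℝ) (E : Finset (SLn (q + 3))),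
      (max r0 0 + n) / 2 ≤ t ∧ ∑ i, a i = 0 ∧ |a 0 - ((q + 2 : ℕ) : ℝ) * t| ≤ C * η * t ∧
      (∀ i : Fin (q + 2), |a i.succ + t| ≤ C * η * t) ∧
      (∀ i : Fin (q + 2), η / 2 * t ≤ gap a i) ∧
      Real.exp ((((q + 2 : ℕ) : ℝ) * (((q + 2 : ℕ) : ℝ) + 1) - 1 - η) * t) ≤ E.card ∧
      (∀ x ∈ E, ∀ i, |av x i - a i| ≤ 1) ∧
      ∀ x ∈ E, J.mkQ (Ph s x) ∉ Submodule.span K
        ((fun y : SLn (q + 3) => J.mkQ (Ph s y)) '' {y | QQ η M (omv y) < QQ η M (omv x)}) := by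
    intro n
    have hr : r0 ≤ max r0 0 + n := by
      have h1 := le_max_left r0 0
      have h2 : (0 : ℝ) ≤ n := Nat.cast_nonneg n
      linarith
    obtain ⟨t, a, E, h1, h2, h3, h4, h5, h6, h7, h8⟩ :=
      hr0 (max r0 0 + n) hr (K := K) (V := (Mt (q + 3) →₀ K) ⧸ J)
        (fun x => J.mkQ (Ph s x)) (fun D hD => indep_D hJ hinf D hD) k k' av hk hk' hav hsum hfac
    exact ⟨t, a, E, h1, h2, h3, h4, h5, h6, h7, fun x hx => (h8 x hx).2⟩
  choose t a E ht ha ha0 hai hgap hcard hnear hirr using hex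
  have hne : ∀ n, (E n).Nonempty := by
    intro n
    have h1 : (0 : ℝ) < (E n).card := (Real.exp_pos _).trans_le (hcard n)
    exact Finset.card_pos.1 (by exact_mod_cast h1)
  choose x hx using hne
  have ht2 : Tendsto t atTop atTop := by
    refine tendsto_atTop_mono (f := fun n : ℕ => (n : ℝ) / 2) (fun n => ?_)
      (tendsto_natCast_atTop_atTop.atTop_div_const (by norm_num))
    have h1 := le_max_right r0 0
    linarith [ht n]
  have htn : ∀ n, 0 ≤ t n := by
    intro n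
    have h1 := le_max_right r0 0
    have h2 : (0 : ℝ) ≤ n := Nat.cast_nonneg n
    linarith [ht n]
  -- the first compound norm
  have hbig : ∀ n, t n - 1 ≤ ‖omv (x n)‖ := by
    intro n
    have h1 := (e10_omv (hk (x n)) (hk' (x n)) (hav (x n)) (hsum (x n)) (hfac (x n))
      (⟨0, by omega⟩ : Fin (q + 2))).1
    have h2 : sk 1 (av (x n)) ≤ omv (x n) (⟨0, by omega⟩ : Fin (q + 2)) := h1
    rw [e10_sk1] at h2
    have h3 := hnear n (x n) (hx n) 0
    have h4 := ha0 n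
    rw [abs_le] at h3 h4
    have h5 : C * η * t n ≤ t n := by
      have := mul_le_mul_of_nonneg_right hCη (htn n)
      linarith
    have h6 : (2 : ℝ) * t n ≤ ((q + 2 : ℕ) : ℝ) * t n := by
      refine mul_le_mul_of_nonneg_right ?_ (htn n)
      push_cast
      linarith [(Nat.cast_nonneg q : (0 : ℝ) ≤ q)]
    have h7 : omv (x n) (⟨0, by omega⟩ : Fin (q + 2)) ≤ ‖omv (x n)‖ :=
      (le_abs_self _).trans ((Real.norm_eq_abs _).symm.le.trans (norm_le_pi_norm (omv (x n)) _))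
    linarith
  have hbig2 : Tendsto (fun n => ‖omv (x n)‖) atTop atTop :=
    tendsto_atTop_mono hbig (tendsto_atTop_add_const_right _ _ ht2)
  -- the elements of `E n` are close to `x n`
  set C2 : ℝ := ((q + 2 : ℕ) + 1 : ℝ) * 2 + ((q + 2 : ℕ) + 1 : ℝ) * Real.log 2 with hC2
  have hlog : 0 < Real.log 2 := Real.log_pos (by norm_num)
  have hC2pos : 0 < C2 := by positivity
  have hclose : ∀ n, ∀ y ∈ E n, ‖omv y - omv (x n)‖ ≤ C2 := by
    intro n y hy
    rw [pi_norm_le_iff_of_nonneg hC2pos.le]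
    intro i
    have h1 := e10_omv (hk (x n)) (hk' (x n)) (hav (x n)) (hsum (x n)) (hfac (x n)) i
    have h2 := e10_omv (hk y) (hk' y) (hav y) (hsum y) (hfac y) i
    have h3 : |sk ((i : ℕ) + 1) (av y) - sk ((i : ℕ) + 1) (av (x n))| ≤
        ((q + 2 + 1 : ℕ) : ℝ) * 2 := by
      refine e10_sk _ (fun j => ?_) (by norm_num)
      have h4 := hnear n y hy j
      have h5 := hnear n (x n) (hx n) j
      rw [abs_le] at h4 h5 ⊢
      constructor <;> linarith [h4.1, h4.2, h5.1, h5.2]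
    rw [Pi.sub_apply, Real.norm_eq_abs]
    rw [abs_le] at h3 ⊢
    have h6 : ((q + 2 + 1 : ℕ) : ℝ) = ((q + 2 : ℕ) : ℝ) + 1 := by push_cast; ring
    rw [h6] at h3
    constructor <;> linarith [h1.1, h1.2, h2.1, h2.2, h3.1, h3.2]
  -- the subsequence
  obtain ⟨u, -, φ, hφ, hu⟩ := (isCompact_closedBall (0 : Fin (q + 2) → ℝ) 1).tendsto_subseq
    (x := fun n => ‖omv (x n)‖⁻¹ • omv (x n)) (by
      intro n
      rw [mem_closedBall_zero_iff, norm_smul, norm_inv, norm_norm]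
      exact inv_mul_le_one)
  have hbig3 : Tendsto (fun n => ‖omv (x (φ n))‖) atTop atTop := hbig2.comp hφ.tendsto_atTop
  have hu1 : ‖u‖ = 1 := by
    have h1 : Tendsto (fun n => ‖‖omv (x (φ n))‖⁻¹ • omv (x (φ n))‖) atTop (𝓝 ‖u‖) := hu.norm
    refine tendsto_nhds_unique h1 ?_
    refine tendsto_const_nhds.congr' ?_
    filter_upwards [hbig3.eventually_gt_atTop 0] with n hn
    rw [norm_smul, norm_inv, norm_norm, inv_mul_cancel₀ hn.ne']
  have hu0 : u ≠ 0 := by
    rintro rfl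
    rw [norm_zero] at hu1
    exact zero_ne_one hu1
  obtain ⟨O, ε, R, R0, hO, hOn, hε, htrap⟩ := trapping (m := q + 2) (by omega) hJ h0 hη hMpos u hu0
  have hev : ∀ᶠ n in atTop, ∀ y ∈ E (φ n), R ≤ ‖omv y‖ ∧ ‖‖omv y‖⁻¹ • omv y - u‖ ≤ ε := by
    have h1 : ∀ᶠ n in atTop, ‖‖omv (x (φ n))‖⁻¹ • omv (x (φ n)) - u‖ < ε / 2 := by
      have h2 := (tendsto_iff_norm_sub_tendsto_zero.1 hu).eventually_lt_const (half_pos hε)
      exact h2
    filter_upwards [h1, hbig3.eventually_ge_atTop (R + C2), hbig3.eventually_gt_atTop C2,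
      hbig3.eventually_ge_atTop (4 * C2 / ε)] with n h2 h3 h4 h5 y hy
    have h6 := hclose (φ n) y hy
    have h7 : ‖omv (x (φ n))‖ - C2 ≤ ‖omv y‖ := by
      have h8 : ‖omv (x (φ n))‖ - ‖omv y‖ ≤ ‖omv (x (φ n)) - omv y‖ := norm_sub_norm_le _ _
      rw [norm_sub_rev] at h8
      linarith
    have h8 : 0 < ‖omv (x (φ n))‖ := hC2pos.trans h4
    have h9 : 0 < ‖omv y‖ := by linarith
    refine ⟨by linarith, ?_⟩
    have h10 := e10_unit h6 h9 h8
    have h11 : 2 * C2 / ‖omv (x (φ n))‖ ≤ ε / 2 := by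
      rw [div_le_iff₀ hε] at h5
      rw [div_le_iff₀ h8]
      linarith
    have h12 : ‖omv y‖⁻¹ • omv y - u = (‖omv y‖⁻¹ • omv y -
        ‖omv (x (φ n))‖⁻¹ • omv (x (φ n))) + (‖omv (x (φ n))‖⁻¹ • omv (x (φ n)) - u) := by
      abel
    rw [h12]
    refine (norm_add_le _ _).trans ?_
    linarith
  obtain ⟨N, hN⟩ := eventually_atTop.1 hev
  refine ⟨R0, fun r => t (φ (r + N)), fun r => a (φ (r + N)), fun r => E (φ (r + N)), k, k', av, O,
    ?_⟩
  refine
    { ht := ?_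
      asum := fun r => ha _
      a0 := fun r => ha0 _
      ai := fun r => hai _
      agap := fun r => hgap _
      hk := hk
      hk' := hk'
      avsum := hsum
      avanti := hav
      fac := hfac
      near := fun r => hnear _
      card := fun r => hcard _
      Oopen := hO
      Onon := hOn
      trap := ?_ }
  · exact ht2.comp (hφ.tendsto_atTop.comp (tendsto_add_atTop_nat N))
  · intro r y hy b hb hb1 hb2 hmem
    have h1 := hN (r + N) (Nat.le_add_left N r) y hy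
    exact hirr _ y hy (htrap y (k y) (k' y) (av y) b (hk y) (hk' y) (hav y) (hsum y) (hfac y)
      h1.1 h1.2 hb hb1 hb2 hmem)

end Pool.Agent.Lib.MP_41a456_al.TC
end

section

/-!
# MP_41a456_al, Theorem TC, I11: the forward inequality for the limit measure (paper 521, (9.1))

Paper 521, section 9, `n = m + 1`.
Let `e' > 0`. `K j ⊆ Z j` from `exists_compact_disc_large` (`R = Λ`), `eps, M1, S` from `exists_star`, `L` from `forward_frq`,
`L ≥ 1`. `O_j = {z : Ty Λ L (tol m) (S j) z}` is open, pairwise disjoint (`tol m < 1/2`), `{TE} = ⋃ O_j`, so by `frq_open`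
`frq {TE} ≥ ∑ μ(O_j) - ε` for `U`-many `r`, `μ(O_j) ≥ μ(Z_j) - e' / tol m` (`not_Ty_le`); `{alf < M2}` is contained in
the compact set `{alf ≤ M2}` (`isCompact_alf_le`), so `frq {M2 ≤ alf} ≥ 1 - frq {alf ≤ M2} ≥ 1 - μ(univ) - ε`
(the family is not empty: `E r` by `card`, `BB` by `side`, `hp`). Let `ε, e' → 0`.
-/

namespace Pool.Agent.Lib.MP_41a456_al.TC

open Matrix MeasureTheory Filter Topology Pool.Agent.Lib.MP_41a456_al

private theorem frq_add_ge {ι Z : Type*} {F : Finset ι} (hF : F.Nonempty) (z : ι → Z)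
    {A B : Set Z} (h : ∀ x, x ∈ A ∨ x ∈ B) : 1 ≤ frq F z A + frq F z B := by
  classical
  have hc : (0 : ℝ) < F.card := by exact_mod_cast hF.card_pos
  unfold frq
  rw [← add_div, le_div_iff₀ hc, one_mul]
  have h1 : F ⊆ (F.filter fun i => z i ∈ A) ∪ (F.filter fun i => z i ∈ B) := by
    intro i hi
    rw [Finset.mem_union, Finset.mem_filter, Finset.mem_filter]
    rcases h (z i) with h | h
    · exact Or.inl ⟨hi, h⟩
    · exact Or.inr ⟨hi, h⟩
  have h2 := (Finset.card_le_card h1).trans (Finset.card_union_le _ _)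
  have h3 : (F.card : ℝ) ≤ (F.filter fun i => z i ∈ A).card + (F.filter fun i => z i ∈ B).card := by
    exact_mod_cast h2
  convert h3

private theorem fam_nonempty {m Λ : ℕ} {η C : ℝ} {t : ℕ → ℝ} {sh : ℕ → Fin m → ℤ} {p : ℕ → ℤ}
    {E : ℕ → Finset (SLn (m + 1))} {v : ℕ → SLn (m + 1) → Fin m → ℝ} {y0 : ℕ → X (m + 1)}
    (hF : FSys m Λ η C t sh p E v y0) : ∀ᶠ r in atTop, (fam sh p E r).Nonempty := by
  have h1 : ∀ᶠ r in atTop, (0 : ℤ) ≤ p r := hF.hp.eventually_ge_atTop 0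
  filter_upwards [h1] with r hr
  unfold fam
  rw [Finset.nonempty_product]
  constructor
  · rw [← Finset.card_pos]
    have h2 : (0 : ℝ) < (E r).card := lt_of_lt_of_le (Real.exp_pos _) (hF.card r)
    exact_mod_cast h2
  · refine ⟨fun _ => p r, ?_⟩
    unfold BB
    rw [Fintype.mem_piFinset]
    intro i
    rw [Finset.mem_Icc]
    have h3 := hF.side r i
    exact ⟨le_rfl, by linarith⟩

private theorem real_le_of_diff {X : Type*} [MeasurableSpace X] (μ : Measure X) [IsFiniteMeasure μ]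
    {Z O : Set X} {c : ℝ} (h : (μ (Z \ O)).toReal ≤ c) :
    (μ Z).toReal - c ≤ (μ O).toReal := by
  have h1 : μ Z ≤ μ O + μ (Z \ O) := by
    have h2 : Z ⊆ O ∪ (Z \ O) := by
      intro x hx
      by_cases h : x ∈ O
      · exact Or.inl h
      · exact Or.inr ⟨hx, h⟩
    exact (measure_mono h2).trans (measure_union_le _ _)
  have h3 : (μ Z).toReal ≤ (μ O).toReal + (μ (Z \ O)).toReal := by
    rw [← ENNReal.toReal_add (measure_ne_top _ _) (measure_ne_top _ _)]
    exact ENNReal.toReal_mono (ENNReal.add_ne_top.2 ⟨measure_ne_top _ _, measure_ne_top _ _⟩) h1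
  linarith

private theorem real_iUnion {X : Type*} [MeasurableSpace X] (μ : Measure X) [IsFiniteMeasure μ]
    {m : ℕ} {O : Fin m → Set X} (hO : ∀ j, MeasurableSet (O j))
    (hd : Pairwise fun i j => Disjoint (O i) (O j)) :
    (μ (⋃ j, O j)).toReal = ∑ j, (μ (O j)).toReal := by
  rw [measure_iUnion hd hO, tsum_fintype, ENNReal.toReal_sum]
  intro j _
  exact measure_ne_top _ _

theorem forward_meas {m : ℕ} (hm : 2 ≤ m) {Λ : ℕ} (hΛ : 2 ^ 40 ≤ Λ)
    (hΛ2 : Real.log 4 / Real.log Λ ≤ 1 / (100 * (m + 1))) {D : ℝ} (hD : 0 < D) (hM : Marg m Λ D)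
    (C : ℝ) : ∃ η0 : ℝ, 0 < η0 ∧ ∀ η : ℝ, 0 < η → η ≤ η0 →
    ∀ (t : ℕ → ℝ) (sh : ℕ → Fin m → ℤ) (p : ℕ → ℤ) (E : ℕ → Finset (SLn (m + 1)))
      (v : ℕ → SLn (m + 1) → Fin m → ℝ) (y0 : ℕ → X (m + 1)), FSys m Λ η C t sh p E v y0 →
    ∀ (U : Ultrafilter ℕ), (U : Filter ℕ) ≤ atTop → ∀ μ : Measure (X (m + 1)),
      LimM U (fam sh p E) (fpt Λ v y0) μ →
    ∀ Z : Fin m → Set (X (m + 1)), (∀ j, MeasurableSet (Z j)) → (∀ j, WInv Λ (Z j)) →
      (∀ j, CD μ j.succ 0 (Z j)) → (Pairwise fun i j => Disjoint (Z i) (Z j)) →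
      9 / 10 * ∑ j, (μ (Z j)).toReal + 1 / 2 * (1 - (μ Set.univ).toReal) ≤
        (1 + 1 / 20) / (m + 1) := by
  obtain ⟨η0, hη0, H⟩ := forward_frq hm hΛ hΛ2 hD hM C
  refine ⟨η0, hη0, ?_⟩
  intro η hη1 hη2 t sh p E v y0 hF U hU μ hμ Z hZm hZw hZc hZd
  have H1 := H η hη1 hη2 t sh p E v y0 hF
  have : IsFiniteMeasure μ := limM_finite hμ
  have hinv : Inv μ (W Λ 0) := limM_inv hF hU hμ 0
  have hΛ' : 2 ≤ Λ := le_trans (by norm_num) hΛ
  obtain ⟨ht0, ht1, ht2, ht3⟩ := h6_tol_pos m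
  have htol2 : tol m < 1 / 2 := by nlinarith [mul_pos ht3 ht0]
  have hm0 : (0 : ℝ) < (m : ℝ) + 1 := by positivity
  have ha0 : (0 : ℝ) ≤ (m : ℝ) / tol m := by positivity
  -- the small constant
  obtain ⟨e, he0, he⟩ : ∃ e : ℝ, 0 < e ∧ ((m : ℝ) / tol m + 2) * e = 1 / (100 * ((m : ℝ) + 1)) :=
    ⟨1 / (100 * ((m : ℝ) + 1)) / ((m : ℝ) / tol m + 2), by positivity, by field_simp⟩
  -- compact sets
  choose K hKZ hKc hKd hKm using fun j =>
    exists_compact_disc_large hΛ' μ hinv (hZm j) (hZw j) (hZc j) he0 (Λ : ℝ)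
  have hKdis : Pairwise fun i j => Disjoint (K i) (K j) := fun i j hij =>
    (hZd hij).mono (hKZ i) (hKZ j)
  obtain ⟨eps, M1, S, heps, heps1, hM1, hS, hSd⟩ := exists_star hΛ' K hKc hKdis hKd
  obtain ⟨L, hL1, HL⟩ := H1 eps M1 heps heps1 hM1
  obtain ⟨M2, HM2⟩ := HL L le_rfl
  have H2 := (HM2 S (fun j => (hS j).2.2.2) (fun j => (hS j).2.2.1)).filter_mono hU
  -- the sets of the points with a type
  have hOo : ∀ j, IsOpen {z : X (m + 1) | Ty Λ L (tol m) (S j) z} := fun j => isOpen_Ty (hS j).1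
  have hOd : Pairwise fun i j => Disjoint {z : X (m + 1) | Ty Λ L (tol m) (S i) z}
      {z : X (m + 1) | Ty Λ L (tol m) (S j) z} := by
    intro i j hij
    rw [Set.disjoint_left]
    intro z h1 h2
    exact Ty_disjoint hL1 htol2 (hSd hij) z h1 h2
  have hTE : {z : X (m + 1) | TE Λ L (tol m) S z} =
      ⋃ j, {z : X (m + 1) | Ty Λ L (tol m) (S j) z} := by
    ext z
    simp only [Set.mem_iUnion]
    exact Iff.rfl
  have hTEo : IsOpen {z : X (m + 1) | TE Λ L (tol m) S z} := by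
    rw [hTE]
    exact isOpen_iUnion hOo
  have hμTE : (μ {z : X (m + 1) | TE Λ L (tol m) S z}).toReal =
      ∑ j, (μ {z : X (m + 1) | Ty Λ L (tol m) (S j) z}).toReal := by
    rw [hTE]
    exact real_iUnion μ (fun j => (hOo j).measurableSet) hOd
  have hμO : ∀ j, (μ (Z j)).toReal - e / tol m ≤
      (μ {z : X (m + 1) | Ty Λ L (tol m) (S j) z}).toReal := by
    intro j
    refine real_le_of_diff μ ?_
    refine (not_Ty_le hL1 ht0 μ hinv (hZm j) (hKc j).isClosed.measurableSet (hZw j)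
      (hS j).2.1).trans ?_
    exact div_le_div_of_nonneg_right (hKm j) ht0.le
  have hsum : ∑ j, (μ (Z j)).toReal - (m : ℝ) / tol m * e ≤
      (μ {z : X (m + 1) | TE Λ L (tol m) S z}).toReal := by
    rw [hμTE]
    have h1 := Finset.sum_le_sum fun j (_ : j ∈ (Finset.univ : Finset (Fin m))) => hμO j
    rw [Finset.sum_sub_distrib, Finset.sum_const, Finset.card_univ, Fintype.card_fin,
      nsmul_eq_mul] at h1
    have h2 : (m : ℝ) / tol m * e = (m : ℝ) * (e / tol m) := by ring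
    rw [h2]
    exact h1
  -- the frequencies
  have H3 := frq_open hμ hTEo he0
  have H4 := frq_compact hμ (isCompact_alf_le (m + 1) (Nat.succ_pos m) M2) he0
  have H5 := (fam_nonempty hF).filter_mono hU
  obtain ⟨r, h2, h3, h4, h5⟩ := (H2.and (H3.and (H4.and H5))).exists
  have h6 := frq_add_ge h5 (fpt Λ v y0 r) (A := {z : X (m + 1) | M2 ≤ alf z})
    (B := {y : X (m + 1) | alf y ≤ M2}) (fun x => le_total M2 (alf x))
  have h7 : (1 + 1 / 20) / ((m : ℝ) + 1) - (1 + 1 / 25) / (m + 1) = 1 / (100 * ((m : ℝ) + 1)) := by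
    field_simp
    norm_num
  have h8 : 0 ≤ (m : ℝ) / tol m * e := by positivity
  nlinarith [h2, h3, h4, h6, h7, hsum, he, h8, he0]

end Pool.Agent.Lib.MP_41a456_al.TC
end

section

/-!
# MP_41a456_al, Theorem TC, M1: Theorem TC

Paper 521, section 10, `n = m + 1`.
`Λ` and `D` from `margulis`, `Λ ≥ 2^40` and `log 4 / log Λ ≤ 1/(100 (m+1))`; `C2` from `exists_fsys`; `η0` = minimum of `1`
and the `η0` of `forward_meas` for `C2`. A trap gives two forward systems; `U = hyperfilter`; limit measures `μ`, `μ'`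
(`exists_limM`), `W_k`-invariant (`limM_inv`); `forward_meas` for both. Limits `c0`, `d0` of `c`, `d` along `U`
(`exists_lim_bdd`). `O'' = {y : ex c0 • y ∈ O'}` is open and not empty and `μ O'' = 0`: the points `(g * ex (c r)) • yh` have the limit
measure `μ.map (ex c0 • ·)` (`limM_perturb_ex`) and avoid `O'` (`limM_avoid`). `μ'.map th = μ.map (ex d0 • ·)`: `limM_th`,
`limM_reindex`, `limM_perturb_ex`, `limM_unique`. `backward` gives `hb` of `dichotomy`. `final_contradiction` for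
`μ.restrict X'` (zero on `O''`) gives `μ X' = 0`, contradiction.
-/

namespace Pool.Agent.Lib.MP_41a456_al.TC

open Matrix MeasureTheory Filter Topology Pool.Agent.Lib.MP_41a456_al

open Classical in
/-- diagonal choice -/
private theorem m1_diag {n : ℕ} {ι : Type} {P : ℕ → ι → SLr n → Prop} {F : ℕ → Finset ι}
    (h : ∀ V ∈ 𝓝 (1 : SLr n), ∀ᶠ r in atTop, ∀ i ∈ F r, ∃ g ∈ V, P r i g) :
    ∃ G : ℕ → ι → SLr n, (∀ᶠ r in atTop, ∀ i ∈ F r, P r i (G r i)) ∧
      ∀ V ∈ 𝓝 (1 : SLr n), ∀ᶠ r in atTop, ∀ i ∈ F r, G r i ∈ V := by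
  obtain ⟨V, hV⟩ := (𝓝 (1 : SLr n)).exists_antitone_basis
  set N : ℕ → ι → ℕ := fun r i => Nat.findGreatest (fun l => ∃ g ∈ V l, P r i g) r with hN
  set G : ℕ → ι → SLr n := fun r i =>
    if hex : ∃ g ∈ V (N r i), P r i g then hex.choose else 1 with hG
  have key : ∀ l : ℕ, ∀ᶠ r in atTop, ∀ i ∈ F r, P r i (G r i) ∧ G r i ∈ V l := by
    intro l
    filter_upwards [h (V l) (hV.1.mem_of_mem trivial), eventually_ge_atTop l] with r hr hlr i hi
    have h1 : ∃ g ∈ V (N r i), P r i g :=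
      Nat.findGreatest_spec (P := fun l => ∃ g ∈ V l, P r i g) hlr (hr i hi)
    have h2 : l ≤ N r i :=
      Nat.le_findGreatest (P := fun l => ∃ g ∈ V l, P r i g) hlr (hr i hi)
    have h3 : G r i = h1.choose := dif_pos h1
    rw [h3]
    exact ⟨h1.choose_spec.2, hV.2 h2 h1.choose_spec.1⟩
  refine ⟨G, ?_, ?_⟩
  · filter_upwards [key 0] with r hr i hi
    exact (hr i hi).1
  · intro W hW
    obtain ⟨l, -, hl⟩ := hV.1.mem_iff.1 hW
    filter_upwards [key l] with r hr i hi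
    exact hl (hr i hi).2

theorem TC {m : ℕ} (hm : 2 ≤ m) (C : ℝ) : ∃ η0 : ℝ, 0 < η0 ∧ ∀ η : ℝ, 0 < η → η ≤ η0 →
    ∀ (R0 : ℝ) (t : ℕ → ℝ) (a : ℕ → Fin (m + 1) → ℝ) (E : ℕ → Finset (SLn (m + 1)))
      (k k' : SLn (m + 1) → SLr (m + 1)) (av : SLn (m + 1) → Fin (m + 1) → ℝ)
      (O : Set (X (m + 1))), ¬ Trap m η C R0 t a E k k' av O := by
  obtain ⟨Λ0, hΛ0⟩ := margulis hm
  set Λ : ℕ := max Λ0 (max (2 ^ 40) (4 ^ (100 * (m + 1)))) with hΛd
  have hΛ : 2 ^ 40 ≤ Λ := (le_max_left _ _).trans (le_max_right _ _)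
  have hΛ2 : 2 ≤ Λ := le_trans (by norm_num) hΛ
  have hΛ4 : 4 ^ (100 * (m + 1)) ≤ Λ := (le_max_right _ _).trans (le_max_right _ _)
  obtain ⟨D, hD1, hMarg⟩ := hΛ0 Λ (le_max_left _ _)
  have hD : 0 < D := by linarith
  have hM : Marg m Λ D := hMarg
  have hlog4 : 0 < Real.log 4 := Real.log_pos (by norm_num)
  have hlog : 100 * ((m : ℝ) + 1) * Real.log 4 ≤ Real.log Λ := by
    have h1 : Real.log ((4 : ℝ) ^ (100 * (m + 1))) ≤ Real.log Λ := by
      apply Real.log_le_log (by positivity)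
      exact_mod_cast hΛ4
    rw [Real.log_pow] at h1
    push_cast at h1
    exact h1
  have hlogΛ : 0 < Real.log Λ := by
    have : 0 < 100 * ((m : ℝ) + 1) * Real.log 4 := by positivity
    linarith
  have hΛlog : Real.log 4 / Real.log Λ ≤ 1 / (100 * (m + 1)) := by
    rw [div_le_div_iff₀ hlogΛ (by positivity)]
    linarith
  obtain ⟨C2, -, hfs⟩ := exists_fsys hm hΛ2 C
  obtain ⟨η1, hη1, hforw⟩ := forward_meas hm hΛ hΛlog hD hM C2
  refine ⟨min 1 η1, lt_min one_pos hη1, ?_⟩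
  intro η hη hη0 R0 t a E k k' av O hTrap
  obtain ⟨t', sh, p, E', v, v', y0, y0', c, d, O', hF, hF', hO', hO'ne, hc, hd, hcO, hdth⟩ :=
    hfs η hη (hη0.trans (min_le_left _ _)) R0 t a E k k' av O hTrap
  have hηη1 : η ≤ η1 := hη0.trans (min_le_right _ _)
  -- the ultrafilter and the limit measures
  set U : Ultrafilter ℕ := Filter.hyperfilter ℕ with hUd
  have hU : (U : Filter ℕ) ≤ atTop := Nat.hyperfilter_le_atTop
  obtain ⟨μ, hμ⟩ := exists_limM U (fam sh p E') (fpt Λ v y0)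
  obtain ⟨μ', hμ'⟩ := exists_limM U (fam sh p E') (fpt Λ v' y0')
  have hfin : IsFiniteMeasure μ := limM_finite hμ
  have hfin' : IsFiniteMeasure μ' := limM_finite hμ'
  have hW : ∀ l, Inv μ (W Λ l) := fun l => limM_inv hF hU hμ l
  have hf := hforw η hη hηη1 t' sh p E' v y0 hF U hU μ hμ
  have hf' := hforw η hη hηη1 t' sh p E' v' y0' hF' U hU μ' hμ'
  obtain ⟨c0, hc0⟩ := exists_lim_bdd U c hc
  obtain ⟨d0, hd0⟩ := exists_lim_bdd U d hd
  -- the open set
  obtain ⟨G, hG1, hG2⟩ := m1_diag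
    (P := fun r (xs : SLn (m + 1) × (Fin m → ℤ)) g => (g * ex (c r)) • fpt Λ v y0 r xs ∉ O')
    (F := fam sh p E') (fun V hV => by
      filter_upwards [hcO V hV] with r hr xs hxs
      obtain ⟨h1, h2⟩ := Finset.mem_product.1 hxs
      exact hr xs.1 h1 xs.2 h2)
  have hlim1 : LimM U (fam sh p E') (fun r xs => (G r xs * ex (c r)) • fpt Λ v y0 r xs)
      (μ.map fun y => ex c0 • y) := by
    refine limM_perturb_ex hμ c c0 hc0 ?_
    intro V hV
    filter_upwards [hU (hG2 V hV)] with r hr xs hxs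
    exact ⟨G r xs, hr xs hxs, rfl⟩
  have hO0 : (μ.map fun y => ex c0 • y) O' = 0 := limM_avoid hlim1 hO' (hU hG1)
  set O2 : Set (X (m + 1)) := (fun y => ex c0 • y) ⁻¹' O' with hO2
  have hO2o : IsOpen O2 := hO'.preimage (continuous_const_smul (ex c0))
  have hO2ne : O2.Nonempty := by
    obtain ⟨z, hz⟩ := hO'ne
    refine ⟨(ex c0)⁻¹ • z, ?_⟩
    change ex c0 • (ex c0)⁻¹ • z ∈ O'
    rw [smul_inv_smul]
    exact hz
  have hO20 : μ O2 = 0 := by
    rw [Measure.map_apply (measurable_smul_X _) hO'.measurableSet] at hO0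
    exact hO0
  -- the backward inequality
  have hth : μ'.map th = μ.map fun y => ex d0 • y := by
    have h1 : LimM U (fam sh p E') (fun r xs => th (fpt Λ v' y0' r xs)) (μ'.map th) := limM_th hμ'
    have h2 : LimM U (fam sh p E') (fun r xs => th (fpt Λ v' y0' r xs))
        (μ.map fun y => ex d0 • y) := by
      refine limM_perturb_ex (limM_reindex hμ) d d0 hd0 ?_
      intro V hV
      filter_upwards [hU (hdth V hV)] with r hr xs hxs
      obtain ⟨h3, h4⟩ := Finset.mem_product.1 hxs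
      exact hr xs.1 h3 xs.2 h4
    exact limM_unique h1 h2
  have hb := backward hΛ2 μ μ' d0 hth hf'
  obtain ⟨X', -, hX'0, hX'W, hN1, hN2⟩ := dichotomy hm hΛ2 μ hμ.le_one hW hf hb
  have hzero : μ.restrict X' = 0 := by
    refine final_contradiction hm hΛ2 (μ.restrict X') hX'W hN1 hN2 hO2o hO2ne ?_
    exact le_antisymm ((Measure.restrict_apply_le X' O2).trans hO20.le) bot_le
  exact hX'0 (Measure.restrict_eq_zero.1 hzero)

end Pool.Agent.Lib.MP_41a456_al.TC
end

section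

/-!
# MP_41a456_al, Theorem TC, M2: the main theorem

`q + 3 = n`, `m = q + 2`. If `J` does not have finite codimension, `exists_trap` and `TC` for a small `η` are in contradiction.
-/

namespace Pool.Agent.Lib.MP_41a456_al.TC

open Matrix MeasureTheory Filter Topology Pool.Agent.Lib.MP_41a456_al

theorem main_bi {q : ℕ} {K : Type} [Field K] {s : K} {J : Submodule K (Mt (q + 3) →₀ K)}
    (hJ : Bi s J) (h0 : J ≠ ⊥) : ∃ T : Finset (SLn (q + 3)), ∀ g : SLn (q + 3),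
      Ph s g ∈ J ⊔ Submodule.span K (Ph s '' (T : Set (SLn (q + 3)))) := by
  by_contra hinf
  obtain ⟨C, η1, _, hη1, h⟩ := exists_trap (q := q)
  obtain ⟨η0, hη0, h'⟩ := TC (m := q + 2) (by omega) C
  obtain ⟨R0, t, a, E, k, k', av, O, hT⟩ := h (min η0 η1) (lt_min hη0 hη1) (min_le_right _ _)
    hJ h0 hinf
  exact h' (min η0 η1) (lt_min hη0 hη1) (min_le_left _ _) R0 t a E k k' av O hT

end Pool.Agent.Lib.MP_41a456_al.TC
end

section

/-!
# MP_41a456_al, Theorem TC, M4: the answer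

The frozen statement S01309.
-/

namespace Pool.Agent.Lib.MP_41a456_al.TC

open Matrix MeasureTheory Filter Topology Pool.Agent.Lib.MP_41a456_al

theorem noetherian_ideals (n : ℕ) (hn : 3 ≤ n) (K : Type) [Field K]
    (I : ℕ → TwoSidedIdeal (MonoidAlgebra K (Matrix.SpecialLinearGroup (Fin n) ℤ)))
    (hI : Monotone I) : ∃ m : ℕ, ∀ k : ℕ, m ≤ k → I k = I m := by
  obtain ⟨q, rfl⟩ : ∃ q, n = q + 3 := ⟨n - 3, by omega⟩
  exact chain_of_fin (by omega) (fun s _ J hJ h0 => main_bi hJ h0) I hI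

end Pool.Agent.Lib.MP_41a456_al.TC
end
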